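import Pool.Agent.ACC.Lib

/-!
MP_851278_al, module BDD: bonds of bounded size have bounded diameter.
-/

set_option autoImplicit false

namespace Pool.Agent.ACC

theorem bdd_proof (h1 : Stmt_BDO) : Stmt_BDD := by
  intro V X G hX hG hE m
  obtain ⟨F, hF, hFS, hFA⟩ := h1 V X G hX hG hE m
  have hT : (⋃ B ∈ F, ⋃ e ∈ bd X B, {x : V | x ∈ e}).Finite := by
    refine hF.biUnion fun B hB => ?_
    refine (hFS hB).1.1.biUnion fun e _ => ?_
    induction e with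
    | _ a b =>
      refine (Set.toFinite ({a, b} : Set V)).subset ?_
      intro x hx
      have hx' : x ∈ s(a, b) := hx
      rw [Sym2.mem_iff] at hx'
      exact hx'
  obtain ⟨c, hc⟩ := ((hT.prod hT).image (fun p : V × V => X.dist p.1 p.2)).bddAbove
  refine ⟨c, ?_⟩
  intro A hA hAm e he e' he' x hx y hy
  obtain ⟨g, hg, B, hB, rfl⟩ := hFA A ⟨hA, hAm⟩
  have hgA : ∀ x y, X.Adj (g x) (g y) ↔ X.Adj x y := hG g hg
  rw [bd_image X g hgA] at he he'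
  obtain ⟨e0, he0, rfl⟩ := he
  obtain ⟨e1, he1, rfl⟩ := he'
  rw [Sym2.mem_map] at hx hy
  obtain ⟨x0, hx0, rfl⟩ := hx
  obtain ⟨y0, hy0, rfl⟩ := hy
  have hle : X.dist (g x0) (g y0) ≤ X.dist x0 y0 := by
    obtain ⟨p, hp⟩ := (hX.preconnected x0 y0).exists_walk_length_eq_dist
    have h2 := SimpleGraph.dist_le (p.map ⟨g, fun {a b} h => (hgA a b).2 h⟩)
    rw [SimpleGraph.Walk.length_map, hp] at h2
    exact h2
  refine hle.trans ?_
  apply hc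
  refine ⟨(x0, y0), ⟨?_, ?_⟩, rfl⟩
  · exact Set.mem_iUnion₂.2 ⟨B, hB, Set.mem_iUnion₂.2 ⟨e0, he0, hx0⟩⟩
  · exact Set.mem_iUnion₂.2 ⟨B, hB, Set.mem_iUnion₂.2 ⟨e1, he1, hy0⟩⟩

end Pool.Agent.ACC
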