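import Pool.Agent.ACC.Lib

/-!
# BDI: a vertex set is determined by its boundary up to complement
-/

set_option autoImplicit false

namespace Pool.Agent.ACC

namespace BDI_

lemma step {V : Type} (X : SimpleGraph V) (A B : Set V) (h : bd X A = bd X B) (x y : V)
    (hxy : X.Adj x y) : (x ∈ A ↔ x ∈ B) ↔ (y ∈ A ↔ y ∈ B) := by
  have h1 := mem_bd_iff X A x y
  have h2 := mem_bd_iff X B x y
  rw [h] at h1
  tauto

lemma walk {V : Type} (X : SimpleGraph V) (A B : Set V) (h : bd X A = bd X B) (x y : V)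
    (w : X.Walk x y) : (x ∈ A ↔ x ∈ B) ↔ (y ∈ A ↔ y ∈ B) := by
  induction w with
  | nil => exact Iff.rfl
  | cons hadj _ ih => exact (step X A B h _ _ hadj).trans ih

end BDI_

open BDI_ in
theorem bdi_proof : Stmt_BDI := by
  intro V X hX A B h
  have key : ∀ x y, (x ∈ A ↔ x ∈ B) ↔ (y ∈ A ↔ y ∈ B) := by
    intro x y
    obtain ⟨w⟩ := hX.preconnected x y
    exact walk X A B h x y w
  obtain ⟨x0⟩ := hX.nonempty
  by_cases h0 : x0 ∈ A ↔ x0 ∈ B
  · left
    ext y
    exact (key x0 y).mp h0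
  · right
    ext y
    have hy : ¬ (y ∈ A ↔ y ∈ B) := fun h' => h0 ((key x0 y).mpr h')
    rw [Set.mem_compl_iff]
    tauto

end Pool.Agent.ACC
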