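import Pool.Agent.ACC.Lib

/-!
# BDO: finitely many orbits of bonds of bounded size
-/

set_option autoImplicit false

namespace Pool.Agent.ACC

namespace BDO_

lemma conn_image {V : Type} (X : SimpleGraph V) (g : Equiv.Perm V)
    (hg : ∀ x y, X.Adj (g x) (g y) ↔ X.Adj x y) (A : Set V) (h : (X.induce A).Connected) :
    (X.induce (g '' A)).Connected := by
  let φ : X.induce A ≃g X.induce (g '' A) :=
    { toEquiv := g.image A
      map_rel_iff' := by
        intro a b
        exact hg a b }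
  exact φ.connected_iff.1 h

lemma bond_image {V : Type} (X : SimpleGraph V) (g : Equiv.Perm V)
    (hg : ∀ x y, X.Adj (g x) (g y) ↔ X.Adj x y) (A : Set V) (h : IsBond X A) :
    IsBond X (g '' A) := by
  refine ⟨(bd_image_finite X g hg A).2 h.1, conn_image X g hg A h.2.1, ?_⟩
  rw [← image_compl]
  exact conn_image X g hg _ h.2.2

end BDO_

open BDO_ in
theorem bdo_proof (h1 : Stmt_FBL) : Stmt_BDO := by
  intro V X G hX hG hE m
  obtain ⟨F0, hF0, hrep⟩ := hE
  refine ⟨⋃ f ∈ F0, {A : Set V | IsBond X A ∧ (bd X A).ncard ≤ m ∧ f ∈ bd X A},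
    hF0.biUnion fun f _ => h1 V X hX m f, ?_, ?_⟩
  · intro A hA
    obtain ⟨f, -, hA'⟩ := Set.mem_iUnion₂.1 hA
    exact ⟨hA'.1, hA'.2.1⟩
  · rintro A ⟨hA, hAm⟩
    obtain ⟨e, he⟩ := bd_nonempty hX hA.nonempty hA.compl_nonempty
    obtain ⟨g, hgG, f, hf, rfl⟩ := hrep e (bd_subset_edgeSet X A he)
    have hg := hG g hgG
    have hg' := adj_inv hg
    have hAe : g '' ((g⁻¹ : Equiv.Perm V) '' A) = A := image_image_inv g A
    refine ⟨g, hgG, (g⁻¹ : Equiv.Perm V) '' A, ?_, hAe⟩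
    refine Set.mem_iUnion₂.2 ⟨f, hf, bond_image X g⁻¹ hg' A hA, ?_, ?_⟩
    · rw [bd_image_ncard X g⁻¹ hg' A]; exact hAm
    · rw [← hAe, bd_image X g hg, (sym2_map_injective g).mem_set_image] at he
      exact he

end Pool.Agent.ACC
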