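import Pool.Agent.ACC.StmtsA

/-!
MP_851278_al: basic lemmas (proved), to be used in all modules of Part I.
-/

set_option autoImplicit false

namespace Pool.Agent.ACC

variable {V : Type}

/-! ### Edge boundaries -/

theorem mem_bd_iff (X : SimpleGraph V) (A : Set V) (x y : V) :
    s(x, y) ∈ bd X A ↔ X.Adj x y ∧ ((x ∈ A ∧ y ∉ A) ∨ (x ∉ A ∧ y ∈ A)) := by
  constructor
  · rintro ⟨a, b, hab, ha, hb, h⟩
    rw [Sym2.eq_iff] at h
    rcases h with ⟨rfl, rfl⟩ | ⟨rfl, rfl⟩
    · exact ⟨hab, Or.inl ⟨ha, hb⟩⟩
    · exact ⟨hab.symm, Or.inr ⟨hb, ha⟩⟩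
  · rintro ⟨h, ⟨hx, hy⟩ | ⟨hx, hy⟩⟩
    · exact ⟨x, y, h, hx, hy, rfl⟩
    · exact ⟨y, x, h.symm, hy, hx, Sym2.eq_swap⟩

theorem bd_subset_edgeSet (X : SimpleGraph V) (A : Set V) : bd X A ⊆ X.edgeSet := by
  rintro e ⟨x, y, h, -, -, rfl⟩
  exact h

theorem bd_compl (X : SimpleGraph V) (A : Set V) : bd X Aᶜ = bd X A := by
  ext e
  induction e with
  | _ x y =>
    rw [mem_bd_iff, mem_bd_iff]
    simp only [Set.mem_compl_iff, not_not]
    tauto

theorem bd_empty (X : SimpleGraph V) : bd X ∅ = ∅ := by
  ext e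
  induction e with
  | _ x y =>
    rw [mem_bd_iff]
    simp

theorem bd_univ (X : SimpleGraph V) : bd X Set.univ = ∅ := by
  rw [← bd_compl, Set.compl_univ, bd_empty]

theorem bd_inter_subset (X : SimpleGraph V) (A B : Set V) : bd X (A ∩ B) ⊆ bd X A ∪ bd X B := by
  intro e
  induction e with
  | _ x y =>
    intro h
    rw [Set.mem_union, mem_bd_iff, mem_bd_iff]
    rw [mem_bd_iff] at h
    simp only [Set.mem_inter_iff] at h
    tauto

theorem bd_union_subset (X : SimpleGraph V) (A B : Set V) : bd X (A ∪ B) ⊆ bd X A ∪ bd X B := by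
  intro e
  induction e with
  | _ x y =>
    intro h
    rw [Set.mem_union, mem_bd_iff, mem_bd_iff]
    rw [mem_bd_iff] at h
    simp only [Set.mem_union] at h
    tauto

theorem bd_inter_finite (X : SimpleGraph V) {A B : Set V} (hA : (bd X A).Finite)
    (hB : (bd X B).Finite) : (bd X (A ∩ B)).Finite :=
  (hA.union hB).subset (bd_inter_subset X A B)

theorem bd_union_finite (X : SimpleGraph V) {A B : Set V} (hA : (bd X A).Finite)
    (hB : (bd X B).Finite) : (bd X (A ∪ B)).Finite :=
  (hA.union hB).subset (bd_union_subset X A B)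

theorem bd_compl_finite (X : SimpleGraph V) {A : Set V} (hA : (bd X A).Finite) :
    (bd X Aᶜ).Finite := by
  rw [bd_compl]; exact hA

/-- Submodularity. -/
theorem bd_submod (X : SimpleGraph V) {A B : Set V} (hA : (bd X A).Finite)
    (hB : (bd X B).Finite) :
    (bd X (A ∩ B)).ncard + (bd X (A ∪ B)).ncard ≤ (bd X A).ncard + (bd X B).ncard := by
  have h1 : bd X (A ∩ B) ∪ bd X (A ∪ B) ⊆ bd X A ∪ bd X B :=
    Set.union_subset (bd_inter_subset X A B) (bd_union_subset X A B)
  have h2 : bd X (A ∩ B) ∩ bd X (A ∪ B) ⊆ bd X A ∩ bd X B := by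
    intro e
    induction e with
    | _ x y =>
      intro h
      rw [Set.mem_inter_iff, mem_bd_iff, mem_bd_iff] at h ⊢
      simp only [Set.mem_union, Set.mem_inter_iff] at h
      tauto
  have hI := bd_inter_finite X hA hB
  have hU := bd_union_finite X hA hB
  rw [← Set.ncard_union_add_ncard_inter _ _ hI hU, ← Set.ncard_union_add_ncard_inter _ _ hA hB]
  exact Nat.add_le_add (Set.ncard_le_ncard h1 (hA.union hB))
    (Set.ncard_le_ncard h2 (hA.subset Set.inter_subset_left))

/-- Submodularity for opposite corners. -/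
theorem bd_submod' (X : SimpleGraph V) {A B : Set V} (hA : (bd X A).Finite)
    (hB : (bd X B).Finite) :
    (bd X (A ∩ B)).ncard + (bd X (Aᶜ ∩ Bᶜ)).ncard ≤ (bd X A).ncard + (bd X B).ncard := by
  rw [← Set.compl_union, bd_compl]
  exact bd_submod X hA hB

theorem sym2_map_injective (g : Equiv.Perm V) :
    Function.Injective (Sym2.map (g : V → V)) := Sym2.map.injective g.injective

theorem bd_image (X : SimpleGraph V) (g : Equiv.Perm V)
    (hg : ∀ x y, X.Adj (g x) (g y) ↔ X.Adj x y) (A : Set V) :
    bd X (g '' A) = Sym2.map g '' bd X A := by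
  ext e
  induction e with
  | _ x y =>
    obtain ⟨x, rfl⟩ := g.surjective x
    obtain ⟨y, rfl⟩ := g.surjective y
    rw [mem_bd_iff, hg]
    have : s(g x, g y) = Sym2.map g s(x, y) := rfl
    rw [this, (sym2_map_injective g).mem_set_image, mem_bd_iff,
      g.injective.mem_set_image, g.injective.mem_set_image]

theorem bd_image_finite (X : SimpleGraph V) (g : Equiv.Perm V)
    (hg : ∀ x y, X.Adj (g x) (g y) ↔ X.Adj x y) (A : Set V) :
    (bd X (g '' A)).Finite ↔ (bd X A).Finite := by
  rw [bd_image X g hg, Set.finite_image_iff (sym2_map_injective g).injOn]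

theorem bd_image_ncard (X : SimpleGraph V) (g : Equiv.Perm V)
    (hg : ∀ x y, X.Adj (g x) (g y) ↔ X.Adj x y) (A : Set V) :
    (bd X (g '' A)).ncard = (bd X A).ncard := by
  rw [bd_image X g hg, Set.ncard_image_of_injective _ (sym2_map_injective g)]

theorem adj_inv {X : SimpleGraph V} {g : Equiv.Perm V}
    (hg : ∀ x y, X.Adj (g x) (g y) ↔ X.Adj x y) :
    ∀ x y, X.Adj ((g⁻¹ : Equiv.Perm V) x) ((g⁻¹ : Equiv.Perm V) y) ↔ X.Adj x y := by
  intro x y
  rw [← hg]
  simp

theorem image_inv_image (g : Equiv.Perm V) (A : Set V) :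
    (g⁻¹ : Equiv.Perm V) '' (g '' A) = A := by
  rw [← Set.image_comp]
  have : ((g⁻¹ : Equiv.Perm V) : V → V) ∘ g = id := by ext x; simp
  rw [this, Set.image_id]

theorem image_image_inv (g : Equiv.Perm V) (A : Set V) :
    g '' ((g⁻¹ : Equiv.Perm V) '' A) = A := by
  rw [← Set.image_comp]
  have : (g : V → V) ∘ ((g⁻¹ : Equiv.Perm V) : V → V) = id := by ext x; simp
  rw [this, Set.image_id]

theorem image_compl (g : Equiv.Perm V) (A : Set V) : g '' Aᶜ = (g '' A)ᶜ :=
  Set.image_compl_eq g.bijective

theorem image_inter' (g : Equiv.Perm V) (A B : Set V) : g '' (A ∩ B) = g '' A ∩ g '' B :=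
  Set.image_inter g.injective

theorem image_subset_image (g : Equiv.Perm V) (A B : Set V) : g '' A ⊆ g '' B ↔ A ⊆ B :=
  Set.image_subset_image_iff g.injective

/-! ### Small, Gen -/

theorem small_compl {X : SimpleGraph V} {n : ℕ} {A : Set V} (h : A ∈ Small X n) :
    Aᶜ ∈ Small X n := by
  unfold Small at *
  simpa [bd_compl] using h

theorem small_mono {X : SimpleGraph V} {n m : ℕ} (h : n ≤ m) : Small X n ⊆ Small X m :=
  fun _ hA => ⟨hA.1, hA.2.trans h⟩

theorem small_image {X : SimpleGraph V} {g : Equiv.Perm V}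
    (hg : ∀ x y, X.Adj (g x) (g y) ↔ X.Adj x y) {n : ℕ} {A : Set V} (h : A ∈ Small X n) :
    g '' A ∈ Small X n :=
  ⟨(bd_image_finite X g hg A).2 h.1, by rw [bd_image_ncard X g hg]; exact h.2⟩

theorem Gen.mono {S T : Set (Set V)} (h : S ⊆ T) {A : Set V} (hA : Gen S A) : Gen T A := by
  induction hA with
  | base A hA => exact Gen.base A (h hA)
  | empty => exact Gen.empty
  | compl A _ ih => exact Gen.compl A ih
  | inter A B _ _ iA iB => exact Gen.inter A B iA iB

theorem Gen.univ {S : Set (Set V)} : Gen S Set.univ := by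
  rw [← Set.compl_empty]; exact Gen.compl _ Gen.empty

theorem Gen.union {S : Set (Set V)} {A B : Set V} (hA : Gen S A) (hB : Gen S B) :
    Gen S (A ∪ B) := by
  have : A ∪ B = (Aᶜ ∩ Bᶜ)ᶜ := by rw [Set.compl_inter, compl_compl, compl_compl]
  rw [this]
  exact Gen.compl _ (Gen.inter _ _ (Gen.compl _ hA) (Gen.compl _ hB))

theorem Gen.of_compl {S : Set (Set V)} {A : Set V} (hA : Gen S Aᶜ) : Gen S A := by
  have := Gen.compl _ hA
  rwa [compl_compl] at this

theorem Gen.compl_iff {S : Set (Set V)} {A : Set V} : Gen S Aᶜ ↔ Gen S A :=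
  ⟨Gen.of_compl, Gen.compl _⟩

/-- Transitivity: if all generators are generated by `T` then so is everything. -/
theorem Gen.trans {S T : Set (Set V)} (h : ∀ B ∈ S, Gen T B) {A : Set V} (hA : Gen S A) :
    Gen T A := by
  induction hA with
  | base A hA => exact h A hA
  | empty => exact Gen.empty
  | compl A _ ih => exact Gen.compl A ih
  | inter A B _ _ iA iB => exact Gen.inter A B iA iB

theorem Gen.preimage {W : Type} (f : V → W) {S : Set (Set W)} {A : Set W} (hA : Gen S A) :
    Gen ((fun B : Set W => f ⁻¹' B) '' S) (f ⁻¹' A) := by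
  induction hA with
  | base A hA => exact Gen.base _ ⟨A, hA, rfl⟩
  | empty => exact Gen.empty
  | compl A _ ih => exact Gen.compl _ ih
  | inter A B _ _ iA iB => exact Gen.inter _ _ iA iB

theorem Gen.image {S : Set (Set V)} {A : Set V} (g : Equiv.Perm V) (hA : Gen S A) :
    Gen ((fun B : Set V => g '' B) '' S) (g '' A) := by
  induction hA with
  | base A hA => exact Gen.base _ ⟨A, hA, rfl⟩
  | empty => rw [Set.image_empty]; exact Gen.empty
  | compl A _ ih => rw [image_compl]; exact Gen.compl _ ih
  | inter A B _ _ iA iB => rw [image_inter']; exact Gen.inter _ _ iA iB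

theorem Gen.small_image {X : SimpleGraph V} {g : Equiv.Perm V}
    (hg : ∀ x y, X.Adj (g x) (g y) ↔ X.Adj x y) {n : ℕ} {A : Set V} (h : Gen (Small X n) A) :
    Gen (Small X n) (g '' A) := by
  refine (h.image g).mono ?_
  rintro _ ⟨B, hB, rfl⟩
  exact Pool.Agent.ACC.small_image hg hB

theorem Gen.bd_finite {X : SimpleGraph V} {S : Set (Set V)} (h : ∀ B ∈ S, (bd X B).Finite)
    {A : Set V} (hA : Gen S A) : (bd X A).Finite := by
  induction hA with
  | base A hA => exact h A hA
  | empty => rw [bd_empty]; exact Set.finite_empty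
  | compl A _ ih => exact bd_compl_finite X ih
  | inter A B _ _ iA iB => exact bd_inter_finite X iA iB

/-! ### Nested sets -/

theorem Nested.symm {A B : Set V} (h : Nested A B) : Nested B A := by
  rcases h with h | h | h | h
  · right; right; right; exact Set.compl_subset_compl.2 h
  · right; left; exact Set.subset_compl_comm.1 h
  · right; right; left; exact Set.compl_subset_comm.1 h
  · left; exact Set.compl_subset_compl.1 h

theorem Nested.comm {A B : Set V} : Nested A B ↔ Nested B A := ⟨Nested.symm, Nested.symm⟩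

theorem Nested.compl_left {A B : Set V} : Nested Aᶜ B ↔ Nested A B := by
  unfold Nested
  rw [compl_compl]
  tauto

theorem Nested.compl_right {A B : Set V} : Nested A Bᶜ ↔ Nested A B := by
  unfold Nested
  rw [compl_compl]
  tauto

theorem Nested.refl (A : Set V) : Nested A A := Or.inl subset_rfl

theorem nested_empty (A : Set V) : Nested A ∅ := by
  right; left; rw [Set.compl_empty]; exact Set.subset_univ _

theorem nested_univ (A : Set V) : Nested A Set.univ := Or.inl (Set.subset_univ _)

theorem nested_image (g : Equiv.Perm V) (A B : Set V) : Nested (g '' A) (g '' B) ↔ Nested A B := by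
  unfold Nested
  rw [← image_compl, ← image_compl, image_subset_image, image_subset_image, image_subset_image,
    image_subset_image]

theorem nested_of_subset {A B : Set V} (h : A ⊆ B) : Nested A B := Or.inl h

theorem nested_of_disjoint {A B : Set V} (h : A ∩ B = ∅) : Nested A B :=
  Or.inr (Or.inl (fun x hx hB => by
    have : x ∈ A ∩ B := ⟨hx, hB⟩
    rw [h] at this
    exact this))

/-- N1: if `e` is nested with the crossing sets `A`, `B` then it is nested with their corners. -/
theorem nested_inter {A B e : Set V} (hAB : ¬ Nested A B) (hA : Nested e A) (hB : Nested e B) :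
    Nested e (A ∩ B) := by
  unfold Nested at *
  push Not at hAB
  obtain ⟨h1, h2, h3, h4⟩ := hAB
  rcases hA with hA | hA | hA | hA <;> rcases hB with hB | hB | hB | hB
  · left; exact Set.subset_inter hA hB
  · right; left; exact hB.trans (Set.compl_subset_compl.2 Set.inter_subset_right)
  · exact absurd ((Set.compl_subset_compl.2 hA).trans hB) h3
  · exact absurd ((Set.compl_subset_compl.2 hA).trans hB) h4
  · right; left; exact hA.trans (Set.compl_subset_compl.2 Set.inter_subset_left)
  · right; left; exact hA.trans (Set.compl_subset_compl.2 Set.inter_subset_left)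
  · exact absurd ((Set.subset_compl_comm.1 hA).trans hB) h1
  · exact absurd ((Set.subset_compl_comm.1 hA).trans hB) h2
  · exact absurd ((Set.compl_subset_comm.1 hA).trans hB) h3
  · exact absurd ((Set.compl_subset_comm.1 hA).trans hB) h4
  · right; right; left; exact Set.subset_inter hA hB
  · right; right; right; exact hB.trans (Set.compl_subset_compl.2 Set.inter_subset_right)
  · exact absurd ((Set.compl_subset_compl.1 hA).trans hB) h1
  · exact absurd ((Set.compl_subset_compl.1 hA).trans hB) h2
  · right; right; right; exact hA.trans (Set.compl_subset_compl.2 Set.inter_subset_left)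
  · right; right; right; exact hA.trans (Set.compl_subset_compl.2 Set.inter_subset_left)

/-- N2: if `e` is nested with `A` then it is nested with one of two opposite corners. -/
theorem nested_opposite {A e : Set V} (B : Set V) (hA : Nested e A) :
    Nested e (A ∩ B) ∨ Nested e (Aᶜ ∩ Bᶜ) := by
  have key : ∀ f g h : Set V, f ⊆ g → Nested f (gᶜ ∩ h) := by
    intro f g h hfg
    right; left
    intro x hx hx'
    exact hx'.1 (hfg hx)
  rcases hA with hA | hA | hA | hA
  · right; exact key e A Bᶜ hA
  · left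
    have := key e Aᶜ B hA
    rwa [compl_compl] at this
  · right
    rw [← Nested.compl_left]
    exact key eᶜ A Bᶜ hA
  · left
    rw [← Nested.compl_left]
    have := key eᶜ Aᶜ B hA
    rwa [compl_compl] at this

/-- The union of two corners. -/
theorem inter_union_inter_compl' (A B : Set V) : (A ∩ B) ∪ (A ∩ Bᶜ) = A := by
  rw [← Set.inter_union_distrib_left, Set.union_compl_self, Set.inter_univ]

/-! ### Connectedness -/

/-- In a connected induced subgraph without boundary edges of `B`, `B` is constant. -/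
theorem subset_or_subset_compl {X : SimpleGraph V} {A B : Set V} (hA : (X.induce A).Connected)
    (h : ∀ x ∈ A, ∀ y ∈ A, X.Adj x y → s(x, y) ∉ bd X B) : A ⊆ B ∨ A ⊆ Bᶜ := by
  classical
  obtain ⟨a⟩ := hA.nonempty
  have key : ∀ (x y : A) (_ : (X.induce A).Walk x y), ((x : V) ∈ B ↔ (y : V) ∈ B) := by
    intro x y p
    induction p with
    | nil => exact Iff.rfl
    | @cons u v w huv _ ih =>
      rw [← ih]
      have huv' : X.Adj (u : V) (v : V) := huv
      have := h u u.2 v v.2 huv'
      rw [mem_bd_iff] at this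
      tauto
  by_cases ha : (a : V) ∈ B
  · left
    intro x hx
    obtain ⟨p⟩ := hA.preconnected a ⟨x, hx⟩
    exact (key _ _ p).1 ha
  · right
    intro x hx hxB
    obtain ⟨p⟩ := hA.preconnected a ⟨x, hx⟩
    exact ha ((key _ _ p).2 hxB)

/-- In a connected graph a nonempty proper set has a boundary edge. -/
theorem bd_nonempty {X : SimpleGraph V} (hX : X.Connected) {A : Set V} (h1 : A.Nonempty)
    (h2 : Aᶜ.Nonempty) : (bd X A).Nonempty := by
  classical
  by_contra hne
  rw [Set.not_nonempty_iff_eq_empty] at hne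
  obtain ⟨x, hx⟩ := h1
  obtain ⟨y, hy⟩ := h2
  have key : ∀ (x y : V) (_ : X.Walk x y), (x ∈ A ↔ y ∈ A) := by
    intro x y p
    induction p with
    | nil => exact Iff.rfl
    | @cons u v w huv _ ih =>
      rw [← ih]
      have : s(u, v) ∉ bd X A := by rw [hne]; exact Set.notMem_empty _
      rw [mem_bd_iff] at this
      tauto
  obtain ⟨p⟩ := hX.preconnected x y
  exact hy ((key _ _ p).1 hx)

/-- A walk from `A` to its complement has a boundary edge. -/
theorem exists_bd_edge {X : SimpleGraph V} {A : Set V} {x y : V} (p : X.Walk x y) (hx : x ∈ A)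
    (hy : y ∉ A) : ∃ e ∈ p.edges, e ∈ bd X A := by
  induction p with
  | nil => exact absurd hx hy
  | @cons u v w huv q ih =>
    by_cases hv : v ∈ A
    · obtain ⟨e, he, heb⟩ := ih hv hy
      exact ⟨e, by rw [SimpleGraph.Walk.edges_cons]; exact List.mem_cons_of_mem _ he, heb⟩
    · refine ⟨s(u, v), by rw [SimpleGraph.Walk.edges_cons]; exact List.mem_cons_self, ?_⟩
      rw [mem_bd_iff]
      exact ⟨huv, Or.inl ⟨hx, hv⟩⟩

theorem IsBond.nonempty {X : SimpleGraph V} {A : Set V} (h : IsBond X A) : A.Nonempty := by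
  obtain ⟨a⟩ := h.2.1.nonempty
  exact ⟨a, a.2⟩

theorem IsBond.compl_nonempty {X : SimpleGraph V} {A : Set V} (h : IsBond X A) :
    Aᶜ.Nonempty := by
  obtain ⟨a⟩ := h.2.2.nonempty
  exact ⟨a, a.2⟩

theorem IsBond.compl {X : SimpleGraph V} {A : Set V} (h : IsBond X A) : IsBond X Aᶜ := by
  refine ⟨bd_compl_finite X h.1, h.2.2, ?_⟩
  rw [compl_compl]
  exact h.2.1

end Pool.Agent.ACC
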