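import Pool.Agent.ACC.StmtsB
import Pool.Agent.ACC.Lib

/-!
MP_851278_al, squads ACB, ACD: general lemmas (proved), for Part III.
-/

set_option autoImplicit false

namespace Pool.Agent.ACC

variable {V : Type}

/-! ### ZMod 2 -/

theorem z2_cases (a : ZMod 2) : a = 0 ∨ a = 1 := by
  revert a; decide

theorem z2_ne_iff (a b : ZMod 2) : a ≠ b ↔ a + b = 1 := by
  revert a b; decide

theorem z2_eq_iff (a b : ZMod 2) : a = b ↔ a + b = 0 := by
  revert a b; decide

theorem z2_add_self (a : ZMod 2) : a + a = 0 := CharTwo.add_self_eq_zero a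

theorem z2_ne_zero_iff (a : ZMod 2) : a ≠ 0 ↔ a = 1 := by
  revert a; decide

theorem z2_ne_one_iff (a : ZMod 2) : a ≠ 1 ↔ a = 0 := by
  revert a; decide

theorem even_iff_z2 (n : ℕ) : Even n ↔ ((n : ℕ) : ZMod 2) = 0 :=
  (ZMod.natCast_eq_zero_iff_even).symm

/-! ### `par` -/

theorem par_comm (l : List (Sym2 V)) (x y : V) : par l x y = par l y x := by
  unfold par
  rw [Sym2.eq_swap]

theorem par_nil (x y : V) : par ([] : List (Sym2 V)) x y = 0 := by
  simp [par]

theorem par_append (l m : List (Sym2 V)) (x y : V) :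
    par (l ++ m) x y = par l x y + par m x y := by
  simp [par, List.count_append]

theorem par_perm {l m : List (Sym2 V)} (h : l.Perm m) (x y : V) : par l x y = par m x y := by
  classical
  unfold par
  rw [h.count_eq]

theorem par_reverse (l : List (Sym2 V)) (x y : V) : par l.reverse x y = par l x y :=
  par_perm (List.reverse_perm l) x y

theorem par_of_notMem {l : List (Sym2 V)} {x y : V} (h : s(x, y) ∉ l) : par l x y = 0 := by
  classical
  unfold par
  rw [List.count_eq_zero_of_not_mem h]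
  rfl

theorem mem_of_par_ne {l : List (Sym2 V)} {x y : V} (h : par l x y ≠ 0) : s(x, y) ∈ l := by
  by_contra h'
  exact h (par_of_notMem h')

theorem par_cons_self (l : List (Sym2 V)) (x y : V) :
    par (s(x, y) :: l) x y = 1 + par l x y := by
  simp [par, add_comm]

theorem par_cons_ne (l : List (Sym2 V)) (e : Sym2 V) (x y : V) (h : e ≠ s(x, y)) :
    par (e :: l) x y = par l x y := by
  classical
  unfold par
  rw [List.count_cons_of_ne h]

/-! ### `wsum` -/

theorem wsum_nil {P : SimpleGraph V} (D : V → V → ZMod 2) (x : V) :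
    wsum D (SimpleGraph.Walk.nil : P.Walk x x) = 0 := by
  simp [wsum]

theorem wsum_cons {P : SimpleGraph V} (D : V → V → ZMod 2) {x y z : V} (h : P.Adj x y)
    (w : P.Walk y z) : wsum D (SimpleGraph.Walk.cons h w) = D x y + wsum D w := by
  simp [wsum]

theorem wsum_append {P : SimpleGraph V} (D : V → V → ZMod 2) {x y z : V} (w : P.Walk x y)
    (w' : P.Walk y z) : wsum D (w.append w') = wsum D w + wsum D w' := by
  simp [wsum, SimpleGraph.Walk.darts_append]

theorem wsum_reverse {P : SimpleGraph V} (D : V → V → ZMod 2) (hD : ∀ x y, D x y = D y x)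
    {x y : V} (w : P.Walk x y) : wsum D w.reverse = wsum D w := by
  induction w with
  | nil => simp [wsum]
  | cons h w ih =>
    rw [SimpleGraph.Walk.reverse_cons, wsum_append, ih, wsum_cons, wsum_cons, wsum_nil, hD]
    ring

theorem wsum_copy {P : SimpleGraph V} (D : V → V → ZMod 2) {x y x' y' : V} (w : P.Walk x y)
    (hx : x = x') (hy : y = y') : wsum D (w.copy hx hy) = wsum D w := by
  subst hx; subst hy; rfl

theorem wsum_congr {P : SimpleGraph V} (D D' : V → V → ZMod 2) {x y : V} (w : P.Walk x y)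
    (h : ∀ d ∈ w.darts, D d.fst d.snd = D' d.fst d.snd) : wsum D w = wsum D' w := by
  unfold wsum
  congr 1
  exact List.map_congr_left h

/-- the sum of a potential difference -/
theorem wsum_pot {P : SimpleGraph V} (D : V → V → ZMod 2) (h : V → ZMod 2) {x y : V}
    (w : P.Walk x y) (hw : ∀ d ∈ w.darts, D d.fst d.snd = h d.fst + h d.snd) :
    wsum D w = h x + h y := by
  induction w with
  | nil => rw [wsum_nil, z2_add_self]
  | @cons u v w' hadj p ih =>
    rw [wsum_cons, ih (fun d hd => hw d (by simp [hd]))]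
    have := hw ⟨(u, v), hadj⟩ (by simp)
    simp only at this
    rw [this]
    have h2 := z2_add_self (h v)
    calc h u + h v + (h v + h w') = h u + (h v + h v) + h w' := by ring
      _ = h u + h w' := by rw [h2, add_zero]

theorem wsum_cnt {P : SimpleGraph V} (D : Set (Sym2 V)) (d : V → V → ZMod 2)
    (hd1 : ∀ x y, s(x, y) ∈ D → d x y = 1) (hd0 : ∀ x y, s(x, y) ∉ D → d x y = 0) {x y : V}
    (w : P.Walk x y) : wsum d w = ((cnt D w.edges : ℕ) : ZMod 2) := by
  classical
  induction w with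
  | nil => simp [wsum, cnt]
  | @cons u v w' hadj p ih =>
    rw [wsum_cons, ih]
    unfold cnt
    rw [SimpleGraph.Walk.edges_cons, List.countP_cons]
    by_cases h : s(u, v) ∈ D
    · rw [hd1 _ _ h]
      simp [h, add_comm]
    · rw [hd0 _ _ h]
      simp [h]

theorem wsum_par {P : SimpleGraph V} (D : V → V → ZMod 2) (hD : ∀ x y, D x y = D y x)
    {x y : V} (w : P.Walk x y) : wsum D w = (w.edges.map (Sym2.lift ⟨D, hD⟩)).sum := by
  induction w with
  | nil => simp [wsum]
  | cons h w ih => rw [wsum_cons, ih]; simp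

/-! ### Distances in spanners -/

theorem dist_le_of_le {P X : SimpleGraph V} (h : P ≤ X) (hP : P.Connected) (x y : V) :
    X.dist x y ≤ P.dist x y := by
  obtain ⟨w, hw⟩ := hP.exists_walk_length_eq_dist x y
  rw [← hw]
  have := SimpleGraph.dist_le (w.mapLe h)
  simpa using this

theorem spanner_dist_le {X P : SimpleGraph V} {lam : ℕ} (h : Spanner X P lam) (x y : V) :
    X.dist x y ≤ P.dist x y :=
  dist_le_of_le h.1 h.2.1 x y

theorem spanner_walk {X P : SimpleGraph V} {lam : ℕ} (h : Spanner X P lam) {x y : V}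
    (w : X.Walk x y) : P.dist x y ≤ lam * w.length := by
  induction w with
  | nil => simp
  | @cons u v z hadj p ih =>
    have h1 := h.2.2 u v hadj
    have h2 := h.2.1.dist_triangle (u := u) (v := v) (w := z)
    rw [SimpleGraph.Walk.length_cons, Nat.mul_succ]
    omega

theorem spanner_dist_ge {X P : SimpleGraph V} {lam : ℕ} (hX : X.Connected)
    (h : Spanner X P lam) (x y : V) : P.dist x y ≤ lam * X.dist x y := by
  obtain ⟨w, hw⟩ := hX.exists_walk_length_eq_dist x y
  rw [← hw]
  exact spanner_walk h w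

/-- if `P`-distance is larger than `lam * k` then the `X`-distance is larger than `k` -/
theorem spanner_lt {X P : SimpleGraph V} {lam k : ℕ} (hX : X.Connected)
    (h : Spanner X P lam) {x y : V} (hk : lam * k < P.dist x y) : k < X.dist x y := by
  by_contra h'
  push Not at h'
  have h1 := spanner_dist_ge hX h x y
  have h2 := Nat.mul_le_mul_left lam h'
  omega

theorem support_dist {P : SimpleGraph V} {x y z : V} (w : P.Walk x y) (hz : z ∈ w.support) :
    P.dist x z + P.dist z y ≤ w.length := by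
  classical
  have h := congrArg SimpleGraph.Walk.length (w.take_spec hz)
  rw [SimpleGraph.Walk.length_append] at h
  have h1 := SimpleGraph.dist_le (w.takeUntil z hz)
  have h2 := SimpleGraph.dist_le (w.dropUntil z hz)
  omega

theorem exists_geod {P : SimpleGraph V} (hP : P.Connected) (x y : V) :
    ∃ w : P.Walk x y, w.length = P.dist x y ∧
      ∀ z ∈ w.support, P.dist x z + P.dist z y = P.dist x y := by
  obtain ⟨w, hw⟩ := hP.exists_walk_length_eq_dist x y
  refine ⟨w, hw, fun z hz => le_antisymm ?_ hP.dist_triangle⟩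
  rw [← hw]
  exact support_dist w hz

theorem exists_at_dist {P : SimpleGraph V} (hP : P.Connected) (x y : V) (m : ℕ)
    (hm : m ≤ P.dist x y) : ∃ z, P.dist x z = m ∧ P.dist z y = P.dist x y - m := by
  obtain ⟨w, hw⟩ := hP.exists_walk_length_eq_dist x y
  refine ⟨w.getVert m, ?_⟩
  have h1 := SimpleGraph.dist_le (w.take m)
  have h2 := SimpleGraph.dist_le (w.drop m)
  have h3 : P.dist x y ≤ P.dist x (w.getVert m) + P.dist (w.getVert m) y := hP.dist_triangle
  have e1 : (w.take m).length = m := by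
    rw [SimpleGraph.Walk.take_length]; omega
  have e2 : (w.drop m).length = P.dist x y - m := by
    rw [SimpleGraph.Walk.drop_length]; omega
  omega

/-! ### Connected sets -/

theorem cn_of_base {P : SimpleGraph V} {S : Set V} (x0 : V) (h0 : x0 ∈ S)
    (h : ∀ y ∈ S, ∃ w : P.Walk x0 y, ∀ z ∈ w.support, z ∈ S) : Cn P S := by
  refine ⟨⟨x0, h0⟩, fun x hx y hy => ?_⟩
  obtain ⟨w1, h1⟩ := h x hx
  obtain ⟨w2, h2⟩ := h y hy
  refine ⟨w1.reverse.append w2, fun z hz => ?_⟩
  rw [SimpleGraph.Walk.mem_support_append_iff, SimpleGraph.Walk.support_reverse,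
    List.mem_reverse] at hz
  rcases hz with hz | hz
  · exact h1 z hz
  · exact h2 z hz

theorem cn_mono {P X : SimpleGraph V} (hle : P ≤ X) {S : Set V} (h : Cn P S) : Cn X S := by
  refine ⟨h.1, fun x hx y hy => ?_⟩
  obtain ⟨w, hw⟩ := h.2 x hx y hy
  refine ⟨w.mapLe hle, fun z hz => hw z ?_⟩
  simpa using hz

theorem cn_support {P : SimpleGraph V} {x y : V} (w : P.Walk x y) :
    Cn P {z | z ∈ w.support} := by
  classical
  refine cn_of_base x w.start_mem_support (fun z hz => ?_)
  exact ⟨w.takeUntil z hz, fun z' hz' => w.support_takeUntil_subset_support hz hz'⟩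

theorem cn_union {P : SimpleGraph V} {S T : Set V} (hS : Cn P S) (hT : Cn P T) (x : V)
    (hxS : x ∈ S) (hxT : x ∈ T) : Cn P (S ∪ T) := by
  refine cn_of_base x (Or.inl hxS) (fun y hy => ?_)
  rcases hy with hy | hy
  · obtain ⟨w, hw⟩ := hS.2 x hxS y hy
    exact ⟨w, fun z hz => Or.inl (hw z hz)⟩
  · obtain ⟨w, hw⟩ := hT.2 x hxT y hy
    exact ⟨w, fun z hz => Or.inr (hw z hz)⟩

theorem cn_ball {X : SimpleGraph V} (hX : X.Connected) (x : V) (r : ℕ) : Cn X (ball X x r) := by
  refine cn_of_base x (by simp [ball]) (fun y hy => ?_)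
  obtain ⟨w, hw, hz⟩ := exists_geod hX x y
  refine ⟨w, fun z hz' => ?_⟩
  have := hz z hz'
  have hy' : X.dist x y ≤ r := hy
  show X.dist x z ≤ r
  omega

/-! ### Finiteness -/

theorem ball_finite {X : SimpleGraph V} (hX : X.Connected) (hl : LocFin X) (x : V) (r : ℕ) :
    (ball X x r).Finite := by
  induction r with
  | zero =>
    apply Set.Finite.subset (Set.finite_singleton x)
    intro y hy
    have hy' : X.dist x y ≤ 0 := hy
    have := (hX x y).dist_eq_zero_iff.mp (by omega)
    exact this.symm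
  | succ r ih =>
    apply Set.Finite.subset (ih.union (ih.biUnion (fun z _ => hl z)))
    intro y hy
    have hy' : X.dist x y ≤ r + 1 := hy
    by_cases h : X.dist x y ≤ r
    · exact Or.inl h
    · right
      have hd : X.dist x y = r + 1 := by omega
      obtain ⟨w, hw⟩ := hX.exists_walk_length_eq_dist y x
      cases w with
      | nil => simp at hd
      | @cons _ v _ hadj p =>
        rw [SimpleGraph.Walk.length_cons, SimpleGraph.dist_comm, hd] at hw
        refine Set.mem_biUnion (x := v) ?_ hadj.symm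
        have := SimpleGraph.dist_le p
        show X.dist x v ≤ r
        rw [SimpleGraph.dist_comm]
        omega

theorem nbd_finite {X : SimpleGraph V} (hX : X.Connected) (hl : LocFin X) {S : Set V}
    (hS : S.Finite) (r : ℕ) : (nbd X S r).Finite := by
  apply Set.Finite.subset (hS.biUnion (fun s _ => ball_finite hX hl s r))
  rintro v ⟨s, hs, h⟩
  exact Set.mem_biUnion hs h

theorem bg_locFin {X : SimpleGraph V} {f : ℕ → ℕ} (h : BG X f) : LocFin X := by
  intro x
  apply Set.Finite.subset (h x 1).1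
  intro y hy
  have hy' : X.Adj x y := hy
  show X.dist x y ≤ 1
  rw [SimpleGraph.dist_eq_one_iff_adj.mpr hy']

theorem locFin_of_le {P X : SimpleGraph V} (hle : P ≤ X) (hl : LocFin X) : LocFin P := by
  intro x
  exact (hl x).subset (fun y hy => hle hy)

/-! ### Neighbourhoods -/

theorem subset_nbd {X : SimpleGraph V} (S : Set V) (r : ℕ) : S ⊆ nbd X S r := by
  intro s hs
  exact ⟨s, hs, by simp⟩

theorem nbd_mono {X : SimpleGraph V} (S : Set V) {r r' : ℕ} (h : r ≤ r') :
    nbd X S r ⊆ nbd X S r' := by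
  rintro v ⟨s, hs, hv⟩
  exact ⟨s, hs, hv.trans h⟩

theorem noSep_mono {X : SimpleGraph V} {k : ℕ} {S T S' T' : Set V} (h : NoSep X k S T)
    (hS : S ⊆ S') (hT : T ⊆ T') : NoSep X k S' T' := by
  intro D hD h'
  exact h D hD ⟨hS.trans h'.1, hT.trans h'.2⟩

/-! ### Colourings -/

theorem Rot.inv_rev (R : Rot V) {c : V → V → ZMod 2} (hc : R.Inv c) {x y : V}
    (h : R.P.Adj x y) : c x (R.nx x y) = c y x :=
  hc y x h.symm

theorem Rot.bset_swap (R : Rot V) {c : V → V → ZMod 2} {x y : V} (h : (x, y) ∈ R.bset c) :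
    (y, x) ∈ R.bset c :=
  ⟨h.1.symm, fun h' => h.2 h'.symm⟩

theorem Rot.mem_bset_iff (R : Rot V) (c : V → V → ZMod 2) (x y : V) :
    (x, y) ∈ R.bset c ↔ R.P.Adj x y ∧ c x y + c y x = 1 := by
  unfold Rot.bset
  simp only [Set.mem_ofPred_eq]
  rw [z2_ne_iff]

theorem Rot.eqv_nx (R : Rot V) {x y : V} (h : R.P.Adj x y) : R.Eqv (x, y) (y, R.nx y x) :=
  fun _ hc => (hc.1 x y h).symm

theorem Rot.touch_of_adj (R : Rot V) {a : V × V} {x y : V} (h : R.P.Adj x y)
    (h' : R.Eqv a (x, y)) : R.Touch a x ∧ R.Touch a y :=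
  ⟨⟨y, h, h'⟩, ⟨R.nx y x, R.nx_adj y x h.symm, R.eqv_trans h' (R.eqv_nx h)⟩⟩

theorem Rot.touch_congr (R : Rot V) {a b : V × V} (h : R.Eqv a b) {x : V}
    (h' : R.Touch a x) : R.Touch b x := by
  obtain ⟨y, hy, hy'⟩ := h'
  exact ⟨y, hy, R.eqv_trans (R.eqv_symm h) hy'⟩

theorem near_congr {X : SimpleGraph V} {R : Rot V} {ρ : ℕ} {a b : V × V} (h : R.Eqv a b)
    {x : V} (h' : Near X R ρ a x) : Near X R ρ b x := by
  obtain ⟨y, hy, hy'⟩ := h'
  exact ⟨y, hy, R.touch_congr h hy'⟩

theorem near_mono {X : SimpleGraph V} {R : Rot V} {ρ ρ' : ℕ} (hρ : ρ ≤ ρ') {a : V × V}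
    {x : V} (h' : Near X R ρ a x) : Near X R ρ' a x := by
  obtain ⟨y, hy, hy'⟩ := h'
  exact ⟨y, hy.trans hρ, hy'⟩

theorem near_of_touch {X : SimpleGraph V} {R : Rot V} {a : V × V}
    {x : V} (h' : R.Touch a x) (ρ : ℕ) : Near X R ρ a x :=
  ⟨x, by simp, h'⟩

/-! ### Links -/

/-- the walk of a link -/
def Link.walk {P : SimpleGraph V} {X S Y : Set V} {x0 y0 : V} (L : Link P X S Y x0 y0) :
    P.Walk x0 y0 :=
  L.p1.append (SimpleGraph.Walk.cons L.h1 (L.p2.append (SimpleGraph.Walk.cons L.h2 L.p3)))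

theorem Link.walk_edges {P : SimpleGraph V} {X S Y : Set V} {x0 y0 : V}
    (L : Link P X S Y x0 y0) : L.walk.edges = L.edges := by
  simp [Link.walk, Link.edges, SimpleGraph.Walk.edges_append]

theorem Link.a_mem {P : SimpleGraph V} {X S Y : Set V} {x0 y0 : V}
    (L : Link P X S Y x0 y0) : L.a ∈ X := L.s1 _ L.p1.end_mem_support

theorem Link.b_mem {P : SimpleGraph V} {X S Y : Set V} {x0 y0 : V}
    (L : Link P X S Y x0 y0) : L.b ∈ S := L.s2 _ L.p2.start_mem_support

theorem Link.b'_mem {P : SimpleGraph V} {X S Y : Set V} {x0 y0 : V}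
    (L : Link P X S Y x0 y0) : L.b' ∈ S := L.s2 _ L.p2.end_mem_support

theorem Link.a'_mem {P : SimpleGraph V} {X S Y : Set V} {x0 y0 : V}
    (L : Link P X S Y x0 y0) : L.a' ∈ Y := L.s3 _ L.p3.start_mem_support

theorem edge_support {P : SimpleGraph V} {x y : V} (w : P.Walk x y) {S : Set V}
    (h : ∀ v ∈ w.support, v ∈ S) {u v : V} (he : s(u, v) ∈ w.edges) : u ∈ S ∧ v ∈ S :=
  ⟨h u (w.fst_mem_support_of_mem_edges he), h v (w.snd_mem_support_of_mem_edges he)⟩

/-- the edges of a link -/
theorem Link.mem_edges {P : SimpleGraph V} {X S Y : Set V} {x0 y0 : V}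
    (L : Link P X S Y x0 y0) {u v : V} (h : s(u, v) ∈ L.edges) :
    (u ∈ X ∧ v ∈ X) ∨ (u = L.a ∧ v = L.b) ∨ (u = L.b ∧ v = L.a) ∨ (u ∈ S ∧ v ∈ S) ∨
    (u = L.b' ∧ v = L.a') ∨ (u = L.a' ∧ v = L.b') ∨ (u ∈ Y ∧ v ∈ Y) := by
  unfold Link.edges at h
  simp only [List.mem_append, List.mem_cons] at h
  rcases h with h | h | h | h | h
  · exact Or.inl (edge_support L.p1 L.s1 h)
  · rw [Sym2.eq_iff] at h
    rcases h with h | h
    · exact Or.inr (Or.inl h)
    · exact Or.inr (Or.inr (Or.inl h))
  · exact Or.inr (Or.inr (Or.inr (Or.inl (edge_support L.p2 L.s2 h))))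
  · rw [Sym2.eq_iff] at h
    rcases h with h | h
    · exact Or.inr (Or.inr (Or.inr (Or.inr (Or.inl h))))
    · exact Or.inr (Or.inr (Or.inr (Or.inr (Or.inr (Or.inl h)))))
  · exact Or.inr (Or.inr (Or.inr (Or.inr (Or.inr (Or.inr (edge_support L.p3 L.s3 h))))))

/-- a link has no edge at a vertex outside `X`, `S`, `Y` -/
theorem Link.par_zero {P : SimpleGraph V} {X S Y : Set V} {x0 y0 : V}
    (L : Link P X S Y x0 y0) {u : V} (hX : u ∉ X) (hS : u ∉ S) (hY : u ∉ Y) (v : V) :
    par L.edges u v = 0 ∧ par L.edges v u = 0 := by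
  have key : s(u, v) ∉ L.edges := by
    intro h
    have ha := L.a_mem
    have hb := L.b_mem
    have hb' := L.b'_mem
    have ha' := L.a'_mem
    rcases L.mem_edges h with h | h | h | h | h | h | h
    · exact hX h.1
    · rw [h.1] at hX; exact hX ha
    · rw [h.1] at hS; exact hS hb
    · exact hS h.1
    · rw [h.1] at hS; exact hS hb'
    · rw [h.1] at hY; exact hY ha'
    · exact hY h.1
  refine ⟨par_of_notMem key, ?_⟩
  rw [par_comm]
  exact par_of_notMem key

/-- the edge `ab` of a link is used once -/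
theorem Link.par_ab {P : SimpleGraph V} {X S Y : Set V} {x0 y0 : V}
    (L : Link P X S Y x0 y0) (hXS : Disjoint X S) (hXY : Disjoint X Y) (hSY : Disjoint S Y) :
    par L.edges L.a L.b = 1 ∧ par L.edges L.b L.a = 1 := by
  have ha := L.a_mem
  have hb := L.b_mem
  have hb' := L.b'_mem
  have ha' := L.a'_mem
  have dXS := Set.disjoint_left.mp hXS
  have dXY := Set.disjoint_left.mp hXY
  have dSY := Set.disjoint_left.mp hSY
  have h1 : s(L.a, L.b) ∉ L.p1.edges := fun h => dXS (edge_support L.p1 L.s1 h).2 hb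
  have h2 : s(L.a, L.b) ∉ L.p2.edges := fun h => dXS ha (edge_support L.p2 L.s2 h).1
  have h3 : s(L.a, L.b) ∉ L.p3.edges := fun h => dXY ha (edge_support L.p3 L.s3 h).1
  have h4 : s(L.b', L.a') ≠ s(L.a, L.b) := by
    intro h
    rw [Sym2.eq_iff] at h
    rcases h with h | h
    · rw [h.1] at hb'
      exact dXS ha hb'
    · rw [h.2] at ha'
      exact dXY ha ha'
  have key : par L.edges L.a L.b = 1 := by
    unfold Link.edges
    rw [par_append, par_cons_self, par_append, par_cons_ne _ _ _ _ h4, par_of_notMem h1,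
      par_of_notMem h2, par_of_notMem h3]
    rfl
  exact ⟨key, by rw [par_comm]; exact key⟩

/-- the edge `b'a'` of a link is used once -/
theorem Link.par_b'a' {P : SimpleGraph V} {X S Y : Set V} {x0 y0 : V}
    (L : Link P X S Y x0 y0) (hXS : Disjoint X S) (hXY : Disjoint X Y) (hSY : Disjoint S Y) :
    par L.edges L.b' L.a' = 1 ∧ par L.edges L.a' L.b' = 1 := by
  have ha := L.a_mem
  have hb := L.b_mem
  have hb' := L.b'_mem
  have ha' := L.a'_mem
  have dXS := Set.disjoint_left.mp hXS
  have dXY := Set.disjoint_left.mp hXY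
  have dSY := Set.disjoint_left.mp hSY
  have h1 : s(L.b', L.a') ∉ L.p1.edges := fun h => dXS (edge_support L.p1 L.s1 h).1 hb'
  have h2 : s(L.b', L.a') ∉ L.p2.edges := fun h => dSY (edge_support L.p2 L.s2 h).2 ha'
  have h3 : s(L.b', L.a') ∉ L.p3.edges := fun h => dSY hb' (edge_support L.p3 L.s3 h).1
  have h4 : s(L.a, L.b) ≠ s(L.b', L.a') := by
    intro h
    rw [Sym2.eq_iff] at h
    rcases h with h | h
    · rw [h.1] at ha
      exact dXS ha hb'
    · rw [h.1] at ha
      exact dXY ha ha'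
  have key : par L.edges L.b' L.a' = 1 := by
    unfold Link.edges
    rw [par_append, par_cons_ne _ _ _ _ h4, par_append, par_cons_self, par_of_notMem h1,
      par_of_notMem h2, par_of_notMem h3]
    rfl
  exact ⟨key, by rw [par_comm]; exact key⟩

/-! ### Boundaries of symmetric differences -/

theorem bd_symmDiff (X : SimpleGraph V) (A B : Set V) :
    bd X (symmDiff A B) = symmDiff (bd X A) (bd X B) := by
  ext e
  induction e with
  | _ x y =>
    simp only [Set.mem_symmDiff, mem_bd_iff]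
    tauto

end Pool.Agent.ACC
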