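import Pool.Agent.ACC.Lib

/-!
# BNN: a cut which is not generated by smaller cuts is a bond
-/

set_option autoImplicit false

namespace Pool.Agent.ACC

namespace BNN_

lemma conn {V : Type} (X : SimpleGraph V) (hX : X.Connected) (n : ℕ) (A : Set V)
    (hf : (bd X A).Finite) (hn : (bd X A).ncard = n + 1) (hg : ¬ Gen (Small X n) A) :
    (X.induce A).Connected := by
  classical
  have hne : A.Nonempty := by
    rw [Set.nonempty_iff_ne_empty]
    rintro rfl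
    exact hg Gen.empty
  obtain ⟨a0, ha0⟩ := hne
  set A1 : Set V := {x | ∃ hx : x ∈ A, (X.induce A).Reachable ⟨a0, ha0⟩ ⟨x, hx⟩} with hA1
  have hA1A : A1 ⊆ A := fun x hx => hx.1
  have ha1 : a0 ∈ A1 := ⟨ha0, SimpleGraph.Reachable.refl _⟩
  have hclosed : ∀ x ∈ A1, ∀ y ∈ A, X.Adj x y → y ∈ A1 := by
    rintro x ⟨hx, hr⟩ y hy hxy
    refine ⟨hy, hr.trans ?_⟩
    exact SimpleGraph.Adj.reachable (show (X.induce A).Adj ⟨x, hx⟩ ⟨y, hy⟩ from hxy)
  by_cases hall : A ⊆ A1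
  · have : Nonempty A := ⟨⟨a0, ha0⟩⟩
    refine ⟨?_⟩
    rintro ⟨x, hx⟩ ⟨y, hy⟩
    obtain ⟨_, h1⟩ := hall hx
    obtain ⟨_, h2⟩ := hall hy
    exact h1.symm.trans h2
  · exfalso
    apply hg
    set A2 : Set V := A \ A1 with hA2
    have hA2ne : A2.Nonempty := by
      rw [Set.not_subset] at hall
      obtain ⟨x, hx, hx1⟩ := hall
      exact ⟨x, hx, hx1⟩
    have hb1 : bd X A1 ⊆ bd X A := by
      rintro e ⟨x, y, hxy, hx, hy, rfl⟩
      exact ⟨x, y, hxy, hA1A hx, fun hyA => hy (hclosed x hx y hyA hxy), rfl⟩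
    have hb2' : ∀ x ∈ A2, ∀ y, y ∉ A2 → X.Adj x y → y ∉ A := by
      intro x hx y hy hxy hyA
      have hy1 : y ∈ A1 := by
        by_contra h
        exact hy ⟨hyA, h⟩
      exact hx.2 (hclosed y hy1 x hx.1 hxy.symm)
    have hb2 : bd X A2 ⊆ bd X A := by
      rintro e ⟨x, y, hxy, hx, hy, rfl⟩
      exact ⟨x, y, hxy, hx.1, hb2' x hx y hy hxy, rfl⟩
    have hdis : Disjoint (bd X A1) (bd X A2) := by
      rw [Set.disjoint_left]
      rintro e ⟨x, y, hxy, hx, hy, rfl⟩ ⟨x', y', hxy', hx', hy', he⟩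
      rcases Sym2.eq_iff.mp he with ⟨rfl, rfl⟩ | ⟨rfl, rfl⟩
      · exact hx'.2 hx
      · exact hb2' y hx' x hy' hxy.symm (hA1A hx)
    have hf1 := hf.subset hb1
    have hf2 := hf.subset hb2
    have hsum : (bd X A1).ncard + (bd X A2).ncard ≤ n + 1 := by
      rw [← Set.ncard_union_eq hdis hf1 hf2, ← hn]
      exact Set.ncard_le_ncard (Set.union_subset hb1 hb2) hf
    have hne1 : (bd X A1).Nonempty := by
      apply bd_nonempty hX ⟨a0, ha1⟩
      obtain ⟨x, hx⟩ := hA2ne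
      exact ⟨x, hx.2⟩
    have hne2 : (bd X A2).Nonempty := by
      apply bd_nonempty hX hA2ne
      exact ⟨a0, fun h => h.2 ha1⟩
    have h1pos := (Set.ncard_pos hf1).mpr hne1
    have h2pos := (Set.ncard_pos hf2).mpr hne2
    have hU : A = A1 ∪ A2 := (Set.union_diff_cancel hA1A).symm
    rw [hU]
    exact Gen.union (Gen.base A1 ⟨hf1, by omega⟩) (Gen.base A2 ⟨hf2, by omega⟩)

end BNN_

open BNN_ in
theorem bnn_proof : Stmt_BNN := by
  intro V X hX n A hf hn hg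
  refine ⟨hf, conn X hX n A hf hn hg, conn X hX n Aᶜ ?_ ?_ ?_⟩
  · rw [bd_compl]; exact hf
  · rw [bd_compl]; exact hn
  · rw [Gen.compl_iff]; exact hg

end Pool.Agent.ACC
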