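import Pool.Agent.ACC.Lib

/-!
MP_851278_al, module BPL: small finite cocycles of bounded cycles are cuts.
-/

set_option autoImplicit false

namespace Pool.Agent.ACC

namespace BPL_

variable {V : Type}

/-- there is a walk of length at most `R` -/
def reach (X : SimpleGraph V) (R : ℕ) (x y : V) : Prop := ∃ p : X.Walk x y, p.length ≤ R

theorem reach_mono {X : SimpleGraph V} {R S : ℕ} (h : R ≤ S) {x y : V} (hr : reach X R x y) :
    reach X S x y := by
  obtain ⟨p, hp⟩ := hr
  exact ⟨p, hp.trans h⟩

theorem reach_trans {X : SimpleGraph V} {R S : ℕ} {x y z : V} (h1 : reach X R x y)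
    (h2 : reach X S y z) : reach X (R + S) x z := by
  obtain ⟨p, hp⟩ := h1
  obtain ⟨q, hq⟩ := h2
  refine ⟨p.append q, ?_⟩
  rw [SimpleGraph.Walk.length_append]
  omega

theorem reach_symm {X : SimpleGraph V} {R : ℕ} {x y : V} (h1 : reach X R x y) :
    reach X R y x := by
  obtain ⟨p, hp⟩ := h1
  exact ⟨p.reverse, by rw [SimpleGraph.Walk.length_reverse]; exact hp⟩

/-- the homomorphism given by an automorphism -/
def hom (X : SimpleGraph V) (g : Equiv.Perm V)
    (hg : ∀ x y, X.Adj (g x) (g y) ↔ X.Adj x y) : X →g X :=
  ⟨g, fun {a b} h => (hg a b).2 h⟩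

theorem reach_map {X : SimpleGraph V} {R : ℕ} {x y : V} (g : Equiv.Perm V)
    (hg : ∀ x y, X.Adj (g x) (g y) ↔ X.Adj x y) (h : reach X R x y) :
    reach X R (g x) (g y) := by
  obtain ⟨p, hp⟩ := h
  exact ⟨p.map (hom X g hg), (SimpleGraph.Walk.length_map (hom X g hg) p).le.trans hp⟩

theorem ball_finite {X : SimpleGraph V} (hX : LocFin X) (R : ℕ) :
    ∀ x : V, {y | reach X R x y}.Finite := by
  induction R with
  | zero =>
    intro x
    apply (Set.finite_singleton x).subset
    rintro y ⟨p, hp⟩
    have h0 : p.length = 0 := by omega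
    exact (SimpleGraph.Walk.eq_of_length_eq_zero h0).symm
  | succ R ih =>
    intro x
    have hsub : {y | reach X (R + 1) x y} ⊆
        {x} ∪ ⋃ z ∈ X.neighborSet x, {y | reach X R z y} := by
      rintro y ⟨p, hp⟩
      cases p with
      | nil => exact Or.inl rfl
      | @cons _ z _ h q =>
        right
        rw [SimpleGraph.Walk.length_cons] at hp
        exact Set.mem_biUnion (show z ∈ X.neighborSet x from h) ⟨q, by omega⟩
    exact ((Set.finite_singleton x).union ((hX x).biUnion fun z _ => ih z)).subset hsub

theorem isCW_map {X : SimpleGraph V} (g : Equiv.Perm V)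
    (hg : ∀ x y, X.Adj (g x) (g y) ↔ X.Adj x y) {l : List (Sym2 V)} (h : IsCW X l) :
    IsCW X (l.map (Sym2.map g)) := by
  obtain ⟨x, p, rfl⟩ := h
  exact ⟨g x, p.map (hom X g hg), SimpleGraph.Walk.edges_map (hom X g hg) p⟩

theorem cnt_map (g : Equiv.Perm V) (D : Set (Sym2 V)) (l : List (Sym2 V)) :
    cnt D (l.map (Sym2.map g)) = cnt (Sym2.map g ⁻¹' D) l := by
  unfold cnt
  rw [List.countP_map]
  rfl

theorem cnt_congr {D D' : Set (Sym2 V)} {l : List (Sym2 V)} (h : ∀ e ∈ l, (e ∈ D ↔ e ∈ D')) :
    cnt D l = cnt D' l := by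
  unfold cnt
  apply List.countP_congr
  intro e he
  simp only [decide_eq_true_eq]
  exact h e he

theorem cnt_zero {D : Set (Sym2 V)} {l : List (Sym2 V)} (h : ∀ e ∈ l, e ∉ D) :
    cnt D l = 0 := by
  unfold cnt
  rw [List.countP_eq_zero]
  intro e he
  simp only [decide_eq_true_eq]
  exact h e he

theorem cw_reach {X : SimpleGraph V} {r : ℕ} {l : List (Sym2 V)} (h : IsCW X l)
    (hl : l.length ≤ r) {e e' : Sym2 V} (he : e ∈ l) (he' : e' ∈ l) {u u' : V} (hu : u ∈ e)
    (hu' : u' ∈ e') : reach X (2 * r) u u' := by
  classical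
  obtain ⟨x, p, rfl⟩ := h
  rw [SimpleGraph.Walk.length_edges] at hl
  have hs : ∀ (f : Sym2 V) (_ : f ∈ p.edges) (w : V) (_ : w ∈ f), reach X r x w := by
    intro f hf w hw
    have hmem : w ∈ p.support := by
      induction f with
      | _ a b =>
        rcases Sym2.mem_iff.mp hw with rfl | rfl
        · exact p.fst_mem_support_of_mem_edges hf
        · exact p.snd_mem_support_of_mem_edges hf
    exact ⟨p.takeUntil w hmem, (p.length_takeUntil_le_length hmem).trans hl⟩
  have := reach_trans (reach_symm (hs e he u hu)) (hs e' he' u' hu')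
  rw [two_mul]
  exact this

theorem bd_symmDiff {X : SimpleGraph V} {A B : Set V} (hdis : Disjoint (bd X A) (bd X B)) :
    bd X ((A \ B) ∪ (B \ A)) = bd X A ∪ bd X B := by
  ext e
  induction e with
  | _ x y =>
    have hd : ¬ (s(x, y) ∈ bd X A ∧ s(x, y) ∈ bd X B) :=
      fun h => Set.disjoint_left.mp hdis h.1 h.2
    rw [mem_bd_iff, mem_bd_iff] at hd
    rw [Set.mem_union, mem_bd_iff, mem_bd_iff, mem_bd_iff]
    simp only [Set.mem_union, Set.mem_sdiff]
    by_cases h1 : x ∈ A <;> by_cases h2 : y ∈ A <;> by_cases h3 : x ∈ B <;>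
      by_cases h4 : y ∈ B <;> simp_all

/-- connected by closed walks of length at most `r` -/
def conn (X : SimpleGraph V) (r : ℕ) (D : Set (Sym2 V)) : Prop :=
  ∀ D1 D2 : Set (Sym2 V), D1 ∪ D2 = D → Disjoint D1 D2 → D1.Nonempty → D2.Nonempty →
    ∃ l, IsCW X l ∧ l.length ≤ r ∧ (∃ e ∈ l, e ∈ D1) ∧ ∃ e ∈ l, e ∈ D2

theorem near {X : SimpleGraph V} {r b : ℕ} {D : Set (Sym2 V)} (hD : D.Finite)
    (hDb : D.ncard ≤ b + 1) (hDe : D ⊆ X.edgeSet) (hc : conn X r D) {x0 y0 : V}
    (h0 : s(x0, y0) ∈ D) :
    ∀ e ∈ D, ∀ u ∈ e, reach X ((b + 1) * (2 * r + 1)) x0 u := by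
  set S : ℕ → Set (Sym2 V) := fun i =>
    {e | e ∈ D ∧ ∀ u ∈ e, reach X ((i + 1) * (2 * r + 1)) x0 u} with hS
  have hSD : ∀ i, S i ⊆ D := fun i e he => he.1
  have hSfin : ∀ i, (S i).Finite := fun i => hD.subset (hSD i)
  have hmono : ∀ i, S i ⊆ S (i + 1) := by
    intro i e he
    refine ⟨he.1, fun u hu => reach_mono ?_ (he.2 u hu)⟩
    exact Nat.mul_le_mul_right _ (by omega)
  have hadj : X.Adj x0 y0 := hDe h0
  have h0S : ∀ i, s(x0, y0) ∈ S i := by
    intro i
    induction i with
    | zero =>
      refine ⟨h0, ?_⟩
      intro u hu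
      rcases Sym2.mem_iff.mp hu with rfl | rfl
      · exact ⟨SimpleGraph.Walk.nil, by simp⟩
      · refine ⟨SimpleGraph.Walk.cons hadj SimpleGraph.Walk.nil, ?_⟩
        simp
    | succ i ih => exact hmono i ih
  have key : ∀ i, i + 1 ≤ (S i).ncard ∨ S i = D := by
    intro i
    induction i with
    | zero =>
      left
      rw [zero_add, Nat.one_le_iff_ne_zero]
      intro h
      rw [Set.ncard_eq_zero (hSfin 0)] at h
      have := h0S 0
      rw [h] at this
      exact this
    | succ i ih =>
      rcases ih with ih | ih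
      · by_cases hSi : S i = D
        · right
          exact Set.Subset.antisymm (hSD _) (hSi ▸ hmono i)
        · left
          have hne : (D \ S i).Nonempty := by
            rw [Set.sdiff_nonempty]
            intro h
            exact hSi (Set.Subset.antisymm (hSD i) h)
          obtain ⟨l, hl, hlr, ⟨e, hel, heS⟩, ⟨e', he'l, he'D, he'S⟩⟩ :=
            hc (S i) (D \ S i) (Set.union_sdiff_cancel (hSD i)) Set.disjoint_sdiff_right
              ⟨_, h0S i⟩ hne
          have he'S1 : e' ∈ S (i + 1) := by
            refine ⟨he'D, fun u' hu' => ?_⟩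
            induction e with
            | _ a b =>
              have ha := heS.2 a (Sym2.mem_mk_left a b)
              have hab := cw_reach hl hlr hel he'l (Sym2.mem_mk_left a b) hu'
              refine reach_mono ?_ (reach_trans ha hab)
              have : (i + 1 + 1) * (2 * r + 1) = (i + 1) * (2 * r + 1) + (2 * r + 1) := by ring
              omega
          have hins : insert e' (S i) ⊆ S (i + 1) := by
            intro f hf
            rcases hf with rfl | hf
            · exact he'S1
            · exact hmono i hf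
          have h1 := Set.ncard_le_ncard hins (hSfin (i + 1))
          rw [Set.ncard_insert_of_notMem he'S (hSfin i)] at h1
          omega
      · right
        exact Set.Subset.antisymm (hSD _) (ih ▸ hmono i)
  have hfin : S b = D := by
    rcases key b with h | h
    · exact Set.eq_of_subset_of_ncard_le (hSD b) (by omega) hD
    · exact h
  intro e he u hu
  rw [← hfin] at he
  exact he.2 u hu

end BPL_

open BPL_ in
theorem bpl_proof (hCUT : Stmt_CUT) : Stmt_BPL := by
  intro V X G hX hlf hG hVF b
  induction b with
  | zero =>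
    refine ⟨0, ?_⟩
    intro D hD hDb _ _
    have : D = ∅ := (Set.ncard_eq_zero hD).mp (by omega)
    exact ⟨∅, by rw [this, bd_empty]⟩
  | succ b ih =>
    obtain ⟨r', hr'⟩ := ih
    obtain ⟨F0, hF0, hF⟩ := hVF
    set R := (b + 1) * (2 * r' + 1) with hR
    set K : Set (Sym2 V) := {e | ∃ y ∈ F0, ∀ u ∈ e, reach X R y u} with hK
    have hKfin : K.Finite := by
      have hsub : K ⊆ ⋃ y ∈ F0, (fun p : V × V => s(p.1, p.2)) ''
          ({u | reach X R y u} ×ˢ {u | reach X R y u}) := by
        rintro e ⟨y, hy, he⟩
        induction e with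
        | _ a b =>
          refine Set.mem_biUnion hy ⟨(a, b), ⟨he a (Sym2.mem_mk_left a b),
            he b (Sym2.mem_mk_right a b)⟩, rfl⟩
      refine (hF0.biUnion fun y _ => ?_).subset hsub
      exact ((ball_finite hlf R y).prod (ball_finite hlf R y)).image _
    -- choose the lengths of odd closed walks
    classical
    let f : Set (Sym2 V) → ℕ := fun D0 =>
      if h : ∃ l, IsCW X l ∧ ¬ Even (cnt D0 l) then (Classical.choose h).length else 0
    obtain ⟨r0, hr0⟩ : ∃ r0 : ℕ, ∀ D0 : Set (Sym2 V), D0 ⊆ K → f D0 ≤ r0 := by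
      have hfin : (f '' {D0 | D0 ⊆ K}).Finite := hKfin.finite_subsets.image f
      obtain ⟨r0, hr0⟩ := hfin.bddAbove
      exact ⟨r0, fun D0 hD0 => hr0 ⟨D0, hD0, rfl⟩⟩
    refine ⟨max r' r0, ?_⟩
    intro D hD hDb hDe hev
    by_contra hcut
    by_cases hc : conn X r' D
    · -- connected case
      have hne : D.Nonempty := by
        rw [Set.nonempty_iff_ne_empty]
        intro h
        exact hcut ⟨∅, by rw [h, bd_empty]⟩
      obtain ⟨e0, he0⟩ := hne
      induction e0 with
      | _ x0 y0 =>
        have hnear := near hD hDb hDe hc he0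
        obtain ⟨g, hgG, y, hyF, hgy⟩ := hF x0
        have hg := hG g hgG
        set D0 : Set (Sym2 V) := Sym2.map g ⁻¹' D with hD0
        have hD0K : D0 ⊆ K := by
          intro e he
          refine ⟨y, hyF, fun u hu => ?_⟩
          have h1 : reach X R x0 (g u) :=
            hnear (Sym2.map g e) he (g u) (Sym2.mem_map.mpr ⟨u, hu, rfl⟩)
          rw [← hgy] at h1
          have h2 := reach_map (g⁻¹ : Equiv.Perm V) (adj_inv hg) h1
          simpa using h2
        have hD0e : D0 ⊆ X.edgeSet := by
          intro e he
          have h1 : Sym2.map g e ∈ X.edgeSet := hDe he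
          induction e with
          | _ a b =>
            have h2 : X.Adj (g a) (g b) := h1
            exact (hg a b).1 h2
        have hex : ∃ l, IsCW X l ∧ ¬ Even (cnt D0 l) := by
          by_contra hno
          push Not at hno
          obtain ⟨A, hA⟩ := hCUT V X D0 hX hD0e hno
          apply hcut
          refine ⟨g '' A, ?_⟩
          rw [bd_image X g hg, hA]
          apply Set.image_preimage_eq
          intro e
          induction e with
          | _ a b =>
            obtain ⟨a, rfl⟩ := g.surjective a
            obtain ⟨b, rfl⟩ := g.surjective b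
            exact ⟨s(a, b), rfl⟩
        have hspec := Classical.choose_spec hex
        have hlen : (Classical.choose hex).length ≤ r0 := by
          have := hr0 D0 hD0K
          simp only [f, dif_pos hex] at this
          exact this
        have hall : ∀ l, IsCW X l → l.length ≤ r0 → Even (cnt D0 l) := by
          intro l hl hlr
          have h1 : cnt D0 l = cnt D (l.map (Sym2.map g)) := (cnt_map g D l).symm
          rw [h1]
          apply hev _ (isCW_map g hg hl)
          rw [List.length_map]
          exact hlr.trans (le_max_right _ _)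
        exact hspec.2 (hall _ hspec.1 hlen)
    · -- disconnected case
      unfold conn at hc
      push Not at hc
      obtain ⟨D1, D2, hU, hdis, hne1, hne2, hno⟩ := hc
      have hD1 : D1.Finite := hD.subset (hU ▸ Set.subset_union_left)
      have hD2 : D2.Finite := hD.subset (hU ▸ Set.subset_union_right)
      have hcard : D1.ncard + D2.ncard = D.ncard := by
        rw [← hU, Set.ncard_union_eq hdis hD1 hD2]
      have hp1 : 0 < D1.ncard := (Set.ncard_pos hD1).mpr hne1
      have hp2 : 0 < D2.ncard := (Set.ncard_pos hD2).mpr hne2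
      have ev1 : ∀ l, IsCW X l → l.length ≤ r' → Even (cnt D1 l) := by
        intro l hl hlr
        by_cases hm : ∃ e ∈ l, e ∈ D1
        · have h2 : ∀ e ∈ l, e ∉ D2 := by
            have := hno l hl hlr hm
            exact this
          have : cnt D1 l = cnt D l := by
            apply cnt_congr
            intro e he
            rw [← hU]
            constructor
            · exact Or.inl
            · rintro (h | h)
              · exact h
              · exact absurd h (h2 e he)
          rw [this]
          exact hev l hl (hlr.trans (le_max_left _ _))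
        · push Not at hm
          rw [cnt_zero hm]
          exact Even.zero
      have ev2 : ∀ l, IsCW X l → l.length ≤ r' → Even (cnt D2 l) := by
        intro l hl hlr
        by_cases hm : ∃ e ∈ l, e ∈ D1
        · have h2 : ∀ e ∈ l, e ∉ D2 := by
            have := hno l hl hlr hm
            exact this
          rw [cnt_zero h2]
          exact Even.zero
        · push Not at hm
          have : cnt D2 l = cnt D l := by
            apply cnt_congr
            intro e he
            rw [← hU]
            constructor
            · exact Or.inr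
            · rintro (h | h)
              · exact absurd h (hm e he)
              · exact h
          rw [this]
          exact hev l hl (hlr.trans (le_max_left _ _))
      obtain ⟨A1, hA1⟩ := hr' D1 hD1 (by omega) ((hU ▸ Set.subset_union_left).trans hDe) ev1
      obtain ⟨A2, hA2⟩ := hr' D2 hD2 (by omega) ((hU ▸ Set.subset_union_right).trans hDe) ev2
      apply hcut
      refine ⟨(A1 \ A2) ∪ (A2 \ A1), ?_⟩
      rw [bd_symmDiff (by rw [hA1, hA2]; exact hdis), hA1, hA2, hU]

end Pool.Agent.ACC
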