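import Pool.Agent.ACC.Lib

/-!
MP_851278_al, Part I: cuts are even on closed walks.
-/

set_option autoImplicit false

namespace Pool.Agent.ACC

namespace CEV_

open Classical in
theorem key {V : Type} (X : SimpleGraph V) (A : Set V) {x y : V} (p : X.Walk x y) :
    Even (cnt (bd X A) p.edges) ↔ (x ∈ A ↔ y ∈ A) := by
  induction p with
  | nil => simp [cnt]
  | @cons u v w huv q ih =>
    rw [SimpleGraph.Walk.edges_cons]
    unfold cnt at *
    by_cases h : s(u, v) ∈ bd X A
    · rw [List.countP_cons_of_pos (by simpa using h), Nat.even_add_one, ih]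
      rw [mem_bd_iff] at h
      tauto
    · rw [List.countP_cons_of_neg (by simpa using h), ih]
      rw [mem_bd_iff] at h
      tauto

end CEV_

theorem cev_proof : Stmt_CEV := by
  rintro V X A l ⟨x, p, rfl⟩
  rw [CEV_.key]

end Pool.Agent.ACC
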