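import Pool.Agent.ACC.StmtsB

/-!
# ACC.CFM: the canonical family of large faces
-/

set_option autoImplicit false

namespace Pool.Agent.ACC

namespace CFM_

variable {V : Type}

/-- the canonical face of a triple -/
def St (X : SimpleGraph V) (lam : ℕ) (Z : Set V) (ρ2 ρ3 : ℕ) (t : Fin 3 → V) : Set V :=
  {x | x ∈ Z ∧ ∃ P ∈ PSp X lam, ∃ b : V × V, P.P.Adj b.1 b.2 ∧ (∀ i, Near X P ρ3 b (t i)) ∧
    Near X P ρ2 b x}

theorem near_mono {X : SimpleGraph V} {R : Rot V} {ρ ρ' : ℕ} {b : V × V} {x : V} (h : ρ ≤ ρ')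
    (hn : Near X R ρ b x) : Near X R ρ' b x := by
  obtain ⟨y, hy, hy2⟩ := hn
  exact ⟨y, hy.trans h, hy2⟩

theorem near_eqv {X : SimpleGraph V} {R : Rot V} {ρ : ℕ} {b b' : V × V} {x : V}
    (h : R.Eqv b' b) (hn : Near X R ρ b x) : Near X R ρ b' x := by
  obtain ⟨y, hy, z, hz, hz2⟩ := hn
  exact ⟨y, hy, z, hz, R.eqv_trans h hz2⟩

theorem near_touch {X : SimpleGraph V} {R : Rot V} {ρ : ℕ} {b : V × V} {x : V}
    (h : R.Touch b x) : Near X R ρ b x :=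
  ⟨x, by rw [SimpleGraph.dist_self]; exact Nat.zero_le _, h⟩

theorem dist_le_of_aut {X : SimpleGraph V} (hc : X.Connected) (g : Equiv.Perm V)
    (hg : ∀ x y, X.Adj (g x) (g y) ↔ X.Adj x y) (x y : V) :
    X.dist (g x) (g y) ≤ X.dist x y := by
  obtain ⟨w, hw⟩ := hc.exists_walk_length_eq_dist x y
  let f : X →g X := ⟨g, fun {a b} h => (hg a b).2 h⟩
  have h1 : (w.map f).length = w.length := SimpleGraph.Walk.length_map _ _
  have h2 := SimpleGraph.dist_le (w.map f)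
  rw [h1, hw] at h2
  exact h2

theorem dist_aut {X : SimpleGraph V} (hc : X.Connected) (g : Equiv.Perm V)
    (hg : ∀ x y, X.Adj (g x) (g y) ↔ X.Adj x y) (x y : V) :
    X.dist (g x) (g y) = X.dist x y := by
  apply le_antisymm (dist_le_of_aut hc g hg x y)
  have hg' : ∀ x y, X.Adj ((g⁻¹ : Equiv.Perm V) x) ((g⁻¹ : Equiv.Perm V) y) ↔ X.Adj x y := by
    intro a b
    rw [← hg]
    simp
  have h := dist_le_of_aut hc g⁻¹ hg' (g x) (g y)
  simpa using h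

theorem near_map (hRMP : Stmt_RMP) {X : SimpleGraph V} {lam : ℕ} (hc : X.Connected)
    (g : Equiv.Perm V) (hg : ∀ x y, X.Adj (g x) (g y) ↔ X.Adj x y) {P : Rot V} {ρ : ℕ}
    {b : V × V} {x : V} (hn : Near X P ρ b x) :
    Near X (P.map g) ρ (g b.1, g b.2) (g x) := by
  obtain ⟨-, -, h3, h4⟩ := hRMP V X lam P g hg
  obtain ⟨y, hy, z, hz, hz2⟩ := hn
  refine ⟨g y, ?_, g z, (h4 y z).2 hz, ?_⟩
  · rw [dist_aut hc g hg]; exact hy
  · exact (h3 b (y, z)).1 hz2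

theorem psp_map (hRMP : Stmt_RMP) {X : SimpleGraph V} {lam : ℕ}
    (g : Equiv.Perm V) (hg : ∀ x y, X.Adj (g x) (g y) ↔ X.Adj x y) {P : Rot V}
    (hP : P ∈ PSp X lam) : P.map g ∈ PSp X lam := by
  obtain ⟨h1, h2, -, -⟩ := hRMP V X lam P g hg
  exact ⟨h1 hP.1, h2 hP.2⟩

theorem adj_map (hRMP : Stmt_RMP) {X : SimpleGraph V} {lam : ℕ}
    (g : Equiv.Perm V) (hg : ∀ x y, X.Adj (g x) (g y) ↔ X.Adj x y) {P : Rot V} {b : V × V}
    (hb : P.P.Adj b.1 b.2) : (P.map g).P.Adj (g b.1) (g b.2) := by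
  obtain ⟨-, -, -, h4⟩ := hRMP V X lam P g hg
  exact (h4 b.1 b.2).2 hb

theorem st_map (hRMP : Stmt_RMP) {X : SimpleGraph V} {lam : ℕ} (hc : X.Connected)
    {Z : Set V} {ρ2 ρ3 : ℕ} (g : Equiv.Perm V) (hg : ∀ x y, X.Adj (g x) (g y) ↔ X.Adj x y)
    (hZ : ∀ x ∈ Z, g x ∈ Z) {t : Fin 3 → V} {x : V} (hx : x ∈ St X lam Z ρ2 ρ3 t) :
    g x ∈ St X lam Z ρ2 ρ3 (fun i => g (t i)) := by
  obtain ⟨hxZ, P, hP, b, hb, hbt, hbx⟩ := hx
  exact ⟨hZ x hxZ, P.map g, psp_map hRMP g hg hP, (g b.1, g b.2),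
    adj_map hRMP (X := X) (lam := lam) g hg hb,
    fun i => near_map hRMP (lam := lam) hc g hg (hbt i),
    near_map hRMP (lam := lam) hc g hg hbx⟩

theorem trip_map (hRMP : Stmt_RMP) {X : SimpleGraph V} {lam : ℕ} (hc : X.Connected)
    {Z : Set V} {ρ2 C : ℕ} (g : Equiv.Perm V) (hg : ∀ x y, X.Adj (g x) (g y) ↔ X.Adj x y)
    (hZ : ∀ x ∈ Z, g x ∈ Z) {t : Fin 3 → V} (ht : t ∈ Trip X lam Z ρ2 C) :
    (fun i => g (t i)) ∈ Trip X lam Z ρ2 C := by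
  obtain ⟨h1, h2, h3⟩ := ht
  refine ⟨fun i => hZ _ (h1 i), ?_, ?_⟩
  · intro i j hij
    show C < X.dist (g (t i)) (g (t j))
    rw [dist_aut hc g hg]
    exact h2 i j hij
  · intro i j hij
    obtain ⟨Q, hQ, b, hb, hbi, hbj⟩ := h3 i j hij
    exact ⟨Q.map g, psp_map hRMP g hg hQ, (g b.1, g b.2),
      adj_map hRMP (X := X) (lam := lam) g hg hb,
      near_map hRMP (lam := lam) hc g hg hbi, near_map hRMP (lam := lam) hc g hg hbj⟩

end CFM_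

open CFM_

theorem cfm_proof (hRMP : Stmt_RMP) (hCFT : Stmt_CFT) : Stmt_CFM := by
  intro V X G f lam hlam hc hlf haut hvf hbg
  obtain ⟨k, hk⟩ := hCFT V X G f lam hlam hc hlf haut hvf hbg
  refine ⟨k, fun ρ2 => ?_⟩
  obtain ⟨ρ3, ρ4, h23, h34, hC⟩ := hk ρ2
  refine ⟨ρ4, fun C0 => ?_⟩
  obtain ⟨C, hC0, hmain⟩ := hC C0
  refine ⟨C, ?_⟩
  intro Z H R hH hHZ hns hR
  have hT := hmain Z hns
  clear hmain
  have h24 : ρ2 ≤ ρ4 := h23.trans h34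
  -- the three parts of CFT
  have hE : ∀ t ∈ Trip X lam Z ρ2 C, ∀ Q ∈ PSp X lam,
      ∃ b : V × V, Q.P.Adj b.1 b.2 ∧ ∀ i, Near X Q ρ3 b (t i) :=
    fun t ht Q hQ => (hT t ht Q hQ).1
  have hU : ∀ t ∈ Trip X lam Z ρ2 C, ∀ Q ∈ PSp X lam,
      ∀ b b' : V × V, Q.P.Adj b.1 b.2 → Q.P.Adj b'.1 b'.2 →
      (∃ i j, i ≠ j ∧ Near X Q ρ4 b (t i) ∧ Near X Q ρ4 b (t j)) →
      (∃ i j, i ≠ j ∧ Near X Q ρ4 b' (t i) ∧ Near X Q ρ4 b' (t j)) → Q.Eqv b b' :=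
    fun t ht Q hQ => (hT t ht Q hQ).2.1
  have hTr : ∀ t ∈ Trip X lam Z ρ2 C, ∀ P ∈ PSp X lam, ∀ Q ∈ PSp X lam,
      ∀ b b' : V × V, P.P.Adj b.1 b.2 → Q.P.Adj b'.1 b'.2 →
      (∀ i, Near X P ρ3 b (t i)) → (∀ i, Near X Q ρ3 b' (t i)) → ∀ x ∈ Z,
      Near X P ρ3 b x → Near X Q ρ4 b' x :=
    fun t ht P hP => (hT t ht P hP).2.2
  have h01 : (0 : Fin 3) ≠ 1 := by decide
  -- the family
  let F : Set (Set V) := {S | ∃ t ∈ Trip X lam Z ρ2 C, S = St X lam Z ρ2 ρ3 t}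
  have hex : ∀ S ∈ F, ∃ b : V × V, R.P.Adj b.1 b.2 ∧
      ∃ t ∈ Trip X lam Z ρ2 C, S = St X lam Z ρ2 ρ3 t ∧ ∀ i, Near X R ρ3 b (t i) := by
    rintro S ⟨t, ht, rfl⟩
    obtain ⟨b, hb, hbt⟩ := hE t ht R hR
    exact ⟨b, hb, t, ht, rfl, hbt⟩
  haveI : Nonempty V := hc.nonempty
  haveI : Nonempty (V × V) := inferInstance
  choose! a ha using hex
  -- (vi) the points of the triple
  have hvi : ∀ t ∈ Trip X lam Z ρ2 C, ∀ i, t i ∈ St X lam Z ρ2 ρ3 t := by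
    intro t ht i
    have hij : ∃ j : Fin 3, i ≠ j := by
      revert i; decide
    obtain ⟨j, hij⟩ := hij
    obtain ⟨Q, hQ, b, hb, hbi, hbj⟩ := ht.2.2 i j hij
    obtain ⟨b', hb', hbt'⟩ := hE t ht Q hQ
    have heq : Q.Eqv b b' := hU t ht Q hQ b b' hb hb'
      ⟨i, j, hij, near_mono h24 hbi, near_mono h24 hbj⟩
      ⟨0, 1, h01, near_mono h34 (hbt' 0), near_mono h34 (hbt' 1)⟩
    exact ⟨ht.1 i, Q, hQ, b, hb, fun l => near_eqv heq (hbt' l), hbi⟩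
  -- (v)
  have hv : ∀ S ∈ F, ∀ x ∈ S, Near X R ρ4 (a S) x := by
    intro S hS x hx
    obtain ⟨haS, t, ht, hSt, hat⟩ := ha S hS
    rw [hSt] at hx
    obtain ⟨hxZ, P, hP, b, hb, hbt, hbx⟩ := hx
    exact hTr t ht P hP R hR b (a S) hb haS hbt hat x hxZ (near_mono h23 hbx)
  -- one inclusion of (iv)
  have hiv : ∀ S ∈ F, ∀ S' ∈ F, R.Eqv (a S) (a S') → S ⊆ S' := by
    intro S hS S' hS' heq x hx
    obtain ⟨haS, t, ht, hSt, hat⟩ := ha S hS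
    obtain ⟨haS', t', ht', hSt', hat'⟩ := ha S' hS'
    rw [hSt] at hx
    obtain ⟨hxZ, P, hP, b, hb, hbt, hbx⟩ := hx
    have h1 : ∀ j, Near X P ρ4 b (t' j) := by
      intro j
      exact hTr t ht R hR P hP (a S) b haS hb hat hbt (t' j) (ht'.1 j) (near_eqv heq (hat' j))
    obtain ⟨b', hb', hbt'⟩ := hE t' ht' P hP
    have h2 : P.Eqv b b' := hU t' ht' P hP b b' hb hb' ⟨0, 1, h01, h1 0, h1 1⟩
      ⟨0, 1, h01, near_mono h34 (hbt' 0), near_mono h34 (hbt' 1)⟩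
    rw [hSt']
    exact ⟨hxZ, P, hP, b, hb, fun l => near_eqv h2 (hbt' l), hbx⟩
  refine ⟨F, a, ?_, ?_, ?_, ?_, ?_, ?_, ?_, ?_⟩
  · -- (i)
    rintro S ⟨t, _, rfl⟩ x hx
    exact hx.1
  · -- (ii)
    rintro g hg S ⟨t, ht, rfl⟩
    have hgA : ∀ x y, X.Adj (g x) (g y) ↔ X.Adj x y := hH g hg
    have hg' : g⁻¹ ∈ H := H.inv_mem hg
    have hgA' : ∀ x y, X.Adj ((g⁻¹ : Equiv.Perm V) x) ((g⁻¹ : Equiv.Perm V) y) ↔ X.Adj x y :=
      hH g⁻¹ hg'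
    refine ⟨fun i => g (t i), trip_map hRMP hc g hgA (hHZ g hg) ht, ?_⟩
    ext x
    constructor
    · rintro ⟨y, hy, rfl⟩
      exact st_map hRMP hc g hgA (hHZ g hg) hy
    · intro hx
      have h1 := st_map hRMP hc g⁻¹ hgA' (hHZ g⁻¹ hg') hx
      have h2 : (fun i => (g⁻¹ : Equiv.Perm V) (g (t i))) = t := by
        funext i
        simp
      rw [h2] at h1
      exact ⟨(g⁻¹ : Equiv.Perm V) x, h1, by simp⟩
  · -- (iii)
    intro S hS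
    exact (ha S hS).1
  · -- (iv)
    intro S hS S' hS' heq
    exact Set.Subset.antisymm (hiv S hS S' hS' heq) (hiv S' hS' S hS (R.eqv_symm heq))
  · -- (v)
    exact hv
  · -- (vi)
    rintro S ⟨t, ht, rfl⟩
    exact ⟨t 0, hvi t ht 0, t 1, hvi t ht 1, lt_of_le_of_lt hC0 (ht.2.1 0 1 h01)⟩
  · -- (vii)
    intro S hS x hxZ hx
    obtain ⟨haS, t, ht, hSt, hat⟩ := ha S hS
    rw [hSt]
    exact ⟨hxZ, R, hR, a S, haS, hat, near_touch hx⟩
  · -- (viii)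
    intro b hb
    by_contra hcon
    push Not at hcon
    obtain ⟨hno, x, hxZ, y, hyZ, z, hzZ, hx, hy, hz, hxy, hyz, hxz⟩ := hcon
    have hnear : ∀ i, R.Touch b ((![x, y, z] : Fin 3 → V) i) := by
      intro i
      fin_cases i
      · exact hx
      · exact hy
      · exact hz
    have ht : (![x, y, z] : Fin 3 → V) ∈ Trip X lam Z ρ2 C := by
      refine ⟨?_, ?_, ?_⟩
      · intro i
        fin_cases i
        · exact hxZ
        · exact hyZ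
        · exact hzZ
      · intro i j hij
        fin_cases i <;> fin_cases j
        · exact absurd rfl hij
        · exact hxy
        · exact hxz
        · show C < X.dist y x
          rw [SimpleGraph.dist_comm]; exact hxy
        · exact absurd rfl hij
        · exact hyz
        · show C < X.dist z x
          rw [SimpleGraph.dist_comm]; exact hxz
        · show C < X.dist z y
          rw [SimpleGraph.dist_comm]; exact hyz
        · exact absurd rfl hij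
      · intro i j _
        exact ⟨R, hR, b, hb, near_touch (hnear i), near_touch (hnear j)⟩
    have hS : St X lam Z ρ2 ρ3 ![x, y, z] ∈ F := ⟨_, ht, rfl⟩
    apply hno _ hS
    have h1 : ∀ i, Near X R ρ4 (a (St X lam Z ρ2 ρ3 ![x, y, z])) ((![x, y, z] : Fin 3 → V) i) :=
      fun i => hv _ hS _ (hvi _ ht i)
    exact hU _ ht R hR _ b (ha _ hS).1 hb ⟨0, 1, h01, h1 0, h1 1⟩
      ⟨0, 1, h01, near_touch (hnear 0), near_touch (hnear 1)⟩

end Pool.Agent.ACC
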