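import Pool.Agent.ACC.StmtsB

/-!
Module CFT: every planar spanner has a class near a triple.
-/

set_option autoImplicit false

namespace Pool.Agent.ACC

namespace CFT_

variable {V : Type}

theorem ball_cn (X : SimpleGraph V) (hX : X.Connected) (x : V) (r : ℕ) : Cn X (ball X x r) := by
  classical
  have key : ∀ y ∈ ball X x r, ∃ w : X.Walk x y, ∀ z ∈ w.support, z ∈ ball X x r := by
    intro y hy
    obtain ⟨w, hw⟩ := hX.exists_walk_length_eq_dist x y
    refine ⟨w, fun z hz => ?_⟩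
    have h1 : X.dist x z ≤ (w.takeUntil z hz).length := SimpleGraph.dist_le _
    have h2 : (w.takeUntil z hz).length ≤ w.length := w.length_takeUntil_le_length hz
    have h3 : X.dist x y ≤ r := hy
    show X.dist x z ≤ r
    omega
  refine ⟨⟨x, ?_⟩, ?_⟩
  · show X.dist x x ≤ r
    simp
  · intro y hy z hz
    obtain ⟨w1, h1⟩ := key y hy
    obtain ⟨w2, h2⟩ := key z hz
    refine ⟨w1.reverse.append w2, fun u hu => ?_⟩
    rcases (SimpleGraph.Walk.mem_support_append_iff _ _).mp hu with hu | hu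
    · rw [SimpleGraph.Walk.support_reverse, List.mem_reverse] at hu
      exact h1 u hu
    · exact h2 u hu

theorem nosep_mono (X : SimpleGraph V) (k : ℕ) {S T S' T' : Set V} (hS : S ⊆ S') (hT : T ⊆ T')
    (h : NoSep X k S T) : NoSep X k S' T' :=
  fun D hD h' => h D hD ⟨hS.trans h'.1, hT.trans h'.2⟩

theorem ball_mono (X : SimpleGraph V) (x : V) {r s : ℕ} (h : r ≤ s) : ball X x r ⊆ ball X x s :=
  fun y hy => by
    have h1 : X.dist x y ≤ r := hy
    show X.dist x y ≤ s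
    omega

theorem near_mono (X : SimpleGraph V) (R : Rot V) {r s : ℕ} (h : r ≤ s) {b : V × V} {x : V}
    (hn : Near X R r b x) : Near X R s b x := by
  obtain ⟨y, hy, ht⟩ := hn
  exact ⟨y, hy.trans h, ht⟩

theorem near_eqv (X : SimpleGraph V) (R : Rot V) {r : ℕ} {b b' : V × V} {x : V}
    (h : R.Eqv b' b) (hn : Near X R r b x) : Near X R r b' x := by
  obtain ⟨y, hy, z, hz, ht⟩ := hn
  exact ⟨y, hy, z, hz, R.eqv_trans h ht⟩

/-- a dart of the class near `x` -/
theorem near_dart (X : SimpleGraph V) (R : Rot V) {r : ℕ} {b : V × V} {x : V}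
    (hn : Near X R r b x) : ∃ a : V × V, R.P.Adj a.1 a.2 ∧ X.dist x a.1 ≤ r ∧ R.Eqv b a := by
  obtain ⟨y, hy, z, hz, ht⟩ := hn
  exact ⟨(y, z), hz, hy, ht⟩

theorem dart_near (X : SimpleGraph V) (R : Rot V) {r : ℕ} {b a : V × V} {x : V}
    (h1 : R.P.Adj a.1 a.2) (h2 : X.dist x a.1 ≤ r) (h3 : R.Eqv b a) : Near X R r b x :=
  ⟨a.1, h2, a.2, h1, h3⟩

/-- the overlap lemma for balls -/
theorem cof_ball {f : ℕ → ℕ} {lam k c0 : ℕ}
    (hk : ∀ (V : Type)
      (X : SimpleGraph V) (R Q : Rot V) (S T : Set V), X.Connected → BG X f →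
      Spanner X R.P lam → R.Planar → Spanner X Q.P lam → Q.Planar → S.Finite → T.Finite →
      Cn X S → Cn X T → NoSep X k S T →
      (∃ a b : V × V, Q.P.Adj a.1 a.2 ∧ Q.P.Adj b.1 b.2 ∧ a.1 ∈ S ∧ b.1 ∈ T ∧ Q.Eqv a b) →
      ∃ a b : V × V, R.P.Adj a.1 a.2 ∧ R.P.Adj b.1 b.2 ∧ a.1 ∈ nbd X S c0 ∧
        b.1 ∈ nbd X T c0 ∧ R.Eqv a b)
    (X : SimpleGraph V) (hX : X.Connected) (hB : BG X f) (R Q : Rot V) (hR : R ∈ PSp X lam)
    (hQ : Q ∈ PSp X lam) (x y : V) (r : ℕ) (hns : NoSep X k (ball X x r) (ball X y r))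
    (b : V × V) (h1 : Near X Q r b x) (h2 : Near X Q r b y) :
    ∃ a a' : V × V, R.P.Adj a.1 a.2 ∧ R.P.Adj a'.1 a'.2 ∧ X.dist x a.1 ≤ r + c0 ∧
      X.dist y a'.1 ≤ r + c0 ∧ R.Eqv a a' := by
  obtain ⟨u, hu1, hu2, hu3⟩ := near_dart X Q h1
  obtain ⟨v, hv1, hv2, hv3⟩ := near_dart X Q h2
  obtain ⟨a, a', ha, ha', hS, hT, he⟩ := hk V X R Q (ball X x r) (ball X y r) hX hB hR.1 hR.2
    hQ.1 hQ.2 (hB x r).1 (hB y r).1 (ball_cn X hX x r) (ball_cn X hX y r) hns
    ⟨u, v, hu1, hv1, hu2, hv2, Q.eqv_trans (Q.eqv_symm hu3) hv3⟩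
  obtain ⟨s, hs, hs'⟩ := hS
  obtain ⟨t, ht, ht'⟩ := hT
  have hs2 : X.dist x s ≤ r := hs
  have ht2 : X.dist y t ≤ r := ht
  have t1 : X.dist x a.1 ≤ X.dist x s + X.dist s a.1 := hX.dist_triangle
  have t2 : X.dist y a'.1 ≤ X.dist y t + X.dist t a'.1 := hX.dist_triangle
  exact ⟨a, a', ha, ha', by omega, by omega, he⟩

end CFT_

open CFT_ in
theorem cft_proof (hCOF : Stmt_COF) (hPOL : Stmt_POL) : Stmt_CFT := by
  intro V X G f lam hlam hX hLF hA hVF hBG
  obtain ⟨k, c0, hk⟩ := hCOF f lam hlam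
  refine ⟨k, fun ρ2 => ⟨ρ2 + c0, ρ2 + c0 + c0, by omega, by omega, fun C0 => ?_⟩⟩
  obtain ⟨C1, hC1⟩ := hPOL V X G f lam hlam hX hLF hA hVF hBG 3 (ρ2 + c0)
  obtain ⟨C2, hC2⟩ := hPOL V X G f lam hlam hX hLF hA hVF hBG 2 (ρ2 + c0 + c0)
  obtain ⟨C3, hC3⟩ := hPOL V X G f lam hlam hX hLF hA hVF hBG 3 (ρ2 + c0 + c0)
  refine ⟨C0 + 2 * (C1 + C2 + C3) + 1, by omega, fun Z hZ t ht R hR => ?_⟩
  obtain ⟨htZ, htd, htQ⟩ := ht
  -- existence
  have hE : ∀ R ∈ PSp X lam, ∃ b : V × V, R.P.Adj b.1 b.2 ∧ ∀ i, Near X R (ρ2 + c0) b (t i) := by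
    intro R hR
    have h1 : ∀ i : Fin 3, ∃ p : (V × V) × (V × V), R.P.Adj p.1.1 p.1.2 ∧
        R.P.Adj p.2.1 p.2.2 ∧ X.dist (t i) p.1.1 ≤ ρ2 + c0 ∧
        X.dist (t (i + 1)) p.2.1 ≤ ρ2 + c0 ∧ R.Eqv p.1 p.2 := by
      intro i
      have hne : i ≠ i + 1 := by
        revert i
        decide
      obtain ⟨Q, hQ, b, -, hb1, hb2⟩ := htQ i (i + 1) hne
      obtain ⟨a, a', h⟩ := cof_ball hk X hX hBG R Q hR hQ (t i) (t (i + 1)) ρ2
        (hZ _ (htZ i) _ (htZ (i + 1))) b hb1 hb2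
      exact ⟨(a, a'), h⟩
    choose p hp using h1
    have h2 := hC1 R hR.1 hR.2 t (fun i => (p i).1) (fun i => (p i).2)
      (fun i j hij => by
        have := htd i j hij
        omega) hp
    have e01 : R.Eqv (p 0).1 (p 1).1 := h2 0
    have e12 : R.Eqv (p 1).1 (p 2).1 := h2 1
    refine ⟨(p 0).1, (hp 0).1, fun i => ?_⟩
    have e : R.Eqv (p 0).1 (p i).1 := by
      fin_cases i
      · exact R.eqv_refl _
      · exact e01
      · exact R.eqv_trans e01 e12
    exact dart_near X R (hp i).1 (hp i).2.2.1 e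
  -- uniqueness
  have hU : ∀ R ∈ PSp X lam, ∀ b0 b : V × V, (∀ i, Near X R (ρ2 + c0) b0 (t i)) →
      (∃ i j, i ≠ j ∧ Near X R (ρ2 + c0 + c0) b (t i) ∧ Near X R (ρ2 + c0 + c0) b (t j)) →
      R.Eqv b b0 := by
    rintro R hR b0 b h0 ⟨i, j, hij, hi, hj⟩
    obtain ⟨u, hu1, hu2, hu3⟩ := near_dart X R hi
    obtain ⟨v, hv1, hv2, hv3⟩ := near_dart X R hj
    obtain ⟨u', hu1', hu2', hu3'⟩ := near_dart X R (h0 i)
    obtain ⟨v', hv1', hv2', hv3'⟩ := near_dart X R (h0 j)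
    have dij := htd i j hij
    have dji := htd j i hij.symm
    have h2 := hC2 R hR.1 hR.2 ![t i, t j] ![u, v'] ![v, u']
      (by
        intro a b hab
        fin_cases a <;> fin_cases b
        · exact absurd rfl hab
        · show C2 < X.dist (t i) (t j)
          omega
        · show C2 < X.dist (t j) (t i)
          omega
        · exact absurd rfl hab)
      (by
        intro a
        fin_cases a
        · exact ⟨hu1, hv1, hu2, hv2, R.eqv_trans (R.eqv_symm hu3) hv3⟩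
        · refine ⟨hv1', hu1', ?_, ?_, R.eqv_trans (R.eqv_symm hv3') hu3'⟩
          · show X.dist (t j) v'.1 ≤ ρ2 + c0 + c0
            omega
          · show X.dist (t i) u'.1 ≤ ρ2 + c0 + c0
            omega)
    have e : R.Eqv u v' := h2 0
    exact R.eqv_trans hu3 (R.eqv_trans e (R.eqv_symm hv3'))
  refine ⟨hE R hR, ?_, ?_⟩
  · intro b b' _ _ hb hb'
    obtain ⟨b0, -, h0⟩ := hE R hR
    exact R.eqv_trans (hU R hR b0 b h0 hb) (R.eqv_symm (hU R hR b0 b' h0 hb'))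
  · intro Q hQ b b' _ _ hb hb' x hx hbx
    -- two indices far from `x`
    have hfar : ∃ i j : Fin 3, i ≠ j ∧ C1 + C2 + C3 < X.dist x (t i) ∧
        C1 + C2 + C3 < X.dist x (t j) := by
      have htri : ∀ i j : Fin 3, i ≠ j → X.dist x (t i) ≤ C1 + C2 + C3 →
          C1 + C2 + C3 < X.dist x (t j) := by
        intro i j hij hi
        by_contra hj
        have h1 := htd i j hij
        have h2 : X.dist (t i) (t j) ≤ X.dist (t i) x + X.dist x (t j) := hX.dist_triangle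
        rw [SimpleGraph.dist_comm (u := t i) (v := x)] at h2
        omega
      by_cases h0 : X.dist x (t 0) ≤ C1 + C2 + C3
      · exact ⟨1, 2, by decide, htri 0 1 (by decide) h0, htri 0 2 (by decide) h0⟩
      · by_cases h1 : X.dist x (t 1) ≤ C1 + C2 + C3
        · exact ⟨0, 2, by decide, by omega, htri 1 2 (by decide) h1⟩
        · exact ⟨0, 1, by decide, by omega, by omega⟩
    obtain ⟨i, j, hij, hxi, hxj⟩ := hfar
    have hns : ∀ l, NoSep X k (ball X (t l) (ρ2 + c0)) (ball X x (ρ2 + c0)) := fun l =>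
      nosep_mono X k (ball_mono X _ (by omega)) (ball_mono X _ (by omega))
        (hZ _ (htZ l) _ hx)
    obtain ⟨di, di', hd1, hd1', hd2, hd2', hd3⟩ := cof_ball hk X hX hBG Q R hQ hR (t i) x
      (ρ2 + c0) (hns i) b (hb i) hbx
    obtain ⟨dj, dj', hg1, hg1', hg2, hg2', hg3⟩ := cof_ball hk X hX hBG Q R hQ hR (t j) x
      (ρ2 + c0) (hns j) b (hb j) hbx
    obtain ⟨u, hu1, hu2, hu3⟩ := near_dart X Q (hb' i)
    obtain ⟨v, hv1, hv2, hv3⟩ := near_dart X Q (hb' j)
    have dij := htd i j hij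
    have dji := htd j i hij.symm
    have hix : C1 + C2 + C3 < X.dist (t i) x := by
      rw [SimpleGraph.dist_comm]
      exact hxi
    have hjx : C1 + C2 + C3 < X.dist (t j) x := by
      rw [SimpleGraph.dist_comm]
      exact hxj
    have h2 := hC3 Q hQ.1 hQ.2 ![x, t i, t j] ![di', u, dj] ![di, v, dj']
      (by
        intro a b hab
        fin_cases a <;> fin_cases b
        · exact absurd rfl hab
        · show C3 < X.dist x (t i)
          omega
        · show C3 < X.dist x (t j)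
          omega
        · show C3 < X.dist (t i) x
          omega
        · exact absurd rfl hab
        · show C3 < X.dist (t i) (t j)
          omega
        · show C3 < X.dist (t j) x
          omega
        · show C3 < X.dist (t j) (t i)
          omega
        · exact absurd rfl hab)
      (by
        intro a
        fin_cases a
        · exact ⟨hd1', hd1, hd2', hd2, Q.eqv_symm hd3⟩
        · refine ⟨hu1, hv1, ?_, ?_, Q.eqv_trans (Q.eqv_symm hu3) hv3⟩
          · show X.dist (t i) u.1 ≤ ρ2 + c0 + c0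
            omega
          · show X.dist (t j) v.1 ≤ ρ2 + c0 + c0
            omega
        · exact ⟨hg1, hg1', hg2, hg2', hg3⟩)
    have e : Q.Eqv di' u := h2 0
    exact dart_near X Q hd1' hd2' (Q.eqv_trans hu3 (Q.eqv_symm e))

end Pool.Agent.ACC
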