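import Pool.Agent.ACC.StmtsB

set_option autoImplicit false

namespace Pool.Agent.ACC

namespace CFZ_

variable {V U : Type}

theorem walk_aux (X : SimpleGraph V) (p : V → U) {x y : V} (w : X.Walk x y) (h : p x ≠ p y) :
    ∃ y' ∈ Zp X p, p y' = p y ∧ ∃ w' : X.Walk x y', w'.length ≤ w.length := by
  induction w with
  | nil => exact absurd rfl h
  | @cons u v t huv q ih =>
    by_cases hv : p v = p t
    · refine ⟨v, ⟨u, huv.symm, fun h' => h (h'.symm.trans hv)⟩, hv, huv.toWalk, ?_⟩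
      simp
    · obtain ⟨y', hy', hp, w', hw'⟩ := ih hv
      refine ⟨y', hy', hp, SimpleGraph.Walk.cons huv w', ?_⟩
      simpa using hw'

theorem fin_aux (X P : SimpleGraph V) (hP : P ≤ X) (p : V → U) (y : V)
    (hfin : (bd X (p ⁻¹' {p y})).Finite) (m : V → ZMod 2)
    (hm : ∀ v, m v = 1 ↔ p v = p y) :
    {q : V × V | P.Adj q.1 q.2 ∧ m q.1 ≠ m q.2}.Finite := by
  have h1 : ((fun q : V × V => s(q.1, q.2)) ⁻¹' (bd X (p ⁻¹' {p y}))).Finite := by
    refine Set.Finite.preimage' hfin ?_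
    intro e _
    induction e using Sym2.ind with
    | _ u v =>
      refine (Set.toFinite {((u, v) : V × V), (v, u)}).subset ?_
      rintro ⟨s, t⟩ hst
      have h2 : s(s, t) = s(u, v) := hst
      rw [Sym2.eq_iff] at h2
      rcases h2 with ⟨rfl, rfl⟩ | ⟨rfl, rfl⟩
      · simp
      · simp
  refine h1.subset ?_
  rintro ⟨s, t⟩ ⟨hadj, hne⟩
  have h01 : ∀ z : ZMod 2, z ≠ 1 → z = 0 := by decide
  have hadj' : X.Adj s t := hP hadj
  show s(s, t) ∈ bd X (p ⁻¹' {p y})
  by_cases hs : p s = p y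
  · by_cases ht : p t = p y
    · exfalso
      apply hne
      show m s = m t
      rw [(hm s).mpr hs, (hm t).mpr ht]
    · exact ⟨s, t, hadj', hs, ht, rfl⟩
  · by_cases ht : p t = p y
    · exact ⟨t, s, hadj'.symm, ht, hs, Sym2.eq_swap⟩
    · exfalso
      apply hne
      show m s = m t
      rw [h01 _ (fun h => hs ((hm s).mp h)), h01 _ (fun h => ht ((hm t).mp h))]

end CFZ_

open CFZ_

theorem cfz_proof (h1 : Stmt_RMC) : Stmt_CFZ := by
  intro V U X R lam p c ρ hconn hsp hbd hc a x y y1 _ hx hxy hay hay1 hne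
  classical
  let m : V → ZMod 2 := fun v => if p v = p y then 1 else 0
  have hm : ∀ v, m v = 1 ↔ p v = p y := by
    intro v
    simp only [m]
    by_cases h : p v = p y
    · simp [h]
    · simp [h]
  have hfin := fin_aux X R.P hsp.1 p y (hbd (p y)) m hm
  obtain ⟨y', hyy', hE⟩ := hay
  obtain ⟨y1', hyy1', hE1⟩ := hay1
  have hex : ∃ q : V × V, R.P.Adj q.1 q.2 ∧ R.Eqv a q ∧ m q.1 ≠ m q.2 := by
    by_contra hcon
    push Not at hcon
    have := h1 V R m (y, y') (y1, y1') hfin hyy' hyy1'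
      (fun q hq hEq => hcon q hq (R.eqv_trans hE hEq)) (R.eqv_trans (R.eqv_symm hE) hE1)
    have e1 : m y = 1 := (hm y).mpr rfl
    have e2 : m y1 = 1 := by rw [← this]; exact e1
    exact hne ((hm y1).mp e2)
  obtain ⟨⟨s, t⟩, hst, hEq, hmst⟩ := hex
  have hst' : R.P.Adj s t := hst
  have hpst : p s ≠ p t := by
    intro h
    apply hmst
    show m s = m t
    simp only [m, h]
  have Ts : R.Touch a s := ⟨t, hst, hEq⟩
  have Tt : R.Touch a t := ⟨R.nx t s, R.nx_adj t s hst'.symm,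
    fun c hc => (hEq c hc).trans (hc.1 s t hst).symm⟩
  have hz : ∃ z ∈ Zp X p, R.Touch a z ∧ p z = p y := by
    by_cases hs : p s = p y
    · exact ⟨s, ⟨t, hsp.1 hst', hpst⟩, Ts, hs⟩
    · refine ⟨t, ⟨s, (hsp.1 hst').symm, fun h => hpst h.symm⟩, Tt, ?_⟩
      by_contra ht
      apply hmst
      show m s = m t
      simp only [m, if_neg hs, if_neg ht]
  obtain ⟨z, hzZ, hTz, hpz⟩ := hz
  refine ⟨z, hzZ, hTz, ?_⟩
  by_cases hxy' : p x = p y
  · exact (hc x hx z hzZ (hxy'.trans hpz.symm)).trans (Nat.le_add_left _ _)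
  · obtain ⟨w, hw⟩ := hconn.exists_walk_length_eq_dist x y
    obtain ⟨y2, hy2, hp2, w', hw'⟩ := walk_aux X p w hxy'
    have h3 : X.dist x y2 ≤ ρ := (SimpleGraph.dist_le w').trans (hw'.trans (hw ▸ hxy))
    have h4 := hc y2 hy2 z hzZ (hp2.trans hpz.symm)
    exact (hconn.dist_triangle (v := y2)).trans (Nat.add_le_add h3 h4)

end Pool.Agent.ACC
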