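import Pool.Agent.ACC.StmtsC
import Pool.Agent.ACC.LibB

set_option autoImplicit false

namespace Pool.Agent.ACC

theorem cin_proof (hPOL : Stmt_POL) : Stmt_CIN := by
  intro V X G f lam hlam hX hl hA hV hB ρ c
  obtain ⟨C0, hC0⟩ := hPOL V X G f lam hlam hX hl hA hV hB 2 (ρ + c)
  refine ⟨C0, ?_⟩
  intro U p R S T a b hsp hpl _ _ hzd hSZ hTZ hSn hTn ⟨x, hx, y, hy, hxy⟩ hST
  have hx' : p x ∈ p '' T := by rw [← hST]; exact ⟨x, hx, rfl⟩
  have hy' : p y ∈ p '' T := by rw [← hST]; exact ⟨y, hy, rfl⟩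
  obtain ⟨x', hx'T, hx'p⟩ := hx'
  obtain ⟨y', hy'T, hy'p⟩ := hy'
  have dx : X.dist x x' ≤ c := hzd x (hSZ hx) x' (hTZ hx'T) hx'p.symm
  have dy : X.dist y y' ≤ c := hzd y (hSZ hy) y' (hTZ hy'T) hy'p.symm
  obtain ⟨a0, da0, z0, ha0, ea0⟩ := hSn x hx
  obtain ⟨b0, db0, z1, hb0, eb0⟩ := hSn y hy
  obtain ⟨a1, da1, z2, ha1, ea1⟩ := hTn y' hy'T
  obtain ⟨b1, db1, z3, hb1, eb1⟩ := hTn x' hx'T
  have t1 : X.dist y a1 ≤ ρ + c := by
    have := hX.dist_triangle (u := y) (v := y') (w := a1)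
    omega
  have t2 : X.dist x b1 ≤ ρ + c := by
    have := hX.dist_triangle (u := x) (v := x') (w := b1)
    omega
  have key := hC0 R hsp hpl ![x, y] ![(a0, z0), (a1, z2)] ![(b0, z1), (b1, z3)] (by
    intro i j hij
    fin_cases i <;> fin_cases j
    · exact absurd rfl hij
    · exact hxy
    · show C0 < X.dist y x
      rw [SimpleGraph.dist_comm]; exact hxy
    · exact absurd rfl hij) (by
    intro i
    fin_cases i
    · refine ⟨ha0, hb0, ?_, ?_, ?_⟩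
      · show X.dist x a0 ≤ ρ + c
        omega
      · show X.dist y b0 ≤ ρ + c
        omega
      · exact R.eqv_trans (R.eqv_symm ea0) eb0
    · refine ⟨ha1, hb1, ?_, ?_, ?_⟩
      · exact t1
      · exact t2
      · exact R.eqv_trans (R.eqv_symm ea1) eb1)
  have k0 := key 0
  exact R.eqv_trans ea0 (R.eqv_trans k0 (R.eqv_symm ea1))

end Pool.Agent.ACC
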