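import Pool.Agent.ACC.StmtsC

set_option autoImplicit false

namespace Pool.Agent.ACC

namespace CNA_

theorem img_inv {U : Type} (g : Equiv.Perm U) (S : Set U) : (⇑(g⁻¹)) '' (g '' S) = S := by
  rw [← Set.image_comp]
  have : ((g⁻¹ : Equiv.Perm U) : U → U) ∘ (g : U → U) = id := by
    ext x; simp
  rw [this, Set.image_id]

theorem img_inv' {U : Type} (g : Equiv.Perm U) (S : Set U) : g '' (⇑(g⁻¹) '' S) = S := by
  rw [← Set.image_comp]
  have : (g : U → U) ∘ ((g⁻¹ : Equiv.Perm U) : U → U) = id := by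
    ext x; simp
  rw [this, Set.image_id]

def act {U : Type} (F : Set (Set U)) (g : Equiv.Perm U)
    (h1 : ∀ S ∈ F, g '' S ∈ F) (h2 : ∀ S ∈ F, (⇑(g⁻¹)) '' S ∈ F) : Equiv.Perm (U ⊕ F) where
  toFun
    | Sum.inl u => Sum.inl (g u)
    | Sum.inr S => Sum.inr ⟨g '' S.1, h1 S.1 S.2⟩
  invFun
    | Sum.inl u => Sum.inl (g⁻¹ u)
    | Sum.inr S => Sum.inr ⟨(⇑(g⁻¹)) '' S.1, h2 S.1 S.2⟩
  left_inv := by
    rintro (u | ⟨S, hS⟩)
    · simp
    · simp only [img_inv]
  right_inv := by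
    rintro (u | ⟨S, hS⟩)
    · simp
    · simp only [img_inv']

end CNA_

open CNA_ in
theorem cna_proof : Stmt_CNA := by
  intro U Y K F hY hF
  constructor
  · rintro s ⟨g, hg, h1, h2⟩ x y
    have hg' := hY g hg
    rcases x with u | S <;> rcases y with v | T
    · rw [h1, h1]
      constructor
      · rintro (⟨a, b, ha, hb, h⟩ | ⟨a, b, ha, hb, h⟩ | ⟨a, b, ha, hb, h⟩)
        · cases ha; cases hb
          exact Or.inl ⟨u, v, rfl, rfl, (hg' u v).1 h⟩
        · cases hb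
        · cases ha
      · rintro (⟨a, b, ha, hb, h⟩ | ⟨a, b, ha, hb, h⟩ | ⟨a, b, ha, hb, h⟩)
        · cases ha; cases hb
          exact Or.inl ⟨_, _, rfl, rfl, (hg' u v).2 h⟩
        · cases hb
        · cases ha
    · obtain ⟨T', hT, hT'⟩ := h2 T
      rw [h1, hT]
      constructor
      · rintro (⟨a, b, ha, hb, h⟩ | ⟨a, b, ha, hb, h⟩ | ⟨a, b, ha, hb, h⟩)
        · cases hb
        · cases ha; cases hb
          rw [hT'] at h
          obtain ⟨z, hz, hz'⟩ := h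
          rw [g.injective hz'] at hz
          exact Or.inr (Or.inl ⟨u, T, rfl, rfl, hz⟩)
        · cases ha
      · rintro (⟨a, b, ha, hb, h⟩ | ⟨a, b, ha, hb, h⟩ | ⟨a, b, ha, hb, h⟩)
        · cases hb
        · cases ha; cases hb
          exact Or.inr (Or.inl ⟨_, _, rfl, rfl, by rw [hT']; exact ⟨u, h, rfl⟩⟩)
        · cases ha
    · obtain ⟨S', hS, hS'⟩ := h2 S
      rw [h1, hS]
      constructor
      · rintro (⟨a, b, ha, hb, h⟩ | ⟨a, b, ha, hb, h⟩ | ⟨a, b, ha, hb, h⟩)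
        · cases ha
        · cases ha
        · cases ha; cases hb
          rw [hS'] at h
          obtain ⟨z, hz, hz'⟩ := h
          rw [g.injective hz'] at hz
          exact Or.inr (Or.inr ⟨v, S, rfl, rfl, hz⟩)
      · rintro (⟨a, b, ha, hb, h⟩ | ⟨a, b, ha, hb, h⟩ | ⟨a, b, ha, hb, h⟩)
        · cases ha
        · cases ha
        · cases ha; cases hb
          exact Or.inr (Or.inr ⟨_, _, rfl, rfl, by rw [hS']; exact ⟨v, h, rfl⟩⟩)
    · obtain ⟨S', hS, hS'⟩ := h2 S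
      obtain ⟨T', hT, hT'⟩ := h2 T
      rw [hS, hT]
      constructor
      · rintro (⟨a, b, ha, hb, h⟩ | ⟨a, b, ha, hb, h⟩ | ⟨a, b, ha, hb, h⟩)
        · cases ha
        · cases ha
        · cases hb
      · rintro (⟨a, b, ha, hb, h⟩ | ⟨a, b, ha, hb, h⟩ | ⟨a, b, ha, hb, h⟩)
        · cases ha
        · cases ha
        · cases hb
  · intro g hg
    refine ⟨act F g (hF g hg) (hF _ (K.inv_mem hg)), ⟨g, hg, fun u => rfl, fun S => ⟨_, rfl, rfl⟩⟩,
      fun u => rfl, fun S => ⟨_, rfl, rfl⟩⟩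

end Pool.Agent.ACC
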