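import Pool.Agent.ACC.StmtsC

/-!
# ACC, module CNC: the cone graph is connected
-/

set_option autoImplicit false

namespace Pool.Agent.ACC

open SimpleGraph in
theorem cnc_proof : Stmt_CNC := by
  intro U Y F hY hF
  have hin : ∀ u v : U, (cone Y F).Reachable (Sum.inl u) (Sum.inl v) := by
    intro u v
    obtain ⟨w⟩ := hY.preconnected u v
    induction w with
    | nil => exact Reachable.refl _
    | @cons a b c h p ih =>
      refine Reachable.trans (Adj.reachable ?_) ih
      exact Or.inl ⟨a, b, rfl, rfl, h⟩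
  obtain ⟨u0⟩ := hY.nonempty
  have hall : ∀ x : U ⊕ F, (cone Y F).Reachable (Sum.inl u0) x := by
    rintro (u | S)
    · exact hin u0 u
    · obtain ⟨u, hu⟩ := hF S.1 S.2
      refine (hin u0 u).trans (Adj.reachable ?_)
      exact Or.inr (Or.inl ⟨u, S, rfl, rfl, hu⟩)
  haveI : Nonempty (U ⊕ F) := ⟨Sum.inl u0⟩
  exact ⟨fun x y => (hall x).symm.trans (hall y)⟩

end Pool.Agent.ACC
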