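import Pool.Agent.ACC.StmtsC
import Pool.Agent.ACC.LibB

set_option autoImplicit false

namespace Pool.Agent.ACC

namespace CNE_

theorem fin_sub {U : Type} (F : Set (Set U)) (u : U) (h : {S | S ∈ F ∧ u ∈ S}.Finite) :
    {S : F | u ∈ (S : Set U)}.Finite := by
  have h1 : {S : F | u ∈ (S : Set U)} = Subtype.val ⁻¹' {S | S ∈ F ∧ u ∈ S} := by
    ext S
    simp only [Set.mem_ofPred_eq, Set.mem_preimage]
    exact ⟨fun h => ⟨S.2, h⟩, fun h => h.2⟩
  rw [h1]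
  exact h.preimage Subtype.val_injective.injOn

end CNE_

theorem cne_proof (hCNA : Stmt_CNA) : Stmt_CNE := by
  intro U Y K F hA hE hV hinv hfin
  obtain ⟨FE, hFE, hFE'⟩ := hE
  obtain ⟨FU, hFU, hFU'⟩ := hV
  obtain ⟨-, hs⟩ := hCNA U Y K F hA hinv
  refine ⟨(Sym2.map Sum.inl '' FE) ∪
    ⋃ u0 ∈ FU, (fun S : F => s(Sum.inl u0, Sum.inr S)) '' {S : F | u0 ∈ (S : Set U)}, ?_, ?_⟩
  · refine (hFE.image _).union (hFU.biUnion fun u0 _ => ?_)
    exact (CNE_.fin_sub F u0 (hfin u0)).image _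
  · have key : ∀ (u : U) (S : F), u ∈ (S : Set U) → ∃ g ∈ coneG K F,
        ∃ f ∈ (Sym2.map Sum.inl '' FE) ∪
          ⋃ u0 ∈ FU, (fun S : F => s(Sum.inl u0, Sum.inr S)) '' {S : F | u0 ∈ (S : Set U)},
        Sym2.map g f = s(Sum.inl u, Sum.inr S) := by
      intro u S huS
      obtain ⟨g, hg, u0, hu0, hgu⟩ := hFU' u
      obtain ⟨s, hsm, h1, h2⟩ := hs g hg
      have hS0 : (g⁻¹ : Equiv.Perm U) '' (S : Set U) ∈ F := hinv g⁻¹ (K.inv_mem hg) S S.2
      obtain ⟨T, hT, hT'⟩ := h2 ⟨_, hS0⟩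
      refine ⟨s, hsm, s(Sum.inl u0, Sum.inr ⟨_, hS0⟩), Or.inr ?_, ?_⟩
      · refine Set.mem_biUnion hu0 ⟨⟨_, hS0⟩, ?_, rfl⟩
        refine ⟨u, huS, ?_⟩
        rw [← hgu]
        simp
      · rw [Sym2.map_mk]
        have h3 : T = S := by
          apply Subtype.ext
          rw [hT']
          exact image_image_inv g _
        show s(s (Sum.inl u0), s (Sum.inr ⟨_, hS0⟩)) = _
        rw [h1, hT, h3, hgu]
    intro e he
    induction e using Sym2.inductionOn with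
    | _ x y =>
      rw [SimpleGraph.mem_edgeSet] at he
      rcases he with ⟨u, v, rfl, rfl, h⟩ | ⟨u, S, rfl, rfl, h⟩ | ⟨u, S, rfl, rfl, h⟩
      · obtain ⟨g, hg, f, hf, hgf⟩ := hFE' s(u, v) h
        obtain ⟨s, hsm, h1, h2⟩ := hs g hg
        refine ⟨s, hsm, Sym2.map Sum.inl f, Or.inl ⟨f, hf, rfl⟩, ?_⟩
        rw [Sym2.map_map]
        have h3 : (s : U ⊕ F → U ⊕ F) ∘ Sum.inl = Sum.inl ∘ g := by
          funext x
          exact h1 x
        rw [h3, ← Sym2.map_map, hgf]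
        rfl
      · exact key u S h
      · obtain ⟨g, hg, f, hf, h3⟩ := key u S h
        refine ⟨g, hg, f, hf, ?_⟩
        rw [h3]
        exact Sym2.eq_swap

end Pool.Agent.ACC
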