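import Pool.Agent.ACC.StmtsC

/-!
Module CNW: the short closed walks of the cone graph.
-/

set_option autoImplicit false

namespace Pool.Agent.ACC

namespace CNW_

variable {U : Type}

/-- edge lists and end points of short walks from a vertex -/
def SW (Y : SimpleGraph U) (r : ℕ) (u : U) : Set (List (Sym2 U) × U) :=
  {q | ∃ (w : Y.Walk u q.2), w.length ≤ r ∧ q.1 = w.edges}

theorem sw_finite (Y : SimpleGraph U) (hY : LocFin Y) (r : ℕ) : ∀ u, (SW Y r u).Finite := by
  induction r with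
  | zero =>
    intro u
    apply Set.Finite.subset (Set.finite_singleton (([] : List (Sym2 U)), u))
    rintro ⟨l, v⟩ ⟨w, hw, hl⟩
    dsimp only at w hw hl
    cases w with
    | nil =>
      rw [hl]
      rfl
    | cons h w' =>
      simp at hw
  | succ r ih =>
    intro u
    have h1 : (⋃ x ∈ Y.neighborSet u, (fun q : List (Sym2 U) × U =>
        ((s(u, x) :: q.1 : List (Sym2 U)), q.2)) '' SW Y r x).Finite :=
      (hY u).biUnion (fun x _ => (ih x).image _)
    apply ((Set.finite_singleton (([] : List (Sym2 U)), u)).union h1).subset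
    rintro ⟨l, v⟩ ⟨w, hw, hl⟩
    dsimp only at w hw hl
    cases w with
    | nil =>
      left
      rw [hl]
      rfl
    | @cons _ x _ h w' =>
      right
      refine Set.mem_iUnion₂.mpr ⟨x, h, (w'.edges, v), ⟨w', ?_, rfl⟩, ?_⟩
      · rw [SimpleGraph.Walk.length_cons] at hw
        omega
      · rw [hl, SimpleGraph.Walk.edges_cons]

/-- the embedding of the graph into the cone -/
def inlHom (Y : SimpleGraph U) (F : Set (Set U)) : Y →g cone Y F where
  toFun := Sum.inl
  map_rel' := fun {a b} h => Or.inl ⟨a, b, rfl, rfl, h⟩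

theorem edges_inl (Y : SimpleGraph U) (F : Set (Set U)) {u v : U} (w : Y.Walk u v) :
    (w.map (inlHom Y F)).edges = w.edges.map (Sym2.map Sum.inl) := by
  rw [SimpleGraph.Walk.edges_map]
  rfl

theorem isCW2 (Y : SimpleGraph U) (F : Set (Set U)) (S : F) {u v : U} (w : Y.Walk u v)
    (hu : u ∈ (S : Set U)) (hv : v ∈ (S : Set U)) :
    IsCW (cone Y F) (s(Sum.inr S, Sum.inl u) :: (w.edges.map (Sym2.map Sum.inl) ++
      [s(Sum.inl v, Sum.inr S)])) := by
  have h1 : (cone Y F).Adj (Sum.inr S) (inlHom Y F u) := Or.inr (Or.inr ⟨u, S, rfl, rfl, hu⟩)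
  have h2 : (cone Y F).Adj (inlHom Y F v) (Sum.inr S) := Or.inr (Or.inl ⟨v, S, rfl, rfl, hv⟩)
  refine ⟨Sum.inr S, SimpleGraph.Walk.cons h1 ((w.map (inlHom Y F)).append
    (SimpleGraph.Walk.cons h2 SimpleGraph.Walk.nil)), ?_⟩
  rw [SimpleGraph.Walk.edges_cons, SimpleGraph.Walk.edges_append, edges_inl]
  rfl

end CNW_

open CNW_ in
theorem cnw_proof (hcna : Stmt_CNA) : Stmt_CNW := by
  intro U Y K F r hA hY hV hF hfin
  refine ⟨?_, ?_⟩
  · rintro l (⟨u, w, _, rfl⟩ | ⟨S, u, v, w, hu, hv, _, rfl⟩)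
    · exact ⟨Sum.inl u, w.map (inlHom Y F), edges_inl Y F w⟩
    · exact isCW2 Y F S w hu hv
  · obtain ⟨FU, hFU, hFr⟩ := hV
    have hSfin : ∀ u : U, {S : F | u ∈ (S : Set U)}.Finite := by
      intro u
      have h := (hfin u).preimage (f := (Subtype.val : F → Set U))
        Subtype.val_injective.injOn
      apply h.subset
      intro S hS
      exact ⟨S.2, hS⟩
    let f1 : List (Sym2 U) × U → List (Sym2 (U ⊕ F)) := fun q => q.1.map (Sym2.map Sum.inl)
    let f2 : U → F → List (Sym2 U) × U → List (Sym2 (U ⊕ F)) := fun u S q =>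
      s(Sum.inr S, Sum.inl u) :: (q.1.map (Sym2.map Sum.inl) ++ [s(Sum.inl q.2, Sum.inr S)])
    refine ⟨(⋃ u ∈ FU, f1 '' SW Y r u) ∪
      ⋃ u ∈ FU, ⋃ S ∈ {S : F | u ∈ (S : Set U)}, f2 u S '' SW Y r u, ?_, ?_⟩
    · refine Set.Finite.union (hFU.biUnion (fun u _ => (sw_finite Y hY r u).image _)) ?_
      exact hFU.biUnion (fun u _ => (hSfin u).biUnion
        (fun S _ => (sw_finite Y hY r u).image _))
    · -- translation of a walk
      have key : ∀ u : U, ∃ g ∈ K, ∃ u0 ∈ FU, g u0 = u ∧ ∀ (v : U) (w : Y.Walk u v),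
          w.length ≤ r → ∃ q ∈ SW Y r u0, q.1.map (Sym2.map g) = w.edges ∧ g q.2 = v := by
        intro u
        obtain ⟨g, hg, u0, hu0, hgu⟩ := hFr u
        refine ⟨g, hg, u0, hu0, hgu, ?_⟩
        intro v w hw
        have hginv : ∀ x y, Y.Adj (g⁻¹ x) (g⁻¹ y) ↔ Y.Adj x y := hA g⁻¹ (K.inv_mem hg)
        let ψ : Y →g Y :=
          { toFun := fun x => g⁻¹ x
            map_rel' := fun {a b} h => (hginv a b).mpr h }
        have hu : g⁻¹ u = u0 := by
          rw [Equiv.Perm.inv_eq_iff_eq, hgu]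
        have hmem : ((w.map ψ).edges, g⁻¹ v) ∈ SW Y r (g⁻¹ u) :=
          ⟨w.map ψ, by rw [SimpleGraph.Walk.length_map]; exact hw, rfl⟩
        rw [hu] at hmem
        refine ⟨_, hmem, ?_, by simp⟩
        show (w.map ψ).edges.map (Sym2.map g) = w.edges
        rw [SimpleGraph.Walk.edges_map, List.map_map]
        have h2 : (Sym2.map g ∘ Sym2.map ψ : Sym2 U → Sym2 U) = id := by
          rw [← Sym2.map_comp]
          have h3 : (g ∘ ψ : U → U) = id := by
            funext x
            show g (g⁻¹ x) = x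
            simp
          rw [h3, Sym2.map_id]
        rw [h2, List.map_id]
      have hmapinl : ∀ (g : Equiv.Perm U) (s : Equiv.Perm (U ⊕ F)),
          (∀ u, s (Sum.inl u) = Sum.inl (g u)) → ∀ l : List (Sym2 U),
          (l.map (Sym2.map Sum.inl)).map (Sym2.map s) =
            (l.map (Sym2.map g)).map (Sym2.map Sum.inl) := by
        intro g s hs l
        rw [List.map_map, List.map_map, ← Sym2.map_comp, ← Sym2.map_comp]
        have : ((s : U ⊕ F → U ⊕ F) ∘ Sum.inl) = (Sum.inl ∘ (g : U → U)) := by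
          funext x
          exact hs x
        rw [this]
      rintro l (⟨u, w, hw, rfl⟩ | ⟨S, u, v, w, hu, hv, hw, rfl⟩)
      · obtain ⟨g, hg, u0, hu0, hgu, hk⟩ := key u
        obtain ⟨q, hq, hq1, hq2⟩ := hk u w hw
        obtain ⟨s, hs, hs1, hs2⟩ := (hcna U Y K F hA hF).2 g hg
        refine ⟨s, hs, f1 q, Or.inl (Set.mem_iUnion₂.mpr ⟨u0, hu0, q, hq, rfl⟩), ?_⟩
        show (q.1.map (Sym2.map Sum.inl)).map (Sym2.map s) = _
        rw [hmapinl g s hs1, hq1]
      · obtain ⟨g, hg, u0, hu0, hgu, hk⟩ := key u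
        obtain ⟨q, hq, hq1, hq2⟩ := hk v w hw
        obtain ⟨s, hs, hs1, hs2⟩ := (hcna U Y K F hA hF).2 g hg
        let S0 : F := ⟨(⇑(g⁻¹)) '' (S : Set U), hF _ (K.inv_mem hg) _ S.2⟩
        have hS0 : g '' (S0 : Set U) = S := by
          show g '' ((⇑(g⁻¹)) '' (S : Set U)) = S
          rw [← Set.image_comp]
          have : (g : U → U) ∘ ((g⁻¹ : Equiv.Perm U) : U → U) = id := by
            ext x; simp
          rw [this, Set.image_id]
        have hu0S : u0 ∈ (S0 : Set U) := by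
          refine ⟨u, hu, ?_⟩
          rw [Equiv.Perm.inv_eq_iff_eq, hgu]
        have hsS0 : s (Sum.inr S0) = Sum.inr S := by
          obtain ⟨T, hT, hT'⟩ := hs2 S0
          rw [hT]
          have : T = S := by
            apply Subtype.ext
            rw [hT', hS0]
          rw [this]
        refine ⟨s, hs, f2 u0 S0 q, Or.inr (Set.mem_iUnion₂.mpr ⟨u0, hu0,
          Set.mem_iUnion₂.mpr ⟨S0, hu0S, q, hq, rfl⟩⟩), ?_⟩
        show (s(Sum.inr S0, Sum.inl u0) :: (q.1.map (Sym2.map Sum.inl) ++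
          [s(Sum.inl q.2, Sum.inr S0)])).map (Sym2.map s) = _
        rw [List.map_cons, List.map_append, hmapinl g s hs1, hq1, List.map_singleton,
          Sym2.map_mk, Sym2.map_mk]
        simp only [hsS0, hs1, hgu, hq2]

end Pool.Agent.ACC
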