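import Pool.Agent.ACC.StmtsB

set_option autoImplicit false

namespace Pool.Agent.ACC

namespace COF_

theorem nbd_fin {V : Type} {X : SimpleGraph V} {f : ℕ → ℕ} (h : BG X f) {S : Set V}
    (hS : S.Finite) (r : ℕ) : (nbd X S r).Finite := by
  have : nbd X S r ⊆ ⋃ s ∈ S, ball X s r := by
    rintro v ⟨s, hs, hd⟩
    exact Set.mem_biUnion hs hd
  exact (hS.biUnion (fun s _ => (h s r).1)).subset this

theorem sub_nbd {V : Type} {X : SimpleGraph V} {S : Set V} (r : ℕ) {x : V} (hx : x ∈ S) :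
    x ∈ nbd X S r := ⟨x, hx, by simp⟩

end COF_

theorem cof_proof (h1 : Stmt_RSP) (h2 : Stmt_PST) (h3 : Stmt_QST) : Stmt_COF := by
  intro f lam hlam
  obtain ⟨k, c0, hP⟩ := h2 f lam (6 * lam ^ 3 + 8 * lam + 1) hlam
  refine ⟨k, c0, ?_⟩
  intro V X R Q S T hX hBG hSR hPR hSQ hPQ hS hT cS cT hNS hex
  obtain ⟨a, b, ha, hb, haS, hbT, hab⟩ := hex
  by_contra hno
  obtain ⟨j, hcol, hj1, hj0⟩ := h1 V R (nbd X S c0) (nbd X T c0) (COF_.nbd_fin hBG hS c0)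
    (COF_.nbd_fin hBG hT c0) (fun a b ha hb haS hbT hab => hno ⟨a, b, ha, hb, haS, hbT, hab⟩)
  have hF := hP V X R S T j hX ⟨a.1, a.2, hSQ.1 ha⟩ hBG hSR hPR hS hT cS cT hNS hcol
    (fun x hx y hy => (hj1 x (COF_.sub_nbd c0 hx) y hy).1)
    (fun x hx y hy => (hj0 x (COF_.sub_nbd c0 hx) y hy).1) (by
      intro p hp s hs
      by_contra hlt
      push Not at hlt
      rcases hs with hs | hs
      · have := hj1 p.1 ⟨s, hs, hlt⟩ p.2 hp.1
        exact hp.2 (this.1.trans this.2.symm)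
      · have := hj0 p.1 ⟨s, hs, hlt⟩ p.2 hp.1
        exact hp.2 (this.1.trans this.2.symm))
  obtain ⟨F⟩ := hF
  exact h3 V X R.P Q lam _ S T hX hlam hSR.1 hSQ hPQ (by omega) F a b ha hb haS hbT hab

end Pool.Agent.ACC
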