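import Pool.Agent.ACC.StmtsC
import Pool.Agent.ACC.LibB

/-!
MP_851278_al, squad ACD, module CRE: the traces of the members of the canonical family of the cone
graph form a nested family of the quotient.
-/

set_option autoImplicit false

namespace Pool.Agent.ACC

namespace CRE_

variable {U : Type}

theorem nested_pre {V W : Type} (f : V → W) {A B : Set W} (h : Nested A B) :
    Nested (f ⁻¹' A) (f ⁻¹' B) := by
  rcases h with h | h | h | h
  · exact Or.inl (Set.preimage_mono h)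
  · exact Or.inr (Or.inl (Set.preimage_mono h))
  · exact Or.inr (Or.inr (Or.inl (Set.preimage_mono h)))
  · exact Or.inr (Or.inr (Or.inr (Set.preimage_mono h)))

theorem fin_ends {V : Type} {D : Set (Sym2 V)} (hD : D.Finite) : {u | ∃ e ∈ D, u ∈ e}.Finite := by
  have h : {u | ∃ e ∈ D, u ∈ e} = ⋃ e ∈ D, {u | u ∈ e} := by
    ext u
    simp
  rw [h]
  refine hD.biUnion (fun e _ => ?_)
  induction e using Sym2.ind with
  | _ a b =>
    refine Set.Finite.subset (Set.toFinite {a, b}) ?_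
    intro u hu
    have hu' : u ∈ s(a, b) := hu
    rw [Sym2.mem_iff] at hu'
    rcases hu' with h | h
    · exact Or.inl h
    · exact Or.inr h

/-- the action on traces -/
theorem image_pre {F : Set (Set U)} (g : Equiv.Perm U) (s : Equiv.Perm (U ⊕ F))
    (h1 : ∀ u, s (Sum.inl u) = Sum.inl (g u)) (h2 : ∀ S : F, ∃ T : F, s (Sum.inr S) = Sum.inr T)
    (B : Set (U ⊕ F)) : g '' (Sum.inl ⁻¹' B) = Sum.inl ⁻¹' (s '' B) := by
  ext x
  constructor
  · rintro ⟨u, hu, rfl⟩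
    exact ⟨Sum.inl u, hu, h1 u⟩
  · rintro ⟨b, hb, hbx⟩
    rcases b with u | S
    · rw [h1] at hbx
      exact ⟨u, hb, Sum.inl_injective hbx⟩
    · obtain ⟨T, hT⟩ := h2 S
      rw [hT] at hbx
      cases hbx

theorem bd_inl (Y : SimpleGraph U) (F : Set (Set U)) (B : Set (U ⊕ F)) :
    Sym2.map Sum.inl '' bd Y (Sum.inl ⁻¹' B) ⊆ bd (cone Y F) B := by
  rintro e ⟨e', ⟨x, y, hxy, hx, hy, rfl⟩, rfl⟩
  exact ⟨Sum.inl x, Sum.inl y, Or.inl ⟨x, y, rfl, rfl, hxy⟩, hx, hy, rfl⟩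

/-- extension of a set to the apices -/
def ext (F : Set (Set U)) (A : Set U) : Set (U ⊕ F) :=
  {x | (∃ u ∈ A, x = Sum.inl u) ∨ ∃ S : F, x = Sum.inr S ∧ (S : Set U) ⊆ A}

theorem ext_pre (F : Set (Set U)) (A : Set U) : Sum.inl ⁻¹' (ext F A) = A := by
  ext x
  constructor
  · rintro (⟨u, hu, h⟩ | ⟨S, h, -⟩)
    · rw [Sum.inl_injective h]
      exact hu
    · cases h
  · intro hx
    exact Or.inl ⟨x, hx, rfl⟩

theorem ext_cover (Y : SimpleGraph U) (F : Set (Set U)) (A : Set U) :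
    ∀ e ∈ bd (cone Y F) (ext F A), ∃ x ∈ (Sum.inl '' {u | ∃ e ∈ bd Y A, u ∈ e} ∪
      Sum.inr '' {S : F | ((S : Set U) ∩ A).Nonempty ∧ ((S : Set U) ∩ Aᶜ).Nonempty} :
        Set (U ⊕ F)), x ∈ e := by
  rintro e ⟨x, y, hxy, hx, hy, rfl⟩
  rcases hxy with ⟨u, v, rfl, rfl, huv⟩ | ⟨u, S, rfl, rfl, hu⟩ | ⟨u, S, rfl, rfl, hu⟩
  · have hu : u ∈ A := by
      rcases hx with ⟨w, hw, h⟩ | ⟨S, h, -⟩
      · rw [Sum.inl_injective h]
        exact hw
      · cases h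
    have hv : v ∉ A := fun hv => hy (Or.inl ⟨v, hv, rfl⟩)
    refine ⟨Sum.inl u, Or.inl ⟨u, ⟨s(u, v), ⟨u, v, huv, hu, hv, rfl⟩, ?_⟩, rfl⟩, ?_⟩
    · exact Sym2.mem_mk_left u v
    · exact Sym2.mem_mk_left _ _
  · have hu' : u ∈ A := by
      rcases hx with ⟨w, hw, h⟩ | ⟨S, h, -⟩
      · rw [Sum.inl_injective h]
        exact hw
      · cases h
    have hS : ¬ (S : Set U) ⊆ A := fun hS => hy (Or.inr ⟨S, rfl, hS⟩)
    obtain ⟨w, hw1, hw2⟩ := Set.not_subset.1 hS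
    exact ⟨Sum.inr S, Or.inr ⟨S, ⟨⟨u, hu, hu'⟩, ⟨w, hw1, hw2⟩⟩, rfl⟩, Sym2.mem_mk_right _ _⟩
  · exfalso
    rcases hx with ⟨w, -, h⟩ | ⟨T, h, hT⟩
    · cases h
    · rw [← Sum.inr_injective h] at hT
      exact hy (Or.inl ⟨u, hT hu, rfl⟩)

end CRE_

open CRE_ in
theorem cre_proof (hEFV : Stmt_EFV) (hCRF : Stmt_CRF) (hDDF : Stmt_DDF) (hNFE : Stmt_NFE)
    (hPCL : Stmt_PCL) (hFLF : Stmt_FLF) (hCNC : Stmt_CNC) (hCNA : Stmt_CNA) (hCNE : Stmt_CNE)
    (hSPA : Stmt_SPA) : Stmt_CRE := by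
  intro V U X R lam p K F a c hD N
  obtain ⟨hYc, hYl, -⟩ := hPCL V U X p hD.con hD.sur hD.fb
  have hfl := hFLF V U X R lam p K F a c hD
  have hEF := hEFV U (push X p) K hYl hD.aut hD.vf
  have hCc := hCNC U (push X p) F hYc hD.ne
  obtain ⟨hAut, hs⟩ := hCNA U (push X p) K F hD.aut hD.inv
  have hCE := hCNE U (push X p) K F hD.aut hEF hD.vf hD.inv hfl
  have hNF := hNFE (U ⊕ F) (cone (push X p) F) (coneG K F) hCc hAut hCE N
  have hGood := hDDF (U ⊕ F) (cone (push X p) F) hCc N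
  refine ⟨⟨?_, ?_, ?_⟩, ?_, ?_, ?_, ?_, ?_⟩
  · -- complements
    rintro A ⟨B, hB, rfl, h1, h2⟩
    refine ⟨Bᶜ, hNF.compl B hB, rfl, h2, ?_⟩
    rw [compl_compl]
    exact h1
  · rintro A ⟨B, hB, rfl, h1, h2⟩
    exact h1
  · rintro A ⟨B, hB, rfl, h1, h2⟩ A' ⟨B', hB', rfl, h1', h2'⟩
    exact nested_pre _ (hNF.nested B hB B' hB')
  · -- small
    rintro A ⟨B, hB, rfl, h1, h2⟩
    have hinj : Function.Injective (Sym2.map (Sum.inl : U → U ⊕ F)) :=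
      Sym2.map.injective Sum.inl_injective
    have hsub := bd_inl (push X p) F B
    obtain ⟨hf, hn⟩ := hNF.small B hB
    have hf1 : (Sym2.map (Sum.inl : U → U ⊕ F) '' bd (push X p) (Sum.inl ⁻¹' B)).Finite :=
      hf.subset hsub
    refine ⟨Set.Finite.of_finite_image hf1 hinj.injOn, ?_⟩
    rw [← Set.ncard_image_of_injective _ hinj]
    exact (Set.ncard_le_ncard hsub hf).trans hn
  · -- locally finite
    intro x y
    refine Set.Finite.subset ((hNF.lf (Sum.inl x) (Sum.inl y)).image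
      (fun B : Set (U ⊕ F) => (Sum.inl ⁻¹' B : Set U))) ?_
    rintro A ⟨⟨B, hB, rfl, h1, h2⟩, hx, hy⟩
    exact ⟨B, ⟨hB, hx, hy⟩, rfl⟩
  · -- crossing
    intro A hA
    have hcf : (Sum.inl '' {u | ∃ e ∈ bd (push X p) A, u ∈ e} ∪
        Sum.inr '' {S : F | ((S : Set U) ∩ A).Nonempty ∧ ((S : Set U) ∩ Aᶜ).Nonempty} :
        Set (U ⊕ F)).Finite := by
      refine Set.Finite.union ((fin_ends hA).image _) (Set.Finite.image _ ?_)
      have h := (hSPA V U X R lam p K F a c hD A hA).preimage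
        (Subtype.val_injective (p := fun S => S ∈ F)).injOn
      refine h.subset ?_
      rintro S ⟨hS1, hS2⟩
      exact ⟨S.2, hS1, hS2⟩
    have hfin := hCRF (U ⊕ F) (cone (push X p) F) hCc N (ext F A) _ hcf
      (ext_cover (push X p) F A)
    refine Set.Finite.subset (hfin.image (fun B : Set (U ⊕ F) => (Sum.inl ⁻¹' B : Set U))) ?_
    rintro A' ⟨⟨B, hB, rfl, h1, h2⟩, hn⟩
    refine ⟨B, ⟨hGood.bond B hB, hGood.card B hB, ?_⟩, rfl⟩
    intro hne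
    have h := nested_pre (Sum.inl : U → U ⊕ F) hne
    rw [ext_pre] at h
    exact hn h
  · -- invariant
    rintro g hg A ⟨B, hB, rfl, h1, h2⟩
    obtain ⟨s, hsG, hs1, hs2⟩ := hs g hg
    have him := image_pre g s hs1 (fun S => by
      obtain ⟨T, hT, -⟩ := hs2 S
      exact ⟨T, hT⟩) B
    refine ⟨s '' B, hNF.inv s hsG B hB, him, h1.image _, ?_⟩
    rw [← image_compl]
    exact h2.image _
  · -- finitely many orbits
    obtain ⟨F1, hF1, hF2, hF3⟩ := hNF.fin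
    refine ⟨{A | ∃ B ∈ F1, A = Sum.inl ⁻¹' B ∧ A.Nonempty ∧ Aᶜ.Nonempty}, ?_, ?_, ?_⟩
    · refine (hF1.image (fun B : Set (U ⊕ F) => (Sum.inl ⁻¹' B : Set U))).subset ?_
      rintro A ⟨B, hB, rfl, -, -⟩
      exact ⟨B, hB, rfl⟩
    · rintro A ⟨B, hB, h⟩
      exact ⟨B, hF2 hB, h⟩
    · rintro A ⟨B, hB, rfl, h1, h2⟩
      obtain ⟨s, ⟨g, hg, hs1, hs2⟩, B0, hB0, rfl⟩ := hF3 B hB
      have him := image_pre g s hs1 (fun S => by
        obtain ⟨T, hT, -⟩ := hs2 S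
        exact ⟨T, hT⟩) B0
      refine ⟨g, hg, Sum.inl ⁻¹' B0, ⟨B0, hB0, rfl, ?_, ?_⟩, him⟩
      · rw [← him] at h1
        exact h1.of_image
      · rw [← him, ← image_compl] at h2
        exact h2.of_image

end Pool.Agent.ACC
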