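import Pool.Agent.ACC.Lib

/-!
# CRF: only finitely many bonds of bounded size cross a given set
-/

set_option autoImplicit false

namespace Pool.Agent.ACC

namespace CRF_

lemma noedge {V : Type} (X : SimpleGraph V) (A S C : Set V)
    (hS : ∀ e ∈ bd X A, ∃ x ∈ S, x ∈ e) (hC : ∀ x ∈ S, x ∉ C) :
    ∀ x ∈ C, ∀ y ∈ C, X.Adj x y → s(x, y) ∉ bd X A := by
  intro x hx y hy _ he
  obtain ⟨z, hz, hze⟩ := hS _ he
  rcases Sym2.mem_iff.mp hze with rfl | rfl
  · exact hC _ hz hx
  · exact hC _ hz hy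

end CRF_

open CRF_ in
theorem crf_proof (h1 : Stmt_FBL) (h2 : Stmt_FCS) : Stmt_CRF := by
  intro V X hX n A S hS hSA
  obtain ⟨F, hF, -, hFB⟩ := h2 V X hX S hS
  have hfin : (⋃ e ∈ F, {B : Set V | IsBond X B ∧ (bd X B).ncard ≤ n ∧ e ∈ bd X B}).Finite :=
    hF.biUnion fun e _ => h1 V X hX n e
  refine hfin.subset ?_
  rintro B ⟨hB, hBn, hcross⟩
  by_cases hd : Disjoint (bd X B) F
  · exfalso
    apply hcross
    rcases hFB B hd with h | h
    · rcases subset_or_subset_compl hB.2.2 (noedge X A S Bᶜ hSA fun x hx hxB => hxB (h hx))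
        with h' | h'
      · exact Or.inr (Or.inr (Or.inl (Set.compl_subset_comm.mp h')))
      · exact Or.inl (Set.compl_subset_compl.mp h')
    · rcases subset_or_subset_compl hB.2.1 (noedge X A S B hSA fun x hx hxB => h hx hxB)
        with h' | h'
      · exact Or.inr (Or.inr (Or.inr (Set.compl_subset_compl.mpr h')))
      · exact Or.inr (Or.inl (Set.subset_compl_comm.mp h'))
  · rw [Set.not_disjoint_iff] at hd
    obtain ⟨e, he, heF⟩ := hd
    exact Set.mem_iUnion₂.mpr ⟨e, heF, hB, hBn, he⟩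

end Pool.Agent.ACC
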