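import Pool.Agent.ACC.StmtsA

set_option autoImplicit false

namespace Pool.Agent.ACC

theorem CRT_.gmono {V : Type} {S T : Set (Set V)} (h : S ⊆ T) {A : Set V} (hA : Gen S A) :
    Gen T A := by
  induction hA with
  | base A hA => exact Gen.base A (h hA)
  | empty => exact Gen.empty
  | compl A _ ih => exact Gen.compl A ih
  | inter A B _ _ ih1 ih2 => exact Gen.inter A B ih1 ih2

/-- independence -/
def CRT_.Ind {V : Type} (G : Subgroup (Equiv.Perm V)) (S : Finset (Set V)) : Prop :=
  ∀ A ∈ S, ∀ B ∈ S, ∀ g ∈ G, (g '' A = B ∨ g '' A = Bᶜ) → A = B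

theorem CRT_.inv {V : Type} (g : Equiv.Perm V) (A B : Set V) (h : g '' A = B) :
    (g⁻¹ : Equiv.Perm V) '' B = A := by
  rw [← h, ← Set.image_comp]
  have : ((g⁻¹ : Equiv.Perm V) : V → V) ∘ (g : V → V) = id := by
    ext x; simp
  rw [this, Set.image_id]

theorem CRT_.mono {V : Type} (X : SimpleGraph V) : Monotone (EE X) := by
  refine monotone_nat_of_le_succ fun n => ?_
  intro A hA
  exact Or.inl hA

theorem crt_proof (hNFE : Stmt_NFE) (hDDF : Stmt_DDF) (hDDE : Stmt_DDE) (hWCB : Stmt_WCB)
    (hLIA : Stmt_LIA) : Stmt_CRT := by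
  classical
  intro V X G W hconn haut hedge hcw hlist hco
  obtain ⟨M, hM⟩ := hLIA V X G W hconn haut hedge hcw hlist
  have hNF : ∀ n, NestFam X G (EE X n) n := hNFE V X G hconn haut hedge
  have hGood : ∀ n, Good X n (EE X n) := hDDF V X hconn
  have hW : ∀ n, WConn (EE X n) X W := fun n =>
    hWCB V X W (EE X n) hconn hcw hco (fun A hA => (hGood n).bond A hA)
  have hmono := CRT_.mono X
  let P : Set ℕ := {k | ∃ (n : ℕ) (S : Finset (Set V)), (∀ A ∈ S, A ∈ EE X n) ∧ CRT_.Ind G S ∧
    S.card = k}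
  have hP0 : P.Nonempty := by
    refine ⟨0, 0, ∅, ?_, ?_, rfl⟩
    · intro A hA
      simp at hA
    · intro A hA
      simp at hA
  have hPb : BddAbove P := by
    refine ⟨M, ?_⟩
    rintro k ⟨n, S, h1, h2, rfl⟩
    exact hM (EE X n) n (hNF n) (hW n) S h1 h2
  obtain ⟨N, S, hS1, hS2, hS3⟩ := Nat.sSup_mem hP0 hPb
  have hmax : ∀ k ∈ P, k ≤ S.card := by
    intro k hk
    rw [hS3]
    exact le_csSup hPb hk
  have key : ∀ n, N ≤ n → EE X n ⊆ EE X N := by
    intro n hn A hA
    by_contra hAN
    have hAS : A ∉ S := fun h => hAN (hS1 A h)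
    have hnot : ¬ CRT_.Ind G (insert A S) := by
      intro hInd
      have h1 : (insert A S).card ∈ P := by
        refine ⟨n, insert A S, ?_, hInd, rfl⟩
        intro B hB
        rcases Finset.mem_insert.mp hB with h | h
        · rw [h]; exact hA
        · exact hmono hn (hS1 B h)
      have h2 := hmax _ h1
      rw [Finset.card_insert_of_notMem hAS] at h2
      omega
    apply hnot
    intro A1 hA1 B1 hB1 g hg h
    rcases Finset.mem_insert.mp hA1 with hA2 | hA2
    · rcases Finset.mem_insert.mp hB1 with hB2 | hB2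
      · rw [hA2, hB2]
      · exfalso
        subst hA2
        have hgi : g⁻¹ ∈ G := G.inv_mem hg
        have hB1N := hS1 B1 hB2
        rcases h with h | h
        · have h3 := hDDE V X g⁻¹ (haut g⁻¹ hgi) N B1 hB1N
          rw [CRT_.inv g A1 B1 h] at h3
          exact hAN h3
        · have h3 := hDDE V X g⁻¹ (haut g⁻¹ hgi) N B1ᶜ ((hGood N).compl B1 hB1N)
          rw [CRT_.inv g A1 B1ᶜ h] at h3
          exact hAN h3
    · rcases Finset.mem_insert.mp hB1 with hB2 | hB2
      · exfalso
        subst hB2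
        have h3 := hDDE V X g (haut g hg) N A1 (hS1 A1 hA2)
        rcases h with h | h
        · rw [h] at h3
          exact hAN h3
        · rw [h] at h3
          have h4 := (hGood N).compl _ h3
          rw [compl_compl] at h4
          exact hAN h4
      · exact hS2 A1 hA2 B1 hB2 g hg h
  have hall : ∀ n, EE X n ⊆ EE X N := by
    intro n
    rcases le_total n N with h | h
    · exact hmono h
    · exact key n h
  have hgen : ∀ A : Set V, (bd X A).Finite → Gen (EE X N) A := by
    intro A hA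
    exact CRT_.gmono (hall _) ((hGood (bd X A).ncard).gen A ⟨hA, le_rfl⟩)
  refine ⟨N, hall, hgen, N, fun A hA => CRT_.gmono ?_ (hgen A hA)⟩
  intro B hB
  exact ⟨((hGood N).bond B hB).1, (hGood N).card B hB⟩

end Pool.Agent.ACC
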