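import Pool.Agent.ACC.Lib

/-!
MP_851278_al, Part I: a set of edges which is even on all closed walks is a cut.
-/

set_option autoImplicit false

namespace Pool.Agent.ACC

namespace CUT_

theorem cnt_append {V : Type} (D : Set (Sym2 V)) (l l' : List (Sym2 V)) :
    cnt D (l ++ l') = cnt D l + cnt D l' := by
  unfold cnt
  exact List.countP_append

theorem cnt_reverse {V : Type} (D : Set (Sym2 V)) (l : List (Sym2 V)) :
    cnt D l.reverse = cnt D l := by
  unfold cnt
  exact List.countP_reverse

theorem par {V : Type} (X : SimpleGraph V) (D : Set (Sym2 V))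
    (h : ∀ l, IsCW X l → Even (cnt D l)) {x y : V} (p q : X.Walk x y) :
    Even (cnt D p.edges) ↔ Even (cnt D q.edges) := by
  have h1 := h (p.append q.reverse).edges ⟨x, _, rfl⟩
  rw [SimpleGraph.Walk.edges_append, SimpleGraph.Walk.edges_reverse, cnt_append,
    cnt_reverse, Nat.even_add] at h1
  exact h1

theorem cnt_single {V : Type} (D : Set (Sym2 V)) (e : Sym2 V) :
    Even (cnt D [e]) ↔ e ∉ D := by
  classical
  unfold cnt
  by_cases h : e ∈ D
  · rw [List.countP_cons_of_pos (by simpa using h)]
    simp [h]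
  · rw [List.countP_cons_of_neg (by simpa using h)]
    simp [h]

end CUT_

open CUT_ in
theorem cut_proof : Stmt_CUT := by
  intro V X D hX hD h
  obtain ⟨x0⟩ := hX.nonempty
  refine ⟨{y | ∃ p : X.Walk x0 y, Even (cnt D p.edges)}, ?_⟩
  have hA : ∀ (y : V) (p : X.Walk x0 y),
      y ∈ {y | ∃ p : X.Walk x0 y, Even (cnt D p.edges)} ↔ Even (cnt D p.edges) := by
    intro y p
    constructor
    · rintro ⟨q, hq⟩
      exact (par X D h p q).2 hq
    · intro hp
      exact ⟨p, hp⟩
  have key : ∀ x y : V, X.Adj x y →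
      (s(x, y) ∈ D ↔ ¬ (x ∈ {y | ∃ p : X.Walk x0 y, Even (cnt D p.edges)} ↔
        y ∈ {y | ∃ p : X.Walk x0 y, Even (cnt D p.edges)})) := by
    intro x y hxy
    obtain ⟨p⟩ := hX.preconnected x0 x
    have e1 := hA y (p.append (SimpleGraph.Walk.cons hxy SimpleGraph.Walk.nil))
    rw [SimpleGraph.Walk.edges_append, cnt_append, Nat.even_add] at e1
    have e2 : Even (cnt D (SimpleGraph.Walk.cons hxy SimpleGraph.Walk.nil).edges) ↔
        s(x, y) ∉ D := by
      rw [SimpleGraph.Walk.edges_cons, SimpleGraph.Walk.edges_nil]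
      exact cnt_single D _
    rw [e2] at e1
    rw [hA x p, e1]
    tauto
  ext e
  induction e with
  | _ x y =>
    rw [mem_bd_iff]
    constructor
    · rintro ⟨hxy, hh⟩
      rw [key x y hxy]
      tauto
    · intro he
      have hxy : X.Adj x y := hD he
      refine ⟨hxy, ?_⟩
      rw [key x y hxy] at he
      tauto

end Pool.Agent.ACC
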