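import Pool.Agent.ACC.Lib

/-!
# DDA: uncrossing with the lower levels
-/

set_option autoImplicit false

namespace Pool.Agent.ACC

namespace DDA_

variable {V : Type}

lemma sym2_fin (e : Sym2 V) : {x | x ∈ e}.Finite := by
  induction e with
  | _ x y =>
    refine (Set.toFinite ({x, y} : Set V)).subset ?_
    intro z hz
    rcases Sym2.mem_iff.mp hz with rfl | rfl
    · exact Set.mem_insert _ _
    · exact Set.mem_insert_of_mem _ rfl

/-- members of `F` crossing `A` -/
def Cr (F : Set (Set V)) (A : Set V) : Set (Set V) := {B | B ∈ F ∧ ¬ Nested A B}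

lemma cr_fin (h1 : Stmt_CRF) (X : SimpleGraph V) (hX : X.Connected) (n : ℕ) (F : Set (Set V))
    (hF : Good X n F) (A : Set V) (hA : (bd X A).Finite) : (Cr F A).Finite := by
  have hS : {x | ∃ e ∈ bd X A, x ∈ e}.Finite := by
    have : {x | ∃ e ∈ bd X A, x ∈ e} = ⋃ e ∈ bd X A, {x | x ∈ e} := by
      ext x
      simp
    rw [this]
    exact hA.biUnion fun e _ => sym2_fin e
  refine (h1 V X hX n A _ hS ?_).subset ?_
  · intro e he
    have hne : ∃ x, x ∈ e := by
      induction e with
      | _ x y => exact ⟨x, Sym2.mem_mk_left x y⟩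
    obtain ⟨x, hx⟩ := hne
    exact ⟨x, ⟨e, he, hx⟩, hx⟩
  · rintro B ⟨hB, hAB⟩
    exact ⟨hF.bond B hB, hF.card B hB, hAB⟩

lemma cr_compl (F : Set (Set V)) (A : Set V) : Cr F Aᶜ = Cr F A := by
  ext B
  unfold Cr
  rw [Set.mem_setOf_eq, Set.mem_setOf_eq, Nested.compl_left]

/-- fewer members cross a corner -/
lemma cr_lt (F : Set (Set V)) (A B : Set V) (hfin : (Cr F A).Finite) (hB : B ∈ F)
    (hAB : ¬ Nested A B) (hnest : ∀ A ∈ F, ∀ B ∈ F, Nested A B) :
    (Cr F (A ∩ B)).ncard < (Cr F A).ncard := by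
  apply Set.ncard_lt_ncard _ hfin
  refine ⟨?_, ?_⟩
  · rintro e ⟨he, hce⟩
    refine ⟨he, fun hAe => hce ?_⟩
    exact (nested_inter hAB hAe.symm (hnest e he B hB)).symm
  · intro hsub
    have : B ∈ Cr F (A ∩ B) := hsub ⟨hB, hAB⟩
    exact this.2 (nested_of_subset Set.inter_subset_right)

end DDA_

open DDA_ in
theorem dda_proof (h1 : Stmt_CRF) : Stmt_DDA := by
  intro V X hX n F hF
  -- reduction to sets with exactly `n + 1` boundary edges
  suffices H : ∀ c : ℕ, ∀ A : Set V, (bd X A).Finite → (bd X A).ncard = n + 1 →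
      (Cr F A).ncard = c → Gen (Small X n ∪ NestN X n F) A by
    intro A hA
    by_cases hc : (bd X A).ncard ≤ n
    · exact Gen.base A (Or.inl ⟨hA.1, hc⟩)
    · exact H _ A hA.1 (le_antisymm hA.2 (by omega)) rfl
  intro c
  induction c using Nat.strong_induction_on with
  | _ c ih =>
    intro A hAf hAn hc
    by_contra hQ
    set Q : Set V → Prop := Gen (Small X n ∪ NestN X n F) with hQdef
    have hsmall : ∀ C : Set V, (bd X C).Finite → ¬ Q C → n + 1 ≤ (bd X C).ncard := by
      intro C hC hQC
      by_contra h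
      exact hQC (Gen.base C (Or.inl ⟨hC, by omega⟩))
    have hcrosses : ∃ B ∈ F, ¬ Nested A B := by
      by_contra h
      push Not at h
      apply hQ
      refine Gen.base A (Or.inr ⟨hAf, hAn, ?_, h⟩)
      intro hg
      exact hQ (hg.mono Set.subset_union_left)
    obtain ⟨B, hB, hAB⟩ := hcrosses
    have hfinB : ∀ B ∈ F, (bd X B).Finite := fun B hB => (hF.bond B hB).1
    -- corners which are not generated
    have hcorner : ∀ A' : Set V, ¬ Q A' → ∃ B' ∈ F, (B' = B ∨ B' = Bᶜ) ∧ ¬ Q (A' ∩ B') := by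
      intro A' hA'
      by_contra h
      push Not at h
      apply hA'
      rw [← inter_union_inter_compl' A' B]
      exact Gen.union (h B hB (Or.inl rfl)) (h Bᶜ (hF.compl B hB) (Or.inr rfl))
    have hQc : ¬ Q Aᶜ := fun h => hQ (Gen.of_compl h)
    -- the key step
    have key : ∀ A' : Set V, (A' = A ∨ A' = Aᶜ) → ∀ B' ∈ F, (B' = B ∨ B' = Bᶜ) →
        ¬ Q (A' ∩ B') → (bd X (A' ∩ B')).ncard ≠ n + 1 := by
      intro A' hA' B' hB' hBB hQ' hcard
      have hA'f : (bd X A').Finite := by
        rcases hA' with rfl | rfl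
        · exact hAf
        · exact bd_compl_finite X hAf
      have hcr : Cr F A' = Cr F A := by
        rcases hA' with rfl | rfl
        · rfl
        · exact cr_compl F A
      have hcross : ¬ Nested A' B' := by
        rcases hA' with rfl | rfl <;> rcases hBB with rfl | rfl
        · exact hAB
        · rw [Nested.compl_right]; exact hAB
        · rw [Nested.compl_left]; exact hAB
        · rw [Nested.compl_left, Nested.compl_right]; exact hAB
      have hlt := cr_lt F A' B' (cr_fin h1 X hX n F hF A' hA'f) hB' hcross hF.nested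
      rw [hcr, hc] at hlt
      exact hQ' (ih _ hlt (A' ∩ B') (bd_inter_finite X hA'f (hfinB B' hB')) hcard rfl)
    obtain ⟨B1, hB1, hB1B, hP⟩ := hcorner A hQ
    obtain ⟨B2, hB2, hB2B, hR⟩ := hcorner Aᶜ hQc
    have hcB1 : (bd X B1).ncard ≤ n := hF.card B1 hB1
    have hAcf : (bd X Aᶜ).Finite := bd_compl_finite X hAf
    have hPn := hsmall _ (bd_inter_finite X hAf (hfinB B1 hB1)) hP
    have hRn := hsmall _ (bd_inter_finite X hAcf (hfinB B2 hB2)) hR
    by_cases h12 : B1 = B2
    · subst h12
      have hP2 := key A (Or.inl rfl) B1 hB1 hB1B hP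
      have hR2 := key Aᶜ (Or.inr rfl) B1 hB1 hB1B hR
      have s1 := bd_submod' X hAf (hfinB B1 hB1)
      have s2 := bd_submod' X hAcf (hfinB B1 hB1)
      rw [bd_compl X A, compl_compl] at s2
      -- both opposite corners are small
      apply hF.irr B1 hB1
      have hBc : (bd X B1ᶜ).Finite := bd_compl_finite X (hfinB B1 hB1)
      rw [← Gen.compl_iff, ← inter_union_inter_compl' B1ᶜ A]
      refine Gen.union (Gen.base _ ⟨bd_inter_finite X hBc hAf, ?_⟩)
        (Gen.base _ ⟨bd_inter_finite X hBc hAcf, ?_⟩)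
      · rw [Set.inter_comm]
        omega
      · rw [Set.inter_comm]
        omega
    · -- opposite corners
      have hopp : B2 = B1ᶜ := by
        rcases hB1B with rfl | rfl <;> rcases hB2B with rfl | rfl
        · exact absurd rfl h12
        · rfl
        · exact (compl_compl _).symm
        · exact absurd rfl h12
      subst hopp
      have s1 := bd_submod' X hAf (hfinB B1 hB1)
      omega

end Pool.Agent.ACC
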