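import Pool.Agent.ACC.Lib

/-!
# DDB: the new family generates all new nested cuts
-/

set_option autoImplicit false

namespace Pool.Agent.ACC

theorem ddb_proof : Stmt_DDB := by
  intro V X _ n F hF
  suffices H : ∀ c : ℕ, ∀ A ∈ NestN X n F, mu X n F A = c → Gen (StepF X n F) A from
    fun A hA => H _ A hA rfl
  intro c
  induction c using Nat.strong_induction_on with
  | _ c ih =>
    intro A hA hc
    by_cases hg : Gen (Small X n ∪ {B | B ∈ NestN X n F ∧ mu X n F B < mu X n F A}) A
    · refine Gen.trans ?_ hg
      rintro B (hB | ⟨hB, hlt⟩)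
      · exact (hF.gen B hB).mono Set.subset_union_left
      · exact ih _ (by rw [← hc]; exact hlt) B hB rfl
    · exact Gen.base A (Or.inr ⟨hA, hg⟩)

end Pool.Agent.ACC
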