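import Pool.Agent.ACC.Lib

/-!
MP_851278_al, module DDC: the new family of the Dicks-Dunwoody step is nested.
-/

set_option autoImplicit false

namespace Pool.Agent.ACC

namespace DDC_

variable {V : Type}

theorem nestN_compl {X : SimpleGraph V} {n : ℕ} {F : Set (Set V)} {A : Set V}
    (h : A ∈ NestN X n F) : Aᶜ ∈ NestN X n F := by
  obtain ⟨h1, h2, h3, h4⟩ := h
  refine ⟨bd_compl_finite X h1, by rw [bd_compl]; exact h2, fun hg => h3 (Gen.of_compl hg), ?_⟩
  intro B hB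
  exact Nested.compl_left.2 (h4 B hB)

theorem mu_compl {X : SimpleGraph V} {n : ℕ} {F : Set (Set V)} (A : Set V) :
    mu X n F Aᶜ = mu X n F A := by
  unfold mu
  congr 1
  ext B
  simp only [Set.mem_ofPred_eq, Nested.compl_left]

theorem ends_finite {X : SimpleGraph V} {A : Set V} (h : (bd X A).Finite) :
    {x : V | ∃ e ∈ bd X A, x ∈ e}.Finite := by
  have : {x : V | ∃ e ∈ bd X A, x ∈ e} = ⋃ e ∈ bd X A, {x : V | x ∈ e} := by
    ext x
    simp
  rw [this]
  refine h.biUnion ?_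
  intro e _
  induction e with
  | _ a b =>
    apply (Set.toFinite ({a, b} : Set V)).subset
    intro x hx
    have : x = a ∨ x = b := Sym2.mem_iff.mp hx
    simpa using this

/-- crossing members -/
def cr (X : SimpleGraph V) (n : ℕ) (F : Set (Set V)) (A : Set V) : Set (Set V) :=
  {B | B ∈ NestN X n F ∧ ¬ Nested A B}

theorem cr_finite (hBNN : Stmt_BNN) (hCRF : Stmt_CRF) {X : SimpleGraph V} (hX : X.Connected)
    {n : ℕ} {F : Set (Set V)} {A : Set V} (hA : (bd X A).Finite) : (cr X n F A).Finite := by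
  have h := hCRF V X hX (n + 1) A {x : V | ∃ e ∈ bd X A, x ∈ e} (ends_finite hA) (by
    intro e he
    induction e with
    | _ a b => exact ⟨a, ⟨s(a, b), he, Sym2.mem_mk_left a b⟩, Sym2.mem_mk_left a b⟩)
  apply h.subset
  rintro B ⟨hB, hAB⟩
  exact ⟨hBNN V X hX n B hB.1 hB.2.1 hB.2.2.1, hB.2.1.le, hAB⟩

theorem core (hBNN : Stmt_BNN) (hCRF : Stmt_CRF) {X : SimpleGraph V} (hX : X.Connected)
    {n : ℕ} {F : Set (Set V)} {A B : Set V} (hA : A ∈ NestN X n F) (hB : B ∈ NestN X n F)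
    (hAB : ¬ Nested A B)
    (hP : ¬ Gen (Small X n ∪ {D | D ∈ NestN X n F ∧ mu X n F D < mu X n F A}) (A ∩ B))
    (hR : ¬ Gen (Small X n ∪ {D | D ∈ NestN X n F ∧ mu X n F D < mu X n F B}) (Aᶜ ∩ Bᶜ)) :
    False := by
  have hAB' : ¬ Nested Aᶜ Bᶜ := by
    rw [Nested.compl_left, Nested.compl_right]
    exact hAB
  have fP : (bd X (A ∩ B)).Finite := bd_inter_finite X hA.1 hB.1
  have fR : (bd X (Aᶜ ∩ Bᶜ)).Finite :=
    bd_inter_finite X (bd_compl_finite X hA.1) (bd_compl_finite X hB.1)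
  have hsub := bd_submod' X hA.1 hB.1
  have gP : ¬ Gen (Small X n) (A ∩ B) := fun h => hP (h.mono Set.subset_union_left)
  have gR : ¬ Gen (Small X n) (Aᶜ ∩ Bᶜ) := fun h => hR (h.mono Set.subset_union_left)
  have cP : n + 1 ≤ (bd X (A ∩ B)).ncard := by
    by_contra hlt
    exact gP (Gen.base _ ⟨fP, by omega⟩)
  have cR : n + 1 ≤ (bd X (Aᶜ ∩ Bᶜ)).ncard := by
    by_contra hlt
    exact gR (Gen.base _ ⟨fR, by omega⟩)
  have hcA := hA.2.1
  have hcB := hB.2.1
  have nP : A ∩ B ∈ NestN X n F := by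
    refine ⟨fP, by omega, gP, ?_⟩
    intro e he
    exact (nested_inter hAB (hA.2.2.2 e he).symm (hB.2.2.2 e he).symm).symm
  have nR : Aᶜ ∩ Bᶜ ∈ NestN X n F := by
    refine ⟨fR, by omega, gR, ?_⟩
    intro e he
    exact (nested_inter hAB' (Nested.compl_right.2 (hA.2.2.2 e he).symm)
      (Nested.compl_right.2 (hB.2.2.2 e he).symm)).symm
  have mP : mu X n F A ≤ mu X n F (A ∩ B) := by
    by_contra hlt
    exact hP (Gen.base _ (Or.inr ⟨nP, by omega⟩))
  have mR : mu X n F B ≤ mu X n F (Aᶜ ∩ Bᶜ) := by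
    by_contra hlt
    exact hR (Gen.base _ (Or.inr ⟨nR, by omega⟩))
  have FA : (cr X n F A).Finite := cr_finite hBNN hCRF hX hA.1
  have FB : (cr X n F B).Finite := cr_finite hBNN hCRF hX hB.1
  have FP : (cr X n F (A ∩ B)).Finite := cr_finite hBNN hCRF hX fP
  have FR : (cr X n F (Aᶜ ∩ Bᶜ)).Finite := cr_finite hBNN hCRF hX fR
  have s1 : cr X n F (A ∩ B) ∩ cr X n F (Aᶜ ∩ Bᶜ) ⊆ cr X n F A ∩ cr X n F B := by
    rintro e ⟨⟨he, h1⟩, ⟨_, h2⟩⟩
    refine ⟨⟨he, fun hn => ?_⟩, ⟨he, fun hn => ?_⟩⟩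
    · rcases nested_opposite B hn.symm with h | h
      · exact h1 h.symm
      · exact h2 h.symm
    · rcases nested_opposite A hn.symm with h | h
      · rw [Set.inter_comm] at h
        exact h1 h.symm
      · rw [Set.inter_comm] at h
        exact h2 h.symm
  have s2 : cr X n F (A ∩ B) ∪ cr X n F (Aᶜ ∩ Bᶜ) ⊆ (cr X n F A ∪ cr X n F B) \ {A} := by
    rintro e he
    constructor
    · rcases he with ⟨he, h1⟩ | ⟨he, h1⟩
      · by_contra hc
        rw [Set.mem_union] at hc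
        push Not at hc
        have hA1 : Nested A e := by
          by_contra h; exact hc.1 ⟨he, h⟩
        have hB1 : Nested B e := by
          by_contra h; exact hc.2 ⟨he, h⟩
        exact h1 (nested_inter hAB hA1.symm hB1.symm).symm
      · by_contra hc
        rw [Set.mem_union] at hc
        push Not at hc
        have hA1 : Nested A e := by
          by_contra h; exact hc.1 ⟨he, h⟩
        have hB1 : Nested B e := by
          by_contra h; exact hc.2 ⟨he, h⟩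
        exact h1 (nested_inter hAB' (Nested.compl_right.2 hA1.symm)
          (Nested.compl_right.2 hB1.symm)).symm
    · intro heA
      rw [Set.mem_singleton_iff] at heA
      subst heA
      rcases he with ⟨_, h1⟩ | ⟨_, h1⟩
      · exact h1 (nested_of_subset Set.inter_subset_left)
      · exact h1 (Or.inr (Or.inl Set.inter_subset_left))
  have hmem : A ∈ cr X n F A ∪ cr X n F B := Or.inr ⟨hA, fun h => hAB h.symm⟩
  have e1 := Set.ncard_union_add_ncard_inter _ _ FP FR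
  have e2 := Set.ncard_union_add_ncard_inter _ _ FA FB
  have l1 : (cr X n F (A ∩ B) ∩ cr X n F (Aᶜ ∩ Bᶜ)).ncard ≤
      (cr X n F A ∩ cr X n F B).ncard := Set.ncard_le_ncard s1 (FA.subset Set.inter_subset_left)
  have l2 : (cr X n F (A ∩ B) ∪ cr X n F (Aᶜ ∩ Bᶜ)).ncard ≤
      ((cr X n F A ∪ cr X n F B) \ {A}).ncard :=
    Set.ncard_le_ncard s2 ((FA.union FB).subset Set.sdiff_subset)
  have l3 : ((cr X n F A ∪ cr X n F B) \ {A}).ncard < (cr X n F A ∪ cr X n F B).ncard :=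
    Set.ncard_sdiff_singleton_lt_of_mem hmem (FA.union FB)
  have u1 : mu X n F (A ∩ B) = (cr X n F (A ∩ B)).ncard := rfl
  have u2 : mu X n F (Aᶜ ∩ Bᶜ) = (cr X n F (Aᶜ ∩ Bᶜ)).ncard := rfl
  have u3 : mu X n F A = (cr X n F A).ncard := rfl
  have u4 : mu X n F B = (cr X n F B).ncard := rfl
  omega

theorem gen_split {S : Set (Set V)} (A B : Set V) (h : ¬ Gen S B) :
    ¬ Gen S (A ∩ B) ∨ ¬ Gen S (Aᶜ ∩ B) := by
  by_contra hc
  push Not at hc
  apply h
  have : B = (A ∩ B) ∪ (Aᶜ ∩ B) := by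
    rw [← Set.union_inter_distrib_right, Set.union_compl_self, Set.univ_inter]
  rw [this]
  exact Gen.union hc.1 hc.2

theorem gen_split' {S : Set (Set V)} (A B : Set V) (h : ¬ Gen S A) :
    ¬ Gen S (A ∩ B) ∨ ¬ Gen S (A ∩ Bᶜ) := by
  by_contra hc
  push Not at hc
  apply h
  rw [← inter_union_inter_compl' A B]
  exact Gen.union hc.1 hc.2

theorem both_new (hBNN : Stmt_BNN) (hCRF : Stmt_CRF) {X : SimpleGraph V} (hX : X.Connected)
    {n : ℕ} {F : Set (Set V)} {A B : Set V} (hA : A ∈ NestN X n F) (hB : B ∈ NestN X n F)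
    (gA : ¬ Gen (Small X n ∪ {D | D ∈ NestN X n F ∧ mu X n F D < mu X n F A}) A)
    (gB : ¬ Gen (Small X n ∪ {D | D ∈ NestN X n F ∧ mu X n F D < mu X n F B}) B)
    (hle : mu X n F A ≤ mu X n F B) : Nested A B := by
  by_contra hAB
  set Ca := Small X n ∪ {D | D ∈ NestN X n F ∧ mu X n F D < mu X n F A} with hCa
  set Cb := Small X n ∪ {D | D ∈ NestN X n F ∧ mu X n F D < mu X n F B} with hCb
  have hsub : Ca ⊆ Cb := by
    rintro D (hD | ⟨hD1, hD2⟩)
    · exact Or.inl hD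
    · exact Or.inr ⟨hD1, lt_of_lt_of_le hD2 hle⟩
  have ab : ∀ D : Set V, ¬ Gen Cb D → ¬ Gen Ca D := fun D h h' => h (h'.mono hsub)
  have gAc : ¬ Gen Ca Aᶜ := fun h => gA (Gen.of_compl h)
  have gBc : ¬ Gen Cb Bᶜ := fun h => gB (Gen.of_compl h)
  have hAc := nestN_compl hA
  have hBc := nestN_compl hB
  -- the four instances of the core lemma
  have c1 : ¬ Gen Ca (A ∩ B) → ¬ Gen Cb (Aᶜ ∩ Bᶜ) → False := fun h1 h2 =>
    core hBNN hCRF hX hA hB hAB h1 h2
  have c2 : ¬ Gen Ca (Aᶜ ∩ B) → ¬ Gen Cb (A ∩ Bᶜ) → False := fun h1 h2 => by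
    apply core hBNN hCRF hX hAc hB (fun h => hAB (Nested.compl_left.1 h))
    · rw [mu_compl]; exact h1
    · rw [compl_compl]; exact h2
  have c3 : ¬ Gen Ca (A ∩ Bᶜ) → ¬ Gen Cb (Aᶜ ∩ B) → False := fun h1 h2 => by
    apply core hBNN hCRF hX hA hBc (fun h => hAB (Nested.compl_right.1 h))
    · exact h1
    · rw [mu_compl, compl_compl]; exact h2
  have c4 : ¬ Gen Ca (Aᶜ ∩ Bᶜ) → ¬ Gen Cb (A ∩ B) → False := fun h1 h2 => by
    apply core hBNN hCRF hX hAc hBc
      (fun h => hAB (Nested.compl_left.1 (Nested.compl_right.1 h)))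
    · rw [mu_compl]; exact h1
    · rw [mu_compl, compl_compl, compl_compl]; exact h2
  rcases gen_split A B gB with q1 | q1 <;> rcases gen_split A Bᶜ gBc with q2 | q2
  · rcases gen_split' Aᶜ B gAc with q3 | q3
    · exact c2 q3 q2
    · exact c4 q3 q1
  · exact c1 (ab _ q1) q2
  · exact c2 (ab _ q1) q2
  · rcases gen_split' A B gA with q3 | q3
    · exact c1 q3 q2
    · exact c3 q3 q1

end DDC_

open DDC_ in
theorem ddc_proof (h1 : Stmt_BNN) (h2 : Stmt_CRF) : Stmt_DDC := by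
  intro V X hX n F hF A hA B hB
  rcases hA with hA | ⟨hA, gA⟩ <;> rcases hB with hB | ⟨hB, gB⟩
  · exact hF.nested A hA B hB
  · exact (hB.2.2.2 A hA).symm
  · exact hA.2.2.2 B hB
  · rcases le_total (mu X n F A) (mu X n F B) with hle | hle
    · exact both_new h1 h2 hX hA hB gA gB hle
    · exact (both_new h1 h2 hX hB hA gB gA hle).symm

end Pool.Agent.ACC
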