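import Pool.Agent.ACC.Lib

/-!
# ACC.DDE: the Dicks-Dunwoody families are canonical
-/

set_option autoImplicit false

namespace Pool.Agent.ACC

namespace DDE_

variable {V : Type} {X : SimpleGraph V}

/-- invariance under all automorphisms -/
def Inv (X : SimpleGraph V) (F : Set (Set V)) : Prop :=
  ∀ g : Equiv.Perm V, (∀ x y, X.Adj (g x) (g y) ↔ X.Adj x y) → ∀ A, A ∈ F → g '' A ∈ F

theorem nestN_image {n : ℕ} {F : Set (Set V)} (hF : Inv X F) : Inv X (NestN X n F) := by
  intro g hg A hA
  obtain ⟨h1, h2, h3, h4⟩ := hA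
  refine ⟨(bd_image_finite X g hg A).2 h1, ?_, ?_, ?_⟩
  · rw [bd_image_ncard X g hg]; exact h2
  · intro h
    apply h3
    have h5 := Gen.small_image (adj_inv hg) h
    rwa [image_inv_image] at h5
  · intro B hB
    have h5 : (g⁻¹ : Equiv.Perm V) '' B ∈ F := hF g⁻¹ (adj_inv hg) B hB
    have h6 := (nested_image g A ((g⁻¹ : Equiv.Perm V) '' B)).2 (h4 _ h5)
    rwa [image_image_inv] at h6

theorem mu_image {n : ℕ} {F : Set (Set V)} (hF : Inv X F) (g : Equiv.Perm V)
    (hg : ∀ x y, X.Adj (g x) (g y) ↔ X.Adj x y) (A : Set V) :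
    mu X n F (g '' A) = mu X n F A := by
  unfold mu
  have h1 : {B | B ∈ NestN X n F ∧ ¬ Nested (g '' A) B} =
      (fun B : Set V => g '' B) '' {B | B ∈ NestN X n F ∧ ¬ Nested A B} := by
    ext B
    constructor
    · rintro ⟨hB, hB2⟩
      refine ⟨(g⁻¹ : Equiv.Perm V) '' B, ⟨nestN_image hF g⁻¹ (adj_inv hg) B hB, ?_⟩, ?_⟩
      · intro h
        apply hB2
        have h6 := (nested_image g A ((g⁻¹ : Equiv.Perm V) '' B)).2 h
        rwa [image_image_inv] at h6
      · exact image_image_inv g B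
    · rintro ⟨C, ⟨hC, hC2⟩, rfl⟩
      refine ⟨nestN_image hF g hg C hC, ?_⟩
      intro h
      exact hC2 ((nested_image g A C).1 h)
  rw [h1]
  exact Set.ncard_image_of_injective _ (Set.image_injective.2 g.injective)

theorem stepF_image {n : ℕ} {F : Set (Set V)} (hF : Inv X F) : Inv X (StepF X n F) := by
  intro g hg A hA
  rcases hA with hA | ⟨hA, hA2⟩
  · left; exact hF g hg A hA
  · right
    refine ⟨nestN_image hF g hg A hA, ?_⟩
    intro h
    apply hA2
    have h5 := Gen.image (g⁻¹ : Equiv.Perm V) h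
    rw [image_inv_image] at h5
    refine h5.mono ?_
    rintro _ ⟨B, hB, rfl⟩
    rcases hB with hB | ⟨hB, hB2⟩
    · left; exact small_image (adj_inv hg) hB
    · right
      refine ⟨nestN_image hF g⁻¹ (adj_inv hg) B hB, ?_⟩
      have h6 : mu X n F ((g⁻¹ : Equiv.Perm V) '' B) = mu X n F B :=
        mu_image hF g⁻¹ (adj_inv hg) B
      have h7 : mu X n F (g '' A) = mu X n F A := mu_image hF g hg A
      show mu X n F ((g⁻¹ : Equiv.Perm V) '' B) < mu X n F A
      rw [h6, ← h7]
      exact hB2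

theorem ee_inv (n : ℕ) : Inv X (EE X n) := by
  induction n with
  | zero =>
    intro g _ A hA
    exact absurd hA (Set.notMem_empty A)
  | succ n ih => exact stepF_image ih

end DDE_

open DDE_

theorem dde_proof : Stmt_DDE := by
  intro V X g hg n A hA
  exact ee_inv n g hg A hA

end Pool.Agent.ACC
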