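import Pool.Agent.ACC.Lib

/-!
# DDF: all levels are good
-/

set_option autoImplicit false

namespace Pool.Agent.ACC

theorem ddf_proof (h1 : Stmt_DDG) : Stmt_DDF := by
  intro V X hX n
  induction n with
  | zero =>
    refine ⟨fun A hA => hA.elim, fun A hA => hA.elim, fun A hA => hA.elim, fun A hA => hA.elim,
      fun A hA => hA.elim, ?_⟩
    rintro A ⟨hf, hn⟩
    have hemp : bd X A = ∅ := (Set.ncard_eq_zero hf).mp (Nat.le_zero.mp hn)
    rcases A.eq_empty_or_nonempty with rfl | hne
    · exact Gen.empty
    rcases Aᶜ.eq_empty_or_nonempty with hc | hne'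
    · rw [Set.compl_empty_iff.mp hc]
      exact Gen.univ
    · exact absurd (bd_nonempty hX hne hne') (by rw [hemp]; exact Set.not_nonempty_empty)
  | succ n ih => exact h1 V X hX n (EE X n) ih

end Pool.Agent.ACC
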