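import Pool.Agent.ACC.Lib

/-!
# DDG: the induction step of the Dicks-Dunwoody construction
-/

set_option autoImplicit false

namespace Pool.Agent.ACC

namespace DDG_

variable {V : Type}

lemma mu_compl (X : SimpleGraph V) (n : ℕ) (F : Set (Set V)) (A : Set V) :
    mu X n F Aᶜ = mu X n F A := by
  unfold mu
  congr 1
  ext B
  simp only [Set.mem_ofPred_eq, Nested.compl_left]

lemma nestN_compl {X : SimpleGraph V} {n : ℕ} {F : Set (Set V)} {A : Set V}
    (h : A ∈ NestN X n F) : Aᶜ ∈ NestN X n F := by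
  obtain ⟨h1, h2, h3, h4⟩ := h
  refine ⟨?_, ?_, ?_, ?_⟩
  · rw [bd_compl]; exact h1
  · rw [bd_compl]; exact h2
  · rw [Gen.compl_iff]; exact h3
  · intro B hB
    exact Nested.compl_left.2 (h4 B hB)

end DDG_

open DDG_ in
theorem ddg_proof (h1 : Stmt_DDA) (h2 : Stmt_DDB) (h3 : Stmt_DDC) (h4 : Stmt_BNN) :
    Stmt_DDG := by
  intro V X hX n F hF
  refine ⟨?_, h3 V X hX n F hF, ?_, ?_, ?_, ?_⟩
  · rintro A (hA | ⟨hA, hg⟩)
    · exact Or.inl (hF.compl A hA)
    · refine Or.inr ⟨nestN_compl hA, ?_⟩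
      rw [Gen.compl_iff, mu_compl]
      exact hg
  · rintro A (hA | ⟨hA, -⟩)
    · exact hF.bond A hA
    · exact h4 V X hX n A hA.1 hA.2.1 hA.2.2.1
  · rintro A (hA | ⟨hA, -⟩)
    · exact (hF.card A hA).trans (Nat.le_succ n)
    · exact hA.2.1.le
  · rintro A (hA | ⟨hA, -⟩)
    · exact hF.irr A hA
    · rw [hA.2.1, Nat.add_sub_cancel]
      exact hA.2.2.1
  · intro A hA
    refine Gen.trans ?_ (h1 V X hX n F hF A hA)
    rintro B (hB | hB)
    · exact (hF.gen B hB).mono Set.subset_union_left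
    · exact h2 V X hX n F hF B hB

end Pool.Agent.ACC
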