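import Pool.Agent.ACC.Lib

/-!
# DEC: decomposition of a finite cut along a nested family
-/

set_option autoImplicit false

namespace Pool.Agent.ACC

namespace DEC_

lemma step {V : Type} (X : SimpleGraph V) (G : Subgroup (Equiv.Perm V)) (E : Set (Set V)) (N : ℕ)
    (h : NestFam X G E N) (A B : Set V) (hA : (bd X A).Finite) (hB : B ∈ E)
    (hAB : ¬ Nested A B) :
    {C | C ∈ E ∧ ¬ Nested (A ∩ B) C}.ncard < {C | C ∈ E ∧ ¬ Nested A C}.ncard := by
  refine Set.ncard_lt_ncard ?_ (h.cr A hA)
  refine ⟨?_, ?_⟩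
  · rintro C ⟨hC, hn⟩
    refine ⟨hC, fun hAC => hn ?_⟩
    exact (nested_inter hAB hAC.symm (h.nested C hC B hB)).symm
  · intro hsub
    have : B ∈ {C | C ∈ E ∧ ¬ Nested (A ∩ B) C} := hsub ⟨hB, hAB⟩
    exact this.2 (nested_of_subset Set.inter_subset_right)

end DEC_

open DEC_ in
theorem dec_proof : Stmt_DEC := by
  intro V X G E N h
  have key : ∀ (k : ℕ) (A : Set V), (bd X A).Finite →
      {C | C ∈ E ∧ ¬ Nested A C}.ncard = k →
      Gen (E ∪ {B | (bd X B).Finite ∧ ∀ C ∈ E, Nested B C}) A := by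
    intro k
    induction k using Nat.strong_induction_on with
    | _ k ih =>
      intro A hA hk
      by_cases hne : ∃ B ∈ E, ¬ Nested A B
      · obtain ⟨B, hB, hAB⟩ := hne
        have hAB' : ¬ Nested A Bᶜ := by rwa [Nested.compl_right]
        have hB' := h.compl B hB
        have hfB := (h.small B hB).1
        rw [← inter_union_inter_compl' A B]
        refine Gen.union ?_ ?_
        · exact ih _ (hk ▸ step X G E N h A B hA hB hAB) (A ∩ B) (bd_inter_finite X hA hfB) rfl
        · exact ih _ (hk ▸ step X G E N h A Bᶜ hA hB' hAB') (A ∩ Bᶜ)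
            (bd_inter_finite X hA (bd_compl_finite X hfB)) rfl
      · push Not at hne
        exact Gen.base A (Or.inr ⟨hA, hne⟩)
  intro A hA
  exact key _ A hA rfl

end Pool.Agent.ACC
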