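import Mathlib

/-!
MP_851278_al (frozen S02151): common definitions for Part I
(cuts, Boolean algebras of cuts, accessible graphs, nested families, torsos).
No statement here, only definitions.
-/

set_option autoImplicit false

namespace Pool.Agent.ACC

/-- The edge boundary of a vertex set. -/
def bd {V : Type} (X : SimpleGraph V) (A : Set V) : Set (Sym2 V) :=
  {e | ∃ x y, X.Adj x y ∧ x ∈ A ∧ y ∉ A ∧ e = s(x, y)}

/-- Vertex sets with at most `n` boundary edges. -/
def Small {V : Type} (X : SimpleGraph V) (n : ℕ) : Set (Set V) :=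
  {A | (bd X A).Finite ∧ (bd X A).ncard ≤ n}

/-- The Boolean algebra of sets generated by a family. -/
inductive Gen {V : Type} (S : Set (Set V)) : Set V → Prop
  | base (A : Set V) : A ∈ S → Gen S A
  | empty : Gen S ∅
  | compl (A : Set V) : Gen S A → Gen S Aᶜ
  | inter (A B : Set V) : Gen S A → Gen S B → Gen S (A ∩ B)

/-- Accessibility: every finite cut is a Boolean combination of cuts with at most `N` edges. -/
def Acc {V : Type} (X : SimpleGraph V) : Prop :=
  ∃ N : ℕ, ∀ A : Set V, (bd X A).Finite → Gen (Small X N) A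

/-- A finite bond: both sides are connected (and nonempty). -/
def IsBond {V : Type} (X : SimpleGraph V) (A : Set V) : Prop :=
  (bd X A).Finite ∧ (X.induce A).Connected ∧ (X.induce Aᶜ).Connected

/-- Two sets are nested if one of the four corners is empty. -/
def Nested {V : Type} (A B : Set V) : Prop :=
  A ⊆ B ∨ A ⊆ Bᶜ ∨ Aᶜ ⊆ B ∨ Aᶜ ⊆ Bᶜ

/-- A group of permutations preserving adjacency. -/
def IsAut {V : Type} (X : SimpleGraph V) (G : Subgroup (Equiv.Perm V)) : Prop :=
  ∀ g ∈ G, ∀ x y, X.Adj (g x) (g y) ↔ X.Adj x y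

/-- Finitely many orbits of vertices. -/
def VertFin {V : Type} (G : Subgroup (Equiv.Perm V)) : Prop :=
  ∃ F : Set V, F.Finite ∧ ∀ x, ∃ g ∈ G, ∃ y ∈ F, g y = x

/-- Finitely many orbits of edges. -/
def EdgeFin {V : Type} (X : SimpleGraph V) (G : Subgroup (Equiv.Perm V)) : Prop :=
  ∃ F : Set (Sym2 V), F.Finite ∧ ∀ e ∈ X.edgeSet, ∃ g ∈ G, ∃ f ∈ F, Sym2.map g f = e

/-- A family of sets is contained in finitely many orbits of sets. -/
def SetFin {V : Type} (G : Subgroup (Equiv.Perm V)) (S : Set (Set V)) : Prop :=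
  ∃ F : Set (Set V), F.Finite ∧ F ⊆ S ∧ ∀ A ∈ S, ∃ g ∈ G, ∃ B ∈ F, g '' B = A

/-- A family of lists of edges is contained in finitely many orbits of lists. -/
def ListFin {V : Type} (G : Subgroup (Equiv.Perm V)) (W : Set (List (Sym2 V))) : Prop :=
  ∃ F : Set (List (Sym2 V)), F.Finite ∧ ∀ l ∈ W, ∃ g ∈ G, ∃ l0 ∈ F, l0.map (Sym2.map g) = l

/-- Locally finite. -/
def LocFin {V : Type} (X : SimpleGraph V) : Prop := ∀ x, (X.neighborSet x).Finite

open Classical in
/-- The number of members of `D` in a list of edges, with multiplicity. -/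
noncomputable def cnt {V : Type} (D : Set (Sym2 V)) (l : List (Sym2 V)) : ℕ :=
  l.countP (fun e => decide (e ∈ D))

/-- New cuts with `n+1` edges which are nested with all of `F`. -/
def NestN {V : Type} (X : SimpleGraph V) (n : ℕ) (F : Set (Set V)) : Set (Set V) :=
  {A | (bd X A).Finite ∧ (bd X A).ncard = n + 1 ∧ ¬ Gen (Small X n) A ∧ ∀ B ∈ F, Nested A B}

/-- The number of members of `NestN X n F` crossing `A`. -/
noncomputable def mu {V : Type} (X : SimpleGraph V) (n : ℕ) (F : Set (Set V)) (A : Set V) : ℕ :=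
  {B | B ∈ NestN X n F ∧ ¬ Nested A B}.ncard

/-- One step of the Dicks-Dunwoody construction. -/
def StepF {V : Type} (X : SimpleGraph V) (n : ℕ) (F : Set (Set V)) : Set (Set V) :=
  F ∪ {A | A ∈ NestN X n F ∧
      ¬ Gen (Small X n ∪ {B | B ∈ NestN X n F ∧ mu X n F B < mu X n F A}) A}

/-- The Dicks-Dunwoody families. -/
def EE {V : Type} (X : SimpleGraph V) : ℕ → Set (Set V)
  | 0 => ∅
  | (n + 1) => StepF X n (EE X n)

/-- What is known about the family at level `n`. -/
structure Good {V : Type} (X : SimpleGraph V) (n : ℕ) (F : Set (Set V)) : Prop where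
  compl : ∀ A ∈ F, Aᶜ ∈ F
  nested : ∀ A ∈ F, ∀ B ∈ F, Nested A B
  bond : ∀ A ∈ F, IsBond X A
  card : ∀ A ∈ F, (bd X A).ncard ≤ n
  irr : ∀ A ∈ F, ¬ Gen (Small X ((bd X A).ncard - 1)) A
  gen : ∀ A ∈ Small X n, Gen F A

/-- Nested families closed under complements, without the empty set. -/
structure NestSet {V : Type} (E : Set (Set V)) : Prop where
  compl : ∀ A ∈ E, Aᶜ ∈ E
  ne : ∀ A ∈ E, A.Nonempty
  nested : ∀ A ∈ E, ∀ B ∈ E, Nested A B

/-- Nested `G`-finite families of finite cuts. -/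
structure NestFam {V : Type} (X : SimpleGraph V) (G : Subgroup (Equiv.Perm V))
    (E : Set (Set V)) (N : ℕ) : Prop extends NestSet E where
  small : ∀ A ∈ E, A ∈ Small X N
  lf : ∀ x y : V, {A | A ∈ E ∧ x ∈ A ∧ y ∉ A}.Finite
  cr : ∀ A : Set V, (bd X A).Finite → {B | B ∈ E ∧ ¬ Nested A B}.Finite
  inv : ∀ g ∈ G, ∀ A ∈ E, g '' A ∈ E
  fin : SetFin G E

/-- Vertices of the structure tree: orientations of `E` with minimal elements. -/
structure IsVtx {V : Type} (E v : Set (Set V)) : Prop where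
  sub : v ⊆ E
  total : ∀ B ∈ E, B ∈ v ∨ Bᶜ ∈ v
  excl : ∀ B ∈ v, Bᶜ ∉ v
  up : ∀ B ∈ v, ∀ C ∈ E, B ⊆ C → C ∈ v
  wf : ∀ B ∈ v, ∃ C ∈ v, C ⊆ B ∧ ∀ D ∈ v, D ⊆ C → D = C

/-- The hubs of a vertex: the maximal complements of members of `v`. -/
def Hub {V : Type} (v : Set (Set V)) : Set (Set V) :=
  {C | Cᶜ ∈ v ∧ ∀ D ∈ v, D ⊆ Cᶜ → D = Cᶜ}

/-- Two vertices of the graph are identified in the torso if they are equal or in a common hub. -/
def hubRel {V : Type} (H : Set (Set V)) (x y : V) : Prop :=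
  x = y ∨ ∃ C ∈ H, x ∈ C ∧ y ∈ C

/-- The vertex set of the torso. -/
abbrev TV {V : Type} (v : Set (Set V)) : Type := Quot (hubRel (Hub v))

/-- The projection to the torso. -/
def tproj {V : Type} (v : Set (Set V)) (x : V) : TV v := Quot.mk _ x

/-- The image of a graph under a map (loops deleted, no multiple edges). -/
def push {V W : Type} (X : SimpleGraph V) (f : V → W) : SimpleGraph W where
  Adj a b := a ≠ b ∧ ∃ x y, X.Adj x y ∧ f x = a ∧ f y = b
  symm := by
    constructor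
    rintro a b ⟨hab, x, y, h, hx, hy⟩
    exact ⟨hab.symm, y, x, h.symm, hy, hx⟩
  loopless := by
    constructor
    rintro a ⟨h, -⟩
    exact h rfl

/-- The torso of `X` at `v`. -/
def torso {V : Type} (X : SimpleGraph V) (v : Set (Set V)) : SimpleGraph (TV v) :=
  push X (tproj v)

/-- The permutations of `W` induced by a group acting on `V`. -/
def pushG {V W : Type} (G : Subgroup (Equiv.Perm V)) (f : V → W) : Subgroup (Equiv.Perm W) where
  carrier := {s | ∃ g ∈ G, ∀ x, s (f x) = f (g x)}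
  mul_mem' := by
    rintro a b ⟨g, hg, h1⟩ ⟨h, hh, h2⟩
    refine ⟨g * h, G.mul_mem hg hh, fun x => ?_⟩
    rw [Equiv.Perm.mul_apply, h2, h1, Equiv.Perm.mul_apply]
  one_mem' := ⟨1, G.one_mem, fun x => rfl⟩
  inv_mem' := by
    rintro a ⟨g, hg, h1⟩
    refine ⟨g⁻¹, G.inv_mem hg, fun x => ?_⟩
    rw [Equiv.Perm.inv_eq_iff_eq, h1]
    simp

/-- The stabiliser of a family of sets. -/
def stabV {V : Type} (G : Subgroup (Equiv.Perm V)) (v : Set (Set V)) : Subgroup (Equiv.Perm V) where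
  carrier := {g | g ∈ G ∧ ∀ A : Set V, A ∈ v ↔ g '' A ∈ v}
  mul_mem' := by
    rintro a b ⟨ha, h1⟩ ⟨hb, h2⟩
    refine ⟨G.mul_mem ha hb, fun A => ?_⟩
    rw [h2 A, h1 (b '' A), ← Set.image_comp]
    rfl
  one_mem' := ⟨G.one_mem, fun A => by simp⟩
  inv_mem' := by
    rintro a ⟨ha, h1⟩
    refine ⟨G.inv_mem ha, fun A => ?_⟩
    rw [h1 ((a⁻¹ : Equiv.Perm V) '' A), ← Set.image_comp]
    have : (a : V → V) ∘ ((a⁻¹ : Equiv.Perm V) : V → V) = id := by
      ext x; simp
    rw [this, Set.image_id]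

/-- The induced group of the torso. -/
def torsoG {V : Type} (G : Subgroup (Equiv.Perm V)) (v : Set (Set V)) :
    Subgroup (Equiv.Perm (TV v)) :=
  pushG (stabV G v) (tproj v)

/-- The trace of the vertex `v` of the tree in the graph: vertices outside the hubs and end points
of hub boundaries. -/
def ZZ {V : Type} (X : SimpleGraph V) (v : Set (Set V)) : Set V :=
  {x | (∀ C ∈ Hub v, x ∉ C) ∨ ∃ C ∈ Hub v, ∃ y, s(x, y) ∈ bd X C}

/-- The vertex of the tree at the `A`-end of the tree edge `A` (it has `Aᶜ` as a hub). -/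
def vof {V : Type} (E : Set (Set V)) (A : Set V) : Set (Set V) :=
  {B | B ∈ E ∧ (A ⊆ B ∨ (Aᶜ ⊆ B ∧ B ≠ Aᶜ))}

/-- The median of three vertices of the graph in the tree. -/
def med {V : Type} (E : Set (Set V)) (x y z : V) : Set (Set V) :=
  {B | B ∈ E ∧ ((x ∈ B ∧ y ∈ B) ∨ (y ∈ B ∧ z ∈ B) ∨ (x ∈ B ∧ z ∈ B))}

/-- The sum of `f` over the members of `E` separating `x` from `y`. -/
noncomputable def sig {V : Type} (E : Set (Set V)) (f : Set V → ZMod 2) (x y : V) : ZMod 2 :=
  ∑ᶠ A ∈ {A : Set V | A ∈ E ∧ x ∈ A ∧ y ∉ A}, f A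

/-- The potential at the vertex `v` of the tree with base point `x`. -/
noncomputable def hh {V : Type} (f : Set V → ZMod 2) (v : Set (Set V)) (x : V) : ZMod 2 :=
  ∑ᶠ B ∈ {B : Set V | B ∈ v ∧ x ∉ B}, f B

/-- The edge list of a closed walk. -/
def IsCW {V : Type} (X : SimpleGraph V) (l : List (Sym2 V)) : Prop :=
  ∃ (x : V) (p : X.Walk x x), p.edges = l

/-- Every finite cocycle of the family of closed walks `W` is a cut. -/
def CoCut {V : Type} (X : SimpleGraph V) (W : Set (List (Sym2 V))) : Prop :=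
  ∀ D : Set (Sym2 V), D.Finite → D ⊆ X.edgeSet → (∀ l ∈ W, Even (cnt D l)) →
    ∃ A : Set V, bd X A = D

/-- Members of `E` are connected by the closed walks in `W`. -/
def WConn {V : Type} (E : Set (Set V)) (X : SimpleGraph V) (W : Set (List (Sym2 V))) : Prop :=
  ∀ A ∈ E, ∀ D1 D2 : Set (Sym2 V), D1 ∪ D2 = bd X A → Disjoint D1 D2 → D1.Nonempty →
    D2.Nonempty → ∃ l ∈ W, (∃ e ∈ l, e ∈ D1) ∧ ∃ e ∈ l, e ∈ D2

/-- The closed ball. -/
def ball {V : Type} (X : SimpleGraph V) (x : V) (r : ℕ) : Set V :=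
  {y | X.dist x y ≤ r}

/-- The `R`-th power of a graph. -/
def pow {V : Type} (X : SimpleGraph V) (R : ℕ) : SimpleGraph V where
  Adj x y := x ≠ y ∧ X.Reachable x y ∧ X.dist x y ≤ R
  symm := by
    constructor
    rintro a b ⟨hab, h, hd⟩
    exact ⟨hab.symm, h.symm, by rw [SimpleGraph.dist_comm]; exact hd⟩
  loopless := by
    constructor
    rintro a ⟨h, -⟩
    exact h rfl

/-- Attach to `q x` a new leaf, for every `x : V`. -/
def leafG {V V' : Type} (G' : SimpleGraph V') (q : V → V') : SimpleGraph (V' ⊕ V) where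
  Adj
    | Sum.inl a, Sum.inl b => G'.Adj a b
    | Sum.inl a, Sum.inr x => a = q x
    | Sum.inr x, Sum.inl a => a = q x
    | Sum.inr _, Sum.inr _ => False
  symm := by
    constructor
    rintro (a | a) (b | b) h
    · exact SimpleGraph.Adj.symm h
    · exact h
    · exact h
    · exact h
  loopless := by
    constructor
    rintro (a | a) h
    · exact SimpleGraph.Adj.ne h rfl
    · exact h

/-- No `K_t` minor. -/
def MinorFree {V : Type} (t : ℕ) (Y : SimpleGraph V) : Prop :=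
  ¬ ∃ f : Fin t → Set V, (∀ i, (Y.induce (f i)).Connected) ∧
    Pairwise (fun a b => Disjoint (f a) (f b)) ∧
    ∀ a b, a ≠ b → ∃ x ∈ f a, ∃ y ∈ f b, Y.Adj x y

/-- `Y` is a connected spanning subgraph of `X` and edges of `X` are joined by paths of length
at most `lam` in `Y`. -/
def Spanner {V : Type} (X Y : SimpleGraph V) (lam : ℕ) : Prop :=
  Y ≤ X ∧ Y.Connected ∧ ∀ x y, X.Adj x y → Y.dist x y ≤ lam

end Pool.Agent.ACC
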