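import Pool.Agent.ACC.StmtsC
import Pool.Agent.ACC.Lib

/-!
MP_851278_al, Part III: boundaries of the canonical family have bounded diameter.
-/

set_option autoImplicit false

namespace Pool.Agent.ACC

namespace EBD_

/-- end points in `U` of the boundary of `B` -/
def ends {U : Type} {F : Set (Set U)} (C : SimpleGraph (U ⊕ F)) (B : Set (U ⊕ F)) : Set U :=
  {u | ∃ s ∈ bd C B, Sum.inl u ∈ s}

theorem ends_finite {U : Type} {F : Set (Set U)} (C : SimpleGraph (U ⊕ F)) (B : Set (U ⊕ F))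
    (h : (bd C B).Finite) : (ends C B).Finite := by
  have h1 : (⋃ e ∈ bd C B, {z : U ⊕ F | z ∈ e}).Finite := by
    refine h.biUnion fun e _ => ?_
    induction e with
    | _ a b =>
      refine (Set.toFinite {a, b}).subset ?_
      intro z hz
      simpa using hz
  refine (h1.preimage (f := (Sum.inl : U → U ⊕ F)) Sum.inl_injective.injOn).subset ?_
  rintro u ⟨s, hs, hu⟩
  rw [Set.mem_preimage, Set.mem_iUnion₂]
  exact ⟨s, hs, hu⟩

theorem dist_aut {U : Type} (Y : SimpleGraph U) (hY : Y.Connected) (g : Equiv.Perm U)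
    (hg : ∀ x y, Y.Adj (g x) (g y) ↔ Y.Adj x y) (u v : U) :
    Y.dist (g u) (g v) ≤ Y.dist u v := by
  obtain ⟨w, hw⟩ := hY.exists_walk_length_eq_dist u v
  let f : Y →g Y := ⟨g, fun {a b} h => (hg a b).2 h⟩
  have h1 : (w.map f).length = w.length := SimpleGraph.Walk.length_map f w
  rw [← hw, ← h1]
  exact SimpleGraph.dist_le (w.map f)

end EBD_

open EBD_ in
theorem ebd_proof (h1 : Stmt_EFV) (h2 : Stmt_NFE) (h3 : Stmt_PCL) (h4 : Stmt_FLF)
    (h5 : Stmt_CNC) (h6 : Stmt_CNA) (h7 : Stmt_CNE) : Stmt_EBD := by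
  intro V U X R lam p K F a c hD N
  obtain ⟨hY, hYl, -⟩ := h3 V U X p hD.con hD.sur hD.fb
  have hEF := h1 U (push X p) K hYl hD.aut hD.vf
  have hff := h4 V U X R lam p K F a c hD
  have hC := h5 U (push X p) F hY hD.ne
  obtain ⟨hCa, -⟩ := h6 U (push X p) K F hD.aut hD.inv
  have hCe := h7 U (push X p) K F hD.aut hEF hD.vf hD.inv hff
  have hN := h2 (U ⊕ F) (cone (push X p) F) (coneG K F) hC hCa hCe N
  obtain ⟨F0, hF0, hF0E, hrep⟩ := hN.fin
  have hfin : (⋃ B ∈ F0, (fun q : U × U => (push X p).dist q.1 q.2) ''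
      (ends (cone (push X p) F) B ×ˢ ends (cone (push X p) F) B)).Finite := by
    refine hF0.biUnion fun B hB => ?_
    have hb := ends_finite (cone (push X p) F) B (hN.small B (hF0E hB)).1
    exact (hb.prod hb).image _
  obtain ⟨e, he⟩ := hfin.bddAbove
  refine ⟨e, ?_⟩
  intro B hB u u' hu hu'
  obtain ⟨s, hs, B0, hB0, rfl⟩ := hrep B hB
  have hs' := hs
  obtain ⟨g, hg, hg1, hg2⟩ := hs
  have key : ∀ v : U, (∃ t ∈ bd (cone (push X p) F) (s '' B0), Sum.inl v ∈ t) →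
      ∃ v0 ∈ ends (cone (push X p) F) B0, g v0 = v := by
    rintro v ⟨t, ht, hv⟩
    rw [bd_image (cone (push X p) F) s (hCa s hs')] at ht
    obtain ⟨t0, ht0, rfl⟩ := ht
    rw [Sym2.mem_map] at hv
    obtain ⟨z, hz, hzv⟩ := hv
    rcases z with u0 | S
    · refine ⟨u0, ⟨t0, ht0, hz⟩, ?_⟩
      rw [hg1 u0] at hzv
      exact Sum.inl_injective hzv
    · obtain ⟨T, hT, -⟩ := hg2 S
      rw [hT] at hzv
      cases hzv
  obtain ⟨v0, hv0, rfl⟩ := key u hu
  obtain ⟨v0', hv0', rfl⟩ := key u' hu'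
  refine (dist_aut (push X p) hY g (hD.aut g hg) v0 v0').trans ?_
  refine he ?_
  rw [Set.mem_iUnion₂]
  exact ⟨B0, hB0, (v0, v0'), ⟨hv0, hv0'⟩, rfl⟩

end Pool.Agent.ACC
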