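import Pool.Agent.ACC.Lib

set_option autoImplicit false

/-! MP_851278_al, module EFV: finitely many orbits of edges -/

namespace Pool.Agent.ACC

theorem efv_proof : Stmt_EFV := by
  intro V X G hloc haut hv
  obtain ⟨F, hF, hFx⟩ := hv
  refine ⟨⋃ y ∈ F, (fun z => s(y, z)) '' X.neighborSet y,
    hF.biUnion fun y _ => (hloc y).image _, ?_⟩
  intro e he
  induction e with
  | _ x y =>
    have hxy : X.Adj x y := he
    obtain ⟨g, hg, x0, hx0, rfl⟩ := hFx x
    refine ⟨g, hg, s(x0, (g⁻¹ : Equiv.Perm V) y), ?_, ?_⟩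
    · simp only [Set.mem_iUnion]
      refine ⟨x0, hx0, (g⁻¹ : Equiv.Perm V) y, ?_, rfl⟩
      show X.Adj x0 ((g⁻¹ : Equiv.Perm V) y)
      rw [← haut g hg]
      simpa using hxy
    · simp

end Pool.Agent.ACC
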