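import Pool.Agent.ACC.Lib

/-!
# ACC.END: accessibility in the sense of `Acc` separates the ends
-/

set_option autoImplicit false

namespace Pool.Agent.ACC

open SimpleGraph CategoryTheory

namespace END_

variable {V : Type} {X : SimpleGraph V}

/-- the component of the end `ω` outside `K` -/
def cc (ω : X.end) (K : Finset V) : X.ComponentCompl (K : Set V) := ω.val (Opposite.op K)

/-- the component of the end `ω` outside `K`, as a set of vertices -/
def cmp (ω : X.end) (K : Finset V) : Set V := (cc ω K : Set V)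

theorem cmp_mono (ω : X.end) {K L : Finset V} (h : K ⊆ L) : cmp ω L ⊆ cmp ω K := by
  have h1 := ω.property (opHomOfLE (show K ≤ L from h))
  have h2 : (cc ω L).hom
      (show (K : Set V) ⊆ (L : Set V) from Finset.coe_subset.2 h) = cc ω K := h1
  have h3 := ComponentCompl.subset_hom (cc ω L)
    (show (K : Set V) ⊆ (L : Set V) from Finset.coe_subset.2 h)
  rw [h2] at h3
  exact h3

theorem cmp_nonempty (ω : X.end) (K : Finset V) : (cmp ω K).Nonempty :=
  ComponentCompl.nonempty (cc ω K)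

/-- the end `ω` lies in `A` -/
def star (ω : X.end) (A : Set V) : Prop := ∃ K : Finset V, cmp ω K ⊆ A

theorem comp_sub {K : Set V} {A : Set V}
    (hK : ∀ x y, X.Adj x y → x ∉ K → y ∉ K → (x ∈ A ↔ y ∈ A)) (C : X.ComponentCompl K) :
    (C : Set V) ⊆ A ∨ (C : Set V) ⊆ Aᶜ := by
  have key : ∀ (u v : (Kᶜ : Set V)), (X.induce Kᶜ).Reachable u v →
      ((u : V) ∈ A ↔ (v : V) ∈ A) := by
    intro u v huv
    obtain ⟨p⟩ := huv
    induction p with
    | nil => exact Iff.rfl
    | @cons a b c h _ ih =>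
      refine Iff.trans ?_ ih
      exact hK _ _ h a.2 b.2
  obtain ⟨c, hc⟩ := ComponentCompl.nonempty C
  obtain ⟨hcK, hc2⟩ := hc
  have h2 : ∀ v ∈ (C : Set V), (c ∈ A ↔ v ∈ A) := by
    intro v hv
    obtain ⟨hvK, hv2⟩ := hv
    have h3 : X.componentComplMk hcK = X.componentComplMk hvK := hc2.trans hv2.symm
    have h4 := ConnectedComponent.exact h3
    exact key ⟨c, hcK⟩ ⟨v, hvK⟩ h4
  by_cases hcA : c ∈ A
  · left
    intro v hv
    exact (h2 v hv).1 hcA
  · right
    intro v hv hvA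
    exact hcA ((h2 v hv).2 hvA)

theorem star_inter (ω : X.end) (A B : Set V) : star ω (A ∩ B) ↔ star ω A ∧ star ω B := by
  classical
  constructor
  · rintro ⟨K, hK⟩
    exact ⟨⟨K, hK.trans Set.inter_subset_left⟩, ⟨K, hK.trans Set.inter_subset_right⟩⟩
  · rintro ⟨⟨K, hK⟩, ⟨L, hL⟩⟩
    refine ⟨K ∪ L, Set.subset_inter ?_ ?_⟩
    · exact (cmp_mono ω Finset.subset_union_left).trans hK
    · exact (cmp_mono ω Finset.subset_union_right).trans hL

theorem not_star_empty (ω : X.end) : ¬ star ω (∅ : Set V) := by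
  rintro ⟨K, hK⟩
  obtain ⟨x, hx⟩ := cmp_nonempty ω K
  exact hK hx

theorem star_compl (ω : X.end) {A : Set V} (hA : (bd X A).Finite) :
    star ω Aᶜ ↔ ¬ star ω A := by
  classical
  constructor
  · intro h1 h2
    have h3 := (star_inter ω A Aᶜ).2 ⟨h2, h1⟩
    rw [Set.inter_compl_self] at h3
    exact not_star_empty ω h3
  · intro h
    have hfin : {x : V | ∃ e ∈ bd X A, x ∈ e}.Finite := by
      have h1 : {x : V | ∃ e ∈ bd X A, x ∈ e} = ⋃ e ∈ bd X A, {x : V | x ∈ e} := by
        ext x; simp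
      rw [h1]
      refine hA.biUnion ?_
      intro e _
      induction e with
      | _ a b =>
        refine (Set.toFinite ({a, b} : Set V)).subset ?_
        intro x hx
        have hx' : x ∈ s(a, b) := hx
        rw [Sym2.mem_iff] at hx'
        exact hx'
    refine ⟨hfin.toFinset, ?_⟩
    have h2 := comp_sub (X := X) (K := ((hfin.toFinset : Finset V) : Set V)) (A := A) (by
      intro x y hxy hx _
      by_contra hne
      apply hx
      rw [Set.Finite.coe_toFinset]
      refine ⟨s(x, y), ?_, Sym2.mem_mk_left x y⟩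
      rw [mem_bd_iff]
      refine ⟨hxy, ?_⟩
      by_cases h5 : x ∈ A
      · left
        exact ⟨h5, fun h6 => hne ⟨fun _ => h6, fun _ => h5⟩⟩
      · right
        refine ⟨h5, ?_⟩
        by_contra h6
        exact hne ⟨fun h7 => absurd h7 h5, fun h7 => absurd h7 h6⟩)
      (cc ω hfin.toFinset)
    rcases h2 with h2 | h2
    · exact absurd ⟨_, h2⟩ h
    · exact h2

theorem star_gen {ω₁ ω₂ : X.end} {N : ℕ}
    (h : ∀ U ∈ Small X N, (star ω₁ U ↔ star ω₂ U)) {A : Set V} (hA : Gen (Small X N) A) :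
    star ω₁ A ↔ star ω₂ A := by
  induction hA with
  | base A hA => exact h A hA
  | empty => exact ⟨fun h1 => absurd h1 (not_star_empty ω₁), fun h1 => absurd h1 (not_star_empty ω₂)⟩
  | compl A hA ih =>
    have hf : (bd X A).Finite := Gen.bd_finite (fun B hB => hB.1) hA
    rw [star_compl ω₁ hf, star_compl ω₂ hf, ih]
  | inter A B _ _ ih1 ih2 =>
    rw [star_inter, star_inter, ih1, ih2]

end END_

open END_

theorem end_proof : Stmt_END := by
  classical
  intro V X _ hlf hacc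
  obtain ⟨N, hN⟩ := hacc
  refine ⟨N, ?_⟩
  intro ω₁ ω₂ hne
  have h0 : ∃ K0 : Finset V, ω₁.val (Opposite.op K0) ≠ ω₂.val (Opposite.op K0) := by
    by_contra hcon
    push Not at hcon
    apply hne
    apply Subtype.ext
    funext K
    exact hcon K.unop
  obtain ⟨K0, hK0⟩ := h0
  have hK0' : cc ω₁ K0 ≠ cc ω₂ K0 := hK0
  set C1 : X.ComponentCompl (K0 : Set V) := cc ω₁ K0 with hC1
  set C2 : X.ComponentCompl (K0 : Set V) := cc ω₂ K0 with hC2
  have hAfin : (bd X (C1 : Set V)).Finite := by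
    have h1 : bd X (C1 : Set V) ⊆ ⋃ y ∈ (K0 : Set V), (fun x => s(x, y)) '' X.neighborSet y := by
      rintro e ⟨x, y, hxy, hx, hy, rfl⟩
      have hyK : y ∈ (K0 : Set V) := by
        by_contra hyK
        exact hy (ComponentCompl.mem_of_adj x y hx hyK hxy)
      refine Set.mem_biUnion hyK ?_
      exact ⟨x, hxy.symm, rfl⟩
    refine Set.Finite.subset ?_ h1
    refine K0.finite_toSet.biUnion ?_
    intro y _
    exact (hlf y).image _
  have hs1 : star ω₁ (C1 : Set V) := ⟨K0, fun _ h => h⟩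
  have hs2 : ¬ star ω₂ (C1 : Set V) := by
    rw [← star_compl ω₂ hAfin]
    refine ⟨K0, ?_⟩
    have hd := ComponentCompl.pairwise_disjoint hK0'
    intro x hx hx1
    exact Set.disjoint_left.1 hd hx1 hx
  have hU : ∃ U ∈ Small X N, ¬ (star ω₁ U ↔ star ω₂ U) := by
    by_contra hcon
    push Not at hcon
    have h3 := star_gen (X := X) (ω₁ := ω₁) (ω₂ := ω₂) (N := N) hcon (hN _ hAfin)
    exact hs2 (h3.1 hs1)
  obtain ⟨U, hUs, hUne⟩ := hU
  -- choose the end points in `U`
  have hch : ∀ e : (bd X U : Set (Sym2 V)), ∃ x y, X.Adj x y ∧ x ∈ U ∧ y ∉ U ∧ (e : Sym2 V) = s(x, y) :=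
    fun e => e.2
  choose f g hadj hfU hgU hfg using hch
  let S : Finset (Sym2 V) := hUs.1.toFinset
  have hS : ∀ e ∈ S, e ∈ bd X U := fun e he => (Set.Finite.mem_toFinset _).1 he
  let K : Finset V := S.attach.image (fun e => f ⟨e.1, hS e.1 e.2⟩)
  have hKcard : K.card ≤ N := by
    calc K.card ≤ S.attach.card := Finset.card_image_le
      _ = S.card := Finset.card_attach
      _ = (bd X U).ncard := (Set.ncard_eq_toFinset_card _ hUs.1).symm
      _ ≤ N := hUs.2
  have hKm : ∀ x y, X.Adj x y → x ∈ U → y ∉ U → x ∈ K := by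
    intro x y hxy hx hy
    have he : s(x, y) ∈ bd X U := ⟨x, y, hxy, hx, hy, rfl⟩
    have heS : s(x, y) ∈ S := (Set.Finite.mem_toFinset _).2 he
    have h4 := hfg ⟨s(x, y), he⟩
    have h4' : s(x, y) = s(f ⟨s(x, y), he⟩, g ⟨s(x, y), he⟩) := h4
    rw [Sym2.eq_iff] at h4'
    have h5 : f ⟨s(x, y), he⟩ = x := by
      rcases h4' with ⟨h6, _⟩ | ⟨_, h7⟩
      · exact h6.symm
      · exfalso
        apply hy
        rw [h7]
        exact hfU _
    refine Finset.mem_image.2 ⟨⟨s(x, y), heS⟩, Finset.mem_attach _ _, ?_⟩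
    exact h5
  refine ⟨K, hKcard, ?_⟩
  intro heq
  have hcs := comp_sub (X := X) (K := (K : Set V)) (A := U) (by
    intro x y hxy hx hy
    by_contra hcon
    by_cases h5 : x ∈ U
    · by_cases h6 : y ∈ U
      · exact hcon ⟨fun _ => h6, fun _ => h5⟩
      · exact hx (hKm x y hxy h5 h6)
    · by_cases h6 : y ∈ U
      · exact hy (hKm y x hxy.symm h6 h5)
      · exact hcon ⟨fun h7 => absurd h7 h5, fun h7 => absurd h7 h6⟩)
    (cc ω₁ K)
  have hcmp : cmp ω₁ K = cmp ω₂ K := by
    have heq' : cc ω₁ K = cc ω₂ K := heq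
    unfold END_.cmp
    rw [heq']
  rcases hcs with h1 | h1
  · apply hUne
    have h2 : cmp ω₁ K ⊆ U := h1
    have h3 : cmp ω₂ K ⊆ U := by rw [← hcmp]; exact h2
    exact ⟨fun _ => ⟨K, h3⟩, fun _ => ⟨K, h2⟩⟩
  · apply hUne
    have h2 : cmp ω₁ K ⊆ Uᶜ := h1
    have h3 : cmp ω₂ K ⊆ Uᶜ := by rw [← hcmp]; exact h2
    have h4 : ¬ star ω₁ U := (star_compl ω₁ hUs.1).1 ⟨K, h2⟩
    have h5 : ¬ star ω₂ U := (star_compl ω₂ hUs.1).1 ⟨K, h3⟩
    exact ⟨fun h => absurd h h4, fun h => absurd h h5⟩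

end Pool.Agent.ACC
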