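import Pool.Agent.ACC.StmtsC
import Pool.Agent.ACC.LibB

set_option autoImplicit false

namespace Pool.Agent.ACC

namespace EXC_

theorem cone_adj_inl {U : Type} {Y : SimpleGraph U} {F : Set (Set U)} {u v : U}
    (h : Y.Adj u v) : (cone Y F).Adj (Sum.inl u) (Sum.inl v) :=
  Or.inl ⟨u, v, rfl, rfl, h⟩

theorem cone_adj_inr {U : Type} {Y : SimpleGraph U} {F : Set (Set U)} {u : U} (S : F)
    (h : u ∈ (S : Set U)) : (cone Y F).Adj (Sum.inr S) (Sum.inl u) :=
  Or.inr (Or.inr ⟨u, S, rfl, rfl, h⟩)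

theorem fin_in {U : Type} {Y : SimpleGraph U} {F : Set (Set U)} {B : Set (U ⊕ F)} (S : F)
    (hB : (bd (cone Y F) B).Finite) (hS : Sum.inr S ∈ B) :
    ((S : Set U) \ (Sum.inl ⁻¹' B)).Finite := by
  have hinj : Function.Injective (fun u : U => s((Sum.inr S : U ⊕ F), Sum.inl u)) := by
    intro u u' h
    rcases Sym2.eq_iff.mp h with ⟨_, h2⟩ | ⟨h1, _⟩
    · exact Sum.inl_injective h2
    · cases h1
  refine (hB.preimage hinj.injOn).subset ?_
  rintro u ⟨hu, hu'⟩
  show s((Sum.inr S : U ⊕ F), Sum.inl u) ∈ bd (cone Y F) B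
  exact ⟨Sum.inr S, Sum.inl u, cone_adj_inr S hu, hS, hu', rfl⟩

theorem fin_out {U : Type} {Y : SimpleGraph U} {F : Set (Set U)} {B : Set (U ⊕ F)} (S : F)
    (hB : (bd (cone Y F) B).Finite) (hS : Sum.inr S ∉ B) :
    ((S : Set U) ∩ (Sum.inl ⁻¹' B)).Finite := by
  have hinj : Function.Injective (fun u : U => s((Sum.inl u : U ⊕ F), Sum.inr S)) := by
    intro u u' h
    rcases Sym2.eq_iff.mp h with ⟨h1, _⟩ | ⟨h1, _⟩
    · exact Sum.inl_injective h1
    · cases h1
  refine (hB.preimage hinj.injOn).subset ?_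
  rintro u ⟨hu, hu'⟩
  show s((Sum.inl u : U ⊕ F), Sum.inr S) ∈ bd (cone Y F) B
  exact ⟨Sum.inl u, Sum.inr S, (cone_adj_inr S hu).symm, hu', hS, rfl⟩

end EXC_

open EXC_ in
theorem exc_proof (hHUA : Stmt_HUA) (hDDF : Stmt_DDF) (hPCL : Stmt_PCL) (hLAZ : Stmt_LAZ)
    (hPPP : Stmt_PPP) (hCNC : Stmt_CNC) (hCRE : Stmt_CRE) (hEBD : Stmt_EBD)
    (hSFD : Stmt_SFD) : Stmt_EXC := by
  classical
  intro V U X R lam p K F a c D N
  obtain ⟨hYc, -, -⟩ := hPCL V U X p D.con D.sur D.fb
  obtain ⟨e1, he1⟩ := hSFD V U X R lam p K F a c D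
  obtain ⟨e, he⟩ := hEBD V U X R lam p K F a c D N
  have hNF := hCRE V U X R lam p K F a c D N
  have hcone := hCNC U (push X p) F hYc D.ne
  have hgood := hDDF (U ⊕ F) (cone (push X p) F) hcone N
  have hdist : ∀ (v : Set (Set U)) (u u' : U),
      (push X (tproj v ∘ p)).dist (tproj v u) (tproj v u') ≤ (push X p).dist u u' := by
    intro v u u'
    obtain ⟨w, hw⟩ := hYc.exists_walk_length_eq_dist u u'
    obtain ⟨w', hw', -⟩ := hLAZ U (TV v) (push X p) (tproj v) (fun _ _ => 0) u u' w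
      (fun _ => rfl)
    have h1 := (SimpleGraph.dist_le w').trans (hw'.trans hw.le)
    rw [hPPP] at h1
    exact h1
  refine ⟨max c (max e1 e), fun v hv b hb hex => ?_⟩
  have hc1 : c ≤ max c (max e1 e) := le_max_left _ _
  have hc2 : e1 ≤ max c (max e1 e) := (le_max_left _ _).trans (le_max_right _ _)
  have hc3 : e ≤ max c (max e1 e) := (le_max_right _ _).trans (le_max_right _ _)
  rcases D.bdd b hb with ⟨S, hS, hSb⟩ | ⟨y1, y2, h12⟩
  swap
  · refine ⟨tproj v y1, tproj v y2, fun b' hb' hE' hne => ?_⟩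
    have hne' : p b'.1 ≠ p b'.2 := by
      intro h
      apply hne
      show tproj v (p b'.1) = tproj v (p b'.2)
      rw [h]
    obtain ⟨h1, h2⟩ := h12 b' hb' hE' hne'
    constructor
    · rcases h1 with h1 | h1
      · exact Or.inl (((hdist v _ _).trans h1).trans hc1)
      · exact Or.inr (((hdist v _ _).trans h1).trans hc1)
    · rcases h2 with h2 | h2
      · exact Or.inl (((hdist v _ _).trans h2).trans hc1)
      · exact Or.inr (((hdist v _ _).trans h2).trans hc1)
  · have key : ∃ y : TV v, ∀ u ∈ S,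
        (push X (tproj v ∘ p)).dist y (tproj v u) ≤ max c (max e1 e) := by
      by_cases hfin : S.Finite
      · obtain ⟨u0, hu0⟩ := D.ne S hS
        exact ⟨tproj v u0, fun u hu =>
          ((hdist v u0 u).trans (he1 S hS hfin u0 hu0 u hu)).trans hc2⟩
      · have h1 := hex S hS hSb
        have h2 : ∃ A ∈ v, ¬ (S \ A).Finite := by
          by_contra h3
          push Not at h3
          exact h1 ⟨hfin, h3⟩
        obtain ⟨A, hA, hSA⟩ := h2
        obtain ⟨B, hB, hAB, -, -⟩ := hv.sub hA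
        have hBfin := (hgood.bond B hB).1
        have hSB : (Sum.inr ⟨S, hS⟩ : U ⊕ F) ∉ B := by
          intro h3
          apply hSA
          have := fin_in (Y := push X p) ⟨S, hS⟩ hBfin h3
          rw [hAB]
          exact this
        have hSA' : (S ∩ A).Finite := by
          have := fin_out (Y := push X p) ⟨S, hS⟩ hBfin hSB
          rw [hAB]
          exact this
        obtain ⟨D0, hD0, hD0A, hmin⟩ := hv.wf A hA
        have hC : D0ᶜ ∈ Hub v := by
          refine ⟨?_, ?_⟩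
          · rw [compl_compl]
            exact hD0
          · rw [compl_compl]
            exact hmin
        have hSC : (S \ D0ᶜ).Finite := by
          refine hSA'.subset ?_
          rintro x ⟨hx, hx'⟩
          exact ⟨hx, hD0A (not_not.mp hx')⟩
        obtain ⟨hH1, -, -, hH4⟩ := hHUA U _ v hNF.toNestSet hv
        obtain ⟨B', hB', hCB', hCne, hCcne⟩ := hH1 _ hC
        have hB'fin := (hgood.bond B' hB').1
        have hSB' : (Sum.inr ⟨S, hS⟩ : U ⊕ F) ∈ B' := by
          by_contra h3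
          apply hfin
          have h4 := fin_out (Y := push X p) ⟨S, hS⟩ hB'fin h3
          have h5 : (S ∩ D0ᶜ).Finite := by
            rw [hCB']
            exact h4
          refine (hSC.union h5).subset ?_
          intro x hx
          by_cases hxD : x ∈ D0ᶜ
          · exact Or.inr ⟨hx, hxD⟩
          · exact Or.inl ⟨hx, hxD⟩
        obtain ⟨e0, u0, u1, hadj, hu0, hu1, rfl⟩ := bd_nonempty hYc hCne hCcne
        have hu0B : Sum.inl u0 ∈ B' := by
          have h6 : u0 ∈ (Sum.inl ⁻¹' B' : Set U) := by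
            rw [← hCB']
            exact hu0
          exact h6
        have hnB : ∀ u, u ∉ D0ᶜ → Sum.inl u ∉ B' := by
          intro u hu h7
          apply hu
          rw [hCB']
          exact h7
        have hs0 : ∃ s ∈ bd (cone (push X p) F) B', (Sum.inl u0 : U ⊕ F) ∈ s :=
          ⟨s(Sum.inl u0, Sum.inl u1), ⟨Sum.inl u0, Sum.inl u1, cone_adj_inl hadj, hu0B,
            hnB u1 hu1, rfl⟩, Sym2.mem_mk_left _ _⟩
        refine ⟨tproj v u0, fun u hu => ?_⟩
        by_cases huC : u ∈ D0ᶜ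
        · have h8 : tproj v u0 = tproj v u :=
            (hH4 u0 u).mpr (Or.inr ⟨D0ᶜ, hC, hu0, huC⟩)
          rw [h8, SimpleGraph.dist_self]
          exact Nat.zero_le _
        · have hs1 : ∃ s ∈ bd (cone (push X p) F) B', (Sum.inl u : U ⊕ F) ∈ s :=
            ⟨s(Sum.inr ⟨S, hS⟩, Sum.inl u), ⟨Sum.inr ⟨S, hS⟩, Sum.inl u,
              cone_adj_inr ⟨S, hS⟩ hu, hSB', hnB u huC, rfl⟩, Sym2.mem_mk_right _ _⟩
          exact ((hdist v u0 u).trans (he B' hB' u0 u hs0 hs1)).trans hc3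
    obtain ⟨y, hy⟩ := key
    refine ⟨y, y, fun b' hb' hE' hne => ?_⟩
    have hne' : p b'.1 ≠ p b'.2 := by
      intro h
      apply hne
      show tproj v (p b'.1) = tproj v (p b'.2)
      rw [h]
    have hX : X.Adj b'.1 b'.2 := D.sp.1 hb'
    have ht := R.touch_of_adj hb' (a := a S) (R.eqv_trans hSb hE')
    have hz1 : b'.1 ∈ Zp X p := ⟨b'.2, hX, hne'⟩
    have hz2 : b'.2 ∈ Zp X p := ⟨b'.1, hX.symm, hne'.symm⟩
    exact ⟨Or.inl (hy _ (D.touch S hS _ hz1 ht.1)), Or.inl (hy _ (D.touch S hS _ hz2 ht.2))⟩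

end Pool.Agent.ACC
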