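import Pool.Agent.ACC.StmtsC
import Pool.Agent.ACC.LibB

/-!
MP_851278_al, module FBC: the fibres of the second quotient are coarsely connected.
-/

set_option autoImplicit false

namespace Pool.Agent.ACC

namespace FBC_

/-- a walk which leaves a set -/
theorem exit_walk {V : Type} {X : SimpleGraph V} (Q : Set V) {x z : V} (w : X.Walk x z)
    (hx : x ∈ Q) (hz : z ∉ Q) :
    ∃ a b, a ∈ Q ∧ b ∉ Q ∧ X.Adj a b ∧
      Relation.ReflTransGen (fun s t => s ∈ Q ∧ t ∈ Q ∧ X.Adj s t) x a := by
  induction w with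
  | nil => exact absurd hx hz
  | @cons u v w huv q ih =>
    by_cases hv : v ∈ Q
    · obtain ⟨a, b, ha, hb, hab, hch⟩ := ih hv hz
      exact ⟨a, b, ha, hb, hab, Relation.ReflTransGen.head ⟨hx, hv, huv⟩ hch⟩
    · exact ⟨u, v, hx, hv, huv, Relation.ReflTransGen.refl⟩

/-- a walk with constant projection is a chain -/
theorem chain_walk {V T : Type} {X : SimpleGraph V} (f : V → T) (r : ℕ) (hr : 1 ≤ r) {x y : V}
    (w : X.Walk x y) (hw : ∀ z ∈ w.support, f z = f x) :
    Relation.ReflTransGen (fun s t => f s = f t ∧ X.dist s t ≤ r) x y := by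
  induction w with
  | nil => exact Relation.ReflTransGen.refl
  | @cons u v w huv q ih =>
    have hv : f v = f u := hw v (by
      rw [SimpleGraph.Walk.support_cons]
      exact List.mem_cons_of_mem _ q.start_mem_support)
    refine Relation.ReflTransGen.head ⟨hv.symm, ?_⟩ (ih ?_)
    · rw [SimpleGraph.dist_eq_one_iff_adj.mpr huv]; exact hr
    · intro z hz
      rw [hv]
      exact hw z (by rw [SimpleGraph.Walk.support_cons]; exact List.mem_cons_of_mem _ hz)

/-- chains can be reversed -/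
theorem chain_symm {V : Type} {r : V → V → Prop} (hr : ∀ s t, r s t → r t s) {x y : V}
    (h : Relation.ReflTransGen r x y) : Relation.ReflTransGen r y x := by
  induction h with
  | refl => exact Relation.ReflTransGen.refl
  | tail _ hbc ih => exact Relation.ReflTransGen.head (hr _ _ hbc) ih

/-- monotonicity of chains -/
theorem chain_mono {V : Type} {r r' : V → V → Prop} (hr : ∀ s t, r s t → r' s t) {x y : V}
    (h : Relation.ReflTransGen r x y) : Relation.ReflTransGen r' x y := by
  induction h with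
  | refl => exact Relation.ReflTransGen.refl
  | tail _ hbc ih => exact Relation.ReflTransGen.tail ih (hr _ _ hbc)

end FBC_

theorem fbc_proof (h1 : Stmt_HUA) (h2 : Stmt_PCL) (h3 : Stmt_ZDI) (h4 : Stmt_CRE)
    (h5 : Stmt_EBD) : Stmt_FBC := by
  intro V U X R lam p K F a c hD N
  obtain ⟨e, he⟩ := h5 V U X R lam p K F a c hD N
  have hY := h2 V U X p hD.con hD.sur hD.fb
  have hZ := h3 V U X p c hD.con hY.1 hD.zd
  have hNF := h4 V U X R lam p K F a c hD N
  refine ⟨(c + 1) * e + c + 1, ?_⟩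
  intro v hv x y hxy
  have hrel := (h1 U (pb (EE (cone (push X p) F) N)) v hNF.toNestSet hv)
  have hr1 : 1 ≤ (c + 1) * e + c + 1 := by omega
  rcases (hrel.2.2.2 (p x) (p y)).1 hxy with heq | ⟨C, hC, hxC, hyC⟩
  · obtain ⟨w, hw⟩ := hD.fc x y heq
    exact FBC_.chain_walk (fun s => tproj v (p s)) _ hr1 w (fun z hz => by
      show tproj v (p z) = tproj v (p x)
      rw [hw z hz])
  · have hCE := hrel.1 C hC
    obtain ⟨B, hB, hCB, hCne, u0, hu0⟩ := hCE
    obtain ⟨z0, rfl⟩ := hD.sur u0
    have hsame : ∀ s t : V, p s ∈ C → p t ∈ C → tproj v (p s) = tproj v (p t) := by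
      intro s t hs ht
      exact Quot.sound (Or.inr ⟨C, hC, hs, ht⟩)
    have hexit : ∀ s : V, p s ∈ C → ∃ s1 ∈ Zp X p, p s1 ∈ C ∧
        (∃ d ∈ bd (cone (push X p) F) B, (Sum.inl (p s1) : U ⊕ F) ∈ d) ∧
        Relation.ReflTransGen (fun s t => tproj v (p s) = tproj v (p t) ∧
          X.dist s t ≤ (c + 1) * e + c + 1) s s1 := by
      intro s hs
      obtain ⟨w⟩ := hD.con.preconnected s z0
      obtain ⟨s1, t1, hs1, ht1, hadj, hch⟩ :=
        FBC_.exit_walk (Q := p ⁻¹' C) w hs (fun h => hu0 h)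
      have hne : p s1 ≠ p t1 := by
        intro h
        apply ht1
        show p t1 ∈ C
        rw [← h]
        exact hs1
      refine ⟨s1, ⟨t1, hadj, hne⟩, hs1, ?_, ?_⟩
      · refine ⟨s(Sum.inl (p s1), Sum.inl (p t1)), ?_, Sym2.mem_mk_left _ _⟩
        refine ⟨Sum.inl (p s1), Sum.inl (p t1), ?_, ?_, ?_, rfl⟩
        · exact Or.inl ⟨p s1, p t1, rfl, rfl, hne, s1, t1, hadj, rfl, rfl⟩
        · have : p s1 ∈ C := hs1
          rw [hCB] at this
          exact this
        · intro h
          apply ht1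
          show p t1 ∈ C
          rw [hCB]
          exact h
      · refine FBC_.chain_mono ?_ hch
        rintro s' t' ⟨hs', ht', hadj'⟩
        refine ⟨hsame s' t' hs' ht', ?_⟩
        rw [SimpleGraph.dist_eq_one_iff_adj.mpr hadj']
        exact hr1
    obtain ⟨x1, hx1Z, hx1C, hx1B, hchx⟩ := hexit x hxC
    obtain ⟨y1, hy1Z, hy1C, hy1B, hchy⟩ := hexit y hyC
    have hdist : X.dist x1 y1 ≤ (c + 1) * e + c + 1 := by
      have ha := he B hB (p x1) (p y1) hx1B hy1B
      have hb := hZ x1 hx1Z y1 hy1Z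
      have hc := Nat.mul_le_mul_left (c + 1) ha
      omega
    have hsymm : ∀ s t : V, (tproj v (p s) = tproj v (p t) ∧
          X.dist s t ≤ (c + 1) * e + c + 1) → (tproj v (p t) = tproj v (p s) ∧
          X.dist t s ≤ (c + 1) * e + c + 1) := by
      intro s t hst
      refine ⟨hst.1.symm, ?_⟩
      rw [SimpleGraph.dist_comm]
      exact hst.2
    have hchy' := FBC_.chain_symm hsymm hchy
    exact (hchx.tail ⟨hsame x1 y1 hx1C hy1C, hdist⟩).trans hchy'

end Pool.Agent.ACC
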