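import Pool.Agent.ACC.Lib

/-!
# FBL: finitely many bonds with at most `k` edges through a given edge
-/

set_option autoImplicit false

namespace Pool.Agent.ACC

namespace FBL_

variable {V : Type}

theorem bd_del (X : SimpleGraph V) (e : Sym2 V) (A : Set V) :
    bd (X.deleteEdges {e}) A = bd X A \ {e} := by
  ext f
  induction f with
  | _ a b =>
    rw [Set.mem_sdiff, mem_bd_iff, mem_bd_iff, SimpleGraph.deleteEdges_adj]
    tauto

theorem induce_del (X : SimpleGraph V) (x y : V) (A : Set V)
    (h : ¬ (x ∈ A ∧ y ∈ A)) :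
    (X.deleteEdges {s(x, y)}).induce A = X.induce A := by
  ext a b
  simp only [SimpleGraph.comap_adj, Function.Embedding.subtype_apply,
    SimpleGraph.deleteEdges_adj, Set.mem_singleton_iff]
  constructor
  · intro h'; exact h'.1
  · intro h'
    refine ⟨h', fun heq => ?_⟩
    rw [Sym2.eq_iff] at heq
    rcases heq with ⟨h1, h2⟩ | ⟨h1, h2⟩
    · exact h ⟨h1 ▸ a.2, h2 ▸ b.2⟩
    · exact h ⟨h2 ▸ b.2, h1 ▸ a.2⟩

theorem reach_of_induce {X : SimpleGraph V} {A : Set V} (hA : (X.induce A).Connected)
    {u v : V} (hu : u ∈ A) (hv : v ∈ A) : X.Reachable u v := by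
  have h := hA.preconnected ⟨u, hu⟩ ⟨v, hv⟩
  exact h.map (SimpleGraph.Embedding.induce A).toHom

theorem connected_of_sides {X : SimpleGraph V} {A : Set V} (hA : (X.induce A).Connected)
    (hA' : (X.induce Aᶜ).Connected) (hne : (bd X A).Nonempty) : X.Connected := by
  obtain ⟨e, a, b, hab, ha, hb, rfl⟩ := hne
  have : Nonempty V := ⟨a⟩
  have key : ∀ u, X.Reachable u a := by
    intro u
    by_cases hu : u ∈ A
    · exact reach_of_induce hA hu ha
    · exact (reach_of_induce hA' (u := u) (v := b) hu hb).trans hab.symm.reachable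
  exact ⟨fun u v => (key u).trans (key v).symm⟩

end FBL_

theorem fbl_proof (h1 : Stmt_BDI) : Stmt_FBL := by
  intro V X hX k
  induction k generalizing X with
  | zero =>
    intro e
    refine Set.Finite.subset Set.finite_empty ?_
    rintro A ⟨hb, hc, he⟩
    have h0 : (bd X A).ncard = 0 := Nat.le_zero.1 hc
    rw [Set.ncard_eq_zero hb.1] at h0
    rw [h0] at he
    exact he
  | succ k ih =>
    intro e
    induction e with
    | _ x y =>
    have hside : ∀ A : Set V, s(x, y) ∈ bd X A →
        ¬ (x ∈ A ∧ y ∈ A) ∧ ¬ (x ∈ Aᶜ ∧ y ∈ Aᶜ) := by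
      intro A hA
      rw [mem_bd_iff] at hA
      simp only [Set.mem_compl_iff]
      tauto
    have hbond : ∀ A : Set V, IsBond X A → s(x, y) ∈ bd X A →
        IsBond (X.deleteEdges {s(x, y)}) A := by
      intro A hA he
      obtain ⟨k1, k2⟩ := hside A he
      refine ⟨?_, ?_, ?_⟩
      · rw [FBL_.bd_del]; exact hA.1.subset Set.sdiff_subset
      · rw [FBL_.induce_del X x y A k1]; exact hA.2.1
      · rw [FBL_.induce_del X x y Aᶜ k2]; exact hA.2.2
    by_cases hcon : (X.deleteEdges {s(x, y)}).Connected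
    · obtain ⟨p⟩ := hcon.preconnected x y
      have hfin : (⋃ f ∈ {f : Sym2 V | f ∈ p.edges},
          {A : Set V | IsBond (X.deleteEdges {s(x, y)}) A ∧
            (bd (X.deleteEdges {s(x, y)}) A).ncard ≤ k ∧
            f ∈ bd (X.deleteEdges {s(x, y)}) A}).Finite := by
        refine Set.Finite.biUnion (List.finite_toSet _) fun f _ => ?_
        exact ih _ hcon f
      refine hfin.subset ?_
      rintro A ⟨hb, hc, he⟩
      have hb' := hbond A hb he
      have hcard : (bd (X.deleteEdges {s(x, y)}) A).ncard ≤ k := by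
        rw [FBL_.bd_del, Set.ncard_sdiff_singleton_of_mem he]
        omega
      have hexf : ∃ f ∈ p.edges, f ∈ bd (X.deleteEdges {s(x, y)}) A := by
        have he' := he
        rw [mem_bd_iff] at he'
        rcases he'.2 with ⟨hx, hy⟩ | ⟨hx, hy⟩
        · exact exists_bd_edge p hx hy
        · obtain ⟨f, hf, hfb⟩ := exists_bd_edge (A := Aᶜ) p hx (fun hy' => hy' hy)
          rw [bd_compl] at hfb
          exact ⟨f, hf, hfb⟩
      obtain ⟨f, hf, hfb⟩ := hexf
      simp only [Set.mem_iUnion]
      exact ⟨f, hf, hb', hcard, hfb⟩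
    · have hone : ∀ A : Set V, IsBond X A → s(x, y) ∈ bd X A → bd X A = {s(x, y)} := by
        intro A hA he
        by_contra hne
        have hex : (bd (X.deleteEdges {s(x, y)}) A).Nonempty := by
          rw [FBL_.bd_del]
          by_contra hemp
          rw [Set.not_nonempty_iff_eq_empty, Set.sdiff_eq_empty] at hemp
          exact hne (Set.Subset.antisymm hemp (Set.singleton_subset_iff.2 he))
        have hb' := hbond A hA he
        exact hcon (FBL_.connected_of_sides hb'.2.1 hb'.2.2 hex)
      by_cases hex : ∃ A0 : Set V, IsBond X A0 ∧ s(x, y) ∈ bd X A0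
      · obtain ⟨A0, hA0, he0⟩ := hex
        refine Set.Finite.subset (Set.toFinite {A0, A0ᶜ}) ?_
        rintro A ⟨hb, _, he⟩
        have heq : bd X A = bd X A0 := by rw [hone A hb he, hone A0 hA0 he0]
        rcases h1 V X hX A A0 heq with h | h
        · left; exact h
        · right; exact h
      · refine Set.Finite.subset Set.finite_empty ?_
        rintro A ⟨hb, _, he⟩
        exact absurd ⟨A, hb, he⟩ hex

end Pool.Agent.ACC
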