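import Pool.Agent.ACC.Lib

/-!
# FCS: a finite vertex set is connected by a finite set of edges
-/

set_option autoImplicit false

namespace Pool.Agent.ACC

namespace FCS_

lemma walk {V : Type} (X : SimpleGraph V) (B : Set V) (x y : V) (w : X.Walk x y)
    (h : ∀ e ∈ w.edges, e ∉ bd X B) : x ∈ B ↔ y ∈ B := by
  induction w with
  | nil => exact Iff.rfl
  | @cons u v w' huv p ih =>
    rw [SimpleGraph.Walk.edges_cons] at h
    have h1 := h s(u, v) List.mem_cons_self
    rw [mem_bd_iff] at h1
    have h2 := ih fun e he => h e (List.mem_cons_of_mem _ he)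
    tauto

end FCS_

open FCS_ in
theorem fcs_proof : Stmt_FCS := by
  intro V X hX S hS
  rcases S.eq_empty_or_nonempty with hne | ⟨s0, hs0⟩
  · refine ⟨∅, Set.finite_empty, Set.empty_subset _, fun B _ => Or.inl ?_⟩
    rw [hne]
    exact Set.empty_subset _
  · let p : ∀ s : V, X.Walk s0 s := fun s => (hX.preconnected s0 s).some
    refine ⟨⋃ s ∈ S, {e | e ∈ (p s).edges}, ?_, ?_, ?_⟩
    · exact hS.biUnion fun s _ => List.finite_toSet _
    · intro e he
      obtain ⟨s, -, he⟩ := Set.mem_iUnion₂.mp he
      exact (p s).edges_subset_edgeSet he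
    · intro B hB
      have key : ∀ s ∈ S, (s0 ∈ B ↔ s ∈ B) := by
        intro s hs
        apply walk X B s0 s (p s)
        intro e he heB
        exact Set.disjoint_left.mp hB heB (Set.mem_iUnion₂.mpr ⟨s, hs, he⟩)
      by_cases h0 : s0 ∈ B
      · left
        intro s hs
        exact (key s hs).mp h0
      · right
        intro s hs hsB
        exact h0 ((key s hs).mpr hsB)

end Pool.Agent.ACC
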