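import Pool.Agent.ACC.StmtsC
import Pool.Agent.ACC.LibB

/-!
MP_851278_al, squad ACD, module FIB: the fibres of the projection to a torso.
-/

set_option autoImplicit false

namespace Pool.Agent.ACC

namespace FIB_

theorem bd_singleton_finite {V : Type} (X : SimpleGraph V) (hl : LocFin X) (x : V) :
    (bd X {x}).Finite := by
  refine ((hl x).image (fun y => s(x, y))).subset ?_
  rintro e ⟨a, b, hab, ha, -, rfl⟩
  have ha' : a = x := ha
  subst ha'
  exact ⟨b, hab, rfl⟩

theorem walk_out {V : Type} (X : SimpleGraph V) (C : Set V) (a b : C)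
    (p : (X.induce C).Walk a b) : ∃ w : X.Walk a.1 b.1, ∀ z ∈ w.support, z ∈ C := by
  induction p with
  | @nil u =>
    refine ⟨SimpleGraph.Walk.nil, ?_⟩
    intro z hz
    have hz' : z = u.1 := by simpa using hz
    rw [hz']
    exact u.2
  | @cons u s t hus _ ih =>
    obtain ⟨w, hw⟩ := ih
    have h : X.Adj u.1 s.1 := hus
    refine ⟨SimpleGraph.Walk.cons h w, ?_⟩
    intro z hz
    rw [SimpleGraph.Walk.support_cons, List.mem_cons] at hz
    rcases hz with rfl | hz
    · exact u.2
    · exact hw z hz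

end FIB_

theorem fib_proof (hHUA : Stmt_HUA) (hBDD : Stmt_BDD) (hEFV : Stmt_EFV) (hNFE : Stmt_NFE)
    (hDDF : Stmt_DDF) : Stmt_FIB := by
  intro V X G hX hl hA hV k
  have hE : EdgeFin X G := hEFV V X G hl hA hV
  obtain ⟨c, hc⟩ := hBDD V X G hX hA hE k
  have hN : NestSet (EE X k) := (hNFE V X G hX hA hE k).toNestSet
  have hG : Good X k (EE X k) := hDDF V X hX k
  refine ⟨c, fun v hv => ?_⟩
  obtain ⟨h1, h2, -, h4⟩ := hHUA V (EE X k) v hN hv
  refine ⟨?_, ?_, ?_⟩
  · intro u
    obtain ⟨x, hx⟩ := Quot.exists_rep u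
    have hx' : tproj v x = u := hx
    subst hx'
    by_cases hxC : ∃ C ∈ Hub v, x ∈ C
    · obtain ⟨C, hC, hxC⟩ := hxC
      have heq : tproj v ⁻¹' {tproj v x} = C := by
        ext z
        constructor
        · intro hz
          have hz' : tproj v z = tproj v x := hz
          rcases (h4 z x).1 hz' with rfl | ⟨C', hC', hz1, hx1⟩
          · exact hxC
          · by_cases hCC : C' = C
            · rw [← hCC]
              exact hz1
            · exact absurd hxC (Set.disjoint_left.1 (h2 C' hC' C hC hCC) hx1)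
        · intro hz
          exact (h4 z x).2 (Or.inr ⟨C, hC, hz, hxC⟩)
      rw [heq]
      exact (hG.bond C (h1 C hC)).1
    · have heq : tproj v ⁻¹' {tproj v x} = {x} := by
        ext z
        constructor
        · intro hz
          have hz' : tproj v z = tproj v x := hz
          rcases (h4 z x).1 hz' with rfl | ⟨C', hC', hz1, hx1⟩
          · rfl
          · exact absurd ⟨C', hC', hx1⟩ hxC
        · intro hz
          have hz' : z = x := hz
          subst hz'
          rfl
      rw [heq]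
      exact FIB_.bd_singleton_finite X hl x
  · intro x y hxy
    rcases (h4 x y).1 hxy with rfl | ⟨C, hC, hx, hy⟩
    · refine ⟨SimpleGraph.Walk.nil, ?_⟩
      intro z hz
      have hz' : z = x := by simpa using hz
      rw [hz']
    · obtain ⟨p⟩ := (hG.bond C (h1 C hC)).2.1.preconnected ⟨x, hx⟩ ⟨y, hy⟩
      obtain ⟨w, hw⟩ := FIB_.walk_out X C _ _ p
      exact ⟨w, fun z hz => (h4 z x).2 (Or.inr ⟨C, hC, hw z hz, hx⟩)⟩
  · rintro x ⟨x', hxx', hx⟩ y ⟨y', hyy', hy⟩ hxy
    rcases (h4 x y).1 hxy with rfl | ⟨C, hC, hxC, hyC⟩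
    · rw [SimpleGraph.dist_self]
      exact Nat.zero_le _
    · have hb := hG.bond C (h1 C hC)
      have hk := hG.card C (h1 C hC)
      have hx' : x' ∉ C := fun h => hx ((h4 x x').2 (Or.inr ⟨C, hC, hxC, h⟩))
      have hy' : y' ∉ C := fun h => hy ((h4 y y').2 (Or.inr ⟨C, hC, hyC, h⟩))
      exact hc C hb hk s(x, x') ((mem_bd_iff X C x x').2 ⟨hxx', Or.inl ⟨hxC, hx'⟩⟩)
        s(y, y') ((mem_bd_iff X C y y').2 ⟨hyy', Or.inl ⟨hyC, hy'⟩⟩) x (by simp) y (by simp)

end Pool.Agent.ACC
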