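import Pool.Agent.ACC.Lib

set_option autoImplicit false

namespace Pool.Agent.ACC

namespace FIN_

/-- The group of all permutations which preserve adjacency. -/
def autG {V : Type} (X : SimpleGraph V) : Subgroup (Equiv.Perm V) where
  carrier := {g | ∀ x y, X.Adj (g x) (g y) ↔ X.Adj x y}
  mul_mem' := by
    intro a b ha hb x y
    rw [Equiv.Perm.mul_apply, Equiv.Perm.mul_apply, ha, hb]
  one_mem' := fun x y => Iff.rfl
  inv_mem' := by
    intro a ha
    exact adj_inv ha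

theorem autG_isAut {V : Type} (X : SimpleGraph V) : IsAut X (autG X) := fun _ hg => hg

end FIN_

open FIN_ in
theorem fin_proof (h1 : Stmt_SPR) (h2 : Stmt_POW) (h3 : Stmt_END) (h4 : Stmt_MAIN) :
    Stmt_FIN := by
  intro V X hX hlf hS hq
  obtain ⟨S, hS⟩ := hS
  have hvf : VertFin (autG X) := by
    refine ⟨(S : Set V), S.finite_toSet, fun x => ?_⟩
    obtain ⟨s, hs, φ, hφ⟩ := hS x
    exact ⟨φ.toEquiv, fun x y => φ.map_rel_iff, s, hs, hφ⟩
  obtain ⟨R, lam, t, Y, hR, hsp, hmf⟩ := h1 V X hX hq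
  obtain ⟨hc, hl, ha, hacc⟩ := h2 V X (autG X) R hX hlf (autG_isAut X) hR
  have := h4 V (pow X R) (autG X) hc hl ha hvf ⟨lam, t, Y, hsp, hmf⟩
  exact h3 V X hX hlf (hacc this)

end Pool.Agent.ACC
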