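import Pool.Agent.ACC.StmtsC
import Pool.Agent.ACC.LibB

/-!
MP_851278_al, squad ACD, module FIV: torsos with finite trace are finite, hence accessible.
-/

set_option autoImplicit false

namespace Pool.Agent.ACC

namespace FIV_

theorem acc_of_finite {W : Type} [Finite W] (X : SimpleGraph W) : Acc X := by
  have : Finite (Sym2 W) := by
    have : Finite (W × W) := inferInstance
    exact Quot.finite _
  refine ⟨(Set.univ : Set (Sym2 W)).ncard, fun A _ => Gen.base A ⟨Set.toFinite _, ?_⟩⟩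
  exact Set.ncard_le_ncard (Set.subset_univ _) Set.finite_univ

end FIV_

theorem fiv_proof (hHUA : Stmt_HUA) (_hTFA : Stmt_TFA) : Stmt_FIV := by
  intro V X G E v N hX hN hv hZ
  obtain ⟨h1, h2, h3, h4⟩ := hHUA V E v hN.toNestSet hv
  have hsurj : ∀ u : TV v, ∃ x : ZZ X v, tproj v x = u := by
    intro u
    obtain ⟨x, rfl⟩ := Quot.exists_rep u
    by_cases hx : ∀ C ∈ Hub v, x ∉ C
    · exact ⟨⟨x, Or.inl hx⟩, rfl⟩
    · push Not at hx
      obtain ⟨C, hC, hxC⟩ := hx
      have hCE : C ∈ E := h1 C hC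
      have hne : Cᶜ.Nonempty := hN.ne _ (hN.compl C hCE)
      obtain ⟨e, a, b, hab, ha, hb, rfl⟩ := bd_nonempty hX ⟨x, hxC⟩ hne
      refine ⟨⟨a, Or.inr ⟨C, hC, b, a, b, hab, ha, hb, rfl⟩⟩, ?_⟩
      exact (h4 a x).2 (Or.inr ⟨C, hC, ha, hxC⟩)
  have : Finite (ZZ X v) := hZ
  have : Finite (TV v) := Finite.of_surjective (fun x : ZZ X v => tproj v x) hsurj
  exact FIV_.acc_of_finite _

end Pool.Agent.ACC
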