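import Pool.Agent.ACC.StmtsC
import Pool.Agent.ACC.LibB

/-!
MP_851278_al, squad ACD, module FLF: every vertex of the quotient is in finitely many large faces.
-/

set_option autoImplicit false

namespace Pool.Agent.ACC

theorem flf_proof : Stmt_FLF := by
  intro V U X R lam p K F a c D u
  have hW : {x | x ∈ Zp X p ∧ p x = u}.Finite := by
    have hfin : (⋃ e ∈ bd X (p ⁻¹' {u}), {x | x ∈ e}).Finite := by
      apply Set.Finite.biUnion (D.fb u)
      intro e _
      induction e with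
      | _ x y =>
        apply Set.Finite.subset ((Set.finite_singleton x).union (Set.finite_singleton y))
        intro z hz
        rw [Set.mem_ofPred_eq, Sym2.mem_iff] at hz
        rcases hz with hz | hz
        · exact Or.inl hz
        · exact Or.inr hz
    apply hfin.subset
    rintro x ⟨⟨y, hxy, hne⟩, hx⟩
    refine Set.mem_biUnion (x := s(x, y)) ?_ ?_
    · refine ⟨x, y, hxy, hx, ?_, rfl⟩
      intro hy
      exact hne (hx.trans (Set.mem_preimage.mp hy).symm)
    · show x ∈ s(x, y)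
      exact Sym2.mem_mk_left x y
  have hQ : {q : V × V | R.P.Adj q.1 q.2 ∧ ∃ x, (x ∈ Zp X p ∧ p x = u) ∧
      X.dist x q.1 ≤ c}.Finite := by
    have hfin : (⋃ x ∈ {x | x ∈ Zp X p ∧ p x = u}, ⋃ z ∈ ball X x c,
        (fun y => (z, y)) '' {y | R.P.Adj z y}).Finite := by
      apply Set.Finite.biUnion hW
      intro x _
      apply Set.Finite.biUnion (ball_finite D.con D.lf x c)
      intro z _
      exact (R.fin_nb z).image _
    apply hfin.subset
    rintro ⟨z, y⟩ ⟨hadj, x, hx, hd⟩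
    refine Set.mem_biUnion (x := x) hx ?_
    refine Set.mem_biUnion (x := z) hd ?_
    exact ⟨y, hadj, rfl⟩
  have key : ∀ S, (S ∈ F ∧ u ∈ S) → ∃ q ∈ {q : V × V | R.P.Adj q.1 q.2 ∧
      ∃ x, (x ∈ Zp X p ∧ p x = u) ∧ X.dist x q.1 ≤ c}, R.Eqv (a S) q := by
    rintro S ⟨hS, hu⟩
    obtain ⟨z, _, ⟨y, hy, he⟩, x, hx, hxu, hd⟩ := D.near S hS u hu
    exact ⟨(z, y), ⟨hy, x, ⟨hx, hxu⟩, hd⟩, he⟩
  haveI : Nonempty (V × V) := ⟨a ∅⟩
  choose! f hf1 hf2 using key
  refine Set.Finite.of_injOn (f := f) (fun S hS => hf1 S hS) ?_ hQ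
  intro S hS T hT h
  refine D.inj S hS.1 T hT.1 (R.eqv_trans (hf2 S hS) ?_)
  rw [h]
  exact R.eqv_symm (hf2 T hT)

end Pool.Agent.ACC
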