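import Pool.Agent.ACC.StmtsA

set_option autoImplicit false

namespace Pool.Agent.ACC

theorem HHP_.two (a : ZMod 2) : a + a = 0 := by
  have : (2 : ZMod 2) = 0 := by decide
  rw [← two_mul, this, zero_mul]

/-- finiteness of the potential -/
theorem HHP_.fin {V : Type} {E : Set (Set V)} (hE : NestSet E)
    (hfin : ∀ x y : V, {B | B ∈ E ∧ x ∈ B ∧ y ∉ B}.Finite) {v : Set (Set V)} (hv : IsVtx E v)
    (x : V) : {B | B ∈ v ∧ x ∉ B}.Finite := by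
  rcases Set.eq_empty_or_nonempty v with h0 | ⟨B0, hB0⟩
  · subst h0
    have : {B : Set V | B ∈ (∅ : Set (Set V)) ∧ x ∉ B} = ∅ := by
      ext B; simp
    rw [this]
    exact Set.finite_empty
  · obtain ⟨C0, hC0, -, hmin⟩ := hv.wf B0 hB0
    have hC0E : C0 ∈ E := hv.sub hC0
    have hCE : C0ᶜ ∈ E := hE.compl _ hC0E
    obtain ⟨c', hc'⟩ := hE.ne _ hC0E
    obtain ⟨c, hc⟩ := hE.ne _ hCE
    refine ((hfin c' x).union (hfin c x)).subset ?_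
    rintro B ⟨hB, hxB⟩
    have hBE : B ∈ E := hv.sub hB
    rcases hE.nested C0 hC0E B hBE with h | h | h | h
    · exact Or.inl ⟨hBE, h hc', hxB⟩
    · exact absurd (hv.up C0 hC0 Bᶜ (hE.compl _ hBE) h) (hv.excl B hB)
    · exact Or.inr ⟨hBE, h hc, hxB⟩
    · have h1 : B ⊆ C0 := Set.compl_subset_compl.mp h
      have h2 : B = C0 := hmin B hB h1
      subst h2
      exact Or.inl ⟨hBE, hc', hxB⟩

theorem HHP_.base {V : Type} {E : Set (Set V)} (hE : NestSet E)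
    (hfin : ∀ x y : V, {B | B ∈ E ∧ x ∈ B ∧ y ∉ B}.Finite) (f : Set V → ZMod 2)
    (hf : ∀ A ∈ E, f Aᶜ = f A) {v : Set (Set V)} (hv : IsVtx E v)
    (x y : V) : hh f v x + hh f v y = sig E f x y := by
  have hPf := HHP_.fin hE hfin hv x
  have hQf := HHP_.fin hE hfin hv y
  set P : Set (Set V) := {B | B ∈ v ∧ x ∉ B} with hP
  set Q : Set (Set V) := {B | B ∈ v ∧ y ∉ B} with hQ
  set R : Set (Set V) := {B | B ∈ v ∧ x ∉ B ∧ y ∉ B} with hR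
  set S1 : Set (Set V) := {B | B ∈ v ∧ x ∉ B ∧ y ∈ B} with hS1
  set S2 : Set (Set V) := {B | B ∈ v ∧ x ∈ B ∧ y ∉ B} with hS2
  set S3 : Set (Set V) := {B | B ∈ E ∧ B ∉ v ∧ x ∈ B ∧ y ∉ B} with hS3
  have hRf : R.Finite := hPf.subset (fun B hB => ⟨hB.1, hB.2.1⟩)
  have hS1f : S1.Finite := hPf.subset (fun B hB => ⟨hB.1, hB.2.1⟩)
  have hS2f : S2.Finite := hQf.subset (fun B hB => ⟨hB.1, hB.2.2⟩)
  have hS3f : S3.Finite := (hfin x y).subset (fun B hB => ⟨hB.1, hB.2.2⟩)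
  have h1 : hh f v x = (∑ᶠ B ∈ R, f B) + ∑ᶠ B ∈ S1, f B := by
    have : P = R ∪ S1 := by
      ext B
      constructor
      · rintro ⟨ha, hb⟩
        by_cases hy : y ∈ B
        · exact Or.inr ⟨ha, hb, hy⟩
        · exact Or.inl ⟨ha, hb, hy⟩
      · rintro (⟨ha, hb, hc⟩ | ⟨ha, hb, hc⟩)
        · exact ⟨ha, hb⟩
        · exact ⟨ha, hb⟩
    unfold hh
    rw [← hP, this]
    refine finsum_mem_union ?_ hRf hS1f
    rw [Set.disjoint_left]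
    rintro B ⟨-, -, h⟩ ⟨-, -, h'⟩
    exact h h'
  have h2 : hh f v y = (∑ᶠ B ∈ R, f B) + ∑ᶠ B ∈ S2, f B := by
    have : Q = R ∪ S2 := by
      ext B
      constructor
      · rintro ⟨ha, hb⟩
        by_cases hy : x ∈ B
        · exact Or.inr ⟨ha, hy, hb⟩
        · exact Or.inl ⟨ha, hy, hb⟩
      · rintro (⟨ha, hb, hc⟩ | ⟨ha, hb, hc⟩)
        · exact ⟨ha, hc⟩
        · exact ⟨ha, hc⟩
    unfold hh
    rw [← hQ, this]
    refine finsum_mem_union ?_ hRf hS2f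
    rw [Set.disjoint_left]
    rintro B ⟨-, h, -⟩ ⟨-, h', -⟩
    exact h h'
  have h3 : sig E f x y = (∑ᶠ B ∈ S2, f B) + ∑ᶠ B ∈ S3, f B := by
    have : {A : Set V | A ∈ E ∧ x ∈ A ∧ y ∉ A} = S2 ∪ S3 := by
      ext B
      constructor
      · rintro ⟨ha, hb, hc⟩
        by_cases hy : B ∈ v
        · exact Or.inl ⟨hy, hb, hc⟩
        · exact Or.inr ⟨ha, hy, hb, hc⟩
      · rintro (⟨ha, hb, hc⟩ | ⟨ha, hb, hc⟩)
        · exact ⟨hv.sub ha, hb, hc⟩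
        · exact ⟨ha, hc⟩
    unfold sig
    rw [this]
    refine finsum_mem_union ?_ hS2f hS3f
    rw [Set.disjoint_left]
    rintro B ⟨h, -⟩ ⟨-, h', -⟩
    exact h' h
  have h4 : (∑ᶠ B ∈ S3, f B) = ∑ᶠ B ∈ S1, f B := by
    refine finsum_mem_eq_of_bijOn compl ⟨?_, ?_, ?_⟩ ?_
    · rintro B ⟨ha, hb, hc, hd⟩
      refine ⟨(hv.total B ha).resolve_left hb, ?_, ?_⟩
      · rw [Set.mem_compl_iff, not_not]; exact hc
      · exact hd
    · intro B _ B' _ h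
      exact compl_injective h
    · rintro B ⟨ha, hb, hc⟩
      refine ⟨Bᶜ, ⟨hE.compl _ (hv.sub ha), hv.excl B ha, hb, ?_⟩, compl_compl B⟩
      rw [Set.mem_compl_iff, not_not]; exact hc
    · rintro B ⟨ha, hb, hc, hd⟩
      exact (hf B ha).symm
  rw [h1, h2, h3, h4]
  have := HHP_.two (∑ᶠ B ∈ R, f B)
  linear_combination this

theorem HHP_.cob {V : Type} {E : Set (Set V)} (hE : NestSet E)
    (hfin : ∀ x y : V, {B | B ∈ E ∧ x ∈ B ∧ y ∉ B}.Finite) (f : Set V → ZMod 2)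
    (hf : ∀ A ∈ E, f Aᶜ = f A) {A : Set V} (hA : A ∈ E) (x : V) (hx : x ∉ A) :
    f A = hh f (vof E A) x + hh f (vof E Aᶜ) x := by
  have hAc : Aᶜ ∈ E := hE.compl _ hA
  obtain ⟨a, ha⟩ := hE.ne _ hA
  obtain ⟨a', ha'⟩ := hE.ne _ hAc
  set W : Set (Set V) := {B | B ∈ E ∧ ((A ⊆ B ∧ B ≠ A) ∨ (Aᶜ ⊆ B ∧ B ≠ Aᶜ)) ∧ x ∉ B} with hW
  have hWf : W.Finite := by
    refine ((hfin a x).union (hfin a' x)).subset ?_
    rintro B ⟨h1, (⟨h2, -⟩ | ⟨h2, -⟩), h3⟩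
    · exact Or.inl ⟨h1, h2 ha, h3⟩
    · exact Or.inr ⟨h1, h2 ha', h3⟩
  have hAW : A ∉ W := by
    rintro ⟨-, (⟨-, h⟩ | ⟨h, -⟩), -⟩
    · exact h rfl
    · exact ha' (h ha')
  have h1 : {B : Set V | B ∈ vof E A ∧ x ∉ B} = insert A W := by
    ext B
    constructor
    · rintro ⟨⟨h1, h2⟩, h3⟩
      by_cases hBA : B = A
      · exact Or.inl hBA
      · rcases h2 with h2 | h2
        · exact Or.inr ⟨h1, Or.inl ⟨h2, hBA⟩, h3⟩
        · exact Or.inr ⟨h1, Or.inr h2, h3⟩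
    · rintro (h | ⟨h1, (h2 | h2), h3⟩)
      · subst h
        exact ⟨⟨hA, Or.inl subset_rfl⟩, hx⟩
      · exact ⟨⟨h1, Or.inl h2.1⟩, h3⟩
      · exact ⟨⟨h1, Or.inr h2⟩, h3⟩
  have h2 : {B : Set V | B ∈ vof E Aᶜ ∧ x ∉ B} = W := by
    ext B
    constructor
    · rintro ⟨⟨h1, h2⟩, h3⟩
      rw [compl_compl] at h2
      rcases h2 with h2 | h2
      · refine ⟨h1, Or.inr ⟨h2, ?_⟩, h3⟩
        rintro rfl
        exact h3 hx
      · exact ⟨h1, Or.inl h2, h3⟩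
    · rintro ⟨h1, (h2 | h2), h3⟩
      · refine ⟨⟨h1, Or.inr ?_⟩, h3⟩
        rw [compl_compl]
        exact h2
      · exact ⟨⟨h1, Or.inl h2.1⟩, h3⟩
  unfold hh
  rw [h1, h2, finsum_mem_insert f hAW hWf]
  have := HHP_.two (∑ᶠ B ∈ W, f B)
  linear_combination -this

theorem hhp_proof : Stmt_HHP := by
  intro V E f hE hfin hf
  refine ⟨fun v hv x => HHP_.fin hE hfin hv x, fun v hv x y => HHP_.base hE hfin f hf hv x y, ?_⟩
  intro A hA x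
  by_cases hx : x ∈ A
  · have h := HHP_.cob hE hfin f hf (hE.compl _ hA) x (fun h => h hx)
    rw [compl_compl, hf A hA] at h
    rw [h, add_comm]
  · exact HHP_.cob hE hfin f hf hA x hx

end Pool.Agent.ACC
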