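import Pool.Agent.ACC.Lib

/-!
MP_851278_al, module HUA: elementary facts on hubs.
-/

set_option autoImplicit false

namespace Pool.Agent.ACC

namespace HUA_

variable {V : Type}

theorem hub_mem {E v : Set (Set V)} (hE : NestSet E) (hv : IsVtx E v) {C : Set V}
    (hC : C ∈ Hub v) : C ∈ E := by
  have h1 := hE.compl _ (hv.sub hC.1)
  rwa [compl_compl] at h1

theorem hub_disj {E v : Set (Set V)} (hE : NestSet E) (hv : IsVtx E v) {C C' : Set V}
    (hC : C ∈ Hub v) (hC' : C' ∈ Hub v) (hne : C ≠ C') : Disjoint C C' := by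
  rcases hE.nested C (hub_mem hE hv hC) C' (hub_mem hE hv hC') with h | h | h | h
  · have h1 : C'ᶜ ⊆ Cᶜ := Set.compl_subset_compl.2 h
    have h2 := hC.2 _ hC'.1 h1
    exact absurd (compl_injective h2).symm hne
  · rw [Set.disjoint_left]
    intro x hx hx'
    exact h hx hx'
  · have h1 : C' ∈ v := hv.up _ hC.1 C' (hub_mem hE hv hC') h
    have h2 := hv.excl _ h1
    exact absurd hC'.1 h2
  · have h1 : C' ⊆ C := Set.compl_subset_compl.1 h
    have h2 : Cᶜ ⊆ C'ᶜ := h
    have h3 := hC'.2 _ hC.1 h2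
    exact absurd (compl_injective h3) hne

theorem hub_cover {E v : Set (Set V)} (hv : IsVtx E v) {B : Set V} (hB : B ∈ v) :
    ∃ C ∈ Hub v, Bᶜ ⊆ C := by
  obtain ⟨C, hC, hCB, hmin⟩ := hv.wf B hB
  refine ⟨Cᶜ, ⟨?_, ?_⟩, Set.compl_subset_compl.2 hCB⟩
  · rw [compl_compl]; exact hC
  · rw [compl_compl]; exact hmin

theorem hubRel_equiv {E v : Set (Set V)} (hE : NestSet E) (hv : IsVtx E v) :
    Equivalence (hubRel (Hub v)) := by
  refine ⟨fun x => Or.inl rfl, ?_, ?_⟩
  · rintro x y (rfl | ⟨C, hC, hx, hy⟩)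
    · exact Or.inl rfl
    · exact Or.inr ⟨C, hC, hy, hx⟩
  · rintro x y z (rfl | ⟨C, hC, hx, hy⟩) hyz
    · exact hyz
    · rcases hyz with rfl | ⟨C', hC', hy', hz'⟩
      · exact Or.inr ⟨C, hC, hx, hy⟩
      · by_cases hCC : C = C'
        · subst hCC
          exact Or.inr ⟨C, hC, hx, hz'⟩
        · have := hub_disj hE hv hC hC' hCC
          exact absurd hy' (Set.disjoint_left.1 this hy)

end HUA_

theorem hua_proof : Stmt_HUA := by
  intro V E v hE hv
  refine ⟨fun C hC => HUA_.hub_mem hE hv hC,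
    fun C hC C' hC' hne => HUA_.hub_disj hE hv hC hC' hne, ?_, ?_⟩
  · intro B hB
    rcases hv.total B hB with h | h
    · obtain ⟨C, hC, hBC⟩ := HUA_.hub_cover hv h
      exact ⟨C, hC, Or.inr hBC⟩
    · obtain ⟨C, hC, hBC⟩ := HUA_.hub_cover hv h
      rw [compl_compl] at hBC
      exact ⟨C, hC, Or.inl hBC⟩
  · intro x y
    unfold tproj
    constructor
    · intro h
      have h1 := Quot.eqvGen_exact h
      exact (Equivalence.eqvGen_iff (HUA_.hubRel_equiv hE hv)).1 h1
    · intro h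
      exact Quot.sound h

end Pool.Agent.ACC
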