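import Pool.Agent.ACC.Lib

/-!
MP_851278_al, module HUD: a vertex of the tree is determined by one of its hubs.
-/

set_option autoImplicit false

namespace Pool.Agent.ACC

namespace HUD_

variable {V : Type}

theorem back {E v : Set (Set V)} (hv : IsVtx E v) {C B : Set V}
    (hC : C ∈ Hub v) (hB : B ∈ E) (h : (C ⊆ B ∧ B ≠ C) ∨ Bᶜ ⊆ C) : B ∈ v := by
  rcases h with ⟨h1, h2⟩ | h
  · by_contra hn
    have hc : Bᶜ ∈ v := by
      rcases hv.total B hB with h3 | h3
      · exact absurd h3 hn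
      · exact h3
    have h4 := hC.2 _ hc (Set.compl_subset_compl.2 h1)
    exact h2 (compl_injective h4)
  · exact hv.up _ hC.1 B hB (Set.compl_subset_comm.1 h)

theorem iff {E v : Set (Set V)} (hE : NestSet E) (hv : IsVtx E v) {C B : Set V}
    (hC : C ∈ Hub v) (hB : B ∈ E) : B ∈ v ↔ (C ⊆ B ∧ B ≠ C) ∨ Bᶜ ⊆ C := by
  have hCE : C ∈ E := by
    have h1 := hE.compl _ (hv.sub hC.1)
    rwa [compl_compl] at h1
  refine ⟨fun h => ?_, back hv hC hB⟩
  have hBn : Bᶜ ∉ v := hv.excl B h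
  rcases hE.nested C hCE B hB with h1 | h1 | h1 | h1
  · left
    refine ⟨h1, fun h2 => ?_⟩
    rw [h2] at hBn
    exact hBn hC.1
  · by_cases h2 : Bᶜ = C
    · right; rw [h2]
    · exact absurd (back hv hC (hE.compl B hB) (Or.inl ⟨h1, h2⟩)) hBn
  · right
    exact Set.compl_subset_comm.1 h1
  · exact absurd (hv.up _ hC.1 _ (hE.compl B hB) h1) hBn

end HUD_

theorem hud_proof : Stmt_HUD := by
  intro V E v v' C hE hv hv' hC hC'
  ext B
  constructor
  · intro h
    have hB := hv.sub h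
    exact (HUD_.iff hE hv' hC' hB).2 ((HUD_.iff hE hv hC hB).1 h)
  · intro h
    have hB := hv'.sub h
    exact (HUD_.iff hE hv hC hB).2 ((HUD_.iff hE hv' hC' hB).1 h)

end Pool.Agent.ACC
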