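import Pool.Agent.ACC.Defs

/-!
MP_851278_al (frozen S02151), PART I: statements of the modules.
Every module XXX proves `Stmt_XXX` (theorem `xxx_proof`), possibly from other statements.
-/

set_option autoImplicit false

namespace Pool.Agent.ACC

/-! ### A. Finite bonds -/

/-- A vertex set is determined by its boundary up to complement. -/
def Stmt_BDI : Prop := ∀ (V : Type) (X : SimpleGraph V), X.Connected → ∀ A B : Set V,
  bd X A = bd X B → A = B ∨ A = Bᶜ

/-- Finitely many bonds with at most `k` edges through a given edge; no local finiteness. -/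
def Stmt_FBL : Prop := ∀ (V : Type) (X : SimpleGraph V), X.Connected → ∀ (k : ℕ) (e : Sym2 V),
  {A : Set V | IsBond X A ∧ (bd X A).ncard ≤ k ∧ e ∈ bd X A}.Finite

/-- A finite vertex set is connected by a finite set of edges. -/
def Stmt_FCS : Prop := ∀ (V : Type) (X : SimpleGraph V), X.Connected → ∀ S : Set V, S.Finite →
  ∃ F : Set (Sym2 V), F.Finite ∧ F ⊆ X.edgeSet ∧
    ∀ B : Set V, Disjoint (bd X B) F → S ⊆ B ∨ S ⊆ Bᶜ

/-- Only finitely many bonds of bounded size cross a given set whose boundary edges are covered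
by finitely many vertices (in particular a finite cut). -/
def Stmt_CRF : Prop := ∀ (V : Type) (X : SimpleGraph V), X.Connected → ∀ (n : ℕ) (A S : Set V),
  S.Finite → (∀ e ∈ bd X A, ∃ x ∈ S, x ∈ e) →
  {B : Set V | IsBond X B ∧ (bd X B).ncard ≤ n ∧ ¬ Nested A B}.Finite

/-- A cut which is not generated by smaller cuts is a bond. -/
def Stmt_BNN : Prop := ∀ (V : Type) (X : SimpleGraph V), X.Connected → ∀ (n : ℕ) (A : Set V),
  (bd X A).Finite → (bd X A).ncard = n + 1 → ¬ Gen (Small X n) A → IsBond X A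

/-! ### B. Dicks-Dunwoody families -/

/-- Uncrossing with the lower levels. -/
def Stmt_DDA : Prop := ∀ (V : Type) (X : SimpleGraph V), X.Connected → ∀ (n : ℕ)
  (F : Set (Set V)), Good X n F → ∀ A ∈ Small X (n + 1), Gen (Small X n ∪ NestN X n F) A

/-- The new family generates all new nested cuts. -/
def Stmt_DDB : Prop := ∀ (V : Type) (X : SimpleGraph V), X.Connected → ∀ (n : ℕ)
  (F : Set (Set V)), Good X n F → ∀ A ∈ NestN X n F, Gen (StepF X n F) A

/-- The new family is nested. -/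
def Stmt_DDC : Prop := ∀ (V : Type) (X : SimpleGraph V), X.Connected → ∀ (n : ℕ)
  (F : Set (Set V)), Good X n F → ∀ A ∈ StepF X n F, ∀ B ∈ StepF X n F, Nested A B

/-- The induction step. -/
def Stmt_DDG : Prop := ∀ (V : Type) (X : SimpleGraph V), X.Connected → ∀ (n : ℕ)
  (F : Set (Set V)), Good X n F → Good X (n + 1) (StepF X n F)

/-- All levels are good. -/
def Stmt_DDF : Prop := ∀ (V : Type) (X : SimpleGraph V), X.Connected → ∀ n : ℕ,
  Good X n (EE X n)

/-- The families are canonical. -/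
def Stmt_DDE : Prop := ∀ (V : Type) (X : SimpleGraph V) (g : Equiv.Perm V),
  (∀ x y, X.Adj (g x) (g y) ↔ X.Adj x y) → ∀ (n : ℕ) (A : Set V), A ∈ EE X n → g '' A ∈ EE X n

/-- Finitely many orbits of bonds of bounded size. -/
def Stmt_BDO : Prop := ∀ (V : Type) (X : SimpleGraph V) (G : Subgroup (Equiv.Perm V)),
  X.Connected → IsAut X G → EdgeFin X G → ∀ m : ℕ,
  SetFin G {A | IsBond X A ∧ (bd X A).ncard ≤ m}

/-- Bonds of bounded size have bounded diameter. -/
def Stmt_BDD : Prop := ∀ (V : Type) (X : SimpleGraph V) (G : Subgroup (Equiv.Perm V)),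
  X.Connected → IsAut X G → EdgeFin X G → ∀ m : ℕ, ∃ c : ℕ, ∀ A : Set V, IsBond X A →
  (bd X A).ncard ≤ m → ∀ e ∈ bd X A, ∀ e' ∈ bd X A, ∀ x ∈ e, ∀ y ∈ e', X.dist x y ≤ c

/-- The families `EE X n` are nested families in the sense of `NestFam`. -/
def Stmt_NFE : Prop := ∀ (V : Type) (X : SimpleGraph V) (G : Subgroup (Equiv.Perm V)),
  X.Connected → IsAut X G → EdgeFin X G → ∀ n : ℕ, NestFam X G (EE X n) n

/-! ### C. Vertices of the structure tree, torsos -/

/-- Elementary facts on hubs. -/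
def Stmt_HUA : Prop := ∀ (V : Type) (E v : Set (Set V)), NestSet E → IsVtx E v →
  (∀ C ∈ Hub v, C ∈ E) ∧ (∀ C ∈ Hub v, ∀ C' ∈ Hub v, C ≠ C' → Disjoint C C') ∧
  (∀ B ∈ E, ∃ C ∈ Hub v, B ⊆ C ∨ Bᶜ ⊆ C) ∧
  (∀ x y : V, tproj v x = tproj v y ↔ hubRel (Hub v) x y)

/-- A vertex of the tree is determined by one of its hubs. -/
def Stmt_HUD : Prop := ∀ (V : Type) (E v v' : Set (Set V)) (C : Set V), NestSet E → IsVtx E v →
  IsVtx E v' → C ∈ Hub v → C ∈ Hub v' → v = v'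

/-- `vof E A` is a vertex of the tree with hub `Aᶜ`. -/
def Stmt_VAB : Prop := ∀ (V : Type) (E : Set (Set V)) (A : Set V), NestSet E →
  (∀ x y : V, {B | B ∈ E ∧ x ∈ B ∧ y ∉ B}.Finite) → A ∈ E → IsVtx E (vof E A) ∧ Aᶜ ∈ Hub (vof E A)

/-- Finitely many orbits of vertices of the tree. -/
def Stmt_HUF : Prop := ∀ (V : Type) (X : SimpleGraph V) (G : Subgroup (Equiv.Perm V))
  (E : Set (Set V)) (N : ℕ), IsAut X G → NestFam X G E N →
  ∃ F : Set (Set (Set V)), F.Finite ∧ (∀ v ∈ F, IsVtx E v) ∧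
    ∀ v, IsVtx E v → ∃ g ∈ G, ∃ v0 ∈ F, v = (fun A : Set V => g '' A) '' v0

/-- The torso is connected, and locally finite if the graph is. -/
def Stmt_TOC : Prop := ∀ (V : Type) (X : SimpleGraph V) (G : Subgroup (Equiv.Perm V))
  (E v : Set (Set V)) (N : ℕ), X.Connected → NestFam X G E N → IsVtx E v →
  (torso X v).Connected ∧ (LocFin X → LocFin (torso X v))

/-- Cuts of the torso and cuts of the graph. -/
def Stmt_TOE : Prop := ∀ (V : Type) (X : SimpleGraph V) (G : Subgroup (Equiv.Perm V))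
  (E v : Set (Set V)) (N : ℕ), NestFam X G E N → IsVtx E v → ∀ U : Set (TV v),
  ((bd (torso X v) U).Finite → (bd X (tproj v ⁻¹' U)).Finite ∧
    (bd X (tproj v ⁻¹' U)).ncard ≤ (N + 1) * (bd (torso X v) U).ncard) ∧
  ((bd X (tproj v ⁻¹' U)).Finite → (bd (torso X v) U).Finite)

/-- The induced group acts on the torso with finitely many orbits. -/
def Stmt_TOG : Prop := ∀ (V : Type) (X : SimpleGraph V) (G : Subgroup (Equiv.Perm V))
  (E v : Set (Set V)) (N : ℕ), X.Connected → IsAut X G → NestFam X G E N → IsVtx E v →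
  IsAut (torso X v) (torsoG G v) ∧
  (VertFin G → VertFin (torsoG G v)) ∧ (EdgeFin X G → EdgeFin (torso X v) (torsoG G v))

/-- A finite cut nested with all of `E` lives in a torso. -/
def Stmt_TOV : Prop := ∀ (V : Type) (X : SimpleGraph V) (G : Subgroup (Equiv.Perm V))
  (E : Set (Set V)) (N : ℕ), NestFam X G E N → ∀ A : Set V, A.Nonempty → Aᶜ.Nonempty →
  A ∉ E → (∀ B ∈ E, Nested A B) → ∃ v, IsVtx E v ∧ ∀ C ∈ Hub v, C ⊆ A ∨ C ⊆ Aᶜ

/-- Decomposition of a finite cut along `E`. -/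
def Stmt_DEC : Prop := ∀ (V : Type) (X : SimpleGraph V) (G : Subgroup (Equiv.Perm V))
  (E : Set (Set V)) (N : ℕ), NestFam X G E N → ∀ A : Set V, (bd X A).Finite →
  Gen (E ∪ {B | (bd X B).Finite ∧ ∀ C ∈ E, Nested B C}) A

/-- Accessible torsos imply accessibility. -/
def Stmt_TOA : Prop := ∀ (V : Type) (X : SimpleGraph V) (G : Subgroup (Equiv.Perm V))
  (E : Set (Set V)) (N : ℕ), X.Connected → IsAut X G → NestFam X G E N →
  (∀ v, IsVtx E v → Acc (torso X v)) → Acc X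

/-- Sets generated by `E` are finite or cofinite in every torso. -/
def Stmt_TFC : Prop := ∀ (V : Type) (E v : Set (Set V)), NestSet E → IsVtx E v → ∀ A : Set V,
  Gen E A → (tproj v '' A).Finite ∨ (tproj v '' Aᶜ).Finite

/-- If `E` generates all finite cuts then all finite cuts of the torsos are trivial. -/
def Stmt_TFF : Prop := ∀ (V : Type) (X : SimpleGraph V) (G : Subgroup (Equiv.Perm V))
  (E v : Set (Set V)) (N : ℕ), NestFam X G E N → IsVtx E v →
  (∀ A : Set V, (bd X A).Finite → Gen E A) → ∀ U : Set (TV v), (bd (torso X v) U).Finite →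
  U.Finite ∨ Uᶜ.Finite

/-- A graph of bounded degree all of whose finite cuts are trivial is accessible. -/
def Stmt_TFA : Prop := ∀ (V : Type) (X : SimpleGraph V) (d : ℕ),
  (∀ x, (X.neighborSet x).Finite ∧ (X.neighborSet x).ncard ≤ d) →
  (∀ U : Set V, (bd X U).Finite → U.Finite ∨ Uᶜ.Finite) → Acc X

/-! ### D. The criterion -/

/-- Cuts are even on closed walks. -/
def Stmt_CEV : Prop := ∀ (V : Type) (X : SimpleGraph V) (A : Set V) (l : List (Sym2 V)),
  IsCW X l → Even (cnt (bd X A) l)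

/-- A set of edges which is even on all closed walks is a cut. -/
def Stmt_CUT : Prop := ∀ (V : Type) (X : SimpleGraph V) (D : Set (Sym2 V)), X.Connected →
  D ⊆ X.edgeSet → (∀ l, IsCW X l → Even (cnt D l)) → ∃ A : Set V, bd X A = D

/-- Bonds are connected by the closed walks in `W` if finite cocycles of `W` are cuts. -/
def Stmt_WCB : Prop := ∀ (V : Type) (X : SimpleGraph V) (W : Set (List (Sym2 V)))
  (E : Set (Set V)), X.Connected → (∀ l ∈ W, IsCW X l) → CoCut X W → (∀ A ∈ E, IsBond X A) →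
  WConn E X W

/-- At a vertex of the tree without real vertices some closed walk in `W` meets three hubs. -/
def Stmt_NRV : Prop := ∀ (V : Type) (X : SimpleGraph V) (W : Set (List (Sym2 V)))
  (E v : Set (Set V)), X.Connected → NestSet E → (∀ l ∈ W, IsCW X l) → WConn E X W →
  IsVtx E v → (∀ x : V, ∃ C ∈ Hub v, x ∈ C) →
  ∃ l ∈ W, ∃ x y z : V, (∃ e ∈ l, x ∈ e) ∧ (∃ e ∈ l, y ∈ e) ∧ (∃ e ∈ l, z ∈ e) ∧
    ∃ C1 ∈ Hub v, ∃ C2 ∈ Hub v, ∃ C3 ∈ Hub v, C1 ≠ C2 ∧ C1 ≠ C3 ∧ C2 ≠ C3 ∧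
      x ∈ C1 ∧ y ∈ C2 ∧ z ∈ C3

/-- Three points in three hubs determine the vertex. -/
def Stmt_MED : Prop := ∀ (V : Type) (E v : Set (Set V)) (x y z : V) (C1 C2 C3 : Set V),
  NestSet E → IsVtx E v → C1 ∈ Hub v → C2 ∈ Hub v → C3 ∈ Hub v → C1 ≠ C2 → C1 ≠ C3 → C2 ≠ C3 →
  x ∈ C1 → y ∈ C2 → z ∈ C3 → v = med E x y z

/-- Additivity of the separation sum. -/
def Stmt_SIG : Prop := ∀ (V : Type) (E : Set (Set V)) (f : Set V → ZMod 2), NestSet E →
  (∀ x y : V, {B | B ∈ E ∧ x ∈ B ∧ y ∉ B}.Finite) → (∀ A ∈ E, f Aᶜ = f A) →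
  ∀ x y z : V, sig E f x z = sig E f x y + sig E f y z

/-- Finiteness and base change of the potential, and the function is its coboundary. -/
def Stmt_HHP : Prop := ∀ (V : Type) (E : Set (Set V)) (f : Set V → ZMod 2), NestSet E →
  (∀ x y : V, {B | B ∈ E ∧ x ∈ B ∧ y ∉ B}.Finite) → (∀ A ∈ E, f Aᶜ = f A) →
  (∀ v, IsVtx E v → ∀ x : V, {B | B ∈ v ∧ x ∉ B}.Finite) ∧
  (∀ v, IsVtx E v → ∀ x y : V, hh f v x + hh f v y = sig E f x y) ∧
  (∀ A ∈ E, ∀ x : V, f A = hh f (vof E A) x + hh f (vof E Aᶜ) x)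

/-- Dunwoody's count: the number of orbits of a nested invariant family of `W`-connected bonds
is bounded independently of the family. -/
def Stmt_LIA : Prop := ∀ (V : Type) (X : SimpleGraph V) (G : Subgroup (Equiv.Perm V))
  (W : Set (List (Sym2 V))), X.Connected → IsAut X G → EdgeFin X G → (∀ l ∈ W, IsCW X l) →
  ListFin G W → ∃ M : ℕ, ∀ (E : Set (Set V)) (N : ℕ), NestFam X G E N → WConn E X W →
  ∀ S : Finset (Set V), (∀ A ∈ S, A ∈ E) →
    (∀ A ∈ S, ∀ B ∈ S, ∀ g ∈ G, (g '' A = B ∨ g '' A = Bᶜ) → A = B) → S.card ≤ M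

/-- THE CRITERION: the Dicks-Dunwoody families stabilise. -/
def Stmt_CRT : Prop := ∀ (V : Type) (X : SimpleGraph V) (G : Subgroup (Equiv.Perm V))
  (W : Set (List (Sym2 V))), X.Connected → IsAut X G → EdgeFin X G → (∀ l ∈ W, IsCW X l) →
  ListFin G W → CoCut X W → ∃ N : ℕ, (∀ n, EE X n ⊆ EE X N) ∧
    (∀ A : Set V, (bd X A).Finite → Gen (EE X N) A) ∧ Acc X

/-! ### E. Small cocycles, traces of vertices of the tree -/

/-- BP lemma: small finite cocycles of bounded cycles are cuts. -/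
def Stmt_BPL : Prop := ∀ (V : Type) (X : SimpleGraph V) (G : Subgroup (Equiv.Perm V)),
  X.Connected → LocFin X → IsAut X G → VertFin G → ∀ b : ℕ, ∃ r : ℕ, ∀ D : Set (Sym2 V),
  D.Finite → D.ncard ≤ b → D ⊆ X.edgeSet →
  (∀ l, IsCW X l → l.length ≤ r → Even (cnt D l)) → ∃ A : Set V, bd X A = D

/-- The stabiliser acts on the trace with finitely many orbits. -/
def Stmt_ZCF : Prop := ∀ (V : Type) (X : SimpleGraph V) (G : Subgroup (Equiv.Perm V))
  (E v : Set (Set V)) (N : ℕ), IsAut X G → VertFin G → NestFam X G E N → IsVtx E v →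
  ∃ F : Set V, F.Finite ∧ F ⊆ ZZ X v ∧ ∀ x ∈ ZZ X v, ∃ g ∈ stabV G v, ∃ y ∈ F, g y = x

/-- The traces are coarsely connected, uniformly. -/
def Stmt_ZCC : Prop := ∀ (V : Type) (X : SimpleGraph V) (G : Subgroup (Equiv.Perm V))
  (E : Set (Set V)) (N : ℕ), X.Connected → IsAut X G → NestFam X G E N →
  ∃ c : ℕ, ∀ v, IsVtx E v → ∀ x ∈ ZZ X v, ∀ y ∈ ZZ X v,
    Relation.ReflTransGen (fun a b => b ∈ ZZ X v ∧ X.dist a b ≤ c) x y

/-- Hubs have small traces, and generated sets are finite or cofinite on the trace. -/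
def Stmt_ZFI : Prop := ∀ (V : Type) (X : SimpleGraph V) (G : Subgroup (Equiv.Perm V))
  (E v : Set (Set V)) (N : ℕ), NestFam X G E N → IsVtx E v →
  (∀ C ∈ Hub v, (C ∩ ZZ X v).Finite ∧ (C ∩ ZZ X v).ncard ≤ N) ∧
  (∀ A : Set V, Gen E A → (A ∩ ZZ X v).Finite ∨ (Aᶜ ∩ ZZ X v).Finite)

/-- Bonds with at most `k` edges are uniformly trivial on the traces of level `k`. -/
def Stmt_ZUB : Prop := ∀ (V : Type) (X : SimpleGraph V) (G : Subgroup (Equiv.Perm V)),
  X.Connected → LocFin X → IsAut X G → VertFin G → ∀ k : ℕ, ∃ c : ℕ, ∀ v,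
  IsVtx (EE X k) v → ∀ U : Set V, IsBond X U → (bd X U).ncard ≤ k →
  ((U ∩ ZZ X v).Finite ∧ (U ∩ ZZ X v).ncard ≤ c) ∨
  ((Uᶜ ∩ ZZ X v).Finite ∧ (Uᶜ ∩ ZZ X v).ncard ≤ c)

/-- Large balls around points of an infinite trace of level `k` are not separated by `k` edges. -/
def Stmt_ZRH : Prop := ∀ (V : Type) (X : SimpleGraph V) (G : Subgroup (Equiv.Perm V)),
  X.Connected → LocFin X → IsAut X G → VertFin G → ∀ k : ℕ, ∃ rho : ℕ, ∀ v,
  IsVtx (EE X k) v → (ZZ X v).Infinite → ∀ x ∈ ZZ X v, ∀ y ∈ ZZ X v, ∀ D ∈ Small X k,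
  ¬ (ball X x rho ⊆ D ∧ ball X y rho ⊆ Dᶜ)

/-- Locally finite with finitely many orbits of vertices implies finitely many orbits of edges. -/
def Stmt_EFV : Prop := ∀ (V : Type) (X : SimpleGraph V) (G : Subgroup (Equiv.Perm V)),
  LocFin X → IsAut X G → VertFin G → EdgeFin X G

/-! ### F. The frozen statement -/

/-- Accessibility in the sense of `Acc` separates the ends. -/
def Stmt_END : Prop := ∀ (V : Type) (X : SimpleGraph V), X.Connected → LocFin X → Acc X →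
  ∃ k : ℕ, ∀ ω₁ ω₂ : X.end, ω₁ ≠ ω₂ →
    ∃ K : Finset V, K.card ≤ k ∧ ω₁.val (Opposite.op K) ≠ ω₂.val (Opposite.op K)

/-- Powers of a graph. -/
def Stmt_POW : Prop := ∀ (V : Type) (X : SimpleGraph V) (G : Subgroup (Equiv.Perm V)) (R : ℕ),
  X.Connected → LocFin X → IsAut X G → 1 ≤ R →
  (pow X R).Connected ∧ LocFin (pow X R) ∧ IsAut (pow X R) G ∧ (Acc (pow X R) → Acc X)

/-- Excluding some finite minor means excluding a complete minor. -/
def Stmt_MKT : Prop := ∀ (V' : Type) (G' : SimpleGraph V'),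
  (∃ (W : Type), Finite W ∧ ∃ H : SimpleGraph W,
          ¬ ∃ f : W → Set V', (∀ w, (G'.induce (f w)).Connected) ∧
            Pairwise (fun a b => Disjoint (f a) (f b)) ∧
            ∀ a b, H.Adj a b → ∃ x ∈ f a, ∃ y ∈ f b, G'.Adj x y) →
  ∃ t : ℕ, 3 ≤ t ∧ MinorFree t G'

/-- Contractions of connected cells do not create minors. -/
def Stmt_MCL : Prop := ∀ (V V'' : Type) (Y : SimpleGraph V) (Y'' : SimpleGraph V'')
  (K : V → Set V'') (t : ℕ), (∀ x, (Y''.induce (K x)).Connected) →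
  (∀ x y, x ≠ y → Disjoint (K x) (K y)) →
  (∀ x y, Y.Adj x y → ∃ a ∈ K x, ∃ b ∈ K y, Y''.Adj a b) → MinorFree t Y'' → MinorFree t Y

/-- Adding leaves does not create a `K_t` minor. -/
def Stmt_LFA : Prop := ∀ (V V' : Type) (G' : SimpleGraph V') (q : V → V') (t : ℕ), 3 ≤ t →
  MinorFree t G' → MinorFree t (leafG G' q)

/-- Voronoi cells around the leaves. -/
def Stmt_VOR : Prop := ∀ (V V' : Type) (X : SimpleGraph V) (G' : SimpleGraph V') (q : V → V')
  (C : ℕ), X.Connected → G'.Connected →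
  (∀ x y, G'.dist (q x) (q y) ≤ C * X.dist x y + C ∧
          X.dist x y ≤ C * G'.dist (q x) (q y) + C) →
  (∀ z, ∃ x, G'.dist z (q x) ≤ C) →
  ∃ (R lam : ℕ) (Y : SimpleGraph V) (K : V → Set (V' ⊕ V)), 1 ≤ R ∧
    (∀ x, ((leafG G' q).induce (K x)).Connected) ∧ (∀ x y, x ≠ y → Disjoint (K x) (K y)) ∧
    (∀ x y, Y.Adj x y → ∃ a ∈ K x, ∃ b ∈ K y, (leafG G' q).Adj a b) ∧
    Spanner (pow X R) Y lam

/-- The spanner reduction. -/
def Stmt_SPR : Prop := ∀ (V : Type) (X : SimpleGraph V), X.Connected →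
  (∃ (V' : Type) (G' : SimpleGraph V'), G'.Connected ∧
        (∃ (W : Type), Finite W ∧ ∃ H : SimpleGraph W,
          ¬ ∃ f : W → Set V', (∀ w, (G'.induce (f w)).Connected) ∧
            Pairwise (fun a b => Disjoint (f a) (f b)) ∧
            ∀ a b, H.Adj a b → ∃ x ∈ f a, ∃ y ∈ f b, G'.Adj x y) ∧
        ∃ (q : V → V') (C : ℕ),
          (∀ x y, G'.dist (q x) (q y) ≤ C * X.dist x y + C ∧
                  X.dist x y ≤ C * G'.dist (q x) (q y) + C) ∧
          ∀ z, ∃ x, G'.dist z (q x) ≤ C) →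
  ∃ (R lam t : ℕ) (Y : SimpleGraph V), 1 ≤ R ∧ Spanner (pow X R) Y lam ∧ MinorFree t Y

/-- THE MAIN THEOREM (Parts II and III). -/
def Stmt_MAIN : Prop := ∀ (V : Type) (X : SimpleGraph V) (G : Subgroup (Equiv.Perm V)),
  X.Connected → LocFin X → IsAut X G → VertFin G →
  (∃ (lam t : ℕ) (Y : SimpleGraph V), Spanner X Y lam ∧ MinorFree t Y) → Acc X

/-- The frozen statement S02151. -/
def Stmt_FIN : Prop :=
    ∀ (V : Type) (G : SimpleGraph V), G.Connected → (∀ v, (G.neighborSet v).Finite) →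
      (∃ S : Finset V, ∀ v : V, ∃ s ∈ S, ∃ φ : G ≃g G, φ s = v) →
      (∃ (V' : Type) (G' : SimpleGraph V'), G'.Connected ∧
        (∃ (W : Type), Finite W ∧ ∃ H : SimpleGraph W,
          ¬ ∃ f : W → Set V', (∀ w, (G'.induce (f w)).Connected) ∧
            Pairwise (fun a b => Disjoint (f a) (f b)) ∧
            ∀ a b, H.Adj a b → ∃ x ∈ f a, ∃ y ∈ f b, G'.Adj x y) ∧
        ∃ (q : V → V') (C : ℕ),
          (∀ x y, G'.dist (q x) (q y) ≤ C * G.dist x y + C ∧
                  G.dist x y ≤ C * G'.dist (q x) (q y) + C) ∧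
          ∀ z, ∃ x, G'.dist z (q x) ≤ C) →
      ∃ k : ℕ, ∀ ω₁ ω₂ : G.end, ω₁ ≠ ω₂ →
        ∃ K : Finset V, K.card ≤ k ∧ ω₁.val (Opposite.op K) ≠ ω₂.val (Opposite.op K)

/-! ### G. Menger and other classical tools -/

/-- Menger's theorem for two finite vertex sets of an arbitrary graph. -/
def Stmt_MEN : Prop := ∀ (V : Type) (P : SimpleGraph V) (A B : Set V) (k : ℕ), A.Finite →
  B.Finite →
  (∀ S : Set V, S.Finite → S.ncard < k → ∃ x ∈ A, ∃ y ∈ B, ∃ p : P.Walk x y,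
    ∀ v ∈ p.support, v ∉ S) →
  ∃ (a b : Fin k → V) (p : ∀ i, P.Walk (a i) (b i)),
    (∀ i, (p i).IsPath ∧ a i ∈ A ∧ b i ∈ B) ∧
    ∀ i j, i ≠ j → ∀ v ∈ (p i).support, v ∉ (p j).support

end Pool.Agent.ACC
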