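import Pool.Agent.ACC.Lib
import Pool.Agent.ACC.StmtsA

/-!
MP_851278_al, module HUF: finitely many orbits of vertices of the tree.
-/

set_option autoImplicit false

namespace Pool.Agent.ACC

namespace HUF_

variable {V : Type}

lemma img_inj (g : Equiv.Perm V) {A B : Set V} (h : g '' A = g '' B) : A = B :=
  (Set.image_injective.2 g.injective) h

lemma vtx_image {E v : Set (Set V)} {g : Equiv.Perm V} (h1 : ∀ A ∈ E, g '' A ∈ E)
    (h2 : ∀ A ∈ E, (g⁻¹ : Equiv.Perm V) '' A ∈ E) (hv : IsVtx E v) :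
    IsVtx E ((fun A : Set V => g '' A) '' v) where
  sub := by
    rintro _ ⟨A, hA, rfl⟩
    exact h1 A (hv.sub hA)
  total := by
    intro B hB
    rcases hv.total _ (h2 B hB) with h | h
    · left
      exact ⟨_, h, image_image_inv g B⟩
    · right
      refine ⟨_, h, ?_⟩
      show g '' ((g⁻¹ : Equiv.Perm V) '' B)ᶜ = Bᶜ
      rw [image_compl, image_image_inv]
  excl := by
    rintro _ ⟨A, hA, rfl⟩ ⟨C, hC, hCA⟩
    have hCA' : g '' C = g '' Aᶜ := by
      rw [image_compl]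
      exact hCA
    have := img_inj g hCA'
    rw [this] at hC
    exact hv.excl A hA hC
  up := by
    rintro _ ⟨A, hA, rfl⟩ C hC hAC
    refine ⟨(g⁻¹ : Equiv.Perm V) '' C, ?_, image_image_inv g C⟩
    apply hv.up A hA _ (h2 C hC)
    rw [← image_subset_image g, image_image_inv]
    exact hAC
  wf := by
    rintro _ ⟨A, hA, rfl⟩
    obtain ⟨C, hC, hCA, hmin⟩ := hv.wf A hA
    refine ⟨g '' C, ⟨C, hC, rfl⟩, (image_subset_image g C A).2 hCA, ?_⟩
    rintro _ ⟨D, hD, rfl⟩ hDC
    have h3 : D ⊆ C := (image_subset_image g D C).1 hDC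
    show g '' D = g '' C
    rw [hmin D hD h3]

lemma hub_image {v : Set (Set V)} {g : Equiv.Perm V} {C : Set V} (hC : C ∈ Hub v) :
    g '' C ∈ Hub ((fun A : Set V => g '' A) '' v) := by
  refine ⟨⟨Cᶜ, hC.1, image_compl g C⟩, ?_⟩
  rintro _ ⟨D, hD, rfl⟩ hDC
  have h1 : g '' D ⊆ g '' Cᶜ := by
    rw [image_compl]
    exact hDC
  have h2 : D = Cᶜ := hC.2 D hD ((image_subset_image g D Cᶜ).1 h1)
  show g '' D = (g '' C)ᶜ
  rw [h2, image_compl]

end HUF_

open HUF_ in
theorem huf_proof (h1 : Stmt_HUD) (h2 : Stmt_VAB) : Stmt_HUF := by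
  intro V X G E N hG hE
  obtain ⟨F0, hF0, hF0E, hF0r⟩ := hE.fin
  rcases E.eq_empty_or_nonempty with hem | ⟨B0, hB0⟩
  · -- the empty family
    by_cases hv0 : IsVtx E (∅ : Set (Set V))
    · refine ⟨{∅}, Set.finite_singleton _, ?_, ?_⟩
      · intro v hv
        rw [Set.mem_singleton_iff.1 hv]
        exact hv0
      · intro v hv
        refine ⟨1, G.one_mem, ∅, rfl, ?_⟩
        rw [Set.image_empty]
        apply Set.subset_empty_iff.1
        rw [← hem]
        exact hv.sub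
    · refine ⟨∅, Set.finite_empty, fun v hv => absurd hv (Set.notMem_empty v), ?_⟩
      intro v hv
      exfalso
      apply hv0
      have : v = ∅ := by
        apply Set.subset_empty_iff.1
        rw [← hem]
        exact hv.sub
      rw [← this]
      exact hv
  · have hvx : ∀ B ∈ F0, IsVtx E (vof E Bᶜ) ∧ Bᶜᶜ ∈ Hub (vof E Bᶜ) := fun B hB =>
      h2 V E Bᶜ hE.toNestSet hE.lf (hE.compl B (hF0E hB))
    refine ⟨(fun B => vof E Bᶜ) '' F0, hF0.image _, ?_, ?_⟩
    · rintro _ ⟨B, hB, rfl⟩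
      exact (hvx B hB).1
    · intro v hv
      -- a hub of v
      have hmem : ∃ B, B ∈ v := by
        rcases hv.total B0 hB0 with h | h
        · exact ⟨_, h⟩
        · exact ⟨_, h⟩
      obtain ⟨B, hB⟩ := hmem
      obtain ⟨D, hD, -, hmin⟩ := hv.wf B hB
      have hhub : Dᶜ ∈ Hub v := by
        refine ⟨by rw [compl_compl]; exact hD, ?_⟩
        intro D' hD' hsub
        rw [compl_compl] at hsub ⊢
        exact hmin D' hD' hsub
      have hDE : Dᶜ ∈ E := hE.compl D (hv.sub hD)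
      obtain ⟨g, hg, B1, hB1, hgB⟩ := hF0r _ hDE
      refine ⟨g, hg, _, ⟨B1, hB1, rfl⟩, ?_⟩
      have hv1 := (hvx B1 hB1).1
      have hh1 := (hvx B1 hB1).2
      have hvi : IsVtx E ((fun A : Set V => g '' A) '' (vof E B1ᶜ)) :=
        vtx_image (hE.inv g hg) (hE.inv g⁻¹ (G.inv_mem hg)) hv1
      have hhi : g '' B1 ∈ Hub ((fun A : Set V => g '' A) '' (vof E B1ᶜ)) := by
        rw [compl_compl] at hh1
        exact hub_image hh1
      rw [hgB] at hhi
      exact h1 V E v _ Dᶜ hE.toNestSet hv hvi hhub hhi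

end Pool.Agent.ACC
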