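import Pool.Agent.ACC.StmtsB

/-!
# HUL: neighbourhoods of coarsely connected sets are connected
-/

set_option autoImplicit false

namespace Pool.Agent.ACC

namespace HUL_

/-- joined inside `S` -/
def J {V : Type} (P : SimpleGraph V) (S : Set V) (x y : V) : Prop :=
  ∃ w : P.Walk x y, ∀ z ∈ w.support, z ∈ S

lemma J.symm {V : Type} {P : SimpleGraph V} {S : Set V} {x y : V} (h : J P S x y) :
    J P S y x := by
  obtain ⟨w, hw⟩ := h
  refine ⟨w.reverse, fun z hz => hw z ?_⟩
  rw [SimpleGraph.Walk.support_reverse] at hz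
  exact List.mem_reverse.1 hz

lemma J.trans {V : Type} {P : SimpleGraph V} {S : Set V} {x y z : V} (h : J P S x y)
    (h' : J P S y z) : J P S x z := by
  obtain ⟨w, hw⟩ := h
  obtain ⟨w', hw'⟩ := h'
  refine ⟨w.append w', fun u hu => ?_⟩
  rw [SimpleGraph.Walk.mem_support_append_iff] at hu
  rcases hu with hu | hu
  · exact hw u hu
  · exact hw' u hu

/-- geodesics from `s` stay in the ball -/
lemma geo {V : Type} {P : SimpleGraph V} (hP : P.Connected) {S : Set V} {r : ℕ} {s v : V}
    (hs : s ∈ S) (h : P.dist s v ≤ r) : J P (nbd P S r) s v := by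
  classical
  obtain ⟨w, hw⟩ := hP.exists_walk_length_eq_dist s v
  refine ⟨w, fun z hz => ⟨s, hs, ?_⟩⟩
  have h1 := SimpleGraph.dist_le (w.takeUntil z hz)
  have h2 := w.length_takeUntil_le_length hz
  omega

end HUL_

open HUL_

theorem hul_proof : Stmt_HUL := by
  intro V X P lam r S hsp hlr hS
  obtain ⟨_, hP, hd⟩ := hsp
  have hsub : ∀ s ∈ S, s ∈ nbd P S r := fun s hs =>
    ⟨s, hs, by rw [SimpleGraph.dist_self]; exact Nat.zero_le _⟩
  have key : ∀ (x y : V) (w : X.Walk x y), (∀ z ∈ w.support, z ∈ S) →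
      J P (nbd P S r) x y := by
    intro x y w
    induction w with
    | nil =>
      intro h
      refine ⟨SimpleGraph.Walk.nil, fun z hz => ?_⟩
      rw [SimpleGraph.Walk.support_nil, List.mem_singleton] at hz
      subst hz
      exact hsub _ (h _ (by rw [SimpleGraph.Walk.support_nil]; exact List.mem_singleton_self _))
    | @cons u v w' huv p ih =>
      intro h
      rw [SimpleGraph.Walk.support_cons] at h
      have h1 : u ∈ S := h u (List.mem_cons_self)
      have h2 := ih (fun z hz => h z (List.mem_cons_of_mem _ hz))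
      exact (geo hP h1 ((hd u v huv).trans hlr)).trans h2
  refine ⟨?_, ?_⟩
  · obtain ⟨s, hs⟩ := hS.1
    exact ⟨s, hsub s hs⟩
  · rintro x ⟨s, hs, hx⟩ y ⟨t, ht, hy⟩
    obtain ⟨w, hw⟩ := hS.2 s hs t ht
    exact ((geo hP hs hx).symm.trans (key s t w hw)).trans (geo hP ht hy)

end Pool.Agent.ACC
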