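import Pool.Agent.ACC.LibB

set_option autoImplicit false

/-! MP_851278_al, module KNC: no class touches both sides of a K_5 minus an edge -/

namespace Pool.Agent.ACC

namespace KNC_

variable {V : Type}

theorem const_on (hRCS : Stmt_RCS) (R : Rot V) (c : V → V → ZMod 2) (hI : R.Inv c) (S : Set V)
    (hS : Cn R.P S) (hb : ∀ z ∈ S, ∀ z', R.P.Adj z z' → c z z' = c z' z) (x y x' y' : V)
    (hx : x ∈ S) (hy : y ∈ S) (hxx : R.P.Adj x x') (hyy : R.P.Adj y y') :
    c x x' = c y y' ∧ c x' x = c y y' := by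
  obtain ⟨w, hw⟩ := hS.2 x hx y hy
  exact hRCS V R c hI x y w (fun z hz => hb z (hw z hz)) x' y' hxx hyy

theorem par_cons (e : Sym2 V) (l : List (Sym2 V)) (x y : V) :
    par (e :: l) x y = par [e] x y + par l x y := by
  rw [← par_append]
  rfl

theorem par_walk_zero {P : SimpleGraph V} {x y : V} (w : P.Walk x y) (z z' : V)
    (h : z ∉ w.support) : par w.edges z z' = 0 := by
  apply par_of_notMem
  intro h'
  exact h (w.fst_mem_support_of_mem_edges h')

theorem link_par {P : SimpleGraph V} {X S Y : Set V} {x0 y0 : V} (L : Link P X S Y x0 y0)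
    (z z' : V) (hS : z ∉ S) (hY : z ∉ Y) :
    par L.edges z z' = par L.p1.edges z z' + par [s(L.a, L.b)] z z' := by
  unfold Link.edges
  rw [par_append, par_cons _ (L.p2.edges ++ _), par_append, par_cons _ L.p3.edges]
  have h2 : par L.p2.edges z z' = 0 := par_walk_zero _ _ _ (fun h => hS (L.s2 _ h))
  have h3 : par L.p3.edges z z' = 0 := par_walk_zero _ _ _ (fun h => hY (L.s3 _ h))
  have h4 : par [s(L.b', L.a')] z z' = 0 := by
    apply par_of_notMem
    intro h
    have h' := List.mem_singleton.mp h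
    rw [Sym2.eq_iff] at h'
    rcases h' with h' | h'
    · rw [h'.1] at hS
      exact hS L.b'_mem
    · rw [h'.1] at hY
      exact hY L.a'_mem
  rw [h2, h3, h4]
  ring

theorem arc (hRCS : Stmt_RCS) (R : Rot V) (X Y S T U : Set V) (x0 y0 : V)
    (L : Link R.P X S Y x0 y0) (M : Link R.P X T Y x0 y0) (c : V → V → ZMod 2)
    (hpl : R.Planar) (dXY : Disjoint X Y) (dXS : Disjoint X S) (dXT : Disjoint X T)
    (dXU : Disjoint X U) (dYS : Disjoint Y S) (dYT : Disjoint Y T) (dYU : Disjoint Y U)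
    (dSU : Disjoint S U) (dTU : Disjoint T U) (cX : Cn R.P X) (cY : Cn R.P Y) (cS : Cn R.P S)
    (cT : Cn R.P T) (cU : Cn R.P U) (hXU : ∃ a ∈ X, ∃ b ∈ U, R.P.Adj a b)
    (hYU : ∃ a ∈ Y, ∃ b ∈ U, R.P.Adj b a) (u v : V) (hu : u ∈ S) (hv : v ∈ T)
    (w : R.P.Walk u v) (hw : ∀ z ∈ w.support, z ∉ X ∧ z ∉ Y ∧ z ∉ U)
    (hc : ∀ y z, R.P.Adj y z → c y z + c z y = par (L.edges ++ M.edges) y z)
    (hcc : R.Col c) (hc0 : ∀ x ∈ U, ∀ y, R.P.Adj x y → c x y = 0) (a b : V × V)
    (ha : R.P.Adj a.1 a.2) (hb : R.P.Adj b.1 b.2) (haX : a.1 ∈ X) (hbY : b.1 ∈ Y)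
    (hab : R.Eqv a b) : c a.1 a.2 = 0 := by
  have dXY' := Set.disjoint_left.mp dXY
  have dXS' := Set.disjoint_left.mp dXS
  have dXT' := Set.disjoint_left.mp dXT
  have dXU' := Set.disjoint_left.mp dXU
  have dYS' := Set.disjoint_left.mp dYS
  have dYT' := Set.disjoint_left.mp dYT
  have dYU' := Set.disjoint_left.mp dYU
  have dSU' := Set.disjoint_left.mp dSU
  have dTU' := Set.disjoint_left.mp dTU
  obtain ⟨q, hq⟩ := cS.2 L.b L.b_mem u hu
  obtain ⟨q', hq'⟩ := cT.2 v hv M.b M.b_mem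
  obtain ⟨cx, hcx, hcxb⟩ := hpl x0 (L.p1.append (SimpleGraph.Walk.cons L.h1 (q.append
    (w.append (q'.append (SimpleGraph.Walk.cons M.h1.symm M.p1.reverse))))))
  have hE : ∀ z z', par (L.p1.append (SimpleGraph.Walk.cons L.h1 (q.append
      (w.append (q'.append (SimpleGraph.Walk.cons M.h1.symm M.p1.reverse)))))).edges z z' =
      par L.p1.edges z z' + (par [s(L.a, L.b)] z z' + (par q.edges z z' + (par w.edges z z' +
        (par q'.edges z z' + (par [s(M.a, M.b)] z z' + par M.p1.edges z z'))))) := by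
    intro z z'
    rw [SimpleGraph.Walk.edges_append, SimpleGraph.Walk.edges_cons,
      SimpleGraph.Walk.edges_append, SimpleGraph.Walk.edges_append,
      SimpleGraph.Walk.edges_append, SimpleGraph.Walk.edges_cons,
      SimpleGraph.Walk.edges_reverse, par_append, par_cons, par_append, par_append, par_append,
      par_cons s(M.b, M.a) M.p1.edges.reverse, par_reverse, Sym2.eq_swap (a := M.b) (b := M.a)]
  -- the walk does not touch Y, U
  have hsing : ∀ (z z' e f : V), z ≠ e → z ≠ f → par [s(e, f)] z z' = 0 := by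
    intro z z' e f he hf
    apply par_of_notMem
    intro h
    have h' := List.mem_singleton.mp h
    rw [Sym2.eq_iff] at h'
    rcases h' with h' | h'
    · exact he h'.1
    · exact hf h'.1
  have hoff : ∀ z z', z ∉ X → z ∉ S → z ∉ T → z ∉ w.support →
      par (L.p1.append (SimpleGraph.Walk.cons L.h1 (q.append
      (w.append (q'.append (SimpleGraph.Walk.cons M.h1.symm M.p1.reverse)))))).edges z z' = 0 := by
    intro z z' hX hS hT hW
    rw [hE]
    rw [par_walk_zero L.p1 z z' (fun h => hX (L.s1 _ h)),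
      par_walk_zero q z z' (fun h => hS (hq _ h)), par_walk_zero w z z' hW,
      par_walk_zero q' z z' (fun h => hT (hq' _ h)),
      par_walk_zero M.p1 z z' (fun h => hX (M.s1 _ h)),
      hsing z z' L.a L.b (fun h => hX (h ▸ L.a_mem)) (fun h => hS (h ▸ L.b_mem)),
      hsing z z' M.a M.b (fun h => hX (h ▸ M.a_mem)) (fun h => hT (h ▸ M.b_mem))]
    rfl
  have hon : ∀ z z', z ∈ X →
      par (L.p1.append (SimpleGraph.Walk.cons L.h1 (q.append
      (w.append (q'.append (SimpleGraph.Walk.cons M.h1.symm M.p1.reverse)))))).edges z z' =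
      par (L.edges ++ M.edges) z z' := by
    intro z z' hX
    rw [hE, par_append, link_par L z z' (dXS' hX) (dXY' hX), link_par M z z' (dXT' hX) (dXY' hX),
      par_walk_zero q z z' (fun h => dXS' hX (hq _ h)),
      par_walk_zero w z z' (fun h => (hw _ h).1 hX),
      par_walk_zero q' z z' (fun h => dXT' hX (hq' _ h))]
    ring
  obtain ⟨aU, haU, bU, hbU, hadjU⟩ := hXU
  obtain ⟨aV, haV, bV, hbV, hadjV⟩ := hYU
  -- normalise
  have hcx2 : R.Col (fun x y => cx x y + cx bU aU) := R.col_add hcx (R.col_const _)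
  have hsum : ∀ y z, (cx y z + cx bU aU) + (cx z y + cx bU aU) = cx y z + cx z y := by
    intro y z
    have h2 := z2_add_self (cx bU aU)
    calc (cx y z + cx bU aU) + (cx z y + cx bU aU) = cx y z + cx z y + (cx bU aU + cx bU aU) := by
          ring
      _ = _ := by rw [h2, add_zero]
  -- cX vanishes at U
  have hU1 : ∀ z ∈ U, ∀ z', R.P.Adj z z' → cx z z' + cx bU aU = cx z' z + cx bU aU := by
    intro z hz z' hzz
    have h1 := hcxb z z' hzz
    rw [hoff z z' (fun h => dXU' h hz) (fun h => dSU' h hz) (fun h => dTU' h hz)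
      (fun h => (hw z h).2.2 hz)] at h1
    have h2 := (z2_eq_iff _ _).mpr h1
    rw [h2]
  have hU2 : ∀ z ∈ U, ∀ z', R.P.Adj z z' → cx z z' + cx bU aU = 0 ∧ cx z' z + cx bU aU = 0 := by
    intro z hz z' hzz
    have h1 := const_on hRCS R (fun x y => cx x y + cx bU aU) hcx2.1 U cU hU1 z bU z' aU hz hbU
      hzz hadjU.symm
    simp only [z2_add_self] at h1
    exact h1
  -- cX vanishes at Y
  have hY1 : ∀ z ∈ Y, ∀ z', R.P.Adj z z' → cx z z' + cx bU aU = cx z' z + cx bU aU := by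
    intro z hz z' hzz
    have h1 := hcxb z z' hzz
    rw [hoff z z' (fun h => dXY' h hz) (dYS' hz) (dYT' hz) (fun h => (hw z h).2.1 hz)] at h1
    have h2 := (z2_eq_iff _ _).mpr h1
    rw [h2]
  have hY2 : ∀ z ∈ Y, ∀ z', R.P.Adj z z' → cx z z' + cx bU aU = 0 := by
    intro z hz z' hzz
    have h1 := const_on hRCS R (fun x y => cx x y + cx bU aU) hcx2.1 Y cY hY1 z aV z' bV hz haV
      hzz hadjV.symm
    exact h1.1.trans (hU2 bV hbV aV hadjV).2
  -- cY vanishes at X
  have hcY : R.Col (fun x y => c x y + (cx x y + cx bU aU)) := R.col_add hcc hcx2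
  have hX1 : ∀ z ∈ X, ∀ z', R.P.Adj z z' →
      c z z' + (cx z z' + cx bU aU) = c z' z + (cx z' z + cx bU aU) := by
    intro z hz z' hzz
    have h1 := hcxb z z' hzz
    rw [hon z z' hz, ← hc z z' hzz] at h1
    rw [z2_eq_iff]
    have h3 := z2_add_self (cx z z' + cx z' z)
    calc c z z' + (cx z z' + cx bU aU) + (c z' z + (cx z' z + cx bU aU))
        = (c z z' + c z' z) + ((cx z z' + cx bU aU) + (cx z' z + cx bU aU)) := by ring
      _ = (cx z z' + cx z' z) + (cx z z' + cx z' z) := by rw [hsum, h1]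
      _ = 0 := h3
  have hcU : c aU bU = 0 := by
    have h1 := hc bU aU hadjU.symm
    rw [par_append, (L.par_zero (fun h => dXU' h hbU) (fun h => dSU' h hbU)
      (fun h => dYU' h hbU) aU).1, (M.par_zero (fun h => dXU' h hbU) (fun h => dTU' h hbU)
      (fun h => dYU' h hbU) aU).1, hc0 bU hbU aU hadjU.symm] at h1
    simpa using h1
  have hX2 : c a.1 a.2 + (cx a.1 a.2 + cx bU aU) = 0 := by
    have h1 := const_on hRCS R (fun x y => c x y + (cx x y + cx bU aU)) hcY.1 X cX hX1 a.1 aU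
      a.2 bU haX haU ha hadjU
    have h2 := h1.1
    rw [h2, hcU, (hU2 bU hbU aU hadjU.symm).2]
    rfl
  have hfin := hab _ hcx2
  rw [hY2 b.1 hbY b.2 hb] at hfin
  rw [hfin, add_zero] at hX2
  exact hX2

end KNC_

theorem knc_proof (hRCS : Stmt_RCS) (hLKE : Stmt_LKE) (hLKP : Stmt_LKP) (hKTH : Stmt_KTH) :
    Stmt_KNC := by
  intro V R X Y S hconn hpl dXY dX dY dS cX cY cS hX hY hW a b ha hb haX hbY hab
  obtain ⟨x0, hx0⟩ := cX.1
  obtain ⟨y0, hy0⟩ := cY.1
  have hL : ∀ i, Nonempty (Link R.P X (S i) Y x0 y0) := fun i =>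
    hLKE V R.P X (S i) Y x0 y0 cX (cS i) cY hx0 hy0 (hX i) (hY i)
  let L : ∀ i, Link R.P X (S i) Y x0 y0 := fun i => (hL i).some
  have hne1 : ∀ i : Fin 3, i + 1 ≠ i := by decide
  have hne2 : ∀ i : Fin 3, i + 2 ≠ i := by decide
  have hC : ∀ i, ∃ c, R.Col c ∧ (∀ y z, R.P.Adj y z →
      c y z + c z y = par ((L (i + 1)).edges ++ (L (i + 2)).edges) y z) ∧
      ∀ x ∈ S i, ∀ y, R.P.Adj x y → c x y = 0 := by
    intro i
    obtain ⟨aU, haU, bU, hbU, hadjU⟩ := hX i
    obtain ⟨c, hc1, hc2, hc3⟩ := hLKP V R X Y (S (i + 1)) (S (i + 2)) x0 y0 (L (i + 1))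
      (L (i + 2)) (bU, aU) 0 hpl
    refine ⟨c, hc1, hc2, fun x hx y hxy => ?_⟩
    have hb' : ∀ z ∈ S i, ∀ z', R.P.Adj z z' → c z z' = c z' z := by
      intro z hz z' hzz
      have h1 := hc2 z z' hzz
      have nX : z ∉ X := fun h => Set.disjoint_left.mp (dX i) h hz
      have nY : z ∉ Y := fun h => Set.disjoint_left.mp (dY i) h hz
      have n1 : z ∉ S (i + 1) := fun h => Set.disjoint_left.mp (dS _ _ (hne1 i)) h hz
      have n2 : z ∉ S (i + 2) := fun h => Set.disjoint_left.mp (dS _ _ (hne2 i)) h hz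
      rw [par_append, ((L (i + 1)).par_zero nX n1 nY z').1, ((L (i + 2)).par_zero nX n2 nY z').1]
        at h1
      rw [z2_eq_iff, h1]
      rfl
    have h2 := KNC_.const_on hRCS R c hc1.1 (S i) (cS i) hb' x bU y aU hx hbU hxy hadjU.symm
    exact h2.1.trans hc3
  choose c hc1 hc2 hc3 using hC
  have key := hKTH V R X Y S x0 y0 L c hconn dXY dX dY dS hc1 hc2 hc3 a.1 a.2 ha
  have hz : ∀ i, c i a.1 a.2 = 0 := by
    intro i
    obtain ⟨u, hu, v, hv, w, hw⟩ := hW i
    exact KNC_.arc hRCS R X Y (S (i + 1)) (S (i + 2)) (S i) x0 y0 (L (i + 1)) (L (i + 2)) (c i)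
      hpl dXY (dX _) (dX _) (dX _) (dY _) (dY _) (dY _) (dS _ _ (hne1 i)) (dS _ _ (hne2 i)) cX cY
      (cS _) (cS _) (cS _) (hX i) (hY i) u v hu hv w hw (hc2 i) (hc1 i) (hc3 i) a b ha hb haX
      hbY hab
  rw [hz 0, hz 1, hz 2] at key
  revert key
  decide

end Pool.Agent.ACC
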