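import Pool.Agent.ACC.StmtsB
import Pool.Agent.ACC.LibB

/-!
# Squad ACB, module KSA
-/

set_option autoImplicit false

namespace Pool.Agent.ACC

theorem KSA_walk {V : Type} (P : SimpleGraph V) (good : V → V → Prop) {u v : V}
    (h : Relation.ReflTransGen (fun x y => P.Adj x y ∧ good x y) u v) :
    ∃ w : P.Walk u v, ∀ d ∈ w.darts, good d.fst d.snd := by
  induction h using Relation.ReflTransGen.head_induction_on with
  | refl => exact ⟨SimpleGraph.Walk.nil, by simp⟩
  | @head a b hab _ ih =>
    obtain ⟨w, hw⟩ := ih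
    refine ⟨SimpleGraph.Walk.cons hab.1 w, ?_⟩
    intro d hd
    rw [SimpleGraph.Walk.darts_cons, List.mem_cons] at hd
    rcases hd with rfl | hd
    · exact hab.2
    · exact hw d hd

theorem ksa_proof (hRBE : Stmt_RBE) : Stmt_KSA := by
  intro V R X Y S T x0 y0 L M c j dXY dXS dXT dYS dYT dST hc hj hcb hjX hjY
  by_contra hno
  have ha := L.a_mem
  have hb := L.b_mem
  have ha' := L.a'_mem
  have eXY := Set.disjoint_left.mp dXY
  have eXS := Set.disjoint_left.mp dXS
  have eXT := Set.disjoint_left.mp dXT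
  have eYS := Set.disjoint_left.mp dYS
  have eYT := Set.disjoint_left.mp dYT
  have eST := Set.disjoint_left.mp dST
  set good : V → V → Prop := fun x y => j x y ≠ j y x ∧ c x y = 1 ∧ c y x = 1 with hgood
  set A : Set V := {z | ∃ u ∈ S, Relation.ReflTransGen (fun x y => R.P.Adj x y ∧ good x y) u z}
    with hA
  have hSA : ∀ z ∈ S, z ∈ A := fun z hz => ⟨z, hz, Relation.ReflTransGen.refl⟩
  have hTA : ∀ z ∈ A, z ∉ T := by
    rintro z ⟨u, hu, hw⟩ hz
    apply hno
    obtain ⟨w, hw⟩ := KSA_walk R.P good hw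
    exact ⟨u, hu, z, hz, w, hw⟩
  have hXA : ∀ z ∈ A, z ∉ X := by
    rintro z ⟨u, hu, hw⟩ hz
    rcases Relation.ReflTransGen.cases_tail hw with h | ⟨y, _, hy⟩
    · rw [h] at hz
      exact eXS hz hu
    · have h1 := hjX z hz y hy.1.symm
      exact hy.2.1 (by rw [h1.1, h1.2])
  have hYA : ∀ z ∈ A, z ∉ Y := by
    rintro z ⟨u, hu, hw⟩ hz
    rcases Relation.ReflTransGen.cases_tail hw with h | ⟨y, _, hy⟩
    · rw [h] at hz
      exact eYS hz hu
    · have h1 := hjY z hz y hy.1.symm
      exact hy.2.1 (by rw [h1.1, h1.2])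
  have hq : R.Col (fun x y => j x y * c x y) := R.col_mul hj hc
  have hev := hRBE V R _ hq A
  have hset : {p : V × V | p ∈ R.bset (fun x y => j x y * c x y) ∧ p.1 ∈ A ∧ p.2 ∉ A} =
      {(L.b, L.a)} := by
    ext ⟨u, v⟩
    simp only [Set.mem_ofPred_eq, Set.mem_singleton_iff, Prod.mk.injEq, Rot.bset]
    constructor
    · rintro ⟨⟨huv, hne⟩, hu, hv⟩
      have huX := hXA u hu
      have huY := hYA u hu
      have huT := hTA u hu
      by_cases hcc : c u v = c v u
      · exfalso
        apply hv
        rcases z2_cases (c u v) with h0 | h1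
        · exfalso
          apply hne
          rw [← hcc, h0, mul_zero, mul_zero]
        · have hjj : j u v ≠ j v u := by
            intro hjj
            apply hne
            rw [hjj, hcc]
          obtain ⟨u0, hu0, hw⟩ := hu
          exact ⟨u0, hu0, hw.tail ⟨huv, hjj, h1, by rw [← hcc]; exact h1⟩⟩
      · have h1 := (z2_ne_iff _ _).mp hcc
        rw [hcb u v huv, par_append, (M.par_zero huX huT huY v).1, add_zero] at h1
        have h2 : s(u, v) ∈ L.edges := mem_of_par_ne (by rw [h1]; exact one_ne_zero)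
        rcases L.mem_edges h2 with h | h | h | h | h | h | h
        · exact absurd h.1 huX
        · rw [h.1] at huX
          exact absurd ha huX
        · exact h
        · exact absurd (hSA v h.2) hv
        · exfalso
          rw [h.2] at huv hne
          have h3 := hjY _ ha' u huv.symm
          apply hne
          rw [h3.1, h3.2, zero_mul, zero_mul]
        · rw [h.1] at huY
          exact absurd ha' huY
        · exact absurd h.1 huY
    · rintro ⟨rfl, rfl⟩
      have hbX : L.b ∉ X := fun h => eXS h hb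
      have hbY : L.b ∉ Y := fun h => eYS h hb
      have hbT : L.b ∉ T := fun h => eST hb h
      refine ⟨⟨L.h1.symm, ?_⟩, hSA _ hb, fun h => hXA _ h ha⟩
      have h1 := hjX _ ha _ L.h1
      rw [h1.1, h1.2, one_mul, one_mul, z2_ne_iff, hcb _ _ L.h1.symm, par_append,
        (M.par_zero hbX hbT hbY _).1, (L.par_ab dXS dXY dYS.symm).2, add_zero]
  rw [hset, Set.ncard_singleton] at hev
  exact absurd hev (by decide)

end Pool.Agent.ACC
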