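import Pool.Agent.ACC.LibB

/-!
MP_851278_al, squad ACB, module KTH: three links cut the plane into three sectors.
-/

set_option autoImplicit false

namespace Pool.Agent.ACC

namespace KTH_

theorem z2_a (c1 c2 d1 d2 p : ZMod 2) (h1 : c1 + d1 = p) (h2 : c2 + d2 = p) (hp : p = 0) :
    c1 * c2 = d1 * d2 := by
  revert c1 c2 d1 d2 p; decide

theorem z2_b (x y p q : ZMod 2) (h : x + y = p + q) (hp : p = 0) (hq : q = 0) (hy : y = 0) :
    x = 0 := by
  revert x y p q; decide

theorem z2_c (x y p q : ZMod 2) (h : x + y = p + q) (hp : p = 0) (hq : q = 0) :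
    x = y := by
  revert x y p q; decide

theorem z2_d (t0 t1 t2 u0 u1 p0 p1 p2 : ZMod 2) (hs : t0 + t1 + t2 = 0) (h2 : t2 = 0)
    (e0 : t0 + u0 = p1 + p2) (e1 : t1 + u1 = p2 + p0) (hp0 : p0 = 0) (hp1 : p1 = 0)
    (hp2 : p2 = 1) : t0 * t1 ≠ u0 * u1 := by
  revert t0 t1 t2 u0 u1 p0 p1 p2; decide

theorem z2_e (c0 c1 c2 d0 d1 d2 p0 p1 p2 : ZMod 2) (e0 : c0 + d0 = p1 + p2)
    (e1 : c1 + d1 = p2 + p0) (e2 : c2 + d2 = p0 + p1) : c0 + c1 + c2 = d0 + d1 + d2 := by
  revert c0 c1 c2 d0 d1 d2 p0 p1 p2; decide

end KTH_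

open KTH_ in
theorem kth_proof (h1 : Stmt_RBE) (h2 : Stmt_RCS) : Stmt_KTH := by
  intro V R X Y S x0 y0 L c hconn dXY dX dY dS hcol hbd hS
  have hb0 : ∀ y z, R.P.Adj y z →
      c 0 y z + c 0 z y = par (L 1).edges y z + par (L 2).edges y z := by
    intro y z h
    have := hbd 0 y z h
    rw [par_append] at this
    exact this
  have hb1 : ∀ y z, R.P.Adj y z →
      c 1 y z + c 1 z y = par (L 2).edges y z + par (L 0).edges y z := by
    intro y z h
    have := hbd 1 y z h
    rw [par_append] at this
    exact this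
  have hb2 : ∀ y z, R.P.Adj y z →
      c 2 y z + c 2 z y = par (L 0).edges y z + par (L 1).edges y z := by
    intro y z h
    have := hbd 2 y z h
    rw [par_append] at this
    exact this
  have hscol : R.Col (fun x y => (c 0 x y + c 1 x y) + c 2 x y) :=
    R.col_add (R.col_add (hcol 0) (hcol 1)) (hcol 2)
  have hssym : ∀ y z, R.P.Adj y z →
      c 0 y z + c 1 y z + c 2 y z = c 0 z y + c 1 z y + c 2 z y := fun y z h =>
    z2_e _ _ _ _ _ _ _ _ _ (hb0 y z h) (hb1 y z h) (hb2 y z h)
  have hsconst : ∀ x x' y y', R.P.Adj x x' → R.P.Adj y y' →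
      c 0 x x' + c 1 x x' + c 2 x x' = c 0 y y' + c 1 y y' + c 2 y y' := by
    intro x x' y y' hx hy
    obtain ⟨w⟩ := hconn.preconnected x y
    exact (h2 V R _ hscol.1 x y w (fun z _ z' hz => hssym z z' hz) x' y' hx hy).1
  intro x y hxy
  by_contra hne
  rw [← ne_eq, z2_ne_one_iff] at hne
  have hs0 : ∀ u v, R.P.Adj u v → c 0 u v + c 1 u v + c 2 u v = 0 := by
    intro u v huv
    rw [hsconst u v x y huv hxy, hne]
  -- disjointness facts
  have DXY := Set.disjoint_left.mp dXY
  have DX := fun i => Set.disjoint_left.mp (dX i)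
  have DY := fun i => Set.disjoint_left.mp (dY i)
  have DS := fun i j hij => Set.disjoint_left.mp (dS i j hij)
  have key : {p : V × V | p ∈ R.bset (fun x y => c 0 x y * c 1 x y) ∧ p.1 ∈ Y ∪ S 2 ∧
      p.2 ∉ Y ∪ S 2} = {((L 2).b, (L 2).a)} := by
    ext p
    obtain ⟨u, v⟩ := p
    simp only [Set.mem_ofPred_eq, Set.mem_singleton_iff, Prod.mk.injEq, Rot.bset]
    constructor
    · rintro ⟨⟨hadj, hq⟩, hu, hv⟩
      have hvY : v ∉ Y := fun h => hv (Or.inl h)
      have hvS : v ∉ S 2 := fun h => hv (Or.inr h)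
      rcases hu with hu | hu
      · exfalso
        -- u ∈ Y
        have huX : u ∉ X := fun h => DXY h hu
        have key2 : par (L 2).edges u v = 0 := by
          by_contra hp
          have he := mem_of_par_ne hp
          rcases (L 2).mem_edges he with h | h | h | h | h | h | h
          · exact huX h.1
          · exact huX (h.1 ▸ (L 2).a_mem)
          · exact DY 2 hu (h.1 ▸ (L 2).b_mem)
          · exact hvS h.2
          · exact DY 2 hu (h.1 ▸ (L 2).b'_mem)
          · exact hvS (h.2 ▸ (L 2).b'_mem)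
          · exact hvY h.2
        have keyi : ∀ i, par (L i).edges u v ≠ 0 → v ∈ S i := by
          intro i hp
          have he := mem_of_par_ne hp
          rcases (L i).mem_edges he with h | h | h | h | h | h | h
          · exact absurd h.1 huX
          · exact absurd (h.1 ▸ (L i).a_mem) huX
          · exact absurd (h.1 ▸ (L i).b_mem) (DY i hu)
          · exact h.2
          · exact absurd (h.1 ▸ (L i).b'_mem) (DY i hu)
          · exact h.2 ▸ (L i).b'_mem
          · exact absurd h.2 hvY
        by_cases hv0 : v ∈ S 0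
        · have e1 : par (L 1).edges u v = 0 :=
            ((L 1).par_zero (u := v) (fun h => DX 0 h hv0) (fun h => DS 0 1 (by decide) hv0 h)
              hvY u).2
          have e2 : c 0 v u = 0 := hS 0 v hv0 u hadj.symm
          have e3 : c 0 u v = 0 := z2_b _ _ _ _ (hb0 u v hadj) e1 key2 e2
          exact hq (by rw [e2, e3, zero_mul, zero_mul])
        · by_cases hv1 : v ∈ S 1
          · have e1 : par (L 0).edges u v = 0 :=
              ((L 0).par_zero (u := v) (fun h => DX 1 h hv1)
                (fun h => DS 1 0 (by decide) hv1 h) hvY u).2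
            have e2 : c 1 v u = 0 := hS 1 v hv1 u hadj.symm
            have e3 : c 1 u v = 0 := z2_b _ _ _ _ (hb1 u v hadj) key2 e1 e2
            exact hq (by rw [e2, e3, mul_zero, mul_zero])
          · have e0 : par (L 0).edges u v = 0 := by
              by_contra hp
              exact hv0 (keyi 0 hp)
            have e1 : par (L 1).edges u v = 0 := by
              by_contra hp
              exact hv1 (keyi 1 hp)
            have f0 := z2_c _ _ _ _ (hb0 u v hadj) e1 key2
            have f1 := z2_c _ _ _ _ (hb1 u v hadj) key2 e0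
            exact hq (by rw [f0, f1])
      · -- u ∈ S 2
        have huX : u ∉ X := fun h => DX 2 h hu
        have huY : u ∉ Y := fun h => DY 2 h hu
        have e0 : par (L 0).edges u v = 0 :=
          ((L 0).par_zero (u := u) huX (fun h => DS 2 0 (by decide) hu h) huY v).1
        have e1 : par (L 1).edges u v = 0 :=
          ((L 1).par_zero (u := u) huX (fun h => DS 2 1 (by decide) hu h) huY v).1
        by_cases hp : par (L 2).edges u v = 0
        · exfalso
          have f0 := z2_c _ _ _ _ (hb0 u v hadj) e1 hp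
          have f1 := z2_c _ _ _ _ (hb1 u v hadj) hp e0
          exact hq (by rw [f0, f1])
        · have he := mem_of_par_ne hp
          rcases (L 2).mem_edges he with h | h | h | h | h | h | h
          · exact absurd h.1 huX
          · exact absurd (h.1 ▸ (L 2).a_mem) huX
          · exact h
          · exact absurd h.2 hvS
          · exact absurd (h.2 ▸ (L 2).a'_mem) hvY
          · exact absurd (h.1 ▸ (L 2).a'_mem) huY
          · exact absurd h.1 huY
    · rintro ⟨rfl, rfl⟩
      have hbS := (L 2).b_mem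
      have haX := (L 2).a_mem
      have hbX : (L 2).b ∉ X := fun h => DX 2 h hbS
      have hbY : (L 2).b ∉ Y := fun h => DY 2 h hbS
      have hadj : R.P.Adj (L 2).b (L 2).a := (L 2).h1.symm
      have e0 : par (L 0).edges (L 2).b (L 2).a = 0 :=
        ((L 0).par_zero hbX (fun h => DS 2 0 (by decide) hbS h) hbY _).1
      have e1 : par (L 1).edges (L 2).b (L 2).a = 0 :=
        ((L 1).par_zero hbX (fun h => DS 2 1 (by decide) hbS h) hbY _).1
      have e2 : par (L 2).edges (L 2).b (L 2).a = 1 :=
        ((L 2).par_ab (dX 2) dXY (dY 2).symm).2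
      refine ⟨⟨hadj, ?_⟩, Or.inr hbS, ?_⟩
      · exact z2_d _ _ _ _ _ _ _ _ (hs0 _ _ hadj) (hS 2 _ hbS _ hadj) (hb0 _ _ hadj)
          (hb1 _ _ hadj) e0 e1 e2
      · rintro (h | h)
        · exact DXY haX h
        · exact DX 2 haX h
  have hev := h1 V R _ (R.col_mul (hcol 0) (hcol 1)) (Y ∪ S 2)
  rw [key, Set.ncard_singleton] at hev
  exact absurd hev (by decide)

end Pool.Agent.ACC
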