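import Pool.Agent.ACC.StmtsB

/-!
# Squad ACB, module LAZ
-/

set_option autoImplicit false

namespace Pool.Agent.ACC

theorem LAZ_aux {U : Type} (P : SimpleGraph U) (d : U → U → ZMod 2) (hd : ∀ u, d u u = 0)
    (a b c : U) (h : a = b) (w : P.Walk b c) :
    ∃ w' : P.Walk a c, w'.length = w.length ∧ wsum d w' = d a b + wsum d w := by
  subst h
  exact ⟨w, rfl, by rw [hd, zero_add]⟩

theorem laz_proof : Stmt_LAZ := by
  intro V U X p d x y w hd
  induction w with
  | nil =>
    refine ⟨SimpleGraph.Walk.nil, le_refl _, ?_⟩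
    simp [wsum]
  | @cons a b c h w ih =>
    obtain ⟨w', hw', hs'⟩ := ih
    have hw : wsum (fun s t => d (p s) (p t)) (SimpleGraph.Walk.cons h w) =
        d (p a) (p b) + wsum (fun s t => d (p s) (p t)) w := by
      simp [wsum]
    by_cases hp : p a = p b
    · obtain ⟨w2, h2, hs2⟩ := LAZ_aux (push X p) d hd (p a) (p b) (p c) hp w'
      refine ⟨w2, ?_, ?_⟩
      · rw [h2, SimpleGraph.Walk.length_cons]
        omega
      · rw [hs2, hw, hs']
    · refine ⟨SimpleGraph.Walk.cons ⟨hp, a, b, h, rfl, rfl⟩ w', ?_, ?_⟩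
      · rw [SimpleGraph.Walk.length_cons, SimpleGraph.Walk.length_cons]
        omega
      · rw [hw, ← hs']
        simp [wsum]

end Pool.Agent.ACC
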