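import Pool.Agent.ACC.StmtsA

set_option autoImplicit false

namespace Pool.Agent.ACC

namespace LFA_

variable {V V' : Type} {G' : SimpleGraph V'} {q : V → V'}

/-- the projection moving a leaf to its neighbour -/
def pr (q : V → V') : V' ⊕ V → V' := Sum.elim id q

lemma step {S : Set (V' ⊕ V)} {a : V'}
    (haS : a ∈ {b : V' | (Sum.inl b : V' ⊕ V) ∈ S}) (u w : ↥S)
    (h : ((leafG G' q).induce S).Adj u w)
    (hw : ∃ hb : (Sum.inl (pr q w.1) : V' ⊕ V) ∈ S,
      (G'.induce {b : V' | (Sum.inl b : V' ⊕ V) ∈ S}).Reachable ⟨pr q w.1, hb⟩ ⟨a, haS⟩) :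
    ∃ hb : (Sum.inl (pr q u.1) : V' ⊕ V) ∈ S,
      (G'.induce {b : V' | (Sum.inl b : V' ⊕ V) ∈ S}).Reachable ⟨pr q u.1, hb⟩ ⟨a, haS⟩ := by
  obtain ⟨u, hu⟩ := u
  obtain ⟨w, hw'⟩ := w
  obtain ⟨hb, hr⟩ := hw
  have h' : (leafG G' q).Adj u w := h
  rcases u with b | x
  · rcases w with c | y
    · have hadj : G'.Adj b c := h'
      refine ⟨hu, ?_⟩
      have h1 : (G'.induce {b : V' | (Sum.inl b : V' ⊕ V) ∈ S}).Adj ⟨b, hu⟩ ⟨c, hw'⟩ := hadj
      exact h1.reachable.trans hr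
    · have hbq : b = q y := h'
      subst hbq
      exact ⟨hb, hr⟩
  · rcases w with c | y
    · have hbq : c = q x := h'
      subst hbq
      exact ⟨hb, hr⟩
    · exact absurd h' (fun h => h)

lemma reach {S : Set (V' ⊕ V)} {a : V'}
    (haS : a ∈ {b : V' | (Sum.inl b : V' ⊕ V) ∈ S}) :
    ∀ (u w : ↥S), ((leafG G' q).induce S).Walk u w → w = ⟨Sum.inl a, haS⟩ →
    ∃ hb : (Sum.inl (pr q u.1) : V' ⊕ V) ∈ S,
      (G'.induce {b : V' | (Sum.inl b : V' ⊕ V) ∈ S}).Reachable ⟨pr q u.1, hb⟩ ⟨a, haS⟩ := by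
  intro u w p
  induction p with
  | nil =>
    intro h
    subst h
    exact ⟨haS, SimpleGraph.Reachable.refl _⟩
  | cons h p ih =>
    intro hw
    exact step haS _ _ h (ih hw)

lemma reach' {S : Set (V' ⊕ V)} (hS : ((leafG G' q).induce S).Connected) {a : V'}
    (haS : (Sum.inl a : V' ⊕ V) ∈ S) (u : V' ⊕ V) (hu : u ∈ S) :
    ∃ hb : (Sum.inl (pr q u) : V' ⊕ V) ∈ S,
      (G'.induce {b : V' | (Sum.inl b : V' ⊕ V) ∈ S}).Reachable ⟨pr q u, hb⟩ ⟨a, haS⟩ := by
  obtain ⟨p⟩ := hS.preconnected ⟨u, hu⟩ ⟨Sum.inl a, haS⟩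
  exact reach haS ⟨u, hu⟩ _ p rfl

end LFA_

open LFA_ in
theorem lfa_proof : Stmt_LFA := by
  intro V V' G' q t ht hmf
  rintro ⟨f, hconn, hdisj, hadj⟩
  apply hmf
  -- (a) every set contains a vertex of G'
  have ha : ∀ i, ∃ a : V', (Sum.inl a : V' ⊕ V) ∈ f i := by
    intro i
    by_contra hno
    push Not at hno
    have hinr : ∀ u ∈ f i, ∃ x : V, u = Sum.inr x := by
      intro u hu
      rcases u with b | x
      · exact absurd hu (hno b)
      · exact ⟨x, rfl⟩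
    obtain ⟨⟨u0, hu0⟩⟩ := (hconn i).nonempty
    have huniq : ∀ u ∈ f i, u = u0 := by
      intro u hu
      obtain ⟨p⟩ := (hconn i).preconnected ⟨u, hu⟩ ⟨u0, hu0⟩
      cases p with
      | nil => rfl
      | cons h p =>
        rename_i w
        obtain ⟨x, hx⟩ := hinr u hu
        obtain ⟨y, hy⟩ := hinr w.1 w.2
        have h' : (leafG G' q).Adj u w.1 := h
        rw [hx, hy] at h'
        exact absurd h' (fun h => h)
    obtain ⟨x, hx⟩ := hinr u0 hu0
    have hmem : ∀ j, j ≠ i → (Sum.inl (q x) : V' ⊕ V) ∈ f j := by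
      intro j hj
      obtain ⟨u, hu, w, hw, huw⟩ := hadj i j hj.symm
      rw [huniq u hu, hx] at huw
      rcases w with c | y
      · have hc : c = q x := huw
        rw [← hc]; exact hw
      · exact absurd huw (fun h => h)
    -- two other indices
    obtain ⟨j, k, hj, hk, hjk⟩ : ∃ j k : Fin t, j ≠ i ∧ k ≠ i ∧ j ≠ k := by
      have h0 : (0 : ℕ) < t := by omega
      have h1 : (1 : ℕ) < t := by omega
      have h2 : (2 : ℕ) < t := by omega
      rcases Nat.lt_trichotomy i.1 1 with h | h | h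
      · exact ⟨⟨1, h1⟩, ⟨2, h2⟩, fun e => by rw [← e] at h; simp at h,
          fun e => by rw [← e] at h; simp at h, fun e => by simp at e⟩
      · exact ⟨⟨0, h0⟩, ⟨2, h2⟩, fun e => by rw [← e] at h; simp at h,
          fun e => by rw [← e] at h; simp at h, fun e => by simp at e⟩
      · exact ⟨⟨0, h0⟩, ⟨1, h1⟩, fun e => by rw [← e] at h; simp at h,
          fun e => by rw [← e] at h; simp at h, fun e => by simp at e⟩
    exact Set.disjoint_left.mp (hdisj hjk) (hmem j hj) (hmem k hk)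
  refine ⟨fun i => {a : V' | (Sum.inl a : V' ⊕ V) ∈ f i}, ?_, ?_, ?_⟩
  · intro i
    obtain ⟨a, hai⟩ := ha i
    haveI : Nonempty ↥{a : V' | (Sum.inl a : V' ⊕ V) ∈ f i} := ⟨⟨a, hai⟩⟩
    refine ⟨fun b c => ?_⟩
    obtain ⟨b, hb⟩ := b
    obtain ⟨c, hc⟩ := c
    obtain ⟨hb', hr⟩ := reach' (hconn i) hc (Sum.inl b) hb
    exact hr
  · intro i j hij
    rw [Set.disjoint_left]
    intro a hai haj
    exact Set.disjoint_left.mp (hdisj hij) hai haj
  · intro i j hij
    obtain ⟨u, hu, w, hw, huw⟩ := hadj i j hij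
    rcases u with b | x
    · rcases w with c | y
      · exact ⟨b, hu, c, hw, huw⟩
      · exfalso
        have hbq : b = q y := huw
        obtain ⟨a, haj⟩ := ha j
        obtain ⟨hb', -⟩ := reach' (hconn j) haj (Sum.inr y) hw
        have hb'' : (Sum.inl (q y) : V' ⊕ V) ∈ f j := hb'
        rw [← hbq] at hb''
        exact Set.disjoint_left.mp (hdisj hij) hu hb''
    · rcases w with c | y
      · exfalso
        have hbq : c = q x := huw
        obtain ⟨a, hai⟩ := ha i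
        obtain ⟨hb', -⟩ := reach' (hconn i) hai (Sum.inr x) hu
        have hb'' : (Sum.inl (q x) : V' ⊕ V) ∈ f i := hb'
        rw [← hbq] at hb''
        exact Set.disjoint_left.mp (hdisj hij) hb'' hw
      · exact absurd huw (fun h => h)

end Pool.Agent.ACC
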