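import Pool.Agent.ACC.StmtsC

/-!
Module LFW: short closed walks are finite in number modulo the group.
-/

set_option autoImplicit false

namespace Pool.Agent.ACC

namespace LFW_

variable {U : Type}

/-- edge lists of short walks from a vertex -/
def SW (Y : SimpleGraph U) (r : ℕ) (u : U) : Set (List (Sym2 U)) :=
  {l | ∃ (v : U) (w : Y.Walk u v), w.length ≤ r ∧ l = w.edges}

theorem sw_finite (Y : SimpleGraph U) (hY : LocFin Y) (r : ℕ) : ∀ u, (SW Y r u).Finite := by
  induction r with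
  | zero =>
    intro u
    apply Set.Finite.subset (Set.finite_singleton ([] : List (Sym2 U)))
    rintro l ⟨v, w, hw, rfl⟩
    cases w with
    | nil => rfl
    | cons h w' =>
      simp at hw
  | succ r ih =>
    intro u
    have h1 : (⋃ x ∈ Y.neighborSet u, (fun l => s(u, x) :: l) '' SW Y r x).Finite :=
      (hY u).biUnion (fun x _ => (ih x).image _)
    apply ((Set.finite_singleton ([] : List (Sym2 U))).union h1).subset
    rintro l ⟨v, w, hw, rfl⟩
    cases w with
    | nil => exact Or.inl rfl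
    | @cons _ x _ h w' =>
      right
      refine Set.mem_iUnion₂.mpr ⟨x, h, w'.edges, ⟨v, w', ?_, rfl⟩, ?_⟩
      · rw [SimpleGraph.Walk.length_cons] at hw
        omega
      · rw [SimpleGraph.Walk.edges_cons]

end LFW_

open LFW_ in
theorem lfw_proof : Stmt_LFW := by
  intro U Y K r hY hA hV
  refine ⟨?_, ?_⟩
  · rintro l ⟨u, w, _, rfl⟩
    exact ⟨u, w, rfl⟩
  · obtain ⟨F, hF, hFr⟩ := hV
    refine ⟨⋃ u ∈ F, SW Y r u, hF.biUnion (fun u _ => sw_finite Y hY r u), ?_⟩
    rintro l ⟨u, w, hw, rfl⟩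
    obtain ⟨g, hg, u0, hu0, hgu⟩ := hFr u
    have hginv : ∀ x y, Y.Adj (g⁻¹ x) (g⁻¹ y) ↔ Y.Adj x y := hA g⁻¹ (K.inv_mem hg)
    let ψ : Y →g Y :=
      { toFun := fun x => g⁻¹ x
        map_rel' := fun {a b} h => (hginv a b).mpr h }
    have hu : g⁻¹ u = u0 := by
      rw [Equiv.Perm.inv_eq_iff_eq, hgu]
    have hmem : (w.map ψ).edges ∈ SW Y r (g⁻¹ u) :=
      ⟨_, w.map ψ, by rw [SimpleGraph.Walk.length_map]; exact hw, rfl⟩
    rw [hu] at hmem
    refine ⟨g, hg, (w.map ψ).edges, Set.mem_iUnion₂.mpr ⟨u0, hu0, hmem⟩, ?_⟩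
    rw [SimpleGraph.Walk.edges_map, List.map_map]
    have h2 : (Sym2.map g ∘ Sym2.map ψ : Sym2 U → Sym2 U) = id := by
      rw [← Sym2.map_comp]
      have h3 : (g ∘ ψ : U → U) = id := by
        funext x
        show g (g⁻¹ x) = x
        simp
      rw [h3, Sym2.map_id]
    rw [h2, List.map_id]

end Pool.Agent.ACC
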