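import Pool.Agent.ACC.Lib

/-!
MP_851278_al, Part I, module LIA: Dunwoody's count of the orbits of a nested invariant family
(linear algebra over the field with two elements).
-/

set_option autoImplicit false
set_option maxHeartbeats 4000000
set_option linter.unusedVariables false

namespace Pool.Agent.ACC

namespace LIA_

variable {V : Type}

/-- `B` is a translate of `A` or of its complement -/
def RR (G : Subgroup (Equiv.Perm V)) (A B : Set V) : Prop :=
  ∃ g ∈ G, g '' A = B ∨ g '' A = Bᶜ

theorem RR_compl (G : Subgroup (Equiv.Perm V)) (A B : Set V) : RR G A Bᶜ ↔ RR G A B := by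
  unfold RR
  constructor
  · rintro ⟨g, hg, h | h⟩
    · exact ⟨g, hg, Or.inr h⟩
    · exact ⟨g, hg, Or.inl (by rw [h, compl_compl])⟩
  · rintro ⟨g, hg, h | h⟩
    · exact ⟨g, hg, Or.inr (by rw [h, compl_compl])⟩
    · exact ⟨g, hg, Or.inl h⟩

theorem RR_image (G : Subgroup (Equiv.Perm V)) (A B : Set V) (g : Equiv.Perm V) (hg : g ∈ G) :
    RR G A (g '' B) ↔ RR G A B := by
  unfold RR
  constructor
  · rintro ⟨h, hh, h1⟩
    refine ⟨g⁻¹ * h, G.mul_mem (G.inv_mem hg) hh, ?_⟩
    have e : ((g⁻¹ * h : Equiv.Perm V) : V → V) '' A = (g⁻¹ : Equiv.Perm V) '' (h '' A) := by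
      rw [← Set.image_comp]
      rfl
    rw [e]
    rcases h1 with h1 | h1
    · left
      rw [h1, image_inv_image]
    · right
      rw [h1, ← image_compl, image_inv_image]
  · rintro ⟨h, hh, h1⟩
    refine ⟨g * h, G.mul_mem hg hh, ?_⟩
    have e : ((g * h : Equiv.Perm V) : V → V) '' A = g '' (h '' A) := by
      rw [← Set.image_comp]
      rfl
    rw [e]
    rcases h1 with h1 | h1
    · left
      rw [h1]
    · right
      rw [h1, image_compl]

open Classical in
/-- the invariant function defined by its values on representatives -/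
noncomputable def ff (G : Subgroup (Equiv.Perm V)) (S : Finset (Set V)) (c : S → ZMod 2)
    (B : Set V) : ZMod 2 :=
  ∑ A : S, if RR G A.1 B then c A else 0

theorem ff_compl (G : Subgroup (Equiv.Perm V)) (S : Finset (Set V)) (c : S → ZMod 2) (B : Set V) :
    ff G S c Bᶜ = ff G S c B := by
  unfold ff
  apply Finset.sum_congr rfl
  intro A _
  rw [RR_compl]

theorem ff_image (G : Subgroup (Equiv.Perm V)) (S : Finset (Set V)) (c : S → ZMod 2) (B : Set V)
    (g : Equiv.Perm V) (hg : g ∈ G) : ff G S c (g '' B) = ff G S c B := by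
  unfold ff
  apply Finset.sum_congr rfl
  intro A _
  rw [RR_image G _ _ g hg]

theorem ff_add (G : Subgroup (Equiv.Perm V)) (S : Finset (Set V)) (c d : S → ZMod 2) (B : Set V) :
    ff G S (c + d) B = ff G S c B + ff G S d B := by
  unfold ff
  rw [← Finset.sum_add_distrib]
  apply Finset.sum_congr rfl
  intro A _
  split_ifs <;> simp

theorem ff_self (G : Subgroup (Equiv.Perm V)) (S : Finset (Set V))
    (hS : ∀ A ∈ S, ∀ B ∈ S, ∀ g ∈ G, (g '' A = B ∨ g '' A = Bᶜ) → A = B) (c : S → ZMod 2)
    (A : S) : ff G S c A.1 = c A := by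
  classical
  unfold ff
  rw [Finset.sum_eq_single A]
  · rw [if_pos]
    refine ⟨1, G.one_mem, Or.inl ?_⟩
    simp
  · intro B _ hBA
    rw [if_neg]
    rintro ⟨g, hg, h⟩
    exact hBA (Subtype.ext (hS B.1 B.2 A.1 A.2 g hg h))
  · intro h
    exact absurd (Finset.mem_univ _) h

theorem img_inj (g : Equiv.Perm V) : Function.Injective (fun A : Set V => g '' A) :=
  Set.image_injective.mpr g.injective

section

variable (G : Subgroup (Equiv.Perm V)) (E : Set (Set V))
  (hinv : ∀ g ∈ G, ∀ A ∈ E, g '' A ∈ E)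

include hinv

theorem mem_iff (g : Equiv.Perm V) (hg : g ∈ G) (A : Set V) : g '' A ∈ E ↔ A ∈ E := by
  constructor
  · intro h
    have := hinv g⁻¹ (G.inv_mem hg) _ h
    rwa [image_inv_image] at this
  · exact hinv g hg A

theorem sig_image (f : Set V → ZMod 2) (hf : ∀ g ∈ G, ∀ A, f (g '' A) = f A)
    (g : Equiv.Perm V) (hg : g ∈ G) (x y : V) : sig E f (g x) (g y) = sig E f x y := by
  unfold sig
  have h1 : {A : Set V | A ∈ E ∧ g x ∈ A ∧ g y ∉ A}
      = (fun A : Set V => g '' A) '' {A : Set V | A ∈ E ∧ x ∈ A ∧ y ∉ A} := by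
    ext A
    constructor
    · rintro ⟨h2, h3, h4⟩
      refine ⟨(g⁻¹ : Equiv.Perm V) '' A, ⟨hinv _ (G.inv_mem hg) _ h2, ⟨g x, h3, by simp⟩, ?_⟩,
        image_image_inv g A⟩
      rintro ⟨z, hz, hzy⟩
      apply h4
      rw [← hzy]
      simpa using hz
    · rintro ⟨B, ⟨h2, h3, h4⟩, rfl⟩
      refine ⟨hinv g hg _ h2, ⟨x, h3, rfl⟩, ?_⟩
      rintro ⟨z, hz, hzy⟩
      exact h4 (g.injective hzy ▸ hz)
  rw [h1, finsum_mem_image (Set.injOn_of_injective (img_inj g))]
  simp only [hf g hg]

theorem hh_image (f : Set V → ZMod 2) (hf : ∀ g ∈ G, ∀ A, f (g '' A) = f A)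
    (g : Equiv.Perm V) (hg : g ∈ G) (v : Set (Set V)) (x : V) :
    hh f v (g x) = hh f {A | g '' A ∈ v} x := by
  unfold hh
  have h1 : {B : Set V | B ∈ v ∧ g x ∉ B}
      = (fun A : Set V => g '' A) '' {A : Set V | A ∈ {A | g '' A ∈ v} ∧ x ∉ A} := by
    ext A
    constructor
    · rintro ⟨h2, h3⟩
      refine ⟨(g⁻¹ : Equiv.Perm V) '' A, ⟨?_, ?_⟩, image_image_inv g A⟩
      · show g '' ((g⁻¹ : Equiv.Perm V) '' A) ∈ v
        rw [image_image_inv]
        exact h2
      · rintro ⟨z, hz, hzy⟩
        apply h3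
        rw [← hzy]
        simpa using hz
    · rintro ⟨B, ⟨h2, h3⟩, rfl⟩
      refine ⟨h2, ?_⟩
      rintro ⟨z, hz, hzy⟩
      exact h3 (g.injective hzy ▸ hz)
  rw [h1, finsum_mem_image (Set.injOn_of_injective (img_inj g))]
  simp only [hf g hg]

theorem med_image (g : Equiv.Perm V) (hg : g ∈ G) (x y z : V) :
    {A | g '' A ∈ med E (g x) (g y) (g z)} = med E x y z := by
  ext A
  have h : ∀ w : V, g w ∈ g '' A ↔ w ∈ A := fun w => g.injective.mem_set_image
  show (g '' A ∈ E ∧ _) ↔ (A ∈ E ∧ _)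
  rw [h, h, h, mem_iff G E hinv g hg]

theorem vtx_image (g : Equiv.Perm V) (hg : g ∈ G) (v : Set (Set V)) (hv : IsVtx E v) :
    IsVtx E {A | g '' A ∈ v} := by
  constructor
  · intro A hA
    exact (mem_iff G E hinv g hg A).mp (hv.sub hA)
  · intro B hB
    rcases hv.total _ (hinv g hg B hB) with h | h
    · exact Or.inl h
    · right
      show g '' Bᶜ ∈ v
      rw [image_compl]
      exact h
  · intro B hB hB'
    have : g '' Bᶜ ∈ v := hB'
    rw [image_compl] at this
    exact hv.excl _ hB this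
  · intro B hB C hC hBC
    exact hv.up _ hB _ (hinv g hg C hC) ((image_subset_image g B C).mpr hBC)
  · intro B hB
    obtain ⟨C, hC, hCB, hmin⟩ := hv.wf _ hB
    refine ⟨(g⁻¹ : Equiv.Perm V) '' C, ?_, ?_, ?_⟩
    · show g '' ((g⁻¹ : Equiv.Perm V) '' C) ∈ v
      rw [image_image_inv]
      exact hC
    · rw [← image_subset_image g, image_image_inv]
      exact hCB
    · intro D hD hDC
      rw [← image_subset_image g, image_image_inv] at hDC
      have := hmin _ hD hDC
      rw [← this, image_inv_image]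

end

end LIA_

open LIA_ in
theorem lia_proof (h1 : Stmt_VAB) (h2 : Stmt_HUA) (h3 : Stmt_NRV) (h4 : Stmt_MED) (h5 : Stmt_SIG)
    (h6 : Stmt_HHP) : Stmt_LIA := by
  classical
  intro V X G W hX hG hEF hW hLF
  obtain ⟨F0, hF0, hF0r⟩ := hEF
  obtain ⟨FW, hFW, hFWr⟩ := hLF
  obtain ⟨x0⟩ := hX.nonempty
  -- the set of triples
  let vs : List (Sym2 V) → Set V := fun l => {x | ∃ e ∈ l, x ∈ e}
  have hvs : ∀ l, (vs l).Finite := by
    intro l
    have e1 : vs l = ⋃ e ∈ {e | e ∈ l}, {x | x ∈ e} := by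
      ext x
      simp [vs]
    rw [e1]
    apply Set.Finite.biUnion (List.finite_toSet l)
    intro e _
    induction e using Sym2.ind with
    | _ a b =>
      apply Set.Finite.subset (Set.toFinite {a, b})
      intro x hx
      simpa using hx
  let T0 : Set (V × V × V) := ⋃ l ∈ FW, (vs l) ×ˢ ((vs l) ×ˢ (vs l))
  have hT0 : T0.Finite := by
    apply Set.Finite.biUnion hFW
    intro l _
    exact (hvs l).prod ((hvs l).prod (hvs l))
  have hrep : ∀ e : Sym2 V, ∃ p : V × V, e = s(p.1, p.2) := by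
    intro e
    induction e using Sym2.ind with
    | _ a b => exact ⟨(a, b), rfl⟩
  choose pp hpp using hrep
  refine ⟨hF0.toFinset.card + hT0.toFinset.card, ?_⟩
  intro E N hE hWC S hSE hSi
  have hNS : NestSet E := hE.toNestSet
  have hinv := hE.inv
  -- the linear map
  let Φ : (S → ZMod 2) → (hF0.toFinset → ZMod 2) × (hT0.toFinset → ZMod 2) := fun c =>
    (fun e => sig E (ff G S c) (pp e.1).1 (pp e.1).2,
     fun t => if IsVtx E (med E t.1.1 t.1.2.1 t.1.2.2) then
        hh (ff G S c) (med E t.1.1 t.1.2.1 t.1.2.2) x0 else 0)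
  have hfc : ∀ c : S → ZMod 2, ∀ A ∈ E, ff G S c Aᶜ = ff G S c A := fun c A _ => ff_compl G S c A
  have hfi : ∀ c : S → ZMod 2, ∀ g ∈ G, ∀ A, ff G S c (g '' A) = ff G S c A :=
    fun c g hg A => ff_image G S c A g hg
  -- injectivity at zero
  have key : ∀ δ : S → ZMod 2,
      (∀ e ∈ F0, sig E (ff G S δ) (pp e).1 (pp e).2 = 0) →
      (∀ t ∈ T0, IsVtx E (med E t.1 t.2.1 t.2.2) →
        hh (ff G S δ) (med E t.1 t.2.1 t.2.2) x0 = 0) → δ = 0 := by
    intro δ hδ1 hδ2
    have hadd := h5 V E (ff G S δ) hNS hE.lf (hfc δ)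
    have hsame : ∀ x : V, sig E (ff G S δ) x x = 0 := by
      intro x
      unfold sig
      have : {A : Set V | A ∈ E ∧ x ∈ A ∧ x ∉ A} = ∅ := by
        ext A
        constructor
        · rintro ⟨-, h, h'⟩
          exact absurd h h'
        · intro h
          exact absurd h (Set.notMem_empty _)
      rw [this, finsum_mem_empty]
    have hsymm : ∀ x y : V, sig E (ff G S δ) x y = 0 → sig E (ff G S δ) y x = 0 := by
      intro x y h
      have := hadd x y x
      rw [hsame, h, zero_add] at this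
      exact this.symm
    have hadj : ∀ x y : V, X.Adj x y → sig E (ff G S δ) x y = 0 := by
      intro x y hxy
      obtain ⟨g, hg, e, he, hge⟩ := hF0r s(x, y) hxy
      have e1 := hδ1 e he
      rw [hpp e, Sym2.map_mk, Sym2.eq_iff] at hge
      rcases hge with ⟨ha, hb⟩ | ⟨ha, hb⟩
      · rw [← ha, ← hb]
        rw [sig_image G E hinv _ (hfi δ) g hg]
        exact e1
      · apply hsymm
        rw [← ha, ← hb]
        rw [sig_image G E hinv _ (hfi δ) g hg]
        exact e1
    have hall : ∀ x y : V, sig E (ff G S δ) x y = 0 := by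
      intro x y
      obtain ⟨p⟩ := hX.preconnected x y
      induction p with
      | nil => exact hsame _
      | cons h p ih =>
        rw [hadd _ _ _, hadj _ _ h, ih, zero_add]
    obtain ⟨h61, h62, h63⟩ := h6 V E (ff G S δ) hNS hE.lf (hfc δ)
    have hbase : ∀ v, IsVtx E v → ∀ x y : V, hh (ff G S δ) v x = hh (ff G S δ) v y := by
      intro v hv x y
      have := h62 v hv x y
      rw [hall] at this
      have e2 : hh (ff G S δ) v x = -hh (ff G S δ) v y := eq_neg_of_add_eq_zero_left this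
      rw [e2]
      exact ZMod.neg_eq_self_mod_two _
    have hzero : ∀ v, IsVtx E v → ∀ x : V, hh (ff G S δ) v x = 0 := by
      intro v hv x
      obtain ⟨hu1, hu2, hu3, hu4⟩ := h2 V E v hNS hv
      by_cases hreal : ∀ y : V, ∃ C ∈ Hub v, y ∈ C
      · obtain ⟨l, hl, a, b, c, ha, hb, hc, C1, hC1, C2, hC2, C3, hC3, h12, h13, h23, ha1, hb2, hc3⟩ :=
          h3 V X W E v hX hNS hW hWC hv hreal
        obtain ⟨g, hg, l0, hl0, hgl⟩ := hFWr l hl
        have hpre : ∀ w : V, (∃ e ∈ l, w ∈ e) → ∃ w' ∈ vs l0, g w' = w := by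
          rintro w ⟨e, he, hwe⟩
          rw [← hgl, List.mem_map] at he
          obtain ⟨e0, he0, rfl⟩ := he
          rw [Sym2.mem_map] at hwe
          obtain ⟨w', hw', rfl⟩ := hwe
          exact ⟨w', ⟨e0, he0, hw'⟩, rfl⟩
        obtain ⟨a', ha', rfl⟩ := hpre a ha
        obtain ⟨b', hb', rfl⟩ := hpre b hb
        obtain ⟨c', hc', rfl⟩ := hpre c hc
        have hmed := h4 V E v (g a') (g b') (g c') C1 C2 C3 hNS hv hC1 hC2 hC3 h12 h13 h23 ha1 hb2 hc3
        have hmem : ((a', b', c') : V × V × V) ∈ T0 := by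
          apply Set.mem_biUnion hl0
          exact ⟨ha', hb', hc'⟩
        have hv' := vtx_image G E hinv g hg v hv
        have hset : {A | g '' A ∈ v} = med E a' b' c' := by
          rw [hmed]
          exact med_image G E hinv g hg a' b' c'
        rw [hset] at hv'
        have e3 := hδ2 (a', b', c') hmem hv'
        rw [hbase v hv x (g x0), hh_image G E hinv _ (hfi δ) g hg v x0, hset]
        exact e3
      · push Not at hreal
        obtain ⟨y, hy⟩ := hreal
        rw [hbase v hv x y]
        unfold hh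
        have : {B : Set V | B ∈ v ∧ y ∉ B} = ∅ := by
          ext B
          constructor
          · rintro ⟨hB, hyB⟩
            obtain ⟨C, hC, hBC | hBC⟩ := hu3 B (hv.sub hB)
            · exfalso
              have h7 : Cᶜ ⊆ Bᶜ := Set.compl_subset_compl.mpr hBC
              exact hv.excl B hB (hv.up _ hC.1 _ (hNS.compl B (hv.sub hB)) h7)
            · exact absurd (hBC hyB) (hy C hC)
          · intro h
            exact absurd h (Set.notMem_empty _)
        rw [this, finsum_mem_empty]
    funext A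
    have h8 := h63 A.1 (hSE A.1 A.2) x0
    rw [ff_self G S hSi δ A, hzero _ (h1 V E A.1 hNS hE.lf (hSE A.1 A.2)).1,
      hzero _ (h1 V E A.1ᶜ hNS hE.lf (hNS.compl _ (hSE A.1 A.2))).1, add_zero] at h8
    exact h8
  have hinj : Function.Injective Φ := by
    intro c c' hcc
    have hd : c = c' + (c - c') := by ring
    set δ := c - c' with hδ
    have hsplit : ∀ B, ff G S c B = ff G S c' B + ff G S δ B := by
      intro B
      conv_lhs => rw [hd]
      exact ff_add G S c' δ B
    have hzero := key δ (by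
      intro e he
      have h9 : (Φ c).1 ⟨e, by simpa using he⟩ = (Φ c').1 ⟨e, by simpa using he⟩ := by rw [hcc]
      have h10 : sig E (ff G S c) (pp e).1 (pp e).2 = sig E (ff G S c') (pp e).1 (pp e).2 := h9
      have h11 : sig E (ff G S c) (pp e).1 (pp e).2
          = sig E (ff G S c') (pp e).1 (pp e).2 + sig E (ff G S δ) (pp e).1 (pp e).2 := by
        unfold sig
        rw [← finsum_mem_add_distrib (hE.lf _ _)]
        simp only [hsplit]
      rw [h10] at h11
      exact (left_eq_add.mp h11)) (by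
      intro t ht hvt
      have h9 : (Φ c).2 ⟨t, by simpa using ht⟩ = (Φ c').2 ⟨t, by simpa using ht⟩ := by rw [hcc]
      have h10 : hh (ff G S c) (med E t.1 t.2.1 t.2.2) x0
          = hh (ff G S c') (med E t.1 t.2.1 t.2.2) x0 := by
        have e4 : (Φ c).2 ⟨t, by simpa using ht⟩ = hh (ff G S c) (med E t.1 t.2.1 t.2.2) x0 :=
          if_pos hvt
        have e5 : (Φ c').2 ⟨t, by simpa using ht⟩ = hh (ff G S c') (med E t.1 t.2.1 t.2.2) x0 :=
          if_pos hvt
        rw [← e4, ← e5, h9]
      have hfin := (h6 V E (ff G S c) hNS hE.lf (hfc c)).1 _ hvt x0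
      have h11 : hh (ff G S c) (med E t.1 t.2.1 t.2.2) x0
          = hh (ff G S c') (med E t.1 t.2.1 t.2.2) x0 + hh (ff G S δ) (med E t.1 t.2.1 t.2.2) x0 := by
        unfold hh
        rw [← finsum_mem_add_distrib hfin]
        simp only [hsplit]
      rw [h10] at h11
      exact (left_eq_add.mp h11))
    rw [hd, hzero, add_zero]
  have hcard := Fintype.card_le_of_injective Φ hinj
  rw [Fintype.card_prod, Fintype.card_fun, Fintype.card_fun, Fintype.card_fun, ZMod.card,
    ← pow_add, Fintype.card_coe, Fintype.card_coe, Fintype.card_coe] at hcard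
  exact (Nat.pow_le_pow_iff_right (by norm_num)).mp hcard

end Pool.Agent.ACC
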