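import Pool.Agent.ACC.StmtsB

/-!
# LKE: existence of links
-/

set_option autoImplicit false

namespace Pool.Agent.ACC

theorem lke_proof : Stmt_LKE := by
  intro V P X S Y x0 y0 hX hS hY hx0 hy0 h1 h2
  obtain ⟨a, ha, b, hb, hab⟩ := h1
  obtain ⟨a', ha', b', hb', hab'⟩ := h2
  obtain ⟨p1, s1⟩ := hX.2 x0 hx0 a ha
  obtain ⟨p2, s2⟩ := hS.2 b hb b' hb'
  obtain ⟨p3, s3⟩ := hY.2 a' ha' y0 hy0
  exact ⟨{ a := a, b := b, b' := b', a' := a', p1 := p1, h1 := hab, p2 := p2, h2 := hab',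
           p3 := p3, s1 := s1, s2 := s2, s3 := s3 }⟩

end Pool.Agent.ACC
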