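import Pool.Agent.ACC.LibB

set_option autoImplicit false

/-! MP_851278_al, module LKP: the colouring of two links -/

namespace Pool.Agent.ACC

theorem lkp_proof : Stmt_LKP := by
  intro V R X Y S T x0 y0 L M a k hpl
  obtain ⟨c, hc, hcb⟩ := hpl x0 (L.walk.append M.walk.reverse)
  refine ⟨fun x y => c x y + (k + c a.1 a.2), R.col_add hc (R.col_const _), ?_, ?_⟩
  · intro y z h
    have h1 := hcb y z h
    rw [SimpleGraph.Walk.edges_append, SimpleGraph.Walk.edges_reverse, L.walk_edges,
      M.walk_edges, par_append, par_reverse] at h1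
    rw [par_append, ← h1]
    have h2 := z2_add_self (k + c a.1 a.2)
    calc c y z + (k + c a.1 a.2) + (c z y + (k + c a.1 a.2))
        = c y z + c z y + ((k + c a.1 a.2) + (k + c a.1 a.2)) := by ring
      _ = _ := by rw [h2, add_zero]
  · have h2 := z2_add_self (c a.1 a.2)
    show c a.1 a.2 + (k + c a.1 a.2) = k
    calc c a.1 a.2 + (k + c a.1 a.2) = k + (c a.1 a.2 + c a.1 a.2) := by ring
      _ = k := by rw [h2, add_zero]

end Pool.Agent.ACC
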