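import Pool.Agent.ACC.LibB

/-!
MP_851278_al, module LNF: disjoint connections in a spanner between sets which are not separated
by small cuts.
-/

set_option autoImplicit false

namespace Pool.Agent.ACC

namespace LNF_

open Classical in
theorem card_bound {V : Type} (B C : V → Finset V) (a b n : ℕ) (T' : Finset V)
    (hB : ∀ t, (B t).card ≤ a) (hC : ∀ x, (C x).card ≤ b) (hT : T'.card < n) :
    (T'.biUnion (fun t => (B t).biUnion (fun x => (C x).image (fun y => s(x, y))))).card
      ≤ n * (a * b) := by
  have h1 : ∀ t ∈ T', ((B t).biUnion (fun x => (C x).image (fun y => s(x, y)))).card ≤ a * b := by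
    intro t _
    refine (Finset.card_biUnion_le_card_mul _ _ b ?_).trans (Nat.mul_le_mul_right b (hB t))
    intro x _
    exact Finset.card_image_le.trans (hC x)
  exact (Finset.card_biUnion_le_card_mul _ _ (a * b) h1).trans
    (Nat.mul_le_mul_right _ hT.le)

end LNF_

theorem lnf_proof (h1 : Stmt_MES) : Stmt_LNF := by
  intro f lam n
  refine ⟨n * (f lam * f 1), ?_⟩
  intro V X P S T hX hBG hSp hS hT hSne hTne hNS hfar
  classical
  have hlX : LocFin X := bg_locFin hBG
  have hlP : LocFin P := locFin_of_le hSp.1 hlX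
  have hX' : (nbd P S lam).Finite := nbd_finite hSp.2.1 hlP hS lam
  have hY' : (nbd P T lam).Finite := nbd_finite hSp.2.1 hlP hT lam
  have hdis : Disjoint (nbd P S lam) (nbd P T lam) := by
    rw [Set.disjoint_left]
    intro a ha hb
    exact (hfar a ha a hb).1 rfl
  refine h1 V P (nbd P S lam) (nbd P T lam) n hlP hX' hY' hdis
    (fun a ha b hb => (hfar a ha b hb).2) ?_
  intro T' hT' hout
  by_contra hno
  let D : Set V := {z | ∃ s ∈ nbd P S lam, ∃ w : P.Walk s z, ∀ u ∈ w.support, u ∉ T'}
  have hSD : S ⊆ D := by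
    intro s hs
    have hs' : s ∈ nbd P S lam := subset_nbd S lam hs
    refine ⟨s, hs', SimpleGraph.Walk.nil, ?_⟩
    intro u hu
    rw [SimpleGraph.Walk.support_nil, List.mem_singleton] at hu
    subst hu
    intro hu
    exact (hout u hu).1 hs'
  have hTD : T ⊆ Dᶜ := by
    intro t ht hD
    obtain ⟨s, hs, w, hw⟩ := hD
    exact hno ⟨s, hs, t, subset_nbd T lam ht, w, hw⟩
  let B : V → Finset V := fun t => (hBG t lam).1.toFinset
  let C : V → Finset V := fun x => (hBG x 1).1.toFinset
  have hB : ∀ t, (B t).card ≤ f lam := by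
    intro t
    have := (hBG t lam).2
    rwa [Set.ncard_eq_toFinset_card _ (hBG t lam).1] at this
  have hC : ∀ x, (C x).card ≤ f 1 := by
    intro x
    have := (hBG x 1).2
    rwa [Set.ncard_eq_toFinset_card _ (hBG x 1).1] at this
  have hsub : bd X D ⊆
      ((T'.biUnion (fun t => (B t).biUnion (fun x => (C x).image (fun y => s(x, y)))) :
        Finset (Sym2 V)) : Set (Sym2 V)) := by
    rintro e ⟨x, y, hxy, hx, hy, rfl⟩
    obtain ⟨s, hs, w0, hw0⟩ := hx
    obtain ⟨w, hwl⟩ := hSp.2.1.exists_walk_length_eq_dist x y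
    have hlen : w.length ≤ lam := by
      rw [hwl]; exact hSp.2.2 x y hxy
    have hex : ∃ t ∈ w.support, t ∈ T' := by
      by_contra hne
      push Not at hne
      refine hy ⟨s, hs, w0.append w, ?_⟩
      intro u hu
      rw [SimpleGraph.Walk.mem_support_append_iff] at hu
      rcases hu with hu | hu
      · exact hw0 u hu
      · exact hne u hu
    obtain ⟨t, htw, htT⟩ := hex
    have h2 := support_dist w htw
    have h3 := spanner_dist_le hSp t x
    have h4 : P.dist t x = P.dist x t := SimpleGraph.dist_comm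
    have hxB : x ∈ B t := by
      simp only [B, Set.Finite.mem_toFinset]
      show X.dist t x ≤ lam
      omega
    have hyC : y ∈ C x := by
      simp only [C, Set.Finite.mem_toFinset]
      show X.dist x y ≤ 1
      rw [SimpleGraph.dist_eq_one_iff_adj.mpr hxy]
    rw [Finset.mem_coe, Finset.mem_biUnion]
    refine ⟨t, htT, ?_⟩
    rw [Finset.mem_biUnion]
    refine ⟨x, hxB, ?_⟩
    rw [Finset.mem_image]
    exact ⟨y, hyC, rfl⟩
  have hsmall : D ∈ Small X (n * (f lam * f 1)) := by
    refine ⟨(Finset.finite_toSet _).subset hsub, ?_⟩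
    refine (Set.ncard_le_ncard hsub (Finset.finite_toSet _)).trans ?_
    rw [Set.ncard_coe_finset]
    exact LNF_.card_bound B C (f lam) (f 1) n T' hB hC hT'
  exact hNS D hsmall ⟨hSD, hTD⟩

end Pool.Agent.ACC
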