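import Pool.Agent.ACC.StmtsC
import Pool.Agent.ACC.LibB

/-!
Squad ACD, module LV0: the data for the torsos of `X`.
-/

set_option autoImplicit false

namespace Pool.Agent.ACC

theorem lv0_proof (hEFV : Stmt_EFV) (hNFE : Stmt_NFE) (hTOG : Stmt_TOG) (hZRH : Stmt_ZRH)
    (hPCL : Stmt_PCL) (hCFM : Stmt_CFM) (hCFZ : Stmt_CFZ) (hBGX : Stmt_BGX) (hZPZ : Stmt_ZPZ)
    (hZIN : Stmt_ZIN) (hFIB : Stmt_FIB) (hTWB : Stmt_TWB) (hMLT : Stmt_MLT) (hCIN : Stmt_CIN) :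
    Stmt_LV0 := by
  intro V X G R lam hlam hX hedge hlf haut hvf hsp hpl
  obtain ⟨f, hf⟩ := hBGX V X G hX hlf haut hvf
  obtain ⟨k, hk⟩ := hCFM V X G f lam hlam hX hlf haut hvf hf
  obtain ⟨ρ2, hρ2⟩ := hZRH V X G hX hlf haut hvf k
  obtain ⟨ρ, hρ⟩ := hk ρ2
  obtain ⟨ch, hch⟩ := hFIB V X G hX hlf haut hvf k
  obtain ⟨C1, hC1⟩ := hCIN V X G f lam hlam hX hlf haut hvf hf ρ ch
  obtain ⟨C, hC⟩ := hρ (max C1 (2 * ρ + ch))
  have hnf : NestFam X G (EE X k) k := hNFE V X G hX haut (hEFV V X G hlf haut hvf) k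
  refine ⟨k, fun v hv hinf => ?_⟩
  obtain ⟨hfb, hfc, hzd⟩ := hch v hv
  have hZ : Zp X (tproj v) = ZZ X v := hZPZ V X (EE X k) v hX hedge hnf.toNestSet hv
  have hautH : IsAut X (stabV G v) := fun g hg => haut g hg.1
  obtain ⟨F0, a0, h1, h2, h3, h4, h5, h6, h7, h8⟩ := hC (ZZ X v) (stabV G v) R hautH
    (fun g hg x hx => hZIN V X G v haut g hg x hx)
    (fun x hx y hy D hD => hρ2 v hv hinf x hx y hy D hD) ⟨hsp, hpl⟩
  -- a section of the projection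
  have hex : ∀ S' : Set (TV v), ∃ S : Set V, (∃ S0 ∈ F0, tproj v '' S0 = S') →
      S ∈ F0 ∧ tproj v '' S = S' := by
    intro S'
    by_cases h : ∃ S0 ∈ F0, tproj v '' S0 = S'
    · obtain ⟨S0, hS0, hS0'⟩ := h
      exact ⟨S0, fun _ => ⟨hS0, hS0'⟩⟩
    · exact ⟨∅, fun h' => absurd h' h⟩
  choose sec hsec using hex
  have hsub : ∀ S ∈ F0, S ⊆ Zp X (tproj v) := fun S hS => by rw [hZ]; exact h1 S hS
  have hsecS : ∀ S ∈ F0, sec (tproj v '' S) = S := by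
    intro S hS
    obtain ⟨hT, hT'⟩ := hsec (tproj v '' S) ⟨S, hS, rfl⟩
    symm
    apply h4 S hS _ hT
    refine hC1 (TV v) (tproj v) R S (sec (tproj v '' S)) (a0 S) (a0 (sec (tproj v '' S))) hsp hpl
      (h3 S hS) (h3 _ hT) hzd (hsub S hS) (hsub _ hT) (h5 S hS) (h5 _ hT) ?_ hT'.symm
    obtain ⟨x, hx, y, hy, hxy⟩ := h6 S hS
    exact ⟨x, hx, y, hy, lt_of_le_of_lt (le_max_left _ _) hxy⟩
  have hsurj : Function.Surjective (tproj v) := fun u =>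
    Quot.inductionOn u (fun x => ⟨x, rfl⟩)
  obtain ⟨hpc, hplf, hpd⟩ := hPCL V (TV v) X (tproj v) hX hsurj hfb
  obtain ⟨htg1, htg2, htg3⟩ := hTOG V X G (EE X k) v k hX haut hnf hv
  refine ⟨{S' | ∃ S0 ∈ F0, tproj v '' S0 = S'}, fun S' => a0 (sec S'), C + ρ + ch, ?_⟩
  refine ⟨hX, hlf, hsp, hpl, hsurj, hfb, hfc, ?_, htg1, htg2 hvf, ?_, ?_, ?_, ?_, ?_, ?_, ?_⟩
  · intro x hx y hy hxy
    exact (hzd x hx y hy hxy).trans (Nat.le_add_left _ _)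
  · -- inv
    rintro s ⟨g, hg, hs⟩ S' ⟨S0, hS0, rfl⟩
    refine ⟨g '' S0, h2 g hg S0 hS0, ?_⟩
    rw [Set.image_image, Set.image_image]
    exact Set.image_congr (fun x _ => (hs x).symm)
  · -- ne
    rintro S' ⟨S0, hS0, rfl⟩
    obtain ⟨x, hx, _⟩ := h6 S0 hS0
    exact ⟨tproj v x, x, hx, rfl⟩
  · -- adj
    intro S' hS'
    exact h3 _ (hsec S' hS').1
  · -- inj
    intro S' hS' T' hT' he
    have := h4 _ (hsec S' hS').1 _ (hsec T' hT').1 he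
    rw [← (hsec S' hS').2, ← (hsec T' hT').2, this]
  · -- near
    intro S' hS' u hu
    obtain ⟨hS0, hS0'⟩ := hsec S' hS'
    rw [← hS0'] at hu
    obtain ⟨x, hx, rfl⟩ := hu
    obtain ⟨y, hxy, hty⟩ := h5 _ hS0 x hx
    obtain ⟨x1, hx1, x2, hx2, hx12⟩ := h6 _ hS0
    obtain ⟨y1, hty1, hpy1⟩ := hMLT V (TV v) X R (tproj v) ch ρ hX hzd (a0 (sec S')) x1 x2
      (hsub _ hS0 hx1) (hsub _ hS0 hx2) (lt_of_le_of_lt (le_max_right _ _) hx12)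
      (h5 _ hS0 x1 hx1) (h5 _ hS0 x2 hx2) y
    obtain ⟨z, hz, htz, hxz⟩ := hCFZ V (TV v) X R lam (tproj v) ch ρ hX hsp hfb hzd
      (a0 (sec S')) x y y1 (h3 _ hS0) (hsub _ hS0 hx) hxy hty hty1 hpy1
    exact ⟨z, hz, htz, x, hsub _ hS0 hx, rfl, hxz.trans (by omega)⟩
  · -- touch
    intro S' hS' x hx ht
    obtain ⟨hS0, hS0'⟩ := hsec S' hS'
    rw [hZ] at hx
    rw [← hS0']
    exact ⟨x, h7 _ hS0 x hx ht, rfl⟩
  · -- bdd
    intro b hb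
    rcases h8 b hb with ⟨S, hS, he⟩ | hb8
    · left
      refine ⟨tproj v '' S, ⟨S, hS, rfl⟩, ?_⟩
      show R.Eqv (a0 (sec (tproj v '' S))) b
      rw [hsecS S hS]
      exact he
    · right
      obtain ⟨y1, y2, hy⟩ := hTWB V X {x | x ∈ ZZ X v ∧ R.Touch b x} C ⟨b.1⟩
        (fun x hx y hy z hz => hb8 x hx.1 y hy.1 z hz.1 hx.2 hy.2 hz.2)
      refine ⟨tproj v y1, tproj v y2, ?_⟩
      intro b' hb' he hne
      have hXb : X.Adj b'.1 b'.2 := hsp.1 hb'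
      have ht := R.touch_of_adj hb' he
      have hz1 : b'.1 ∈ ZZ X v := by
        rw [← hZ]
        exact ⟨b'.2, hXb, hne⟩
      have hz2 : b'.2 ∈ ZZ X v := by
        rw [← hZ]
        exact ⟨b'.1, hXb.symm, hne.symm⟩
      have key : ∀ x, x ∈ ZZ X v → R.Touch b x →
          (push X (tproj v)).dist (tproj v y1) (tproj v x) ≤ C + ρ + ch ∨
          (push X (tproj v)).dist (tproj v y2) (tproj v x) ≤ C + ρ + ch := by
        intro x hx htx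
        rcases hy x ⟨hx, htx⟩ with h | h
        · exact Or.inl ((hpd y1 x).trans (h.trans (by omega)))
        · exact Or.inr ((hpd y2 x).trans (h.trans (by omega)))
      exact ⟨key _ hz1 ht.1, key _ hz2 ht.2⟩

end Pool.Agent.ACC
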