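import Pool.Agent.ACC.StmtsC
import Pool.Agent.ACC.LibB

/-!
MP_851278_al, squad ACD, module LV1: the cone graph is accessible.
-/

set_option autoImplicit false

namespace Pool.Agent.ACC

namespace LV1_

theorem chain {V U : Type} {X : SimpleGraph V} (p : V → U) {r : ℕ} (hr : 1 ≤ r) {x y : V}
    (w : X.Walk x y) (t : U) (h : ∀ z ∈ w.support, p z = t) :
    Relation.ReflTransGen (fun a b => p a = p b ∧ X.dist a b ≤ r) x y := by
  induction w with
  | nil => exact Relation.ReflTransGen.refl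
  | @cons u v w' hadj q ih =>
    refine Relation.ReflTransGen.head ⟨?_, ?_⟩ (ih (fun z hz => h z ?_))
    · rw [h u (by simp), h v (by simp)]
    · rw [SimpleGraph.dist_eq_one_iff_adj.mpr hadj]
      exact hr
    · simp [hz]

end LV1_

open LV1_ in
theorem lv1_proof (h1 : Stmt_EFV) (h2 : Stmt_CRT) (h3 : Stmt_PCL) (h4 : Stmt_ST1)
    (h5 : Stmt_FLF) (h6 : Stmt_CNC) (h7 : Stmt_CNA) (h8 : Stmt_CNE) (h9 : Stmt_CNW) :
    Stmt_LV1 := by
  intro V U X R lam p K F a c D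
  obtain ⟨hYc, hYl, hYd⟩ := h3 V U X p D.con D.sur D.fb
  have hEF : EdgeFin (push X p) K := h1 U (push X p) K hYl D.aut D.vf
  have hflf : ∀ u, {S | S ∈ F ∧ u ∈ S}.Finite := h5 V U X R lam p K F a c D
  obtain ⟨r, hr1, hr2⟩ : ∃ r : ℕ, lam + 1 ≤ r ∧ 6 * c + 5 ≤ r :=
    ⟨max (lam + 1) (6 * c + 5), le_max_left _ _, le_max_right _ _⟩
  have hco : CoCut (cone (push X p) F) (coneW (push X p) F r) := by
    refine h4 V U X R lam r c p F a D.con D.lf D.sp D.pl D.sur hr1 hr2 D.fb ?_ D.adj ?_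
      D.touch D.bdd
    · intro x y hxy
      obtain ⟨w, hw⟩ := D.fc x y hxy
      exact chain p (by omega) w (p x) hw
    · intro S hS u hu
      obtain ⟨z, hz, ht, x, hx, hxu, hd⟩ := D.near S hS u hu
      refine ⟨z, ht, D.touch S hS z hz ht, ?_⟩
      obtain ⟨w, hw⟩ := hYc.exists_walk_length_eq_dist u (p z)
      refine ⟨w, ?_⟩
      have h10 := hYd x z
      rw [hxu] at h10
      omega
  obtain ⟨hcw, hlf⟩ := h9 U (push X p) K F r D.aut hYl D.vf D.inv hflf
  obtain ⟨N, -, hN, -⟩ := h2 (U ⊕ F) (cone (push X p) F) (coneG K F) (coneW (push X p) F r)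
    (h6 U (push X p) F hYc D.ne) (h7 U (push X p) K F D.aut D.inv).1
    (h8 U (push X p) K F D.aut hEF D.vf D.inv hflf) hcw hlf hco
  exact ⟨N, hN⟩

end Pool.Agent.ACC
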