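import Pool.Agent.ACC.StmtsC

/-!
MP_851278_al, module LV2: the quotient is accessible.
-/

set_option autoImplicit false

namespace Pool.Agent.ACC

namespace LV2_

theorem bd_single {W : Type} (Z : SimpleGraph W) (hZ : LocFin Z) (w : W) :
    (bd Z {w}).Finite := by
  refine ((hZ w).image (fun y => s(w, y))).subset ?_
  rintro e ⟨x, y, hxy, hx, -, rfl⟩
  have hxw : x = w := hx
  subst hxw
  exact ⟨y, hxy, rfl⟩

end LV2_

open LV2_ in
theorem lv2_proof (h1 : Stmt_EFV) (h2 : Stmt_CRT) (h3 : Stmt_TOC) (h4 : Stmt_TOE)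
    (h5 : Stmt_TOG) (h6 : Stmt_TOA) (h7 : Stmt_PCL) (h8 : Stmt_STC) (h9 : Stmt_PPP)
    (h10 : Stmt_PFB) (h11 : Stmt_LFW) (h12 : Stmt_LV1) (h13 : Stmt_CRE) (h14 : Stmt_FBC)
    (h15 : Stmt_EXC) (h16 : Stmt_UNQ) : Stmt_LV2 := by
  intro V U X R lam p K F a c D
  obtain ⟨hYc, hYl, -⟩ := h7 V U X p D.con D.sur D.fb
  have hYe : EdgeFin (push X p) K := h1 U (push X p) K hYl D.aut D.vf
  obtain ⟨N, hgen⟩ := h12 V U X R lam p K F a c D
  have hNF := h13 V U X R lam p K F a c D N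
  obtain ⟨r0, hr0⟩ := h14 V U X R lam p K F a c D N
  obtain ⟨c', hc'⟩ := h15 V U X R lam p K F a c D N
  refine h6 U (push X p) K _ N hYc D.aut hNF ?_
  intro v hv
  obtain ⟨hTc, hTl'⟩ := h3 U (push X p) K _ v N hYc hNF hv
  have hTl := hTl' hYl
  obtain ⟨hTa, hTv', hTe'⟩ := h5 U (push X p) K _ v N hYc D.aut hNF hv
  have hTv := hTv' D.vf
  have hTe := hTe' hYe
  have hpp : torso (push X p) v = push X (tproj v ∘ p) := h9 V U (TV v) X p (tproj v)
  obtain ⟨r, hr⟩ : ∃ r, r = max (max (lam + 1) (6 * c' + 5)) r0 := ⟨_, rfl⟩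
  have hr1 : lam + 1 ≤ r := by rw [hr]; exact (le_max_left _ _).trans (le_max_left _ _)
  have hr2 : 6 * c' + 5 ≤ r := by rw [hr]; exact (le_max_right _ _).trans (le_max_left _ _)
  have hr3 : r0 ≤ r := by rw [hr]; exact le_max_right _ _
  have hsur : Function.Surjective (tproj v ∘ p) := by
    intro w
    obtain ⟨u, hu⟩ := Quot.exists_rep w
    obtain ⟨x, hx⟩ := D.sur u
    refine ⟨x, ?_⟩
    change tproj v (p x) = w
    rw [hx]
    exact hu
  have hfb : ∀ w, (bd X ((tproj v ∘ p) ⁻¹' {w})).Finite := by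
    intro w
    have g1 := (h4 U (push X p) K _ v N hNF hv {w}).1 (bd_single _ hTl w)
    exact h10 V U X p D.fb (tproj v ⁻¹' {w}) g1.1
  have hco := h8 V (TV v) X R lam r c' (tproj v ∘ p)
    {b | ∃ S ∈ F, S.Infinite ∧ (∀ A ∈ v, (S \ A).Finite) ∧ b = a S}
    D.con D.lf D.sp D.pl hsur hr1 hr2 hfb
    (by
      intro x y hxy
      have g1 := hr0 v hv x y hxy
      exact Relation.ReflTransGen.mono (fun s t hst => ⟨hst.1, hst.2.trans hr3⟩) x y g1)
    (by
      rintro b ⟨S, hS, hSi, hSf, rfl⟩ b' ⟨T, hT, hTi, hTf, rfl⟩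
      have hST := h16 V U X R lam p K F a c D N hgen v hv S hS T hT hSi hTi hSf hTf
      rw [hST]
      exact R.eqv_refl _)
    (by
      intro b hb hnb
      refine hc' v hv b hb ?_
      rintro S hS hSb ⟨hSi, hSf⟩
      exact hnb (a S) ⟨S, hS, hSi, hSf, rfl⟩ (R.eqv_symm hSb))
  rw [← hpp] at hco
  obtain ⟨hcw, hlf⟩ := h11 (TV v) (torso (push X p) v) (torsoG K v) r hTl hTa hTv
  obtain ⟨-, -, -, hacc⟩ := h2 (TV v) (torso (push X p) v) (torsoG K v)
    (CWr (torso (push X p) v) r) hTc hTa hTe hcw hlf hco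
  exact hacc

end Pool.Agent.ACC
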