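import Pool.Agent.ACC.Lib

set_option autoImplicit false

namespace Pool.Agent.ACC

namespace MCL_

theorem conn_union {V V'' : Type} {Y : SimpleGraph V} {Y'' : SimpleGraph V''} {K : V → Set V''}
    (hK : ∀ x, (Y''.induce (K x)).Connected)
    (hA : ∀ x y, Y.Adj x y → ∃ a ∈ K x, ∃ b ∈ K y, Y''.Adj a b) {S : Set V}
    (hS : (Y.induce S).Connected) : (Y''.induce (⋃ x ∈ S, K x)).Connected := by
  set T : Set V'' := ⋃ x ∈ S, K x with hT
  have hle : ∀ x ∈ S, K x ⊆ T := fun x hx => Set.subset_biUnion_of_mem (u := fun x => K x) hx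
  have cell : ∀ x (hx : x ∈ S) a b (ha : a ∈ K x) (hb : b ∈ K x),
      (Y''.induce T).Reachable ⟨a, hle x hx ha⟩ ⟨b, hle x hx hb⟩ := by
    intro x hx a b ha hb
    have h := (hK x).preconnected ⟨a, ha⟩ ⟨b, hb⟩
    exact h.map (SimpleGraph.induceHomOfLE Y'' (hle x hx)).toHom
  have key : ∀ (x y : S) (_ : (Y.induce S).Walk x y) (a b : V'') (ha : a ∈ K x) (hb : b ∈ K y),
      (Y''.induce T).Reachable ⟨a, hle x x.2 ha⟩ ⟨b, hle y y.2 hb⟩ := by
    intro x y p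
    induction p with
    | @nil u => intro a b ha hb; exact cell u u.2 a b ha hb
    | @cons u v w huv q ih =>
      intro a b ha hb
      have huv' : Y.Adj u v := huv
      obtain ⟨c, hc, d, hd, hcd⟩ := hA u v huv'
      have h1 := cell u u.2 a c ha hc
      have h2 := ih d b hd hb
      have h3 : (Y''.induce T).Adj ⟨c, hle u u.2 hc⟩ ⟨d, hle v v.2 hd⟩ := hcd
      exact (h1.trans h3.reachable).trans h2
  obtain ⟨x0⟩ := hS.nonempty
  obtain ⟨a0⟩ := (hK x0).nonempty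
  have : Nonempty T := ⟨⟨a0, hle x0 x0.2 a0.2⟩⟩
  refine ⟨?_⟩
  rintro ⟨a, ha⟩ ⟨b, hb⟩
  have ha' := ha
  have hb' := hb
  rw [hT] at ha' hb'
  simp only [Set.mem_iUnion] at ha' hb'
  obtain ⟨x, hx, hax⟩ := ha'
  obtain ⟨y, hy, hby⟩ := hb'
  obtain ⟨p⟩ := hS.preconnected ⟨x, hx⟩ ⟨y, hy⟩
  exact key ⟨x, hx⟩ ⟨y, hy⟩ p a b hax hby

end MCL_

theorem mcl_proof : Stmt_MCL := by
  intro V V'' Y Y'' K t hK hD hA hM
  rintro ⟨f, hf, hdis, hadj⟩
  apply hM
  refine ⟨fun i => ⋃ x ∈ f i, K x, fun i => MCL_.conn_union hK hA (hf i), ?_, ?_⟩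
  · intro i j hij
    have h := hdis hij
    rw [Set.disjoint_left]
    intro a ha hb
    simp only [Set.mem_iUnion] at ha hb
    obtain ⟨x, hx, hax⟩ := ha
    obtain ⟨y, hy, hay⟩ := hb
    have hxy : x ≠ y := by
      rintro rfl
      exact (Set.disjoint_left.1 h) hx hy
    exact (Set.disjoint_left.1 (hD x y hxy)) hax hay
  · intro i j hij
    obtain ⟨x, hx, y, hy, hxy⟩ := hadj i j hij
    obtain ⟨a, ha, b, hb, hab⟩ := hA x y hxy
    refine ⟨a, ?_, b, ?_, hab⟩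
    · simp only [Set.mem_iUnion]
      exact ⟨x, hx, ha⟩
    · simp only [Set.mem_iUnion]
      exact ⟨y, hy, hb⟩

end Pool.Agent.ACC
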