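import Pool.Agent.ACC.Lib

/-!
MP_851278_al, module MED: three points in three hubs determine the vertex of the tree.
-/

set_option autoImplicit false

namespace Pool.Agent.ACC

theorem med_proof (h1 : Stmt_HUA) : Stmt_MED := by
  intro V E v x y z C1 C2 C3 hE hv hC1 hC2 hC3 h12 h13 h23 hx hy hz
  obtain ⟨-, hdis, -, -⟩ := h1 V E v hE hv
  have key : ∀ B ∈ v, (x ∈ B ∧ y ∈ B) ∨ (y ∈ B ∧ z ∈ B) ∨ (x ∈ B ∧ z ∈ B) := by
    intro B hB
    obtain ⟨C, hC, hCB, hmin⟩ := hv.wf B hB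
    have hH : Cᶜ ∈ Hub v := by
      refine ⟨?_, ?_⟩
      · rw [compl_compl]; exact hC
      · rw [compl_compl]; exact hmin
    have hout : ∀ C' ∈ Hub v, C' ≠ Cᶜ → ∀ w ∈ C', w ∈ B := by
      intro C' hC' hne w hw
      apply hCB
      by_contra hwC
      exact Set.disjoint_left.1 (hdis C' hC' Cᶜ hH hne) hw hwC
    by_cases e1 : C1 = Cᶜ
    · have e2 : C2 ≠ Cᶜ := fun h => h12 (e1.trans h.symm)
      have e3 : C3 ≠ Cᶜ := fun h => h13 (e1.trans h.symm)
      exact Or.inr (Or.inl ⟨hout C2 hC2 e2 y hy, hout C3 hC3 e3 z hz⟩)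
    · by_cases e2 : C2 = Cᶜ
      · have e3 : C3 ≠ Cᶜ := fun h => h23 (e2.trans h.symm)
        exact Or.inr (Or.inr ⟨hout C1 hC1 e1 x hx, hout C3 hC3 e3 z hz⟩)
      · exact Or.inl ⟨hout C1 hC1 e1 x hx, hout C2 hC2 e2 y hy⟩
  ext B
  constructor
  · intro hB
    exact ⟨hv.sub hB, key B hB⟩
  · rintro ⟨hBE, hB⟩
    rcases hv.total B hBE with h | h
    · exact h
    · exfalso
      have := key _ h
      simp only [Set.mem_compl_iff] at this
      tauto

end Pool.Agent.ACC
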