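import Pool.Agent.ACC.StmtsA

/-!
# ACC, module MEN: Menger's theorem (vertex version) for two finite sets of vertices
-/

set_option autoImplicit false

namespace Pool.Agent.ACC

namespace MEN_

open SimpleGraph

variable {V : Type}

/-- `a` and `b` are joined by a walk inside `C` -/
def Lk (G : SimpleGraph V) (C : Set V) (a b : V) : Prop :=
  ∃ p : G.Walk a b, ∀ v ∈ p.support, v ∈ C

lemma lk_refl {G : SimpleGraph V} {C : Set V} {a : V} (h : a ∈ C) : Lk G C a a :=
  ⟨Walk.nil, by simpa using h⟩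

lemma lk_eq {G : SimpleGraph V} {C : Set V} {a b : V} (h : a = b) (ha : a ∈ C) :
    Lk G C a b := by
  subst h
  exact lk_refl ha

lemma lk_mono {G : SimpleGraph V} {C D : Set V} {a b : V} (h : Lk G C a b) (hCD : C ⊆ D) :
    Lk G D a b := by
  obtain ⟨p, hp⟩ := h
  exact ⟨p, fun v hv => hCD (hp v hv)⟩

lemma lk_symm {G : SimpleGraph V} {C : Set V} {a b : V} (h : Lk G C a b) : Lk G C b a := by
  obtain ⟨p, hp⟩ := h
  refine ⟨p.reverse, fun v hv => hp v ?_⟩
  rw [Walk.support_reverse] at hv
  exact List.mem_reverse.1 hv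

lemma lk_trans {G : SimpleGraph V} {C : Set V} {a b c : V} (h : Lk G C a b) (h' : Lk G C b c) :
    Lk G C a c := by
  obtain ⟨p, hp⟩ := h
  obtain ⟨q, hq⟩ := h'
  refine ⟨p.append q, fun v hv => ?_⟩
  rcases (Walk.mem_support_append_iff p q).1 hv with h | h
  · exact hp v h
  · exact hq v h

lemma lk_left {G : SimpleGraph V} {C : Set V} {a b : V} (h : Lk G C a b) : a ∈ C := by
  obtain ⟨p, hp⟩ := h
  exact hp a p.start_mem_support

lemma lk_right {G : SimpleGraph V} {C : Set V} {a b : V} (h : Lk G C a b) : b ∈ C := by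
  obtain ⟨p, hp⟩ := h
  exact hp b p.end_mem_support

lemma lk_adj {G : SimpleGraph V} {C : Set V} {a b : V} (h : G.Adj a b) (ha : a ∈ C)
    (hb : b ∈ C) : Lk G C a b := by
  refine ⟨Walk.cons h Walk.nil, fun v hv => ?_⟩
  rw [Walk.support_cons, Walk.support_nil] at hv
  rcases List.mem_cons.1 hv with h1 | h1
  · rw [h1]; exact ha
  · rw [List.mem_singleton.1 h1]; exact hb

lemma lk_mapLe {G H : SimpleGraph V} (hGH : G ≤ H) {C : Set V} {a b : V} (h : Lk G C a b) :
    Lk H C a b := by
  obtain ⟨p, hp⟩ := h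
  refine ⟨p.mapLe hGH, fun v hv => hp v ?_⟩
  rw [Walk.support_mapLe_eq_support] at hv
  exact hv

/-- `k` disjoint paths -/
def Sys (G : SimpleGraph V) (A B : Set V) (k : ℕ) : Prop :=
  ∃ (a b : Fin k → V) (p : ∀ i, G.Walk (a i) (b i)),
    (∀ i, (p i).IsPath ∧ a i ∈ A ∧ b i ∈ B) ∧
    ∀ i j, i ≠ j → ∀ v ∈ (p i).support, v ∉ (p j).support

lemma sys_of (G : SimpleGraph V) (A B : Set V) (k : ℕ) (C : Fin k → Set V)
    (hd : ∀ i j, i ≠ j → ∀ v ∈ C i, v ∉ C j)
    (h : ∀ i, ∃ a ∈ A, ∃ b ∈ B, Lk G (C i) a b) : Sys G A B k := by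
  classical
  choose a ha b hb hL using h
  choose p hp using hL
  refine ⟨a, b, fun i => (p i).bypass, fun i => ⟨(p i).bypass_isPath, ha i, hb i⟩, ?_⟩
  intro i j hij v hv hv'
  exact hd i j hij v (hp i v (Walk.support_bypass_subset_support _ hv))
    (hp j v (Walk.support_bypass_subset_support _ hv'))

/-- cutting a walk at an edge -/
lemma cut_walk {G G' : SimpleGraph V} {x y : V}
    (hG' : ∀ u v, G.Adj u v → s(u, v) ≠ s(x, y) → G'.Adj u v) {C : Set V} :
    ∀ {a b : V} (p : G.Walk a b), (∀ v ∈ p.support, v ∈ C) →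
      Lk G' C a b ∨ (Lk G' C a x ∧ Lk G' C y b) ∨ (Lk G' C a y ∧ Lk G' C x b) := by
  intro a b p
  induction p with
  | nil =>
    intro hC
    exact Or.inl (lk_refl (hC _ (by simp)))
  | @cons u v w h q ih =>
    intro hC
    have hu : u ∈ C := hC u (by simp)
    have hq : ∀ z ∈ q.support, z ∈ C := fun z hz => hC z (by simp [hz])
    have hv : v ∈ C := hq v q.start_mem_support
    have ih' := ih hq
    by_cases he : s(u, v) = s(x, y)
    · rcases Sym2.eq_iff.1 he with ⟨h1, h2⟩ | ⟨h1, h2⟩
      · subst h1; subst h2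
        rcases ih' with h3 | ⟨_, h3⟩ | ⟨_, h3⟩
        · exact Or.inr (Or.inl ⟨lk_refl hu, h3⟩)
        · exact Or.inr (Or.inl ⟨lk_refl hu, h3⟩)
        · exact Or.inl h3
      · subst h1; subst h2
        rcases ih' with h3 | ⟨_, h3⟩ | ⟨_, h3⟩
        · exact Or.inr (Or.inr ⟨lk_refl hu, h3⟩)
        · exact Or.inl h3
        · exact Or.inr (Or.inr ⟨lk_refl hu, h3⟩)
    · have hstep : Lk G' C u v := lk_adj (hG' u v h he) hu hv
      rcases ih' with h3 | ⟨h3, h4⟩ | ⟨h3, h4⟩
      · exact Or.inl (lk_trans hstep h3)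
      · exact Or.inr (Or.inl ⟨lk_trans hstep h3, h4⟩)
      · exact Or.inr (Or.inr ⟨lk_trans hstep h3, h4⟩)

/-- the first vertex of `S + x` on a walk -/
lemma prefix_walk {G G' : SimpleGraph V} {x y : V}
    (hG' : ∀ u v, G.Adj u v → s(u, v) ≠ s(x, y) → G'.Adj u v) {S C B : Set V} {a : V}
    (hB : ∀ b ∈ B, ¬ Lk G' Sᶜ a b) (hy : ¬ Lk G' Sᶜ a y) :
    ∀ {c b : V} (q : G.Walk c b), (∀ v ∈ q.support, v ∈ C) → b ∈ B → Lk G' (C ∩ Sᶜ) a c →
      ∃ s ∈ insert x S, Lk G' C a s := by
  intro c b q
  induction q with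
  | nil =>
    intro _ hb h
    exact absurd (lk_mono h Set.inter_subset_right) (hB _ hb)
  | @cons u v w h q ih =>
    intro hC hb hL
    have hu : u ∈ C := hC u (by simp)
    have hq : ∀ z ∈ q.support, z ∈ C := fun z hz => hC z (by simp [hz])
    have hv : v ∈ C := hq v q.start_mem_support
    by_cases hux : u = x
    · exact ⟨x, Set.mem_insert _ _, by rw [← hux]; exact lk_mono hL Set.inter_subset_left⟩
    have huy : u ≠ y := by
      rintro rfl
      exact hy (lk_mono hL Set.inter_subset_right)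
    have hadj : G'.Adj u v := by
      refine hG' u v h ?_
      intro he
      rcases Sym2.eq_iff.1 he with ⟨h1, _⟩ | ⟨h1, _⟩
      · exact hux h1
      · exact huy h1
    by_cases hvS : v ∈ S
    · exact ⟨v, Or.inr hvS, lk_trans (lk_mono hL Set.inter_subset_left) (lk_adj hadj hu hv)⟩
    · have huS : u ∈ C ∩ Sᶜ := lk_right hL
      exact ih hq hb (lk_trans hL (lk_adj hadj huS ⟨hv, hvS⟩))

lemma prefix_sep {G G' : SimpleGraph V} {x y : V}
    (hG' : ∀ u v, G.Adj u v → s(u, v) ≠ s(x, y) → G'.Adj u v) {S C A B : Set V}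
    (hAB : ∀ a ∈ A, ∀ b ∈ B, ¬ Lk G' Sᶜ a b) (hy : ∀ a ∈ A, ¬ Lk G' Sᶜ a y)
    (h : ∃ a ∈ A, ∃ b ∈ B, Lk G C a b) : ∃ a ∈ A, ∃ s ∈ insert x S, Lk G' C a s := by
  obtain ⟨a, ha, b, hb, q, hq⟩ := h
  have haC : a ∈ C := hq a q.start_mem_support
  by_cases haS : a ∈ S
  · exact ⟨a, ha, a, Or.inr haS, lk_refl haC⟩
  · obtain ⟨s, hs, hL⟩ := prefix_walk hG' (hAB a ha) (hy a ha) q hq hb (lk_refl ⟨haC, haS⟩)
    exact ⟨a, ha, s, hs, hL⟩

/-- initial part of a path which meets `S` only at its end -/
lemma half {G : SimpleGraph V} {S : Set V} {a s v : V} (p : G.Walk a s) (hp : p.IsPath)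
    (hv : v ∈ p.support) (hvS : v ∉ S) (hS : ∀ w ∈ p.support, w ∈ S → w = s) :
    Lk G Sᶜ a v := by
  classical
  refine ⟨p.takeUntil v hv, fun w hw hwS => ?_⟩
  have h1 := p.support_takeUntil_subset_support hv hw
  have h2 := hS w h1 hwS
  by_cases hsv : s = v
  · rw [h2, hsv] at hwS
    exact hvS hwS
  · rw [h2] at hw
    exact Walk.endpoint_notMem_support_takeUntil hp hv hsv hw

lemma range_eq {k : ℕ} (s : Fin k → V) (hs : Function.Injective s) (T : Set V) (hT : T.Finite)
    (hk : T.ncard ≤ k) (hsT : ∀ i, s i ∈ T) : ∀ z ∈ T, ∃ i, s i = z := by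
  have h1 : (Set.range s).ncard = k := by
    rw [← Set.image_univ, Set.ncard_image_of_injective _ hs, Set.ncard_univ, Nat.card_fin]
  have h2 : Set.range s ⊆ T := by
    rintro _ ⟨i, rfl⟩
    exact hsT i
  have h3 : Set.range s = T := Set.eq_of_subset_of_ncard_le h2 (by rw [h1]; exact hk) hT
  intro z hz
  rw [← h3] at hz
  exact hz

/-- the main step -/
lemma core {G G' : SimpleGraph V} (hle : G' ≤ G) {x y : V} (hxy : G.Adj x y)
    (hG' : ∀ u v, G.Adj u v → s(u, v) ≠ s(x, y) → G'.Adj u v) (k : ℕ)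
    (ih : ∀ (A B : Set V), A.Finite → B.Finite →
      (∀ S : Set V, S.Finite → S.ncard < k → ∃ x ∈ A, ∃ y ∈ B, Lk G' Sᶜ x y) → Sys G' A B k)
    {A B : Set V} (hA : A.Finite) (hB : B.Finite)
    (hsep : ∀ S : Set V, S.Finite → S.ncard < k → ∃ x ∈ A, ∃ y ∈ B, Lk G Sᶜ x y)
    {S : Set V} (hS : S.Finite) (hSk : S.ncard < k)
    (hno : ∀ a ∈ A, ∀ b ∈ B, ¬ Lk G' Sᶜ a b) {a0 b0 : V} (ha0 : a0 ∈ A) (hb0 : b0 ∈ B)
    (h1 : Lk G' Sᶜ a0 x) (h2 : Lk G' Sᶜ y b0) : Sys G A B k := by
  classical
  have hy : ∀ a ∈ A, ¬ Lk G' Sᶜ a y := fun a ha h => hno a ha b0 hb0 (lk_trans h h2)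
  have hx : ∀ b ∈ B, ¬ Lk G' Sᶜ b x := fun b hb h =>
    hno a0 ha0 b hb (lk_trans h1 (lk_symm h))
  have hno' : ∀ b ∈ B, ∀ a ∈ A, ¬ Lk G' Sᶜ b a := fun b hb a ha h => hno a ha b hb (lk_symm h)
  have hG'' : ∀ u v, G.Adj u v → s(u, v) ≠ s(y, x) → G'.Adj u v := by
    intro u v h he
    refine hG' u v h ?_
    rw [Sym2.eq_swap (a := x)]
    exact he
  obtain ⟨a, s, p, hp, hpd⟩ := ih A (insert x S) hA (hS.insert x) (fun T hT hTk =>
    prefix_sep hG' hno hy (hsep T hT hTk))
  obtain ⟨b, t, q, hq, hqd⟩ := ih B (insert y S) hB (hS.insert y) (fun T hT hTk => by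
    obtain ⟨a1, ha1, b1, hb1, hL⟩ := hsep T hT hTk
    exact prefix_sep hG'' hno' hx ⟨b1, hb1, a1, ha1, lk_symm hL⟩)
  have hsinj : Function.Injective s := by
    intro i j hij
    by_contra hne
    refine hpd i j hne (s i) (p i).end_mem_support ?_
    rw [hij]
    exact (p j).end_mem_support
  have htinj : Function.Injective t := by
    intro i j hij
    by_contra hne
    refine hqd i j hne (t i) (q i).end_mem_support ?_
    rw [hij]
    exact (q j).end_mem_support
  have hcx : (insert x S).ncard ≤ k := (Set.ncard_insert_le x S).trans hSk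
  have hcy : (insert y S).ncard ≤ k := (Set.ncard_insert_le y S).trans hSk
  have hsurj := range_eq s hsinj (insert x S) (hS.insert x) hcx fun i => (hp i).2.2
  have htsurj := range_eq t htinj (insert y S) (hS.insert y) hcy fun i => (hq i).2.2
  have hkx : k ≤ (insert x S).ncard := by
    have e1 : (Set.range s).ncard = k := by
      rw [← Set.image_univ, Set.ncard_image_of_injective _ hsinj, Set.ncard_univ, Nat.card_fin]
    rw [← e1]
    refine Set.ncard_le_ncard ?_ (hS.insert x)
    rintro _ ⟨i, rfl⟩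
    exact (hp i).2.2
  have hky : k ≤ (insert y S).ncard := by
    have e1 : (Set.range t).ncard = k := by
      rw [← Set.image_univ, Set.ncard_image_of_injective _ htinj, Set.ncard_univ, Nat.card_fin]
    rw [← e1]
    refine Set.ncard_le_ncard ?_ (hS.insert y)
    rintro _ ⟨i, rfl⟩
    exact (hq i).2.2
  have hxS : x ∉ S := by
    intro h
    rw [Set.insert_eq_of_mem h] at hkx
    omega
  have hyS : y ∉ S := by
    intro h
    rw [Set.insert_eq_of_mem h] at hky
    omega
  let E : V → V := fun z => if z = x then y else z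
  have hE : ∀ i, ∃ j, t j = E (s i) := by
    intro i
    refine htsurj _ ?_
    by_cases h : s i = x
    · simp only [E, if_pos h]
      exact Set.mem_insert _ _
    · simp only [E, if_neg h]
      rcases (hp i).2.2 with h' | h'
      · exact absurd h' h
      · exact Or.inr h'
  choose σ hσ using hE
  have hsS : ∀ i, s i ≠ x → s i ∈ S := by
    intro i h
    rcases (hp i).2.2 with h' | h'
    · exact absurd h' h
    · exact h'
  have hEinj : ∀ i j, E (s i) = E (s j) → i = j := by
    intro i j h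
    by_cases hi : s i = x
    · by_cases hj : s j = x
      · exact hsinj (hi.trans hj.symm)
      · simp only [E, if_pos hi, if_neg hj] at h
        have := hsS j hj
        rw [← h] at this
        exact absurd this hyS
    · by_cases hj : s j = x
      · simp only [E, if_neg hi, if_pos hj] at h
        have := hsS i hi
        rw [h] at this
        exact absurd this hyS
      · simp only [E, if_neg hi, if_neg hj] at h
        exact hsinj h
  have hσinj : ∀ i j, σ i = σ j → i = j := by
    intro i j h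
    refine hEinj i j ?_
    rw [← hσ i, ← hσ j, h]
  -- elements of `S` on the paths
  have hpS : ∀ i, ∀ v ∈ (p i).support, v ∈ S → v = s i := by
    intro i v hv hvS
    obtain ⟨l, hl⟩ := hsurj v (Or.inr hvS)
    by_contra hne
    have hli : i ≠ l := by
      rintro rfl
      exact hne hl.symm
    refine hpd i l hli v hv ?_
    rw [← hl]
    exact (p l).end_mem_support
  have hqS : ∀ i, ∀ v ∈ (q i).support, v ∈ S → v = t i := by
    intro i v hv hvS
    obtain ⟨l, hl⟩ := htsurj v (Or.inr hvS)
    by_contra hne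
    have hli : i ≠ l := by
      rintro rfl
      exact hne hl.symm
    refine hqd i l hli v hv ?_
    rw [← hl]
    exact (q l).end_mem_support
  have cross : ∀ i j, i ≠ j → ∀ v ∈ (p i).support, v ∉ (q (σ j)).support := by
    intro i j hij v hv hv'
    by_cases hvS : v ∈ S
    · have e1 := hpS i v hv hvS
      have e2 := hqS (σ j) v hv' hvS
      rw [hσ j] at e2
      by_cases hj : s j = x
      · simp only [E, if_pos hj] at e2
        rw [e2] at hvS
        exact hyS hvS
      · simp only [E, if_neg hj] at e2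
        exact hij (hsinj (e1.symm.trans e2))
    · have e1 : Lk G' Sᶜ (a i) v := half (p i) (hp i).1 hv hvS (hpS i)
      have e2 : Lk G' Sᶜ (b (σ j)) v := half (q (σ j)) (hq (σ j)).1 hv' hvS (hqS (σ j))
      exact hno _ (hp i).2.1 _ (hq (σ j)).2.1 (lk_trans e1 (lk_symm e2))
  refine sys_of G A B k (fun i => {v | v ∈ (p i).support ∨ v ∈ (q (σ i)).support}) ?_ ?_
  · intro i j hij v hv hv'
    have hσij : σ i ≠ σ j := fun h => hij (hσinj i j h)
    rcases hv with h | h <;> rcases hv' with h' | h'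
    · exact hpd i j hij v h h'
    · exact cross i j hij v h h'
    · exact cross j i (Ne.symm hij) v h' h
    · exact hqd _ _ hσij v h h'
  · intro i
    refine ⟨a i, (hp i).2.1, b (σ i), (hq (σ i)).2.1, ?_⟩
    have e1 : Lk G {v | v ∈ (p i).support ∨ v ∈ (q (σ i)).support} (a i) (s i) :=
      lk_mapLe hle ⟨p i, fun v hv => Or.inl hv⟩
    have e3 : Lk G {v | v ∈ (p i).support ∨ v ∈ (q (σ i)).support} (b (σ i)) (t (σ i)) :=
      lk_mapLe hle ⟨q (σ i), fun v hv => Or.inr hv⟩
    have e2 : Lk G {v | v ∈ (p i).support ∨ v ∈ (q (σ i)).support} (s i) (t (σ i)) := by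
      by_cases h : s i = x
      · have e4 : t (σ i) = y := by
          rw [hσ i]
          simp only [E, if_pos h]
        refine lk_adj ?_ (Or.inl (p i).end_mem_support) (Or.inr (q (σ i)).end_mem_support)
        rw [h, e4]
        exact hxy
      · have e4 : t (σ i) = s i := by
          rw [hσ i]
          simp only [E, if_neg h]
        exact lk_eq e4.symm (Or.inl (p i).end_mem_support)
    exact lk_trans e1 (lk_trans e2 (lk_symm e3))

/-- no edges -/
lemma base {G : SimpleGraph V} (hG : ∀ u v, ¬ G.Adj u v) {A B : Set V} (hA : A.Finite) (k : ℕ)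
    (hsep : ∀ S : Set V, S.Finite → S.ncard < k → ∃ x ∈ A, ∃ y ∈ B, Lk G Sᶜ x y) :
    Sys G A B k := by
  have hfin : (A ∩ B).Finite := hA.inter_of_left B
  have hk : k ≤ (A ∩ B).ncard := by
    by_contra hlt
    push Not at hlt
    obtain ⟨x, hx, y, hy, p, hp⟩ := hsep _ hfin hlt
    have hxy : x = y := by
      cases p with
      | nil => rfl
      | cons h _ => exact absurd h (hG _ _)
    subst hxy
    exact hp x p.start_mem_support ⟨hx, hy⟩
  obtain ⟨T, hT, hTk⟩ := Set.exists_subset_card_eq hk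
  have hTfin : T.Finite := hfin.subset hT
  have e : Fintype T := hTfin.fintype
  have hcard : Fintype.card T = k := by
    rw [← hTk, ← Nat.card_eq_fintype_card]
    rfl
  let f : Fin k ≃ T := (Fintype.equivFinOfCardEq hcard).symm
  refine sys_of G A B k (fun i => {v | v = (f i : V)}) ?_ ?_
  · intro i j hij v hv hv'
    refine hij (f.injective (Subtype.ext ?_))
    have h1 : v = (f i : V) := hv
    have h2 : v = (f j : V) := hv'
    exact h1.symm.trans h2
  · intro i
    have h1 := hT (f i).2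
    exact ⟨f i, h1.1, f i, h1.2, lk_refl rfl⟩

/-- Menger's theorem for finite edge sets -/
theorem fin_menger : ∀ (n : ℕ) (G : SimpleGraph V), G.edgeSet.Finite → G.edgeSet.ncard ≤ n →
    ∀ (k : ℕ) (A B : Set V), A.Finite → B.Finite →
      (∀ S : Set V, S.Finite → S.ncard < k → ∃ x ∈ A, ∃ y ∈ B, Lk G Sᶜ x y) →
      Sys G A B k := by
  intro n
  induction n with
  | zero =>
    intro G hfin hn k A B hA hB hsep
    have hempty : G.edgeSet = ∅ := by
      have := Nat.le_zero.1 hn
      exact (Set.ncard_eq_zero hfin).1 this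
    refine base ?_ hA k hsep
    intro u v h
    have : s(u, v) ∈ G.edgeSet := h
    rw [hempty] at this
    exact this
  | succ n ihn =>
    intro G hfin hn k A B hA hB hsep
    by_cases hempty : G.edgeSet = ∅
    · refine base ?_ hA k hsep
      intro u v h
      have : s(u, v) ∈ G.edgeSet := h
      rw [hempty] at this
      exact this
    obtain ⟨e, he⟩ := Set.nonempty_iff_ne_empty.2 hempty
    induction e using Sym2.ind with
    | _ x y =>
      have hxy : G.Adj x y := he
      let G' : SimpleGraph V := G.deleteEdges {s(x, y)}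
      have hle : G' ≤ G := deleteEdges_le _
      have hedge : G'.edgeSet = G.edgeSet \ {s(x, y)} := edgeSet_deleteEdges _
      have hfin' : G'.edgeSet.Finite := by
        rw [hedge]; exact hfin.sdiff
      have hn' : G'.edgeSet.ncard ≤ n := by
        rw [hedge]
        have := Set.ncard_sdiff_singleton_lt_of_mem he hfin
        omega
      have hG' : ∀ u v, G.Adj u v → s(u, v) ≠ s(x, y) → G'.Adj u v := by
        intro u v h hne
        rw [deleteEdges_adj]
        exact ⟨h, hne⟩
      have ih := ihn G' hfin' hn' k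
      by_cases h : ∀ S : Set V, S.Finite → S.ncard < k → ∃ x ∈ A, ∃ y ∈ B, Lk G' Sᶜ x y
      · obtain ⟨a, b, p, hp, hpd⟩ := ih A B hA hB h
        refine sys_of G A B k (fun i => {v | v ∈ (p i).support}) hpd ?_
        intro i
        exact ⟨a i, (hp i).2.1, b i, (hp i).2.2, lk_mapLe hle ⟨p i, fun v hv => hv⟩⟩
      · push Not at h
        obtain ⟨S, hS, hSk, hno⟩ := h
        obtain ⟨a0, ha0, b0, hb0, p, hp⟩ := hsep S hS hSk
        rcases cut_walk hG' p hp with h1 | ⟨h1, h2⟩ | ⟨h1, h2⟩
        · exact absurd h1 (hno a0 ha0 b0 hb0)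
        · exact core hle hxy hG' k ih hA hB hsep hS hSk hno ha0 hb0 h1 h2
        · refine core hle hxy.symm ?_ k ih hA hB hsep hS hSk hno ha0 hb0 h1 h2
          intro u v h he
          refine hG' u v h ?_
          rw [Sym2.eq_swap (a := x)]
          exact he

/-- the step to infinite graphs -/
lemma step (P : SimpleGraph V) (A B : Set V) (j : ℕ) (hA : A.Finite) (hB : B.Finite)
    (hsep : ∀ S : Set V, S.Finite → S.ncard < j + 1 → ∃ x ∈ A, ∃ y ∈ B, Lk P Sᶜ x y)
    (hj : Sys P A B j) : Sys P A B (j + 1) := by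
  classical
  obtain ⟨a, b, p, hp, hpd⟩ := hj
  -- the vertices of the paths
  let U : Finset V := Finset.univ.biUnion fun i => (p i).support.toFinset
  have hU : ∀ i, ∀ v ∈ (p i).support, v ∈ U := by
    intro i v hv
    exact Finset.mem_biUnion.2 ⟨i, Finset.mem_univ _, List.mem_toFinset.2 hv⟩
  -- walks avoiding the small subsets of `U`
  have hw : ∀ S : Finset V, ∃ F : Finset (Sym2 V), (F : Set (Sym2 V)) ⊆ P.edgeSet ∧
      (S.card < j + 1 → ∃ x ∈ A, ∃ y ∈ B, ∀ H : SimpleGraph V, (F : Set (Sym2 V)) ⊆ H.edgeSet →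
        Lk H (S : Set V)ᶜ x y) := by
    intro S
    by_cases hS : S.card < j + 1
    · obtain ⟨x, hx, y, hy, q, hq⟩ := hsep (S : Set V) S.finite_toSet
        (by rw [Set.ncard_coe_finset]; exact hS)
      refine ⟨q.edges.toFinset, ?_, fun _ => ⟨x, hx, y, hy, fun H hH => ?_⟩⟩
      · intro e he
        have : e ∈ q.edges := by simpa using he
        exact q.edges_subset_edgeSet this
      · have hqH : ∀ e, e ∈ q.edges → e ∈ H.edgeSet := by
          intro e he
          exact hH (by simpa using he)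
        refine ⟨q.transfer H hqH, fun v hv => hq v ?_⟩
        rw [Walk.support_transfer] at hv
        exact hv
    · exact ⟨∅, by simp, fun h => absurd h hS⟩
  choose F hF hF2 using hw
  let E : Finset (Sym2 V) := (Finset.univ.biUnion fun i => (p i).edges.toFinset) ∪
    U.powerset.biUnion F
  have hE : (E : Set (Sym2 V)) ⊆ P.edgeSet := by
    intro e he
    have he' : e ∈ E := he
    rcases Finset.mem_union.1 he' with h | h
    · obtain ⟨i, _, hi⟩ := Finset.mem_biUnion.1 h
      exact (p i).edges_subset_edgeSet (List.mem_toFinset.1 hi)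
    · obtain ⟨S, _, hS⟩ := Finset.mem_biUnion.1 h
      exact hF S hS
  let H : SimpleGraph V := SimpleGraph.fromEdgeSet (E : Set (Sym2 V))
  have hHE : H.edgeSet = (E : Set (Sym2 V)) := by
    have h1 : H.edgeSet = (E : Set (Sym2 V)) \ Sym2.diagSet := edgeSet_fromEdgeSet _
    rw [h1]
    ext e
    constructor
    · intro h; exact h.1
    · intro h
      refine ⟨h, ?_⟩
      have h2 := P.not_isDiag_of_mem_edgeSet (hE h)
      intro h3
      exact h2 h3
  have hHP : H ≤ P := by
    intro u v h
    have h1 : s(u, v) ∈ H.edgeSet := h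
    rw [hHE] at h1
    exact hE h1
  have hHfin : H.edgeSet.Finite := by
    rw [hHE]; exact E.finite_toSet
  have hsys : Sys H A B (j + 1) := by
    refine fin_menger _ H hHfin le_rfl (j + 1) A B hA hB ?_
    intro S hS hSk
    -- a path of the system which is missed by `S`
    by_cases hmiss : ∃ i, ∀ v ∈ (p i).support, v ∉ S
    · obtain ⟨i, hi⟩ := hmiss
      refine ⟨a i, (hp i).2.1, b i, (hp i).2.2, ?_⟩
      have hpH : ∀ e, e ∈ (p i).edges → e ∈ H.edgeSet := by
        intro e he
        rw [hHE]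
        exact Finset.mem_union_left _
          (Finset.mem_biUnion.2 ⟨i, Finset.mem_univ _, List.mem_toFinset.2 he⟩)
      refine ⟨(p i).transfer H hpH, fun v hv => hi v ?_⟩
      rw [Walk.support_transfer] at hv
      exact hv
    · push Not at hmiss
      choose f hf hfS using hmiss
      have hfinj : Function.Injective f := by
        intro i l hil
        by_contra hne
        refine hpd i l hne (f i) (hf i) ?_
        rw [hil]
        exact hf l
      have hSeq := range_eq f hfinj S hS (by omega) hfS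
      have hSU : S ⊆ (U : Set V) := by
        intro v hv
        obtain ⟨i, hi⟩ := hSeq v hv
        rw [← hi]
        exact hU i _ (hf i)
      let S' : Finset V := hS.toFinset
      have hS' : (S' : Set V) = S := hS.coe_toFinset
      have hS'card : S'.card < j + 1 := by
        rw [← Set.ncard_coe_finset, hS']
        exact hSk
      obtain ⟨x, hx, y, hy, hL⟩ := hF2 S' hS'card
      have h1 : (F S' : Set (Sym2 V)) ⊆ H.edgeSet := by
        rw [hHE]
        intro e he
        refine Finset.mem_union_right _ (Finset.mem_biUnion.2 ⟨S', ?_, he⟩)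
        rw [Finset.mem_powerset]
        intro v hv
        have h2 : v ∈ (S' : Set V) := hv
        rw [hS'] at h2
        exact hSU h2
      have h2 := hL H h1
      rw [hS'] at h2
      exact ⟨x, hx, y, hy, h2⟩
  obtain ⟨a', b', p', hp', hpd'⟩ := hsys
  refine sys_of P A B (j + 1) (fun i => {v | v ∈ (p' i).support}) hpd' ?_
  intro i
  exact ⟨a' i, (hp' i).2.1, b' i, (hp' i).2.2, lk_mapLe hHP ⟨p' i, fun v hv => hv⟩⟩

end MEN_

open MEN_ in
theorem men_proof : Stmt_MEN := by
  intro V P A B k hA hB hsep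
  have main : ∀ j ≤ k, Sys P A B j := by
    intro j
    induction j with
    | zero =>
      intro _
      exact ⟨Fin.elim0, Fin.elim0, fun i => i.elim0, fun i => i.elim0, fun i => i.elim0⟩
    | succ j ih =>
      intro hj
      refine step P A B j hA hB ?_ (ih (by omega))
      intro S hS hSk
      obtain ⟨x, hx, y, hy, p, hp⟩ := hsep S hS (by omega)
      exact ⟨x, hx, y, hy, p, hp⟩
  exact main k le_rfl

end Pool.Agent.ACC
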