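import Pool.Agent.ACC.StmtsB
import Pool.Agent.ACC.LibB

/-!
# ACC, module MES: Menger's theorem with connected sets outside `X` and `Y`
-/

set_option autoImplicit false

namespace Pool.Agent.ACC

namespace MES_

open SimpleGraph

variable {V : Type}

/-- the graph outside `X` and `Y` -/
def outG (P : SimpleGraph V) (X Y : Set V) : SimpleGraph V where
  Adj u v := P.Adj u v ∧ (u ∉ X ∧ u ∉ Y) ∧ (v ∉ X ∧ v ∉ Y)
  symm := by
    constructor
    rintro u v ⟨h, hu, hv⟩
    exact ⟨h.symm, hv, hu⟩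
  loopless := by
    constructor
    rintro u ⟨h, -⟩
    exact h.ne rfl

theorem out_support {P : SimpleGraph V} {X Y : Set V} {x y : V} (w : (outG P X Y).Walk x y)
    (hx : x ∉ X ∧ x ∉ Y) : ∀ z ∈ w.support, z ∉ X ∧ z ∉ Y := by
  induction w with
  | nil =>
    intro z hz
    rw [Walk.support_nil, List.mem_singleton] at hz
    rw [hz]
    exact hx
  | cons h p ih =>
    intro z hz
    rw [Walk.support_cons, List.mem_cons] at hz
    rcases hz with hz | hz
    · rw [hz]
      exact hx
    · exact ih h.2.2 z hz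

end MES_

open MES_ SimpleGraph in
theorem mes_proof (h1 : Stmt_MEN) (h2 : Stmt_SUB) : Stmt_MES := by
  classical
  intro V P X Y n hP hX hY hXY hadj hsep
  have hA : ({v | (v ∉ X ∧ v ∉ Y) ∧ ∃ a ∈ X, P.Adj a v} : Set V).Finite := by
    refine (hX.biUnion (fun a _ => hP a)).subset ?_
    rintro v ⟨-, a, ha, hav⟩
    exact Set.mem_biUnion ha hav
  have hB : ({v | (v ∉ X ∧ v ∉ Y) ∧ ∃ a ∈ Y, P.Adj a v} : Set V).Finite := by
    refine (hY.biUnion (fun a _ => hP a)).subset ?_
    rintro v ⟨-, a, ha, hav⟩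
    exact Set.mem_biUnion ha hav
  obtain ⟨a, b, p, hp, hdis⟩ := h1 V (outG P X Y) _ _ n hA hB (by
    intro S hS hcard
    obtain ⟨u, hu, v, hv, w, hw⟩ := hsep (hS.toFinset.filter (fun t => t ∉ X ∧ t ∉ Y))
      (by
        refine lt_of_le_of_lt (Finset.card_filter_le _ _) ?_
        rw [← Set.ncard_eq_toFinset_card S hS]
        exact hcard)
      (by
        intro t ht
        exact (Finset.mem_filter.1 ht).2)
    obtain ⟨u', v', w', hw', ⟨a, ha, hau⟩, ⟨b, hb, hvb⟩⟩ :=
      h2 V P X Y u v w hu hv hXY hadj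
    have hed : ∀ e ∈ w'.edges, e ∈ (outG P X Y).edgeSet := by
      intro e he
      induction e with
      | _ x y =>
        have hx := hw' x (Walk.fst_mem_support_of_mem_edges w' he)
        have hy := hw' y (Walk.snd_mem_support_of_mem_edges w' he)
        have hxy := Walk.adj_of_mem_edges w' he
        exact ⟨hxy, hx.2, hy.2⟩
    refine ⟨u', ⟨(hw' u' w'.start_mem_support).2, a, ha, hau⟩, v',
      ⟨(hw' v' w'.end_mem_support).2, b, hb, hvb.symm⟩, w'.transfer _ hed, ?_⟩
    intro z hz hzS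
    rw [Walk.support_transfer] at hz
    have h3 := hw' z hz
    exact hw z h3.1 (Finset.mem_filter.2 ⟨hS.mem_toFinset.2 hzS, h3.2⟩))
  refine ⟨fun i => {z | z ∈ (p i).support}, ?_, ?_⟩
  · intro i
    obtain ⟨-, ⟨ha1, x, hx, hxa⟩, ⟨hb1, y, hy, hyb⟩⟩ := hp i
    have hout := out_support (p i) ha1
    refine ⟨?_, ?_, ?_, ?_, ⟨x, hx, a i, (p i).start_mem_support, hxa⟩,
      ⟨y, hy, b i, (p i).end_mem_support, hyb.symm⟩⟩
    · have hle : outG P X Y ≤ P := by
        intro u v h
        exact h.1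
      exact cn_mono hle (cn_support (p i))
    · exact List.finite_toSet _
    · rw [Set.disjoint_left]
      intro z hz hz'
      exact (hout z hz').1 hz
    · rw [Set.disjoint_left]
      intro z hz hz'
      exact (hout z hz').2 hz
  · intro i j hij
    rw [Set.disjoint_left]
    intro z hz hz'
    exact hdis i j hij z hz hz'

end Pool.Agent.ACC
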