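import Pool.Agent.ACC.StmtsA

/-!
# ACC, module MKT: excluding some finite minor means excluding a complete minor
-/

set_option autoImplicit false

namespace Pool.Agent.ACC

theorem mkt_proof : Stmt_MKT := by
  intro V' G' h
  obtain ⟨W, hW, H, hH⟩ := h
  refine ⟨max 3 (Nat.card W), le_max_left _ _, ?_⟩
  rintro ⟨f, h1, h2, h3⟩
  apply hH
  have e : W ≃ Fin (Nat.card W) := Finite.equivFin W
  let i : W → Fin (max 3 (Nat.card W)) := fun w => Fin.castLE (le_max_right _ _) (e w)
  have hi : Function.Injective i := by
    intro a b hab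
    exact e.injective (Fin.castLE_injective _ hab)
  refine ⟨fun w => f (i w), fun w => h1 (i w), ?_, ?_⟩
  · intro a b hab
    exact h2 (fun h => hab (hi h))
  · intro a b hab
    exact h3 (i a) (i b) (fun h => hab.ne (hi h))

end Pool.Agent.ACC
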