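import Pool.Agent.ACC.StmtsC
import Pool.Agent.ACC.LibB

/-!
MP_851278_al, squad ACD, module MLT: a class near two far boundary points is not contained in a
fibre.
-/

set_option autoImplicit false

namespace Pool.Agent.ACC

namespace MLT_

theorem back {V U : Type} (X : SimpleGraph V) (p : V → U) (hX : X.Connected) (u : U)
    {x z : V} (w : X.Walk x z) (hz : p z = u) :
    ∃ x', p x' = u ∧ X.dist x x' ≤ w.length ∧ (x' = x ∨ x' ∈ Zp X p) := by
  induction w with
  | nil => exact ⟨_, hz, by simp, Or.inl rfl⟩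
  | @cons a b c hadj w ih =>
    obtain ⟨x', h1, h2, h3⟩ := ih hz
    have h4 : X.dist a x' ≤ X.dist a b + X.dist b x' := hX.dist_triangle
    have h5 : X.dist a b = 1 := SimpleGraph.dist_eq_one_iff_adj.mpr hadj
    rcases h3 with h3 | h3
    · subst h3
      by_cases ha : p a = u
      · exact ⟨a, ha, by simp, Or.inl rfl⟩
      · refine ⟨x', h1, ?_, Or.inr ⟨a, hadj.symm, ?_⟩⟩
        · rw [SimpleGraph.Walk.length_cons]; omega
        · rw [h1]; exact fun h => ha h.symm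
    · refine ⟨x', h1, ?_, Or.inr h3⟩
      rw [SimpleGraph.Walk.length_cons]; omega

theorem back2 {V U : Type} (X : SimpleGraph V) (p : V → U) (hX : X.Connected) (u : U) (ρ : ℕ)
    {x z : V} (hx : x ∈ Zp X p) (hz : p z = u) (hd : X.dist x z ≤ ρ) :
    ∃ x' ∈ Zp X p, p x' = u ∧ X.dist x x' ≤ ρ := by
  obtain ⟨w, hw⟩ := hX.exists_walk_length_eq_dist x z
  obtain ⟨x', h1, h2, h3⟩ := back X p hX u w hz
  refine ⟨x', ?_, h1, by omega⟩
  rcases h3 with h3 | h3
  · rw [h3]; exact hx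
  · exact h3

end MLT_

theorem mlt_proof : Stmt_MLT := by
  intro V U X R p c ρ hX hc a x1 x2 hx1 hx2 hlt hn1 hn2 y
  by_contra hcon
  push Not at hcon
  obtain ⟨z1, hz1, ht1⟩ := hn1
  obtain ⟨z2, hz2, ht2⟩ := hn2
  obtain ⟨x1', h1, h1', h1''⟩ := MLT_.back2 X p hX (p y) ρ hx1 (hcon z1 ht1) hz1
  obtain ⟨x2', h2, h2', h2''⟩ := MLT_.back2 X p hX (p y) ρ hx2 (hcon z2 ht2) hz2
  have h3 := hc x1' h1 x2' h2 (h1'.trans h2'.symm)
  have h4 : X.dist x1 x2 ≤ X.dist x1 x1' + X.dist x1' x2 := hX.dist_triangle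
  have h5 : X.dist x1' x2 ≤ X.dist x1' x2' + X.dist x2' x2 := hX.dist_triangle
  rw [SimpleGraph.dist_comm (u := x2') (v := x2)] at h5
  omega

end Pool.Agent.ACC
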