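import Pool.Agent.ACC.Lib

/-!
MP_851278_al, module NFE: the families EE X n are nested families.
-/

set_option autoImplicit false

namespace Pool.Agent.ACC

theorem nfe_proof (h1 : Stmt_DDF) (h2 : Stmt_DDE) (h3 : Stmt_BDO) (h4 : Stmt_CRF)
    (h5 : Stmt_FBL) : Stmt_NFE := by
  intro V X G hX hG hE n
  have hg := h1 V X hX n
  have hmem : ∀ g ∈ G, ∀ A ∈ EE X n, g '' A ∈ EE X n :=
    fun g hgG A hA => h2 V X g (hG g hgG) n A hA
  refine { compl := hg.compl, ne := fun A hA => (hg.bond A hA).nonempty, nested := hg.nested,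
           small := fun A hA => ⟨(hg.bond A hA).1, hg.card A hA⟩, lf := ?_, cr := ?_,
           inv := hmem, fin := ?_ }
  · intro x y
    obtain ⟨p⟩ := hX.preconnected x y
    have hfin : (⋃ e ∈ {e | e ∈ p.edges},
        {A : Set V | IsBond X A ∧ (bd X A).ncard ≤ n ∧ e ∈ bd X A}).Finite :=
      Set.Finite.biUnion (List.finite_toSet p.edges) (fun e _ => h5 V X hX n e)
    refine hfin.subset ?_
    rintro A ⟨hA, hx, hy⟩
    obtain ⟨e, he, heb⟩ := exists_bd_edge p hx hy
    exact Set.mem_biUnion (x := e) he ⟨hg.bond A hA, hg.card A hA, heb⟩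
  · intro A hA
    have hS : (⋃ e ∈ bd X A, {x : V | x ∈ e}).Finite := by
      refine Set.Finite.biUnion hA (fun e _ => ?_)
      induction e with
      | _ a b =>
        refine (Set.toFinite ({a, b} : Set V)).subset ?_
        intro x hx
        rcases Sym2.mem_iff.1 hx with h | h
        · left; exact h
        · right; exact h
    have h6 := h4 V X hX n A _ hS ?_
    · exact h6.subset (fun B hB => ⟨hg.bond B hB.1, hg.card B hB.1, hB.2⟩)
    · intro e he
      induction e with
      | _ a b =>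
        refine ⟨a, Set.mem_biUnion he ?_, Sym2.mem_mk_left a b⟩
        exact Sym2.mem_mk_left a b
  · obtain ⟨F, hF, hFS, hcov⟩ := h3 V X G hX hG hE n
    refine ⟨F ∩ EE X n, hF.subset Set.inter_subset_left, Set.inter_subset_right, ?_⟩
    intro A hA
    obtain ⟨g, hgG, B, hB, hgB⟩ := hcov A ⟨hg.bond A hA, hg.card A hA⟩
    refine ⟨g, hgG, B, ⟨hB, ?_⟩, hgB⟩
    have h7 := hmem g⁻¹ (G.inv_mem hgG) A hA
    rw [← hgB, image_inv_image] at h7
    exact h7

end Pool.Agent.ACC
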