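import Pool.Agent.ACC.Lib

/-!
MP_851278_al, module NRV: at a vertex of the tree without real vertices some closed walk in `W`
meets three hubs.
-/

set_option autoImplicit false

namespace Pool.Agent.ACC

namespace NRV

/-- Some hub has edges to two different other hubs. -/
theorem three_hubs {V : Type} {X : SimpleGraph V} {E v : Set (Set V)} (hX : X.Connected)
    (hE : NestSet E) (hv : IsVtx E v) (hub : ∀ C ∈ Hub v, C ∈ E)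
    (hall : ∀ x : V, ∃ C ∈ Hub v, x ∈ C) :
    ∃ B ∈ Hub v, ∃ C1 ∈ Hub v, ∃ C2 ∈ Hub v, B ≠ C1 ∧ B ≠ C2 ∧ C1 ≠ C2 ∧
      (∃ b ∈ B, ∃ c ∈ C1, X.Adj b c) ∧ ∃ b ∈ B, ∃ c ∈ C2, X.Adj b c := by
  by_contra hcon
  push Not at hcon
  obtain ⟨x0⟩ := hX.nonempty
  obtain ⟨B, hB, hx0⟩ := hall x0
  have hBc : Bᶜ.Nonempty := hE.ne _ (hE.compl B (hub B hB))
  obtain ⟨e, b, c, hbc, hb, hc, rfl⟩ := bd_nonempty hX ⟨x0, hx0⟩ hBc
  obtain ⟨C, hC, hcC⟩ := hall c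
  have hBC : B ≠ C := by rintro rfl; exact hc hcC
  have hempty : ¬ (bd X (B ∪ C)).Nonempty := by
    rintro ⟨e, a, d, had, ha, hd, rfl⟩
    obtain ⟨D, hD, hdD⟩ := hall d
    have hDB : B ≠ D := by rintro rfl; exact hd (Or.inl hdD)
    have hDC : C ≠ D := by rintro rfl; exact hd (Or.inr hdD)
    rcases ha with ha | ha
    · exact hcon B hB C hC D hD hBC hDB hDC ⟨b, hb, c, hcC, hbc⟩ a ha d hdD had
    · exact hcon C hC B hB D hD hBC.symm hDC hDB ⟨c, hcC, b, hb, hbc.symm⟩ a ha d hdD had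
  have hun : (B ∪ C)ᶜ = ∅ := by
    by_contra hne
    exact hempty (bd_nonempty hX ⟨x0, Or.inl hx0⟩ (Set.nonempty_iff_ne_empty.2 hne))
  -- `Bᶜ ⊆ C`, both `Bᶜ` and `Cᶜ` are in `v`
  have hsub : Cᶜ ⊆ B := by
    intro x hx
    by_contra hxB
    have : x ∈ (B ∪ C)ᶜ := by
      rintro (h | h)
      · exact hxB h
      · exact hx h
    rw [hun] at this
    exact this
  have hBv : B ∈ v := hv.up Cᶜ hC.1 B (hub B hB) hsub
  exact hv.excl B hBv hB.1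

end NRV

theorem nrv_proof (h1 : Stmt_HUA) : Stmt_NRV := by
  intro V X W E v hX hE _ hW hv hall
  obtain ⟨hub, hdis, -, -⟩ := h1 V E v hE hv
  obtain ⟨B, hB, C1, hC1, C2, hC2, hB1, hB2, h12, ⟨b1, hb1, c1, hc1, he1⟩,
    ⟨b2, hb2, c2, hc2, he2⟩⟩ := NRV.three_hubs hX hE hv hub hall
  have dis : ∀ C ∈ Hub v, ∀ C' ∈ Hub v, C ≠ C' → ∀ x, x ∈ C → x ∉ C' := by
    intro C hC C' hC' hne x hx hx'
    exact Set.disjoint_left.1 (hdis C hC C' hC' hne) hx hx'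
  set D1 : Set (Sym2 V) := {e | ∃ b ∈ B, ∃ c ∈ C1, X.Adj b c ∧ e = s(b, c)} with hD1
  have hD1sub : D1 ⊆ bd X B := by
    rintro e ⟨b, hb, c, hc, hbc, rfl⟩
    exact ⟨b, c, hbc, hb, dis C1 hC1 B hB hB1.symm c hc, rfl⟩
  obtain ⟨l, hl, ⟨e1, he1l, he1D⟩, ⟨e2, he2l, he2D⟩⟩ := hW B (hub B hB) D1 (bd X B \ D1)
    (Set.union_sdiff_cancel hD1sub) Set.disjoint_sdiff_right
    ⟨s(b1, c1), b1, hb1, c1, hc1, he1, rfl⟩
    ⟨s(b2, c2), ⟨b2, c2, he2, hb2, dis C2 hC2 B hB hB2.symm c2 hc2, rfl⟩, by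
      rintro ⟨b, hb, c, hc, hbc, h⟩
      rw [Sym2.eq_iff] at h
      rcases h with ⟨rfl, rfl⟩ | ⟨rfl, rfl⟩
      · exact dis C2 hC2 C1 hC1 h12.symm _ hc2 hc
      · exact dis B hB C1 hC1 hB1 _ hb2 hc⟩
  obtain ⟨x, hx, y, hy, hxy, rfl⟩ := he1D
  obtain ⟨⟨u, z, huz, hu, hz, rfl⟩, hnot⟩ := he2D
  obtain ⟨C3, hC3, hz3⟩ := hall z
  refine ⟨l, hl, x, y, z, ⟨_, he1l, Sym2.mem_mk_left _ _⟩, ⟨_, he1l, Sym2.mem_mk_right _ _⟩,
    ⟨_, he2l, Sym2.mem_mk_right _ _⟩, B, hB, C1, hC1, C3, hC3, hB1, ?_, ?_, hx, hy, hz3⟩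
  · rintro rfl
    exact hz hz3
  · rintro rfl
    exact hnot ⟨u, hu, z, hz3, huz, rfl⟩

end Pool.Agent.ACC
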