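import Pool.Agent.ACC.StmtsB

/-!
MP_851278_al, Part III: three connections far from each other.
-/

set_option autoImplicit false

namespace Pool.Agent.ACC

namespace OR3_

theorem enum {α : Type} [Fintype α] (r : α → α → Prop)
    (htot : ∀ a b, a ≠ b → r a b ∨ r b a) (hanti : ∀ a b, a ≠ b → r a b → ¬ r b a)
    (htrans : ∀ a b c, a ≠ b → b ≠ c → a ≠ c → r a b → r b c → r a c) (m : ℕ)
    (hm : Fintype.card α = m) :
    ∃ e : Fin m → α, Function.Injective e ∧ ∀ a b, a < b → r (e a) (e b) := by
  classical
  let _ : LinearOrder α :=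
    { le := fun a b => a = b ∨ r a b
      le_refl := fun a => Or.inl rfl
      le_trans := by
        intro a b c h h'
        by_cases hac : a = c
        · exact Or.inl hac
        right
        rcases h with rfl | h
        · rcases h' with rfl | h'
          · exact absurd rfl hac
          · exact h'
        · rcases h' with rfl | h'
          · exact h
          · by_cases hab : a = b
            · rw [hab]
              exact h'
            · by_cases hbc : b = c
              · rw [← hbc]
                exact h
              · exact htrans a b c hab hbc hac h h'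
      le_antisymm := by
        intro a b h h'
        by_contra hab
        rcases h with h | h
        · exact hab h
        · rcases h' with h' | h'
          · exact hab h'.symm
          · exact hanti a b hab h h'
      le_total := by
        intro a b
        by_cases hab : a = b
        · exact Or.inl (Or.inl hab)
        · rcases htot a b hab with h | h
          · exact Or.inl (Or.inr h)
          · exact Or.inr (Or.inr h)
      toDecidableLE := Classical.decRel _ }
  refine ⟨fun i => monoEquivOfFin α hm i, (monoEquivOfFin α hm).injective, ?_⟩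
  intro a b hab
  have h1 : monoEquivOfFin α hm a ≤ monoEquivOfFin α hm b :=
    (monoEquivOfFin α hm).monotone hab.le
  rcases h1 with h1 | h1
  · exact absurd ((monoEquivOfFin α hm).injective h1) hab.ne
  · exact h1

theorem len_of_disj {V : Type} {P : SimpleGraph V} {u v : V} (w : P.Walk u v) (g : ℕ)
    (A : ℕ → Set V)
    (hd : ∀ a b, a < g + 1 → b < g + 1 → a ≠ b → Disjoint (A a) (A b))
    (hm : ∀ a, a < g + 1 → ∃ z ∈ w.support, z ∈ A a) : g ≤ w.length := by
  classical
  choose f hf1 hf2 using hm
  have hinj : Function.Injective (fun i : Fin (g + 1) => f i.1 i.2) := by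
    intro a b hab
    by_contra hne
    have hne' : (a : ℕ) ≠ b := fun h => hne (Fin.ext h)
    have h1 := hf2 a.1 a.2
    have h2 := hf2 b.1 b.2
    have hab' : f a.1 a.2 = f b.1 b.2 := hab
    rw [hab'] at h1
    exact Set.disjoint_left.1 (hd a b a.2 b.2 hne') h1 h2
  have hc : (Finset.univ.image (fun i : Fin (g + 1) => f i.1 i.2)).card = g + 1 := by
    rw [Finset.card_image_of_injective _ hinj, Finset.card_univ, Fintype.card_fin]
  have hsub : Finset.univ.image (fun i : Fin (g + 1) => f i.1 i.2) ⊆ w.support.toFinset := by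
    intro z hz
    rw [Finset.mem_image] at hz
    obtain ⟨i, -, rfl⟩ := hz
    exact List.mem_toFinset.2 (hf1 i.1 i.2)
  have h1 := (Finset.card_le_card hsub).trans (List.toFinset_card_le _)
  rw [hc, SimpleGraph.Walk.length_support] at h1
  omega

end OR3_

open OR3_ in
theorem or3_proof (h1 : Stmt_ORA) (h2 : Stmt_ORT) (h3 : Stmt_ORM) (h4 : Stmt_ORN) :
    Stmt_OR3 := by
  classical
  intro V R X Y n g F hP hR hg hn
  have hn0 : 0 < n := by omega
  set o : Fin n := ⟨0, hn0⟩ with ho
  have hcard : Fintype.card {j : Fin n // j ≠ o} = n - 1 := by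
    rw [Fintype.card_subtype_compl, Fintype.card_fin, Fintype.card_subtype_eq]
  obtain ⟨e, he1, he2⟩ := enum (fun k j : {j : Fin n // j ≠ o} => F.Bef o k.1 j.1)
    (by
      intro a b hab
      have hab' : a.1 ≠ b.1 := fun h => hab (Subtype.ext h)
      by_contra hcon
      rw [not_or] at hcon
      exact hcon.1 ((h1 V R X Y (Fin n) F o b.1 a.1 hP hR b.2.symm a.2.symm hab'.symm).2
        hcon.2))
    (by
      intro a b hab h
      have hab' : a.1 ≠ b.1 := fun h => hab (Subtype.ext h)
      exact (h1 V R X Y (Fin n) F o b.1 a.1 hP hR b.2.symm a.2.symm hab'.symm).1 h)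
    (by
      intro a b c hab hbc hac h h'
      have hab' : a.1 ≠ b.1 := fun h => hab (Subtype.ext h)
      have hbc' : b.1 ≠ c.1 := fun h => hbc (Subtype.ext h)
      have hac' : a.1 ≠ c.1 := fun h => hac (Subtype.ext h)
      exact h2 V R X Y (Fin n) F o c.1 b.1 a.1 hP hR c.2.symm b.2.symm a.2.symm hbc'.symm
        hac'.symm hab'.symm h h')
    (n - 1) hcard
  -- the enumeration with `E 0 = o`
  set E : ℕ → Fin n := fun m => if h : 1 ≤ m ∧ m ≤ n - 1 then
    (e ⟨m - 1, by omega⟩).1 else o with hE
  have hE0 : E 0 = o := by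
    rw [hE]
    simp
  have hEpos : ∀ m, 1 ≤ m → m ≤ n - 1 → ∃ h : m - 1 < n - 1, E m = (e ⟨m - 1, h⟩).1 := by
    intro m hm hm'
    refine ⟨by omega, ?_⟩
    rw [hE]
    simp only
    rw [dif_pos ⟨hm, hm'⟩]
  have hEo : ∀ m, 1 ≤ m → m ≤ n - 1 → o ≠ E m := by
    intro m hm hm'
    obtain ⟨h, hh⟩ := hEpos m hm hm'
    rw [hh]
    exact (e ⟨m - 1, h⟩).2.symm
  have hEne : ∀ a b, 1 ≤ a → a < b → b ≤ n - 1 → E a ≠ E b := by
    intro a b ha hab hb
    obtain ⟨h, hh⟩ := hEpos a ha (by omega)
    obtain ⟨h', hh'⟩ := hEpos b (by omega) hb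
    rw [hh, hh']
    intro hc
    have := he1 (Subtype.ext hc)
    rw [Fin.mk.injEq] at this
    omega
  have hEb : ∀ a b, 1 ≤ a → a < b → b ≤ n - 1 → F.Bef o (E a) (E b) := by
    intro a b ha hab hb
    obtain ⟨h, hh⟩ := hEpos a ha (by omega)
    obtain ⟨h', hh'⟩ := hEpos b (by omega) hb
    rw [hh, hh']
    refine he2 _ _ ?_
    rw [Fin.mk_lt_mk]
    omega
  have hEinj : ∀ a b, a ≤ n - 1 → b ≤ n - 1 → a ≠ b → E a ≠ E b := by
    intro a b ha hb hab
    rcases Nat.eq_zero_or_pos a with rfl | ha0
    · rw [hE0]
      exact hEo b (by omega) hb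
    · rcases Nat.eq_zero_or_pos b with rfl | hb0
      · rw [hE0]
        exact (hEo a ha0 ha).symm
      · rcases lt_or_gt_of_ne hab with h | h
        · exact hEne a b ha0 h hb
        · exact (hEne b a hb0 h ha).symm
  -- (a), (b)
  have hab : ∀ j, g ≤ j → j + g ≤ n → ∀ u ∈ F.S (E 0), ∀ v ∈ F.S (E j),
      ∀ w : R.P.Walk u v, (∀ z ∈ w.support, z ∉ X ∧ z ∉ Y) → g ≤ w.length := by
    intro j hgj hjn u hu v hv w hw
    refine len_of_disj w g (fun m => if m = 0 then F.S (E 0) else if m = g then F.S (E j) else
      F.S (E m) ∪ F.S (E (j + m))) ?_ ?_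
    · have hdisj : ∀ a b, a ≤ n - 1 → b ≤ n - 1 → a ≠ b → Disjoint (F.S (E a)) (F.S (E b)) :=
        fun a b ha hb h => F.dS _ _ (hEinj a b ha hb h)
      intro a b ha hb hne
      by_cases ha0 : a = 0
      · rw [if_pos ha0]
        by_cases hb0 : b = 0
        · exact absurd (ha0.trans hb0.symm) hne
        rw [if_neg hb0]
        by_cases hbg : b = g
        · rw [if_pos hbg]
          exact hdisj 0 j (by omega) (by omega) (by omega)
        · rw [if_neg hbg, Set.disjoint_union_right]
          exact ⟨hdisj 0 b (by omega) (by omega) (by omega),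
            hdisj 0 (j + b) (by omega) (by omega) (by omega)⟩
      · rw [if_neg ha0]
        by_cases hag : a = g
        · rw [if_pos hag]
          by_cases hb0 : b = 0
          · rw [if_pos hb0]
            exact hdisj j 0 (by omega) (by omega) (by omega)
          rw [if_neg hb0]
          by_cases hbg : b = g
          · exact absurd (hag.trans hbg.symm) hne
          · rw [if_neg hbg, Set.disjoint_union_right]
            exact ⟨hdisj j b (by omega) (by omega) (by omega),
              hdisj j (j + b) (by omega) (by omega) (by omega)⟩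
        · rw [if_neg hag, Set.disjoint_union_left]
          by_cases hb0 : b = 0
          · rw [if_pos hb0]
            exact ⟨hdisj a 0 (by omega) (by omega) (by omega),
              hdisj (j + a) 0 (by omega) (by omega) (by omega)⟩
          rw [if_neg hb0]
          by_cases hbg : b = g
          · rw [if_pos hbg]
            exact ⟨hdisj a j (by omega) (by omega) (by omega),
              hdisj (j + a) j (by omega) (by omega) (by omega)⟩
          · rw [if_neg hbg, Set.disjoint_union_right, Set.disjoint_union_right]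
            exact ⟨⟨hdisj a b (by omega) (by omega) (by omega),
              hdisj a (j + b) (by omega) (by omega) (by omega)⟩,
              hdisj (j + a) b (by omega) (by omega) (by omega),
              hdisj (j + a) (j + b) (by omega) (by omega) (by omega)⟩
    · intro m hm
      by_cases hm0 : m = 0
      · rw [if_pos hm0]
        exact ⟨u, w.start_mem_support, hu⟩
      rw [if_neg hm0]
      by_cases hmg : m = g
      · rw [if_pos hmg]
        exact ⟨v, w.end_mem_support, hv⟩
      rw [if_neg hmg]
      rw [hE0] at hu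
      obtain ⟨z, hz, h⟩ := h3 V R X Y (Fin n) F o (E j) (E m) (E (j + m)) hP hR
        (hEo j (by omega) (by omega)) (hEo m (by omega) (by omega))
        (hEo (j + m) (by omega) (by omega))
        (hEinj j m (by omega) (by omega) (by omega))
        (hEinj j (j + m) (by omega) (by omega) (by omega))
        (hEinj m (j + m) (by omega) (by omega) (by omega))
        (hEb m j (by omega) (by omega) (by omega))
        (hEb j (j + m) (by omega) (by omega) (by omega)) u hu v hv w
      refine ⟨z, hz, ?_⟩
      rcases h with h | h | h | h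
      · exact absurd h (hw z hz).1
      · exact absurd h (hw z hz).2
      · exact Or.inl h
      · exact Or.inr h
  -- (c)
  have hc : ∀ u ∈ F.S (E g), ∀ v ∈ F.S (E (2 * g)),
      ∀ w : R.P.Walk u v, (∀ z ∈ w.support, z ∉ X ∧ z ∉ Y) → g ≤ w.length := by
    intro u hu v hv w hw
    by_cases hmo : ∃ z ∈ w.support, z ∈ F.S o
    · obtain ⟨z, hz, hzo⟩ := hmo
      have hl : (w.takeUntil z hz).reverse.length ≤ w.length := by
        rw [SimpleGraph.Walk.length_reverse]
        exact w.length_takeUntil_le_length hz
      refine le_trans ?_ hl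
      rw [← hE0] at hzo
      refine hab g le_rfl (by omega) z hzo u hu _ ?_
      intro z' hz'
      rw [SimpleGraph.Walk.support_reverse, List.mem_reverse] at hz'
      exact hw z' (w.support_takeUntil_subset_support hz hz')
    · refine len_of_disj w g (fun m => F.S (E (g + m))) ?_ ?_
      · intro a b ha hb hne
        exact F.dS _ _ (hEinj (g + a) (g + b) (by omega) (by omega) (by omega))
      · intro m hm
        by_cases hm0 : m = 0
        · rw [hm0, add_zero]
          exact ⟨u, w.start_mem_support, hu⟩
        by_cases hmg : m = g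
        · rw [hmg, ← two_mul]
          exact ⟨v, w.end_mem_support, hv⟩
        obtain ⟨z, hz, h⟩ := h4 V R X Y (Fin n) F o (E g) (E (g + m)) (E (2 * g)) hP hR
          (hEo g (by omega) (by omega)) (hEo (g + m) (by omega) (by omega))
          (hEo (2 * g) (by omega) (by omega))
          (hEinj g (g + m) (by omega) (by omega) (by omega))
          (hEinj g (2 * g) (by omega) (by omega) (by omega))
          (hEinj (g + m) (2 * g) (by omega) (by omega) (by omega))
          (hEb g (g + m) (by omega) (by omega) (by omega))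
          (hEb (g + m) (2 * g) (by omega) (by omega) (by omega)) u hu v hv w
        refine ⟨z, hz, ?_⟩
        rcases h with h | h | h | h
        · exact absurd h (hw z hz).1
        · exact absurd h (hw z hz).2
        · exact absurd ⟨z, hz, h⟩ hmo
        · exact h
  -- symmetric versions
  have hrev : ∀ a b : ℕ, (∀ u ∈ F.S (E a), ∀ v ∈ F.S (E b),
      ∀ w : R.P.Walk u v, (∀ z ∈ w.support, z ∉ X ∧ z ∉ Y) → g ≤ w.length) →
      ∀ u ∈ F.S (E b), ∀ v ∈ F.S (E a),
      ∀ w : R.P.Walk u v, (∀ z ∈ w.support, z ∉ X ∧ z ∉ Y) → g ≤ w.length := by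
    intro a b h u hu v hv w hw
    have := h v hv u hu w.reverse (by
      intro z hz
      rw [SimpleGraph.Walk.support_reverse, List.mem_reverse] at hz
      exact hw z hz)
    rwa [SimpleGraph.Walk.length_reverse] at this
  have ha1 := hab g le_rfl (by omega)
  have ha2 := hab (2 * g) (by omega) (by omega)
  refine ⟨fun p => E (p.1 * g), ?_, ?_⟩
  · intro p q hpq
    by_contra hne
    have hne' : p.1 ≠ q.1 := fun h => hne (Fin.ext h)
    have hp : p.1 * g ≤ 2 * g := Nat.mul_le_mul_right g (by omega)
    have hq : q.1 * g ≤ 2 * g := Nat.mul_le_mul_right g (by omega)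
    refine hEinj (p.1 * g) (q.1 * g) (by omega) (by omega) ?_ hpq
    intro h
    exact hne' (Nat.eq_of_mul_eq_mul_right (by omega) h)
  · intro p q hpq
    have e0 : (0 : ℕ) * g = 0 := Nat.zero_mul g
    have e1 : (1 : ℕ) * g = g := Nat.one_mul g
    fin_cases p <;> fin_cases q
    · exact absurd rfl hpq
    · show ∀ u ∈ F.S (E (0 * g)), ∀ v ∈ F.S (E (1 * g)), _
      rw [e0, e1]
      exact ha1
    · show ∀ u ∈ F.S (E (0 * g)), ∀ v ∈ F.S (E (2 * g)), _
      rw [e0]
      exact ha2
    · show ∀ u ∈ F.S (E (1 * g)), ∀ v ∈ F.S (E (0 * g)), _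
      rw [e0, e1]
      exact hrev _ _ ha1
    · exact absurd rfl hpq
    · show ∀ u ∈ F.S (E (1 * g)), ∀ v ∈ F.S (E (2 * g)), _
      rw [e1]
      exact hc
    · show ∀ u ∈ F.S (E (2 * g)), ∀ v ∈ F.S (E (0 * g)), _
      rw [e0]
      exact hrev _ _ ha2
    · show ∀ u ∈ F.S (E (2 * g)), ∀ v ∈ F.S (E (1 * g)), _
      rw [e1]
      exact hrev _ _ hc
    · exact absurd rfl hpq

end Pool.Agent.ACC
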