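import Pool.Agent.ACC.StmtsB

/-!
Squad ACB, module ORA: antisymmetry of the cyclic order of disjoint connections.
-/

set_option autoImplicit false

namespace Pool.Agent.ACC

namespace ORA_

theorem par_append {V : Type} (l m : List (Sym2 V)) (x y : V) :
    par (l ++ m) x y = par l x y + par m x y := by
  classical
  simp only [par, List.count_append, Nat.cast_add]

theorem par_zero {V : Type} (l : List (Sym2 V)) (x y : V) (h : s(x, y) ∉ l) : par l x y = 0 := by
  classical
  simp only [par, List.count_eq_zero_of_not_mem h, Nat.cast_zero]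

theorem link_mem {V : Type} {P : SimpleGraph V} {X S Y : Set V} {x0 y0 : V}
    (L : Link P X S Y x0 y0) (u v : V) (h : s(u, v) ∈ L.edges) : u ∈ X ∨ u ∈ S ∨ u ∈ Y := by
  simp only [Link.edges, List.mem_append, List.mem_cons] at h
  have h1 : L.a ∈ X := L.s1 _ L.p1.end_mem_support
  have h2 : L.b ∈ S := L.s2 _ L.p2.start_mem_support
  have h3 : L.b' ∈ S := L.s2 _ L.p2.end_mem_support
  have h4 : L.a' ∈ Y := L.s3 _ L.p3.start_mem_support
  rcases h with h | h | h | h | h
  · exact Or.inl (L.s1 _ (SimpleGraph.Walk.fst_mem_support_of_mem_edges _ h))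
  · rw [Sym2.eq_iff] at h
    rcases h with ⟨h, -⟩ | ⟨h, -⟩
    · rw [h]; exact Or.inl h1
    · rw [h]; exact Or.inr (Or.inl h2)
  · exact Or.inr (Or.inl (L.s2 _ (SimpleGraph.Walk.fst_mem_support_of_mem_edges _ h)))
  · rw [Sym2.eq_iff] at h
    rcases h with ⟨h, -⟩ | ⟨h, -⟩
    · rw [h]; exact Or.inr (Or.inl h3)
    · rw [h]; exact Or.inr (Or.inr h4)
  · exact Or.inr (Or.inr (L.s3 _ (SimpleGraph.Walk.fst_mem_support_of_mem_edges _ h)))

theorem two_zero {V : Type} {P : SimpleGraph V} {X S T Y : Set V} {x0 y0 : V}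
    (L : Link P X S Y x0 y0) (M : Link P X T Y x0 y0) (u v : V) (h1 : u ∉ X) (h2 : u ∉ Y)
    (h3 : u ∉ S) (h4 : u ∉ T) : par (L.edges ++ M.edges) u v = 0 := by
  apply par_zero
  intro h
  rw [List.mem_append] at h
  rcases h with h | h
  · rcases link_mem L u v h with h | h | h
    · exact h1 h
    · exact h3 h
    · exact h2 h
  · rcases link_mem M u v h with h | h | h
    · exact h1 h
    · exact h4 h
    · exact h2 h

/-- a colouring is constant on the darts starting in a connected set without boundary -/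
theorem const_on {V : Type} (hRCS : Stmt_RCS) (R : Rot V) {S : Set V} (hS : Cn R.P S)
    (c : V → V → ZMod 2) (hc : R.Inv c) (h : ∀ x ∈ S, ∀ y, R.P.Adj x y → c x y = c y x)
    {x y x' y' : V} (hx : x ∈ S) (hx' : x' ∈ S) (hxy : R.P.Adj x y) (hxy' : R.P.Adj x' y') :
    c x y = c x' y' := by
  obtain ⟨w, hw⟩ := hS.2 x hx x' hx'
  exact (hRCS V R c hc x x' w (fun z hz z' hzz' => h z (hw z hz) z' hzz') y y' hxy hxy').1

theorem add_eq_zero {a b : ZMod 2} (h : a + b = 0) : a = b := by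
  revert a b; decide

/-- uniqueness of colourings -/
theorem uniq {V : Type} (hRCS : Stmt_RCS) (R : Rot V) (hR : R.P.Connected)
    (c d : V → V → ZMod 2) (hc : R.Inv c) (hd : R.Inv d)
    (h : ∀ y z, R.P.Adj y z → c y z + c z y = d y z + d z y) {a b : V} (hab : R.P.Adj a b)
    (h0 : c a b = d a b) {x y : V} (hxy : R.P.Adj x y) : c x y = d x y := by
  obtain ⟨w⟩ := hR.preconnected a x
  have h1 := (hRCS V R (fun u v => c u v + d u v) (by
    intro u v huv
    simp only [hc u v huv, hd u v huv]) a x w (by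
    intro z _ z' hzz'
    have h2 := h z z' hzz'
    revert h2
    generalize c z z' = p
    generalize c z' z = q
    generalize d z z' = r
    generalize d z' z = s
    revert p q r s
    decide) b y hab hxy).1
  simp only [h0] at h1
  revert h1
  generalize d a b = p
  generalize c x y = q
  generalize d x y = r
  revert p q r
  decide

/-- the colouring of the pair `(o, j)` decides `Bef o k j` -/
theorem bef_iff {V : Type} (hRCS : Stmt_RCS) (R : Rot V) (X Y : Set V) (I : Type)
    (F : Fam R X Y I) (o j k : I) (hR : R.P.Connected) (hok : o ≠ k) (hjk : j ≠ k)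
    (β : V → V → ZMod 2) (hβ : R.Col β)
    (hb : ∀ y z, R.P.Adj y z → β y z + β z y = par ((F.L o).edges ++ (F.L j).edges) y z)
    (h0 : β (F.L o).a (F.L o).b = 0) :
    (∀ x ∈ F.S k, ∀ y, R.P.Adj x y → β x y = β (F.L k).b (F.L k).a) ∧
    (F.Bef o k j ↔ β (F.L k).b (F.L k).a = 1) := by
  have hbk : (F.L k).b ∈ F.S k := (F.L k).s2 _ (F.L k).p2.start_mem_support
  have hno : ∀ x ∈ F.S k, ∀ y, R.P.Adj x y → β x y = β y x := by
    intro x hx y hxy
    apply add_eq_zero
    rw [hb x y hxy]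
    exact two_zero _ _ x y (fun h => Set.disjoint_left.mp (F.dX k) h hx)
      (fun h => Set.disjoint_left.mp (F.dY k) h hx)
      (fun h => Set.disjoint_left.mp (F.dS o k hok) h hx)
      (fun h => Set.disjoint_left.mp (F.dS j k hjk) h hx)
  have hconst : ∀ x ∈ F.S k, ∀ y, R.P.Adj x y → β x y = β (F.L k).b (F.L k).a := by
    intro x hx y hxy
    exact const_on hRCS R (F.cS k) β hβ.1 hno hx hbk hxy (F.L k).h1.symm
  refine ⟨hconst, ?_, ?_⟩
  · rintro ⟨c, hc, hcb, hc0, hc1⟩
    rw [← hc1 _ hbk _ (F.L k).h1.symm]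
    exact (uniq hRCS R hR c β hc.1 hβ.1 (fun y z hyz => by rw [hcb y z hyz, hb y z hyz])
      (F.L o).h1 (by rw [hc0, h0]) (F.L k).h1.symm).symm
  · intro h1
    exact ⟨β, hβ, hb, h0, fun x hx y hxy => by rw [hconst x hx y hxy, h1]⟩

end ORA_

theorem ora_proof (hRCS : Stmt_RCS) (hLKP : Stmt_LKP) (hKTH : Stmt_KTH) : Stmt_ORA := by
  intro V R X Y I F o j k hR hPl hoj hok hjk
  obtain ⟨β, hβ, hβb, hβ0⟩ := hLKP V R X Y (F.S o) (F.S j) F.x0 F.y0 (F.L o) (F.L j)
    ((F.L o).a, (F.L o).b) 0 hPl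
  obtain ⟨γ, hγ, hγb, hγ0⟩ := hLKP V R X Y (F.S o) (F.S k) F.x0 F.y0 (F.L o) (F.L k)
    ((F.L o).a, (F.L o).b) 0 hPl
  obtain ⟨δ, hδ, hδb, hδ0⟩ := hLKP V R X Y (F.S j) (F.S k) F.x0 F.y0 (F.L j) (F.L k)
    ((F.L o).b, (F.L o).a) 0 hPl
  simp only at hβ0 hγ0 hδ0
  obtain ⟨hβc, hβi⟩ := ORA_.bef_iff hRCS R X Y I F o j k hR hok hjk β hβ hβb hβ0
  obtain ⟨hγc, hγi⟩ := ORA_.bef_iff hRCS R X Y I F o k j hR hoj (Ne.symm hjk) γ hγ hγb hγ0
  have hbo : (F.L o).b ∈ F.S o := (F.L o).s2 _ (F.L o).p2.start_mem_support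
  have hδno : ∀ x ∈ F.S o, ∀ y, R.P.Adj x y → δ x y = δ y x := by
    intro x hx y hxy
    apply ORA_.add_eq_zero
    rw [hδb x y hxy]
    exact ORA_.two_zero _ _ x y (fun h => Set.disjoint_left.mp (F.dX o) h hx)
      (fun h => Set.disjoint_left.mp (F.dY o) h hx)
      (fun h => Set.disjoint_left.mp (F.dS j o (Ne.symm hoj)) h hx)
      (fun h => Set.disjoint_left.mp (F.dS k o (Ne.symm hok)) h hx)
  have hδc : ∀ x ∈ F.S o, ∀ y, R.P.Adj x y → δ x y = 0 := by
    intro x hx y hxy
    rw [← hδ0]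
    exact ORA_.const_on hRCS R (F.cS o) δ hδ.1 hδno hx hbo hxy (F.L o).h1.symm
  have hδa : δ (F.L o).a (F.L o).b = 0 := by
    rw [← hδno _ hbo _ (F.L o).h1.symm]
    exact hδ0
  set sβ := β (F.L k).b (F.L k).a with hsβ
  set sγ := γ (F.L j).b (F.L j).a with hsγ
  let e : Fin 3 → I := ![o, j, k]
  have hne : ∀ i i' : Fin 3, i ≠ i' → e i ≠ e i' := by
    intro i i' hii'
    fin_cases i <;> fin_cases i' <;>
      simp_all [e, Ne.symm hoj, Ne.symm hok, Ne.symm hjk]
  have key := hKTH V R X Y (fun i => F.S (e i)) F.x0 F.y0 (fun i => F.L (e i))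
    ![δ, fun x y => γ x y + sγ, fun x y => β x y + sβ] hR F.dXY (fun i => F.dX (e i))
    (fun i => F.dY (e i)) (fun i i' h => F.dS _ _ (hne i i' h)) (by
      intro i
      fin_cases i
      · exact hδ
      · exact R.col_add hγ (R.col_const sγ)
      · exact R.col_add hβ (R.col_const sβ)) (by
      intro i y z hyz
      fin_cases i
      · exact hδb y z hyz
      · show (γ y z + sγ) + (γ z y + sγ) = par ((F.L k).edges ++ (F.L o).edges) y z
        have h1 := hγb y z hyz
        rw [ORA_.par_append] at h1 ⊢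
        rw [add_comm (par (F.L k).edges y z), ← h1]
        have h2 : sγ + sγ = 0 := CharTwo.add_self_eq_zero _
        calc (γ y z + sγ) + (γ z y + sγ) = γ y z + γ z y + (sγ + sγ) := by ring
          _ = γ y z + γ z y := by rw [h2, add_zero]
      · show (β y z + sβ) + (β z y + sβ) = par ((F.L o).edges ++ (F.L j).edges) y z
        rw [← hβb y z hyz]
        have h2 : sβ + sβ = 0 := CharTwo.add_self_eq_zero _
        calc (β y z + sβ) + (β z y + sβ) = β y z + β z y + (sβ + sβ) := by ring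
          _ = β y z + β z y := by rw [h2, add_zero]) (by
      intro i x hx y hxy
      fin_cases i
      · exact hδc x hx y hxy
      · show γ x y + sγ = 0
        rw [hγc x hx y hxy]
        exact CharTwo.add_self_eq_zero _
      · show β x y + sβ = 0
        rw [hβc x hx y hxy]
        exact CharTwo.add_self_eq_zero _) (F.L o).a (F.L o).b (F.L o).h1
  have key' : δ (F.L o).a (F.L o).b + (γ (F.L o).a (F.L o).b + sγ) +
      (β (F.L o).a (F.L o).b + sβ) = 1 := key
  rw [hδa, hγ0, hβ0] at key'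
  rw [hβi, hγi]
  revert key'
  generalize sβ = p
  generalize sγ = q
  revert p q
  decide

end Pool.Agent.ACC
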