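import Pool.Agent.ACC.StmtsB

set_option autoImplicit false

namespace Pool.Agent.ACC

namespace ORM_

theorem par_append {V : Type} (l m : List (Sym2 V)) (x y : V) :
    par (l ++ m) x y = par l x y + par m x y := by
  classical
  unfold par
  rw [List.count_append]
  push_cast
  rfl

theorem par_zero {V : Type} (l : List (Sym2 V)) (x y : V) (h : s(x, y) ∉ l) : par l x y = 0 := by
  classical
  unfold par
  rw [List.count_eq_zero_of_not_mem (by simpa using h)]
  simp

theorem mem_link {V : Type} {P : SimpleGraph V} {X S Y : Set V} {x0 y0 : V}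
    (L : Link P X S Y x0 y0) (y z : V) (h : s(y, z) ∈ L.edges) : y ∈ X ∨ y ∈ S ∨ y ∈ Y := by
  unfold Link.edges at h
  simp only [List.mem_append, List.mem_cons] at h
  rcases h with h | h | h | h | h
  · exact Or.inl (L.s1 _ (L.p1.fst_mem_support_of_mem_edges h))
  · rcases Sym2.eq_iff.mp h with ⟨h1, -⟩ | ⟨h1, -⟩
    · exact Or.inl (h1 ▸ L.s1 _ (by simp))
    · exact Or.inr (Or.inl (h1 ▸ L.s2 _ (by simp)))
  · exact Or.inr (Or.inl (L.s2 _ (L.p2.fst_mem_support_of_mem_edges h)))
  · rcases Sym2.eq_iff.mp h with ⟨h1, -⟩ | ⟨h1, -⟩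
    · exact Or.inr (Or.inl (h1 ▸ L.s2 _ (by simp)))
    · exact Or.inr (Or.inr (h1 ▸ L.s3 _ (by simp)))
  · exact Or.inr (Or.inr (L.s3 _ (L.p3.fst_mem_support_of_mem_edges h)))

theorem par_link {V : Type} {P : SimpleGraph V} {X S Y : Set V} {x0 y0 : V}
    (L : Link P X S Y x0 y0) (y z : V) (h1 : y ∉ X) (h2 : y ∉ S) (h3 : y ∉ Y) :
    par L.edges y z = 0 :=
  par_zero _ _ _ (fun h => by rcases mem_link L y z h with h | h | h <;> contradiction)

theorem two {a b : ZMod 2} (h : a + b = 0) : a = b := by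
  revert h
  revert a b
  decide

theorem ne_zero_one {a : ZMod 2} (h : a ≠ 0) : a = 1 := by
  revert h
  revert a
  decide

end ORM_

open ORM_ in
theorem orm_proof (h1 : Stmt_RCS) (h2 : Stmt_LKP) (h3 : Stmt_ORA) : Stmt_ORM := by
  intro V R X Y I F o j k l hc hp hoj hok hol hjk hjl hkl hkj hjl' u hu v hv w
  by_contra hno
  push Not at hno
  obtain ⟨γ, hγ, hγb, hγ0⟩ := h2 V R X Y (F.S o) (F.S k) F.x0 F.y0 (F.L o) (F.L k)
    ((F.L o).a, (F.L o).b) 0 hp
  obtain ⟨δ, hδ, hδb, hδ0, hδ1⟩ := hjl'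
  have hbo : (F.L o).b ∈ F.S o := (F.L o).s2 _ (by simp)
  have hbj : (F.L j).b ∈ F.S j := (F.L j).s2 _ (by simp)
  -- γ vanishes on S j
  have hγj : γ (F.L j).b (F.L j).a = 0 := by
    by_contra hne
    have hone := ne_zero_one hne
    refine ((h3 V R X Y I F o j k hc hp hoj hok hjk).mp hkj) ⟨γ, hγ, hγb, hγ0, ?_⟩
    intro x hx y hxy
    obtain ⟨q, hq⟩ := (F.cS j).2 x hx _ hbj
    have := h1 V R γ hγ.1 x _ q (by
      intro z hz z' hzz
      have hzj := hq z hz
      apply two
      rw [hγb z z' hzz, par_append, par_link, par_link, add_zero]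
      · exact fun h => (Set.disjoint_left.mp (F.dX j)) h hzj
      · exact fun h => (Set.disjoint_left.mp (F.dS k j hjk.symm)) h hzj
      · exact fun h => (Set.disjoint_left.mp (F.dY j)) h hzj
      · exact fun h => (Set.disjoint_left.mp (F.dX j)) h hzj
      · exact fun h => (Set.disjoint_left.mp (F.dS o j hoj)) h hzj
      · exact fun h => (Set.disjoint_left.mp (F.dY j)) h hzj) y (F.L j).a hxy (F.L j).h1.symm
    rw [this.1, hone]
  obtain ⟨q1, hq1⟩ := (F.cS o).2 _ hbo u hu
  obtain ⟨q2, hq2⟩ := (F.cS j).2 v hv _ hbj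
  have hs : R.Inv (fun x y => γ x y + δ x y) := (R.col_add hγ hδ).1
  have key := h1 V R (fun x y => γ x y + δ x y) hs _ _ (q1.append (w.append q2)) (by
    intro z hz z' hzz
    have hz4 : z ∉ X ∧ z ∉ Y ∧ z ∉ F.S k ∧ z ∉ F.S l := by
      rw [SimpleGraph.Walk.mem_support_append_iff, SimpleGraph.Walk.mem_support_append_iff] at hz
      rcases hz with hz | hz | hz
      · have := hq1 z hz
        exact ⟨fun h => (Set.disjoint_left.mp (F.dX o)) h this,
          fun h => (Set.disjoint_left.mp (F.dY o)) h this,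
          fun h => (Set.disjoint_left.mp (F.dS k o hok.symm)) h this,
          fun h => (Set.disjoint_left.mp (F.dS l o hol.symm)) h this⟩
      · exact hno z hz
      · have := hq2 z hz
        exact ⟨fun h => (Set.disjoint_left.mp (F.dX j)) h this,
          fun h => (Set.disjoint_left.mp (F.dY j)) h this,
          fun h => (Set.disjoint_left.mp (F.dS k j hjk.symm)) h this,
          fun h => (Set.disjoint_left.mp (F.dS l j hjl.symm)) h this⟩
    obtain ⟨e1, e2, e3, e4⟩ := hz4
    apply two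
    have a1 := hγb z z' hzz
    have a2 := hδb z z' hzz
    rw [par_append, par_link (F.L k) z z' e1 e3 e2, add_zero] at a1
    rw [par_append, par_link (F.L l) z z' e1 e4 e2, add_zero] at a2
    have : γ z z' + δ z z' + (γ z' z + δ z' z) = (γ z z' + γ z' z) + (δ z z' + δ z' z) := by ring
    rw [this, a1, a2]
    exact CharTwo.add_self_eq_zero _) (F.L o).a (F.L j).a (F.L o).h1.symm (F.L j).h1.symm
  have e := key.2
  simp only at e hγ0
  rw [hγ0, hδ0, hγj, hδ1 _ hbj _ (F.L j).h1.symm] at e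
  exact absurd e (by decide)

end Pool.Agent.ACC
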