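import Pool.Agent.ACC.LibB

set_option autoImplicit false

/-! MP_851278_al, module ORN: a walk from `S j` to `S l` -/

namespace Pool.Agent.ACC

namespace ORN_

variable {V : Type}

theorem exists_nb {R : Rot V} (hR : R.P.Connected) {a b : V} (hab : R.P.Adj a b) (u : V) :
    ∃ u', R.P.Adj u u' := by
  obtain ⟨w⟩ := hR.preconnected u a
  cases w with
  | nil => exact ⟨b, hab⟩
  | cons h _ => exact ⟨_, h⟩

end ORN_

open ORN_ in
theorem orn_proof (h1 : Stmt_RCS) (_h2 : Stmt_LKP) (h3 : Stmt_ORA) : Stmt_ORN := by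
  intro V R X Y I F o j k l hR hpl hoj hok hol hjk hjl hkl hb1 hb2 u hu v hv w
  by_contra hcon
  push Not at hcon
  have hb3 : ¬ F.Bef o l k := (h3 V R X Y I F o l k hR hpl hol hok hkl.symm).1 hb2
  obtain ⟨c, hc, hcb, hc0, hcj⟩ := hb1
  have hzero : ∀ z, z ∉ X → z ∉ Y → z ∉ F.S o → z ∉ F.S k → ∀ z', R.P.Adj z z' →
      c z z' = c z' z := by
    intro z hX hY ho hk z' hz
    rw [z2_eq_iff, hcb z z' hz, par_append, ((F.L o).par_zero hX ho hY z').1,
      ((F.L k).par_zero hX hk hY z').1, add_zero]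
  have hnb := exists_nb hR (F.L o).h1
  obtain ⟨u', hu'⟩ := hnb u
  obtain ⟨v', hv'⟩ := hnb v
  have e1 := (h1 V R c hc.1 u v w (fun z hz z' hzz' => by
    have := hcon z hz
    exact hzero z this.1 this.2.1 this.2.2.1 this.2.2.2 z' hzz') u' v' hu' hv').1
  have e2 := hcj u hu u' hu'
  rw [e2] at e1
  apply hb3
  refine ⟨c, hc, hcb, hc0, fun x hx y hxy => ?_⟩
  obtain ⟨w2, hw2⟩ := (F.cS l).2 v hv x hx
  have e3 := (h1 V R c hc.1 v x w2 (fun z hz z' hzz' => by
    have hz' := hw2 z hz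
    exact hzero z (fun h => Set.disjoint_left.mp (F.dX l) h hz')
      (fun h => Set.disjoint_left.mp (F.dY l) h hz')
      (fun h => Set.disjoint_left.mp (F.dS o l hol) h hz')
      (fun h => Set.disjoint_left.mp (F.dS k l hkl) h hz') z' hzz') v' y hv' hxy).1
  rw [← e3, ← e1]

end Pool.Agent.ACC
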