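import Pool.Agent.ACC.StmtsB

/-!
# Squad ACB, module ORT: transitivity of the cyclic order
-/

set_option autoImplicit false

namespace Pool.Agent.ACC

namespace ORT_

variable {V : Type}

lemma par_append (l m : List (Sym2 V)) (x y : V) :
    par (l ++ m) x y = par l x y + par m x y := by
  classical
  unfold par
  rw [List.count_append]
  push_cast
  rfl

lemma par_zero (l : List (Sym2 V)) (x y : V) (h : s(x, y) ∉ l) : par l x y = 0 := by
  classical
  unfold par
  rw [List.count_eq_zero_of_not_mem h]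
  rfl

lemma link_mem {P : SimpleGraph V} {X S Y : Set V} {x0 y0 : V} (L : Link P X S Y x0 y0)
    {x y : V} (h : s(x, y) ∈ L.edges) :
    (x ∈ X ∧ y ∈ X) ∨ (x ∈ Y ∧ y ∈ Y) ∨ x ∈ S ∨ (x ∈ X ∧ y ∈ S) ∨ (x ∈ Y ∧ y ∈ S) := by
  unfold Link.edges at h
  simp only [List.mem_append, List.mem_cons] at h
  rcases h with h | h | h | h | h
  · exact Or.inl ⟨L.s1 x (L.p1.fst_mem_support_of_mem_edges h),
      L.s1 y (L.p1.snd_mem_support_of_mem_edges h)⟩
  · have hb : L.b ∈ S := L.s2 _ L.p2.start_mem_support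
    have ha : L.a ∈ X := L.s1 _ L.p1.end_mem_support
    rcases Sym2.eq_iff.mp h with ⟨h1, h2⟩ | ⟨h1, h2⟩
    · right; right; right; left; rw [h1, h2]; exact ⟨ha, hb⟩
    · right; right; left; rw [h1]; exact hb
  · right; right; left
    exact L.s2 x (L.p2.fst_mem_support_of_mem_edges h)
  · have hb : L.b' ∈ S := L.s2 _ L.p2.end_mem_support
    have ha : L.a' ∈ Y := L.s3 _ L.p3.start_mem_support
    rcases Sym2.eq_iff.mp h with ⟨h1, h2⟩ | ⟨h1, h2⟩
    · right; right; left; rw [h1]; exact hb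
    · right; right; right; right; rw [h1, h2]; exact ⟨ha, hb⟩
  · right; left
    exact ⟨L.s3 x (L.p3.fst_mem_support_of_mem_edges h),
      L.s3 y (L.p3.snd_mem_support_of_mem_edges h)⟩

lemma const_on (hRCS : Stmt_RCS) (R : Rot V) (c : V → V → ZMod 2) (hc : R.Inv c) (S : Set V)
    (hS : Cn R.P S) (hb : ∀ z ∈ S, ∀ z', R.P.Adj z z' → c z z' = c z' z) :
    ∀ x ∈ S, ∀ x', R.P.Adj x x' → ∀ y ∈ S, ∀ y', R.P.Adj y y' →
      c x x' = c y y' ∧ c x' x = c y y' := by
  intro x hx x' hx' y hy y' hy'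
  obtain ⟨w, hw⟩ := hS.2 x hx y hy
  exact hRCS V R c hc x y w (fun z hz z' hz' => hb z (hw z hz) z' hz') x' y' hx' hy'

/-- membership of boundary edges of a colouring of two links -/
lemma bd_mem (R : Rot V) (c : V → V → ZMod 2) (l m : List (Sym2 V))
    (h : ∀ y z, R.P.Adj y z → c y z + c z y = par (l ++ m) y z) (y z : V) (hyz : R.P.Adj y z)
    (hne : c y z ≠ c z y) : s(y, z) ∈ l ∨ s(y, z) ∈ m := by
  by_contra hcon
  push Not at hcon
  apply hne
  have h1 := h y z hyz
  rw [par_append, par_zero l y z hcon.1, par_zero m y z hcon.2, add_zero] at h1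
  exact CharTwo.add_eq_zero.mp h1

lemma z01 (a : ZMod 2) (h : a ≠ 1) : a = 0 := by
  revert a; decide

lemma zq (a : ZMod 2) : a * (1 + a) = 0 := by
  revert a; decide

lemma zeven (R : Rot V) (hRBE : Stmt_RBE) (q : V → V → ZMod 2) (hq : R.Col q) (X : Set V)
    (hX : ∀ x ∈ X, ∀ y, (x, y) ∈ R.bset q → y ∈ X) (x : V) :
    Even {e | e ∈ {e : Sym2 V | ∃ x y, (x, y) ∈ R.bset q ∧ x ∈ X ∧ y ∈ X ∧ e = s(x, y)} ∧
      x ∈ e}.ncard := by
  by_cases hx : x ∈ X
  · have h1 := hRBE V R q hq {x}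
    have h2 : {e | e ∈ {e : Sym2 V | ∃ x y, (x, y) ∈ R.bset q ∧ x ∈ X ∧ y ∈ X ∧ e = s(x, y)} ∧
        x ∈ e} = (fun p : V × V => s(p.1, p.2)) ''
          {p : V × V | p ∈ R.bset q ∧ p.1 ∈ ({x} : Set V) ∧ p.2 ∉ ({x} : Set V)} := by
      ext e
      constructor
      · rintro ⟨⟨u, v, huv, hu, hv, rfl⟩, hxe⟩
        rcases Sym2.mem_iff.mp hxe with h | h
        · refine ⟨(u, v), ⟨huv, h.symm, ?_⟩, rfl⟩
          intro hv'
          have h3 : v = x := hv'
          have h4 : R.P.Adj u v := huv.1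
          rw [h3, h] at h4
          exact h4.ne rfl
        · refine ⟨(v, u), ⟨⟨huv.1.symm, huv.2.symm⟩, h.symm, ?_⟩, Sym2.eq_swap⟩
          intro hu'
          have h3 : u = x := hu'
          have h4 : R.P.Adj u v := huv.1
          rw [h3, ← h] at h4
          exact h4.ne rfl
      · rintro ⟨⟨u, v⟩, ⟨hp, hu, hv⟩, rfl⟩
        have hu' : u = x := hu
        subst hu'
        exact ⟨⟨u, v, hp, hx, hX u hx v hp, rfl⟩, Sym2.mem_mk_left _ _⟩
    rw [h2, Set.InjOn.ncard_image]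
    · exact h1
    · rintro ⟨u, v⟩ ⟨_, hu, _⟩ ⟨u', v'⟩ ⟨_, hu', _⟩ h
      have hu1 : u = x := hu
      have hu2 : u' = x := hu'
      subst hu1
      subst hu2
      have h3 : s(u', v) = s(u', v') := h
      rw [Sym2.congr_right] at h3
      rw [h3]
  · have h2 : {e | e ∈ {e : Sym2 V | ∃ x y, (x, y) ∈ R.bset q ∧ x ∈ X ∧ y ∈ X ∧ e = s(x, y)} ∧
        x ∈ e} = ∅ := by
      ext e
      constructor
      · rintro ⟨⟨u, v, huv, hu, hv, rfl⟩, hxe⟩
        rcases Sym2.mem_iff.mp hxe with h | h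
        · exact hx (h ▸ hu)
        · exact hx (h ▸ hv)
      · intro h; exact h.elim
    rw [h2]
    simp

end ORT_

open ORT_ in
theorem ort_proof (hRBE : Stmt_RBE) (hRCS : Stmt_RCS) (hREV : Stmt_REV) (_hLKP : Stmt_LKP)
    (hORA : Stmt_ORA) : Stmt_ORT := by
  intro V R X Y I F o j k l hconn hpl hoj hok hol hjk hjl hkl hlk hkj
  have hnjk : ¬ F.Bef o j k := (hORA V R X Y I F o j k hconn hpl hoj hok hjk).mp hkj
  obtain ⟨γ, hγ, hγb, hγ0, hγl⟩ := hlk
  obtain ⟨β, hβ, hβb, hβ0, hβk⟩ := hkj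
  have dXS : ∀ i z, z ∈ F.S i → z ∉ X := fun i z hz hX => Set.disjoint_left.mp (F.dX i) hX hz
  have dYS : ∀ i z, z ∈ F.S i → z ∉ Y := fun i z hz hY => Set.disjoint_left.mp (F.dY i) hY hz
  have dSS : ∀ i i', i ≠ i' → ∀ z, z ∈ F.S i → z ∉ F.S i' := fun i i' h z hz hz' =>
    Set.disjoint_left.mp (F.dS i i' h) hz hz'
  -- a link does not touch the other sets
  have hoff : ∀ i i', i ≠ i' → ∀ z ∈ F.S i', ∀ z', s(z, z') ∉ (F.L i).edges := by
    intro i i' hii z hz z' h
    rcases link_mem (F.L i) h with h | h | h | h | h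
    · exact dXS i' z hz h.1
    · exact dYS i' z hz h.1
    · exact dSS i i' hii z h hz
    · exact dXS i' z hz h.1
    · exact dYS i' z hz h.1
  -- darts exist
  have hbS : ∀ i, (F.L i).b ∈ F.S i := fun i => (F.L i).s2 _ (F.L i).p2.start_mem_support
  have hab : ∀ i, R.P.Adj (F.L i).b (F.L i).a := fun i => (F.L i).h1.symm
  -- β is constant on S l
  have hβno : ∀ i, i ≠ o → i ≠ j → ∀ z ∈ F.S i, ∀ z', R.P.Adj z z' → β z z' = β z' z := by
    intro i hio hij z hz z' hzz
    by_contra hne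
    rcases bd_mem R β _ _ hβb z z' hzz hne with h | h
    · exact hoff o i hio.symm z hz z' h
    · exact hoff j i hij.symm z hz z' h
  have hγno : ∀ i, i ≠ o → i ≠ k → ∀ z ∈ F.S i, ∀ z', R.P.Adj z z' → γ z z' = γ z' z := by
    intro i hio hik z hz z' hzz
    by_contra hne
    rcases bd_mem R γ _ _ hγb z z' hzz hne with h | h
    · exact hoff o i hio.symm z hz z' h
    · exact hoff k i hik.symm z hz z' h
  have hβl := const_on hRCS R β hβ.1 (F.S l) (F.cS l) (hβno l hol.symm hjl.symm)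
  have hγj := const_on hRCS R γ hγ.1 (F.S j) (F.cS j) (hγno j hoj.symm hjk)
  by_cases hcase : β (F.L l).b (F.L l).a = 1
  · refine ⟨β, hβ, hβb, hβ0, ?_⟩
    intro x hx y hxy
    rw [(hβl x hx y hxy _ (hbS l) _ (hab l)).1, hcase]
  exfalso
  have hβl0 : ∀ x ∈ F.S l, ∀ y, R.P.Adj x y → β x y = 0 ∧ β y x = 0 := by
    intro x hx y hxy
    have h := hβl x hx y hxy _ (hbS l) _ (hab l)
    rw [z01 _ hcase] at h
    exact h
  -- γ = 0 on S j
  have hγj0 : ∀ x ∈ F.S j, ∀ y, R.P.Adj x y → γ x y = 0 ∧ γ y x = 0 := by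
    have h1 : γ (F.L j).b (F.L j).a ≠ 1 := by
      intro h1
      apply hnjk
      refine ⟨γ, hγ, hγb, hγ0, ?_⟩
      intro x hx y hxy
      rw [(hγj x hx y hxy _ (hbS j) _ (hab j)).1, h1]
    intro x hx y hxy
    have h := hγj x hx y hxy _ (hbS j) _ (hab j)
    rw [z01 _ h1] at h
    exact h
  have hγl1 : ∀ x ∈ F.S l, ∀ y, R.P.Adj x y → γ x y = 1 ∧ γ y x = 1 := by
    intro x hx y hxy
    have h1 := hγl x hx y hxy
    exact ⟨h1, (hγno l hol.symm hkl.symm x hx y hxy).symm.trans h1⟩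
  have hβk1 : ∀ x ∈ F.S k, ∀ y, R.P.Adj x y → β x y = 1 ∧ β y x = 1 := by
    intro x hx y hxy
    have h1 := hβk x hx y hxy
    exact ⟨h1, (hβno k hok.symm hjk.symm x hx y hxy).symm.trans h1⟩
  -- β = γ on S o
  have hδ : R.Col (fun x y => β x y + γ x y) := R.col_add hβ hγ
  have hδno : ∀ z ∈ F.S o, ∀ z', R.P.Adj z z' →
      (fun x y => β x y + γ x y) z z' = (fun x y => β x y + γ x y) z' z := by
    intro z hz z' hzz
    simp only
    have h1 := hβb z z' hzz
    have h2 := hγb z z' hzz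
    rw [par_append, par_zero _ z z' (hoff j o hoj.symm z hz z'), add_zero] at h1
    rw [par_append, par_zero _ z z' (hoff k o hok.symm z hz z'), add_zero] at h2
    rw [← h2] at h1
    generalize β z z' = p1 at h1 ⊢
    generalize β z' z = p2 at h1 ⊢
    generalize γ z z' = p3 at h1 ⊢
    generalize γ z' z = p4 at h1 ⊢
    revert p1 p2 p3 p4
    decide
  have hδo := const_on hRCS R _ hδ.1 (F.S o) (F.cS o) hδno
  have hβγo : ∀ x ∈ F.S o, ∀ y, R.P.Adj x y → β x y = γ x y ∧ β y x = γ y x := by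
    have h0 : β (F.L o).b (F.L o).a + γ (F.L o).b (F.L o).a = 0 := by
      have h1 := hδno _ (hbS o) _ (hab o)
      simp only at h1
      rw [h1, hβ0, hγ0, add_zero]
    intro x hx y hxy
    have h := hδo x hx y hxy _ (hbS o) _ (hab o)

    rw [h0] at h
    exact ⟨CharTwo.add_eq_zero.mp h.1, CharTwo.add_eq_zero.mp h.2⟩
  -- the colouring q
  let q : V → V → ZMod 2 := fun x y => γ x y * (1 + β x y)
  have hq : R.Col q := by
    have h1 : R.Col (fun x y => (fun _ _ => (1 : ZMod 2)) x y + β x y) :=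
      R.col_add (R.col_const 1) hβ
    exact R.col_mul hγ h1
  have hqo : ∀ x ∈ F.S o, ∀ y, R.P.Adj x y → q x y = 0 ∧ q y x = 0 := by
    intro x hx y hxy
    obtain ⟨h1, h2⟩ := hβγo x hx y hxy
    constructor
    · show γ x y * (1 + β x y) = 0
      rw [h1]; exact zq _
    · show γ y x * (1 + β y x) = 0
      rw [h2]; exact zq _
  have hqj : ∀ x ∈ F.S j, ∀ y, R.P.Adj x y → q x y = 0 ∧ q y x = 0 := by
    intro x hx y hxy
    obtain ⟨h1, h2⟩ := hγj0 x hx y hxy
    constructor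
    · show γ x y * (1 + β x y) = 0
      rw [h1, zero_mul]
    · show γ y x * (1 + β y x) = 0
      rw [h2, zero_mul]
  have hqk : ∀ x ∈ F.S k, ∀ y, R.P.Adj x y → q x y = 0 ∧ q y x = 0 := by
    intro x hx y hxy
    obtain ⟨h1, h2⟩ := hβk1 x hx y hxy
    constructor
    · show γ x y * (1 + β x y) = 0
      rw [h1, CharTwo.add_self_eq_zero, mul_zero]
    · show γ y x * (1 + β y x) = 0
      rw [h2, CharTwo.add_self_eq_zero, mul_zero]
  have hql : ∀ x ∈ F.S l, ∀ y, R.P.Adj x y → q x y = 1 ∧ q y x = 1 := by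
    intro x hx y hxy
    obtain ⟨h1, h2⟩ := hγl1 x hx y hxy
    obtain ⟨h3, h4⟩ := hβl0 x hx y hxy
    constructor
    · show γ x y * (1 + β x y) = 1
      rw [h1, h3, add_zero, mul_one]
    · show γ y x * (1 + β y x) = 1
      rw [h2, h4, add_zero, mul_one]
  -- boundary edges of q are inside X or inside Y
  have hqm : ∀ x y, (x, y) ∈ R.bset q →
      s(x, y) ∈ (F.L o).edges ∨ s(x, y) ∈ (F.L j).edges ∨ s(x, y) ∈ (F.L k).edges := by
    intro x y hxy
    by_contra hcon
    push Not at hcon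
    obtain ⟨h1, h2, h3⟩ := hcon
    have hg : γ x y = γ y x := by
      by_contra hne
      rcases bd_mem R γ _ _ hγb x y hxy.1 hne with h | h
      · exact h1 h
      · exact h3 h
    have hb : β x y = β y x := by
      by_contra hne
      rcases bd_mem R β _ _ hβb x y hxy.1 hne with h | h
      · exact h1 h
      · exact h2 h
    apply hxy.2
    show γ x y * (1 + β x y) = γ y x * (1 + β y x)
    rw [hg, hb]
  have hqS : ∀ x y, (x, y) ∈ R.bset q → x ∉ F.S o ∧ x ∉ F.S j ∧ x ∉ F.S k := by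
    intro x y hxy
    refine ⟨fun h => hxy.2 ?_, fun h => hxy.2 ?_, fun h => hxy.2 ?_⟩
    · obtain ⟨h1, h2⟩ := hqo x h y hxy.1
      rw [h1, h2]
    · obtain ⟨h1, h2⟩ := hqj x h y hxy.1
      rw [h1, h2]
    · obtain ⟨h1, h2⟩ := hqk x h y hxy.1
      rw [h1, h2]
  have hqXY : ∀ x y, (x, y) ∈ R.bset q → (x ∈ X ∧ y ∈ X) ∨ (x ∈ Y ∧ y ∈ Y) := by
    intro x y hxy
    obtain ⟨a1, a2, a3⟩ := hqS x y hxy
    obtain ⟨b1, b2, b3⟩ := hqS y x ⟨hxy.1.symm, hxy.2.symm⟩
    rcases hqm x y hxy with h | h | h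
    · rcases link_mem (F.L o) h with h | h | h | h | h
      · exact Or.inl h
      · exact Or.inr h
      · exact absurd h a1
      · exact absurd h.2 b1
      · exact absurd h.2 b1
    · rcases link_mem (F.L j) h with h | h | h | h | h
      · exact Or.inl h
      · exact Or.inr h
      · exact absurd h a2
      · exact absurd h.2 b2
      · exact absurd h.2 b2
    · rcases link_mem (F.L k) h with h | h | h | h | h
      · exact Or.inl h
      · exact Or.inr h
      · exact absurd h a3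
      · exact absurd h.2 b3
      · exact absurd h.2 b3
  have hXY : ∀ z, z ∈ X → z ∉ Y := fun z h1 h2 => Set.disjoint_left.mp F.dXY h1 h2
  have hXcl : ∀ x ∈ X, ∀ y, (x, y) ∈ R.bset q → y ∈ X := by
    intro x hx y hxy
    rcases hqXY x y hxy with h | h
    · exact h.2
    · exact absurd h.1 (hXY x hx)
  -- the colouring with boundary the part inside X
  obtain ⟨r, hr, hrb⟩ := hREV V R hpl
    {e : Sym2 V | ∃ x y, (x, y) ∈ R.bset q ∧ x ∈ X ∧ y ∈ X ∧ e = s(x, y)}
    (by
      apply (hq.2.image (fun p : V × V => s(p.1, p.2))).subset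
      rintro e ⟨x, y, hxy, _, _, rfl⟩
      exact ⟨(x, y), hxy, rfl⟩)
    (by
      rintro e ⟨x, y, hxy, _, _, rfl⟩
      exact hxy.1)
    (zeven R hRBE q hq X hXcl)
  -- r has no boundary outside X
  have hr1 : ∀ z, z ∉ X → ∀ z', R.P.Adj z z' → r z z' = r z' z := by
    intro z hz z' hzz
    by_contra hne
    obtain ⟨u, v, _, hu, hv, huv⟩ := (hrb z z' hzz).mp hne
    rcases Sym2.eq_iff.mp huv with ⟨h1, h2⟩ | ⟨h1, h2⟩
    · exact hz (h1 ▸ hu)
    · exact hz (h1 ▸ hv)
  -- q + r has no boundary outside Y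
  have hr2 : ∀ z, z ∉ Y → ∀ z', R.P.Adj z z' →
      (fun x y => q x y + r x y) z z' = (fun x y => q x y + r x y) z' z := by
    intro z hz z' hzz
    simp only
    have hiff : q z z' ≠ q z' z ↔ r z z' ≠ r z' z := by
      rw [hrb z z' hzz]
      constructor
      · intro hne
        have hm : (z, z') ∈ R.bset q := ⟨hzz, hne⟩
        rcases hqXY z z' hm with h | h
        · exact ⟨z, z', hm, h.1, h.2, rfl⟩
        · exact absurd h.1 hz
      · rintro ⟨u, v, huv, hu, hv, he⟩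
        rcases Sym2.eq_iff.mp he with ⟨h1, h2⟩ | ⟨h1, h2⟩
        · rw [h1, h2]; exact huv.2
        · rw [h1, h2]; exact huv.2.symm
    generalize q z z' = p1 at hiff ⊢
    generalize q z' z = p2 at hiff ⊢
    generalize r z z' = p3 at hiff ⊢
    generalize r z' z = p4 at hiff ⊢
    revert p1 p2 p3 p4
    decide
  have hqr : R.Col (fun x y => q x y + r x y) := R.col_add hq hr
  -- walks from S i to y0 and x0
  have walkY : ∀ i, ∃ w : R.P.Walk (F.L i).b F.y0, ∀ z ∈ w.support, z ∈ F.S i ∨ z ∈ Y := by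
    intro i
    refine ⟨((F.L i).p2.append (SimpleGraph.Walk.cons (F.L i).h2 (F.L i).p3)), ?_⟩
    intro z hz
    rw [SimpleGraph.Walk.mem_support_append_iff, SimpleGraph.Walk.support_cons,
      List.mem_cons] at hz
    rcases hz with h | h | h
    · exact Or.inl ((F.L i).s2 z h)
    · rw [h]; exact Or.inl ((F.L i).s2 _ (F.L i).p2.end_mem_support)
    · exact Or.inr ((F.L i).s3 z h)
  have walkX : ∀ i, ∃ w : R.P.Walk (F.L i).b F.x0, ∀ z ∈ w.support, z ∈ F.S i ∨ z ∈ X := by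
    intro i
    refine ⟨SimpleGraph.Walk.cons (F.L i).h1.symm (F.L i).p1.reverse, ?_⟩
    intro z hz
    rw [SimpleGraph.Walk.support_cons, List.mem_cons, SimpleGraph.Walk.support_reverse,
      List.mem_reverse] at hz
    rcases hz with h | h
    · rw [h]; exact Or.inl (hbS i)
    · exact Or.inr ((F.L i).s1 z h)
  -- r takes the same value at S o and S l
  have e1 : r (F.L o).b (F.L o).a = r (F.L l).b (F.L l).a := by
    obtain ⟨w1, hw1⟩ := walkY o
    obtain ⟨w2, hw2⟩ := walkY l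
    refine (hRCS V R r hr.1 _ _ (w1.append w2.reverse) ?_ _ _ (hab o) (hab l)).1
    intro z hz z' hzz
    apply hr1 z _ z' hzz
    rw [SimpleGraph.Walk.mem_support_append_iff, SimpleGraph.Walk.support_reverse,
      List.mem_reverse] at hz
    intro hzX
    rcases hz with h | h
    · rcases hw1 z h with h | h
      · exact dXS o z h hzX
      · exact hXY z hzX h
    · rcases hw2 z h with h | h
      · exact dXS l z h hzX
      · exact hXY z hzX h
  have e2 : q (F.L o).b (F.L o).a + r (F.L o).b (F.L o).a =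
      q (F.L l).b (F.L l).a + r (F.L l).b (F.L l).a := by
    obtain ⟨w1, hw1⟩ := walkX o
    obtain ⟨w2, hw2⟩ := walkX l
    refine (hRCS V R _ hqr.1 _ _ (w1.append w2.reverse) ?_ _ _ (hab o) (hab l)).1
    intro z hz z' hzz
    apply hr2 z _ z' hzz
    rw [SimpleGraph.Walk.mem_support_append_iff, SimpleGraph.Walk.support_reverse,
      List.mem_reverse] at hz
    intro hzY
    rcases hz with h | h
    · rcases hw1 z h with h | h
      · exact dYS o z h hzY
      · exact hXY z h hzY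
    · rcases hw2 z h with h | h
      · exact dYS l z h hzY
      · exact hXY z h hzY
  rw [e1] at e2
  have e3 := add_right_cancel e2
  rw [(hqo _ (hbS o) _ (hab o)).1, (hql _ (hbS l) _ (hab l)).1] at e3
  exact zero_ne_one e3

end Pool.Agent.ACC
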