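import Pool.Agent.ACC.StmtsB

/-!
MP_851278_al, Part III: the quotient graph is connected and locally finite.
-/

set_option autoImplicit false

namespace Pool.Agent.ACC

namespace PCL_

theorem proj {V U : Type} (X : SimpleGraph V) (p : V → U) {x y : V} (w : X.Walk x y) :
    ∃ w' : (push X p).Walk (p x) (p y), w'.length ≤ w.length := by
  induction w with
  | nil => exact ⟨SimpleGraph.Walk.nil, le_refl _⟩
  | @cons a b c hab w ih =>
    obtain ⟨w', hw'⟩ := ih
    by_cases h : p a = p b
    · refine ⟨w'.copy h.symm rfl, ?_⟩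
      rw [SimpleGraph.Walk.length_copy, SimpleGraph.Walk.length_cons]
      omega
    · have hadj : (push X p).Adj (p a) (p b) := ⟨h, a, b, hab, rfl, rfl⟩
      refine ⟨SimpleGraph.Walk.cons hadj w', ?_⟩
      rw [SimpleGraph.Walk.length_cons, SimpleGraph.Walk.length_cons]
      omega

end PCL_

open PCL_ in
theorem pcl_proof : Stmt_PCL := by
  intro V U X p hX hp hf
  refine ⟨?_, ?_, ?_⟩
  · obtain ⟨x0⟩ := hX.nonempty
    haveI : Nonempty U := ⟨p x0⟩
    refine ⟨?_⟩
    intro u v
    obtain ⟨x, rfl⟩ := hp u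
    obtain ⟨y, rfl⟩ := hp v
    obtain ⟨w⟩ := hX.preconnected x y
    obtain ⟨w', -⟩ := proj X p w
    exact ⟨w'⟩
  · intro u
    have hfin : (⋃ e ∈ bd X (p ⁻¹' {u}), {z : V | z ∈ e}).Finite := by
      refine (hf u).biUnion fun e _ => ?_
      induction e with
      | _ a b =>
        refine (Set.toFinite {a, b}).subset ?_
        intro z hz
        simpa using hz
    refine (hfin.image p).subset ?_
    rintro v ⟨huv, x, y, hxy, hx, hy⟩
    refine ⟨y, ?_, hy⟩
    rw [Set.mem_iUnion₂]
    refine ⟨s(x, y), ⟨x, y, hxy, hx, ?_, rfl⟩, ?_⟩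
    · intro hy'
      have hy'' : p y = u := hy'
      exact huv (hy''.symm.trans hy)
    · exact Sym2.mem_mk_right x y
  · intro x y
    obtain ⟨w, hw⟩ := hX.exists_walk_length_eq_dist x y
    obtain ⟨w', hw'⟩ := proj X p w
    rw [← hw]
    exact (SimpleGraph.dist_le w').trans hw'

end Pool.Agent.ACC
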