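import Pool.Agent.ACC.StmtsB

/-!
Module PCO: a list which is a coboundary mod 2 is orthogonal to all boundaries.
-/

set_option autoImplicit false

namespace Pool.Agent.ACC

namespace PCO_

variable {V : Type}

/-- the boundary of a colouring as a function on unordered pairs -/
def gg (c : V → V → ZMod 2) : Sym2 V → ZMod 2 :=
  Sym2.lift ⟨fun y z => c y z + c z y, fun _ _ => add_comm _ _⟩

theorem gg_mk (c : V → V → ZMod 2) (y z : V) : gg c s(y, z) = c y z + c z y := rfl

theorem nsmul_par (l : List (Sym2 V)) (y z : V) (g : ZMod 2) [DecidableEq (Sym2 V)] :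
    (l.count s(y, z)) • g = par l y z * g := by
  rw [nsmul_eq_mul]
  unfold par
  congr 3
  exact congrArg _ (Subsingleton.elim _ _)

theorem zmod_cases (a : ZMod 2) : a = 0 ∨ a = 1 := by
  revert a
  decide

end PCO_

open PCO_ in
theorem pco_proof (hRBE : Stmt_RBE) : Stmt_PCO := by
  classical
  intro V R l h c hc hl hh
  set m : List (Sym2 V) := l.map (fun p => s(p.1, p.2)) with hm
  have e1 : (l.map (fun p => c p.1 p.2 + c p.2 p.1)) = m.map (gg c) := by
    rw [hm, List.map_map]
    rfl
  rw [e1, Finset.sum_list_map_count]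
  have hev := hRBE V R c hc {x | h x = 1}
  set B : Set (V × V) := {p : V × V | p ∈ R.bset c ∧ p.1 ∈ {x | h x = 1} ∧
    p.2 ∉ {x | h x = 1}} with hB
  have hBf : B.Finite := hc.2.subset (fun p hp => hp.1)
  set BF : Finset (V × V) := hBf.toFinset with hBF
  have hmem : ∀ p, p ∈ BF ↔ p ∈ B := fun p => by rw [hBF, Set.Finite.mem_toFinset]
  set I : Finset (Sym2 V) := BF.image (fun p => s(p.1, p.2)) with hI
  have hcard : I.card = BF.card := by
    apply Finset.card_image_of_injOn
    intro p hp q hq hpq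
    have hp' : p ∈ B := (hmem p).mp hp
    have hq' : q ∈ B := (hmem q).mp hq
    rcases Sym2.eq_iff.mp hpq with ⟨h1, h2⟩ | ⟨h1, h2⟩
    · exact Prod.ext h1 h2
    · exfalso
      apply hq'.2.2
      rw [← h1]
      exact hp'.2.1
  -- members of `I`
  have hIm : I ⊆ m.toFinset := by
    intro e he
    obtain ⟨p, hp, rfl⟩ := Finset.mem_image.mp he
    have hp' : p ∈ B := (hmem p).mp hp
    rw [List.mem_toFinset]
    by_contra hcon
    have h1 := hh p.1 p.2 hp'.1.1
    have h2 : par m p.1 p.2 = 0 := by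
      unfold par
      rw [List.count_eq_zero_of_not_mem hcon]
      simp
    have h3 : h p.1 = 1 := hp'.2.1
    have h4 : h p.2 ≠ 1 := hp'.2.2
    rw [h2, h3] at h1
    rcases zmod_cases (h p.2) with h5 | h5
    · rw [h5] at h1
      exact absurd h1 (by decide)
    · exact h4 h5
  have hone : ∀ e ∈ I, m.count e • gg c e = 1 := by
    intro e he
    obtain ⟨p, hp, rfl⟩ := Finset.mem_image.mp he
    have hp' : p ∈ B := (hmem p).mp hp
    have h1 := hh p.1 p.2 hp'.1.1
    have h3 : h p.1 = 1 := hp'.2.1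
    have h4 : h p.2 ≠ 1 := hp'.2.2
    have h5 : h p.2 = 0 := by
      rcases zmod_cases (h p.2) with h5 | h5
      · exact h5
      · exact absurd h5 h4
    have h6 : c p.1 p.2 ≠ c p.2 p.1 := hp'.1.2
    show m.count s(p.1, p.2) • gg c s(p.1, p.2) = 1
    rw [nsmul_par, ← h1, h3, h5, gg_mk]
    revert h6
    generalize c p.1 p.2 = u
    generalize c p.2 p.1 = v
    revert u v
    decide
  have hzero : ∀ e ∈ m.toFinset, e ∉ I → m.count e • gg c e = 0 := by
    intro e he heI
    rw [List.mem_toFinset, hm, List.mem_map] at he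
    obtain ⟨p, hp, rfl⟩ := he
    have hadj := hl p hp
    have h1 := hh p.1 p.2 hadj
    rw [nsmul_par, ← h1, gg_mk]
    by_contra hcon
    have hne : c p.1 p.2 ≠ c p.2 p.1 := by
      intro h2
      apply hcon
      rw [h2, CharTwo.add_self_eq_zero, mul_zero]
    have hne2 : h p.1 ≠ h p.2 := by
      intro h2
      apply hcon
      rw [h2, CharTwo.add_self_eq_zero, zero_mul]
    apply heI
    rcases zmod_cases (h p.1) with h3 | h3
    · have h4 : h p.2 = 1 := by
        rcases zmod_cases (h p.2) with h4 | h4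
        · exact absurd (h3.trans h4.symm) hne2
        · exact h4
      refine Finset.mem_image.mpr ⟨(p.2, p.1), (hmem _).mpr ⟨⟨hadj.symm, hne.symm⟩, h4, ?_⟩,
        Sym2.eq_swap⟩
      intro h5
      have h6 : h p.1 = 1 := h5
      rw [h3] at h6
      exact absurd h6 (by decide)
    · refine Finset.mem_image.mpr ⟨(p.1, p.2), (hmem _).mpr ⟨⟨hadj, hne⟩, h3, ?_⟩, rfl⟩
      intro h5
      have h6 : h p.2 = 1 := h5
      exact hne2 (h3.trans h6.symm)
  rw [← Finset.sum_subset hIm hzero, Finset.sum_congr rfl hone, Finset.sum_const, hcard]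
  have hncard : B.ncard = BF.card := by
    rw [hBF, Set.ncard_eq_toFinset_card B hBf]
  rw [← hncard]
  obtain ⟨r, hr⟩ := hev
  rw [hr, nsmul_eq_mul, mul_one, Nat.cast_add, CharTwo.add_self_eq_zero]

end Pool.Agent.ACC
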