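import Pool.Agent.ACC.StmtsB

set_option autoImplicit false

namespace Pool.Agent.ACC

namespace PDL_

theorem sum_count_cons {α : Type} [BEq α] [LawfulBEq α] (a : α) (B : List α) :
    (B.map (fun b => (((if a == b then 1 else 0 : ℕ)) : ZMod 2))).sum = ((B.count a : ℕ) : ZMod 2) := by
  induction B with
  | nil => simp
  | cons b B ih =>
    rw [List.map_cons, List.sum_cons, ih, List.count_cons]
    by_cases h : b = a
    · subst h
      simp only [beq_self_eq_true, if_true]
      push_cast
      ring
    · have h1 : (a == b) = false := by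
        rw [beq_eq_false_iff_ne]
        exact fun h2 => h h2.symm
      have h2 : (b == a) = false := by
        rw [beq_eq_false_iff_ne]
        exact h
      rw [h1, h2]
      simp

theorem exch {α : Type} [BEq α] [LawfulBEq α] (A B : List α) :
    (A.map (fun a => ((B.count a : ℕ) : ZMod 2))).sum =
      (B.map (fun b => ((A.count b : ℕ) : ZMod 2))).sum := by
  induction A with
  | nil => simp
  | cons a A ih =>
    rw [List.map_cons, List.sum_cons, ih, ← sum_count_cons a B, ← List.sum_map_add]
    congr 1
    apply List.map_congr_left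
    intro b _
    rw [List.count_cons]
    push_cast
    ring

theorem wsum_par {V : Type} {P : SimpleGraph V} (L : List (Sym2 V)) {x y : V} (w : P.Walk x y) :
    wsum (fun a b => par L a b) w = (L.map (fun e => by
      classical exact ((w.edges.count e : ℕ) : ZMod 2))).sum := by
  classical
  have h := exch w.edges L
  rw [← h]
  unfold wsum par SimpleGraph.Walk.edges
  rw [List.map_map]
  rfl

theorem exists_jump {V : Type} {P : SimpleGraph V} (h : V → ZMod 2) {x y : V} (w : P.Walk x y) :
    h x ≠ h y → ∃ z z' : V, P.Adj z z' ∧ h z ≠ h z' ∧ z ∈ w.support ∧ z' ∈ w.support := by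
  induction w with
  | nil => intro hne; exact absurd rfl hne
  | @cons u v t huv p ih =>
    intro hne
    by_cases h1 : h u = h v
    · obtain ⟨z, z', ha, hb, hc, hd⟩ := ih (fun h2 => hne (h1.trans h2))
      refine ⟨z, z', ha, hb, ?_, ?_⟩
      · rw [SimpleGraph.Walk.support_cons]; exact List.mem_cons_of_mem _ hc
      · rw [SimpleGraph.Walk.support_cons]; exact List.mem_cons_of_mem _ hd
    · refine ⟨u, v, huv, h1, ?_, ?_⟩
      · rw [SimpleGraph.Walk.support_cons]; exact List.mem_cons_self
      · rw [SimpleGraph.Walk.support_cons]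
        exact List.mem_cons_of_mem _ (SimpleGraph.Walk.start_mem_support p)

theorem dist_le_of_mem {V : Type} {X P : SimpleGraph V} (hle : P ≤ X) {x y z : V}
    (w : P.Walk x y) (hz : z ∈ w.support) : X.dist z x ≤ w.length ∧ X.dist z y ≤ w.length := by
  classical
  constructor
  · have h1 : X.dist x z ≤ ((w.takeUntil z hz).mapLe hle).length := SimpleGraph.dist_le _
    rw [SimpleGraph.dist_comm]
    refine h1.trans ?_
    rw [SimpleGraph.Walk.length_map]
    exact SimpleGraph.Walk.length_takeUntil_le w hz
  · have h1 : X.dist z y ≤ ((w.dropUntil z hz).mapLe hle).length := SimpleGraph.dist_le _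
    refine h1.trans ?_
    rw [SimpleGraph.Walk.length_map]
    exact SimpleGraph.Walk.length_dropUntil_le w hz

end PDL_

open PDL_ in
theorem pdl_proof (hRPO : Stmt_RPO) : Stmt_PDL := by
  intro V X R lam l hS hP hl hc
  obtain ⟨hle, hconn, hdist⟩ := hS
  have key := hRPO V R.P (fun a b => par (l.map (fun p => s(p.1, p.2))) a b) hconn
    (by
      intro x y
      show par _ x y = par _ y x
      unfold par
      rw [Sym2.eq_swap])
    (by
      intro x w
      rw [wsum_par]
      obtain ⟨c, hcol, hcw⟩ := hP x w
      rw [← hc c hcol, List.map_map]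
      congr 1
      apply List.map_congr_left
      intro p hp
      rw [hcw p.1 p.2 (hl p hp)]
      rfl)
  obtain ⟨h, hh⟩ := key
  refine ⟨h, fun x y hxy => (hh x y hxy).symm, ?_⟩
  intro x y hxy hne
  obtain ⟨w, hw⟩ := hconn.exists_walk_length_eq_dist x y
  have hwl : w.length ≤ lam := by rw [hw]; exact hdist x y hxy
  obtain ⟨z, z', hzz, hzne, hz, hz'⟩ := exists_jump h w hne
  have hD := hh z z' hzz
  have hmem : s(z, z') ∈ l.map (fun p => s(p.1, p.2)) := by
    by_contra hnot
    have h0 : par (l.map (fun p => s(p.1, p.2))) z z' = 0 := by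
      unfold par
      classical
      rw [List.count_eq_zero.2 hnot]
      simp
    have h1 : h z + h z' = 0 := by rw [← hD]; exact h0
    apply hzne
    revert h1
    generalize h z = u
    generalize h z' = v
    revert u v
    decide
  rw [List.mem_map] at hmem
  obtain ⟨p, hp, hpe⟩ := hmem
  refine ⟨p, hp, ?_⟩
  have hps : p.1 ∈ w.support := by
    rw [Sym2.eq_iff] at hpe
    rcases hpe with ⟨h1, _⟩ | ⟨h1, _⟩
    · rw [h1]; exact hz
    · rw [h1]; exact hz'
  have h2 := dist_le_of_mem hle w hps
  exact ⟨h2.1.trans hwl, h2.2.trans hwl⟩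

end Pool.Agent.ACC
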