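import Pool.Agent.ACC.StmtsC

set_option autoImplicit false

namespace Pool.Agent.ACC

namespace PFB_

/-- The end points of a finite set of unordered pairs form a finite set. -/
lemma ends_finite {U : Type} (D : Set (Sym2 U)) (hD : D.Finite) :
    {u : U | ∃ e ∈ D, u ∈ e}.Finite := by
  have h : {u : U | ∃ e ∈ D, u ∈ e} = ⋃ e ∈ D, {u : U | u ∈ e} := by
    ext u
    simp
  rw [h]
  refine hD.biUnion (fun e _ => ?_)
  induction e using Sym2.ind with
  | _ a b =>
    have : {u : U | u ∈ s(a, b)} = {a, b} := by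
      ext u
      simp
    rw [this]
    exact Set.toFinite _

end PFB_

/-- PFB: preimages of finite cuts of the quotient are finite cuts. -/
theorem pfb_proof : Stmt_PFB := by
  intro V U X p hfib A hA
  have hE := PFB_.ends_finite (bd (push X p) A) hA
  refine (hE.biUnion (fun u _ => hfib u)).subset ?_
  rintro e ⟨x, y, hxy, hx, hy, rfl⟩
  have hx' : p x ∈ A := hx
  have hy' : p y ∉ A := hy
  have hne : p x ≠ p y := fun h => hy' (h ▸ hx')
  refine Set.mem_iUnion₂.2 ⟨p x, ⟨s(p x, p y), ?_, ?_⟩, ?_⟩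
  · exact ⟨p x, p y, ⟨hne, x, y, hxy, rfl, rfl⟩, hx', hy', rfl⟩
  · simp
  · refine ⟨x, y, hxy, ?_, ?_, rfl⟩
    · simp
    · simp only [Set.mem_preimage, Set.mem_singleton_iff]
      exact fun h => hne h.symm

end Pool.Agent.ACC
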