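import Pool.Agent.ACC.StmtsB
import Pool.Agent.ACC.LibB
import Pool.Agent.ACC.Lib

/-!
MP_851278_al, module POL: classes forming a polygon with far vertices are equal.
-/

set_option autoImplicit false

namespace Pool.Agent.ACC

namespace POL_

variable {V : Type}

theorem par_flat {ι : Type} (s : List ι) (l : ι → List (V × V)) (x y : V) :
    par ((s.flatMap l).map (fun p => s(p.1, p.2))) x y =
      (s.map (fun i => par ((l i).map (fun p => s(p.1, p.2))) x y)).sum := by
  induction s with
  | nil => simp [par_nil]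
  | cons i s ih =>
    rw [List.flatMap_cons, List.map_append, par_append, ih, List.map_cons, List.sum_cons]

theorem sum_flat {ι : Type} (s : List ι) (l : ι → List (V × V)) (φ : V × V → ZMod 2) :
    ((s.flatMap l).map φ).sum = (s.map (fun i => ((l i).map φ).sum)).sum := by
  induction s with
  | nil => simp
  | cons i s ih =>
    rw [List.flatMap_cons, List.map_append, List.sum_append, ih, List.map_cons, List.sum_cons]

theorem sum_finRange {n : ℕ} (φ : Fin n → ZMod 2) :
    ((List.finRange n).map φ).sum = ∑ i, φ i := by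
  rw [← List.ofFn_eq_map, List.sum_ofFn]

/-- an entry of the parity is near -/
theorem near_of_par {X P : SimpleGraph V} (hX : X.Connected) (hle : P ≤ X) {c : V} {r : ℕ}
    {l : List (V × V)} (h1 : ∀ p ∈ l, P.Adj p.1 p.2) (h2 : ∀ p ∈ l, X.dist c p.1 ≤ r) {x y : V}
    (h : par (l.map (fun p => s(p.1, p.2))) x y ≠ 0) :
    X.dist c x ≤ r + 1 ∧ X.dist c y ≤ r + 1 := by
  have hm := mem_of_par_ne h
  rw [List.mem_map] at hm
  obtain ⟨p, hp, he⟩ := hm
  have ha := h2 p hp
  have hb : X.dist c p.2 ≤ r + 1 := by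
    have h3 : X.dist c p.2 ≤ X.dist c p.1 + X.dist p.1 p.2 := hX.dist_triangle
    have h4 : X.dist p.1 p.2 = 1 := SimpleGraph.dist_eq_one_iff_adj.mpr (hle (h1 p hp))
    omega
  rw [Sym2.eq_iff] at he
  rcases he with ⟨e1, e2⟩ | ⟨e1, e2⟩
  · rw [← e1, ← e2]
    exact ⟨by omega, hb⟩
  · rw [← e1, ← e2]
    exact ⟨hb, by omega⟩

/-- the number of edges near a point -/
theorem count_near {X : SimpleGraph V} {f : ℕ → ℕ} (hB : BG X f) {n : ℕ} (c : Fin n → V) (r : ℕ)
    (S : Set (Sym2 V)) (hS : ∀ e ∈ S, ∃ i, ∀ v ∈ e, X.dist (c i) v ≤ r) :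
    S.Finite ∧ S.ncard ≤ n * (f r * f r) := by
  have h1 : S ⊆ ⋃ i, (fun p : V × V => s(p.1, p.2)) '' (ball X (c i) r ×ˢ ball X (c i) r) := by
    intro e he
    obtain ⟨i, hi⟩ := hS e he
    rw [Set.mem_iUnion]
    refine ⟨i, ?_⟩
    induction e with
    | _ x y =>
      refine ⟨(x, y), ⟨hi x (Sym2.mem_mk_left x y), hi y (Sym2.mem_mk_right x y)⟩, rfl⟩
  have h2 : ∀ i, ((fun p : V × V => s(p.1, p.2)) ''
      (ball X (c i) r ×ˢ ball X (c i) r)).Finite := by
    intro i
    exact ((hB (c i) r).1.prod (hB (c i) r).1).image _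
  have h3 : (⋃ i, (fun p : V × V => s(p.1, p.2)) ''
      (ball X (c i) r ×ˢ ball X (c i) r)).Finite := Set.finite_iUnion h2
  refine ⟨h3.subset h1, ?_⟩
  refine (Set.ncard_le_ncard h1 h3).trans ?_
  have h4 : ∀ i, ((fun p : V × V => s(p.1, p.2)) ''
      (ball X (c i) r ×ˢ ball X (c i) r)).ncard ≤ f r * f r := by
    intro i
    have hfin := (hB (c i) r).1.prod (hB (c i) r).1
    refine (Set.ncard_image_le hfin).trans ?_
    rw [Set.ncard_prod]
    exact Nat.mul_le_mul (hB (c i) r).2 (hB (c i) r).2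
  have h5 : (⋃ i, (fun p : V × V => s(p.1, p.2)) ''
      (ball X (c i) r ×ˢ ball X (c i) r)).ncard ≤
      ∑ i : Fin n, ((fun p : V × V => s(p.1, p.2)) ''
      (ball X (c i) r ×ˢ ball X (c i) r)).ncard := by
    have := Set.ncard_iUnion_le_of_fintype (fun i : Fin n => (fun p : V × V => s(p.1, p.2)) ''
      (ball X (c i) r ×ˢ ball X (c i) r))
    exact this
  refine h5.trans ?_
  refine (Finset.sum_le_card_nsmul _ _ _ (fun i _ => h4 i)).trans ?_
  simp

open Classical in
/-- the indicator of a set -/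
noncomputable def ind (B : Set V) (v : V) : ZMod 2 := if v ∈ B then 1 else 0

theorem ind_add (X : SimpleGraph V) (B : Set V) {x y : V} (h : X.Adj x y) :
    (s(x, y) ∈ bd X B → ind B x + ind B y = 1) ∧
    (s(x, y) ∉ bd X B → ind B x + ind B y = 0) := by
  rw [mem_bd_iff]
  unfold ind
  constructor
  · rintro ⟨-, ⟨h1, h2⟩ | ⟨h1, h2⟩⟩
    · rw [if_pos h1, if_neg h2, add_zero]
    · rw [if_neg h1, if_pos h2, zero_add]
  · intro h'
    by_cases h1 : x ∈ B
    · by_cases h2 : y ∈ B
      · rw [if_pos h1, if_pos h2]; exact z2_add_self 1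
      · exact absurd ⟨h, Or.inl ⟨h1, h2⟩⟩ h'
    · by_cases h2 : y ∈ B
      · exact absurd ⟨h, Or.inr ⟨h1, h2⟩⟩ h'
      · rw [if_neg h1, if_neg h2, add_zero]

end POL_

open POL_ in
theorem pol_proof (h1 : Stmt_RDP) (h2 : Stmt_PDL) (h3 : Stmt_PCO) (h4 : Stmt_SPL)
    (h5 : Stmt_EFV) : Stmt_POL := by
  intro V X G f lam hlam hX hLF hG hVF hBG n _ ρ
  have hEF := h5 V X G hLF hG hVF
  -- constants
  obtain ⟨CS, hCS⟩ := h4 V X G hX hG hEF (n * (f (ρ + 2 * ρ * lam + lam) *
    f (ρ + 2 * ρ * lam + lam)))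
  refine ⟨CS + 2 * (ρ + 2 * ρ * lam + lam) + 1, ?_⟩
  intro R hSp hPl x a b hfar hab
  have hle : R.P ≤ X := hSp.1
  -- Step 1
  have hstep : ∀ i : Fin n, ∃ l : List (V × V),
      (∀ p ∈ l, R.P.Adj p.1 p.2) ∧ (∀ p ∈ l, X.dist (x (i + 1)) p.1 ≤ ρ + 2 * ρ * lam) ∧
      ∀ c, R.Inv c → c (a (i + 1)).1 (a (i + 1)).2 + c (b i).1 (b i).2 =
        (l.map (fun p => c p.1 p.2 + c p.2 p.1)).sum := by
    intro i
    have ha := hab (i + 1)
    have hb := hab i
    obtain ⟨w, hw, -⟩ := exists_geod hSp.2.1 (a (i + 1)).1 (b i).1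
    obtain ⟨l, hl, hl'⟩ := h1 V R (a (i + 1)).1 (b i).1 w (a (i + 1)).2 (b i).2 ha.1 hb.2.1
    refine ⟨l, fun p hp => (hl p hp).1, fun p hp => ?_, hl'⟩
    have e1 := support_dist w (hl p hp).2
    have e2 := spanner_dist_ge hX hSp (a (i + 1)).1 (b i).1
    have e3 : X.dist (a (i + 1)).1 (b i).1 ≤ 2 * ρ := by
      have t1 : X.dist (a (i + 1)).1 (b i).1 ≤ X.dist (a (i + 1)).1 (x (i + 1)) +
        X.dist (x (i + 1)) (b i).1 := hX.dist_triangle
      have t2 : X.dist (a (i + 1)).1 (x (i + 1)) = X.dist (x (i + 1)) (a (i + 1)).1 :=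
        SimpleGraph.dist_comm
      have t3 := ha.2.2.1
      have t4 := hb.2.2.2.1
      omega
    have e4 : lam * X.dist (a (i + 1)).1 (b i).1 ≤ 2 * ρ * lam := by
      calc lam * X.dist (a (i + 1)).1 (b i).1 ≤ lam * (2 * ρ) := Nat.mul_le_mul_left lam e3
        _ = 2 * ρ * lam := by ring
    have e5 := spanner_dist_le hSp (a (i + 1)).1 p.1
    have e6 : X.dist (x (i + 1)) p.1 ≤ X.dist (x (i + 1)) (a (i + 1)).1 +
      X.dist (a (i + 1)).1 p.1 := hX.dist_triangle
    have e7 := ha.2.2.1
    omega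
  choose l hl1 hl2 hl3 using hstep
  -- Step 2
  have hsum : ∀ c, R.Col c → (((List.finRange n).flatMap l).map
      (fun p => c p.1 p.2 + c p.2 p.1)).sum = 0 := by
    intro c hc
    rw [sum_flat, sum_finRange]
    have e1 : ∀ i : Fin n, ((l i).map (fun p => c p.1 p.2 + c p.2 p.1)).sum =
        c (a (i + 1)).1 (a (i + 1)).2 + c (a i).1 (a i).2 := by
      intro i
      rw [← hl3 i c hc.1, (hab i).2.2.2.2 c hc]
    rw [Finset.sum_congr rfl (fun i _ => e1 i), Finset.sum_add_distrib]
    have e2 : ∑ i : Fin n, c (a (i + 1)).1 (a (i + 1)).2 = ∑ i : Fin n, c (a i).1 (a i).2 :=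
      Equiv.sum_comp (Equiv.addRight (1 : Fin n)) (fun i => c (a i).1 (a i).2)
    rw [e2, z2_add_self]
  have hadj : ∀ p ∈ (List.finRange n).flatMap l, R.P.Adj p.1 p.2 := by
    intro p hp
    rw [List.mem_flatMap] at hp
    obtain ⟨i, -, hi⟩ := hp
    exact hl1 i p hi
  obtain ⟨h, hh1, hh2⟩ := h2 V X R lam ((List.finRange n).flatMap l) hSp hPl hadj hsum
  -- Step 3: the cut
  have hbdnear : ∀ e ∈ bd X {v | h v = 1}, ∃ i : Fin n, ∀ v ∈ e,
      X.dist (x (i + 1)) v ≤ ρ + 2 * ρ * lam + lam := by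
    intro e he
    induction e with
    | _ u v =>
      rw [mem_bd_iff] at he
      have hne : h u ≠ h v := by
        rcases he.2 with ⟨e1, e2⟩ | ⟨e1, e2⟩
        · intro e3
          have e1' : h u = 1 := e1
          exact e2 (show h v = 1 by rw [← e3, e1'])
        · intro e3
          have e2' : h v = 1 := e2
          exact e1 (show h u = 1 by rw [e3, e2'])
      obtain ⟨p, hp, hp1, hp2⟩ := hh2 u v he.1 hne
      rw [List.mem_flatMap] at hp
      obtain ⟨i, -, hi⟩ := hp
      refine ⟨i, fun z hz => ?_⟩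
      have e1 := hl2 i p hi
      have e2 : X.dist (x (i + 1)) z ≤ X.dist (x (i + 1)) p.1 + X.dist p.1 z :=
        hX.dist_triangle
      have e3 : X.dist p.1 z ≤ lam := by
        rw [Sym2.mem_iff] at hz
        rcases hz with rfl | rfl
        · exact hp1
        · exact hp2
      omega
  obtain ⟨hfin, hcard⟩ := count_near hBG (fun i => x (i + 1)) (ρ + 2 * ρ * lam + lam)
    (bd X {v | h v = 1}) hbdnear
  have hsplit := hCS n {v | h v = 1}
    (fun i => {e | e ∈ bd X {v | h v = 1} ∧ ∀ v ∈ e,
      X.dist (x (i + 1)) v ≤ ρ + 2 * ρ * lam + lam}) hfin hcard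
    (by
      ext e
      rw [Set.mem_iUnion]
      constructor
      · intro he
        obtain ⟨i, hi⟩ := hbdnear e he
        exact ⟨i, he, hi⟩
      · rintro ⟨i, he, -⟩
        exact he)
    (by
      intro i j hij e he e' he' u hu v hv
      have hij' : i + 1 ≠ j + 1 := fun h' => hij (add_right_cancel h')
      have f1 := hfar _ _ hij'
      have f2 := he.2 u hu
      have f3 := he'.2 v hv
      have f4 : X.dist (x (i + 1)) (x (j + 1)) ≤ X.dist (x (i + 1)) u + X.dist u (x (j + 1)) :=
        hX.dist_triangle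
      have f5 : X.dist u (x (j + 1)) ≤ X.dist u v + X.dist v (x (j + 1)) := hX.dist_triangle
      have f6 : X.dist v (x (j + 1)) = X.dist (x (j + 1)) v := SimpleGraph.dist_comm
      omega)
  -- Step 4
  intro i c hc
  obtain ⟨B, hB⟩ := hsplit i
  have hcob : ∀ u v, R.P.Adj u v → ind B u + ind B v =
      par ((l i).map (fun p => s(p.1, p.2))) u v := by
    intro u v huv
    have hXuv := hle huv
    by_cases hn : X.dist (x (i + 1)) u ≤ ρ + 2 * ρ * lam + lam ∧
        X.dist (x (i + 1)) v ≤ ρ + 2 * ρ * lam + lam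
    · have e1 : ∀ j, j ≠ i → par ((l j).map (fun p => s(p.1, p.2))) u v = 0 := by
        intro j hj
        by_contra hcon
        have e2 := (near_of_par hX hle (hl1 j) (hl2 j) hcon).1
        have hij' : i + 1 ≠ j + 1 := fun h' => hj (add_right_cancel h').symm
        have f1 := hfar _ _ hij'
        have f4 : X.dist (x (i + 1)) (x (j + 1)) ≤ X.dist (x (i + 1)) u +
          X.dist u (x (j + 1)) := hX.dist_triangle
        have f6 : X.dist u (x (j + 1)) = X.dist (x (j + 1)) u := SimpleGraph.dist_comm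
        have f7 := hn.1
        omega
      have e3 : h u + h v = par ((l i).map (fun p => s(p.1, p.2))) u v := by
        rw [hh1 u v huv, par_flat, sum_finRange]
        exact Finset.sum_eq_single i (fun j _ hj => e1 j hj) (fun h' => absurd (Finset.mem_univ i) h')
      have hDiff : s(u, v) ∈ bd X B ↔ h u + h v = 1 := by
        rw [hB]
        constructor
        · rintro ⟨e4, -⟩
          rw [mem_bd_iff] at e4
          rw [← z2_ne_iff]
          rcases e4.2 with ⟨g1, g2⟩ | ⟨g1, g2⟩
          · intro g3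
            have g1' : h u = 1 := g1
            exact g2 (show h v = 1 by rw [← g3, g1'])
          · intro g3
            have g2' : h v = 1 := g2
            exact g1 (show h u = 1 by rw [g3, g2'])
        · intro e4
          rw [← z2_ne_iff] at e4
          refine ⟨?_, ?_⟩
          · rw [mem_bd_iff]
            refine ⟨hXuv, ?_⟩
            rcases z2_cases (h u) with g1 | g1
            · rcases z2_cases (h v) with g2 | g2
              · exact absurd (g1.trans g2.symm) e4
              · right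
                refine ⟨fun g3 => ?_, g2⟩
                have g3' : h u = 1 := g3
                rw [g1] at g3'
                exact absurd g3' (by decide)
            · rcases z2_cases (h v) with g2 | g2
              · left
                refine ⟨g1, fun g3 => ?_⟩
                have g3' : h v = 1 := g3
                rw [g2] at g3'
                exact absurd g3' (by decide)
              · exact absurd (g1.trans g2.symm) e4
          · intro z hz
            rw [Sym2.mem_iff] at hz
            rcases hz with rfl | rfl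
            · exact hn.1
            · exact hn.2
      rw [← e3]
      rcases z2_cases (h u + h v) with g | g
      · rw [g]
        apply (ind_add X B hXuv).2
        rw [hDiff, g]
        decide
      · rw [g]
        apply (ind_add X B hXuv).1
        rw [hDiff, g]
    · have e1 : par ((l i).map (fun p => s(p.1, p.2))) u v = 0 := by
        by_contra hcon
        have e2 := near_of_par hX hle (hl1 i) (hl2 i) hcon
        exact hn ⟨by omega, by omega⟩
      rw [e1]
      apply (ind_add X B hXuv).2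
      rw [hB]
      rintro ⟨-, e2⟩
      exact hn ⟨e2 u (Sym2.mem_mk_left u v), e2 v (Sym2.mem_mk_right u v)⟩
  have hz := h3 V R (l i) (ind B) c hc (hl1 i) hcob
  rw [← hl3 i c hc.1] at hz
  rw [(hab i).2.2.2.2 c hc]
  exact ((z2_eq_iff _ _).mpr hz).symm

end Pool.Agent.ACC
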