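import Pool.Agent.ACC.LibB

set_option autoImplicit false

namespace Pool.Agent.ACC

namespace POT_

lemma z2_aux (a b c : ZMod 2) (h : a + (b + c) = 0) : b = a + c := by
  revert a b c
  decide

lemma adj_pot {U : Type} (Y : SimpleGraph U) (d : U → U → ZMod 2) (n m : ℕ) (y : U)
    (hd : ∀ u v, d u v = d v u)
    (h0 : ∀ (u : U) (w : Y.Walk u u), w.length ≤ n → wsum d w = 0)
    (g : ∀ u, Y.Walk y u) (hg : ∀ u, (g u).length = Y.dist y u) (hm : 2 * m + 1 ≤ n)
    (u v : U) (h : Y.Adj u v) (hu : Y.dist y u ≤ m) (hv : Y.dist y v ≤ m) :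
    d u v = wsum d (g u) + wsum d (g v) := by
  have h1 := h0 y ((g u).append (SimpleGraph.Walk.cons h (g v).reverse)) (by
    rw [SimpleGraph.Walk.length_append, SimpleGraph.Walk.length_cons,
      SimpleGraph.Walk.length_reverse, hg, hg]
    omega)
  rw [wsum_append, wsum_cons, wsum_reverse d hd] at h1
  exact z2_aux _ _ _ h1

end POT_

open POT_ in
theorem pot_proof : Stmt_POT := by
  classical
  intro U Y d c y1 y2 hY hl hd h0
  have e1 : ∀ u, ∃ w : Y.Walk y1 u, w.length = Y.dist y1 u :=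
    fun u => hY.exists_walk_length_eq_dist y1 u
  have e2 : ∀ u, ∃ w : Y.Walk y2 u, w.length = Y.dist y2 u :=
    fun u => hY.exists_walk_length_eq_dist y2 u
  choose g1 hg1 using e1
  choose g2 hg2 using e2
  by_cases hc : Y.dist y1 y2 ≤ 2 * c + 1
  · refine ⟨fun u => if Y.dist y1 u ≤ 3 * c + 1 then wsum d (g1 u) else 0, ?_, ?_⟩
    · apply (ball_finite hY hl y1 (3 * c + 1)).subset
      intro u hu
      by_contra hn
      have hn' : ¬ Y.dist y1 u ≤ 3 * c + 1 := hn
      apply hu
      show (if Y.dist y1 u ≤ 3 * c + 1 then wsum d (g1 u) else 0) = 0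
      rw [if_neg hn']
    · intro u v h hu hv
      have key : ∀ x, (Y.dist y1 x ≤ c ∨ Y.dist y2 x ≤ c) → Y.dist y1 x ≤ 3 * c + 1 := by
        intro x hx
        rcases hx with hx | hx
        · omega
        · have : Y.dist y1 x ≤ Y.dist y1 y2 + Y.dist y2 x := hY.dist_triangle
          omega
      show d u v = (if Y.dist y1 u ≤ 3 * c + 1 then wsum d (g1 u) else 0) +
        (if Y.dist y1 v ≤ 3 * c + 1 then wsum d (g1 v) else 0)
      rw [if_pos (key u hu), if_pos (key v hv)]
      exact adj_pot Y d (6 * c + 5) (3 * c + 1) y1 hd h0 g1 hg1 (by omega) u v h (key u hu) (key v hv)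
  · have hfar : ∀ u v, Y.Adj u v → Y.dist y1 u ≤ c → Y.dist y2 v ≤ c → False := by
      intro u v h hu hv
      have h1 : Y.dist y1 y2 ≤ Y.dist y1 u + Y.dist u y2 := hY.dist_triangle
      have h2 : Y.dist u y2 ≤ Y.dist u v + Y.dist v y2 := hY.dist_triangle
      have h3 : Y.dist u v = 1 := SimpleGraph.dist_eq_one_iff_adj.mpr h
      have h4 : Y.dist v y2 = Y.dist y2 v := SimpleGraph.dist_comm
      omega
    have hfar2 : ∀ u, Y.dist y1 u ≤ c → Y.dist y2 u ≤ c → False := by
      intro u hu hv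
      have h1 : Y.dist y1 y2 ≤ Y.dist y1 u + Y.dist u y2 := hY.dist_triangle
      have h4 : Y.dist u y2 = Y.dist y2 u := SimpleGraph.dist_comm
      omega
    obtain ⟨k, hk⟩ : ∃ k : U → ZMod 2, k = fun u => if Y.dist y1 u ≤ c then wsum d (g1 u) else
      if Y.dist y2 u ≤ c then wsum d (g2 u) else 0 := ⟨_, rfl⟩
    have hk1 : ∀ u, Y.dist y1 u ≤ c → k u = wsum d (g1 u) := by
      intro u hu
      rw [hk]
      show (if Y.dist y1 u ≤ c then wsum d (g1 u) else
        if Y.dist y2 u ≤ c then wsum d (g2 u) else 0) = _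
      rw [if_pos hu]
    have hk2 : ∀ u, Y.dist y2 u ≤ c → k u = wsum d (g2 u) := by
      intro u hu
      rw [hk]
      show (if Y.dist y1 u ≤ c then wsum d (g1 u) else
        if Y.dist y2 u ≤ c then wsum d (g2 u) else 0) = _
      rw [if_neg (fun h => hfar2 u h hu), if_pos hu]
    refine ⟨k, ?_, ?_⟩
    · apply ((ball_finite hY hl y1 c).union (ball_finite hY hl y2 c)).subset
      intro u hu
      by_contra hn
      have hn1 : ¬ Y.dist y1 u ≤ c := fun h => hn (Or.inl h)
      have hn2 : ¬ Y.dist y2 u ≤ c := fun h => hn (Or.inr h)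
      apply hu
      rw [hk]
      show (if Y.dist y1 u ≤ c then wsum d (g1 u) else
        if Y.dist y2 u ≤ c then wsum d (g2 u) else 0) = _
      rw [if_neg hn1, if_neg hn2]
    · intro u v h hu hv
      rcases hu with hu | hu
      · rcases hv with hv | hv
        · rw [hk1 u hu, hk1 v hv]
          exact adj_pot Y d (6 * c + 5) c y1 hd h0 g1 hg1 (by omega) u v h hu hv
        · exact (hfar u v h hu hv).elim
      · rcases hv with hv | hv
        · exact (hfar v u h.symm hv hu).elim
        · rw [hk2 u hu, hk2 v hv]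
          exact adj_pot Y d (6 * c + 5) c y2 hd h0 g2 hg2 (by omega) u v h hu hv

end Pool.Agent.ACC
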