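import Pool.Agent.ACC.Lib

/-!
MP_851278_al, Part I, module POW: powers of a graph.
-/

set_option autoImplicit false

namespace Pool.Agent.ACC

namespace POW_

variable {V : Type}

lemma exists_walk {X : SimpleGraph V} (hX : X.Connected) (x y : V) :
    ∃ p : X.Walk x y, p.length = X.dist x y :=
  (hX.preconnected x y).exists_walk_length_eq_dist

lemma ball_finite {X : SimpleGraph V} (hX : X.Connected) (hl : LocFin X) (x : V) :
    ∀ r : ℕ, {y | X.dist x y ≤ r}.Finite := by
  intro r
  induction r with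
  | zero =>
    refine (Set.finite_singleton x).subset ?_
    intro y hy
    have h1 : X.dist x y ≤ 0 := hy
    have h2 : X.dist x y = 0 := Nat.le_zero.1 h1
    have h3 := (hX.dist_eq_zero_iff).1 h2
    rw [h3]
    exact Set.mem_singleton y
  | succ r ih =>
    refine (ih.union (ih.biUnion fun z _ => hl z)).subset ?_
    intro y hy
    have h1 : X.dist x y ≤ r + 1 := hy
    obtain ⟨p, hp⟩ := exists_walk hX y x
    rw [SimpleGraph.dist_comm] at hp
    cases p with
    | nil =>
      refine Or.inl ?_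
      show X.dist x x ≤ r
      rw [SimpleGraph.dist_self]
      exact Nat.zero_le r
    | @cons _ z _ h q =>
      rw [SimpleGraph.Walk.length_cons] at hp
      refine Or.inr ?_
      rw [Set.mem_iUnion₂]
      refine ⟨z, ?_, h.symm⟩
      show X.dist x z ≤ r
      rw [SimpleGraph.dist_comm]
      have h2 := SimpleGraph.dist_le q
      omega

lemma dist_map_le {X : SimpleGraph V} (hX : X.Connected) (g : V → V)
    (hg : ∀ x y, X.Adj x y → X.Adj (g x) (g y)) (x y : V) :
    X.dist (g x) (g y) ≤ X.dist x y := by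
  obtain ⟨p, hp⟩ := exists_walk hX x y
  let f : X →g X := ⟨g, fun {a b} h => hg a b h⟩
  have h1 := SimpleGraph.dist_le (p.map f)
  rw [SimpleGraph.Walk.length_map, hp] at h1
  exact h1

lemma dist_aut {X : SimpleGraph V} (hX : X.Connected) (g : Equiv.Perm V)
    (hg : ∀ x y, X.Adj (g x) (g y) ↔ X.Adj x y) (x y : V) :
    X.dist (g x) (g y) = X.dist x y := by
  apply le_antisymm
  · exact dist_map_le hX g (fun x y h => (hg x y).2 h) x y
  · have h1 := dist_map_le hX (g⁻¹ : Equiv.Perm V) (fun x y h => (adj_inv hg x y).2 h) (g x) (g y)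
    simpa using h1

lemma le_pow {X : SimpleGraph V} {R : ℕ} (hR : 1 ≤ R) : X ≤ pow X R := by
  intro x y h
  refine ⟨h.ne, h.reachable, ?_⟩
  have h1 := SimpleGraph.dist_le h.toWalk
  have h2 : h.toWalk.length = 1 := rfl
  omega

lemma dist_of_mem_support {X : SimpleGraph V} {x y u : V} (p : X.Walk x y) (hu : u ∈ p.support) :
    X.dist u x ≤ p.length ∧ X.dist u y ≤ p.length := by
  classical
  constructor
  · rw [SimpleGraph.dist_comm]
    exact (SimpleGraph.dist_le (p.takeUntil u hu)).trans (p.length_takeUntil_le_length hu)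
  · exact (SimpleGraph.dist_le (p.dropUntil u hu)).trans (p.length_dropUntil_le_length hu)

lemma ends_finite (e : Sym2 V) : {u | u ∈ e}.Finite := by
  induction e with
  | _ a b =>
    refine (Set.toFinite {a, b}).subset ?_
    intro u hu
    have h1 : u ∈ s(a, b) := hu
    rw [Sym2.mem_iff] at h1
    exact h1

lemma bd_pow_finite {X : SimpleGraph V} (hX : X.Connected) (hl : LocFin X) (R : ℕ) (A : Set V)
    (hA : (bd X A).Finite) : (bd (pow X R) A).Finite := by
  have hS : (⋃ e ∈ bd X A, {u | u ∈ e}).Finite := hA.biUnion fun e _ => ends_finite e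
  have hT : (⋃ u ∈ (⋃ e ∈ bd X A, {u | u ∈ e}), {y | X.dist u y ≤ R}).Finite :=
    hS.biUnion fun u _ => ball_finite hX hl u R
  refine ((hT.prod hT).image fun q : V × V => s(q.1, q.2)).subset ?_
  rintro e ⟨x, y, h, hx, hy, rfl⟩
  obtain ⟨p, hp⟩ := exists_walk hX x y
  have hpR : p.length ≤ R := by
    rw [hp]
    exact h.2.2
  obtain ⟨d, hd, hd1, hd2⟩ := p.exists_boundary_dart A hx hy
  have hu : d.fst ∈ p.support := SimpleGraph.Walk.dart_fst_mem_support_of_mem_darts p hd
  obtain ⟨h1, h2⟩ := dist_of_mem_support p hu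
  have hmem : d.fst ∈ ⋃ e ∈ bd X A, {u | u ∈ e} := by
    rw [Set.mem_iUnion₂]
    refine ⟨s(d.fst, d.snd), ⟨d.fst, d.snd, d.adj, hd1, hd2, rfl⟩, ?_⟩
    exact Sym2.mem_mk_left _ _
  refine ⟨(x, y), ⟨?_, ?_⟩, rfl⟩
  · rw [Set.mem_iUnion₂]
    exact ⟨d.fst, hmem, h1.trans hpR⟩
  · rw [Set.mem_iUnion₂]
    exact ⟨d.fst, hmem, h2.trans hpR⟩

lemma bd_mono {X Y : SimpleGraph V} (h : X ≤ Y) (A : Set V) : bd X A ⊆ bd Y A := by
  rintro e ⟨x, y, hxy, hx, hy, rfl⟩
  exact ⟨x, y, h hxy, hx, hy, rfl⟩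

end POW_

open POW_ in
theorem pow_proof : Stmt_POW := by
  intro V X G R hX hl hG hR
  refine ⟨hX.mono (le_pow hR), ?_, ?_, ?_⟩
  · intro x
    refine (ball_finite hX hl x R).subset ?_
    intro y hy
    exact hy.2.2
  · intro g hg x y
    have h1 := dist_aut hX g (hG g hg) x y
    constructor
    · rintro ⟨h2, -, h4⟩
      refine ⟨fun h => h2 (by rw [h]), hX.preconnected x y, ?_⟩
      rw [← h1]
      exact h4
    · rintro ⟨h2, -, h4⟩
      refine ⟨fun h => h2 (g.injective h), hX.preconnected _ _, ?_⟩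
      rw [h1]
      exact h4
  · rintro ⟨N, hN⟩
    refine ⟨N, fun A hA => ?_⟩
    refine (hN A (bd_pow_finite hX hl R A hA)).mono ?_
    intro U hU
    have h1 := bd_mono (le_pow (X := X) hR) U
    exact ⟨hU.1.subset h1, (Set.ncard_le_ncard h1 hU.1).trans hU.2⟩

end Pool.Agent.ACC
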