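import Pool.Agent.ACC.StmtsC

/-!
# Squad ACD, module PPP
-/

set_option autoImplicit false

namespace Pool.Agent.ACC

theorem ppp_proof : Stmt_PPP := by
  intro V U W X p q
  ext a b
  constructor
  · rintro ⟨hab, u, u', ⟨_, x, y, hxy, hx, hy⟩, hu, hu'⟩
    refine ⟨hab, x, y, hxy, ?_, ?_⟩
    · show q (p x) = a
      rw [hx, hu]
    · show q (p y) = b
      rw [hy, hu']
  · rintro ⟨hab, x, y, hxy, hx, hy⟩
    refine ⟨hab, p x, p y, ⟨?_, x, y, hxy, rfl, rfl⟩, hx, hy⟩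
    intro h
    apply hab
    rw [← hx, ← hy]
    show q (p x) = q (p y)
    rw [h]

end Pool.Agent.ACC
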