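import Pool.Agent.ACC.StmtsB

/-!
MP_851278_al, module PST: first half of the overlap lemma.
-/

set_option autoImplicit false

namespace Pool.Agent.ACC

namespace PST_

variable {V : Type}

theorem dist_supp {P : SimpleGraph V} {x y : V} (w : P.Walk x y) {z : V} (hz : z ∈ w.support) :
    P.dist x z ≤ w.length ∧ P.dist z y ≤ w.length := by
  classical
  exact ⟨(SimpleGraph.dist_le (w.takeUntil z hz)).trans (w.length_takeUntil_le_length hz),
    (SimpleGraph.dist_le (w.dropUntil z hz)).trans (w.length_dropUntil_le_length hz)⟩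

theorem mid {P : SimpleGraph V} (hP : P.Connected) {x y : V} {a b : ℕ}
    (h : P.dist x y ≤ a + b) : ∃ m, P.dist x m ≤ a ∧ P.dist m y ≤ b := by
  obtain ⟨w, hw⟩ := hP.exists_walk_length_eq_dist x y
  refine ⟨w.getVert a, ?_, ?_⟩
  · refine (SimpleGraph.dist_le (w.take a)).trans ?_
    rw [SimpleGraph.Walk.take_length]
    exact min_le_left _ _
  · refine (SimpleGraph.dist_le (w.drop a)).trans ?_
    rw [SimpleGraph.Walk.drop_length]
    omega

theorem dist_le_of_le {X P : SimpleGraph V} (hXP : P ≤ X) (hP : P.Connected) (x y : V) :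
    X.dist x y ≤ P.dist x y := by
  obtain ⟨w, hw⟩ := hP.exists_walk_length_eq_dist x y
  have h := SimpleGraph.dist_le (w.map (SimpleGraph.Hom.ofLE hXP))
  rw [SimpleGraph.Walk.length_map, hw] at h
  exact h

theorem dist_walk {X P : SimpleGraph V} {lam : ℕ} (h : Spanner X P lam) {x y : V}
    (w : X.Walk x y) : P.dist x y ≤ lam * w.length := by
  induction w with
  | nil => rw [SimpleGraph.dist_self]; exact Nat.zero_le _
  | @cons u v t huv q ih =>
    have h1 := h.2.1.dist_triangle (u := u) (v := v) (w := t)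
    have h2 := h.2.2 u v huv
    rw [SimpleGraph.Walk.length_cons, Nat.mul_add, Nat.mul_one]
    omega

theorem dist_le_mul {X P : SimpleGraph V} {lam : ℕ} (h : Spanner X P lam) (hX : X.Connected)
    (x y : V) : P.dist x y ≤ lam * X.dist x y := by
  obtain ⟨w, hw⟩ := hX.exists_walk_length_eq_dist x y
  rw [← hw]
  exact dist_walk h w

theorem exists_nb {P : SimpleGraph V} (hP : P.Connected) {a b : V} (hab : a ≠ b) (x : V) :
    ∃ y, P.Adj x y := by
  have : ∃ t, x ≠ t := by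
    by_cases h : x = a
    · exact ⟨b, fun h' => hab (h.symm.trans h')⟩
    · exact ⟨a, h⟩
  obtain ⟨t, ht⟩ := this
  obtain ⟨w⟩ := hP.preconnected x t
  cases w with
  | nil => exact absurd rfl ht
  | @cons _ v _ hv _ => exact ⟨v, hv⟩

/-- Values of a colouring near a set where it is constant. -/
theorem jval (h1 : Stmt_RCS) {X : SimpleGraph V} {R : Rot V} {lam c0 : ℕ}
    (hsp : Spanner X R.P lam) {j : V → V → ZMod 2} (hj : R.Inv j)
    (hex : ∀ x, ∃ y, R.P.Adj x y) {A : Set V} {κ : ZMod 2}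
    (hA : ∀ x ∈ A, ∀ y, R.P.Adj x y → j x y = κ)
    (hb : ∀ p ∈ R.bset j, ∀ s ∈ A, c0 < X.dist s p.1) {s z : V} (hs : s ∈ A)
    (hz : R.P.dist s z ≤ c0) (z' : V) (hz' : R.P.Adj z z') : j z z' = κ ∧ j z' z = κ := by
  obtain ⟨w, hw⟩ := hsp.2.1.exists_walk_length_eq_dist s z
  have key : ∀ v ∈ w.support, ∀ v', R.P.Adj v v' → j v v' = j v' v := by
    intro v hv v' hvv'
    by_contra hne
    have h2 := hb (v, v') ⟨hvv', hne⟩ s hs
    have h3 := (dist_supp w hv).1
    have h4 := dist_le_of_le hsp.1 hsp.2.1 s v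
    have h5 : c0 < X.dist s v := h2
    omega
  obtain ⟨s', hs'⟩ := hex s
  have h6 := h1 V R j hj s z w key s' z' hs' hz'
  have h7 := hA s hs s' hs'
  have h8 : j z z' = κ := by rw [← h6.1]; exact h7
  refine ⟨h8, ?_⟩
  rw [← key z w.end_mem_support z' hz']
  exact h8

theorem link_edges {P : SimpleGraph V} {X S Y : Set V} {x0 y0 : V} (L : Link P X S Y x0 y0)
    {u v : V} (h : s(u, v) ∈ L.edges) : u ∈ X ∨ u ∈ S ∨ u ∈ Y := by
  have ha : L.a ∈ X := L.s1 _ L.p1.end_mem_support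
  have hb : L.b ∈ S := L.s2 _ L.p2.start_mem_support
  have hb' : L.b' ∈ S := L.s2 _ L.p2.end_mem_support
  have ha' : L.a' ∈ Y := L.s3 _ L.p3.start_mem_support
  unfold Link.edges at h
  rw [List.mem_append, List.mem_cons, List.mem_append, List.mem_cons] at h
  rcases h with h | h | h | h | h
  · exact Or.inl (L.s1 _ (L.p1.fst_mem_support_of_mem_edges h))
  · rw [Sym2.eq_iff] at h
    rcases h with ⟨h, -⟩ | ⟨h, -⟩
    · rw [h]; exact Or.inl ha
    · rw [h]; exact Or.inr (Or.inl hb)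
  · exact Or.inr (Or.inl (L.s2 _ (L.p2.fst_mem_support_of_mem_edges h)))
  · rw [Sym2.eq_iff] at h
    rcases h with ⟨h, -⟩ | ⟨h, -⟩
    · rw [h]; exact Or.inr (Or.inl hb')
    · rw [h]; exact Or.inr (Or.inr ha')
  · exact Or.inr (Or.inr (L.s3 _ (L.p3.fst_mem_support_of_mem_edges h)))

theorem par_zero {l : List (Sym2 V)} {x y : V} (h : s(x, y) ∉ l) : par l x y = 0 := by
  classical
  have h2 : par l x y = ((l.count s(x, y) : ℕ) : ZMod 2) := rfl
  rw [h2, List.count_eq_zero_of_not_mem h]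
  rfl

theorem dart_at {P : SimpleGraph V} {u v : V} (w : P.Walk u v) (huv : u ≠ v) {z : V}
    (hz : z ∈ w.support) : ∃ d ∈ w.darts, d.fst = z ∨ d.snd = z := by
  by_cases hzu : z = u
  · have h1 := SimpleGraph.Walk.map_fst_darts_append w
    rw [← h1, List.mem_append] at hz
    rcases hz with hz | hz
    · obtain ⟨d, hd, hdz⟩ := List.mem_map.1 hz
      exact ⟨d, hd, Or.inl hdz⟩
    · rw [List.mem_singleton] at hz
      exact absurd (hzu.symm.trans hz) huv
  · have h1 := SimpleGraph.Walk.cons_map_snd_darts w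
    rw [← h1, List.mem_cons] at hz
    rcases hz with hz | hz
    · exact absurd hz hzu
    · obtain ⟨d, hd, hdz⟩ := List.mem_map.1 hz
      exact ⟨d, hd, Or.inr hdz⟩

theorem fin3 (i : Fin 3) : i ≠ i + 1 ∧ i ≠ i + 2 ∧ i + 1 ≠ i + 2 := by
  fin_cases i <;> decide

end PST_

open PST_ in
theorem pst_proof (h1 : Stmt_RCS) (h2 : Stmt_LKE) (h3 : Stmt_LKP) (h4 : Stmt_KSA)
    (h5 : Stmt_OR3) (h6 : Stmt_LNF) (h7 : Stmt_HUL) (h8 : Stmt_PTR) : Stmt_PST := by
  classical
  intro f lam G hlam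
  obtain ⟨k, hk⟩ := h6 f lam (3 * (lam * (G + 1)) + 1)
  obtain ⟨G', hG'⟩ : ∃ G', G' = lam * (G + 1) := ⟨_, rfl⟩
  obtain ⟨r3, hr3⟩ : ∃ r3, r3 = lam + G' := ⟨_, rfl⟩
  obtain ⟨r2, hr2⟩ : ∃ r2, r2 = r3 + 2 * lam ^ 2 := ⟨_, rfl⟩
  obtain ⟨c0, hc0⟩ : ∃ c0, c0 = 2 * r2 + lam * G + G + 1 := ⟨_, rfl⟩
  have hG'' : G' = lam * G + lam := by rw [hG', Nat.mul_add, Nat.mul_one]
  rw [← hG'] at hk
  refine ⟨k, c0, ?_⟩
  intro V X R S T j hX hedge hBG hsp hpl hSf hTf hS hT hns hj hjS hjT hb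
  obtain ⟨e1, e2, he12⟩ := hedge
  have hPc : R.P.Connected := hsp.2.1
  have hex : ∀ x, ∃ y, R.P.Adj x y := exists_nb hPc he12.ne
  have hXP : ∀ x y, X.dist x y ≤ R.P.dist x y := dist_le_of_le hsp.1 hPc
  have hPX : ∀ x y, R.P.dist x y ≤ lam * X.dist x y := dist_le_mul hsp hX
  have tri : ∀ x y z, R.P.dist x z ≤ R.P.dist x y + R.P.dist y z :=
    fun x y z => hPc.dist_triangle
  have triX : ∀ x y z, X.dist x z ≤ X.dist x y + X.dist y z := fun x y z => hX.dist_triangle
  have com : ∀ x y, R.P.dist x y = R.P.dist y x := fun x y => SimpleGraph.dist_comm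
  have comX : ∀ x y, X.dist x y = X.dist y x := fun x y => SimpleGraph.dist_comm
  have adj1 : ∀ x y, R.P.Adj x y → R.P.dist x y ≤ 1 := by
    intro x y hxy
    have := SimpleGraph.dist_le (SimpleGraph.Walk.cons hxy SimpleGraph.Walk.nil)
    simpa using this
  -- values of j
  have hjS' : ∀ s ∈ S, ∀ z, R.P.dist s z ≤ c0 → ∀ z', R.P.Adj z z' →
      j z z' = 1 ∧ j z' z = 1 := by
    intro s hs z hz z' hz'
    exact jval h1 hsp hj.1 hex hjS (fun p hp s hs => hb p hp s (Or.inl hs)) hs hz z' hz'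
  have hjT' : ∀ s ∈ T, ∀ z, R.P.dist s z ≤ c0 → ∀ z', R.P.Adj z z' →
      j z z' = 0 ∧ j z' z = 0 := by
    intro s hs z hz z' hz'
    exact jval h1 hsp hj.1 hex hjT (fun p hp s hs => hb p hp s (Or.inr hs)) hs hz z' hz'
  have hST : ∀ s ∈ S, ∀ t ∈ T, 2 * c0 < R.P.dist s t := by
    intro s hs t ht
    by_contra hle
    have hle' : R.P.dist s t ≤ c0 + c0 := by omega
    obtain ⟨m, hm1, hm2⟩ := mid hPc hle'
    obtain ⟨m', hm'⟩ := hex m
    have ha := (hjS' s hs m hm1 m' hm').1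
    rw [com] at hm2
    have hb' := (hjT' t ht m hm2 m' hm').1
    rw [ha] at hb'
    exact absurd hb' (by decide)
  have hsep : ∀ r, r ≤ r2 → ∀ u ∈ nbd R.P S r, ∀ v ∈ nbd R.P T r, u ≠ v ∧ ¬ R.P.Adj u v := by
    intro r hr u hu v hv
    obtain ⟨s, hs, hsu⟩ := hu
    obtain ⟨t, ht, htv⟩ := hv
    have h0 := hST s hs t ht
    have t1 := tri s u t
    have t2 := tri u v t
    have t3 := com t v
    constructor
    · intro huv
      rw [huv] at t1 hsu
      omega
    · intro huv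
      have := adj1 u v huv
      omega
  have hdisj : ∀ r, r ≤ r2 → Disjoint (nbd R.P S r) (nbd R.P T r) := by
    intro r hr
    rw [Set.disjoint_left]
    intro a ha hb'
    exact (hsep r hr a ha a hb').1 rfl
  have hlamr2 : lam ≤ r2 := by omega
  have hlamr3 : lam ≤ r3 := by omega
  obtain ⟨M0, hM0, hM0d⟩ := hk V X R.P S T hX hBG hsp hSf hTf hS.1 hT.1 hns (hsep lam hlamr2)
  obtain ⟨s0, hs0⟩ := hS.1
  obtain ⟨t0, ht0⟩ := hT.1
  have hs0n : ∀ r, s0 ∈ nbd R.P S r :=
    fun r => ⟨s0, hs0, by rw [SimpleGraph.dist_self]; exact Nat.zero_le _⟩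
  have ht0n : ∀ r, t0 ∈ nbd R.P T r :=
    fun r => ⟨t0, ht0, by rw [SimpleGraph.dist_self]; exact Nat.zero_le _⟩
  have cnS : ∀ r, lam ≤ r → Cn R.P (nbd R.P S r) := fun r hr => h7 V X R.P lam r S hsp hr hS
  have cnT : ∀ r, lam ≤ r → Cn R.P (nbd R.P T r) := fun r hr => h7 V X R.P lam r T hsp hr hT
  have hlinks : ∀ i, Nonempty (Link R.P (nbd R.P S lam) (M0 i) (nbd R.P T lam) s0 t0) := by
    intro i
    exact h2 V R.P _ _ _ s0 t0 (cnS lam le_rfl) (hM0 i).1 (cnT lam le_rfl) (hs0n _) (ht0n _)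
      (hM0 i).2.2.2.2.1 (hM0 i).2.2.2.2.2
  let F : Fam R (nbd R.P S lam) (nbd R.P T lam) (Fin (3 * G' + 1)) :=
    { S := M0
      x0 := s0
      y0 := t0
      L := fun i => (hlinks i).some
      dXY := hdisj lam hlamr2
      dX := fun i => (hM0 i).2.2.1
      dY := fun i => (hM0 i).2.2.2.1
      dS := hM0d
      cS := fun i => (hM0 i).1
      cX := cnS lam le_rfl
      cY := cnT lam le_rfl }
  have hG1 : 1 ≤ G' := by omega
  obtain ⟨i, hi, hi3⟩ := h5 V R _ _ (3 * G' + 1) G' F hPc hpl hG1 le_rfl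
  have hi3' : ∀ p q, p ≠ q → ∀ u ∈ M0 (i p), ∀ v ∈ M0 (i q), ∀ w : R.P.Walk u v,
      (∀ z ∈ w.support, z ∉ nbd R.P S lam ∧ z ∉ nbd R.P T lam) → G' ≤ w.length := hi3
  have hptr : ∀ p, ∃ M' : Set V, M' ⊆ M0 (i p) ∧ Cn R.P M' ∧ M'.Finite ∧
      Disjoint (nbd R.P S r2) M' ∧ Disjoint (nbd R.P T r2) M' ∧
      (∃ a ∈ nbd R.P S r2, ∃ b ∈ M', R.P.Adj a b) ∧
      ∃ a ∈ nbd R.P T r2, ∃ b ∈ M', R.P.Adj b a := by
    intro p
    exact h8 V R.P S T (M0 (i p)) lam r2 hPc hlamr2 (hM0 (i p)).1 (hM0 (i p)).2.2.2.2.1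
      (hM0 (i p)).2.2.2.2.2 (hsep r2 le_rfl)
  choose M hMsub hMcn hMfin hMS hMT hMa hMb using hptr
  have farS : ∀ p, ∀ m ∈ M p, ∀ s ∈ S, r2 < R.P.dist s m := by
    intro p m hm s hs
    by_contra hle
    exact (Set.disjoint_left.1 (hMS p)) ⟨s, hs, not_lt.1 hle⟩ hm
  have farT : ∀ p, ∀ m ∈ M p, ∀ s ∈ T, r2 < R.P.dist s m := by
    intro p m hm s hs
    by_contra hle
    exact (Set.disjoint_left.1 (hMT p)) ⟨s, hs, not_lt.1 hle⟩ hm
  have KEY : ∀ p q, p ≠ q → ∀ m ∈ M p, ∀ m' ∈ M q, lam * G < R.P.dist m m' := by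
    intro p q hpq m hm m' hm'
    by_contra hle
    obtain ⟨w, hw⟩ := hPc.exists_walk_length_eq_dist m m'
    have hge := hi3' p q hpq m (hMsub p hm) m' (hMsub q hm') w (by
      intro z hz
      have hz1 := (dist_supp w hz).1
      constructor
      · rintro ⟨s, hs, hsz⟩
        have t1 := tri s z m
        have t2 := farS p m hm s hs
        have t3 := com z m
        omega
      · rintro ⟨s, hs, hsz⟩
        have t1 := tri s z m
        have t2 := farT p m hm s hs
        have t3 := com z m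
        omega)
    omega
  have nearP : ∀ x y, X.dist x y ≤ G → R.P.dist x y ≤ lam * G := by
    intro x y hxy
    exact (hPX x y).trans (Nat.mul_le_mul_left lam hxy)
  have hlam2 : ∀ v m : V, 2 * lam ^ 2 < R.P.dist v m → 2 * lam < X.dist m v := by
    intro v m hvm
    by_contra hle
    have h10 : R.P.dist v m ≤ lam * X.dist v m := hPX v m
    have h11 : X.dist v m ≤ 2 * lam := by rw [comX]; exact not_lt.1 hle
    have h12 : lam * X.dist v m ≤ lam * (2 * lam) := Nat.mul_le_mul_left lam h11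
    have h13 : lam * (2 * lam) = 2 * lam ^ 2 := by ring
    omega
  refine ⟨{ Xp := nbd R.P S r3, Yp := nbd R.P T r3, M := M, hS := ?_, hT := ?_, cX := cnS r3 hlamr3, cY := cnT r3 hlamr3, cM := hMcn, ha := ?_, hbX := ?_, hbY := ?_, hc := ?_, hd := ?_, he := ?_ }⟩
  · intro s hs
    exact ⟨s, hs, by rw [SimpleGraph.dist_self]; exact Nat.zero_le _⟩
  · intro s hs
    exact ⟨s, hs, by rw [SimpleGraph.dist_self]; exact Nat.zero_le _⟩
  · rintro p m hm v (⟨s, hs, hsv⟩ | ⟨s, hs, hsv⟩)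
    · apply hlam2
      have t1 := tri s v m
      have t2 := farS p m hm s hs
      omega
    · apply hlam2
      have t1 := tri s v m
      have t2 := farT p m hm s hs
      omega
  · intro p
    obtain ⟨a, ⟨s, hs, hsa⟩, b, hbM, hab⟩ := hMa p
    rw [hr2] at hsa
    obtain ⟨v, hv1, hv2⟩ := mid hPc hsa
    refine ⟨b, hbM, v, ⟨s, hs, hv1⟩, ?_⟩
    have t1 := triX b a v
    have t2 := hXP b a
    have t3 := hXP a v
    have t4 := adj1 b a hab.symm
    have t5 := com a v
    omega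
  · intro p
    obtain ⟨a, ⟨s, hs, hsa⟩, b, hbM, hab⟩ := hMb p
    rw [hr2] at hsa
    obtain ⟨v, hv1, hv2⟩ := mid hPc hsa
    refine ⟨b, hbM, v, ⟨s, hs, hv1⟩, ?_⟩
    have t1 := triX b a v
    have t2 := hXP b a
    have t3 := hXP a v
    have t4 := adj1 b a hab
    have t5 := com a v
    omega
  · intro p q hpq m hm m' hm'
    by_contra hle
    have h10 := nearP m m' (not_lt.1 hle)
    have h11 := KEY p q hpq m hm m' hm'
    omega
  · rintro v ⟨s, hs, hsv⟩ v' ⟨t, ht, htv⟩
    by_contra hle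
    have h10 := nearP v v' (not_lt.1 hle)
    have h11 := hST s hs t ht
    have t1 := tri s v t
    have t2 := tri v v' t
    have t3 := com t v'
    omega
  · intro p
    obtain ⟨hp1, hp2, hp12⟩ := fin3 p
    have cn2S := cnS r2 hlamr2
    have cn2T := cnT r2 hlamr2
    obtain ⟨L⟩ := h2 V R.P (nbd R.P S r2) (M (p + 1)) (nbd R.P T r2) s0 t0 cn2S (hMcn _) cn2T
      (hs0n _) (ht0n _) (hMa _) (hMb _)
    obtain ⟨L'⟩ := h2 V R.P (nbd R.P S r2) (M (p + 2)) (nbd R.P T r2) s0 t0 cn2S (hMcn _) cn2T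
      (hs0n _) (ht0n _) (hMa _) (hMb _)
    have hMdisj : ∀ a b, a ≠ b → Disjoint (M a) (M b) := by
      intro a b hab
      rw [Set.disjoint_left]
      intro z hz hz'
      have := KEY a b hab z hz z hz'
      rw [SimpleGraph.dist_self] at this
      omega
    obtain ⟨m0, hm0⟩ := (hMcn p).1
    obtain ⟨m0', hm0'⟩ := hex m0
    obtain ⟨c, hcol, hcb, hc0'⟩ := h3 V R _ _ _ _ s0 t0 L L' (m0, m0') 0 hpl
    have hnob : ∀ z, z ∉ nbd R.P S r2 → z ∉ nbd R.P T r2 → z ∉ M (p + 1) → z ∉ M (p + 2) →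
        ∀ z', R.P.Adj z z' → c z z' = c z' z := by
      intro z hz1 hz2 hz3 hz4 z' hzz'
      have h20 := hcb z z' hzz'
      have h21 : s(z, z') ∉ L.edges ++ L'.edges := by
        rw [List.mem_append]
        rintro (h | h)
        · rcases link_edges L h with h | h | h
          · exact hz1 h
          · exact hz3 h
          · exact hz2 h
        · rcases link_edges L' h with h | h | h
          · exact hz1 h
          · exact hz4 h
          · exact hz2 h
      rw [par_zero h21] at h20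
      exact CharTwo.add_eq_zero.1 h20
    have hcM : ∀ m ∈ M p, ∀ m', R.P.Adj m m' → c m m' = 0 := by
      intro m hm m' hmm'
      obtain ⟨w, hw⟩ := (hMcn p).2 m0 hm0 m hm
      have h20 := h1 V R c hcol.1 m0 m w (by
        intro z hz
        have hzM := hw z hz
        apply hnob
        · exact fun h => (Set.disjoint_left.1 (hMS p)) h hzM
        · exact fun h => (Set.disjoint_left.1 (hMT p)) h hzM
        · exact fun h => (Set.disjoint_left.1 (hMdisj p (p + 1) hp1)) hzM h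
        · exact fun h => (Set.disjoint_left.1 (hMdisj p (p + 2) hp2)) hzM h) m0' m' hm0' hmm'
      rw [← h20.1]
      exact hc0'
    obtain ⟨u, hu, v, hv, w, hw⟩ := h4 V R (nbd R.P S r2) (nbd R.P T r2) (M (p + 1)) (M (p + 2))
      s0 t0 L L' c j (hdisj r2 le_rfl) (hMS _) (hMS _) (hMT _) (hMT _)
      (hMdisj _ _ hp12) hcol hj hcb
      (by
        rintro x ⟨s, hs, hsx⟩ y hxy
        exact hjS' s hs x (by omega) y hxy)
      (by
        rintro x ⟨s, hs, hsx⟩ y hxy
        exact hjT' s hs x (by omega) y hxy)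
    have huv : u ≠ v := by
      intro h
      rw [← h] at hv
      exact (Set.disjoint_left.1 (hMdisj _ _ hp12)) hu hv
    refine ⟨u, hu, v, hv, w, ?_⟩
    intro z hz
    have hz1 : ∃ z', R.P.Adj z z' ∧ j z z' ≠ j z' z ∧ c z z' = 1 := by
      obtain ⟨d, hd, hdz⟩ := dart_at w huv hz
      obtain ⟨g1, g2, g3⟩ := hw d hd
      rcases hdz with hdz | hdz
      · refine ⟨d.snd, ?_, ?_, ?_⟩
        · rw [← hdz]; exact d.adj
        · rw [← hdz]; exact g1
        · rw [← hdz]; exact g2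
      · refine ⟨d.fst, ?_, ?_, ?_⟩
        · rw [← hdz]; exact d.adj.symm
        · rw [← hdz]; exact fun h => g1 h.symm
        · rw [← hdz]; exact g3
    obtain ⟨z', hzz', hjz, hcz⟩ := hz1
    have hfar : ∀ s, s ∈ S ∨ s ∈ T → c0 < X.dist s z := hb (z, z') ⟨hzz', hjz⟩
    constructor
    · rintro y (⟨s, hs, hsy⟩ | ⟨s, hs, hsy⟩)
      · have t1 := hfar s (Or.inl hs)
        have t2 := triX s y z
        have t3 := hXP s y
        omega
      · have t1 := hfar s (Or.inr hs)
        have t2 := triX s y z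
        have t3 := hXP s y
        omega
    · intro m hm
      by_contra hle
      have h20 := nearP z m (not_lt.1 hle)
      obtain ⟨q, hq⟩ := hPc.exists_walk_length_eq_dist z m
      obtain ⟨m', hmm'⟩ := hex m
      have h21 : ∀ y ∈ q.support, ∀ y', R.P.Adj y y' → c y y' = c y' y := by
        intro y hy
        have hy1 := (dist_supp q hy).1
        have hy2 := (dist_supp q hy).2
        apply hnob
        · rintro ⟨s, hs, hsy⟩
          have t1 := hfar s (Or.inl hs)
          have t2 := hXP s z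
          have t3 := tri s y z
          have t4 := com y z
          omega
        · rintro ⟨s, hs, hsy⟩
          have t1 := hfar s (Or.inr hs)
          have t2 := hXP s z
          have t3 := tri s y z
          have t4 := com y z
          omega
        · intro h
          have := KEY (p + 1) p hp1.symm y h m hm
          omega
        · intro h
          have := KEY (p + 2) p hp2.symm y h m hm
          omega
      have h22 := h1 V R c hcol.1 z m q h21 z' m' hzz' hmm'
      have h23 := hcM m hm m' hmm'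
      rw [← h22.1, hcz] at h23
      exact absurd h23 (by decide)

end Pool.Agent.ACC
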