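import Pool.Agent.ACC.StmtsB
import Pool.Agent.ACC.LibB

/-!
MP_851278_al, squad ACB, module PTR: truncation of the connections.
-/

set_option autoImplicit false

namespace Pool.Agent.ACC

theorem ptr_proof (hSUB : Stmt_SUB) : Stmt_PTR := by
  intro V P S T M lam r hP hlr hM hS hT hne
  obtain ⟨a, ha, b, hb, hab⟩ := hS
  obtain ⟨a', ha', b', hb', hba'⟩ := hT
  have haA : a ∈ nbd P S r := nbd_mono S hlr ha
  have haB : a' ∈ nbd P T r := nbd_mono T hlr ha'
  obtain ⟨w0, hw0⟩ := hM.2 b hb b' hb'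
  have hdis : Disjoint (nbd P S r) (nbd P T r) := by
    rw [Set.disjoint_left]
    intro z hz hz'
    exact (hne z hz z hz').1 rfl
  obtain ⟨u', v', w', hsup, ⟨c, hc, hcu⟩, d, hd, hvd⟩ :=
    hSUB V P (nbd P S r) (nbd P T r) a a'
      (SimpleGraph.Walk.cons hab (w0.append (SimpleGraph.Walk.cons hba' SimpleGraph.Walk.nil)))
      haA haB hdis (fun x hx y hy => (hne x hx y hy).2)
  refine ⟨{z | z ∈ w'.support}, ?_, cn_support w', List.finite_toSet _, ?_, ?_, ?_, ?_⟩
  · intro z hz
    obtain ⟨h1, h2, h3⟩ := hsup z hz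
    rw [SimpleGraph.Walk.support_cons, List.mem_cons,
      SimpleGraph.Walk.mem_support_append_iff, SimpleGraph.Walk.support_cons, List.mem_cons,
      SimpleGraph.Walk.support_nil, List.mem_singleton] at h1
    rcases h1 with h1 | h1 | h1 | h1
    · exact absurd haA (h1 ▸ h2)
    · exact hw0 z h1
    · rw [h1]; exact hb'
    · exact absurd haB (h1 ▸ h3)
  · rw [Set.disjoint_left]
    intro z hz hz'
    exact (hsup z hz').2.1 hz
  · rw [Set.disjoint_left]
    intro z hz hz'
    exact (hsup z hz').2.2 hz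
  · exact ⟨c, hc, u', w'.start_mem_support, hcu⟩
  · exact ⟨d, hd, v', w'.end_mem_support, hvd⟩

end Pool.Agent.ACC
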