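import Pool.Agent.ACC.Lib

/-!
MP_851278_al, module SIG: additivity of the separation sum.
-/

set_option autoImplicit false

namespace Pool.Agent.ACC

theorem sig_proof : Stmt_SIG := by
  intro V E f hE hfin hf x y z
  set P1 : Set (Set V) := {A | A ∈ E ∧ x ∈ A ∧ y ∈ A ∧ z ∉ A} with hP1
  set P2 : Set (Set V) := {A | A ∈ E ∧ x ∈ A ∧ y ∉ A ∧ z ∉ A} with hP2
  set P3 : Set (Set V) := {A | A ∈ E ∧ x ∈ A ∧ y ∉ A ∧ z ∈ A} with hP3
  set P4 : Set (Set V) := {A | A ∈ E ∧ x ∉ A ∧ y ∈ A ∧ z ∉ A} with hP4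
  have f1 : P1.Finite := (hfin x z).subset (fun A hA => ⟨hA.1, hA.2.1, hA.2.2.2⟩)
  have f2 : P2.Finite := (hfin x z).subset (fun A hA => ⟨hA.1, hA.2.1, hA.2.2.2⟩)
  have f3 : P3.Finite := (hfin x y).subset (fun A hA => ⟨hA.1, hA.2.1, hA.2.2.1⟩)
  have f4 : P4.Finite := (hfin y z).subset (fun A hA => ⟨hA.1, hA.2.2.1, hA.2.2.2⟩)
  have e1 : {A : Set V | A ∈ E ∧ x ∈ A ∧ z ∉ A} = P1 ∪ P2 := by
    ext A
    simp only [hP1, hP2, Set.mem_setOf_eq, Set.mem_union]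
    tauto
  have e2 : {A : Set V | A ∈ E ∧ x ∈ A ∧ y ∉ A} = P2 ∪ P3 := by
    ext A
    simp only [hP3, hP2, Set.mem_setOf_eq, Set.mem_union]
    tauto
  have e3 : {A : Set V | A ∈ E ∧ y ∈ A ∧ z ∉ A} = P1 ∪ P4 := by
    ext A
    simp only [hP1, hP4, Set.mem_setOf_eq, Set.mem_union]
    tauto
  have d1 : Disjoint P1 P2 := by
    rw [Set.disjoint_left]
    intro A h1 h2
    exact h2.2.2.1 h1.2.2.1
  have d2 : Disjoint P2 P3 := by
    rw [Set.disjoint_left]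
    intro A h1 h2
    exact h1.2.2.2 h2.2.2.2
  have d3 : Disjoint P1 P4 := by
    rw [Set.disjoint_left]
    intro A h1 h2
    exact h2.2.1 h1.2.1
  have e4 : P4 = (fun A : Set V => Aᶜ) '' P3 := by
    ext A
    constructor
    · rintro ⟨hA, h1, h2, h3⟩
      refine ⟨Aᶜ, ⟨hE.compl A hA, h1, ?_, h3⟩, compl_compl A⟩
      rw [Set.mem_compl_iff, not_not]
      exact h2
    · rintro ⟨B, ⟨hB, h1, h2, h3⟩, rfl⟩
      refine ⟨hE.compl B hB, ?_, h2, ?_⟩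
      · show x ∉ Bᶜ
        rw [Set.mem_compl_iff, not_not]
        exact h1
      · show z ∉ Bᶜ
        rw [Set.mem_compl_iff, not_not]
        exact h3
  have e5 : ∑ᶠ A ∈ P4, f A = ∑ᶠ A ∈ P3, f A := by
    rw [e4, finsum_mem_image (fun A _ B _ h => compl_injective h)]
    exact finsum_mem_congr rfl (fun A hA => hf A hA.1)
  unfold sig
  rw [e1, e2, e3, finsum_mem_union d1 f1 f2, finsum_mem_union d2 f2 f3,
    finsum_mem_union d3 f1 f4, e5]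
  have h2 : (∑ᶠ A ∈ P3, f A) + ∑ᶠ A ∈ P3, f A = 0 := CharTwo.add_self_eq_zero _
  linear_combination (-1 : ZMod 2) * h2

end Pool.Agent.ACC
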