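import Pool.Agent.ACC.Lib

set_option autoImplicit false

/-! MP_851278_al, module SPR: the spanner reduction -/

namespace Pool.Agent.ACC

theorem spr_proof (h1 : Stmt_MKT) (h2 : Stmt_MCL) (h3 : Stmt_LFA) (h4 : Stmt_VOR) :
    Stmt_SPR := by
  intro V X hX hY
  obtain ⟨V', G', hG', hminor, q, C, hq, hsurj⟩ := hY
  obtain ⟨t, ht, hmf⟩ := h1 V' G' hminor
  have hleaf := h3 V V' G' q t ht hmf
  obtain ⟨R, lam, Y, K, hR, hK1, hK2, hK3, hspan⟩ := h4 V V' X G' q C hX hG' hq hsurj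
  exact ⟨R, lam, t, Y, hR, hspan, h2 V (V' ⊕ V) Y (leafG G' q) K t hK1 hK2 hK3 hleaf⟩

end Pool.Agent.ACC
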