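import Pool.Agent.ACC.Lib

/-!
MP_851278_al, module TFA: a graph of bounded degree all of whose finite cuts are trivial is
accessible.
-/

set_option autoImplicit false

namespace Pool.Agent.ACC

namespace TFA

theorem bd_singleton_subset {V : Type} (X : SimpleGraph V) (x : V) :
    bd X {x} ⊆ (fun y => s(x, y)) '' X.neighborSet x := by
  rintro e ⟨a, b, hab, ha, -, rfl⟩
  rw [Set.mem_singleton_iff] at ha
  subst ha
  exact ⟨b, hab, rfl⟩

theorem singleton_small {V : Type} (X : SimpleGraph V) (d : ℕ) (x : V)
    (h : (X.neighborSet x).Finite) (hd : (X.neighborSet x).ncard ≤ d) : {x} ∈ Small X d := by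
  have hfin : ((fun y => s(x, y)) '' X.neighborSet x).Finite := h.image _
  refine ⟨hfin.subset (bd_singleton_subset X x), ?_⟩
  calc (bd X {x}).ncard ≤ ((fun y => s(x, y)) '' X.neighborSet x).ncard :=
        Set.ncard_le_ncard (bd_singleton_subset X x) hfin
    _ ≤ (X.neighborSet x).ncard := Set.ncard_image_le h
    _ ≤ d := hd

theorem finite_gen {V : Type} (X : SimpleGraph V) (d : ℕ)
    (h : ∀ x, (X.neighborSet x).Finite ∧ (X.neighborSet x).ncard ≤ d) (U : Set V)
    (hU : U.Finite) : Gen (Small X d) U := by
  induction U, hU using Set.Finite.induction_on with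
  | empty => exact Gen.empty
  | @insert a s _ _ ih =>
    rw [Set.insert_eq]
    exact Gen.union (Gen.base _ (singleton_small X d a (h a).1 (h a).2)) ih

end TFA

theorem tfa_proof : Stmt_TFA := by
  intro V X d h hU
  refine ⟨d, fun A hA => ?_⟩
  rcases hU A hA with hf | hf
  · exact TFA.finite_gen X d h A hf
  · exact Gen.of_compl (TFA.finite_gen X d h Aᶜ hf)

end Pool.Agent.ACC
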