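import Pool.Agent.ACC.Lib

/-!
MP_851278_al, module TFF: if `E` generates all finite cuts then all finite cuts of the torsos are
trivial.
-/

set_option autoImplicit false

namespace Pool.Agent.ACC

theorem tff_proof (h1 : Stmt_TFC) (h2 : Stmt_TOE) : Stmt_TFF := by
  intro V X G E v N hE hv hgen U hU
  have hfin : (bd X (tproj v ⁻¹' U)).Finite := ((h2 V X G E v N hE hv U).1 hU).1
  have hsurj : Function.Surjective (tproj v) := Quot.mk_surjective
  have h := h1 V E v hE.toNestSet hv _ (hgen _ hfin)
  rw [← Set.preimage_compl, Set.image_preimage_eq U hsurj,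
    Set.image_preimage_eq Uᶜ hsurj] at h
  exact h

end Pool.Agent.ACC
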