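import Pool.Agent.ACC.Lib

set_option autoImplicit false

namespace Pool.Agent.ACC

theorem toc_proof (h1 : Stmt_HUA) : Stmt_TOC := by
  intro V X G E v N hX hE hv
  obtain ⟨hub, hdis, -, htp⟩ := h1 V E v hE.toNestSet hv
  constructor
  · have key : ∀ (x y : V) (_ : X.Walk x y), (torso X v).Reachable (tproj v x) (tproj v y) := by
      intro x y p
      induction p with
      | nil => exact SimpleGraph.Reachable.refl _
      | @cons a b c hab q ih =>
        by_cases h : tproj v a = tproj v b
        · rw [h]; exact ih
        · have : (torso X v).Adj (tproj v a) (tproj v b) := ⟨h, a, b, hab, rfl, rfl⟩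
          exact this.reachable.trans ih
    obtain ⟨x0⟩ := hX.nonempty
    have : Nonempty (TV v) := ⟨tproj v x0⟩
    refine ⟨?_⟩
    intro s t
    obtain ⟨x, rfl⟩ := Quot.exists_rep s
    obtain ⟨y, rfl⟩ := Quot.exists_rep t
    obtain ⟨p⟩ := hX.preconnected x y
    exact key x y p
  · intro hL t
    obtain ⟨x, rfl⟩ := Quot.exists_rep t
    have ht : (Quot.mk (hubRel (Hub v)) x : TV v) = tproj v x := rfl
    rw [ht]
    by_cases hx : ∃ C ∈ Hub v, x ∈ C
    · obtain ⟨C, hC, hxC⟩ := hx
      have hCE := hub C hC
      have hfin : (bd X C).Finite := (hE.small C hCE).1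
      have hfin2 : {y : V | ∃ x', s(x', y) ∈ bd X C}.Finite := by
        have : (⋃ e ∈ bd X C, {y : V | y ∈ e}).Finite := by
          apply hfin.biUnion
          intro e _
          induction e with
          | _ a b =>
            apply (Set.toFinite ({a, b} : Set V)).subset
            intro y hy
            rw [Set.mem_ofPred_eq, Sym2.mem_iff] at hy
            exact hy
        apply this.subset
        rintro y ⟨x', h⟩
        simp only [Set.mem_iUnion, Set.mem_ofPred_eq]
        exact ⟨s(x', y), h, Sym2.mem_mk_right _ _⟩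
      apply (hfin2.image (tproj v)).subset
      rintro b ⟨hne, x', y', hadj, hx', hy'⟩
      refine ⟨y', ⟨x', ?_⟩, hy'⟩
      rw [htp] at hx'
      have hx'C : x' ∈ C := by
        rcases hx' with rfl | ⟨C', hC', h1, h2⟩
        · exact hxC
        · by_cases h : C' = C
          · rw [← h]; exact h1
          · exact absurd hxC ((Set.disjoint_left.1 (hdis C' hC' C hC h)) h2)
      have hy'C : y' ∉ C := by
        intro h
        apply hne
        rw [← hy', htp]
        exact Or.inr ⟨C, hC, hxC, h⟩
      exact ⟨x', y', hadj, hx'C, hy'C, rfl⟩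
    · apply ((hL x).image (tproj v)).subset
      rintro b ⟨hne, x', y', hadj, hx', hy'⟩
      rw [htp] at hx'
      rcases hx' with rfl | ⟨C', hC', h1, h2⟩
      · exact ⟨y', hadj, hy'⟩
      · exact absurd ⟨C', hC', h2⟩ hx

end Pool.Agent.ACC
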