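import Pool.Agent.ACC.StmtsA
import Pool.Agent.ACC.Lib

set_option autoImplicit false

namespace Pool.Agent.ACC

namespace TOE_

variable {V : Type}

/-- the fibre over an edge of the torso -/
def fib (X : SimpleGraph V) (v : Set (Set V)) (x0 y0 : V) : Set (Sym2 V) :=
  {e | ∃ x y, X.Adj x y ∧ tproj v x = tproj v x0 ∧ tproj v y = tproj v y0 ∧ e = s(x, y)}

lemma fib_bound {X : SimpleGraph V} {G : Subgroup (Equiv.Perm V)} {E v : Set (Set V)} {N : ℕ}
    (hE : NestFam X G E N)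
    (h1 : ∀ C ∈ Hub v, C ∈ E) (h2 : ∀ C ∈ Hub v, ∀ C' ∈ Hub v, C ≠ C' → Disjoint C C')
    (h4 : ∀ x y : V, tproj v x = tproj v y ↔ hubRel (Hub v) x y)
    (x0 y0 : V) (hne : tproj v x0 ≠ tproj v y0) :
    (fib X v x0 y0).Finite ∧ (fib X v x0 y0).ncard ≤ N + 1 := by
  have hsame : ∀ C ∈ Hub v, ∀ x z : V, z ∈ C → tproj v x = tproj v z → x ∈ C := by
    intro C hC x z hz hxz
    rcases (h4 x z).mp hxz with h | ⟨C', hC', hx', hz'⟩
    · rw [h]; exact hz
    · have : C' = C := by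
        by_contra hcc
        exact Set.disjoint_left.mp (h2 C' hC' C hC hcc) hz' hz
      rw [← this]; exact hx'
  have hcls : ∀ C ∈ Hub v, ∀ x z : V, x ∈ C → z ∈ C → tproj v x = tproj v z := by
    intro C hC x z hx hz
    exact (h4 x z).mpr (Or.inr ⟨C, hC, hx, hz⟩)
  by_cases hx : ∃ C ∈ Hub v, x0 ∈ C
  · obtain ⟨C, hC, hxC⟩ := hx
    have hsub : fib X v x0 y0 ⊆ bd X C := by
      rintro e ⟨x, y, hadj, hx, hy, rfl⟩
      refine ⟨x, y, hadj, hsame C hC x x0 hxC hx, ?_, rfl⟩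
      intro hyC
      exact hne ((hcls C hC x0 y hxC hyC).trans hy)
    have hs := hE.small C (h1 C hC)
    refine ⟨hs.1.subset hsub, ?_⟩
    exact (Set.ncard_le_ncard hsub hs.1).trans (hs.2.trans (Nat.le_succ N))
  · by_cases hy : ∃ C ∈ Hub v, y0 ∈ C
    · obtain ⟨C, hC, hyC⟩ := hy
      have hsub : fib X v x0 y0 ⊆ bd X C := by
        rintro e ⟨x, y, hadj, hx', hy', rfl⟩
        refine ⟨y, x, hadj.symm, hsame C hC y y0 hyC hy', ?_, Sym2.eq_swap⟩
        intro hxC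
        exact hne (hx'.symm.trans (hcls C hC x y0 hxC hyC))
      have hs := hE.small C (h1 C hC)
      refine ⟨hs.1.subset hsub, ?_⟩
      exact (Set.ncard_le_ncard hsub hs.1).trans (hs.2.trans (Nat.le_succ N))
    · have hsub : fib X v x0 y0 ⊆ {s(x0, y0)} := by
        rintro e ⟨x, y, hadj, hx', hy', rfl⟩
        have hxx : x = x0 := by
          rcases (h4 x x0).mp hx' with h | ⟨C, hC, -, hz⟩
          · exact h
          · exact absurd ⟨C, hC, hz⟩ hx
        have hyy : y = y0 := by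
          rcases (h4 y y0).mp hy' with h | ⟨C, hC, -, hz⟩
          · exact h
          · exact absurd ⟨C, hC, hz⟩ hy
        rw [hxx, hyy]; rfl
      refine ⟨(Set.finite_singleton _).subset hsub, ?_⟩
      have := Set.ncard_le_ncard hsub (Set.finite_singleton _)
      rw [Set.ncard_singleton] at this
      omega

end TOE_

open TOE_ in
theorem toe_proof (h1 : Stmt_HUA) : Stmt_TOE := by
  classical
  intro V X G E v N hE hv U
  obtain ⟨a1, a2, a3, a4⟩ := h1 V E v hE.toNestSet hv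
  have hmaps : ∀ e ∈ bd X (tproj v ⁻¹' U), Sym2.map (tproj v) e ∈ bd (torso X v) U := by
    rintro e ⟨x, y, hadj, hx, hy, rfl⟩
    refine ⟨tproj v x, tproj v y, ⟨?_, x, y, hadj, rfl, rfl⟩, hx, hy, by simp⟩
    intro h
    apply hy
    show tproj v y ∈ U
    rw [← h]; exact hx
  have hfib : ∀ e' ∈ bd (torso X v) U,
      ({e | e ∈ bd X (tproj v ⁻¹' U) ∧ Sym2.map (tproj v) e = e'}).Finite ∧
      ({e | e ∈ bd X (tproj v ⁻¹' U) ∧ Sym2.map (tproj v) e = e'}).ncard ≤ N + 1 := by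
    rintro e' ⟨a, b, ⟨hab, x0, y0, hadj0, hx0, hy0⟩, ha, hb, rfl⟩
    have hne : tproj v x0 ≠ tproj v y0 := by rw [hx0, hy0]; exact hab
    obtain ⟨hf, hc⟩ := fib_bound hE a1 a2 a4 x0 y0 hne (X := X)
    have hsub : {e | e ∈ bd X (tproj v ⁻¹' U) ∧ Sym2.map (tproj v) e = s(a, b)} ⊆
        fib X v x0 y0 := by
      rintro e ⟨⟨x, y, hadj, hx, hy, rfl⟩, hm⟩
      rw [Sym2.map_mk] at hm
      simp only [Sym2.eq_iff] at hm
      rcases hm with ⟨h, h'⟩ | ⟨h, h'⟩
      · exact ⟨x, y, hadj, by rw [h, hx0], by rw [h', hy0], rfl⟩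
      · exfalso
        apply hb
        rw [← h]; exact hx
    exact ⟨hf.subset hsub, (Set.ncard_le_ncard hsub hf).trans hc⟩
  refine ⟨fun hQ => ?_, fun hP => ?_⟩
  · have hPeq : bd X (tproj v ⁻¹' U) ⊆ ⋃ e' ∈ bd (torso X v) U,
        {e | e ∈ bd X (tproj v ⁻¹' U) ∧ Sym2.map (tproj v) e = e'} := by
      intro e he
      exact Set.mem_biUnion (hmaps e he) ⟨he, rfl⟩
    have hP : (bd X (tproj v ⁻¹' U)).Finite :=
      (hQ.biUnion fun e' he' => (hfib e' he').1).subset hPeq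
    refine ⟨hP, ?_⟩
    rw [Set.ncard_eq_toFinset_card _ hP, Set.ncard_eq_toFinset_card _ hQ]
    refine Finset.card_le_mul_card_image_of_maps_to (f := Sym2.map (tproj v)) ?_ _ ?_
    · intro e he
      rw [Set.Finite.mem_toFinset] at he ⊢
      exact hmaps e he
    · intro e' he'
      rw [Set.Finite.mem_toFinset] at he'
      have h5 := (hfib e' he').2
      rw [Set.ncard_eq_toFinset_card _ (hfib e' he').1] at h5
      refine (Finset.card_le_card ?_).trans h5
      intro e he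
      rw [Finset.mem_filter, Set.Finite.mem_toFinset] at he
      rw [Set.Finite.mem_toFinset]
      exact he
  · refine (hP.image (Sym2.map (tproj v))).subset ?_
    rintro e' ⟨a, b, ⟨hab, x, y, hadj, hx, hy⟩, ha, hb, rfl⟩
    refine ⟨s(x, y), ⟨x, y, hadj, ?_, ?_, rfl⟩, ?_⟩
    · show tproj v x ∈ U
      rw [hx]; exact ha
    · show ¬ tproj v y ∈ U
      rw [hy]; exact hb
    · rw [Sym2.map_mk]
      simp only [Sym2.eq_iff]
      exact Or.inl ⟨hx, hy⟩

end Pool.Agent.ACC
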