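import Pool.Agent.ACC.Lib

/-!
MP_851278_al, module TOG: the induced group acts on the torso with finitely many orbits.
-/

set_option autoImplicit false

namespace Pool.Agent.ACC

namespace TOG_

/-- finitely many representatives inside a given set -/
theorem reps {α β : Type} (P : Set α) (F : Set β) (hF : F.Finite) (T : β → α → Prop)
    (R : α → α → Prop) (h1 : ∀ a ∈ P, ∃ b ∈ F, T b a)
    (h2 : ∀ b, ∀ a ∈ P, ∀ a' ∈ P, T b a → T b a' → R a a') :
    ∃ F' : Set α, F'.Finite ∧ F' ⊆ P ∧ ∀ a ∈ P, ∃ a' ∈ F', R a' a := by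
  classical
  have hc : ∀ b : {b : β // b ∈ F ∧ ∃ a ∈ P, T b a}, ∃ a, a ∈ P ∧ T b.1 a := fun b => b.2.2
  choose c hc1 hc2 using hc
  have hfin : Finite {b : β // b ∈ F ∧ ∃ a ∈ P, T b a} :=
    (hF.subset (fun b (hb : b ∈ F ∧ ∃ a ∈ P, T b a) => hb.1)).to_subtype
  refine ⟨Set.range c, Set.finite_range c, ?_, ?_⟩
  · rintro _ ⟨b, rfl⟩
    exact hc1 b
  · intro a ha
    obtain ⟨b, hb, hT⟩ := h1 a ha
    refine ⟨c ⟨b, hb, a, ha, hT⟩, ⟨_, rfl⟩, ?_⟩
    exact h2 b _ (hc1 _) a ha (hc2 ⟨b, hb, a, ha, hT⟩) hT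

variable {V : Type}

/-- the image of a vertex of the tree is a vertex of the tree -/
theorem vtx_image (E v : Set (Set V)) (g : Equiv.Perm V) (hg : ∀ A ∈ E, g '' A ∈ E)
    (hg' : ∀ A ∈ E, (g⁻¹ : Equiv.Perm V) '' A ∈ E) (hv : IsVtx E v) :
    IsVtx E ((fun A : Set V => g '' A) '' v) := by
  have key : ∀ B : Set V, B ∈ (fun A : Set V => g '' A) '' v ↔ (g⁻¹ : Equiv.Perm V) '' B ∈ v := by
    intro B
    constructor
    · rintro ⟨A, hA, rfl⟩
      show (g⁻¹ : Equiv.Perm V) '' (g '' A) ∈ v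
      rw [image_inv_image]
      exact hA
    · intro h
      exact ⟨_, h, image_image_inv g B⟩
  refine ⟨?_, ?_, ?_, ?_, ?_⟩
  · rintro _ ⟨A, hA, rfl⟩
    exact hg A (hv.sub hA)
  · intro B hB
    rw [key, key, image_compl]
    exact hv.total _ (hg' B hB)
  · intro B hB
    rw [key] at hB ⊢
    rw [image_compl]
    exact hv.excl _ hB
  · intro B hB C hC hBC
    rw [key] at hB ⊢
    exact hv.up _ hB _ (hg' C hC) ((image_subset_image _ _ _).2 hBC)
  · rintro _ ⟨A, hA, rfl⟩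
    obtain ⟨C, hC, hCA, hmin⟩ := hv.wf A hA
    refine ⟨g '' C, ⟨C, hC, rfl⟩, (image_subset_image g C A).2 hCA, ?_⟩
    rintro _ ⟨D, hD, rfl⟩ hDC
    show g '' D = g '' C
    rw [hmin D hD ((image_subset_image g D C).1 hDC)]

/-- hubs are mapped to hubs -/
theorem hub_image (v : Set (Set V)) (g : Equiv.Perm V) (C : Set V) (hC : C ∈ Hub v) :
    g '' C ∈ Hub ((fun A : Set V => g '' A) '' v) := by
  constructor
  · exact ⟨Cᶜ, hC.1, image_compl g C⟩
  · rintro _ ⟨D0, hD0, rfl⟩ hDC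
    have hsub : D0 ⊆ Cᶜ := by
      rw [← image_subset_image g, image_compl]
      exact hDC
    rw [hC.2 D0 hD0 hsub]
    exact image_compl g C

/-- the stabiliser maps hubs to hubs -/
theorem stab_hub (G : Subgroup (Equiv.Perm V)) (v : Set (Set V)) (g : Equiv.Perm V)
    (hg : g ∈ stabV G v) (C : Set V) (hC : C ∈ Hub v) : g '' C ∈ Hub v := by
  have h := hub_image v g C hC
  have hv : (fun A : Set V => g '' A) '' v = v := by
    ext B
    constructor
    · rintro ⟨A, hA, rfl⟩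
      exact (hg.2 A).1 hA
    · intro hB
      refine ⟨(g⁻¹ : Equiv.Perm V) '' B, ?_, image_image_inv g B⟩
      exact (hg.2 _).2 (by rw [image_image_inv]; exact hB)
  rwa [hv] at h

/-- the stabiliser preserves the relation -/
theorem stab_rel (G : Subgroup (Equiv.Perm V)) (v : Set (Set V)) (g : Equiv.Perm V)
    (hg : g ∈ stabV G v) (x y : V) (h : hubRel (Hub v) x y) : hubRel (Hub v) (g x) (g y) := by
  rcases h with rfl | ⟨C, hC, hx, hy⟩
  · exact Or.inl rfl
  · exact Or.inr ⟨g '' C, stab_hub G v g hg C hC, ⟨x, hx, rfl⟩, ⟨y, hy, rfl⟩⟩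

/-- the induced permutation of the torso -/
theorem exists_ind (G : Subgroup (Equiv.Perm V)) (v : Set (Set V)) (g : Equiv.Perm V)
    (hg : g ∈ stabV G v) : ∃ s ∈ torsoG G v, ∀ x, s (tproj v x) = tproj v (g x) := by
  have hg' : g⁻¹ ∈ stabV G v := (stabV G v).inv_mem hg
  let s : Equiv.Perm (TV v) :=
    { toFun := Quot.map g (stab_rel G v g hg)
      invFun := Quot.map (g⁻¹ : Equiv.Perm V) (stab_rel G v g⁻¹ hg')
      left_inv := by
        intro t
        induction t using Quot.ind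
        simp [Quot.map]
      right_inv := by
        intro t
        induction t using Quot.ind
        simp [Quot.map] }
  have hs : ∀ x, s (tproj v x) = tproj v (g x) := fun x => rfl
  exact ⟨s, ⟨g, hg, hs⟩, hs⟩

/-- an element mapping a hub to a hub is in the stabiliser -/
theorem fact (h2 : Stmt_HUD) (X : SimpleGraph V) (G : Subgroup (Equiv.Perm V))
    (E v : Set (Set V)) (N : ℕ) (hE : NestFam X G E N) (hv : IsVtx E v) (g : Equiv.Perm V)
    (hg : g ∈ G) (C : Set V) (hC : C ∈ Hub v) (hgC : g '' C ∈ Hub v) : g ∈ stabV G v := by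
  have hv' := vtx_image E v g (fun A hA => hE.inv g hg A hA)
    (fun A hA => hE.inv g⁻¹ (G.inv_mem hg) A hA) hv
  have h := h2 V E v _ (g '' C) hE.toNestSet hv hv' hgC (hub_image v g C hC)
  refine ⟨hg, fun A => ?_⟩
  constructor
  · intro hA
    rw [h]
    exact ⟨A, hA, rfl⟩
  · intro hA
    rw [h] at hA
    obtain ⟨A0, hA0, hAA⟩ := hA
    have : A0 = A := g.injective.image_injective hAA
    rwa [← this]

/-- description of a vertex with a real point -/
theorem real_pt (E v : Set (Set V)) (hv : IsVtx E v) (x : V) (hx : ∀ C ∈ Hub v, x ∉ C)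
    (B : Set V) : B ∈ v ↔ B ∈ E ∧ x ∈ B := by
  have key : ∀ B ∈ v, x ∈ B := by
    intro B hB
    by_contra hxB
    obtain ⟨C0, hC0, hC0B, hmin⟩ := hv.wf B hB
    have : C0ᶜ ∈ Hub v := by
      refine ⟨by rw [compl_compl]; exact hC0, ?_⟩
      rw [compl_compl]
      exact hmin
    exact hx _ this (fun hxC => hxB (hC0B hxC))
  constructor
  · intro hB
    exact ⟨hv.sub hB, key B hB⟩
  · rintro ⟨hB, hxB⟩
    rcases hv.total B hB with h | h
    · exact h
    · exact absurd hxB (key _ h)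

/-- an element mapping a real point to a real point is in the stabiliser -/
theorem fact' (X : SimpleGraph V) (G : Subgroup (Equiv.Perm V))
    (E v : Set (Set V)) (N : ℕ) (hE : NestFam X G E N) (hv : IsVtx E v) (g : Equiv.Perm V)
    (hg : g ∈ G) (x : V) (hx : ∀ C ∈ Hub v, x ∉ C) (hgx : ∀ C ∈ Hub v, g x ∉ C) :
    g ∈ stabV G v := by
  refine ⟨hg, fun A => ?_⟩
  rw [real_pt E v hv x hx, real_pt E v hv (g x) hgx, g.injective.mem_set_image]
  constructor
  · rintro ⟨h1, h3⟩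
    exact ⟨hE.inv g hg A h1, h3⟩
  · rintro ⟨h1, h3⟩
    refine ⟨?_, h3⟩
    have := hE.inv g⁻¹ (G.inv_mem hg) _ h1
    rwa [image_inv_image] at this

end TOG_

open TOG_ in
theorem tog_proof (h1 : Stmt_HUA) (h2 : Stmt_HUD) : Stmt_TOG := by
  intro V X G E v N hX hG hE hv
  obtain ⟨hubE, hubD, -, htp⟩ := h1 V E v hE.toNestSet hv
  -- representatives of the hubs
  obtain ⟨FE, hFE, -, hFEr⟩ := hE.fin
  obtain ⟨F1, hF1, hF1s, hF1r⟩ := reps (Hub v) FE hFE (fun B C => ∃ g ∈ G, g '' B = C)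
    (fun C C' => ∃ k ∈ stabV G v, k '' C = C')
    (by
      intro C hC
      obtain ⟨g, hg, B, hB, h⟩ := hFEr C (hubE C hC)
      exact ⟨B, hB, g, hg, h⟩)
    (by
      rintro B C hC C' hC' ⟨g, hg, rfl⟩ ⟨g', hg', rfl⟩
      have hk : (g' * g⁻¹ : Equiv.Perm V) '' (g '' B) = g' '' B := by
        rw [← Set.image_comp]
        apply Set.image_congr
        intro x _
        simp
      refine ⟨g' * g⁻¹, ?_, hk⟩
      apply fact h2 X G E v N hE hv _ (G.mul_mem hg' (G.inv_mem hg)) (g '' B) hC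
      rw [hk]
      exact hC')
  refine ⟨?_, ?_, ?_⟩
  · -- automorphisms
    rintro s ⟨g, hg, hs⟩ a b
    constructor
    · rintro ⟨hab, x', y', hadj, hx, hy⟩
      refine ⟨fun h => hab (by rw [h]), (g⁻¹ : Equiv.Perm V) x', (g⁻¹ : Equiv.Perm V) y', ?_, ?_, ?_⟩
      · exact (adj_inv (hG g hg.1) x' y').2 hadj
      · apply s.injective
        rw [hs, ← hx]
        simp
      · apply s.injective
        rw [hs, ← hy]
        simp
    · rintro ⟨hab, x, y, hadj, rfl, rfl⟩
      refine ⟨fun h => hab (s.injective h), g x, g y, (hG g hg.1 x y).2 hadj, (hs x).symm,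
        (hs y).symm⟩
  · -- vertices
    rintro ⟨FV, hFV, hFVr⟩
    obtain ⟨F2, hF2, hF2s, hF2r⟩ := reps {x : V | ∀ C ∈ Hub v, x ∉ C} FV hFV
      (fun y x => ∃ g ∈ G, g y = x) (fun x x' => ∃ k ∈ stabV G v, k x = x')
      (by
        intro x _
        obtain ⟨g, hg, y, hy, h⟩ := hFVr x
        exact ⟨y, hy, g, hg, h⟩)
      (by
        rintro y x hx x' hx' ⟨g, hg, rfl⟩ ⟨g', hg', rfl⟩
        have hk : (g' * g⁻¹ : Equiv.Perm V) (g y) = g' y := by simp
        refine ⟨g' * g⁻¹, ?_, hk⟩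
        apply fact' X G E v N hE hv _ (G.mul_mem hg' (G.inv_mem hg)) (g y) hx
        rw [hk]
        exact hx')
    classical
    have hne : ∀ C ∈ Hub v, C.Nonempty := fun C hC => hE.ne C (hubE C hC)
    haveI : Nonempty V := hX.nonempty
    choose! pt hpt using hne
    refine ⟨(fun C => tproj v (pt C)) '' F1 ∪ tproj v '' F2, (hF1.image _).union (hF2.image _), ?_⟩
    intro t
    obtain ⟨x, rfl⟩ : ∃ x, tproj v x = t := Quot.exists_rep t
    by_cases hx : ∀ C ∈ Hub v, x ∉ C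
    · obtain ⟨x0, hx0, k, hk, hkx⟩ := hF2r x hx
      obtain ⟨s, hs, hsx⟩ := exists_ind G v k hk
      refine ⟨s, hs, tproj v x0, Or.inr ⟨x0, hx0, rfl⟩, ?_⟩
      rw [hsx, hkx]
    · push Not at hx
      obtain ⟨C, hC, hxC⟩ := hx
      obtain ⟨C0, hC0, k, hk, hkC⟩ := hF1r C hC
      obtain ⟨s, hs, hsx⟩ := exists_ind G v k hk
      refine ⟨s, hs, tproj v (pt C0), Or.inl ⟨C0, hC0, rfl⟩, ?_⟩
      rw [hsx, htp]
      refine Or.inr ⟨C, hC, ?_, hxC⟩
      rw [← hkC]
      exact ⟨pt C0, hpt C0 (hF1s hC0), rfl⟩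
  · -- edges
    rintro ⟨FD, hFD, hFDr⟩
    obtain ⟨F3, hF3, hF3s, hF3r⟩ := reps {e : Sym2 V | e ∈ X.edgeSet ∧ ∀ x ∈ e, ∀ C ∈ Hub v, x ∉ C}
      FD hFD (fun f e => ∃ g ∈ G, Sym2.map g f = e) (fun e e' => ∃ k ∈ stabV G v, Sym2.map k e = e')
      (by
        rintro e ⟨he, _⟩
        obtain ⟨g, hg, f, hf, h⟩ := hFDr e he
        exact ⟨f, hf, g, hg, h⟩)
      (by
        rintro f e ⟨_, he⟩ e' ⟨_, he'⟩ ⟨g, hg, rfl⟩ ⟨g', hg', rfl⟩
        induction f with
        | _ x y =>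
          have hk : (g' * g⁻¹ : Equiv.Perm V) (g x) = g' x := by simp
          have hk2 : (g' * g⁻¹ : Equiv.Perm V) (g y) = g' y := by simp
          refine ⟨g' * g⁻¹, ?_, ?_⟩
          · apply fact' X G E v N hE hv _ (G.mul_mem hg' (G.inv_mem hg)) (g x)
            · exact he (g x) (by rw [Sym2.map_mk]; exact Sym2.mem_mk_left _ _)
            · rw [hk]
              exact he' (g' x) (by rw [Sym2.map_mk]; exact Sym2.mem_mk_left _ _)
          · rw [Sym2.map_mk, Sym2.map_mk, Sym2.map_mk, hk, hk2])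
    refine ⟨(⋃ C0 ∈ F1, Sym2.map (tproj v) '' bd X C0) ∪ Sym2.map (tproj v) '' F3, ?_, ?_⟩
    · refine Set.Finite.union ?_ (hF3.image _)
      refine hF1.biUnion (fun C0 hC0 => ?_)
      exact (hE.small C0 (hubE C0 (hF1s hC0))).1.image _
    · intro e
      induction e with
      | _ a b =>
        rintro ⟨hab, x, y, hadj, rfl, rfl⟩
        by_cases hC : ∃ C ∈ Hub v, s(x, y) ∈ bd X C
        · obtain ⟨C, hC, hxy⟩ := hC
          obtain ⟨C0, hC0, k, hk, hkC⟩ := hF1r C hC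
          obtain ⟨s, hs, hsx⟩ := exists_ind G v k hk
          rw [← hkC, bd_image X k (hG k hk.1)] at hxy
          obtain ⟨f, hf, hfe⟩ := hxy
          refine ⟨s, hs, Sym2.map (tproj v) f, Or.inl ?_, ?_⟩
          · exact Set.mem_biUnion hC0 ⟨f, hf, rfl⟩
          · rw [Sym2.map_map]
            have hcomp : (s : TV v → TV v) ∘ tproj v = tproj v ∘ k := by
              funext z
              exact hsx z
            rw [hcomp, ← Sym2.map_map, hfe, Sym2.map_mk]
        · have hout : ∀ a' b' : V, X.Adj a' b' → tproj v a' ≠ tproj v b' →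
              (¬ ∃ C ∈ Hub v, s(a', b') ∈ bd X C) → ∀ C ∈ Hub v, a' ∉ C := by
            intro a' b' hadj' hne hnC C hC haC
            by_cases hbC : b' ∈ C
            · exact hne ((htp a' b').2 (Or.inr ⟨C, hC, haC, hbC⟩))
            · exact hnC ⟨C, hC, (mem_bd_iff X C a' b').2 ⟨hadj', Or.inl ⟨haC, hbC⟩⟩⟩
          have hx := hout x y hadj hab hC
          have hy := hout y x hadj.symm hab.symm (by
            rintro ⟨C, hC', h⟩
            exact hC ⟨C, hC', by rw [Sym2.eq_swap]; exact h⟩)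
          have hmem : s(x, y) ∈ {e : Sym2 V | e ∈ X.edgeSet ∧ ∀ x ∈ e, ∀ C ∈ Hub v, x ∉ C} := by
            refine ⟨hadj, ?_⟩
            intro z hz
            rw [Sym2.mem_iff] at hz
            rcases hz with rfl | rfl
            · exact hx
            · exact hy
          obtain ⟨f, hf, k, hk, hfe⟩ := hF3r _ hmem
          obtain ⟨s, hs, hsx⟩ := exists_ind G v k hk
          refine ⟨s, hs, Sym2.map (tproj v) f, Or.inr ⟨f, hf, rfl⟩, ?_⟩
          rw [Sym2.map_map]
          have hcomp : (s : TV v → TV v) ∘ tproj v = tproj v ∘ k := by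
            funext z
            exact hsx z
          rw [hcomp, ← Sym2.map_map, hfe, Sym2.map_mk]

end Pool.Agent.ACC
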