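import Pool.Agent.ACC.Lib

/-!
MP_851278_al, Part I: a cut nested with all of `E` lives in a torso.
-/

set_option autoImplicit false

namespace Pool.Agent.ACC

theorem tov_proof : Stmt_TOV := by
  intro V X G E N hE A hA hAc hAE hn
  obtain ⟨a, ha⟩ := hA
  obtain ⟨a', ha'⟩ := hAc
  refine ⟨{B | B ∈ E ∧ (Bᶜ ⊆ A ∨ Bᶜ ⊆ Aᶜ)}, ⟨?_, ?_, ?_, ?_, ?_⟩, ?_⟩
  · intro B hB
    exact hB.1
  · intro B hB
    rcases hn B hB with h | h | h | h
    · exact Or.inl ⟨hB, Or.inr (Set.compl_subset_compl.2 h)⟩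
    · refine Or.inr ⟨hE.compl B hB, Or.inr ?_⟩
      rw [compl_compl]
      exact Set.subset_compl_comm.1 h
    · exact Or.inl ⟨hB, Or.inl (Set.compl_subset_comm.1 h)⟩
    · refine Or.inr ⟨hE.compl B hB, Or.inl ?_⟩
      rw [compl_compl]
      exact Set.compl_subset_compl.1 h
  · rintro B ⟨hB, h⟩ ⟨hBc, h'⟩
    rw [compl_compl] at h'
    rcases h with h | h <;> rcases h' with h' | h'
    · by_cases hx : a' ∈ B
      · exact ha' (h' hx)
      · exact ha' (h hx)
    · have : Bᶜ = A := Set.Subset.antisymm h (Set.subset_compl_comm.1 h')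
      rw [this] at hBc
      exact hAE hBc
    · have : B = A := Set.Subset.antisymm h' (Set.compl_subset_compl.1 h)
      rw [this] at hB
      exact hAE hB
    · by_cases hx : a ∈ B
      · exact h' hx ha
      · exact h hx ha
  · rintro B ⟨hB, h⟩ C hC hBC
    refine ⟨hC, ?_⟩
    have hc : Cᶜ ⊆ Bᶜ := Set.compl_subset_compl.2 hBC
    rcases h with h | h
    · exact Or.inl (hc.trans h)
    · exact Or.inr (hc.trans h)
  · rintro B ⟨hB, h⟩
    obtain ⟨x, hx⟩ := hE.ne Bᶜ (hE.compl B hB)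
    have hfin : {D | D ∈ {B | B ∈ E ∧ (Bᶜ ⊆ A ∨ Bᶜ ⊆ Aᶜ)} ∧ D ⊆ B}.Finite := by
      rcases h with h | h
      · refine (hE.lf a' x).subset ?_
        rintro D ⟨⟨hD, h'⟩, hDB⟩
        have hxD : x ∉ D := fun h => hx (hDB h)
        refine ⟨hD, ?_, hxD⟩
        by_contra hy
        rcases h' with h' | h'
        · exact ha' (h' hy)
        · exact (h' hxD) (h hx)
      · refine (hE.lf a x).subset ?_
        rintro D ⟨⟨hD, h'⟩, hDB⟩
        have hxD : x ∉ D := fun h => hx (hDB h)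
        refine ⟨hD, ?_, hxD⟩
        by_contra hy
        rcases h' with h' | h'
        · exact (h hx) (h' hxD)
        · exact h' hy ha
    obtain ⟨C, hC⟩ := hfin.exists_minimal ⟨B, ⟨hB, h⟩, subset_rfl⟩
    refine ⟨C, hC.prop.1, hC.prop.2, ?_⟩
    intro D hD hDC
    exact Set.Subset.antisymm hDC (hC.le_of_le ⟨hD, hDC.trans hC.prop.2⟩ hDC)
  · intro C hC
    have h := hC.1.2
    rw [compl_compl] at h
    exact h

end Pool.Agent.ACC
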