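import Pool.Agent.ACC.Lib

/-!
MP_851278_al, Part I: `vof E A` is a vertex of the structure tree.
-/

set_option autoImplicit false

namespace Pool.Agent.ACC

theorem vab_proof : Stmt_VAB := by
  intro V E A hE hlf hA
  have hAc := hE.compl A hA
  obtain ⟨a, ha⟩ := hE.ne A hA
  obtain ⟨a', ha'⟩ := hE.ne Aᶜ hAc
  have hv : ∀ B, B ∈ vof E A ↔ B ∈ E ∧ (A ⊆ B ∨ (Aᶜ ⊆ B ∧ B ≠ Aᶜ)) := fun B => Iff.rfl
  have hAv : A ∈ vof E A := (hv A).2 ⟨hA, Or.inl subset_rfl⟩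
  refine ⟨⟨?_, ?_, ?_, ?_, ?_⟩, ?_⟩
  · intro B hB
    exact hB.1
  · intro B hB
    rcases hE.nested A hA B hB with h | h | h | h
    · exact Or.inl ((hv B).2 ⟨hB, Or.inl h⟩)
    · exact Or.inr ((hv Bᶜ).2 ⟨hE.compl B hB, Or.inl h⟩)
    · by_cases hBA : B = Aᶜ
      · right
        rw [hBA, compl_compl]
        exact hAv
      · exact Or.inl ((hv B).2 ⟨hB, Or.inr ⟨h, hBA⟩⟩)
    · by_cases hBA : Bᶜ = Aᶜ
      · left
        have : B = A := compl_injective hBA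
        rw [this]
        exact hAv
      · exact Or.inr ((hv Bᶜ).2 ⟨hE.compl B hB, Or.inr ⟨h, hBA⟩⟩)
  · rintro B ⟨hB, h⟩ ⟨hBc, h'⟩
    rcases h with h | ⟨h, hne⟩
    · rcases h' with h' | ⟨h', hne'⟩
      · exact h' ha (h ha)
      · exact hne' (by rw [Set.Subset.antisymm (Set.compl_subset_compl.1 h') h])
    · rcases h' with h' | ⟨h', hne'⟩
      · exact hne (Set.Subset.antisymm (Set.subset_compl_comm.1 h') h)
      · exact h' ha' (h ha')
  · rintro B ⟨hB, h⟩ C hC hBC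
    refine ⟨hC, ?_⟩
    rcases h with h | ⟨h, hne⟩
    · exact Or.inl (h.trans hBC)
    · refine Or.inr ⟨h.trans hBC, ?_⟩
      intro hCA
      rw [hCA] at hBC
      exact hne (Set.Subset.antisymm hBC h)
  · intro B hB
    obtain ⟨x, hx⟩ := hE.ne Bᶜ (hE.compl B hB.1)
    have hfin : {D | D ∈ vof E A ∧ D ⊆ B}.Finite := by
      refine ((hlf a x).union (hlf a' x)).subset ?_
      rintro D ⟨⟨hD, h⟩, hDB⟩
      have hxD : x ∉ D := fun h => hx (hDB h)
      rcases h with h | ⟨h, -⟩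
      · exact Or.inl ⟨hD, h ha, hxD⟩
      · exact Or.inr ⟨hD, h ha', hxD⟩
    obtain ⟨C, hC⟩ := hfin.exists_minimal ⟨B, hB, subset_rfl⟩
    refine ⟨C, hC.prop.1, hC.prop.2, ?_⟩
    intro D hD hDC
    exact Set.Subset.antisymm hDC (hC.le_of_le ⟨hD, hDC.trans hC.prop.2⟩ hDC)
  · refine ⟨?_, ?_⟩
    · rw [compl_compl]
      exact hAv
    · rw [compl_compl]
      rintro D ⟨hD, h⟩ hDA
      rcases h with h | ⟨h, -⟩
      · exact Set.Subset.antisymm hDA h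
      · exact absurd (hDA (h ha')) ha'

end Pool.Agent.ACC
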