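import Pool.Agent.ACC.Lib

set_option autoImplicit false

namespace Pool.Agent.ACC

namespace VOR_

/-- the cell map -/
def cell {V V' : Type} (o : V' → V) : V' ⊕ V → V
  | Sum.inl z => o z
  | Sum.inr x => x

/-- the quotient graph -/
def quo {V W : Type} (H : SimpleGraph W) (c : W → V) : SimpleGraph V where
  Adj x y := x ≠ y ∧ ∃ a b, c a = x ∧ c b = y ∧ H.Adj a b
  symm := by
    constructor
    rintro x y ⟨hxy, a, b, ha, hb, h⟩
    exact ⟨hxy.symm, b, a, hb, ha, h.symm⟩
  loopless := by
    constructor
    rintro a ⟨h, -⟩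
    exact h rfl

lemma quo_walk {V W : Type} (H : SimpleGraph W) (c : W → V) {a b : W} (p : H.Walk a b) :
    ∃ w : (quo H c).Walk (c a) (c b), w.length ≤ p.length := by
  induction p with
  | nil => exact ⟨SimpleGraph.Walk.nil, le_rfl⟩
  | @cons u v w h p ih =>
    obtain ⟨w', hw'⟩ := ih
    by_cases hc : c u = c v
    · rw [hc]
      refine ⟨w', ?_⟩
      rw [SimpleGraph.Walk.length_cons]
      omega
    · have hadj : (quo H c).Adj (c u) (c v) := ⟨hc, u, v, rfl, rfl, h⟩
      refine ⟨SimpleGraph.Walk.cons hadj w', ?_⟩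
      rw [SimpleGraph.Walk.length_cons, SimpleGraph.Walk.length_cons]
      omega

lemma exists_r {V V' : Type} (G' : SimpleGraph V') (q : V → V') (x0 : V) (z : V') :
    ∃ n : ℕ, (∃ x, G'.dist z (q x) = n) ∧ ∀ x, n ≤ G'.dist z (q x) := by
  classical
  have h : ∃ n, ∃ x, G'.dist z (q x) = n := ⟨_, x0, rfl⟩
  refine ⟨Nat.find h, Nat.find_spec h, fun x => Nat.find_min' h ⟨x, rfl⟩⟩

lemma exists_step {V V' : Type} (G' : SimpleGraph V') (q : V → V') (hG : G'.Connected)
    (r : V' → ℕ) (hr1 : ∀ z, ∃ x, G'.dist z (q x) = r z) (hr2 : ∀ z x, r z ≤ G'.dist z (q x))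
    (z : V') :
    ∃ z', (r z = 0 → z' = z) ∧ (r z ≠ 0 → G'.Adj z z' ∧ r z' + 1 = r z) := by
  by_cases h0 : r z = 0
  · exact ⟨z, fun _ => rfl, fun h => absurd h0 h⟩
  · obtain ⟨x, hx⟩ := hr1 z
    obtain ⟨p, hp⟩ := hG.exists_walk_length_eq_dist z (q x)
    cases p with
    | nil =>
      rw [SimpleGraph.Walk.length_nil] at hp
      omega
    | @cons _ z' _ h p =>
      rw [SimpleGraph.Walk.length_cons] at hp
      refine ⟨z', fun h' => absurd h' h0, fun _ => ⟨h, ?_⟩⟩
      have h1 : r z' ≤ p.length := le_trans (hr2 z' x) (SimpleGraph.dist_le p)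
      obtain ⟨x', hx'⟩ := hr1 z'
      have h2 : G'.dist z (q x') ≤ G'.dist z z' + G'.dist z' (q x') := hG.dist_triangle
      have h3 : G'.dist z z' ≤ 1 := by
        have := SimpleGraph.dist_le (SimpleGraph.Walk.cons h SimpleGraph.Walk.nil)
        simpa using this
      have h4 := hr2 z x'
      omega

lemma dist_iter {V' : Type} (G' : SimpleGraph V') (hG : G'.Connected) (step : V' → V')
    (hs : ∀ z, step z = z ∨ G'.Adj z (step z)) (n : ℕ) (z : V') :
    G'.dist z (step^[n] z) ≤ n := by
  induction n with
  | zero => simp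
  | succ n ih =>
    rw [Function.iterate_succ_apply']
    have h1 : G'.dist z (step (step^[n] z)) ≤ G'.dist z (step^[n] z) +
        G'.dist (step^[n] z) (step (step^[n] z)) := hG.dist_triangle
    have h2 : G'.dist (step^[n] z) (step (step^[n] z)) ≤ 1 := by
      rcases hs (step^[n] z) with h | h
      · rw [h]; simp
      · have := SimpleGraph.dist_le (SimpleGraph.Walk.cons h SimpleGraph.Walk.nil)
        simpa using this
    omega

end VOR_

open VOR_ in
theorem vor_proof : Stmt_VOR := by
  classical
  intro V V' X G' q C hX hG hq hdense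
  obtain ⟨x0⟩ := hX.nonempty
  choose r hr1 hr2 using exists_r G' q x0
  choose step hst0 hst1 using exists_step G' q hG r hr1 hr2
  have hrC : ∀ z, r z ≤ C := fun z => by
    obtain ⟨x, hx⟩ := hdense z
    exact le_trans (hr2 z x) hx
  have hriter : ∀ n z, r (step^[n] z) = r z - n := by
    intro n
    induction n with
    | zero => intro z; simp
    | succ n ih =>
      intro z
      rw [Function.iterate_succ_apply']
      by_cases h0 : r (step^[n] z) = 0
      · rw [hst0 _ h0, h0]
        have := ih z
        omega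
      · have h1 := (hst1 _ h0).2
        have := ih z
        omega
  have hr0 : ∀ z, r (step^[C] z) = 0 := fun z => by
    rw [hriter]
    have := hrC z
    omega
  have hfix : ∀ z, step^[C] (step z) = step^[C] z := fun z => by
    rw [← Function.iterate_succ_apply, Function.iterate_succ_apply']
    exact hst0 _ (hr0 z)
  have hfix0 : ∀ z, r z = 0 → step^[C] z = z := by
    intro z hz
    have : ∀ n, step^[n] z = z := by
      intro n
      induction n with
      | zero => rfl
      | succ n ih => rw [Function.iterate_succ_apply', ih, hst0 z hz]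
    exact this C
  have hg : ∀ y, ∃ x, r y = 0 → q x = y := by
    intro y
    by_cases hy : r y = 0
    · obtain ⟨x, hx⟩ := hr1 y
      refine ⟨x, fun _ => ?_⟩
      rw [hy] at hx
      exact ((hG.dist_eq_zero_iff).mp hx).symm
    · exact ⟨x0, fun h => absurd h hy⟩
  choose g hg using hg
  obtain ⟨o, ho⟩ : ∃ o : V' → V, o = fun z => g (step^[C] z) := ⟨_, rfl⟩
  have hqo : ∀ z, q (o z) = step^[C] z := fun z => by
    rw [ho]
    exact hg _ (hr0 z)
  have host : ∀ z, o (step z) = o z := fun z => by
    rw [ho]
    show g (step^[C] (step z)) = g (step^[C] z)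
    rw [hfix]
  have hoq : ∀ y, q (o (q y)) = q y := fun y => by
    rw [hqo]
    apply hfix0
    have := hr2 (q y) y
    rw [SimpleGraph.dist_self] at this
    omega
  have hdo : ∀ z, G'.dist z (q (o z)) ≤ C := fun z => by
    rw [hqo]
    apply dist_iter G' hG step
    intro z
    by_cases h0 : r z = 0
    · exact Or.inl (hst0 z h0)
    · exact Or.inr (hst1 z h0).1
  obtain ⟨K, hK⟩ : ∃ K : V → Set (V' ⊕ V), K = fun x => {a | cell o a = x} := ⟨_, rfl⟩
  have hmem : ∀ a x, a ∈ K x ↔ cell o a = x := fun a x => by rw [hK]; rfl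
  refine ⟨C * (2 * C + 1) + C + 1, C * (C * (2 * C + 1) + C + 1) + C + 2,
    quo (leafG G' q) (cell o), K, by omega, ?_, ?_, ?_, ?_, ?_, ?_⟩
  · -- connected cells
    intro x
    rw [SimpleGraph.connected_iff_exists_forall_reachable]
    have hx : (Sum.inr x : V' ⊕ V) ∈ K x := (hmem _ _).2 rfl
    refine ⟨⟨Sum.inr x, hx⟩, ?_⟩
    have key : ∀ n z, r z = n → ∀ hz : (Sum.inl z : V' ⊕ V) ∈ K x,
        ((leafG G' q).induce (K x)).Reachable ⟨Sum.inr x, hx⟩ ⟨Sum.inl z, hz⟩ := by
      intro n
      induction n with
      | zero =>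
        intro z hz0 hz
        have h1 : o z = x := (hmem _ _).1 hz
        have h2 : z = q x := by
          rw [← h1, hqo, hfix0 z hz0]
        apply SimpleGraph.Adj.reachable
        show (leafG G' q).Adj (Sum.inr x) (Sum.inl z)
        exact h2
      | succ n ih =>
        intro z hzn hz
        have h0 : r z ≠ 0 := by omega
        have h1 : o z = x := (hmem _ _).1 hz
        have h2 : (Sum.inl (step z) : V' ⊕ V) ∈ K x := by
          rw [hmem]
          show o (step z) = x
          rw [host, h1]
        have h3 := ih (step z) (by have := (hst1 z h0).2; omega) h2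
        refine h3.trans ?_
        apply SimpleGraph.Adj.reachable
        show (leafG G' q).Adj (Sum.inl (step z)) (Sum.inl z)
        exact (hst1 z h0).1.symm
    rintro ⟨w, hw⟩
    rcases w with z | y
    · exact key (r z) z rfl hw
    · have : y = x := (hmem _ _).1 hw
      subst this
      exact SimpleGraph.Reachable.refl _
  · intro x y hxy
    rw [Set.disjoint_left]
    intro a ha hb
    rw [hmem] at ha hb
    exact hxy (ha.symm.trans hb)
  · rintro x y ⟨-, a, b, ha, hb, h⟩
    exact ⟨a, (hmem _ _).2 ha, b, (hmem _ _).2 hb, h⟩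
  · -- Y is a subgraph of the power
    rintro x y ⟨hxy, a, b, ha, hb, h⟩
    refine ⟨hxy, hX.preconnected x y, ?_⟩
    have hd : G'.dist (q x) (q y) ≤ 2 * C + 1 := by
      rcases a with a | a <;> rcases b with b | b
      · have ha' : o a = x := ha
        have hb' : o b = y := hb
        have hab : G'.Adj a b := h
        have h1 := hdo a
        have h2 := hdo b
        rw [ha'] at h1
        rw [hb'] at h2
        have h3 : G'.dist (q x) (q y) ≤ G'.dist (q x) a + G'.dist a (q y) := hG.dist_triangle
        have h4 : G'.dist a (q y) ≤ G'.dist a b + G'.dist b (q y) := hG.dist_triangle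
        have h5 : G'.dist a b ≤ 1 := by
          have := SimpleGraph.dist_le (SimpleGraph.Walk.cons hab SimpleGraph.Walk.nil)
          simpa using this
        have h6 : G'.dist (q x) a = G'.dist a (q x) := SimpleGraph.dist_comm
        omega
      · have ha' : o a = x := ha
        have hb' : b = y := hb
        have hab : a = q b := h
        have h1 := hoq b
        rw [← hab, ha', hab, hb'] at h1
        rw [h1, SimpleGraph.dist_self]
        omega
      · have ha' : a = x := ha
        have hb' : o b = y := hb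
        have hab : b = q a := h
        have h1 := hoq a
        rw [← hab, hb', hab, ha'] at h1
        rw [h1, SimpleGraph.dist_self]
        omega
      · exact absurd h (fun h => h)
    have h1 := (hq x y).2
    have h2 : C * G'.dist (q x) (q y) ≤ C * (2 * C + 1) := Nat.mul_le_mul_left C hd
    omega
  · -- Y is connected
    have hw : ∀ x y, (quo (leafG G' q) (cell o)).Reachable x y := by
      intro x y
      obtain ⟨p, hp⟩ := hG.exists_walk_length_eq_dist (q x) (q y)
      let f : G' →g leafG G' q := ⟨Sum.inl, fun h => h⟩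
      have e1 : (leafG G' q).Adj (Sum.inr x) (f (q x)) := rfl
      have e2 : (leafG G' q).Adj (f (q y)) (Sum.inr y) := rfl
      obtain ⟨w, -⟩ := quo_walk (leafG G' q) (cell o)
        (SimpleGraph.Walk.cons e1 ((p.map f).append (SimpleGraph.Walk.cons e2 SimpleGraph.Walk.nil)))
      exact ⟨w⟩
    have : Nonempty V := ⟨x0⟩
    exact ⟨hw⟩
  · intro x y hxy
    obtain ⟨-, -, hd⟩ := hxy
    obtain ⟨p, hp⟩ := hG.exists_walk_length_eq_dist (q x) (q y)
    let f : G' →g leafG G' q := ⟨Sum.inl, fun h => h⟩
    have e1 : (leafG G' q).Adj (Sum.inr x) (f (q x)) := rfl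
    have e2 : (leafG G' q).Adj (f (q y)) (Sum.inr y) := rfl
    obtain ⟨w, hw⟩ := quo_walk (leafG G' q) (cell o)
      (SimpleGraph.Walk.cons e1 ((p.map f).append (SimpleGraph.Walk.cons e2 SimpleGraph.Walk.nil)))
    have h1 : (quo (leafG G' q) (cell o)).dist x y ≤ w.length := SimpleGraph.dist_le w
    rw [SimpleGraph.Walk.length_cons, SimpleGraph.Walk.length_append, SimpleGraph.Walk.length_map,
      SimpleGraph.Walk.length_cons, SimpleGraph.Walk.length_nil] at hw
    have h2 := (hq x y).1
    have h3 : C * X.dist x y ≤ C * (C * (2 * C + 1) + C + 1) := Nat.mul_le_mul_left C hd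
    omega

end Pool.Agent.ACC
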