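import Pool.Agent.ACC.Lib

/-!
MP_851278_al, Part I: bonds are connected by the closed walks in `W`.
-/

set_option autoImplicit false

namespace Pool.Agent.ACC

theorem wcb_proof (h1 : Stmt_CEV) : Stmt_WCB := by
  classical
  intro V X W E hX hW hC hE A hA D1 D2 hU hd hn1 hn2
  by_contra hno
  have hb := hE A hA
  have hD1 : D1 ⊆ bd X A := by
    rw [← hU]
    exact Set.subset_union_left
  have hD2 : D2 ⊆ bd X A := by
    rw [← hU]
    exact Set.subset_union_right
  have heven : ∀ l ∈ W, Even (cnt D1 l) := by
    intro l hl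
    by_cases hm : ∃ e ∈ l, e ∈ D1
    · have e1 : cnt D1 l = cnt (bd X A) l := by
        unfold cnt
        refine List.countP_congr ?_
        intro e he
        rw [decide_eq_true_iff, decide_eq_true_iff]
        constructor
        · intro h
          exact hD1 h
        · intro h
          rw [← hU] at h
          rcases h with h | h
          · exact h
          · exact absurd ⟨l, hl, hm, e, he, h⟩ hno
      rw [e1]
      exact h1 V X A l (hW l hl)
    · have e1 : cnt D1 l = 0 := by
        unfold cnt
        rw [List.countP_eq_zero]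
        intro e he
        rw [decide_eq_true_iff]
        intro h
        exact hm ⟨e, he, h⟩
      rw [e1]
      exact Even.zero
  obtain ⟨A1, hA1⟩ := hC D1 (hb.1.subset hD1) (hD1.trans (bd_subset_edgeSet X A)) heven
  have s1 : A ⊆ A1 ∨ A ⊆ A1ᶜ := by
    refine subset_or_subset_compl hb.2.1 ?_
    intro x hx y hy _ hm
    rw [hA1] at hm
    have := (mem_bd_iff X A x y).1 (hD1 hm)
    tauto
  have s2 : Aᶜ ⊆ A1 ∨ Aᶜ ⊆ A1ᶜ := by
    refine subset_or_subset_compl hb.2.2 ?_
    intro x hx y hy _ hm
    rw [hA1] at hm
    have := (mem_bd_iff X A x y).1 (hD1 hm)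
    simp only [Set.mem_compl_iff] at hx hy
    tauto
  have fin1 : bd X A1 ≠ ∅ := by
    rw [hA1]
    exact hn1.ne_empty
  have fin2 : bd X A1 ≠ bd X A := by
    rw [hA1]
    intro h
    obtain ⟨e, he⟩ := hn2
    have he1 : e ∈ D1 := by
      rw [h]
      exact hD2 he
    exact Set.disjoint_left.1 hd he1 he
  rcases s1 with s1 | s1 <;> rcases s2 with s2 | s2
  · have : A1 = Set.univ := by
      rw [Set.eq_univ_iff_forall]
      intro x
      by_cases hx : x ∈ A
      · exact s1 hx
      · exact s2 hx
    rw [this] at fin1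
    exact fin1 (bd_univ X)
  · have : A1 = A := Set.Subset.antisymm (Set.compl_subset_compl.1 s2) s1
    exact fin2 (by rw [this])
  · have : A1 = Aᶜ := Set.Subset.antisymm (Set.subset_compl_comm.1 s1) s2
    exact fin2 (by rw [this, bd_compl])
  · have : A1 = ∅ := by
      rw [Set.eq_empty_iff_forall_notMem]
      intro x hx
      by_cases hxA : x ∈ A
      · exact s1 hxA hx
      · exact s2 hxA hx
    rw [this] at fin1
    exact fin1 (bd_empty X)

end Pool.Agent.ACC
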