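import Pool.Agent.ACC.Lib

/-!
MP_851278_al, module ZCC: the traces of the vertices of the tree are coarsely connected,
uniformly.
-/

set_option autoImplicit false

namespace Pool.Agent.ACC

namespace ZCC

variable {V : Type}

/-- end points of boundary edges -/
def ends (X : SimpleGraph V) (C : Set V) : Set V := {x | ∃ y, s(x, y) ∈ bd X C}

theorem ends_finite {X : SimpleGraph V} {C : Set V} (h : (bd X C).Finite) :
    (ends X C).Finite := by
  have h1 : (⋃ e ∈ bd X C, {x : V | x ∈ e}).Finite := by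
    refine Set.Finite.biUnion h fun e _ => ?_
    induction e with
    | _ a b =>
      refine (Set.toFinite ({a, b} : Set V)).subset ?_
      intro x hx
      simpa using hx
  refine h1.subset ?_
  rintro x ⟨y, hy⟩
  simp only [Set.mem_iUnion]
  exact ⟨s(x, y), hy, Sym2.mem_mk_left x y⟩

theorem dist_image_le {X : SimpleGraph V} (hX : X.Connected) {g : Equiv.Perm V}
    (hg : ∀ x y, X.Adj (g x) (g y) ↔ X.Adj x y) (x y : V) :
    X.dist (g x) (g y) ≤ X.dist x y := by
  obtain ⟨p, hp⟩ := hX.exists_walk_length_eq_dist x y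
  let f : X →g X := ⟨g, fun {a b} h => (hg a b).2 h⟩
  have := SimpleGraph.dist_le (p.map f)
  rw [SimpleGraph.Walk.length_map, hp] at this
  exact this

/-- the diameter of the boundaries is bounded -/
theorem diam {X : SimpleGraph V} {G : Subgroup (Equiv.Perm V)} {E : Set (Set V)} {N : ℕ}
    (hX : X.Connected) (hG : IsAut X G) (hE : NestFam X G E N) :
    ∃ c : ℕ, 1 ≤ c ∧ ∀ C ∈ E, ∀ x ∈ ends X C, ∀ y ∈ ends X C, X.dist x y ≤ c := by
  obtain ⟨F, hF, hFE, hrep⟩ := hE.fin
  have hfin : (⋃ B ∈ F, ends X B).Finite :=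
    Set.Finite.biUnion hF fun B hB => ends_finite (hE.small B (hFE hB)).1
  have hfin2 : ((fun p : V × V => X.dist p.1 p.2) ''
      ((⋃ B ∈ F, ends X B) ×ˢ (⋃ B ∈ F, ends X B))).Finite := (hfin.prod hfin).image _
  obtain ⟨c, hc⟩ := hfin2.bddAbove
  refine ⟨c + 1, by omega, ?_⟩
  intro C hC x hx y hy
  obtain ⟨g, hg, B, hB, rfl⟩ := hrep C hC
  have key : ∀ z ∈ ends X (g '' B), ∃ z' ∈ ends X B, g z' = z := by
    rintro z ⟨w, hw⟩
    obtain ⟨z', rfl⟩ := g.surjective z
    obtain ⟨w', rfl⟩ := g.surjective w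
    refine ⟨z', ⟨w', ?_⟩, rfl⟩
    rw [bd_image X g (hG g hg)] at hw
    have e : s(g z', g w') = Sym2.map g s(z', w') := rfl
    rwa [e, (sym2_map_injective g).mem_set_image] at hw
  obtain ⟨x', hx', rfl⟩ := key x hx
  obtain ⟨y', hy', rfl⟩ := key y hy
  have h1 := dist_image_le hX (hG g hg) x' y'
  have h2 : X.dist x' y' ≤ c := by
    apply hc
    refine ⟨(x', y'), ⟨?_, ?_⟩, rfl⟩
    · exact Set.mem_biUnion hB hx'
    · exact Set.mem_biUnion hB hy'
  omega

end ZCC

open ZCC in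
theorem zcc_proof (h1 : Stmt_HUA) : Stmt_ZCC := by
  intro V X G E N hX hG hE
  obtain ⟨c, hc1, hc⟩ := diam hX hG hE
  refine ⟨c, ?_⟩
  intro v hv x hx y hy
  obtain ⟨hub, hdis, -, -⟩ := h1 V E v hE.toNestSet hv
  have dis : ∀ C ∈ Hub v, ∀ C' ∈ Hub v, C ≠ C' → ∀ x, x ∈ C → x ∉ C' := by
    intro C hC C' hC' hne x hx hx'
    exact Set.disjoint_left.1 (hdis C hC C' hC' hne) hx hx'
  -- points of the trace in a hub are end points of its boundary
  have hend : ∀ C ∈ Hub v, ∀ a ∈ C, a ∈ ZZ X v → a ∈ ends X C := by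
    intro C hC a ha haZ
    rcases haZ with h | ⟨C', hC', b, hb⟩
    · exact absurd ha (h C hC)
    · by_cases hCC : C' = C
      · subst hCC; exact ⟨b, hb⟩
      · have haC' : a ∉ C' := dis C hC C' hC' (Ne.symm hCC) a ha
        rw [mem_bd_iff] at hb
        have hbC' : b ∈ C' := by tauto
        have hbC : b ∉ C := dis C' hC' C hC hCC b hbC'
        exact ⟨b, by rw [mem_bd_iff]; exact ⟨hb.1, Or.inl ⟨ha, hbC⟩⟩⟩
  -- adjacent points with one end in a hub and not in the trace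
  have hin : ∀ C ∈ Hub v, ∀ a ∈ C, a ∉ ZZ X v → ∀ b, X.Adj a b → b ∈ C := by
    intro C hC a ha haZ b hab
    by_contra hb
    exact haZ (Or.inr ⟨C, hC, b, by rw [mem_bd_iff]; exact ⟨hab, Or.inl ⟨ha, hb⟩⟩⟩)
  set R : V → V → Prop := fun a b => b ∈ ZZ X v ∧ X.dist a b ≤ c with hR
  have main : ∀ y : V, Relation.ReflTransGen X.Adj x y →
      (y ∈ ZZ X v → Relation.ReflTransGen R x y) ∧
      (y ∉ ZZ X v → ∀ C ∈ Hub v, y ∈ C → ∃ z ∈ C, z ∈ ZZ X v ∧ Relation.ReflTransGen R x z) := by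
    intro y hxy
    induction hxy with
    | refl => exact ⟨fun _ => Relation.ReflTransGen.refl, fun h => absurd hx h⟩
    | @tail y y' _ hyy' ih =>
      obtain ⟨ih1, ih2⟩ := ih
      refine ⟨fun hy' => ?_, fun hy' C hC hyC => ?_⟩
      · by_cases hyZ : y ∈ ZZ X v
        · refine (ih1 hyZ).tail ⟨hy', ?_⟩
          rw [SimpleGraph.dist_eq_one_iff_adj.2 hyy']
          exact hc1
        · have hex : ∃ C ∈ Hub v, y ∈ C := by
            by_contra hno
            push Not at hno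
            exact hyZ (Or.inl hno)
          obtain ⟨C, hC, hyC⟩ := hex
          obtain ⟨z, hzC, hzZ, hz⟩ := ih2 hyZ C hC hyC
          refine hz.tail ⟨hy', ?_⟩
          exact hc C (hub C hC) z (hend C hC z hzC hzZ) y'
            (hend C hC y' (hin C hC y hyC hyZ y' hyy') hy')
      · have hyC' : y ∈ C := hin C hC y' hyC hy' y hyy'.symm
        by_cases hyZ : y ∈ ZZ X v
        · exact ⟨y, hyC', hyZ, ih1 hyZ⟩
        · exact ih2 hyZ C hC hyC'
  exact (main y ((SimpleGraph.reachable_iff_reflTransGen x y).1 (hX.preconnected x y))).1 hy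

end Pool.Agent.ACC
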