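import Pool.Agent.ACC.Lib

/-!
MP_851278_al, module ZCF: the stabiliser acts on the trace with finitely many orbits.
-/

set_option autoImplicit false

namespace Pool.Agent.ACC

namespace ZCF_

variable {V : Type}

theorem rep {α β : Type} (F : Set α) (hF : F.Finite) (P : α → β → Prop) :
    ∃ R : Set β, R.Finite ∧ (∀ b ∈ R, ∃ a ∈ F, P a b) ∧
      ∀ a ∈ F, (∃ b, P a b) → ∃ b ∈ R, P a b := by
  classical
  have hF' : ({a | a ∈ F ∧ ∃ b, P a b} : Set α).Finite := hF.subset (fun a ha => ha.1)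
  have : Finite ({a | a ∈ F ∧ ∃ b, P a b} : Set α) := hF'
  have hc : ∀ a : ({a | a ∈ F ∧ ∃ b, P a b} : Set α), ∃ b, P a.1 b := fun a => a.2.2
  choose f hf using hc
  refine ⟨Set.range f, Set.finite_range f, ?_, ?_⟩
  · rintro _ ⟨a, rfl⟩
    exact ⟨a.1, a.2.1, hf a⟩
  · intro a ha hb
    exact ⟨f ⟨a, ha, hb⟩, ⟨_, rfl⟩, hf ⟨a, ha, hb⟩⟩

theorem image_inj (g : Equiv.Perm V) {A B : Set V} (h : g '' A = g '' B) : A = B := by
  have h1 := congrArg (fun C : Set V => (g⁻¹ : Equiv.Perm V) '' C) h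
  simp only [image_inv_image] at h1
  exact h1

theorem vtx_image {X : SimpleGraph V} {G : Subgroup (Equiv.Perm V)} {E v : Set (Set V)} {N : ℕ}
    (hE : NestFam X G E N) (hv : IsVtx E v) {g : Equiv.Perm V} (hg : g ∈ G) :
    IsVtx E ((fun A : Set V => g '' A) '' v) := by
  have hginv : ∀ A ∈ E, (g⁻¹ : Equiv.Perm V) '' A ∈ E := fun A hA => hE.inv _ (G.inv_mem hg) A hA
  refine ⟨?_, ?_, ?_, ?_, ?_⟩
  · rintro _ ⟨A, hA, rfl⟩
    exact hE.inv g hg A (hv.sub hA)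
  · intro B hB
    rcases hv.total _ (hginv B hB) with h | h
    · left
      exact ⟨_, h, image_image_inv g B⟩
    · right
      refine ⟨_, h, ?_⟩
      show g '' ((g⁻¹ : Equiv.Perm V) '' B)ᶜ = Bᶜ
      rw [image_compl, image_image_inv]
  · rintro _ ⟨B, hB, rfl⟩ ⟨C, hC, h⟩
    have h' : g '' C = (g '' B)ᶜ := h
    rw [← image_compl] at h'
    have h2 := image_inj g h'
    rw [h2] at hC
    exact hv.excl B hB hC
  · rintro _ ⟨B, hB, rfl⟩ C hC hBC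
    refine ⟨(g⁻¹ : Equiv.Perm V) '' C, hv.up B hB _ (hginv C hC) ?_, image_image_inv g C⟩
    rw [← image_subset_image g, image_image_inv]
    exact hBC
  · rintro _ ⟨B, hB, rfl⟩
    obtain ⟨C, hC, hCB, hmin⟩ := hv.wf B hB
    refine ⟨g '' C, ⟨C, hC, rfl⟩, Set.image_mono hCB, ?_⟩
    rintro _ ⟨D, hD, rfl⟩ hDC
    have h3 : D ⊆ C := (image_subset_image g D C).1 hDC
    show g '' D = g '' C
    rw [hmin D hD h3]

theorem hub_image {v : Set (Set V)} (g : Equiv.Perm V) {C : Set V} (hC : C ∈ Hub v) :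
    g '' C ∈ Hub ((fun A : Set V => g '' A) '' v) := by
  refine ⟨⟨Cᶜ, hC.1, image_compl g C⟩, ?_⟩
  rintro _ ⟨D, hD, rfl⟩ hDC
  rw [← image_compl] at hDC ⊢
  have h3 : D ⊆ Cᶜ := (image_subset_image g D Cᶜ).1 hDC
  show g '' D = g '' Cᶜ
  rw [hC.2 D hD h3]

theorem factH (hHUD : Stmt_HUD) {X : SimpleGraph V} {G : Subgroup (Equiv.Perm V)}
    {E v : Set (Set V)} {N : ℕ} (hE : NestFam X G E N) (hv : IsVtx E v) {g : Equiv.Perm V}
    (hg : g ∈ G) {C C' : Set V} (hC : C ∈ Hub v) (hC' : C' ∈ Hub v) (h : g '' C = C') :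
    g ∈ stabV G v := by
  have h1 := vtx_image hE hv hg
  have h2 := hub_image g hC
  rw [h] at h2
  have h3 : v = (fun A : Set V => g '' A) '' v :=
    hHUD V E v _ C' hE.toNestSet hv h1 hC' h2
  refine ⟨hg, fun A => ⟨fun hA => ?_, fun hA => ?_⟩⟩
  · rw [h3]
    exact ⟨A, hA, rfl⟩
  · rw [h3] at hA
    obtain ⟨B, hB, hBA⟩ := hA
    have : B = A := image_inj g hBA
    rw [← this]
    exact hB

theorem out_iff {E v : Set (Set V)}
    (hv : IsVtx E v) {x : V} (hx : ∀ C ∈ Hub v, x ∉ C) (B : Set V) :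
    B ∈ v ↔ B ∈ E ∧ x ∈ B := by
  have key : ∀ B ∈ v, x ∈ B := by
    intro B hB
    obtain ⟨C, hC, hCB, hmin⟩ := hv.wf B hB
    have hhub : Cᶜ ∈ Hub v := by
      refine ⟨?_, ?_⟩
      · rw [compl_compl]; exact hC
      · rw [compl_compl]; exact hmin
    have := hx _ hhub
    rw [Set.mem_compl_iff, not_not] at this
    exact hCB this
  constructor
  · intro h
    exact ⟨hv.sub h, key B h⟩
  · rintro ⟨h1, h2⟩
    rcases hv.total B h1 with h | h
    · exact h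
    · exact absurd h2 (key _ h)

theorem factP {X : SimpleGraph V} {G : Subgroup (Equiv.Perm V)}
    {E v : Set (Set V)} {N : ℕ} (hE : NestFam X G E N) (hv : IsVtx E v) {g : Equiv.Perm V}
    (hg : g ∈ G) {x : V} (hx : ∀ C ∈ Hub v, x ∉ C) (hgx : ∀ C ∈ Hub v, g x ∉ C) :
    g ∈ stabV G v := by
  refine ⟨hg, fun A => ?_⟩
  rw [out_iff hv hx, out_iff hv hgx]
  constructor
  · rintro ⟨h1, h2⟩
    exact ⟨hE.inv g hg A h1, ⟨x, h2, rfl⟩⟩
  · rintro ⟨h1, h2⟩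
    refine ⟨?_, ?_⟩
    · have h3 := hE.inv _ (G.inv_mem hg) _ h1
      rwa [image_inv_image] at h3
    · obtain ⟨y, hy, hyx⟩ := h2
      rw [← g.injective hyx]
      exact hy

theorem ends_finite (X : SimpleGraph V) {C : Set V} (hC : (bd X C).Finite) :
    {x : V | ∃ y, s(x, y) ∈ bd X C}.Finite := by
  have hS : (⋃ e ∈ bd X C, {x : V | x ∈ e}).Finite := by
    refine Set.Finite.biUnion hC (fun e _ => ?_)
    induction e with
    | _ a b =>
      refine (Set.toFinite ({a, b} : Set V)).subset ?_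
      intro x hx
      rcases Sym2.mem_iff.1 hx with h | h
      · left; exact h
      · right; exact h
  refine hS.subset ?_
  rintro x ⟨y, hy⟩
  exact Set.mem_biUnion hy (Sym2.mem_mk_left x y)

end ZCF_

theorem zcf_proof (_h1 : Stmt_HUA) (h2 : Stmt_HUD) : Stmt_ZCF := by
  intro V X G E v N hG hV hE hv
  obtain ⟨F0, hF0, hF0E, hcov⟩ := hE.fin
  obtain ⟨R1, hR1, hR1a, hR1b⟩ := ZCF_.rep F0 hF0
    (fun B C : Set V => C ∈ Hub v ∧ ∃ g ∈ G, g '' B = C)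
  obtain ⟨FV, hFV, hcovV⟩ := hV
  obtain ⟨R2, hR2, hR2a, hR2b⟩ := ZCF_.rep FV hFV
    (fun y z : V => (∀ C ∈ Hub v, z ∉ C) ∧ ∃ g ∈ G, g y = z)
  have hubE : ∀ C ∈ Hub v, C ∈ E := by
    intro C hC
    have h3 := hE.compl _ (hv.sub hC.1)
    rwa [compl_compl] at h3
  refine ⟨(⋃ C ∈ R1, {x : V | ∃ y, s(x, y) ∈ bd X C}) ∪ R2, ?_, ?_, ?_⟩
  · refine (Set.Finite.biUnion hR1 (fun C hC => ?_)).union hR2
    obtain ⟨B, _, hCv, _⟩ := hR1a C hC
    exact ZCF_.ends_finite X (hE.small C (hubE C hCv)).1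
  · rintro x (hx | hx)
    · rw [Set.mem_iUnion₂] at hx
      obtain ⟨C, hC, y, hy⟩ := hx
      obtain ⟨B, _, hCv, _⟩ := hR1a C hC
      exact Or.inr ⟨C, hCv, y, hy⟩
    · obtain ⟨y, _, hz, _⟩ := hR2a x hx
      exact Or.inl hz
  · rintro x (hx | ⟨C, hC, y, hy⟩)
    · obtain ⟨g, hg, y, hy, hgy⟩ := hcovV x
      obtain ⟨z, hz, hzo, g', hg', hg'y⟩ := hR2b y hy ⟨x, hx, g, hg, hgy⟩
      have hmul : (g * g'⁻¹) z = x := by
        rw [← hg'y, Equiv.Perm.mul_apply]; simp [hgy]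
      refine ⟨g * g'⁻¹, ?_, z, Or.inr hz, hmul⟩
      refine ZCF_.factP hE hv (G.mul_mem hg (G.inv_mem hg')) hzo ?_
      rw [hmul]
      exact hx
    · obtain ⟨g, hg, B, hB, hgB⟩ := hcov C (hubE C hC)
      obtain ⟨C', hC', hC'v, g', hg', hg'B⟩ := hR1b B hB ⟨C, hC, g, hg, hgB⟩
      have him : (g * g'⁻¹ : Equiv.Perm V) '' C' = C := by
        have h3 : ((g * g'⁻¹ : Equiv.Perm V) : V → V) = g ∘ (g'⁻¹ : Equiv.Perm V) := by
          ext u; simp
        rw [h3, Set.image_comp, ← hg'B, image_inv_image, hgB]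
      have hmem : (g * g'⁻¹ : Equiv.Perm V) ∈ G := G.mul_mem hg (G.inv_mem hg')
      have hst := ZCF_.factH h2 hE hv hmem hC'v hC him
      refine ⟨g * g'⁻¹, hst, (g * g'⁻¹)⁻¹ x, Or.inl ?_, (by simp)⟩
      rw [Set.mem_iUnion₂]
      refine ⟨C', hC', (g * g'⁻¹)⁻¹ y, ?_⟩
      have h4 := bd_image X (g * g'⁻¹)⁻¹ (adj_inv (hG _ hmem)) C
      have h5 : (((g * g'⁻¹)⁻¹ : Equiv.Perm V) : V → V) '' C = C' := by
        rw [← him, image_inv_image]
      rw [h5] at h4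
      rw [h4]
      exact ⟨s(x, y), hy, rfl⟩

end Pool.Agent.ACC
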