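import Pool.Agent.ACC.Lib

set_option autoImplicit false

namespace Pool.Agent.ACC

namespace ZFI_

variable {V : Type}

/-- end points in `C` of boundary edges of `C` -/
def K (X : SimpleGraph V) (C : Set V) : Set V := {x | x ∈ C ∧ ∃ y, s(x, y) ∈ bd X C}

open Classical in
noncomputable def pick (X : SimpleGraph V) (C : Set V) (x : V) : Sym2 V :=
  if h : ∃ y, s(x, y) ∈ bd X C then s(x, h.choose) else s(x, x)

lemma pick_mem (X : SimpleGraph V) (C : Set V) (x : V) (h : x ∈ K X C) :
    pick X C x ∈ bd X C := by
  have h2 := h.2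
  unfold pick
  rw [dif_pos h2]
  exact h2.choose_spec

lemma pick_inj (X : SimpleGraph V) (C : Set V) : Set.InjOn (pick X C) (K X C) := by
  intro x hx x' hx' he
  have h2 := hx.2
  have h2' := hx'.2
  have hs := h2.choose_spec
  have hs' := h2'.choose_spec
  unfold pick at he
  rw [dif_pos h2, dif_pos h2'] at he
  rw [mem_bd_iff] at hs hs'
  have hy : h2.choose ∉ C := by
    rcases hs.2 with h | h
    · exact h.2
    · exact absurd hx.1 h.1
  have hy' : h2'.choose ∉ C := by
    rcases hs'.2 with h | h
    · exact h.2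
    · exact absurd hx'.1 h.1
  rw [Sym2.eq_iff] at he
  rcases he with ⟨h, -⟩ | ⟨h, h'⟩
  · exact h
  · exfalso
    apply hy'
    rw [← h]
    exact hx.1

lemma K_finite (X : SimpleGraph V) (C : Set V) (h : (bd X C).Finite) : (K X C).Finite :=
  Set.Finite.of_injOn (fun x hx => pick_mem X C x hx) (pick_inj X C) h

lemma K_ncard (X : SimpleGraph V) (C : Set V) (h : (bd X C).Finite) :
    (K X C).ncard ≤ (bd X C).ncard :=
  Set.ncard_le_ncard_of_injOn (pick X C) (fun x hx => pick_mem X C x hx) (pick_inj X C) h

end ZFI_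

theorem zfi_proof (h1 : Stmt_HUA) : Stmt_ZFI := by
  intro V X G E v N hE hv
  obtain ⟨hHE, hdis, hin, -⟩ := h1 V E v hE.toNestSet hv
  have hsub : ∀ C ∈ Hub v, C ∩ ZZ X v ⊆ ZFI_.K X C := by
    rintro C hC x ⟨hxC, hxZ⟩
    rcases hxZ with h | ⟨C', hC', y, hy⟩
    · exact absurd hxC (h C hC)
    · by_cases hcc : C = C'
      · subst hcc
        exact ⟨hxC, y, hy⟩
      · have hd := hdis C hC C' hC' hcc
        have hx' : x ∉ C' := fun hx => Set.disjoint_left.1 hd hxC hx
        rw [mem_bd_iff] at hy
        obtain ⟨hadj, h | h⟩ := hy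
        · exact absurd h.1 hx'
        · refine ⟨hxC, y, ?_⟩
          rw [mem_bd_iff]
          exact ⟨hadj, Or.inl ⟨hxC, fun hyC => Set.disjoint_left.1 hd hyC h.2⟩⟩
  have hfin : ∀ C ∈ Hub v, (C ∩ ZZ X v).Finite := fun C hC =>
    (ZFI_.K_finite X C (hE.small C (hHE C hC)).1).subset (hsub C hC)
  refine ⟨fun C hC => ⟨hfin C hC, ?_⟩, ?_⟩
  · have hs := hE.small C (hHE C hC)
    exact ((Set.ncard_le_ncard (hsub C hC) (ZFI_.K_finite X C hs.1)).trans
      (ZFI_.K_ncard X C hs.1)).trans hs.2
  · intro A hA
    induction hA with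
    | base A hA =>
      obtain ⟨C, hC, h | h⟩ := hin A hA
      · left
        exact (hfin C hC).subset (Set.inter_subset_inter_left _ h)
      · right
        exact (hfin C hC).subset (Set.inter_subset_inter_left _ h)
    | empty => left; rw [Set.empty_inter]; exact Set.finite_empty
    | compl A _ ih =>
      rw [compl_compl]
      exact ih.symm
    | inter A B _ _ iA iB =>
      rcases iA with iA | iA
      · left
        exact iA.subset (Set.inter_subset_inter_left _ Set.inter_subset_left)
      · rcases iB with iB | iB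
        · left
          exact iB.subset (Set.inter_subset_inter_left _ Set.inter_subset_right)
        · right
          rw [Set.compl_inter, Set.union_inter_distrib_right]
          exact iA.union iB

end Pool.Agent.ACC
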