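import Pool.Agent.ACC.StmtsA
import Pool.Agent.ACC.Lib

/-!
# ZRH: large balls around points of an infinite trace are not separated by few edges
-/

set_option autoImplicit false

namespace Pool.Agent.ACC

namespace ZRH_

/-- one step inside `A` -/
def St {V : Type} (X : SimpleGraph V) (A : Set V) (u v : V) : Prop := v ∈ A ∧ X.Adj u v

/-- component of `a` in `A` -/
def cpt {V : Type} (X : SimpleGraph V) (A : Set V) (a : V) : Set V :=
  {x | Relation.ReflTransGen (St X A) a x}

lemma self_mem {V : Type} (X : SimpleGraph V) (A : Set V) (a : V) : a ∈ cpt X A a :=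
  Relation.ReflTransGen.refl

lemma cpt_sub {V : Type} (X : SimpleGraph V) (A : Set V) (a : V) (ha : a ∈ A) :
    cpt X A a ⊆ A := by
  intro x hx
  induction hx with
  | refl => exact ha
  | tail _ h _ => exact h.1

lemma closed {V : Type} (X : SimpleGraph V) (A : Set V) (a : V) :
    ∀ x ∈ cpt X A a, ∀ y ∈ A, X.Adj x y → y ∈ cpt X A a :=
  fun _ hx _ hy hxy => Relation.ReflTransGen.tail hx ⟨hy, hxy⟩

lemma bd_cpt {V : Type} (X : SimpleGraph V) (A : Set V) (a : V) (ha : a ∈ A) :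
    bd X (cpt X A a) ⊆ bd X A := by
  rintro e ⟨x, y, hxy, hx, hy, rfl⟩
  exact ⟨x, y, hxy, cpt_sub X A a ha hx, fun hyA => hy (closed X A a x hx y hyA hxy), rfl⟩

lemma reach {V : Type} (X : SimpleGraph V) (S : Set V) (z w : V) (hz : z ∈ S)
    (h : Relation.ReflTransGen (St X S) z w) :
    ∃ hw : w ∈ S, (X.induce S).Reachable ⟨z, hz⟩ ⟨w, hw⟩ := by
  induction h with
  | refl => exact ⟨hz, SimpleGraph.Reachable.refl _⟩
  | @tail b c _ hbc ih =>
    obtain ⟨hb, hr⟩ := ih
    refine ⟨hbc.1, hr.trans ?_⟩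
    exact SimpleGraph.Adj.reachable (show (X.induce S).Adj ⟨b, hb⟩ ⟨c, hbc.1⟩ from hbc.2)

lemma conn_cpt {V : Type} (X : SimpleGraph V) (A : Set V) (a : V) :
    (X.induce (cpt X A a)).Connected := by
  have key : ∀ x, Relation.ReflTransGen (St X A) a x →
      Relation.ReflTransGen (St X (cpt X A a)) a x := by
    intro x hx
    induction hx with
    | refl => exact Relation.ReflTransGen.refl
    | @tail b c hab hbc ih => exact ih.tail ⟨hab.tail hbc, hbc.2⟩
  have : Nonempty (cpt X A a) := ⟨⟨a, self_mem X A a⟩⟩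
  refine ⟨?_⟩
  rintro ⟨x, hx⟩ ⟨y, hy⟩
  obtain ⟨_, h1⟩ := reach X _ a x (self_mem X A a) (key x hx)
  obtain ⟨_, h2⟩ := reach X _ a y (self_mem X A a) (key y hy)
  exact h1.symm.trans h2

lemma ball_sub {V : Type} (X : SimpleGraph V) (hX : X.Connected) (D : Set V) (x : V) (r : ℕ)
    (h : ball X x r ⊆ D) : ball X x r ⊆ cpt X D x := by
  have key : ∀ (u z : V) (p : X.Walk u z), u ∈ cpt X D x → X.dist x u + p.length ≤ r →
      z ∈ cpt X D x := by
    intro u z p
    induction p with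
    | nil => intro hu _; exact hu
    | @cons u v w huv q ih =>
      intro hu hl
      rw [SimpleGraph.Walk.length_cons] at hl
      have h1 : X.dist x v ≤ X.dist x u + 1 := by
        have := hX.dist_triangle (u := x) (v := u) (w := v)
        rw [SimpleGraph.dist_eq_one_iff_adj.2 huv] at this
        exact this
      have hv : v ∈ D := h (show X.dist x v ≤ r by omega)
      exact ih (closed X D x u hu v hv huv) (by omega)
  intro z hz
  obtain ⟨p, hp⟩ := hX.exists_walk_length_eq_dist x z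
  refine key x z p (self_mem X D x) ?_
  rw [SimpleGraph.dist_self, zero_add, hp]
  exact hz

lemma bond {V : Type} (X : SimpleGraph V) (hX : X.Connected) (D : Set V) (x y : V)
    (hD : (bd X D).Finite) (hx : x ∈ D) (hy : y ∈ Dᶜ) :
    IsBond X (cpt X (cpt X D x)ᶜ y) ∧
      bd X (cpt X (cpt X D x)ᶜ y) ⊆ bd X D ∧ cpt X D x ⊆ (cpt X (cpt X D x)ᶜ y)ᶜ := by
  set C := cpt X D x with hC
  set D' := cpt X Cᶜ y with hD'
  have hCD : C ⊆ D := cpt_sub X D x hx
  have hyC : y ∈ Cᶜ := fun h => hy (hCD h)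
  have hDC : D' ⊆ Cᶜ := cpt_sub X Cᶜ y hyC
  have hsub : bd X D' ⊆ bd X D := by
    refine (bd_cpt X Cᶜ y hyC).trans ?_
    rw [bd_compl]
    exact bd_cpt X D x hx
  have hCs : C ⊆ D'ᶜ := fun z hz hzD => hDC hzD hz
  refine ⟨⟨hD.subset hsub, conn_cpt X Cᶜ y, ?_⟩, hsub, hCs⟩
  have hxC : x ∈ C := self_mem X D x
  have key : ∀ (z w : V) (p : X.Walk z w), w ∈ C → z ∉ D' →
      ∃ w' ∈ C, Relation.ReflTransGen (St X D'ᶜ) z w' := by
    intro z w p
    induction p with
    | nil => intro hw _; exact ⟨_, hw, Relation.ReflTransGen.refl⟩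
    | @cons z u w hzu q ih =>
      intro hw hz
      by_cases hzC : z ∈ C
      · exact ⟨z, hzC, Relation.ReflTransGen.refl⟩
      · have hu : u ∉ D' := fun hu => hz (closed X Cᶜ y u hu z hzC hzu.symm)
        obtain ⟨w', hw', hr⟩ := ih hw hu
        exact ⟨w', hw', Relation.ReflTransGen.head ⟨hu, hzu⟩ hr⟩
  have hCx : ∀ w' ∈ C, ∃ hw : w' ∈ D'ᶜ,
      (X.induce D'ᶜ).Reachable ⟨x, hCs hxC⟩ ⟨w', hw⟩ := by
    intro w' hw'
    have h1 : Relation.ReflTransGen (St X D'ᶜ) x w' := by
      have h2 : Relation.ReflTransGen (St X D) x w' := hw'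
      clear hw'
      induction h2 with
      | refl => exact Relation.ReflTransGen.refl
      | @tail b c hab hbc ih => exact ih.tail ⟨hCs (hab.tail hbc), hbc.2⟩
    exact reach X _ x w' (hCs hxC) h1
  have main : ∀ z : V, ∀ hz : z ∈ D'ᶜ, (X.induce D'ᶜ).Reachable ⟨z, hz⟩ ⟨x, hCs hxC⟩ := by
    intro z hz
    obtain ⟨p⟩ := hX.preconnected z x
    obtain ⟨w', hw', hr⟩ := key z x p hxC hz
    obtain ⟨h1, h2⟩ := reach X _ z w' hz hr
    obtain ⟨_, h4⟩ := hCx w' hw'
    exact h2.trans h4.symm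
  have : Nonempty (D'ᶜ : Set V) := ⟨⟨x, hCs hxC⟩⟩
  refine ⟨?_⟩
  rintro ⟨a, ha⟩ ⟨b, hb⟩
  exact (main a ha).trans (main b hb).symm

lemma many {V : Type} (X : SimpleGraph V) (hX : X.Connected) (Z : Set V) (hZ : Z.Infinite)
    (c : ℕ) (x : V) (hx : x ∈ Z)
    (h : ∀ y ∈ Z, Relation.ReflTransGen (fun a b => b ∈ Z ∧ X.dist a b ≤ c) x y) :
    ∀ i : ℕ, ((i + 1 : ℕ) : ℕ∞) ≤ (ball X x (c * i) ∩ Z).encard := by
  intro i
  induction i with
  | zero =>
    have : (ball X x (c * 0) ∩ Z).Nonempty := by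
      refine ⟨x, ?_, hx⟩
      show X.dist x x ≤ c * 0
      rw [SimpleGraph.dist_self]
      exact Nat.zero_le _
    have h1 := Set.one_le_encard_iff_nonempty.2 this
    simpa using h1
  | succ i ih =>
    set S := ball X x (c * i) ∩ Z with hS
    set S' := ball X x (c * (i + 1)) ∩ Z with hS'
    have hSS : S ⊆ S' := by
      rintro z ⟨h1, h2⟩
      refine ⟨?_, h2⟩
      show X.dist x z ≤ c * (i + 1)
      have h3 : X.dist x z ≤ c * i := h1
      nlinarith
    by_cases hf : S.Finite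
    · have hne : ∃ z0 ∈ Z, z0 ∉ S := by
        by_contra hcon
        push Not at hcon
        exact hZ (hf.subset hcon)
      obtain ⟨z0, hz0, hz0S⟩ := hne
      have hstep : ∃ b ∈ S', b ∉ S := by
        by_contra hcon
        push Not at hcon
        apply hz0S
        have hr := h z0 hz0
        clear hz0 hz0S
        induction hr with
        | refl =>
          refine ⟨?_, hx⟩
          show X.dist x x ≤ c * i
          rw [SimpleGraph.dist_self]
          exact Nat.zero_le _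
        | @tail a b hab hstep ih2 =>
          apply hcon
          refine ⟨?_, hstep.1⟩
          show X.dist x b ≤ c * (i + 1)
          have h1 : X.dist x a ≤ c * i := ih2.1
          have h2 := hX.dist_triangle (u := x) (v := a) (w := b)
          have h3 := hstep.2
          nlinarith
      obtain ⟨b, hb, hbS⟩ := hstep
      have h1 : insert b S ⊆ S' := Set.insert_subset hb hSS
      have h2 := Set.encard_le_encard h1
      rw [Set.encard_insert_of_notMem hbS] at h2
      refine le_trans ?_ h2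
      have h3 : (((i + 1 : ℕ) : ℕ∞) + 1) ≤ S.encard + 1 := by gcongr
      refine le_trans ?_ h3
      push_cast
      exact le_rfl
    · have h1 : S'.Infinite := Set.Infinite.mono hSS hf
      rw [h1.encard_eq]
      exact le_top

lemma absurd_of {V : Type} (S T : Set V) (hST : S ⊆ T) (c : ℕ)
    (h1 : ((c + 1 : ℕ) : ℕ∞) ≤ S.encard) (hf : T.Finite) (hn : T.ncard ≤ c) : False := by
  have h2 := h1.trans (Set.encard_le_encard hST)
  rw [← hf.cast_ncard_eq] at h2
  have h3 : c + 1 ≤ T.ncard := by exact_mod_cast h2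
  omega

end ZRH_

open ZRH_

theorem zrh_proof (h1 : Stmt_EFV) (h2 : Stmt_NFE) (h3 : Stmt_ZCC) (h4 : Stmt_ZUB) :
    Stmt_ZRH := by
  intro V X G hX hL hA hVF k
  have hE : EdgeFin X G := h1 V X G hL hA hVF
  have hN : NestFam X G (EE X k) k := h2 V X G hX hA hE k
  obtain ⟨c0, hc0⟩ := h3 V X G (EE X k) k hX hA hN
  obtain ⟨c, hc⟩ := h4 V X G hX hL hA hVF k
  refine ⟨c0 * c, ?_⟩
  rintro v hv hinf x hx y hy D hD ⟨hbx, hby⟩
  have mx := many X hX (ZZ X v) hinf c0 x hx (fun z hz => hc0 v hv x hx z hz) c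
  have my := many X hX (ZZ X v) hinf c0 y hy (fun z hz => hc0 v hv y hy z hz) c
  have self : ∀ z : V, z ∈ ball X z (c0 * c) := by
    intro z
    show X.dist z z ≤ c0 * c
    rw [SimpleGraph.dist_self]
    exact Nat.zero_le _
  have hxD : x ∈ D := hbx (self x)
  have hyD : y ∈ Dᶜ := hby (self y)
  obtain ⟨hB, hsub, hCs⟩ := bond X hX D x y hD.1 hxD hyD
  have hcard : (bd X (cpt X (cpt X D x)ᶜ y)).ncard ≤ k :=
    (Set.ncard_le_ncard hsub hD.1).trans hD.2
  have hCD : cpt X D x ⊆ D := cpt_sub X D x hxD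
  have b1 : ball X x (c0 * c) ⊆ (cpt X (cpt X D x)ᶜ y)ᶜ :=
    (ball_sub X hX D x _ hbx).trans hCs
  have b2 : ball X y (c0 * c) ⊆ cpt X (cpt X D x)ᶜ y :=
    ball_sub X hX _ y _ (hby.trans (Set.compl_subset_compl.2 hCD))
  rcases hc v hv _ hB hcard with ⟨hf, hn⟩ | ⟨hf, hn⟩
  · exact absurd_of _ _ (Set.inter_subset_inter_left _ b2) c my hf hn
  · exact absurd_of _ _ (Set.inter_subset_inter_left _ b1) c mx hf hn

end Pool.Agent.ACC
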