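import Pool.Agent.ACC.StmtsA
import Pool.Agent.ACC.Lib

/-!
MP_851278_al, module ZUB: bonds with at most `k` edges are uniformly trivial on the traces.
-/

set_option autoImplicit false

namespace Pool.Agent.ACC

namespace ZUB_

variable {V : Type}

/-- The image of a family of sets. -/
def img (g : Equiv.Perm V) (v : Set (Set V)) : Set (Set V) := (fun B : Set V => g '' B) '' v

theorem mem_img (g : Equiv.Perm V) (v : Set (Set V)) (A : Set V) :
    g '' A ∈ img g v ↔ A ∈ v := by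
  constructor
  · rintro ⟨B, hB, h⟩
    have h' : g '' B = g '' A := h
    rw [← Set.image_injective.2 g.injective h']
    exact hB
  · intro h
    exact ⟨A, h, rfl⟩

theorem img_inv (g : Equiv.Perm V) (v : Set (Set V)) : img (g⁻¹) (img g v) = v := by
  ext A
  constructor
  · rintro ⟨B, ⟨C, hC, rfl⟩, rfl⟩
    have : (g⁻¹ : Equiv.Perm V) '' (g '' C) = C := image_inv_image g C
    change (g⁻¹ : Equiv.Perm V) '' (g '' C) ∈ v
    rw [this]
    exact hC
  · intro h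
    exact ⟨g '' A, ⟨A, h, rfl⟩, image_inv_image g A⟩

theorem hub_img (g : Equiv.Perm V) (v : Set (Set V)) (C : Set V) (h : C ∈ Hub v) :
    g '' C ∈ Hub (img g v) := by
  refine ⟨?_, ?_⟩
  · rw [← image_compl, mem_img]
    exact h.1
  · rintro D ⟨D', hD', rfl⟩ hsub
    change g '' D' ⊆ (g '' C)ᶜ at hsub
    change g '' D' = (g '' C)ᶜ
    rw [← image_compl] at hsub ⊢
    rw [image_subset_image] at hsub
    rw [h.2 D' hD' hsub]

theorem zz_img_sub (X : SimpleGraph V) (g : Equiv.Perm V)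
    (hg : ∀ x y, X.Adj (g x) (g y) ↔ X.Adj x y) (v : Set (Set V)) (x : V) (hx : x ∈ ZZ X v) :
    g x ∈ ZZ X (img g v) := by
  rcases hx with h | ⟨C, hC, y, hy⟩
  · left
    intro C' hC' hxC'
    have h1 : (g⁻¹ : Equiv.Perm V) '' C' ∈ Hub (img (g⁻¹) (img g v)) := hub_img _ _ _ hC'
    rw [img_inv] at h1
    exact h _ h1 ⟨g x, hxC', by simp⟩
  · right
    refine ⟨g '' C, hub_img g v C hC, g y, ?_⟩
    rw [bd_image X g hg]
    exact ⟨s(x, y), hy, rfl⟩

theorem zz_img (X : SimpleGraph V) (g : Equiv.Perm V)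
    (hg : ∀ x y, X.Adj (g x) (g y) ↔ X.Adj x y) (v : Set (Set V)) :
    ZZ X (img g v) = g '' ZZ X v := by
  ext z
  constructor
  · intro hz
    have h1 := zz_img_sub X (g⁻¹) (adj_inv hg) (img g v) z hz
    rw [img_inv] at h1
    exact ⟨_, h1, by simp⟩
  · rintro ⟨x, hx, rfl⟩
    exact zz_img_sub X g hg v x hx

theorem stab_img {G : Subgroup (Equiv.Perm V)} {v : Set (Set V)} {g : Equiv.Perm V}
    (hg : g ∈ stabV G v) : img g v = v := by
  have h2 : ∀ A : Set V, A ∈ v ↔ g '' A ∈ v := hg.2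
  ext A
  constructor
  · rintro ⟨B, hB, rfl⟩
    exact (h2 B).1 hB
  · intro hA
    refine ⟨(g⁻¹ : Equiv.Perm V) '' A, ?_, image_image_inv g A⟩
    rw [h2, image_image_inv]
    exact hA

theorem conn_image (X : SimpleGraph V) (g : Equiv.Perm V)
    (hg : ∀ x y, X.Adj (g x) (g y) ↔ X.Adj x y) (A : Set V) (h : (X.induce A).Connected) :
    (X.induce (g '' A)).Connected := by
  let f : X.induce A →g X.induce (g '' A) :=
    { toFun := fun a => ⟨g a.1, Set.mem_image_of_mem g a.2⟩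
      map_rel' := by
        intro a b hab
        exact (hg a.1 b.1).2 hab }
  refine SimpleGraph.Connected.map f ?_ h
  rintro ⟨_, a, ha, rfl⟩
  exact ⟨⟨a, ha⟩, rfl⟩

theorem bond_image (X : SimpleGraph V) (g : Equiv.Perm V)
    (hg : ∀ x y, X.Adj (g x) (g y) ↔ X.Adj x y) (A : Set V) (h : IsBond X A) :
    IsBond X (g '' A) := by
  refine ⟨(bd_image_finite X g hg A).2 h.1, conn_image X g hg A h.2.1, ?_⟩
  rw [← image_compl]
  exact conn_image X g hg Aᶜ h.2.2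

theorem dist_le_img (X : SimpleGraph V) (hX : X.Connected) (g : Equiv.Perm V)
    (hg : ∀ x y, X.Adj (g x) (g y) ↔ X.Adj x y) (x y : V) :
    X.dist (g x) (g y) ≤ X.dist x y := by
  obtain ⟨p, hp⟩ := hX.exists_walk_length_eq_dist x y
  let f : X →g X := { toFun := g, map_rel' := fun {a b} hab => (hg a b).2 hab }
  have h := SimpleGraph.dist_le (p.map f)
  rw [SimpleGraph.Walk.length_map, hp] at h
  exact h

theorem ball_finite (X : SimpleGraph V) (hX : X.Connected) (hl : LocFin X) (x : V) (r : ℕ) :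
    {y | X.dist x y ≤ r}.Finite := by
  induction r with
  | zero =>
    refine (Set.finite_singleton x).subset ?_
    intro y hy
    have h0 : X.dist x y = 0 := Nat.le_zero.1 hy
    exact (hX.dist_eq_zero_iff.1 h0).symm
  | succ r ih =>
    have hfin : ({x} ∪ ⋃ z ∈ {y | X.dist x y ≤ r}, X.neighborSet z).Finite :=
      (Set.finite_singleton x).union (ih.biUnion (fun z _ => hl z))
    refine hfin.subset ?_
    intro y hy
    have hy' : X.dist x y ≤ r + 1 := hy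
    obtain ⟨p, hp⟩ := hX.exists_walk_length_eq_dist y x
    cases p with
    | nil => left; rfl
    | @cons _ z _ hyz q =>
      right
      rw [SimpleGraph.Walk.length_cons, SimpleGraph.dist_comm] at hp
      have hq := SimpleGraph.dist_le q
      rw [SimpleGraph.dist_comm] at hq
      refine Set.mem_biUnion (x := z) ?_ ?_
      · change X.dist x z ≤ r
        omega
      · exact hyz.symm

theorem sep_finite (h8 : Stmt_FBL) (X : SimpleGraph V) (hX : X.Connected) (k : ℕ) (y y' : V) :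
    {U : Set V | IsBond X U ∧ (bd X U).ncard ≤ k ∧
      ((y ∈ U ∧ y' ∉ U) ∨ (y ∉ U ∧ y' ∈ U))}.Finite := by
  obtain ⟨p⟩ := hX.preconnected y y'
  have hfin : (⋃ e ∈ {e | e ∈ p.edges},
      {A : Set V | IsBond X A ∧ (bd X A).ncard ≤ k ∧ e ∈ bd X A}).Finite :=
    (List.finite_toSet p.edges).biUnion (fun e _ => h8 V X hX k e)
  refine hfin.subset ?_
  rintro U ⟨hU1, hU2, hU3⟩
  have : ∃ e ∈ p.edges, e ∈ bd X U := by
    rcases hU3 with ⟨ha, hb⟩ | ⟨ha, hb⟩
    · exact exists_bd_edge p ha hb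
    · have hb' : y' ∉ Uᶜ := fun h => h hb
      obtain ⟨e, he, heb⟩ := exists_bd_edge p (A := Uᶜ) ha hb'
      rw [bd_compl] at heb
      exact ⟨e, he, heb⟩
  obtain ⟨e, he, heb⟩ := this
  exact Set.mem_biUnion (x := e) he ⟨hU1, hU2, heb⟩

theorem chain_sep {Z U : Set V} {D : V → V → Prop} {x y : V}
    (h : Relation.ReflTransGen (fun a b => b ∈ Z ∧ D a b) x y) (hx : x ∈ Z) (hxU : x ∈ U)
    (hy : y ∉ U) : ∃ a b, a ∈ Z ∧ b ∈ Z ∧ D a b ∧ a ∈ U ∧ b ∉ U := by
  induction h using Relation.ReflTransGen.head_induction_on with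
  | refl => exact absurd hxU hy
  | @head a c hac hcy ih =>
    by_cases hc : c ∈ U
    · exact ih hac.1 hc
    · exact ⟨a, c, hx, hac.1, hac.2, hxU, hc⟩

/-- The property to be proved. -/
def PP (X : SimpleGraph V) (c : ℕ) (v : Set (Set V)) (U : Set V) : Prop :=
  ((U ∩ ZZ X v).Finite ∧ (U ∩ ZZ X v).ncard ≤ c) ∨
  ((Uᶜ ∩ ZZ X v).Finite ∧ (Uᶜ ∩ ZZ X v).ncard ≤ c)

theorem PP.mono {X : SimpleGraph V} {c d : ℕ} (hcd : c ≤ d) {v : Set (Set V)} {U : Set V}
    (h : PP X c v U) : PP X d v U := by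
  rcases h with ⟨h1, h2⟩ | ⟨h1, h2⟩
  · exact Or.inl ⟨h1, h2.trans hcd⟩
  · exact Or.inr ⟨h1, h2.trans hcd⟩

theorem PP.image {X : SimpleGraph V} {g : Equiv.Perm V}
    (hg : ∀ x y, X.Adj (g x) (g y) ↔ X.Adj x y) {c : ℕ} {v : Set (Set V)} {U : Set V}
    (h : PP X c v U) : PP X c (img g v) (g '' U) := by
  unfold PP
  rw [zz_img X g hg, ← image_compl, ← image_inter', ← image_inter']
  rcases h with ⟨h1, h2⟩ | ⟨h1, h2⟩
  · left
    refine ⟨h1.image _, ?_⟩
    rw [Set.ncard_image_of_injective _ g.injective]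
    exact h2
  · right
    refine ⟨h1.image _, ?_⟩
    rw [Set.ncard_image_of_injective _ g.injective]
    exact h2

theorem core (h7 : Stmt_ZFI) (h8 : Stmt_FBL) (X : SimpleGraph V) (G : Subgroup (Equiv.Perm V))
    (hX : X.Connected) (hl : LocFin X) (hG : IsAut X G) (k : ℕ)
    (hN : NestFam X G (EE X k) k) (hgood : Good X k (EE X k)) (v : Set (Set V))
    (hv : IsVtx (EE X k) v) (c0 : ℕ)
    (hc0 : ∀ x ∈ ZZ X v, ∀ y ∈ ZZ X v,
      Relation.ReflTransGen (fun a b => b ∈ ZZ X v ∧ X.dist a b ≤ c0) x y)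
    (F0 : Set V) (hF0 : F0.Finite)
    (hF : ∀ x ∈ ZZ X v, ∃ g ∈ stabV G v, ∃ y ∈ F0, g y = x) :
    ∃ c : ℕ, ∀ U : Set V, IsBond X U → (bd X U).ncard ≤ k → PP X c v U := by
  classical
  have hQ : (⋃ y ∈ F0, ⋃ y' ∈ {z | X.dist y z ≤ c0},
      {U : Set V | IsBond X U ∧ (bd X U).ncard ≤ k ∧
        ((y ∈ U ∧ y' ∉ U) ∨ (y ∉ U ∧ y' ∈ U))}).Finite :=
    hF0.biUnion (fun y _ => (ball_finite X hX hl y c0).biUnion
      (fun y' _ => sep_finite h8 X hX k y y'))
  set Q := (⋃ y ∈ F0, ⋃ y' ∈ {z | X.dist y z ≤ c0},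
      {U : Set V | IsBond X U ∧ (bd X U).ncard ≤ k ∧
        ((y ∈ U ∧ y' ∉ U) ∨ (y ∉ U ∧ y' ∈ U))}) with hQdef
  have hone : ∀ U : Set V, ∃ c : ℕ, (IsBond X U → (bd X U).ncard ≤ k → PP X c v U) := by
    intro U
    by_cases hU : IsBond X U ∧ (bd X U).ncard ≤ k
    · have hgen : Gen (EE X k) U := hgood.gen U ⟨hU.1.1, hU.2⟩
      rcases (h7 V X G (EE X k) v k hN hv).2 U hgen with h | h
      · exact ⟨(U ∩ ZZ X v).ncard, fun _ _ => Or.inl ⟨h, le_refl _⟩⟩
      · exact ⟨(Uᶜ ∩ ZZ X v).ncard, fun _ _ => Or.inr ⟨h, le_refl _⟩⟩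
    · exact ⟨0, fun h1 h2 => absurd ⟨h1, h2⟩ hU⟩
  choose f hf using hone
  refine ⟨hQ.toFinset.sup f, ?_⟩
  intro U hUb hUk
  by_cases hn1 : (U ∩ ZZ X v).Nonempty
  · by_cases hn2 : (Uᶜ ∩ ZZ X v).Nonempty
    · obtain ⟨x, hxU, hxZ⟩ := hn1
      obtain ⟨y, hyU, hyZ⟩ := hn2
      obtain ⟨a, b, haZ, hbZ, hab, haU, hbU⟩ := chain_sep (hc0 x hxZ y hyZ) hxZ hxU hyU
      obtain ⟨g, hgS, y0, hy0, rfl⟩ := hF a haZ
      have hgG : g ∈ G := hgS.1
      have hg := hG g hgG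
      have hgi := adj_inv hg
      have hU' : IsBond X ((g⁻¹ : Equiv.Perm V) '' U) := bond_image X _ hgi U hUb
      have hUk' : (bd X ((g⁻¹ : Equiv.Perm V) '' U)).ncard ≤ k := by
        rw [bd_image_ncard X _ hgi]
        exact hUk
      have hmem : (g⁻¹ : Equiv.Perm V) '' U ∈ Q := by
        rw [hQdef]
        refine Set.mem_biUnion (x := y0) hy0 ?_
        refine Set.mem_biUnion (x := (g⁻¹ : Equiv.Perm V) b) ?_ ?_
        · have h1 := dist_le_img X hX (g⁻¹) hgi (g y0) b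
          have h2 : (g⁻¹ : Equiv.Perm V) (g y0) = y0 := by simp
          rw [h2] at h1
          exact h1.trans hab
        · refine ⟨hU', hUk', Or.inl ⟨⟨g y0, haU, by simp⟩, ?_⟩⟩
          rw [(g⁻¹ : Equiv.Perm V).injective.mem_set_image]
          exact hbU
      have hle : f ((g⁻¹ : Equiv.Perm V) '' U) ≤ hQ.toFinset.sup f :=
        Finset.le_sup (f := f) (hQ.mem_toFinset.2 hmem)
      have hPP := (hf _ hU' hUk').mono hle
      have hPP2 := hPP.image hg
      rw [stab_img hgS, image_image_inv] at hPP2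
      exact hPP2
    · right
      rw [Set.not_nonempty_iff_eq_empty.1 hn2]
      exact ⟨Set.finite_empty, by rw [Set.ncard_empty]; exact Nat.zero_le _⟩
  · left
    rw [Set.not_nonempty_iff_eq_empty.1 hn1]
    exact ⟨Set.finite_empty, by rw [Set.ncard_empty]; exact Nat.zero_le _⟩

end ZUB_

open ZUB_ in
theorem zub_proof (h1 : Stmt_EFV) (h2 : Stmt_NFE) (h3 : Stmt_DDF) (h4 : Stmt_HUF)
    (h5 : Stmt_ZCF) (h6 : Stmt_ZCC) (h7 : Stmt_ZFI) (h8 : Stmt_FBL) : Stmt_ZUB := by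
  classical
  intro V X G hX hl hG hVF k
  have hEF := h1 V X G hl hG hVF
  have hN := h2 V X G hX hG hEF k
  have hgood := h3 V X hX k
  obtain ⟨F, hF, hFv, hFo⟩ := h4 V X G (EE X k) k hG hN
  obtain ⟨c0, hc0⟩ := h6 V X G (EE X k) k hX hG hN
  have hone : ∀ v : Set (Set V), ∃ c : ℕ, IsVtx (EE X k) v → ∀ U : Set V, IsBond X U →
      (bd X U).ncard ≤ k → PP X c v U := by
    intro v
    by_cases hv : IsVtx (EE X k) v
    · obtain ⟨F0, hF0, -, hF0o⟩ := h5 V X G (EE X k) v k hG hVF hN hv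
      obtain ⟨c, hc⟩ := core h7 h8 X G hX hl hG k hN hgood v hv c0 (hc0 v hv) F0 hF0 hF0o
      exact ⟨c, fun _ => hc⟩
    · exact ⟨0, fun h => absurd h hv⟩
  choose f hf using hone
  refine ⟨hF.toFinset.sup f, ?_⟩
  intro v hv U hUb hUk
  obtain ⟨g, hgG, v0, hv0, hvg⟩ := hFo v hv
  have hg := hG g hgG
  have hgi := adj_inv hg
  have hU' : IsBond X ((g⁻¹ : Equiv.Perm V) '' U) := bond_image X _ hgi U hUb
  have hUk' : (bd X ((g⁻¹ : Equiv.Perm V) '' U)).ncard ≤ k := by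
    rw [bd_image_ncard X _ hgi]
    exact hUk
  have hle : f v0 ≤ hF.toFinset.sup f := Finset.le_sup (f := f) (hF.mem_toFinset.2 hv0)
  have hPP := ((hf v0 (hFv v0 hv0) _ hU' hUk').mono hle).image hg
  rw [image_image_inv] at hPP
  have hvi : img g v0 = v := hvg.symm
  rw [hvi] at hPP
  exact hPP

end Pool.Agent.ACC
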