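import Pool.Agent.ACC.BDD
import Pool.Agent.ACC.BDI
import Pool.Agent.ACC.BDO
import Pool.Agent.ACC.BNN
import Pool.Agent.ACC.BPL
import Pool.Agent.ACC.CEV
import Pool.Agent.ACC.CRF
import Pool.Agent.ACC.CRT
import Pool.Agent.ACC.CUT
import Pool.Agent.ACC.DDA
import Pool.Agent.ACC.DDB
import Pool.Agent.ACC.DDC
import Pool.Agent.ACC.DDE
import Pool.Agent.ACC.DDF
import Pool.Agent.ACC.DDG
import Pool.Agent.ACC.DEC
import Pool.Agent.ACC.EFV
import Pool.Agent.ACC.END
import Pool.Agent.ACC.FBL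
import Pool.Agent.ACC.FCS
import Pool.Agent.ACC.FIN
import Pool.Agent.ACC.HHP
import Pool.Agent.ACC.HUA
import Pool.Agent.ACC.HUD
import Pool.Agent.ACC.HUF
import Pool.Agent.ACC.LFA
import Pool.Agent.ACC.LIA
import Pool.Agent.ACC.MCL
import Pool.Agent.ACC.MED
import Pool.Agent.ACC.MEN
import Pool.Agent.ACC.MKT
import Pool.Agent.ACC.NFE
import Pool.Agent.ACC.NRV
import Pool.Agent.ACC.POW
import Pool.Agent.ACC.SIG
import Pool.Agent.ACC.SPR
import Pool.Agent.ACC.TFA
import Pool.Agent.ACC.TFC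
import Pool.Agent.ACC.TFF
import Pool.Agent.ACC.TOA
import Pool.Agent.ACC.TOC
import Pool.Agent.ACC.TOE
import Pool.Agent.ACC.TOG
import Pool.Agent.ACC.TOV
import Pool.Agent.ACC.VAB
import Pool.Agent.ACC.VOR
import Pool.Agent.ACC.WCB
import Pool.Agent.ACC.ZCC
import Pool.Agent.ACC.ZCF
import Pool.Agent.ACC.ZFI
import Pool.Agent.ACC.ZRH
import Pool.Agent.ACC.ZUB

/-!
MP_851278_al (frozen S02151), PART I: all modules put together.
-/

set_option autoImplicit false

namespace Pool.Agent.ACC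

theorem bdi : Stmt_BDI := bdi_proof
theorem fbl : Stmt_FBL := fbl_proof bdi
theorem fcs : Stmt_FCS := fcs_proof
theorem crf : Stmt_CRF := crf_proof fbl fcs
theorem bnn : Stmt_BNN := bnn_proof
theorem dda : Stmt_DDA := dda_proof crf
theorem ddb : Stmt_DDB := ddb_proof
theorem ddc : Stmt_DDC := ddc_proof bnn crf
theorem ddg : Stmt_DDG := ddg_proof dda ddb ddc bnn
theorem ddf : Stmt_DDF := ddf_proof ddg
theorem dde : Stmt_DDE := dde_proof
theorem bdo : Stmt_BDO := bdo_proof fbl
theorem bdd : Stmt_BDD := bdd_proof bdo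
theorem nfe : Stmt_NFE := nfe_proof ddf dde bdo crf fbl
theorem hua : Stmt_HUA := hua_proof
theorem hud : Stmt_HUD := hud_proof
theorem vab : Stmt_VAB := vab_proof
theorem huf : Stmt_HUF := huf_proof hud vab
theorem toc : Stmt_TOC := toc_proof hua
theorem toe : Stmt_TOE := toe_proof hua
theorem tog : Stmt_TOG := tog_proof hua hud
theorem tov : Stmt_TOV := tov_proof
theorem dec : Stmt_DEC := dec_proof
theorem toa : Stmt_TOA := toa_proof hua huf toe tov dec
theorem tfc : Stmt_TFC := tfc_proof hua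
theorem tff : Stmt_TFF := tff_proof tfc toe
theorem tfa : Stmt_TFA := tfa_proof
theorem cev : Stmt_CEV := cev_proof
theorem cut : Stmt_CUT := cut_proof
theorem wcb : Stmt_WCB := wcb_proof cev
theorem nrv : Stmt_NRV := nrv_proof hua
theorem med' : Stmt_MED := med_proof hua
theorem sig' : Stmt_SIG := sig_proof
theorem hhp : Stmt_HHP := hhp_proof
theorem lia : Stmt_LIA := lia_proof vab hua nrv med' sig' hhp
theorem crt : Stmt_CRT := crt_proof nfe ddf dde wcb lia
theorem efv : Stmt_EFV := efv_proof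
theorem bpl : Stmt_BPL := bpl_proof cut
theorem zfi : Stmt_ZFI := zfi_proof hua
theorem zcf : Stmt_ZCF := zcf_proof hua hud
theorem zcc : Stmt_ZCC := zcc_proof hua
theorem zub : Stmt_ZUB := zub_proof efv nfe ddf huf zcf zcc zfi fbl
theorem zrh : Stmt_ZRH := zrh_proof efv nfe zcc zub
theorem end' : Stmt_END := end_proof
theorem pow' : Stmt_POW := pow_proof
theorem mkt : Stmt_MKT := mkt_proof
theorem mcl : Stmt_MCL := mcl_proof
theorem lfa : Stmt_LFA := lfa_proof
theorem vor : Stmt_VOR := vor_proof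
theorem spr : Stmt_SPR := spr_proof mkt mcl lfa vor
theorem men : Stmt_MEN := men_proof

/-- The frozen statement follows from the main theorem (Parts II and III). -/
theorem fin_of_main (h : Stmt_MAIN) : Stmt_FIN := fin_proof spr pow' end' h

end Pool.Agent.ACC
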