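import Pool.Agent.ACC.StmtsB

set_option autoImplicit false

namespace Pool.Agent.ACC

theorem qpu_proof : Stmt_QPU := by
  classical
  intro V X Q lam u v w hS
  obtain ⟨hle, hconn, hd⟩ := hS
  induction w with
  | nil => exact ⟨SimpleGraph.Walk.nil, by simp, by simp⟩
  | @cons a b c h w ih =>
    obtain ⟨w', hl, hw'⟩ := ih
    obtain ⟨g, hg⟩ := (hconn.preconnected a b).exists_walk_length_eq_dist
    refine ⟨g.append w', ?_, ?_⟩
    · rw [SimpleGraph.Walk.length_append, SimpleGraph.Walk.length_cons, hg]
      have := hd a b h
      nlinarith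
    · intro z hz
      rw [SimpleGraph.Walk.mem_support_append_iff] at hz
      rcases hz with hz | hz
      · refine ⟨a, by simp, ?_⟩
        have h1 : X.dist a z ≤ ((g.takeUntil z hz).map (SimpleGraph.Hom.ofLE hle)).length :=
          SimpleGraph.dist_le _
        rw [SimpleGraph.Walk.length_map] at h1
        have h2 := g.length_takeUntil_le hz
        have := hd a b h
        omega
      · obtain ⟨y, hy, hyd⟩ := hw' z hz
        exact ⟨y, by simp [hy], hyd⟩

end Pool.Agent.ACC
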