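import Pool.Agent.ACC.LibB

/-!
MP_851278_al, squad ACB, module QST: second half of the overlap lemma.
-/

set_option autoImplicit false

namespace Pool.Agent.ACC

namespace QST_

/-- distance to a point of a neighbourhood taken in a spanner -/
theorem nbd_dist {V : Type} {X Q : SimpleGraph V} {lam r : ℕ} (hQ : Spanner X Q lam)
    {A : Set V} {z : V} (hz : z ∈ nbd Q A r) : ∃ s ∈ A, X.dist s z ≤ r := by
  obtain ⟨s, hs, h⟩ := hz
  exact ⟨s, hs, (spanner_dist_le hQ s z).trans h⟩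

/-- the tail of a pushed geodesic -/
theorem tail (h3 : Stmt_TAI) (h4 : Stmt_QPU) {V : Type} {X Q : SimpleGraph V} {lam D : ℕ}
    (hX : X.Connected) (hQ : Spanner X Q lam) {A : Set V} {m v : V} (hv : v ∈ A)
    (hd : X.dist m v ≤ D) (hm : ∀ s ∈ A, 2 * lam < X.dist m s) :
    ∃ T : Set V, Cn Q T ∧ m ∈ T ∧
      (∀ z ∈ T, z ∉ nbd Q A lam ∧ X.dist m z ≤ D + lam ∧ X.dist v z ≤ D + lam) ∧
      ∃ a ∈ nbd Q A lam, ∃ b ∈ T, Q.Adj a b := by
  obtain ⟨w, -, hw2⟩ := exists_geod hX v m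
  obtain ⟨w', -, hw'⟩ := h4 V X Q lam v m w hQ
  have hvA : v ∈ nbd Q A lam := subset_nbd A lam hv
  have hmA : m ∉ nbd Q A lam := by
    intro h
    obtain ⟨s, hs, h⟩ := nbd_dist hQ h
    have := hm s hs
    rw [SimpleGraph.dist_comm] at this
    omega
  obtain ⟨u', t, ht, a, ha, hadj⟩ := h3 V Q (nbd Q A lam) v m w' hvA hmA
  refine ⟨{z | z ∈ t.support}, cn_support t, t.end_mem_support, ?_, a, ha, u',
    t.start_mem_support, hadj⟩
  intro z hz
  obtain ⟨hz1, hz2⟩ := ht z hz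
  obtain ⟨y, hy, hyz⟩ := hw' z hz1
  have hy2 := hw2 y hy
  have hdc : X.dist m v = X.dist v m := SimpleGraph.dist_comm
  have e1 : X.dist m y = X.dist y m := SimpleGraph.dist_comm
  have e2 : X.dist m z ≤ X.dist m y + X.dist y z := hX.dist_triangle
  have e3 : X.dist v z ≤ X.dist v y + X.dist y z := hX.dist_triangle
  exact ⟨hz2, by omega, by omega⟩

theorem arith (lam G : ℕ) (h1 : 1 ≤ lam) (hG : 6 * lam ^ 3 + 8 * lam < G) :
    2 * (2 * lam ^ 2 + 1 + lam) ≤ G := by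
  have h2 : lam ^ 2 ≤ lam ^ 3 := Nat.pow_le_pow_right h1 (by norm_num)
  omega

end QST_

open QST_ in
theorem qst_proof (h1 : Stmt_KNC) (h2 : Stmt_HUL) (h3 : Stmt_TAI) (h4 : Stmt_QPU) :
    Stmt_QST := by
  intro V X P Q lam G S T hX hlam hPX hQ hpl hG F a b ha hb haS hbT
  have hAr := arith lam G hlam hG
  -- the tails
  have htX : ∀ i, ∃ T : Set V, Cn Q.P T ∧ (∃ m ∈ F.M i, m ∈ T ∧
      (∀ z ∈ T, X.dist m z ≤ 2 * lam ^ 2 + 1 + lam)) ∧ (∀ z ∈ T, z ∉ nbd Q.P F.Xp lam) ∧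
      (∀ z ∈ T, ∃ v ∈ F.Xp, X.dist v z ≤ 2 * lam ^ 2 + 1 + lam) ∧
      ∃ a ∈ nbd Q.P F.Xp lam, ∃ b ∈ T, Q.P.Adj a b := by
    intro i
    obtain ⟨m, hm, v, hv, hmv⟩ := F.hbX i
    obtain ⟨T, hT1, hT2, hT3, hT4⟩ := tail h3 h4 hX hQ hv hmv
      (fun s hs => F.ha i m hm s (Or.inl hs))
    exact ⟨T, hT1, ⟨m, hm, hT2, fun z hz => (hT3 z hz).2.1⟩, fun z hz => (hT3 z hz).1,
      fun z hz => ⟨v, hv, (hT3 z hz).2.2⟩, hT4⟩
  have htY : ∀ i, ∃ T : Set V, Cn Q.P T ∧ (∃ m ∈ F.M i, m ∈ T ∧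
      (∀ z ∈ T, X.dist m z ≤ 2 * lam ^ 2 + 1 + lam)) ∧ (∀ z ∈ T, z ∉ nbd Q.P F.Yp lam) ∧
      (∀ z ∈ T, ∃ v ∈ F.Yp, X.dist v z ≤ 2 * lam ^ 2 + 1 + lam) ∧
      ∃ a ∈ nbd Q.P F.Yp lam, ∃ b ∈ T, Q.P.Adj a b := by
    intro i
    obtain ⟨m, hm, v, hv, hmv⟩ := F.hbY i
    obtain ⟨T, hT1, hT2, hT3, hT4⟩ := tail h3 h4 hX hQ hv hmv
      (fun s hs => F.ha i m hm s (Or.inr hs))
    exact ⟨T, hT1, ⟨m, hm, hT2, fun z hz => (hT3 z hz).2.1⟩, fun z hz => (hT3 z hz).1,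
      fun z hz => ⟨v, hv, (hT3 z hz).2.2⟩, hT4⟩
  choose TX hTXc hTXm hTXn hTXv hTXa using htX
  choose TY hTYc hTYm hTYn hTYv hTYa using htY
  set Pi : Fin 3 → Set V := fun i => (nbd Q.P (F.M i) lam ∪ TX i) ∪ TY i with hPi
  -- every point of `Pi i` is close to `M i`
  have hPid : ∀ i, ∀ z ∈ Pi i, ∃ m ∈ F.M i, X.dist m z ≤ 2 * lam ^ 2 + 1 + lam := by
    intro i z hz
    rcases hz with (hz | hz) | hz
    · obtain ⟨m, hm, h⟩ := nbd_dist hQ hz
      exact ⟨m, hm, by omega⟩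
    · obtain ⟨m, hm, -, h⟩ := hTXm i
      exact ⟨m, hm, h z hz⟩
    · obtain ⟨m, hm, -, h⟩ := hTYm i
      exact ⟨m, hm, h z hz⟩
  have hMPi : ∀ i, F.M i ⊆ Pi i := fun i m hm => Or.inl (Or.inl (subset_nbd _ _ hm))
  have hPic : ∀ i, Cn Q.P (Pi i) := by
    intro i
    have c0 : Cn Q.P (nbd Q.P (F.M i) lam) :=
      h2 V X Q.P lam lam (F.M i) hQ le_rfl (cn_mono hPX (F.cM i))
    obtain ⟨m, hm, hmT, -⟩ := hTXm i
    obtain ⟨m', hm', hmT', -⟩ := hTYm i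
    have c1 := cn_union c0 (hTXc i) m (subset_nbd _ _ hm) hmT
    exact cn_union c1 (hTYc i) m' (Or.inl (subset_nbd _ _ hm')) hmT'
  have cX3 : Cn Q.P (nbd Q.P F.Xp lam) :=
    h2 V X Q.P lam lam F.Xp hQ le_rfl (cn_mono hPX F.cX)
  have cY3 : Cn Q.P (nbd Q.P F.Yp lam) :=
    h2 V X Q.P lam lam F.Yp hQ le_rfl (cn_mono hPX F.cY)
  -- disjointness
  have hXY : Disjoint (nbd Q.P F.Xp lam) (nbd Q.P F.Yp lam) := by
    rw [Set.disjoint_left]
    intro z hz hz'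
    obtain ⟨s, hs, h⟩ := nbd_dist hQ hz
    obtain ⟨s', hs', h'⟩ := nbd_dist hQ hz'
    have e1 := F.hd s hs s' hs'
    have e2 : X.dist s s' ≤ X.dist s z + X.dist z s' := hX.dist_triangle
    have e3 : X.dist z s' = X.dist s' z := SimpleGraph.dist_comm
    omega
  have hXPi : ∀ i, Disjoint (nbd Q.P F.Xp lam) (Pi i) := by
    intro i
    rw [Set.disjoint_left]
    intro z hz hz'
    obtain ⟨s, hs, h⟩ := nbd_dist hQ hz
    rcases hz' with (hz' | hz') | hz'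
    · obtain ⟨m, hm, h'⟩ := nbd_dist hQ hz'
      have e1 := F.ha i m hm s (Or.inl hs)
      have e2 : X.dist m s ≤ X.dist m z + X.dist z s := hX.dist_triangle
      have e3 : X.dist z s = X.dist s z := SimpleGraph.dist_comm
      omega
    · exact hTXn i z hz' hz
    · obtain ⟨v, hv, h'⟩ := hTYv i z hz'
      have e1 := F.hd s hs v hv
      have e2 : X.dist s v ≤ X.dist s z + X.dist z v := hX.dist_triangle
      have e3 : X.dist z v = X.dist v z := SimpleGraph.dist_comm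
      omega
  have hYPi : ∀ i, Disjoint (nbd Q.P F.Yp lam) (Pi i) := by
    intro i
    rw [Set.disjoint_left]
    intro z hz hz'
    obtain ⟨s, hs, h⟩ := nbd_dist hQ hz
    rcases hz' with (hz' | hz') | hz'
    · obtain ⟨m, hm, h'⟩ := nbd_dist hQ hz'
      have e1 := F.ha i m hm s (Or.inr hs)
      have e2 : X.dist m s ≤ X.dist m z + X.dist z s := hX.dist_triangle
      have e3 : X.dist z s = X.dist s z := SimpleGraph.dist_comm
      omega
    · obtain ⟨v, hv, h'⟩ := hTXv i z hz'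
      have e1 := F.hd v hv s hs
      have e2 : X.dist v s ≤ X.dist v z + X.dist z s := hX.dist_triangle
      have e3 : X.dist z s = X.dist s z := SimpleGraph.dist_comm
      omega
    · exact hTYn i z hz' hz
  have hPiPi : ∀ i j, i ≠ j → Disjoint (Pi i) (Pi j) := by
    intro i j hij
    rw [Set.disjoint_left]
    intro z hz hz'
    obtain ⟨m, hm, h⟩ := hPid i z hz
    obtain ⟨m', hm', h'⟩ := hPid j z hz'
    have e1 := F.hc i j hij m hm m' hm'
    have e2 : X.dist m m' ≤ X.dist m z + X.dist z m' := hX.dist_triangle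
    have e3 : X.dist z m' = X.dist m' z := SimpleGraph.dist_comm
    omega
  refine h1 V Q (nbd Q.P F.Xp lam) (nbd Q.P F.Yp lam) Pi hQ.2.1 hpl hXY hXPi hYPi hPiPi cX3 cY3
    hPic ?_ ?_ ?_ a b ha hb (subset_nbd _ _ (F.hS haS)) (subset_nbd _ _ (F.hT hbT))
  · intro i
    obtain ⟨a', ha', b', hb', hadj⟩ := hTXa i
    exact ⟨a', ha', b', Or.inl (Or.inr hb'), hadj⟩
  · intro i
    obtain ⟨a', ha', b', hb', hadj⟩ := hTYa i
    exact ⟨a', ha', b', Or.inr hb', hadj.symm⟩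
  · intro i
    obtain ⟨u, hu, v, hv, w, hw⟩ := F.he i
    obtain ⟨w', -, hw'⟩ := h4 V X Q.P lam u v (w.mapLe hPX) hQ
    refine ⟨u, hMPi _ hu, v, hMPi _ hv, w', fun z hz => ?_⟩
    obtain ⟨y, hy, hyz⟩ := hw' z hz
    have hy' : y ∈ w.support := by simpa using hy
    obtain ⟨hw1, hw2⟩ := hw y hy'
    refine ⟨?_, ?_, ?_⟩
    · intro h
      obtain ⟨s, hs, h⟩ := nbd_dist hQ h
      have e1 := hw1 s (Or.inl hs)
      have e2 : X.dist s y ≤ X.dist s z + X.dist z y := hX.dist_triangle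
      have e3 : X.dist z y = X.dist y z := SimpleGraph.dist_comm
      omega
    · intro h
      obtain ⟨s, hs, h⟩ := nbd_dist hQ h
      have e1 := hw1 s (Or.inr hs)
      have e2 : X.dist s y ≤ X.dist s z + X.dist z y := hX.dist_triangle
      have e3 : X.dist z y = X.dist y z := SimpleGraph.dist_comm
      omega
    · intro h
      obtain ⟨m, hm, h⟩ := hPid i z h
      have e1 := hw2 m hm
      have e2 : X.dist y m ≤ X.dist y z + X.dist z m := hX.dist_triangle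
      have e3 : X.dist z m = X.dist m z := SimpleGraph.dist_comm
      omega

end Pool.Agent.ACC
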