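import Pool.Agent.ACC.StmtsB

/-!
# Squad ACB, module RBE
-/

set_option autoImplicit false

namespace Pool.Agent.ACC

open Classical in
theorem RBE_vertex {V : Type} (R : Rot V) (c : V → V → ZMod 2) (hI : R.Inv c) (x : V) :
    ∑ y ∈ (R.fin_nb x).toFinset, (c x y + c y x) = 0 := by
  set N := (R.fin_nb x).toFinset with hN
  have hmem : ∀ y, y ∈ N ↔ R.P.Adj x y := by
    intro y
    rw [hN, Set.Finite.mem_toFinset]
    rfl
  have hmaps : ∀ y ∈ N, R.nx x y ∈ N := by
    intro y hy
    rw [hmem] at hy ⊢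
    exact R.nx_adj x y hy
  have hit : ∀ n : ℕ, ∀ y ∈ N, (R.nx x)^[n] y ∈ N := by
    intro n
    induction n with
    | zero => intro y hy; simpa using hy
    | succ n ih =>
      intro y hy
      rw [Function.iterate_succ_apply']
      exact hmaps _ (ih y hy)
  have hsurj : ∀ y ∈ N, ∃ z ∈ N, R.nx x z = y := by
    intro y hy
    obtain ⟨n, hn⟩ := R.cyc x (R.nx x y) y ((hmem _).mp (hmaps y hy)) ((hmem _).mp hy)
    refine ⟨(R.nx x)^[n] y, hit n y hy, ?_⟩
    rw [← Function.iterate_succ_apply' (R.nx x) n y, Function.iterate_succ_apply]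
    exact hn
  have himg : N.image (R.nx x) = N := by
    apply Finset.Subset.antisymm
    · intro y hy
      obtain ⟨z, hz, rfl⟩ := Finset.mem_image.mp hy
      exact hmaps z hz
    · intro y hy
      obtain ⟨z, hz, hzy⟩ := hsurj y hy
      exact Finset.mem_image.mpr ⟨z, hz, hzy⟩
  have hinj : Set.InjOn (R.nx x) (N : Set V) := by
    apply Finset.card_image_iff.mp
    rw [himg]
  have hsum : ∑ y ∈ N, c y x = ∑ y ∈ N, c x y := by
    calc ∑ y ∈ N, c y x = ∑ y ∈ N, c x (R.nx x y) := by
          apply Finset.sum_congr rfl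
          intro y hy
          exact (hI y x ((hmem y).mp hy).symm).symm
      _ = ∑ y ∈ N.image (R.nx x), c x y := by
          rw [Finset.sum_image hinj]
      _ = ∑ y ∈ N, c x y := by rw [himg]
  rw [Finset.sum_add_distrib, hsum]
  exact CharTwo.add_self_eq_zero _

open Classical in
theorem rbe_proof : Stmt_RBE := by
  intro V R c hc A
  obtain ⟨hI, hfin⟩ := hc
  set B := hfin.toFinset with hB
  have hBm : ∀ p, p ∈ B ↔ p ∈ R.bset c := by
    intro p
    rw [hB, Set.Finite.mem_toFinset]
  have hval : ∀ u v : ZMod 2, u ≠ v → u + v = 1 := by decide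
  have hval0 : ∀ u v : ZMod 2, ¬ u ≠ v → u + v = 0 := by decide
  -- all darts of the boundary with first coordinate in A
  have h1 : (((B.filter (fun p => p.1 ∈ A)).card : ℕ) : ZMod 2) = 0 := by
    have hfw : (B.filter (fun p => p.1 ∈ A)).card =
        ∑ x ∈ (B.filter (fun p => p.1 ∈ A)).image Prod.fst,
          ((B.filter (fun p => p.1 ∈ A)).filter (fun p => p.1 = x)).card :=
      Finset.card_eq_sum_card_image Prod.fst _
    rw [hfw, Nat.cast_sum]
    apply Finset.sum_eq_zero
    intro x hx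
    obtain ⟨p0, hp0, hp0x⟩ := Finset.mem_image.mp hx
    have hxA : x ∈ A := by
      rw [← hp0x]
      exact (Finset.mem_filter.mp hp0).2
    have hv := RBE_vertex R c hI x
    have h2 : ∑ y ∈ (R.fin_nb x).toFinset, (c x y + c y x) =
        ∑ y ∈ (R.fin_nb x).toFinset, (if (x, y) ∈ R.bset c then (1 : ZMod 2) else 0) := by
      apply Finset.sum_congr rfl
      intro y hy
      have hadj : R.P.Adj x y := by
        rw [Set.Finite.mem_toFinset] at hy
        exact hy
      by_cases h : c x y ≠ c y x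
      · rw [hval _ _ h, if_pos (show (x, y) ∈ R.bset c from ⟨hadj, h⟩)]
      · rw [hval0 _ _ h, if_neg]
        intro h'
        exact h h'.2
    rw [h2, Finset.sum_ite, Finset.sum_const_zero, add_zero, Finset.sum_const,
      nsmul_eq_mul, mul_one] at hv
    rw [← hv]
    congr 1
    symm
    apply Finset.card_bij (fun y _ => (x, y))
    · intro y hy
      rw [Finset.mem_filter] at hy
      rw [Finset.mem_filter, Finset.mem_filter]
      exact ⟨⟨(hBm _).mpr hy.2, hxA⟩, rfl⟩
    · intro y _ z _ hyz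
      exact (Prod.mk.inj hyz).2
    · intro p hp
      rw [Finset.mem_filter, Finset.mem_filter] at hp
      obtain ⟨⟨hp1, hp2⟩, hp3⟩ := hp
      have hpb := (hBm _).mp hp1
      refine ⟨p.2, ?_, ?_⟩
      · rw [Finset.mem_filter, Set.Finite.mem_toFinset]
        subst hp3
        exact ⟨hpb.1, hpb⟩
      · subst hp3
        rfl
  have h3 : (((B.filter (fun p => p.1 ∈ A ∧ p.2 ∈ A)).card : ℕ) : ZMod 2) = 0 := by
    rw [Finset.card_eq_sum_ones, Nat.cast_sum]
    apply Finset.sum_involution (fun p _ => (p.2, p.1))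
    · intro p _
      rw [Nat.cast_one]
      decide
    · intro p hp _ heq
      rw [Finset.mem_filter] at hp
      have hpb := (hBm _).mp hp.1
      have h4 : p.2 = p.1 := congrArg Prod.fst heq
      exact hpb.1.ne h4.symm
    · intro p hp
      rw [Finset.mem_filter] at hp ⊢
      have hpb := (hBm _).mp hp.1
      exact ⟨(hBm _).mpr ⟨hpb.1.symm, hpb.2.symm⟩, hp.2.2, hp.2.1⟩
    · intro p _
      rfl
  have hset : {p : V × V | p ∈ R.bset c ∧ p.1 ∈ A ∧ p.2 ∉ A} =
      ((B.filter (fun p => p.1 ∈ A ∧ p.2 ∉ A) : Finset (V × V)) : Set (V × V)) := by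
    ext p
    rw [Finset.mem_coe, Finset.mem_filter, hBm]
    rfl
  rw [hset, Set.ncard_coe_finset]
  have hsplit : (B.filter (fun p => p.1 ∈ A)).card =
      (B.filter (fun p => p.1 ∈ A ∧ p.2 ∈ A)).card +
      (B.filter (fun p => p.1 ∈ A ∧ p.2 ∉ A)).card := by
    rw [← Finset.card_filter_add_card_filter_not (s := B.filter (fun p => p.1 ∈ A))
      (fun p => p.2 ∈ A), Finset.filter_filter, Finset.filter_filter]
  rw [hsplit, Nat.cast_add, h3, zero_add] at h1
  rw [← ZMod.natCast_eq_zero_iff_even]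
  exact h1

end Pool.Agent.ACC
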