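import Pool.Agent.ACC.StmtsB

set_option autoImplicit false

namespace Pool.Agent.ACC

namespace RCE_

theorem card_sum {α : Type} (D : Finset α) (f : α → ZMod 2) :
    ((({p | p ∈ D ∧ f p ≠ 0} : Set α).ncard : ℕ) : ZMod 2) = ∑ p ∈ D, f p := by
  classical
  have h1 : ({p | p ∈ D ∧ f p ≠ 0} : Set α) = ((D.filter (fun p => f p ≠ 0) : Finset α) : Set α) := by
    ext p
    simp
  rw [h1, Set.ncard_coe_finset, Finset.card_filter, Nat.cast_sum]
  apply Finset.sum_congr rfl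
  intro p _
  generalize f p = u
  revert u
  decide

theorem zz (u : ZMod 2) : u ≠ 0 ↔ u = 1 := by
  revert u
  decide

end RCE_

open RCE_

theorem rce_proof (h1 : Stmt_RBE) : Stmt_RCE := by
  classical
  intro V R h a hfin
  have hfinM : {p : V × V | (R.P.Adj p.1 p.2 ∧ h p.1 ≠ h p.2) ∧ ¬ R.Eqv a p}.Finite :=
    hfin.subset (fun p hp => hp.1)
  obtain ⟨c, hc, hca, hcM⟩ := R.sep a _ hfinM (fun b hb => hb.2)
  have hcT : ∀ p : V × V, R.P.Adj p.1 p.2 → h p.1 ≠ h p.2 → (R.Eqv a p ↔ c p.1 p.2 ≠ 0) := by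
    intro p hp hh
    constructor
    · intro he
      rw [← he c hc, hca]
      decide
    · intro hne
      by_contra hn
      exact hne (hcM p ⟨⟨hp, hh⟩, hn⟩)
  set D : Finset (V × V) := hfin.toFinset with hD
  have hmem : ∀ p : V × V, p ∈ D ↔ (R.P.Adj p.1 p.2 ∧ h p.1 ≠ h p.2) := by
    intro p
    rw [hD, Set.Finite.mem_toFinset]
    exact Iff.rfl
  have e1 : {p : V × V | R.P.Adj p.1 p.2 ∧ h p.1 ≠ h p.2 ∧ R.Eqv a p} =
      {p | p ∈ D ∧ (fun q : V × V => c q.1 q.2) p ≠ 0} := by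
    ext p
    constructor
    · rintro ⟨ha, hb, he⟩
      exact ⟨(hmem p).mpr ⟨ha, hb⟩, (hcT p ha hb).mp he⟩
    · rintro ⟨hd, he⟩
      have := (hmem p).mp hd
      exact ⟨this.1, this.2, (hcT p this.1 this.2).mpr he⟩
  have e2 : {p : V × V | p ∈ R.bset c ∧ p.1 ∈ {x | h x = 1} ∧ p.2 ∉ {x | h x = 1}} =
      {p | p ∈ D ∧ (fun q : V × V => h q.1 * (c q.1 q.2 + c q.2 q.1)) p ≠ 0} := by
    ext p
    have key : ∀ x y u v : ZMod 2, (u ≠ v ∧ x = 1 ∧ ¬ y = 1) ↔ (x ≠ y ∧ x * (u + v) ≠ 0) := by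
      decide
    have := key (h p.1) (h p.2) (c p.1 p.2) (c p.2 p.1)
    constructor
    · rintro ⟨⟨ha, hb⟩, h2, h3⟩
      have h4 := this.mp ⟨hb, h2, h3⟩
      exact ⟨(hmem p).mpr ⟨ha, h4.1⟩, h4.2⟩
    · rintro ⟨hd, he⟩
      have h5 := (hmem p).mp hd
      have h6 := this.mpr ⟨h5.2, he⟩
      exact ⟨⟨h5.1, h6.1⟩, h6.2.1, h6.2.2⟩
  have hev := h1 V R c hc {x | h x = 1}
  rw [e2] at hev
  rw [e1]
  rw [← ZMod.natCast_eq_zero_iff_even] at hev ⊢
  rw [card_sum] at hev ⊢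
  rw [← hev]
  have hsw : ∑ p ∈ D, h p.1 * c p.2 p.1 = ∑ p ∈ D, h p.2 * c p.1 p.2 := by
    apply Finset.sum_nbij' (fun p => p.swap) (fun p => p.swap)
    · intro p hp
      rw [hmem] at hp ⊢
      exact ⟨hp.1.symm, fun h' => hp.2 h'.symm⟩
    · intro p hp
      rw [hmem] at hp ⊢
      exact ⟨hp.1.symm, fun h' => hp.2 h'.symm⟩
    · intro p _
      simp
    · intro p _
      simp
    · intro p _
      simp
  have hsplit : ∑ p ∈ D, h p.1 * (c p.1 p.2 + c p.2 p.1) =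
      ∑ p ∈ D, h p.1 * c p.1 p.2 + ∑ p ∈ D, h p.1 * c p.2 p.1 := by
    rw [← Finset.sum_add_distrib]
    apply Finset.sum_congr rfl
    intro p _
    ring
  rw [hsplit, hsw, ← Finset.sum_add_distrib]
  apply Finset.sum_congr rfl
  intro p hp
  rw [hmem] at hp
  have h7 := hp.2
  revert h7
  generalize h p.1 = x
  generalize h p.2 = y
  generalize c p.1 p.2 = u
  revert x y u
  decide

end Pool.Agent.ACC
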