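import Pool.Agent.ACC.StmtsB

/-!
# Squad ACB, module RCS
-/

set_option autoImplicit false

namespace Pool.Agent.ACC

theorem RCS_vertex {V : Type} (R : Rot V) (c : V → V → ZMod 2) (hI : R.Inv c) (z : V)
    (h : ∀ z', R.P.Adj z z' → c z z' = c z' z) (z' z'' : V) (h' : R.P.Adj z z')
    (h'' : R.P.Adj z z'') : c z z' = c z z'' := by
  obtain ⟨n, hn⟩ := R.cyc z z' z'' h' h''
  have key : ∀ m : ℕ, R.P.Adj z ((R.nx z)^[m] z') ∧ c z ((R.nx z)^[m] z') = c z z' := by
    intro m
    induction m with
    | zero => exact ⟨h', rfl⟩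
    | succ m ih =>
      rw [Function.iterate_succ_apply']
      refine ⟨R.nx_adj _ _ ih.1, ?_⟩
      rw [hI _ _ ih.1.symm, ← h _ ih.1]
      exact ih.2
  rw [← hn]
  exact (key n).2.symm

theorem rcs_proof : Stmt_RCS := by
  intro V R c hI x y w
  induction w with
  | nil =>
    intro hs x' y' hx hy
    have h := hs _ (SimpleGraph.Walk.start_mem_support _)
    have h1 := RCS_vertex R c hI _ h x' y' hx hy
    exact ⟨h1, (h x' hx).symm.trans h1⟩
  | @cons a b d hadj p ih =>
    intro hs x' y' hx hy
    have h := hs _ (SimpleGraph.Walk.start_mem_support _)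
    have h1 := RCS_vertex R c hI _ h x' b hx hadj
    have h2 := ih (fun z hz => hs z (by
      rw [SimpleGraph.Walk.support_cons]
      exact List.mem_cons_of_mem _ hz)) a y' hadj.symm hy
    have h3 : c a x' = c d y' := by
      rw [h1]
      exact h2.2
    exact ⟨h3, (h x' hx).symm.trans h3⟩

end Pool.Agent.ACC
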