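import Pool.Agent.ACC.StmtsB

/-!
# Squad ACB, module RDP
-/

set_option autoImplicit false

namespace Pool.Agent.ACC

theorem RDP_cancel (u v w : ZMod 2) : u + w = (u + v) + (v + w) := by
  revert u v w
  decide

theorem RDP_vertex {V : Type} (R : Rot V) (x x' : V) (h' : R.P.Adj x x') (n : ℕ) :
    ∃ l : List (V × V), (∀ p ∈ l, R.P.Adj p.1 p.2 ∧ p.1 = x) ∧
    ∀ c, R.Inv c → c x x' + c x ((R.nx x)^[n] x') =
      (l.map (fun p => c p.1 p.2 + c p.2 p.1)).sum := by
  have hadj : ∀ m : ℕ, R.P.Adj x ((R.nx x)^[m] x') := by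
    intro m
    induction m with
    | zero => exact h'
    | succ m ih =>
      rw [Function.iterate_succ_apply']
      exact R.nx_adj _ _ ih
  induction n with
  | zero =>
    refine ⟨[], by simp, ?_⟩
    intro c _
    simp only [Function.iterate_zero, id_eq, List.map_nil, List.sum_nil]
    exact CharTwo.add_self_eq_zero _
  | succ n ih =>
    obtain ⟨l, hl, hs⟩ := ih
    refine ⟨l ++ [(x, (R.nx x)^[n] x')], ?_, ?_⟩
    · intro p hp
      rcases List.mem_append.mp hp with hp | hp
      · exact hl p hp
      · rw [List.mem_singleton] at hp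
        subst hp
        exact ⟨hadj n, rfl⟩
    · intro c hc
      rw [Function.iterate_succ_apply', hc _ _ (hadj n).symm, List.map_append, List.sum_append,
        ← hs c hc, List.map_singleton, List.sum_singleton]
      exact RDP_cancel _ _ _

theorem rdp_proof : Stmt_RDP := by
  intro V R x y w
  induction w with
  | nil =>
    intro x' y' hx hy
    obtain ⟨n, hn⟩ := R.cyc _ x' y' hx hy
    obtain ⟨l, hl, hs⟩ := RDP_vertex R _ x' hx n
    refine ⟨l, ?_, ?_⟩
    · intro p hp
      refine ⟨(hl p hp).1, ?_⟩
      rw [(hl p hp).2]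
      exact SimpleGraph.Walk.start_mem_support _
    · intro c hc
      rw [← hn]
      exact hs c hc
  | @cons a b d hadj p ih =>
    intro x' y' hx hy
    obtain ⟨n, hn⟩ := R.cyc a x' b hx hadj
    obtain ⟨l1, hl1, hs1⟩ := RDP_vertex R a x' hx n
    obtain ⟨l2, hl2, hs2⟩ := ih a y' hadj.symm hy
    refine ⟨l1 ++ ((a, b) :: l2), ?_, ?_⟩
    · intro q hq
      rw [SimpleGraph.Walk.support_cons]
      rcases List.mem_append.mp hq with hq | hq
      · refine ⟨(hl1 q hq).1, ?_⟩
        rw [(hl1 q hq).2]
        exact List.mem_cons_self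
      · rcases List.mem_cons.mp hq with hq | hq
        · subst hq
          exact ⟨hadj, List.mem_cons_self⟩
        · exact ⟨(hl2 q hq).1, List.mem_cons_of_mem _ (hl2 q hq).2⟩
    · intro c hc
      have e1 := hs1 c hc
      have e2 := hs2 c hc
      rw [hn] at e1
      rw [List.map_append, List.sum_append, List.map_cons, List.sum_cons, ← e1, ← e2]
      generalize c a x' = u1
      generalize c d y' = u2
      generalize c a b = u3
      generalize c b a = u4
      revert u1 u2 u3 u4
      decide

end Pool.Agent.ACC
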