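import Pool.Agent.ACC.StmtsB

/-!
Module REV: planarity for finite even edge sets.
-/

set_option autoImplicit false

namespace Pool.Agent.ACC

namespace REV_

variable {V : Type}

open Classical in
/-- the number of edges of a trail at a vertex -/
theorem ncard_trail {P : SimpleGraph V} {x y : V} (w : P.Walk x y) (hw : w.IsTrail) (v : V) :
    {e | e ∈ w.edges ∧ v ∈ e}.ncard = w.edges.countP (fun e => v ∈ e) := by
  have h1 : {e | e ∈ w.edges ∧ v ∈ e} =
      ((w.edges.filter (fun e => v ∈ e)).toFinset : Set (Sym2 V)) := by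
    ext e
    simp
  rw [h1, Set.ncard_coe_finset, List.toFinset_card_of_nodup (hw.edges_nodup.filter _),
    List.countP_eq_length_filter]

/-- a longest trail inside a finite set of edges -/
theorem exists_longest (P : SimpleGraph V) (J : Set (Sym2 V)) (hJ : J.Finite)
    (x0 y0 : V) (h0 : P.Adj x0 y0) (h0J : s(x0, y0) ∈ J) :
    ∃ (x y : V) (w : P.Walk x y), w.IsTrail ∧ (∀ e ∈ w.edges, e ∈ J) ∧ 1 ≤ w.length ∧
      ∀ (x' y' : V) (w' : P.Walk x' y'), w'.IsTrail → (∀ e ∈ w'.edges, e ∈ J) →
        w'.length ≤ w.length := by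
  classical
  set S : Set ℕ := {n | ∃ (x y : V) (w : P.Walk x y), w.IsTrail ∧ (∀ e ∈ w.edges, e ∈ J) ∧
    w.length = n} with hS
  have hb : BddAbove S := by
    refine ⟨J.ncard, ?_⟩
    rintro n ⟨x, y, w, hw, hwJ, rfl⟩
    have h1 : w.edges.toFinset.card = w.length := by
      rw [List.toFinset_card_of_nodup hw.edges_nodup, SimpleGraph.Walk.length_edges]
    rw [← h1, ← Set.ncard_coe_finset]
    refine Set.ncard_le_ncard ?_ hJ
    intro e he
    exact hwJ e (by simpa using he)
  have h1 : 1 ∈ S := by
    refine ⟨x0, y0, SimpleGraph.Walk.cons h0 SimpleGraph.Walk.nil, ?_, ?_, rfl⟩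
    · simp [SimpleGraph.Walk.isTrail_def]
    · intro e he
      simp at he
      rw [he]
      exact h0J
  obtain ⟨x, y, w, hw, hwJ, hl⟩ := Nat.sSup_mem ⟨1, h1⟩ hb
  refine ⟨x, y, w, hw, hwJ, ?_, ?_⟩
  · rw [hl]
    exact le_csSup hb h1
  · intro x' y' w' hw' hwJ'
    rw [hl]
    exact le_csSup hb ⟨x', y', w', hw', hwJ', rfl⟩

/-- a closed trail inside a finite even set of edges -/
theorem exists_closed (P : SimpleGraph V) (J : Set (Sym2 V)) (hJ : J.Finite)
    (hP : J ⊆ P.edgeSet) (hev : ∀ x, Even {e | e ∈ J ∧ x ∈ e}.ncard) (hne : J.Nonempty) :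
    ∃ (x : V) (w : P.Walk x x), w.IsTrail ∧ (∀ e ∈ w.edges, e ∈ J) ∧ 1 ≤ w.length := by
  classical
  obtain ⟨e0, he0⟩ := hne
  induction e0 using Sym2.ind with
  | _ x0 y0 =>
    obtain ⟨x, y, w, hw, hwJ, hl, hmax⟩ := exists_longest P J hJ x0 y0 (hP he0) he0
    by_cases hxy : x = y
    · subst hxy
      exact ⟨x, w, hw, hwJ, hl⟩
    · exfalso
      have h1 : ¬ Even (w.edges.countP (fun e => y ∈ e)) := by
        rw [hw.even_countP_edges_iff y]
        intro h
        exact (h hxy).2 rfl
      rw [← ncard_trail w hw y] at h1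
      have h2 : ∃ e ∈ J, y ∈ e ∧ e ∉ w.edges := by
        by_contra hcon
        push Not at hcon
        apply h1
        have : {e | e ∈ w.edges ∧ y ∈ e} = {e | e ∈ J ∧ y ∈ e} := by
          ext e
          exact ⟨fun h => ⟨hwJ e h.1, h.2⟩, fun h => ⟨hcon e h.1 h.2, h.2⟩⟩
        rw [this]
        exact hev y
      obtain ⟨e, heJ, hye, hew⟩ := h2
      obtain ⟨z, rfl⟩ := Sym2.mem_iff_exists.mp hye
      have hadj : P.Adj y z := hP heJ
      have h3 := hmax x z (w.concat hadj) (by
          rw [SimpleGraph.Walk.isTrail_def, SimpleGraph.Walk.edges_concat,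
            List.concat_eq_append]
          rw [List.nodup_append]
          refine ⟨hw.edges_nodup, by simp, ?_⟩
          intro a ha b hb hab
          simp at hb
          subst hab
          subst hb
          exact hew ha) (by
          intro a ha
          rw [SimpleGraph.Walk.edges_concat, List.concat_eq_append, List.mem_append] at ha
          rcases ha with ha | ha
          · exact hwJ a ha
          · simp at ha
            rw [ha]
            exact heJ)
      rw [SimpleGraph.Walk.length_concat] at h3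
      omega

theorem zmod_ne_iff (a b : ZMod 2) : a ≠ b ↔ a + b = 1 := by
  revert a b
  decide

end REV_

open REV_ in
theorem rev_proof : Stmt_REV := by
  classical
  intro V R hpl J hJ
  induction' hn : J.ncard using Nat.strong_induction_on with n ih generalizing J
  intro hP hev
  rcases Set.eq_empty_or_nonempty J with rfl | hne
  · refine ⟨fun _ _ => 0, R.col_const 0, fun y z _ => ?_⟩
    simp
  · obtain ⟨x, w, hw, hwJ, hl⟩ := exists_closed R.P J hJ hP hev hne
    obtain ⟨c1, hc1, hb1⟩ := hpl x w
    set D : Set (Sym2 V) := {e | e ∈ w.edges} with hD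
    have hDJ : D ⊆ J := hwJ
    have hDne : D.Nonempty := by
      rcases hw' : w.edges with _ | ⟨e, l⟩
      · exfalso
        have := w.length_edges
        rw [hw'] at this
        simp at this
        omega
      · exact ⟨e, by simp [hD, hw']⟩
    have hlt : (J \ D).ncard < n := by
      rw [← hn]
      exact Set.ncard_lt_ncard ⟨Set.sdiff_subset, fun h => by
        obtain ⟨e, he⟩ := hDne
        exact (h (hDJ he)).2 he⟩ hJ
    obtain ⟨c2, hc2, hb2⟩ := ih _ hlt (J \ D) (hJ.subset Set.sdiff_subset) rfl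
      (Set.sdiff_subset.trans hP) (by
        intro v
        have h1 : {e | e ∈ J \ D ∧ v ∈ e} = {e | e ∈ J ∧ v ∈ e} \ {e | e ∈ w.edges ∧ v ∈ e} := by
          ext e
          constructor
          · rintro ⟨⟨h1, h2⟩, h3⟩
            exact ⟨⟨h1, h3⟩, fun h => h2 h.1⟩
          · rintro ⟨⟨h1, h2⟩, h3⟩
            exact ⟨⟨h1, fun h => h3 ⟨h, h2⟩⟩, h2⟩
        have hsub : {e | e ∈ w.edges ∧ v ∈ e} ⊆ {e | e ∈ J ∧ v ∈ e} :=
          fun e he => ⟨hwJ e he.1, he.2⟩
        have hfin : {e | e ∈ w.edges ∧ v ∈ e}.Finite :=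
          (hJ.subset (Set.sep_subset _ _)).subset hsub
        rw [h1, Set.ncard_sdiff hsub hfin]
        have h2 : Even {e | e ∈ w.edges ∧ v ∈ e}.ncard := by
          rw [ncard_trail w hw v, hw.even_countP_edges_iff v]
          intro h
          exact absurd rfl h
        have h3 := Set.ncard_le_ncard hsub (hJ.subset (Set.sep_subset _ _))
        exact (Nat.even_sub h3).mpr ⟨fun _ => h2, fun _ => hev v⟩)
    refine ⟨fun y z => c1 y z + c2 y z, R.col_add hc1 hc2, fun y z hyz => ?_⟩
    have e1 := hb1 y z hyz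
    have e2 := hb2 y z hyz
    have e3 : s(y, z) ∈ J ↔ (s(y, z) ∈ D ∨ s(y, z) ∈ J \ D) := by
      constructor
      · intro h
        by_cases h' : s(y, z) ∈ D
        · exact Or.inl h'
        · exact Or.inr ⟨h, h'⟩
      · rintro (h | h)
        · exact hDJ h
        · exact h.1
    rw [zmod_ne_iff] at e2
    show c1 y z + c2 y z ≠ c1 z y + c2 z y ↔ _
    rw [zmod_ne_iff, e3]
    have e4 : c1 y z + c2 y z + (c1 z y + c2 z y) = par w.edges y z + (c2 y z + c2 z y) := by
      rw [← e1]
      ring
    rw [e4]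
    by_cases h : s(y, z) ∈ D
    · have h' : s(y, z) ∉ J \ D := fun h2 => h2.2 h
      have hp : par w.edges y z = 1 := by
        unfold par
        rw [List.count_eq_one_of_mem hw.edges_nodup h]
        simp
      have h0 : c2 y z + c2 z y ≠ 1 := fun h2 => h' (e2.mp h2)
      have h00 : c2 y z + c2 z y = 0 := by
        revert h0
        generalize c2 y z + c2 z y = u
        revert u
        decide
      rw [hp, h00]
      simp [h]
    · have hp : par w.edges y z = 0 := by
        unfold par
        rw [List.count_eq_zero_of_not_mem h]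
        simp
      rw [hp, zero_add, e2]
      simp [h]

end Pool.Agent.ACC
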