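import Pool.Agent.ACC.StmtsB

/-!
Module RMP: transport of rotation systems.
-/

set_option autoImplicit false

namespace Pool.Agent.ACC

namespace RMP_

variable {V : Type}

theorem adj_map (R : Rot V) (e : Equiv.Perm V) (x y : V) :
    (R.map e).P.Adj x y ↔ R.P.Adj (e.symm x) (e.symm y) := Iff.rfl

theorem adj_map' (R : Rot V) (e : Equiv.Perm V) (x y : V) :
    (R.map e).P.Adj (e x) (e y) ↔ R.P.Adj x y := by
  rw [adj_map, Equiv.symm_apply_apply, Equiv.symm_apply_apply]

/-- `e` as a homomorphism -/
def hom (R : Rot V) (e : Equiv.Perm V) : R.P →g (R.map e).P where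
  toFun := e
  map_rel' := fun {a b} h => (adj_map' R e a b).mpr h

/-- the inverse as a homomorphism -/
def hom' (R : Rot V) (e : Equiv.Perm V) : (R.map e).P →g R.P where
  toFun := e.symm
  map_rel' := fun {a b} h => (adj_map R e a b).mp h

theorem walk_map (R : Rot V) (e : Equiv.Perm V) {x y : V} (w : R.P.Walk x y) :
    ∃ w' : (R.map e).P.Walk (e x) (e y), w'.length = w.length :=
  ⟨w.map (hom R e), SimpleGraph.Walk.length_map _ _⟩

theorem walk_map2 (R : Rot V) (e : Equiv.Perm V) (x y : V)
    (w : R.P.Walk (e.symm x) (e.symm y)) :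
    ∃ w' : (R.map e).P.Walk x y, w'.length = w.length := by
  obtain ⟨w', hw'⟩ := walk_map R e w
  refine ⟨w'.copy (e.apply_symm_apply x) (e.apply_symm_apply y), ?_⟩
  rw [SimpleGraph.Walk.length_copy, hw']

theorem col_map (R : Rot V) (e : Equiv.Perm V) {c : V → V → ZMod 2} (hc : R.Col c) :
    (R.map e).Col (fun x y => c (e.symm x) (e.symm y)) := by
  refine ⟨fun x y h => ?_, ?_⟩
  · show c (e.symm y) (e.symm (e (R.nx (e.symm y) (e.symm x)))) = c (e.symm x) (e.symm y)
    rw [Equiv.symm_apply_apply]
    exact hc.1 _ _ h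
  · have h1 : (R.map e).bset (fun x y => c (e.symm x) (e.symm y)) =
        (Prod.map e.symm e.symm) ⁻¹' (R.bset c) := rfl
    rw [h1]
    exact hc.2.preimage ((e.symm.injective.prodMap e.symm.injective).injOn)

theorem col_map' (R : Rot V) (e : Equiv.Perm V) {c : V → V → ZMod 2} (hc : (R.map e).Col c) :
    R.Col (fun x y => c (e x) (e y)) := by
  refine ⟨fun x y h => ?_, ?_⟩
  · have h1 := hc.1 (e x) (e y) ((adj_map' R e x y).mpr h)
    have h2 : (R.map e).nx (e y) (e x) = e (R.nx y x) := by
      show e (R.nx (e.symm (e y)) (e.symm (e x))) = e (R.nx y x)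
      rw [Equiv.symm_apply_apply, Equiv.symm_apply_apply]
    rw [h2] at h1
    exact h1
  · have h1 : R.bset (fun x y => c (e x) (e y)) ⊆
        (Prod.map e e) ⁻¹' ((R.map e).bset c) := by
      intro p hp
      exact ⟨(adj_map' R e p.1 p.2).mpr hp.1, hp.2⟩
    exact (hc.2.preimage ((e.injective.prodMap e.injective).injOn)).subset h1

theorem par_map (e : Equiv.Perm V) (l : List (Sym2 V)) (y z : V) :
    par (l.map (Sym2.map e)) (e y) (e z) = par l y z := by
  classical
  unfold par
  have h1 : s(e y, e z) = Sym2.map e s(y, z) := by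
    rw [Sym2.map_mk]
  rw [h1, List.count_map_of_injective _ _ (Sym2.map.injective e.injective)]

end RMP_

open RMP_ in
theorem rmp_proof : Stmt_RMP := by
  intro V X lam R e hX
  have hX' : ∀ x y, X.Adj (e.symm x) (e.symm y) ↔ X.Adj x y := by
    intro x y
    rw [← hX, Equiv.apply_symm_apply, Equiv.apply_symm_apply]
  refine ⟨?_, ?_, ?_, adj_map' R e⟩
  · rintro ⟨hle, hcon, hd⟩
    refine ⟨?_, ?_, ?_⟩
    · intro x y h
      exact (hX' x y).mp (hle ((adj_map R e x y).mp h))
    · have := hcon.nonempty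
      refine SimpleGraph.Connected.mk ?_
      intro x y
      obtain ⟨w⟩ := hcon.preconnected (e.symm x) (e.symm y)
      exact ⟨(walk_map2 R e x y w).choose⟩
    · intro x y h
      have h1 := hd _ _ ((hX' x y).mpr h)
      obtain ⟨w, hw⟩ := hcon.exists_walk_length_eq_dist (e.symm x) (e.symm y)
      obtain ⟨w', hw'⟩ := walk_map2 R e x y w
      have h2 := SimpleGraph.dist_le w'
      omega
  · intro hpl x w
    obtain ⟨c, hc, hb⟩ := hpl _ (w.map (hom' R e))
    refine ⟨fun x y => c (e.symm x) (e.symm y), col_map R e hc, fun y z h => ?_⟩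
    rw [hb _ _ ((adj_map R e y z).mp h), SimpleGraph.Walk.edges_map]
    exact par_map e.symm w.edges y z
  · intro a b
    constructor
    · intro h c hc
      exact h _ (col_map' R e hc)
    · intro h c hc
      have h1 := h _ (col_map R e hc)
      simpa using h1

end Pool.Agent.ACC
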