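import Pool.Agent.ACC.StmtsB

set_option autoImplicit false

namespace Pool.Agent.ACC

namespace RPO_

variable {V : Type} {P : SimpleGraph V}

theorem ws_append (D : V → V → ZMod 2) {x y z : V} (w : P.Walk x y) (w' : P.Walk y z) :
    wsum D (w.append w') = wsum D w + wsum D w' := by
  unfold wsum
  rw [SimpleGraph.Walk.darts_append, List.map_append, List.sum_append]

theorem ws_cons (D : V → V → ZMod 2) {x y z : V} (h : P.Adj x y) (w : P.Walk y z) :
    wsum D (SimpleGraph.Walk.cons h w) = D x y + wsum D w := by
  unfold wsum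
  rw [SimpleGraph.Walk.darts_cons, List.map_cons, List.sum_cons]

theorem ws_reverse (D : V → V → ZMod 2) (hD : ∀ x y, D x y = D y x) {x y : V}
    (w : P.Walk x y) : wsum D w.reverse = wsum D w := by
  unfold wsum
  rw [SimpleGraph.Walk.darts_reverse, List.map_reverse, List.sum_reverse, List.map_map]
  congr 1
  apply List.map_congr_left
  intro d _
  exact hD _ _

end RPO_

open RPO_ in
theorem rpo_proof : Stmt_RPO := by
  intro V P D hc hD hcl
  obtain ⟨x0⟩ := hc.nonempty
  have hW : ∀ x, Nonempty (P.Walk x0 x) := fun x => hc.preconnected x0 x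
  refine ⟨fun x => wsum D (hW x).some, fun x y hxy => ?_⟩
  have h := hcl x0 ((hW x).some.append (SimpleGraph.Walk.cons hxy (hW y).some.reverse))
  rw [ws_append, ws_cons, ws_reverse D hD] at h
  show D x y = wsum D (hW x).some + wsum D (hW y).some
  have e : wsum D (hW x).some + (D x y + wsum D (hW y).some)
      = D x y + (wsum D (hW x).some + wsum D (hW y).some) := by ring
  rw [e] at h
  exact CharTwo.add_eq_zero.1 h

end Pool.Agent.ACC
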