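import Pool.Agent.ACC.StmtsB

/-!
Squad ACB, module RSP: separation of two finite sets which touch no common class.
-/

set_option autoImplicit false

namespace Pool.Agent.ACC

namespace RSP_

variable {V : Type}

theorem fin_darts (R : Rot V) {X : Set V} (hX : X.Finite) :
    {p : V × V | p.1 ∈ X ∧ R.P.Adj p.1 p.2}.Finite := by
  refine (hX.biUnion (t := fun x => (fun y => (x, y)) '' {y | R.P.Adj x y})
    (fun x _ => (R.fin_nb x).image _)).subset ?_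
  rintro ⟨x, y⟩ ⟨hx, hxy⟩
  simp only [Set.mem_iUnion]
  exact ⟨x, hx, y, hxy, rfl⟩

theorem zor1 (a b : ZMod 2) (h : a = 1 ∨ b = 1) : a + b + a * b = 1 := by
  revert a b; decide

theorem sepA (R : Rot V) (M : Set (V × V)) (hM : M.Finite) (A : Set (V × V)) (hA : A.Finite) :
    (∀ a ∈ A, ∀ b ∈ M, ¬ R.Eqv a b) →
    ∃ c, R.Col c ∧ (∀ a ∈ A, c a.1 a.2 = 1) ∧ ∀ b ∈ M, c b.1 b.2 = 0 := by
  induction A, hA using Set.Finite.induction_on with
  | empty => exact fun _ => ⟨fun _ _ => 0, R.col_const 0, by simp, fun _ _ => rfl⟩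
  | @insert a A _ _ ih =>
    intro h
    obtain ⟨c, hc, hcA, hcM⟩ := ih (fun a' ha' => h a' (Set.mem_insert_of_mem _ ha'))
    obtain ⟨d, hd, hda, hdM⟩ := R.sep a M hM (h a (Set.mem_insert _ _))
    refine ⟨fun x y => (c x y + d x y) + c x y * d x y,
      R.col_add (R.col_add hc hd) (R.col_mul hc hd), ?_, ?_⟩
    · intro a' ha'
      rcases Set.mem_insert_iff.mp ha' with rfl | ha'
      · exact zor1 _ _ (Or.inr hda)
      · exact zor1 _ _ (Or.inl (hcA a' ha'))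
    · intro b hb
      simp only [hcM b hb, hdM b hb, add_zero, mul_zero]

end RSP_

open RSP_ in
theorem rsp_proof : Stmt_RSP := by
  intro V R X Y hX hY h
  obtain ⟨c, hc, hcX, hcY⟩ := sepA R {p : V × V | p.1 ∈ Y ∧ R.P.Adj p.1 p.2} (fin_darts R hY)
    {p : V × V | p.1 ∈ X ∧ R.P.Adj p.1 p.2} (fin_darts R hX)
    (fun a ha b hb => h a b ha.2 hb.2 ha.1 hb.1)
  refine ⟨c, hc, ?_, ?_⟩
  · intro x hx y hxy
    refine ⟨hcX (x, y) ⟨hx, hxy⟩, ?_⟩
    rw [← hc.1 y x hxy.symm]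
    exact hcX (x, R.nx x y) ⟨hx, R.nx_adj x y hxy⟩
  · intro x hx y hxy
    refine ⟨hcY (x, y) ⟨hx, hxy⟩, ?_⟩
    rw [← hc.1 y x hxy.symm]
    exact hcY (x, R.nx x y) ⟨hx, R.nx_adj x y hxy⟩

end Pool.Agent.ACC
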