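import Pool.Agent.ACC.StmtsB

set_option autoImplicit false

namespace Pool.Agent.ACC

namespace RST_

theorem zm2 (x : ZMod 2) (h : x ≠ 0) : x = 1 := by
  revert x
  decide

/-- the sum of a symmetric function along a walk as a sum over a finite symmetric set of darts -/
theorem wsum_eq {V : Type} (P : SimpleGraph V) (c D : V → V → ZMod 2) (x : V)
    (w : P.Walk x x) (hD : ∀ y z, D y z = D z y)
    (hT : {p : V × V | P.Adj p.1 p.2 ∧ D p.1 p.2 ≠ 0}.Finite)
    (hb : ∀ y z, P.Adj y z → c y z + c z y = par w.edges y z) :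
    wsum D w = ∑ p ∈ hT.toFinset, c p.1 p.2 := by
  classical
  set T : Finset (V × V) := hT.toFinset with hTdef
  have memT : ∀ p : V × V, p ∈ T ↔ (P.Adj p.1 p.2 ∧ D p.1 p.2 ≠ 0) := by
    intro p
    rw [hTdef, Set.Finite.mem_toFinset]
    exact Iff.rfl
  set F : Sym2 V → ZMod 2 := Sym2.lift ⟨D, hD⟩ with hF
  have h1 : wsum D w = (w.edges.map F).sum := by
    unfold wsum SimpleGraph.Walk.edges
    rw [List.map_map]
    rfl
  have h2 : (w.edges.map F).sum = ∑ e ∈ T.image (fun p : V × V => s(p.1, p.2)),
      w.edges.count e • F e := by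
    rw [Finset.sum_list_map_count]
    have h3 : ∑ e ∈ w.edges.toFinset, w.edges.count e • F e =
        ∑ e ∈ w.edges.toFinset ∪ T.image (fun p : V × V => s(p.1, p.2)),
          w.edges.count e • F e := by
      apply Finset.sum_subset Finset.subset_union_left
      intro e _ he
      have : w.edges.count e = 0 := by
        rw [List.count_eq_zero]
        intro h
        exact he (List.mem_toFinset.mpr h)
      rw [this, zero_smul]
    have h4 : ∑ e ∈ T.image (fun p : V × V => s(p.1, p.2)), w.edges.count e • F e =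
        ∑ e ∈ w.edges.toFinset ∪ T.image (fun p : V × V => s(p.1, p.2)),
          w.edges.count e • F e := by
      apply Finset.sum_subset Finset.subset_union_right
      intro e he' he
      rcases Finset.mem_union.mp he' with h | h
      · have h5 : e ∈ P.edgeSet := w.edges_subset_edgeSet (List.mem_toFinset.mp h)
        induction e using Sym2.ind with
        | _ y z =>
          have h6 : P.Adj y z := h5
          have h7 : F s(y, z) = 0 := by
            by_contra h8
            apply he
            rw [Finset.mem_image]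
            exact ⟨(y, z), (memT (y, z)).mpr ⟨h6, h8⟩, rfl⟩
          rw [h7, smul_zero]
      · exact absurd h he
    rw [h3, h4]
  rw [h1, h2]
  rw [← Finset.sum_fiberwise_of_maps_to (s := T)
    (t := T.image (fun p : V × V => s(p.1, p.2))) (g := fun p : V × V => s(p.1, p.2))
    (fun i hi => Finset.mem_image_of_mem _ hi)]
  apply Finset.sum_congr rfl
  intro e he
  obtain ⟨⟨y, z⟩, hp, rfl⟩ := Finset.mem_image.mp he
  have hyz := (memT (y, z)).mp hp
  have hzy : (z, y) ∈ T := by
    rw [memT]
    refine ⟨hyz.1.symm, ?_⟩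
    show D z y ≠ 0
    rw [← hD]
    exact hyz.2
  have h6 : F s(y, z) = 1 := zm2 _ hyz.2
  have h7 : T.filter (fun i : V × V => s(i.1, i.2) = s(y, z)) = {(y, z), (z, y)} := by
    ext ⟨i, j⟩
    simp only [Finset.mem_filter, Finset.mem_insert, Finset.mem_singleton, Prod.mk.injEq]
    constructor
    · rintro ⟨_, h⟩
      rcases Sym2.eq_iff.mp h with h | h
      · exact Or.inl h
      · exact Or.inr h
    · rintro (⟨rfl, rfl⟩ | ⟨rfl, rfl⟩)
      · exact ⟨hp, rfl⟩
      · exact ⟨hzy, Sym2.eq_swap⟩
  have hne : (y, z) ≠ (z, y) := by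
    intro h
    have := congrArg Prod.fst h
    simp only at this
    exact hyz.1.ne this
  simp only
  rw [h7, Finset.sum_pair hne, h6]
  simp only
  rw [hb y z hyz.1]
  unfold par
  rw [nsmul_eq_mul, mul_one]

end RST_

open RST_ in
theorem rst_proof (hRCE : Stmt_RCE) : Stmt_RST := by
  classical
  intro V R c D x w hc hD hT hb hh
  rw [wsum_eq R.P c D x w hD hT hb]
  set T : Finset (V × V) := hT.toFinset with hTdef
  have memT : ∀ p : V × V, p ∈ T ↔ (R.P.Adj p.1 p.2 ∧ D p.1 p.2 ≠ 0) := by
    intro p
    rw [hTdef, Set.Finite.mem_toFinset]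
    exact Iff.rfl
  let S : Setoid (V × V) := ⟨R.Eqv, fun a => R.eqv_refl a, fun h => R.eqv_symm h,
    fun h h' => R.eqv_trans h h'⟩
  rw [← Finset.sum_fiberwise_of_maps_to (s := T)
    (t := T.image (fun p : V × V => Quotient.mk S p)) (g := fun p : V × V => Quotient.mk S p)
    (fun i hi => Finset.mem_image_of_mem _ hi)]
  apply Finset.sum_eq_zero
  intro j hj
  obtain ⟨a, ha, rfl⟩ := Finset.mem_image.mp hj
  have hcl : ∀ i : V × V, Quotient.mk S i = Quotient.mk S a ↔ R.Eqv a i := by
    intro i
    constructor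
    · intro h
      exact R.eqv_symm (Quotient.exact h)
    · intro h
      exact Quotient.sound (R.eqv_symm h)
  by_cases hca : c a.1 a.2 = 0
  · apply Finset.sum_eq_zero
    intro i hi
    rw [Finset.mem_filter] at hi
    have h1 := (hcl i).mp hi.2
    rw [← h1 c hc]
    exact hca
  · have hca1 : c a.1 a.2 = 1 := zm2 _ hca
    have haT := (memT a).mp ha
    obtain ⟨h, hfin, hpot⟩ := hh a haT.1 hca1
    have hev := hRCE V R h a hfin
    have h2 : ∑ i ∈ T.filter (fun i : V × V => Quotient.mk S i = Quotient.mk S a), c i.1 i.2 =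
        ((T.filter (fun i : V × V => Quotient.mk S i = Quotient.mk S a)).card : ZMod 2) := by
      rw [Finset.cast_card]
      apply Finset.sum_congr rfl
      intro i hi
      rw [Finset.mem_filter] at hi
      have h1 := (hcl i).mp hi.2
      rw [← h1 c hc]
      exact hca1
    rw [h2]
    have h3 : {p : V × V | R.P.Adj p.1 p.2 ∧ h p.1 ≠ h p.2 ∧ R.Eqv a p} =
        ((T.filter (fun i : V × V => Quotient.mk S i = Quotient.mk S a) : Finset (V × V)) :
          Set (V × V)) := by
      ext p
      rw [Finset.coe_filter]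
      simp only [Set.mem_ofPred_eq, memT, hcl]
      constructor
      · rintro ⟨h4, h5, h6⟩
        refine ⟨⟨h4, ?_⟩, h6⟩
        rw [hpot p h4 h6]
        intro h7
        apply h5
        rw [← sub_eq_zero, CharTwo.sub_eq_add]
        exact h7
      · rintro ⟨⟨h4, h5⟩, h6⟩
        refine ⟨h4, ?_, h6⟩
        intro h7
        apply h5
        rw [hpot p h4 h6, h7]
        exact CharTwo.add_self_eq_zero _
    rw [h3, Set.ncard_coe_finset] at hev
    obtain ⟨m, hm⟩ := hev
    rw [hm]
    push_cast
    exact CharTwo.add_self_eq_zero _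

end Pool.Agent.ACC
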