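import Pool.Agent.ACC.StmtsB
import Pool.Agent.ACC.LibB

/-!
MP_851278_al, squad ACB, module SCT: two coned faces are separated by a finite cut of the
coned quotient.
-/

set_option autoImplicit false

namespace Pool.Agent.ACC

namespace SCT_

theorem exists_nb {V : Type} {P : SimpleGraph V} (hP : P.Connected) {a b : V} (hab : P.Adj a b)
    (x : V) : ∃ y, P.Adj x y := by
  by_cases h : x = a
  · subst h
    exact ⟨b, hab⟩
  · obtain ⟨w⟩ := hP.preconnected x a
    cases w with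
    | nil => exact absurd rfl h
    | cons hadj _ => exact ⟨_, hadj⟩

theorem step (hRCS : Stmt_RCS) {V : Type} (R : Rot V) (j : V → V → ZMod 2) (hj : R.Inv j)
    (hP : R.P.Connected) (ρ : ℕ) (x y : V) (hfar : ∀ q ∈ R.bset j, ρ < R.P.dist x q.1)
    (hxy : R.P.dist x y ≤ ρ) (x' y' : V) (hx' : R.P.Adj x x') (hy' : R.P.Adj y y') :
    j x x' = j y y' := by
  obtain ⟨w, hw, hz⟩ := exists_geod hP x y
  refine (hRCS V R j hj x y w ?_ x' y' hx' hy').1
  intro z hzs z' hzz'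
  by_contra hne
  have h1 := hfar (z, z') ⟨hzz', hne⟩
  have h2 := hz z hzs
  simp only at h1
  omega

theorem z2_aux (u v : ZMod 2) (h : u ≠ v) : u + (1 + u) = 1 ∧ v + (1 + u) = 0 := by
  revert u v
  decide

end SCT_

open SCT_ in
theorem sct_proof (hRCS : Stmt_RCS) (hPCL : Stmt_PCL) : Stmt_SCT := by
  intro V U X R lam r c p F a hX hlf hsp hpl hsurj hbd hc hF hadj hS S T hne
  classical
  obtain ⟨j, hj, hjS, hjT⟩ : ∃ j, R.Col j ∧ j (a S).1 (a S).2 = 1 ∧ j (a T).1 (a T).2 = 0 := by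
    unfold Rot.Eqv at hne
    push Not at hne
    obtain ⟨j0, hj0, h0⟩ := hne
    exact ⟨fun x y => j0 x y + (1 + j0 (a S).1 (a S).2), R.col_add hj0 (R.col_const _),
      (z2_aux _ _ h0).1, (z2_aux _ _ h0).2⟩
  have hP : R.P.Connected := hsp.2.1
  have hPl : LocFin R.P := fun x => R.fin_nb x
  have hnb : ∀ x, ∃ y, R.P.Adj x y := exists_nb hP (hadj S S.2)
  choose nb hnb using hnb
  -- representatives
  have hσ : ∀ u : U, ∃ x : V, (∃ y ∈ Zp X p, p y = u) → x ∈ Zp X p ∧ p x = u := by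
    intro u
    by_cases h : ∃ y ∈ Zp X p, p y = u
    · obtain ⟨y, hy, hyu⟩ := h
      exact ⟨y, fun _ => ⟨hy, hyu⟩⟩
    · exact ⟨(a S).1, fun h' => absurd h' h⟩
  choose σ hσ using hσ
  set J : U → ZMod 2 := fun u => j (σ u) (nb (σ u)) with hJ
  set ρ : ℕ := lam * (2 * c + 1 + r) with hρ
  set K : Set V := Prod.fst '' R.bset j with hK
  have hKf : K.Finite := hj.2.image _
  set Bad : Set U := p '' {x | ∃ k ∈ K, R.P.dist k x ≤ ρ} with hBad
  have hBadf : Bad.Finite := by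
    apply Set.Finite.image
    apply Set.Finite.subset (hKf.biUnion (fun k _ => ball_finite hP hPl k ρ))
    rintro x ⟨k, hk, hkx⟩
    exact Set.mem_biUnion hk hkx
  have hfar : ∀ u, (∃ y ∈ Zp X p, p y = u) → u ∉ Bad →
      ∀ q ∈ R.bset j, ρ < R.P.dist (σ u) q.1 := by
    intro u hu hub q hq
    by_contra hcon
    push Not at hcon
    apply hub
    refine ⟨σ u, ⟨q.1, ⟨q, hq, rfl⟩, ?_⟩, (hσ u hu).2⟩
    rw [SimpleGraph.dist_comm]
    exact hcon
  -- claim 1
  have claim1 : ∀ u v, (push X p).Adj u v → u ∉ Bad → J u = J v := by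
    rintro u v ⟨huv, x, y, hxy, hpx, hpy⟩ hub
    have hxZ : x ∈ Zp X p := ⟨y, hxy, by rw [hpx, hpy]; exact huv⟩
    have hyZ : y ∈ Zp X p := ⟨x, hxy.symm, by rw [hpx, hpy]; exact huv.symm⟩
    have hu : ∃ y ∈ Zp X p, p y = u := ⟨x, hxZ, hpx⟩
    have hv : ∃ x ∈ Zp X p, p x = v := ⟨y, hyZ, hpy⟩
    have d1 : X.dist (σ u) x ≤ c := hc _ (hσ u hu).1 _ hxZ (by rw [(hσ u hu).2, hpx])
    have d2 : X.dist y (σ v) ≤ c := hc _ hyZ _ (hσ v hv).1 (by rw [(hσ v hv).2, hpy])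
    have d3 : X.dist x y = 1 := SimpleGraph.dist_eq_one_iff_adj.mpr hxy
    have d4 : X.dist (σ u) y ≤ X.dist (σ u) x + X.dist x y := hX.dist_triangle
    have d5 : X.dist (σ u) (σ v) ≤ X.dist (σ u) y + X.dist y (σ v) := hX.dist_triangle
    have d6 : X.dist (σ u) (σ v) ≤ 2 * c + 1 + r := by omega
    have d7 : R.P.dist (σ u) (σ v) ≤ ρ :=
      (spanner_dist_ge hX hsp _ _).trans (Nat.mul_le_mul_left lam d6)
    exact step hRCS R j hj.1 hP ρ _ _ (hfar u hu hub) d7 _ _ (hnb _) (hnb _)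
  -- claim 2
  have claim2 : ∀ u, ∀ S' ∈ F, u ∈ S' → u ∉ Bad → J u = j (a S').1 (a S').2 := by
    intro u S' hS' huS' hub
    obtain ⟨z, hzZ, ⟨y, hzy, hE⟩, x, hxZ, hpx, hxz⟩ := hS S' hS' u huS'
    have hu : ∃ y ∈ Zp X p, p y = u := ⟨x, hxZ, hpx⟩
    have d1 : X.dist (σ u) x ≤ c := hc _ (hσ u hu).1 _ hxZ (by rw [(hσ u hu).2, hpx])
    have d4 : X.dist (σ u) z ≤ X.dist (σ u) x + X.dist x z := hX.dist_triangle
    have d6 : X.dist (σ u) z ≤ 2 * c + 1 + r := by omega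
    have d7 : R.P.dist (σ u) z ≤ ρ :=
      (spanner_dist_ge hX hsp _ _).trans (Nat.mul_le_mul_left lam d6)
    have h1 := step hRCS R j hj.1 hP ρ _ _ (hfar u hu hub) d7 _ _ (hnb _) hzy
    rw [hE j hj]
    exact h1
  -- the cut
  set A : Set (U ⊕ F) := {t | (∃ u, t = Sum.inl u ∧ J u = 1) ∨
    (∃ S' : F, t = Sum.inr S' ∧ j (a S').1 (a S').2 = 1)} with hA
  have hAl : ∀ u, (Sum.inl u : U ⊕ F) ∈ A ↔ J u = 1 := by
    intro u
    constructor
    · rintro (⟨v, hv, h⟩ | ⟨S', hS', -⟩)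
      · rw [Sum.inl_injective hv]
        exact h
      · cases hS'
    · intro h
      exact Or.inl ⟨u, rfl, h⟩
  have hAr : ∀ S' : F, (Sum.inr S' : U ⊕ F) ∈ A ↔ j (a S').1 (a S').2 = 1 := by
    intro S'
    constructor
    · rintro (⟨v, hv, h⟩ | ⟨S'', hS'', h⟩)
      · cases hv
      · rw [Sum.inr_injective hS'']
        exact h
    · intro h
      exact Or.inr ⟨S', rfl, h⟩
  refine ⟨A, ?_, (hAr S).2 hjS, ?_⟩
  · have hYl : LocFin (push X p) := (hPCL V U X p hX hsurj hbd).2.1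
    have hfin : (⋃ u ∈ Bad, ((fun v : U => (s(Sum.inl u, Sum.inl v) : Sym2 (U ⊕ F))) ''
        (push X p).neighborSet u ∪
        (fun S' : F => (s(Sum.inl u, Sum.inr S') : Sym2 (U ⊕ F))) ''
          {S' : F | u ∈ (S' : Set U)})).Finite := by
      apply Set.Finite.biUnion hBadf
      intro u _
      apply Set.Finite.union
      · exact (hYl u).image _
      · apply Set.Finite.image
        apply Set.Finite.preimage (f := Subtype.val) Subtype.val_injective.injOn (hF u) |>.subset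
        intro S' hS'
        exact ⟨S'.2, hS'⟩
    apply Set.Finite.subset hfin
    rintro e ⟨s, t, hst, hsA, htA, rfl⟩
    rcases hst with ⟨u, v, rfl, rfl, huv⟩ | ⟨u, S', rfl, rfl, huS'⟩ | ⟨u, S', rfl, rfl, huS'⟩
    · rw [hAl] at hsA htA
      have hub : u ∈ Bad := by
        by_contra hub
        exact htA ((claim1 u v huv hub) ▸ hsA)
      exact Set.mem_biUnion hub (Or.inl ⟨v, huv, rfl⟩)
    · rw [hAl] at hsA
      rw [hAr] at htA
      have hub : u ∈ Bad := by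
        by_contra hub
        exact htA ((claim2 u S' S'.2 huS' hub) ▸ hsA)
      exact Set.mem_biUnion hub (Or.inr ⟨S', huS', rfl⟩)
    · rw [hAr] at hsA
      rw [hAl] at htA
      have hub : u ∈ Bad := by
        by_contra hub
        exact htA ((claim2 u S' S'.2 huS' hub).trans hsA)
      exact Set.mem_biUnion hub (Or.inr ⟨S', huS', Sym2.eq_swap⟩)
  · rw [hAr, hjT]
    decide

end Pool.Agent.ACC
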