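import Pool.Agent.ACC.StmtsC
import Pool.Agent.ACC.LibB

/-!
MP_851278_al, squad ACD, module SFD: finite large faces have bounded diameter.
-/

set_option autoImplicit false

namespace Pool.Agent.ACC

namespace SFD_

theorem dist_le {U : Type} {Y : SimpleGraph U} (hY : Y.Connected) {g : Equiv.Perm U}
    (hg : ∀ x y, Y.Adj (g x) (g y) ↔ Y.Adj x y) (x y : U) :
    Y.dist (g x) (g y) ≤ Y.dist x y := by
  obtain ⟨w, hw⟩ := hY.exists_walk_length_eq_dist x y
  let f : Y →g Y := { toFun := g, map_rel' := fun {a b} h => (hg a b).mpr h }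
  have h := SimpleGraph.dist_le (w.map f)
  rw [SimpleGraph.Walk.length_map, hw] at h
  exact h

end SFD_

theorem sfd_proof (hPCL : Stmt_PCL) (hFLF : Stmt_FLF) : Stmt_SFD := by
  intro V U X R lam p K F a c hD
  obtain ⟨hY, -, -⟩ := hPCL V U X p hD.con hD.sur hD.fb
  have hfin := hFLF V U X R lam p K F a c hD
  obtain ⟨FU, hFU, hrep⟩ := hD.vf
  have hT : (⋃ u0 ∈ FU, ⋃ S ∈ {S | S ∈ F ∧ u0 ∈ S},
      {n : ℕ | S.Finite ∧ ∃ u' ∈ S, n = (push X p).dist u0 u'}).Finite := by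
    refine hFU.biUnion (fun u0 _ => (hfin u0).biUnion (fun S _ => ?_))
    by_cases hS : S.Finite
    · refine (hS.image (fun u' => (push X p).dist u0 u')).subset ?_
      rintro n ⟨-, u', hu', rfl⟩
      exact ⟨u', hu', rfl⟩
    · refine Set.finite_empty.subset ?_
      rintro n ⟨h, -⟩
      exact hS h
  obtain ⟨e, he⟩ := hT.bddAbove
  refine ⟨e, fun S hS hSf u hu u' hu' => ?_⟩
  obtain ⟨g, hg, u0, hu0, rfl⟩ := hrep u
  have hgi : g⁻¹ ∈ K := K.inv_mem hg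
  have h1 := SFD_.dist_le hY (hD.aut g hg) u0 (g⁻¹ u')
  have h2 : g (g⁻¹ u') = u' := by simp
  rw [h2] at h1
  refine h1.trans (he ?_)
  refine Set.mem_biUnion hu0 (Set.mem_biUnion (x := (g⁻¹ : Equiv.Perm U) '' S) ?_ ?_)
  · exact ⟨hD.inv _ hgi S hS, g u0, hu, by simp⟩
  · exact ⟨hSf.image _, (g⁻¹ : Equiv.Perm U) u', ⟨u', hu', rfl⟩, rfl⟩

end Pool.Agent.ACC
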