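import Pool.Agent.ACC.StmtsC
import Pool.Agent.ACC.LibB

set_option autoImplicit false

namespace Pool.Agent.ACC

namespace SPA_

/-- the end points of a set of edges -/
def ends {V : Type} (E : Set (Sym2 V)) : Set V := {x | ∃ e ∈ E, x ∈ e}

theorem ends_finite {V : Type} {E : Set (Sym2 V)} (hE : E.Finite) : (ends E).Finite := by
  have : (⋃ e ∈ E, {y : V | y ∈ e}).Finite := by
    apply hE.biUnion
    intro e _
    induction e with
    | _ a b =>
      apply (Set.toFinite ({a, b} : Set V)).subset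
      intro y hy
      rw [Set.mem_ofPred_eq, Sym2.mem_iff] at hy
      exact hy
  apply this.subset
  rintro y ⟨e, he, hy⟩
  simp only [Set.mem_iUnion, Set.mem_ofPred_eq]
  exact ⟨e, he, hy⟩

theorem close {U : Type} {Y : SimpleGraph U} (hY : Y.Connected) {A : Set U} {s t : U} {c : ℕ}
    (hs : s ∈ A) (ht : t ∉ A) (hd : Y.dist s t ≤ c) :
    s ∈ nbd Y (ends (bd Y A)) c ∧ t ∈ nbd Y (ends (bd Y A)) c := by
  obtain ⟨w, -, hw⟩ := exists_geod hY s t
  obtain ⟨e, he, hbd⟩ := exists_bd_edge w hs ht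
  induction e with
  | _ x y =>
    have hx : x ∈ w.support := w.fst_mem_support_of_mem_edges he
    have h := hw x hx
    have hxe : x ∈ ends (bd Y A) := ⟨s(x, y), hbd, Sym2.mem_mk_left x y⟩
    refine ⟨⟨x, hxe, ?_⟩, ⟨x, hxe, by omega⟩⟩
    rw [SimpleGraph.dist_comm]
    omega

end SPA_

open SPA_ in
theorem spa_proof (h1 : Stmt_RMC) (h2 : Stmt_PCL) (h3 : Stmt_FLF) (h4 : Stmt_PFB) : Stmt_SPA := by
  classical
  intro V U X R lam p K F a c hD A hA
  obtain ⟨hYc, hYl, hYd⟩ := h2 V U X p hD.con hD.sur hD.fb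
  set m : V → ZMod 2 := fun x => if p x ∈ A then 1 else 0 with hm
  have hm1 : ∀ x, p x ∈ A → m x = 1 := fun x hx => by rw [hm]; simp [hx]
  have hm0 : ∀ x, p x ∉ A → m x = 0 := fun x hx => by rw [hm]; simp [hx]
  have hle : R.P ≤ X := hD.sp.1
  have hbX : (bd X (p ⁻¹' A)).Finite := h4 V U X p hD.fb A hA
  set M : Set (V × V) := {q | R.P.Adj q.1 q.2 ∧ m q.1 ≠ m q.2} with hM
  have hMf : M.Finite := by
    apply ((ends_finite hbX).prod (ends_finite hbX)).subset
    rintro ⟨x, y⟩ ⟨hadj, hne⟩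
    simp only at hadj hne
    have hmem : s(x, y) ∈ bd X (p ⁻¹' A) := by
      rw [mem_bd_iff]
      refine ⟨hle hadj, ?_⟩
      by_cases hx : p x ∈ A
      · by_cases hy : p y ∈ A
        · rw [hm1 x hx, hm1 y hy] at hne
          exact absurd rfl hne
        · exact Or.inl ⟨hx, hy⟩
      · by_cases hy : p y ∈ A
        · exact Or.inr ⟨hx, hy⟩
        · rw [hm0 x hx, hm0 y hy] at hne
          exact absurd rfl hne
    exact ⟨⟨_, hmem, Sym2.mem_mk_left x y⟩, ⟨_, hmem, Sym2.mem_mk_right x y⟩⟩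
  have hF1 : (⋃ q ∈ M, {S : Set U | S ∈ F ∧ R.Eqv (a S) q}).Finite := by
    apply hMf.biUnion
    intro q _
    apply Set.Subsingleton.finite
    rintro S ⟨hS, hS'⟩ T ⟨hT, hT'⟩
    exact hD.inj S hS T hT (R.eqv_trans hS' (R.eqv_symm hT'))
  have hN : (nbd (push X p) (ends (bd (push X p) A)) c).Finite :=
    nbd_finite hYc hYl (ends_finite hA) c
  have hF2 : (⋃ u ∈ nbd (push X p) (ends (bd (push X p) A)) c,
      {S : Set U | S ∈ F ∧ u ∈ S}).Finite := by
    apply hN.biUnion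
    intro u _
    exact h3 V U X R lam p K F a c hD u
  apply (hF1.union hF2).subset
  rintro S ⟨hS, ⟨u, huS, huA⟩, ⟨u', huS', huA'⟩⟩
  by_cases hex : ∃ q ∈ M, R.Eqv (a S) q
  · left
    obtain ⟨q, hq, hq'⟩ := hex
    simp only [Set.mem_iUnion]
    exact ⟨q, hq, hS, hq'⟩
  · right
    have hall : ∀ q : V × V, R.P.Adj q.1 q.2 → R.Eqv (a S) q → m q.1 = m q.2 := by
      intro q hq hq'
      by_contra hne
      exact hex ⟨q, ⟨hq, hne⟩, hq'⟩
    obtain ⟨z, -, ⟨y, hzy, hzE⟩, x, -, hxu, hxz⟩ := hD.near S hS u huS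
    obtain ⟨z', -, ⟨y', hzy', hzE'⟩, x', -, hxu', hxz'⟩ := hD.near S hS u' huS'
    have e1 := h1 V R m (a S) (z, y) hMf (hD.adj S hS) hzy hall hzE
    have e2 := h1 V R m (a S) (z', y') hMf (hD.adj S hS) hzy' hall hzE'
    simp only at e1 e2
    have e3 : m z = m z' := e1.symm.trans e2
    have d1 : (push X p).dist u (p z) ≤ c := by
      rw [← hxu]
      exact (hYd x z).trans hxz
    have d2 : (push X p).dist u' (p z') ≤ c := by
      rw [← hxu']
      exact (hYd x' z').trans hxz'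
    simp only [Set.mem_iUnion]
    by_cases hz : p z ∈ A
    · have hz' : p z' ∈ A := by
        by_contra hcon
        rw [hm1 z hz, hm0 z' hcon] at e3
        exact one_ne_zero e3
      refine ⟨u', ?_, hS, huS'⟩
      rw [SimpleGraph.dist_comm] at d2
      exact (close hYc hz' huA' d2).2
    · refine ⟨u, ?_, hS, huS⟩
      exact (close hYc huA hz d1).1

end Pool.Agent.ACC
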