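import Pool.Agent.ACC.StmtsB
import Pool.Agent.ACC.Lib

set_option autoImplicit false

namespace Pool.Agent.ACC

namespace SPL_

theorem bd_symmDiff' {V : Type} (X : SimpleGraph V) (A B : Set V) :
    bd X (symmDiff A B) = symmDiff (bd X A) (bd X B) := by
  ext e
  induction e with
  | _ x y =>
    simp only [Set.mem_symmDiff, mem_bd_iff]
    tauto

/-- a set whose boundary is inclusion-minimal is connected -/
theorem conn_of_min {V : Type} (h2 : Stmt_BDI) {X : SimpleGraph V} (hX : X.Connected) {B : Set V}
    (hf : (bd X B).Finite) (hne : (bd X B).Nonempty)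
    (hmin : ∀ K : Set V, bd X K ⊆ bd X B → (bd X K).Nonempty →
      (bd X B).ncard ≤ (bd X K).ncard) : (X.induce B).Connected := by
  obtain ⟨e, a0, y0, hadj0, ha0, hy0, -⟩ := hne
  set K : Set V := {x | ∃ h : x ∈ B, (X.induce B).Reachable ⟨a0, ha0⟩ ⟨x, h⟩} with hK
  have haK : a0 ∈ K := ⟨ha0, SimpleGraph.Reachable.refl _⟩
  have hKB : K ⊆ B := fun x hx => hx.1
  have hsub : bd X K ⊆ bd X B := by
    rintro e ⟨x, y, hxy, hx, hy, rfl⟩
    obtain ⟨hxB, hr⟩ := hx
    refine ⟨x, y, hxy, hxB, ?_, rfl⟩
    intro hyB
    apply hy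
    refine ⟨hyB, hr.trans ?_⟩
    have : (X.induce B).Adj ⟨x, hxB⟩ ⟨y, hyB⟩ := hxy
    exact this.reachable
  have hne' : (bd X K).Nonempty :=
    bd_nonempty hX ⟨a0, haK⟩ ⟨y0, fun h => hy0 (hKB h)⟩
  have heq : bd X K = bd X B := Set.eq_of_subset_of_ncard_le hsub (hmin K hsub hne') hf
  have hKB' : K = B := by
    rcases h2 V X hX K B heq with h | h
    · exact h
    · exfalso
      have : a0 ∈ Bᶜ := by rw [← h]; exact haK
      exact this ha0
  have : Nonempty B := ⟨⟨a0, ha0⟩⟩
  refine ⟨?_⟩
  have key : ∀ x : B, (X.induce B).Reachable ⟨a0, ha0⟩ x := by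
    rintro ⟨x, hx⟩
    have : x ∈ K := by rw [hKB']; exact hx
    obtain ⟨h, hr⟩ := this
    exact hr
  intro x y
  exact (key x).symm.trans (key y)

theorem exists_bond {V : Type} (h2 : Stmt_BDI) {X : SimpleGraph V} (hX : X.Connected) {A : Set V}
    (hf : (bd X A).Finite) (hne : (bd X A).Nonempty) :
    ∃ B : Set V, IsBond X B ∧ bd X B ⊆ bd X A ∧ (bd X B).Nonempty := by
  classical
  have hex : ∃ k : ℕ, ∃ B : Set V, bd X B ⊆ bd X A ∧ (bd X B).Nonempty ∧ (bd X B).ncard = k :=
    ⟨_, A, subset_rfl, hne, rfl⟩
  obtain ⟨B, hB1, hB2, hB3⟩ := Nat.find_spec hex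
  have hmin : ∀ K : Set V, bd X K ⊆ bd X B → (bd X K).Nonempty →
      (bd X B).ncard ≤ (bd X K).ncard := by
    intro K hK hKne
    rw [hB3]
    exact Nat.find_min' hex ⟨K, hK.trans hB1, hKne, rfl⟩
  have hBf : (bd X B).Finite := hf.subset hB1
  refine ⟨B, ⟨hBf, conn_of_min h2 hX hBf hB2 hmin, ?_⟩, hB1, hB2⟩
  apply conn_of_min h2 hX
  · rw [bd_compl]; exact hBf
  · rw [bd_compl]; exact hB2
  · rw [bd_compl]; exact hmin

end SPL_

open SPL_ in
theorem spl_proof (h1 : Stmt_BDD) (h2 : Stmt_BDI) : Stmt_SPL := by
  intro V X G hX hG hE m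
  obtain ⟨C, hC⟩ := h1 V X G hX hG hE m
  refine ⟨C, ?_⟩
  have main : ∀ (k : ℕ) (n : ℕ) (A : Set V) (D : Fin n → Set (Sym2 V)), (bd X A).Finite →
      (bd X A).ncard = k → k ≤ m → (bd X A = ⋃ i, D i) →
      (∀ i j, i ≠ j → ∀ e ∈ D i, ∀ e' ∈ D j, ∀ x ∈ e, ∀ y ∈ e', C < X.dist x y) →
      ∀ i, ∃ B : Set V, bd X B = D i := by
    intro k
    induction k using Nat.strong_induction_on with
    | _ k ih =>
      intro n A D hf hk hkm hD hfar i
      have hDsub : ∀ j, D j ⊆ bd X A := by
        intro j
        rw [hD]
        exact Set.subset_iUnion D j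
      rcases Set.eq_empty_or_nonempty (bd X A) with h0 | hne
      · refine ⟨∅, ?_⟩
        rw [bd_empty]
        have := hDsub i
        rw [h0] at this
        exact (Set.subset_empty_iff.1 this).symm
      · obtain ⟨B0, hbond, hsub, hB0⟩ := exists_bond h2 hX hf hne
        have hcard : (bd X B0).ncard ≤ m :=
          (Set.ncard_le_ncard hsub hf).trans (by omega)
        have hdist := hC B0 hbond hcard
        have hmemx : ∀ e : Sym2 V, ∃ x, x ∈ e := by
          intro e
          induction e with
          | _ x y => exact ⟨x, Sym2.mem_mk_left x y⟩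
        have hdisj : ∀ i j, i ≠ j → ∀ e ∈ D i, e ∉ D j := by
          intro i j hij e he he'
          obtain ⟨x, hx⟩ := hmemx e
          have := hfar i j hij e he e he' x hx x hx
          rw [SimpleGraph.dist_self] at this
          omega
        obtain ⟨e0, he0⟩ := hB0
        obtain ⟨i0, hi0⟩ : ∃ i0, e0 ∈ D i0 := by
          have := hsub he0
          rw [hD] at this
          exact Set.mem_iUnion.1 this
        have hB0D : bd X B0 ⊆ D i0 := by
          intro e he
          obtain ⟨j, hj⟩ : ∃ j, e ∈ D j := by
            have := hsub he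
            rw [hD] at this
            exact Set.mem_iUnion.1 this
          by_cases hij : j = i0
          · rw [← hij]; exact hj
          · exfalso
            obtain ⟨x, hx⟩ := hmemx e
            obtain ⟨y, hy⟩ := hmemx e0
            have a := hfar j i0 hij e hj e0 hi0 x hx y hy
            have b := hdist e he e0 he0 x hx y hy
            omega
        have hA' : bd X (symmDiff A B0) = bd X A \ bd X B0 := by
          rw [bd_symmDiff']
          ext e
          rw [Set.mem_symmDiff, Set.mem_sdiff]
          constructor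
          · rintro (h | h)
            · exact h
            · exact absurd (hsub h.1) h.2
          · intro h
            exact Or.inl h
        have hf' : (bd X (symmDiff A B0)).Finite := by
          rw [hA']
          exact hf.subset Set.sdiff_subset
        have hlt : (bd X (symmDiff A B0)).ncard < k := by
          rw [hA', ← hk]
          apply Set.ncard_lt_ncard _ hf
          refine ⟨Set.sdiff_subset, ?_⟩
          intro h
          exact (h (hsub he0)).2 he0
        obtain ⟨B', hB'⟩ := ih _ hlt n (symmDiff A B0) (fun j => D j \ bd X B0) hf' rfl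
          (by omega) (by rw [hA', hD, Set.iUnion_sdiff])
          (fun a b hab e he e' he' => hfar a b hab e he.1 e' he'.1) i
        by_cases hi : i = i0
        · refine ⟨symmDiff B' B0, ?_⟩
          rw [bd_symmDiff', hB']
          ext e
          rw [Set.mem_symmDiff, Set.mem_sdiff]
          constructor
          · rintro (h | h)
            · exact h.1.1
            · rw [hi]; exact hB0D h.1
          · intro h
            by_cases he : e ∈ bd X B0
            · right
              exact ⟨he, fun h' => h'.2 he⟩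
            · left
              exact ⟨⟨h, he⟩, he⟩
        · refine ⟨B', ?_⟩
          rw [hB']
          ext e
          rw [Set.mem_sdiff]
          constructor
          · exact fun h => h.1
          · intro h
            exact ⟨h, fun h' => hdisj i i0 hi e h (hB0D h')⟩
  intro n A D hf hm hD hfar i
  exact main _ n A D hf rfl hm hD hfar i

end Pool.Agent.ACC
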