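import Pool.Agent.ACC.StmtsB
import Pool.Agent.ACC.LibB

/-!
# ACB/ST1: Stage 1, all finite cocycles of the coned quotient are cuts
-/

set_option autoImplicit false

namespace Pool.Agent.ACC

namespace ST1_

lemma fin_pairs {U : Type} (D : Set (Sym2 U)) (hD : D.Finite) :
    {q : U × U | s(q.1, q.2) ∈ D}.Finite := by
  have h1 : {q : U × U | s(q.1, q.2) ∈ D} ⊆ ⋃ e ∈ D, {q : U × U | s(q.1, q.2) = e} := by
    intro q hq
    exact Set.mem_biUnion hq rfl
  refine (hD.biUnion fun e _ => ?_).subset h1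
  induction e using Sym2.ind with
  | _ a b =>
    refine ((Set.finite_singleton (b, a)).insert (a, b)).subset ?_
    rintro ⟨x, y⟩ hq
    have hq' : s(x, y) = s(a, b) := hq
    rw [Sym2.eq_iff] at hq'
    rcases hq' with ⟨h2, h3⟩ | ⟨h2, h3⟩
    · rw [h2, h3]; exact Or.inl rfl
    · rw [h2, h3]; exact Or.inr rfl

lemma cnt_append {W : Type} (D : Set (Sym2 W)) (l m : List (Sym2 W)) :
    cnt D (l ++ m) = cnt D l + cnt D m := by
  classical
  unfold cnt
  exact List.countP_append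

lemma cnt_cons {W : Type} (D : Set (Sym2 W)) (e : Sym2 W) (k : ZMod 2)
    (h1 : e ∈ D → k = 1) (h0 : e ∉ D → k = 0) (l : List (Sym2 W)) :
    ((cnt D (e :: l) : ℕ) : ZMod 2) = k + ((cnt D l : ℕ) : ZMod 2) := by
  classical
  unfold cnt
  rw [List.countP_cons]
  by_cases h : e ∈ D
  · rw [h1 h]
    simp [h, add_comm]
  · rw [h0 h]
    simp [h]

lemma cnt_nil {W : Type} (D : Set (Sym2 W)) : cnt D ([] : List (Sym2 W)) = 0 := by
  classical
  simp [cnt]

lemma cnt_map {U W : Type} (f : Sym2 U → Sym2 W) (D : Set (Sym2 W)) (l : List (Sym2 U)) :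
    cnt D (l.map f) = cnt (f ⁻¹' D) l := by
  classical
  unfold cnt
  rw [List.countP_map]
  rfl

/-- algebra in `ZMod 2` -/
lemma z2_a (a b d : ZMod 2) (h : a + d + b = 0) : d = a + b := by
  revert a b d; decide

lemma z2_b (a b c d : ZMod 2) (h : a + b = c + d) : a + c = b + d := by
  revert a b c d; decide

lemma z2_c (a b c d s : ZMod 2) (h : a + s + b = 0) (h' : s = c + d) : a + c = b + d := by
  revert a b c d s; decide

lemma z2_d (a b c : ZMod 2) (h : a + b = c) : a = b + c := by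
  revert a b c; decide

lemma z2_e (a b c : ZMod 2) (h : a + b = c) : a = c + b := by
  revert a b c; decide

end ST1_

open ST1_ in
theorem st1_proof (h1 : Stmt_RMC) (h2 : Stmt_PCL) (h3 : Stmt_POT) (h4 : Stmt_STK) :
    Stmt_ST1 := by
  intro V U X R lam r c p F a hX hLF hSp hPl hsurj hlam hc hbd hcl haS hnear htouch hB D hDfin
    hDsub hW
  classical
  obtain ⟨hYc, hYl, -⟩ := h2 V U X p hX hsurj hbd
  let d : U → U → ZMod 2 := fun u v =>
    if s((Sum.inl u : U ⊕ F), (Sum.inl v : U ⊕ F)) ∈ D then 1 else 0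
  let e : F → U → ZMod 2 := fun S u =>
    if s((Sum.inr S : U ⊕ F), (Sum.inl u : U ⊕ F)) ∈ D then 1 else 0
  have hd1 : ∀ x y, s((Sum.inl x : U ⊕ F), (Sum.inl y : U ⊕ F)) ∈ D → d x y = 1 :=
    fun x y h => if_pos h
  have hd0 : ∀ x y, s((Sum.inl x : U ⊕ F), (Sum.inl y : U ⊕ F)) ∉ D → d x y = 0 :=
    fun x y h => if_neg h
  have he1 : ∀ (S : F) (y : U), s((Sum.inr S : U ⊕ F), (Sum.inl y : U ⊕ F)) ∈ D → e S y = 1 :=
    fun S y h => if_pos h
  have he0 : ∀ (S : F) (y : U), s((Sum.inr S : U ⊕ F), (Sum.inl y : U ⊕ F)) ∉ D → e S y = 0 :=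
    fun S y h => if_neg h
  have hsym : ∀ u v, d u v = d v u := by
    intro u v
    show (if s((Sum.inl u : U ⊕ F), (Sum.inl v : U ⊕ F)) ∈ D then (1 : ZMod 2) else 0) =
      if s((Sum.inl v : U ⊕ F), (Sum.inl u : U ⊕ F)) ∈ D then 1 else 0
    rw [Sym2.eq_swap]
  have hdiag : ∀ u, d u u = 0 := by
    intro u
    refine hd0 u u fun h => ?_
    exact (cone (push X p) F).irrefl ((SimpleGraph.mem_edgeSet _).mp (hDsub h))
  have hDp := fin_pairs D hDfin
  have hfin : {q : U × U | d q.1 q.2 ≠ 0}.Finite := by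
    have hinj : Function.Injective
        (fun q : U × U => ((Sum.inl q.1 : U ⊕ F), (Sum.inl q.2 : U ⊕ F))) := by
      rintro ⟨q1, q2⟩ ⟨q3, q4⟩ h
      simp only [Prod.mk.injEq, Sum.inl.injEq] at h
      rw [h.1, h.2]
    refine (hDp.preimage hinj.injOn).subset ?_
    intro q hq
    by_contra hcon
    exact hq (hd0 q.1 q.2 hcon)
  have hefin : ∀ S : F, {u : U | e S u ≠ 0}.Finite := by
    intro S
    have hinj : Function.Injective
        (fun u : U => ((Sum.inr S : U ⊕ F), (Sum.inl u : U ⊕ F))) := by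
      intro u v h
      simp only [Prod.mk.injEq, Sum.inl.injEq] at h
      exact h.2
    refine (hDp.preimage hinj.injOn).subset ?_
    intro u hu
    by_contra hcon
    exact hu (he0 S u hcon)
  have hws : ∀ (u v : U) (w : (push X p).Walk u v), wsum d w =
      ((cnt D (w.edges.map (Sym2.map (Sum.inl : U → U ⊕ F))) : ℕ) : ZMod 2) := by
    intro u v w
    rw [cnt_map]
    exact wsum_cnt _ d (fun x y h => hd1 x y h) (fun x y h => hd0 x y h) w
  have hcyc : ∀ (u : U) (w : (push X p).Walk u u), w.length ≤ r → wsum d w = 0 := by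
    intro u w hw
    rw [hws]
    exact (even_iff_z2 _).mp (hW _ (Or.inl ⟨u, w, hw, rfl⟩))
  have hsec : ∀ (S : F) (u v : U) (w : (push X p).Walk u v), u ∈ (S : Set U) →
      v ∈ (S : Set U) → w.length ≤ r → e S u + wsum d w + e S v = 0 := by
    intro S u v w hu hv hw
    have h5 := (even_iff_z2 _).mp (hW _ (Or.inr ⟨S, u, v, w, hu, hv, hw, rfl⟩))
    have h6 : ∀ h : s((Sum.inl v : U ⊕ F), (Sum.inr S : U ⊕ F)) ∈ D, e S v = 1 := by
      intro h
      refine he1 S v ?_
      rw [Sym2.eq_swap]; exact h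
    have h7 : ∀ h : s((Sum.inl v : U ⊕ F), (Sum.inr S : U ⊕ F)) ∉ D, e S v = 0 := by
      intro h
      refine he0 S v ?_
      rw [Sym2.eq_swap]; exact h
    rw [cnt_cons D _ (e S u) (he1 S u) (he0 S u), cnt_append, Nat.cast_add,
      cnt_cons D _ (e S v) h6 h7, cnt_nil, ← hws] at h5
    rw [← h5]
    push_cast
    ring
  have hcls : ∀ (S : F) (b : V × V), R.P.Adj b.1 b.2 → R.Eqv (a S) b → p b.1 ≠ p b.2 →
      d (p b.1) (p b.2) = e S (p b.1) + e S (p b.2) := by
    intro S b hb hbe hne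
    have hXb : X.Adj b.1 b.2 := hSp.1 hb
    obtain ⟨ht1, ht2⟩ := R.touch_of_adj hb hbe
    have hm1 : p b.1 ∈ (S : Set U) := htouch S S.2 b.1 ⟨b.2, hXb, hne⟩ ht1
    have hm2 : p b.2 ∈ (S : Set U) := htouch S S.2 b.2 ⟨b.1, hXb.symm, hne.symm⟩ ht2
    have hadj : (push X p).Adj (p b.1) (p b.2) := ⟨hne, b.1, b.2, hXb, rfl, rfl⟩
    have h5 := hsec S (p b.1) (p b.2)
      (SimpleGraph.Walk.cons hadj SimpleGraph.Walk.nil) hm1 hm2 (by simp; omega)
    rw [wsum_cons, wsum_nil, add_zero] at h5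
    exact z2_a _ _ _ h5
  have hpot : ∀ b0 : V × V, R.P.Adj b0.1 b0.2 → (∀ b ∈ (∅ : Set (V × V)), ¬ R.Eqv b0 b) →
      ∃ k : U → ZMod 2,
      {u | k u ≠ 0}.Finite ∧ ∀ b : V × V, R.P.Adj b.1 b.2 → R.Eqv b0 b → p b.1 ≠ p b.2 →
      d (p b.1) (p b.2) = k (p b.1) + k (p b.2) := by
    intro b0 hb0 _
    rcases hB b0 hb0 with ⟨S, hS, hSb⟩ | ⟨y1, y2, hy⟩
    · refine ⟨e ⟨S, hS⟩, hefin _, ?_⟩
      intro b hb hbe hne
      exact hcls ⟨S, hS⟩ b hb (R.eqv_trans hSb hbe) hne
    · obtain ⟨k, hk, hk2⟩ := h3 U (push X p) d c y1 y2 hYc hYl hsym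
        (fun u w hw => hcyc u w (hw.trans hc))
      refine ⟨k, hk, ?_⟩
      intro b hb hbe hne
      obtain ⟨h5, h6⟩ := hy b hb hbe hne
      exact hk2 _ _ ⟨hne, b.1, b.2, hSp.1 hb, rfl, rfl⟩ h5 h6
  obtain ⟨h, hh⟩ := h4 V U X R lam r p d ∅ hX hLF hSp hPl hsurj hlam hsym hdiag hfin hbd hcyc
    hcl (by simp) hpot
  -- the potentials at the new vertices
  have hval : ∀ (S : F) (z : V), R.Touch (a S) z →
      e S (p (a S).1) + h (p (a S).1) = e S (p z) + h (p z) := by
    intro S z hz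
    obtain ⟨y, hzy, hze⟩ := hz
    refine h1 V R (fun x => e S (p x) + h (p x)) (a S) (z, y) ?_ (haS S S.2) hzy ?_ hze
    · have hWf : ({u : U | e S u ≠ 0} ∪ Prod.fst '' {q : U × U | d q.1 q.2 ≠ 0}).Finite :=
        (hefin S).union (hfin.image _)
      refine (fin_pairs _ (hWf.biUnion (fun u _ => hbd u))).subset ?_
      rintro q ⟨hq1, hq2⟩
      have hXq : X.Adj q.1 q.2 := hSp.1 hq1
      have hne : p q.1 ≠ p q.2 := by
        intro h5
        apply hq2
        simp only [h5]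
      have hY : (push X p).Adj (p q.1) (p q.2) := ⟨hne, q.1, q.2, hXq, rfl, rfl⟩
      by_cases h5 : e S (p q.1) = 0
      · by_cases h6 : e S (p q.2) = 0
        · have h7 : d (p q.1) (p q.2) ≠ 0 := by
            intro h8
            rw [hh _ _ hY] at h8
            apply hq2
            simp only [h5, h6, zero_add]
            exact (z2_eq_iff _ _).mpr h8
          refine Set.mem_biUnion (x := p q.1) (Or.inr ⟨(p q.1, p q.2), h7, rfl⟩) ?_
          rw [mem_bd_iff]
          exact ⟨hXq, Or.inl ⟨rfl, fun h9 => hne (Set.mem_singleton_iff.mp h9).symm⟩⟩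
        · refine Set.mem_biUnion (x := p q.2) (Or.inl h6) ?_
          rw [mem_bd_iff]
          exact ⟨hXq, Or.inr ⟨fun h9 => hne (Set.mem_singleton_iff.mp h9), rfl⟩⟩
      · refine Set.mem_biUnion (x := p q.1) (Or.inl h5) ?_
        rw [mem_bd_iff]
        exact ⟨hXq, Or.inl ⟨rfl, fun h9 => hne (Set.mem_singleton_iff.mp h9).symm⟩⟩
    · intro q hq hqe
      by_cases hne : p q.1 = p q.2
      · simp only [hne]
      · have h5 := hcls S q hq hqe hne
        have h6 := hh _ _ (show (push X p).Adj (p q.1) (p q.2) from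
          ⟨hne, q.1, q.2, hSp.1 hq, rfl, rfl⟩)
        rw [h5] at h6
        exact z2_b _ _ _ _ h6
  let h' : F → ZMod 2 := fun S => e S (p (a S).1) + h (p (a S).1)
  have hval2 : ∀ (S : F) (u : U), u ∈ (S : Set U) → e S u + h u = h' S := by
    intro S u hu
    obtain ⟨z, hz, hzS, w, hw⟩ := hnear S S.2 u hu
    have h5 := hsec S u (p z) w hu hzS hw
    have h6 : wsum d w = h u + h (p z) := wsum_pot d h w (fun q _ => hh _ _ q.adj)
    have h7 := z2_c _ _ _ _ _ h5 h6
    rw [h7]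
    exact (hval S z hz).symm
  let g : U ⊕ F → ZMod 2 := Sum.elim h h'
  have hg : ∀ x y : U ⊕ F, (cone (push X p) F).Adj x y →
      (s(x, y) ∈ D → g x + g y = 1) ∧ (s(x, y) ∉ D → g x + g y = 0) := by
    rintro x y (⟨u, v, rfl, rfl, huv⟩ | ⟨u, S, rfl, rfl, hu⟩ | ⟨u, S, rfl, rfl, hu⟩)
    · have h5 := hh u v huv
      constructor
      · intro h6
        show h u + h v = 1
        rw [← h5]; exact hd1 u v h6
      · intro h6
        show h u + h v = 0
        rw [← h5]; exact hd0 u v h6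
    · have h5 := z2_d _ _ _ (hval2 S u hu)
      constructor
      · intro h6
        show h u + h' S = 1
        rw [← h5]
        refine he1 S u ?_
        rw [Sym2.eq_swap]; exact h6
      · intro h6
        show h u + h' S = 0
        rw [← h5]
        refine he0 S u ?_
        rw [Sym2.eq_swap]; exact h6
    · have h5 := z2_e _ _ _ (hval2 S u hu)
      constructor
      · intro h6
        show h' S + h u = 1
        rw [← h5]; exact he1 S u h6
      · intro h6
        show h' S + h u = 0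
        rw [← h5]; exact he0 S u h6
  refine ⟨{x | g x = 1}, ?_⟩
  ext e'
  constructor
  · rintro ⟨x, y, hxy, hx, hy, rfl⟩
    by_contra hcon
    have h5 := (hg x y hxy).2 hcon
    have hx' : g x = 1 := hx
    have hy' : g y ≠ 1 := hy
    rw [z2_ne_one_iff] at hy'
    rw [hx', hy', add_zero] at h5
    exact one_ne_zero h5
  · intro he'
    have hadj : e' ∈ (cone (push X p) F).edgeSet := hDsub he'
    induction e' using Sym2.ind with
    | _ x y =>
      have hxy : (cone (push X p) F).Adj x y := (SimpleGraph.mem_edgeSet _).mp hadj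
      have h5 := (hg x y hxy).1 he'
      rcases z2_cases (g x) with h6 | h6
      · have h7 : g y = 1 := by rw [h6, zero_add] at h5; exact h5
        refine ⟨y, x, hxy.symm, h7, ?_, Sym2.eq_swap⟩
        intro h8
        have h9 : g x = 1 := h8
        rw [h6] at h9
        exact zero_ne_one h9
      · refine ⟨x, y, hxy, h6, ?_, rfl⟩
        intro h8
        have h9 : g y = 1 := h8
        rw [h6, h9, z2_add_self] at h5
        exact zero_ne_one h5

end Pool.Agent.ACC
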