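import Pool.Agent.ACC.StmtsB
import Pool.Agent.ACC.LibB

/-!
# ACB/STC: finite cocycles of bounded cycles of the quotient are cuts if all classes but one
are bounded
-/

set_option autoImplicit false

namespace Pool.Agent.ACC

namespace STC_

lemma fin_pairs {U : Type} (D : Set (Sym2 U)) (hD : D.Finite) :
    {q : U × U | s(q.1, q.2) ∈ D}.Finite := by
  have h1 : {q : U × U | s(q.1, q.2) ∈ D} ⊆ ⋃ e ∈ D, {q : U × U | s(q.1, q.2) = e} := by
    intro q hq
    exact Set.mem_biUnion hq rfl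
  refine (hD.biUnion fun e _ => ?_).subset h1
  induction e using Sym2.ind with
  | _ a b =>
    refine ((Set.finite_singleton (b, a)).insert (a, b)).subset ?_
    rintro ⟨x, y⟩ hq
    have hq' : s(x, y) = s(a, b) := hq
    rw [Sym2.eq_iff] at hq'
    rcases hq' with ⟨h2, h3⟩ | ⟨h2, h3⟩
    · rw [h2, h3]; exact Or.inl rfl
    · rw [h2, h3]; exact Or.inr rfl

end STC_

open STC_ in
theorem stc_proof (h1 : Stmt_PCL) (h2 : Stmt_POT) (h3 : Stmt_STK) : Stmt_STC := by
  intro V U X R lam r c p E0 hX hLF hSp hPl hsurj hlam hc hbd hcl hE0 hB D hDfin hDsub hW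
  classical
  obtain ⟨hYc, hYl, -⟩ := h1 V U X p hX hsurj hbd
  let d : U → U → ZMod 2 := fun u v => if s(u, v) ∈ D then 1 else 0
  have hd1 : ∀ x y, s(x, y) ∈ D → d x y = 1 := fun x y h => if_pos h
  have hd0 : ∀ x y, s(x, y) ∉ D → d x y = 0 := fun x y h => if_neg h
  have hsym : ∀ u v, d u v = d v u := by
    intro u v
    show (if s(u, v) ∈ D then (1 : ZMod 2) else 0) = if s(v, u) ∈ D then 1 else 0
    rw [Sym2.eq_swap]
  have hdiag : ∀ u, d u u = 0 := by
    intro u
    refine hd0 u u fun h => ?_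
    exact (push X p).irrefl ((SimpleGraph.mem_edgeSet _).mp (hDsub h))
  have hfin : {q : U × U | d q.1 q.2 ≠ 0}.Finite := by
    refine (fin_pairs D hDfin).subset ?_
    intro q hq
    by_contra hcon
    exact hq (hd0 q.1 q.2 hcon)
  have hcyc : ∀ (u : U) (w : (push X p).Walk u u), w.length ≤ r → wsum d w = 0 := by
    intro u w hw
    rw [wsum_cnt D d hd1 hd0 w]
    have h4 : Even (cnt D w.edges) := hW w.edges ⟨u, w, hw, rfl⟩
    exact (even_iff_z2 _).mp h4
  have hpot : ∀ a : V × V, R.P.Adj a.1 a.2 → (∀ b ∈ E0, ¬ R.Eqv a b) → ∃ k : U → ZMod 2,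
      {u | k u ≠ 0}.Finite ∧ ∀ b : V × V, R.P.Adj b.1 b.2 → R.Eqv a b → p b.1 ≠ p b.2 →
      d (p b.1) (p b.2) = k (p b.1) + k (p b.2) := by
    intro a ha hab
    obtain ⟨y1, y2, hy⟩ := hB a ha hab
    obtain ⟨k, hk, hk2⟩ := h2 U (push X p) d c y1 y2 hYc hYl hsym
      (fun u w hw => hcyc u w (hw.trans hc))
    refine ⟨k, hk, ?_⟩
    intro b hb hbe hne
    obtain ⟨h5, h6⟩ := hy b hb hbe hne
    exact hk2 _ _ ⟨hne, b.1, b.2, hSp.1 hb, rfl, rfl⟩ h5 h6
  obtain ⟨h, hh⟩ := h3 V U X R lam r p d E0 hX hLF hSp hPl hsurj hlam hsym hdiag hfin hbd hcyc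
    hcl hE0 hpot
  refine ⟨{u | h u = 1}, ?_⟩
  ext e
  constructor
  · rintro ⟨x, y, hxy, hx, hy, rfl⟩
    by_contra hcon
    have h4 := hh x y hxy
    rw [hd0 x y hcon] at h4
    have hx' : h x = 1 := hx
    have hy' : h y ≠ 1 := hy
    rw [z2_ne_one_iff] at hy'
    rw [hx', hy', add_zero] at h4
    exact zero_ne_one h4
  · intro he
    have hadj : e ∈ (push X p).edgeSet := hDsub he
    induction e using Sym2.ind with
    | _ x y =>
      have hxy : (push X p).Adj x y := (SimpleGraph.mem_edgeSet _).mp hadj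
      have h4 := hh x y hxy
      rw [hd1 x y he] at h4
      rcases z2_cases (h x) with h5 | h5
      · have h6 : h y = 1 := by rw [h5, zero_add] at h4; exact h4.symm
        refine ⟨y, x, hxy.symm, h6, ?_, Sym2.eq_swap⟩
        intro h7
        have h8 : h x = 1 := h7
        rw [h5] at h8
        exact zero_ne_one h8
      · refine ⟨x, y, hxy, h5, ?_, rfl⟩
        intro h7
        have h8 : h y = 1 := h7
        rw [h5, h8, z2_add_self] at h4
        exact zero_ne_one h4.symm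

end Pool.Agent.ACC
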