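import Pool.Agent.ACC.StmtsB

/-!
# Squad ACB (MP_851278_al), module STK: Stokes for a quotient
-/

set_option autoImplicit false

namespace Pool.Agent.ACC

namespace STK_

variable {V : Type}

theorem wsum_nil {P : SimpleGraph V} (D : V → V → ZMod 2) (x : V) :
    wsum D (SimpleGraph.Walk.nil : P.Walk x x) = 0 := by
  simp [wsum]

theorem wsum_cons {P : SimpleGraph V} (D : V → V → ZMod 2) {x y z : V} (h : P.Adj x y)
    (w : P.Walk y z) : wsum D (SimpleGraph.Walk.cons h w) = D x y + wsum D w := by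
  simp [wsum]

theorem wsum_append {P : SimpleGraph V} (D : V → V → ZMod 2) {x y z : V} (w : P.Walk x y)
    (w' : P.Walk y z) : wsum D (w.append w') = wsum D w + wsum D w' := by
  simp [wsum]

theorem wsum_reverse {P : SimpleGraph V} (D : V → V → ZMod 2) (hD : ∀ x y, D x y = D y x)
    {x y : V} (w : P.Walk x y) : wsum D w.reverse = wsum D w := by
  induction w with
  | nil => simp [wsum]
  | cons h w ih =>
    rw [SimpleGraph.Walk.reverse_cons, wsum_append, ih, wsum_cons, wsum_cons, wsum_nil, add_zero,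
      add_comm, hD]

theorem wsum_mapLe {P X : SimpleGraph V} (hPX : P ≤ X) (D : V → V → ZMod 2) {x y : V}
    (w : P.Walk x y) : ∃ w' : X.Walk x y, w'.length = w.length ∧ wsum D w' = wsum D w := by
  induction w with
  | nil => exact ⟨SimpleGraph.Walk.nil, rfl, by simp [wsum]⟩
  | cons h w ih =>
    obtain ⟨w', h1, h2⟩ := ih
    refine ⟨SimpleGraph.Walk.cons (hPX h) w', ?_, ?_⟩
    · simp [h1]
    · rw [wsum_cons, wsum_cons, h2]

theorem wsum_tel {X : SimpleGraph V} (D : V → V → ZMod 2) (H : V → ZMod 2)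
    (hH : ∀ x y, X.Adj x y → D x y = H x + H y) {x y : V} (w : X.Walk x y) :
    wsum D w = H x + H y := by
  induction w with
  | nil => rw [wsum_nil]; exact (CharTwo.add_self_eq_zero _).symm
  | @cons a b c h w ih =>
    rw [wsum_cons, ih, hH a b h]
    have : H b + H b = 0 := CharTwo.add_self_eq_zero _
    linear_combination this

theorem fin_sym {B : Set (Sym2 V)} (hB : B.Finite) : {q : V × V | s(q.1, q.2) ∈ B}.Finite := by
  have h1 : {q : V × V | s(q.1, q.2) ∈ B} = ⋃ e ∈ B, {q : V × V | s(q.1, q.2) = e} := by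
    ext q; simp
  rw [h1]
  refine hB.biUnion ?_
  intro e _
  induction e with
  | _ x y =>
    refine (Set.toFinite ({(x, y), (y, x)} : Set (V × V))).subset ?_
    rintro ⟨a, b⟩ hq
    have hq' : s(a, b) = s(x, y) := hq
    rw [Sym2.eq_iff] at hq'
    rcases hq' with ⟨rfl, rfl⟩ | ⟨rfl, rfl⟩
    · exact Or.inl rfl
    · exact Or.inr rfl

theorem fin_edge {U : Type} (X : SimpleGraph V) (p : V → U)
    (hbd : ∀ u, (bd X (p ⁻¹' {u})).Finite) (T : Set U) (hT : T.Finite) :
    {q : V × V | X.Adj q.1 q.2 ∧ p q.1 ≠ p q.2 ∧ (p q.1 ∈ T ∨ p q.2 ∈ T)}.Finite := by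
  have h1 : (⋃ u ∈ T, {q : V × V | s(q.1, q.2) ∈ bd X (p ⁻¹' {u})}).Finite :=
    hT.biUnion fun u _ => fin_sym (hbd u)
  refine h1.subset ?_
  rintro ⟨a, b⟩ ⟨hadj, hne, h⟩
  rw [Set.mem_iUnion₂]
  rcases h with h | h
  · refine ⟨p a, h, a, b, hadj, rfl, ?_, rfl⟩
    intro h2
    exact hne h2.symm
  · refine ⟨p b, h, b, a, hadj.symm, rfl, ?_, Sym2.eq_swap⟩
    intro h2
    exact hne h2

end STK_

open STK_ in
theorem stk_proof (h1 : Stmt_RPO) (h2 : Stmt_RST) (h3 : Stmt_LAZ) : Stmt_STK := by
  intro V U X R lam r p d E0 hX _ hSp hPl hsurj hr dsym d0 dfin bdfin hcyc hfib hE0 hpot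
  obtain ⟨hPX, hPc, hPd⟩ := hSp
  have add_self : ∀ t : ZMod 2, t + t = 0 := fun t => CharTwo.add_self_eq_zero t
  have one_of : ∀ t : ZMod 2, t ≠ 0 → t = 1 := by decide
  have Dsym : ∀ x y : V, d (p x) (p y) = d (p y) (p x) := fun x y => dsym _ _
  -- finiteness of the support of the pull back
  have finD : {q : V × V | R.P.Adj q.1 q.2 ∧ d (p q.1) (p q.2) ≠ 0}.Finite := by
    refine (fin_edge X p bdfin _ (dfin.image Prod.fst)).subset ?_
    rintro ⟨a, b⟩ ⟨hadj, hne⟩
    refine ⟨hPX hadj, ?_, Or.inl ?_⟩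
    · intro hab
      apply hne
      show d (p a) (p b) = 0
      have hab' : p a = p b := hab
      rw [hab', d0]
    · exact ⟨(p a, p b), hne, rfl⟩
  -- (1) closed walks of the spanner
  have step1 : ∀ (x : V) (w : R.P.Walk x x), wsum (fun s t => d (p s) (p t)) w = 0 := by
    intro x w
    obtain ⟨c, hc, hpar⟩ := hPl x w
    have hc' : ∃ c', R.Col c' ∧ (∀ y z, R.P.Adj y z → c' y z + c' z y = par w.edges y z) ∧
        ∀ b ∈ E0, c' b.1 b.2 = 0 := by
      by_cases hE : E0.Nonempty
      · obtain ⟨b0, hb0⟩ := hE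
        refine ⟨fun x y => c x y + c b0.1 b0.2,
          R.col_add hc (R.col_const (c b0.1 b0.2)), ?_, ?_⟩
        · intro y z hyz
          have := hpar y z hyz
          have h5 := add_self (c b0.1 b0.2)
          linear_combination this + h5
        · intro b hb
          have h5 := hE0 b hb b0 hb0 c hc
          show c b.1 b.2 + c b0.1 b0.2 = 0
          rw [h5]
          exact add_self _
      · refine ⟨c, hc, hpar, ?_⟩
        intro b hb
        exact absurd ⟨b, hb⟩ hE
    obtain ⟨c', hc'1, hc'2, hc'3⟩ := hc'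
    refine h2 V R c' (fun s t => d (p s) (p t)) x w hc'1 Dsym finD hc'2 ?_
    intro a ha hca
    obtain ⟨k, hk, hkb⟩ := hpot a ha (by
      intro b hb hab
      have h5 := hab c' hc'1
      rw [hca, hc'3 b hb] at h5
      exact one_ne_zero h5)
    refine ⟨fun v => k (p v), ?_, ?_⟩
    · refine (fin_edge X p bdfin _ hk).subset ?_
      rintro ⟨y, z⟩ ⟨hadj, hne⟩
      have hne' : k (p y) ≠ k (p z) := hne
      refine ⟨hPX hadj, ?_, ?_⟩
      · intro h5
        have h5' : p y = p z := h5
        exact hne' (by rw [h5'])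
      · by_cases hy : k (p y) = 0
        · right
          show k (p z) ≠ 0
          intro hz
          exact hne' (by rw [hy, hz])
        · left
          exact hy
    · intro b hb hab
      by_cases hpb : p b.1 = p b.2
      · show d (p b.1) (p b.2) = k (p b.1) + k (p b.2)
        rw [hpb, d0, add_self]
      · exact hkb b hb hab hpb
  -- (2) closed walks of `X`
  have edge : ∀ (x y : V), X.Adj x y → ∃ g : R.P.Walk x y,
      wsum (fun s t => d (p s) (p t)) g = d (p x) (p y) := by
    intro x y hxy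
    obtain ⟨g, hg⟩ := hPc.exists_walk_length_eq_dist x y
    obtain ⟨g', hg'1, hg'2⟩ := wsum_mapLe hPX (fun s t => d (p s) (p t)) g
    obtain ⟨w', hw'1, hw'2⟩ := h3 V U X p d x x (SimpleGraph.Walk.cons hxy g'.reverse) d0
    have hlen : w'.length ≤ r := by
      have h5 := hPd x y hxy
      rw [SimpleGraph.Walk.length_cons, SimpleGraph.Walk.length_reverse, hg'1, hg] at hw'1
      omega
    have h6 := hcyc (p x) w' hlen
    rw [h6, wsum_cons, wsum_reverse _ Dsym, hg'2] at hw'2
    refine ⟨g, ?_⟩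
    have h7 := add_self (d (p x) (p y))
    linear_combination -hw'2 - h7
  have toP : ∀ (x y : V) (w : X.Walk x y), ∃ w' : R.P.Walk x y,
      wsum (fun s t => d (p s) (p t)) w' = wsum (fun s t => d (p s) (p t)) w := by
    intro x y w
    induction w with
    | nil => exact ⟨SimpleGraph.Walk.nil, by simp [wsum]⟩
    | @cons a b c h w ih =>
      obtain ⟨w', hw'⟩ := ih
      obtain ⟨g, hg⟩ := edge a b h
      refine ⟨g.append w', ?_⟩
      rw [wsum_append, wsum_cons, hg, hw']
  have step2 : ∀ (x : V) (w : X.Walk x x), wsum (fun s t => d (p s) (p t)) w = 0 := by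
    intro x w
    obtain ⟨w', hw'⟩ := toP x x w
    rw [← hw']
    exact step1 x w'
  -- (3) a potential on `X`, constant on the fibres
  obtain ⟨H, hH⟩ := h1 V X (fun s t => d (p s) (p t)) hX Dsym step2
  have fib1 : ∀ a b : V, p a = p b → X.dist a b ≤ r → H a = H b := by
    intro a b hab hdist
    obtain ⟨w, hw⟩ := hX.exists_walk_length_eq_dist a b
    obtain ⟨w', hw'1, hw'2⟩ := h3 V U X p d a b w d0
    have hclosed : ∀ (u v : U) (w : (push X p).Walk u v), u = v → w.length ≤ r → wsum d w = 0 := by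
      intro u v w huv hl
      subst huv
      exact hcyc u w hl
    have h5 := hclosed _ _ w' hab (by omega)
    rw [h5, wsum_tel (fun s t => d (p s) (p t)) H hH] at hw'2
    have h7 := add_self (H b)
    linear_combination -hw'2 - h7
  have fib : ∀ x y : V, p x = p y → H x = H y := by
    intro x y hxy
    have h5 := hfib x y hxy
    clear hxy
    induction h5 with
    | refl => rfl
    | tail _ hbc ih => rw [ih]; exact fib1 _ _ hbc.1 hbc.2
  -- (4) the potential on `U`
  refine ⟨fun u => H (Function.surjInv hsurj u), ?_⟩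
  rintro u v ⟨-, x, y, hxy, rfl, rfl⟩
  have h5 := hH x y hxy
  show d (p x) (p y) = _
  have e1 : H (Function.surjInv hsurj (p x)) = H x :=
    fib _ _ (Function.surjInv_eq hsurj (p x))
  have e2 : H (Function.surjInv hsurj (p y)) = H y :=
    fib _ _ (Function.surjInv_eq hsurj (p y))
  show d (p x) (p y) = H (Function.surjInv hsurj (p x)) + H (Function.surjInv hsurj (p y))
  rw [e1, e2]
  exact h5

end Pool.Agent.ACC
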