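import Pool.Agent.ACC.StmtsB

set_option autoImplicit false

namespace Pool.Agent.ACC

namespace SUB_

theorem tail {V : Type} {P : SimpleGraph V} (A : Set V) {u v : V} (w : P.Walk u v) :
    v ∉ A → (∀ z ∈ w.support, z ∉ A) ∨ ∃ (u' : V) (w' : P.Walk u' v),
      (∀ z ∈ w'.support, z ∈ w.support ∧ z ∉ A) ∧ ∃ a ∈ A, P.Adj a u' := by
  induction w with
  | nil =>
    intro hv
    left
    intro z hz
    rw [SimpleGraph.Walk.support_nil, List.mem_singleton] at hz
    rw [hz]
    exact hv
  | @cons x y z h p ih =>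
    intro hv
    rcases ih hv with h1 | ⟨u', w', hw', a, ha, hau⟩
    · by_cases hx : x ∈ A
      · right
        refine ⟨y, p, fun t ht => ⟨?_, h1 t ht⟩, x, hx, h⟩
        rw [SimpleGraph.Walk.support_cons]
        exact List.mem_cons_of_mem _ ht
      · left
        intro t ht
        rw [SimpleGraph.Walk.support_cons, List.mem_cons] at ht
        rcases ht with rfl | ht
        · exact hx
        · exact h1 t ht
    · right
      refine ⟨u', w', fun t ht => ⟨?_, (hw' t ht).2⟩, a, ha, hau⟩
      rw [SimpleGraph.Walk.support_cons]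
      exact List.mem_cons_of_mem _ (hw' t ht).1

end SUB_

open SUB_ in
theorem sub_proof : Stmt_SUB := by
  intro V P A B u v w hu hv hdis hnadj
  have hvA : v ∉ A := fun h => Set.disjoint_left.1 hdis h hv
  rcases tail A w hvA with h | ⟨u', w1, hw1, a, ha, hau⟩
  · exact absurd hu (h u w.start_mem_support)
  · have hu'B : u' ∉ B := fun h => hnadj a ha u' h hau
    rcases tail B w1.reverse hu'B with h | ⟨v', w2, hw2, b, hb, hbv⟩
    · exact absurd hv (h v w1.reverse.start_mem_support)
    · refine ⟨u', v', w2.reverse, fun z hz => ?_, ⟨a, ha, hau⟩, b, hb, hbv.symm⟩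
      rw [SimpleGraph.Walk.support_reverse, List.mem_reverse] at hz
      obtain ⟨h1, h2⟩ := hw2 z hz
      rw [SimpleGraph.Walk.support_reverse, List.mem_reverse] at h1
      exact ⟨(hw1 z h1).1, (hw1 z h1).2, h2⟩

end Pool.Agent.ACC
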