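import Pool.Agent.ACC.StmtsB

set_option autoImplicit false

namespace Pool.Agent.ACC

namespace TAI_

theorem aux {V : Type} (P : SimpleGraph V) (A : Set V) (u v : V) (w : P.Walk u v) (hv : v ∉ A) :
    (∃ z ∈ w.support, z ∈ A) → ∃ (u' : V) (w' : P.Walk u' v),
      (∀ z ∈ w'.support, z ∈ w.support ∧ z ∉ A) ∧ ∃ a ∈ A, P.Adj a u' := by
  induction w with
  | nil =>
    rintro ⟨z, hz, hzA⟩
    rw [SimpleGraph.Walk.support_nil, List.mem_singleton] at hz
    subst hz
    exact absurd hzA hv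
  | @cons x y t h w1 ih =>
    rintro ⟨z, hz, hzA⟩
    by_cases hex : ∃ z ∈ w1.support, z ∈ A
    · obtain ⟨u', w', h1, h2⟩ := ih hv hex
      refine ⟨u', w', fun s hs => ⟨?_, (h1 s hs).2⟩, h2⟩
      rw [SimpleGraph.Walk.support_cons]
      exact List.mem_cons_of_mem _ (h1 s hs).1
    · rw [SimpleGraph.Walk.support_cons, List.mem_cons] at hz
      rcases hz with hz | hz
      · subst hz
        refine ⟨y, w1, fun s hs => ⟨?_, fun hsA => hex ⟨s, hs, hsA⟩⟩, z, hzA, h⟩
        rw [SimpleGraph.Walk.support_cons]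
        exact List.mem_cons_of_mem _ hs
      · exact absurd ⟨z, hz, hzA⟩ hex

end TAI_

theorem tai_proof : Stmt_TAI := by
  intro V P A u v w hu hv
  exact TAI_.aux P A u v w hv ⟨u, w.start_mem_support, hu⟩

end Pool.Agent.ACC
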