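import Pool.Agent.ACC.StmtsC

/-!
Module TWB: a set without three pairwise far points is contained in two balls.
-/

set_option autoImplicit false

namespace Pool.Agent.ACC

theorem twb_proof : Stmt_TWB := by
  intro V X T C hV hT
  by_cases h : ∃ a ∈ T, ∃ b ∈ T, C < X.dist a b
  · obtain ⟨a, ha, b, hb, hab⟩ := h
    refine ⟨a, b, fun x hx => ?_⟩
    rcases hT a ha b hb x hx with h1 | h1 | h1
    · omega
    · exact Or.inr h1
    · exact Or.inl h1
  · push Not at h
    rcases T.eq_empty_or_nonempty with rfl | ⟨a, ha⟩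
    · obtain ⟨y⟩ := hV
      exact ⟨y, y, fun x hx => absurd hx (Set.notMem_empty x)⟩
    · exact ⟨a, a, fun x hx => Or.inl (h a ha x hx)⟩

end Pool.Agent.ACC
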