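import Pool.Agent.ACC.StmtsC
import Pool.Agent.ACC.Lib

/-!
# Squad ACD, module UNQ
-/

set_option autoImplicit false

namespace Pool.Agent.ACC

theorem UNQ_sep {W : Type} {E : Set (Set W)} {A : Set W} (h : Gen E A) :
    ∀ x y : W, x ∈ A → y ∉ A → ∃ B ∈ E, (x ∈ B ∧ y ∉ B) ∨ (x ∉ B ∧ y ∈ B) := by
  induction h with
  | base A hA => exact fun x y hx hy => ⟨A, hA, Or.inl ⟨hx, hy⟩⟩
  | empty => exact fun x y hx _ => absurd hx (Set.notMem_empty x)
  | compl A _ ih =>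
    intro x y hx hy
    have hy' : y ∈ A := by
      by_contra h'
      exact hy h'
    obtain ⟨B, hB, h⟩ := ih y x hy' hx
    refine ⟨B, hB, ?_⟩
    rcases h with h | h
    · exact Or.inr ⟨h.2, h.1⟩
    · exact Or.inl ⟨h.2, h.1⟩
  | inter A B _ _ ihA ihB =>
    intro x y hx hy
    by_cases hyA : y ∈ A
    · exact ihB x y hx.2 (fun h => hy ⟨hyA, h⟩)
    · exact ihA x y hx.1 hyA

theorem UNQ_fin {U : Type} (Y : SimpleGraph U) (F : Set (Set U)) (B : Set (U ⊕ F))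
    (hB : (bd (cone Y F) B).Finite) (S : F) :
    (Sum.inr S ∈ B → ((S : Set U) \ (Sum.inl ⁻¹' B)).Finite) ∧
    (Sum.inr S ∉ B → ((S : Set U) ∩ (Sum.inl ⁻¹' B)).Finite) := by
  have hinj : Function.Injective (fun u : U => (s(Sum.inl u, Sum.inr S) : Sym2 (U ⊕ F))) := by
    intro u u' h
    simp only [Sym2.eq_iff] at h
    rcases h with h | h
    · exact Sum.inl_injective h.1
    · cases h.1
  constructor
  · intro hS
    apply Set.Finite.of_finite_image _ hinj.injOn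
    apply hB.subset
    rintro e ⟨u, ⟨hu, huB⟩, rfl⟩
    refine ⟨Sum.inr S, Sum.inl u, Or.inr (Or.inr ⟨u, S, rfl, rfl, hu⟩), hS, huB, ?_⟩
    exact Sym2.eq_swap
  · intro hS
    apply Set.Finite.of_finite_image _ hinj.injOn
    apply hB.subset
    rintro e ⟨u, ⟨hu, huB⟩, rfl⟩
    exact ⟨Sum.inl u, Sum.inr S, Or.inr (Or.inl ⟨u, S, rfl, rfl, hu⟩), huB, hS, rfl⟩

theorem unq_proof (hDDF : Stmt_DDF) (hPCL : Stmt_PCL) (hSCT : Stmt_SCT) (hFLF : Stmt_FLF)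
    (hCNC : Stmt_CNC) : Stmt_UNQ := by
  intro V U X R lam p K F a c D N hgen v hv S hS T hT hSi hTi hvS hvT
  by_contra hST
  have hne : ¬ R.Eqv (a S) (a T) := fun h => hST (D.inj S hS T hT h)
  obtain ⟨hcon, -, -⟩ := hPCL V U X p D.con D.sur D.fb
  have hcc := hCNC U (push X p) F hcon D.ne
  have hgood := hDDF _ _ hcc N
  obtain ⟨A, hA, hSA, hTA⟩ := hSCT V U X R lam c c p F a D.con D.lf D.sp D.pl D.sur D.fb D.zd
    (hFLF V U X R lam p K F a c D) D.adj D.near ⟨S, hS⟩ ⟨T, hT⟩ hne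
  have key : ∃ B ∈ EE (cone (push X p) F) N, (Sum.inr ⟨S, hS⟩ : U ⊕ F) ∈ B ∧
      (Sum.inr ⟨T, hT⟩ : U ⊕ F) ∉ B := by
    obtain ⟨B, hB, h⟩ := UNQ_sep (hgen A hA) _ _ hSA hTA
    rcases h with h | h
    · exact ⟨B, hB, h⟩
    · exact ⟨Bᶜ, hgood.compl B hB, h.1, fun h' => h' h.2⟩
  obtain ⟨B, hB, hSB, hTB⟩ := key
  have hBf : (bd (cone (push X p) F) B).Finite := (hgood.bond B hB).1
  have h1 := (UNQ_fin (push X p) F B hBf ⟨S, hS⟩).1 hSB
  have h2 := (UNQ_fin (push X p) F B hBf ⟨T, hT⟩).2 hTB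
  simp only at h1 h2
  have hn1 : (Sum.inl ⁻¹' B : Set U).Nonempty := by
    by_contra h
    rw [Set.not_nonempty_iff_eq_empty] at h
    rw [h, Set.sdiff_empty] at h1
    exact hSi h1
  have hn2 : (Sum.inl ⁻¹' B : Set U)ᶜ.Nonempty := by
    by_contra h
    rw [Set.not_nonempty_iff_eq_empty, Set.compl_empty_iff] at h
    rw [h, Set.inter_univ] at h2
    exact hTi h2
  have hpb : (Sum.inl ⁻¹' B : Set U) ∈ pb (EE (cone (push X p) F) N) :=
    ⟨B, hB, rfl, hn1, hn2⟩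
  rcases hv.total _ hpb with h | h
  · apply hTi
    have h3 := hvT _ h
    apply (h2.union h3).subset
    intro u hu
    by_cases huB : u ∈ (Sum.inl ⁻¹' B : Set U)
    · exact Or.inl ⟨hu, huB⟩
    · exact Or.inr ⟨hu, huB⟩
  · apply hSi
    have h3 := hvS _ h
    apply (h1.union h3).subset
    intro u hu
    by_cases huB : u ∈ (Sum.inl ⁻¹' B : Set U)
    · exact Or.inr ⟨hu, fun h' => h' huB⟩
    · exact Or.inl ⟨hu, huB⟩

end Pool.Agent.ACC
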