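import Pool.Agent.ACC.StmtsC
import Pool.Agent.ACC.LibB

set_option autoImplicit false

namespace Pool.Agent.ACC

namespace ZDI_

variable {V U : Type}

theorem aux (X : SimpleGraph V) (p : V → U) (c : ℕ) (hX : X.Connected)
    (hc : ∀ x ∈ Zp X p, ∀ y ∈ Zp X p, p x = p y → X.dist x y ≤ c) {u u' : U}
    (w : (push X p).Walk u u') : ∀ x ∈ Zp X p, ∀ y ∈ Zp X p, p x = u → p y = u' →
    X.dist x y ≤ (c + 1) * w.length + c := by
  induction w with
  | nil =>
    intro x hx y hy h1 h2
    have := hc x hx y hy (h1.trans h2.symm)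
    simpa using this
  | @cons a b d hab q ih =>
    intro x hx y hy h1 h2
    obtain ⟨hne, x0, x1, h01, hx0, hx1⟩ := hab
    have hx0' : x0 ∈ Zp X p := ⟨x1, h01, by rw [hx0, hx1]; exact hne⟩
    have hx1' : x1 ∈ Zp X p := ⟨x0, h01.symm, by rw [hx0, hx1]; exact hne.symm⟩
    have e1 : X.dist x x0 ≤ c := hc x hx x0 hx0' (h1.trans hx0.symm)
    have e2 : X.dist x0 x1 = 1 := SimpleGraph.dist_eq_one_iff_adj.mpr h01
    have e3 := ih x1 hx1' y hy hx1 h2
    have t1 := hX.dist_triangle (u := x) (v := x0) (w := y)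
    have t2 := hX.dist_triangle (u := x0) (v := x1) (w := y)
    rw [SimpleGraph.Walk.length_cons]
    have : (c + 1) * (q.length + 1) = (c + 1) * q.length + (c + 1) := by ring
    omega

end ZDI_

open ZDI_

theorem zdi_proof : Stmt_ZDI := by
  intro V U X p c hX hY hc x hx y hy
  obtain ⟨w, hw⟩ := hY.exists_walk_length_eq_dist (p x) (p y)
  have := aux X p c hX hc w x hx y hy rfl rfl
  rw [hw] at this
  exact this

end Pool.Agent.ACC
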