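import Pool.Agent.ACC.StmtsC
import Pool.Agent.ACC.LibB

/-!
MP_851278_al, squad ACD, module ZIN: the trace is invariant under the stabiliser.
-/

set_option autoImplicit false

namespace Pool.Agent.ACC

namespace ZIN_

theorem hub_image {V : Type} (G : Subgroup (Equiv.Perm V)) (v : Set (Set V)) (g : Equiv.Perm V)
    (hg : g ∈ stabV G v) (C : Set V) (hC : C ∈ Hub v) : g '' C ∈ Hub v := by
  have hg2 : ∀ A : Set V, A ∈ v ↔ g '' A ∈ v := hg.2
  have hgi : g⁻¹ ∈ stabV G v := (stabV G v).inv_mem hg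
  have hgi2 : ∀ A : Set V, A ∈ v ↔ (g⁻¹ : Equiv.Perm V) '' A ∈ v := hgi.2
  obtain ⟨hC1, hC2⟩ := hC
  refine ⟨?_, ?_⟩
  · rw [← image_compl]
    exact (hg2 _).1 hC1
  · intro D hD hDC
    rw [← image_compl] at hDC ⊢
    have h1 : (g⁻¹ : Equiv.Perm V) '' D ∈ v := (hgi2 D).1 hD
    have h2 : (g⁻¹ : Equiv.Perm V) '' D ⊆ Cᶜ := by
      have := (image_subset_image (g⁻¹ : Equiv.Perm V) D (g '' Cᶜ)).2 hDC
      rwa [image_inv_image] at this
    have h3 := hC2 _ h1 h2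
    rw [← h3, image_image_inv]

end ZIN_

theorem zin_proof : Stmt_ZIN := by
  intro V X G v hA g hg x hx
  have hgG : g ∈ G := hg.1
  rcases hx with hx | ⟨C, hC, y, hy⟩
  · left
    intro C hC hgx
    have hgi : g⁻¹ ∈ stabV G v := (stabV G v).inv_mem hg
    have h1 := ZIN_.hub_image G v g⁻¹ hgi C hC
    apply hx _ h1
    refine ⟨g x, hgx, ?_⟩
    simp
  · right
    refine ⟨g '' C, ZIN_.hub_image G v g hg C hC, g y, ?_⟩
    rw [mem_bd_iff] at hy ⊢
    refine ⟨(hA g hgG x y).2 hy.1, ?_⟩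
    have key : ∀ z : V, g z ∈ g '' C ↔ z ∈ C := fun z => g.injective.mem_set_image
    rw [key, key]
    exact hy.2

end Pool.Agent.ACC
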