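import Pool.Agent.ACC.PartI
import Pool.Agent.ACC.BGX
import Pool.Agent.ACC.CFM
import Pool.Agent.ACC.CFT
import Pool.Agent.ACC.CFZ
import Pool.Agent.ACC.CIN
import Pool.Agent.ACC.CNA
import Pool.Agent.ACC.CNC
import Pool.Agent.ACC.CNE
import Pool.Agent.ACC.CNW
import Pool.Agent.ACC.COF
import Pool.Agent.ACC.CRE
import Pool.Agent.ACC.EBD
import Pool.Agent.ACC.EXC
import Pool.Agent.ACC.FBC
import Pool.Agent.ACC.FIB
import Pool.Agent.ACC.FIV
import Pool.Agent.ACC.FLF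
import Pool.Agent.ACC.HUL
import Pool.Agent.ACC.KNC
import Pool.Agent.ACC.KSA
import Pool.Agent.ACC.KTH
import Pool.Agent.ACC.LAZ
import Pool.Agent.ACC.LFW
import Pool.Agent.ACC.LKE
import Pool.Agent.ACC.LKP
import Pool.Agent.ACC.LNF
import Pool.Agent.ACC.LV0
import Pool.Agent.ACC.LV1
import Pool.Agent.ACC.LV2
import Pool.Agent.ACC.MES
import Pool.Agent.ACC.MLT
import Pool.Agent.ACC.OR3
import Pool.Agent.ACC.ORA
import Pool.Agent.ACC.ORM
import Pool.Agent.ACC.ORN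
import Pool.Agent.ACC.ORT
import Pool.Agent.ACC.PCL
import Pool.Agent.ACC.PCO
import Pool.Agent.ACC.PDL
import Pool.Agent.ACC.PFB
import Pool.Agent.ACC.POL
import Pool.Agent.ACC.POT
import Pool.Agent.ACC.PPP
import Pool.Agent.ACC.PST
import Pool.Agent.ACC.PTR
import Pool.Agent.ACC.QPU
import Pool.Agent.ACC.QST
import Pool.Agent.ACC.RBE
import Pool.Agent.ACC.RCE
import Pool.Agent.ACC.RCS
import Pool.Agent.ACC.RDP
import Pool.Agent.ACC.REV
import Pool.Agent.ACC.RMC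
import Pool.Agent.ACC.RMP
import Pool.Agent.ACC.RPO
import Pool.Agent.ACC.RSP
import Pool.Agent.ACC.RST
import Pool.Agent.ACC.SCT
import Pool.Agent.ACC.SFD
import Pool.Agent.ACC.SPA
import Pool.Agent.ACC.SPL
import Pool.Agent.ACC.ST1
import Pool.Agent.ACC.STC
import Pool.Agent.ACC.STK
import Pool.Agent.ACC.SUB
import Pool.Agent.ACC.TAI
import Pool.Agent.ACC.TWB
import Pool.Agent.ACC.UNQ
import Pool.Agent.ACC.ZDI
import Pool.Agent.ACC.ZIN
import Pool.Agent.ACC.ZPZ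

/-!
MP_851278_al (frozen S02151), PART III: all modules put together; THEOREM A: quasi-transitive
locally finite graphs with a planar spanner are accessible.
-/

set_option autoImplicit false

namespace Pool.Agent.ACC

namespace PartIII_

theorem s_RBE : Stmt_RBE := rbe_proof
theorem s_RCS : Stmt_RCS := rcs_proof
theorem s_RPO : Stmt_RPO := rpo_proof
theorem s_RDP : Stmt_RDP := rdp_proof
theorem s_RCE : Stmt_RCE := rce_proof s_RBE
theorem s_RST : Stmt_RST := rst_proof s_RCE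
theorem s_RMC : Stmt_RMC := rmc_proof
theorem s_RSP : Stmt_RSP := rsp_proof
theorem s_RMP : Stmt_RMP := rmp_proof
theorem s_REV : Stmt_REV := rev_proof
theorem s_LKE : Stmt_LKE := lke_proof
theorem s_LKP : Stmt_LKP := lkp_proof
theorem s_KTH : Stmt_KTH := kth_proof s_RBE s_RCS
theorem s_KSA : Stmt_KSA := ksa_proof s_RBE
theorem s_KNC : Stmt_KNC := knc_proof s_RCS s_LKE s_LKP s_KTH
theorem s_ORA : Stmt_ORA := ora_proof s_RCS s_LKP s_KTH
theorem s_ORT : Stmt_ORT := ort_proof s_RBE s_RCS s_REV s_LKP s_ORA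
theorem s_ORM : Stmt_ORM := orm_proof s_RCS s_LKP s_ORA
theorem s_ORN : Stmt_ORN := orn_proof s_RCS s_LKP s_ORA
theorem s_OR3 : Stmt_OR3 := or3_proof s_ORA s_ORT s_ORM s_ORN
theorem s_SUB : Stmt_SUB := sub_proof
theorem s_MES : Stmt_MES := mes_proof men s_SUB
theorem s_LNF : Stmt_LNF := lnf_proof s_MES
theorem s_HUL : Stmt_HUL := hul_proof
theorem s_TAI : Stmt_TAI := tai_proof
theorem s_PTR : Stmt_PTR := ptr_proof s_SUB
theorem s_PST : Stmt_PST := pst_proof s_RCS s_LKE s_LKP s_KSA s_OR3 s_LNF s_HUL s_PTR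
theorem s_QPU : Stmt_QPU := qpu_proof
theorem s_QST : Stmt_QST := qst_proof s_KNC s_HUL s_TAI s_QPU
theorem s_COF : Stmt_COF := cof_proof s_RSP s_PST s_QST
theorem s_SPL : Stmt_SPL := spl_proof bdd bdi
theorem s_PDL : Stmt_PDL := pdl_proof s_RPO
theorem s_PCO : Stmt_PCO := pco_proof s_RBE
theorem s_POL : Stmt_POL := pol_proof s_RDP s_PDL s_PCO s_SPL efv
theorem s_CFT : Stmt_CFT := cft_proof s_COF s_POL
theorem s_CFM : Stmt_CFM := cfm_proof s_RMP s_CFT
theorem s_CFZ : Stmt_CFZ := cfz_proof s_RMC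
theorem s_PCL : Stmt_PCL := pcl_proof
theorem s_LAZ : Stmt_LAZ := laz_proof
theorem s_POT : Stmt_POT := pot_proof
theorem s_STK : Stmt_STK := stk_proof s_RPO s_RST s_LAZ
theorem s_STC : Stmt_STC := stc_proof s_PCL s_POT s_STK
theorem s_ST1 : Stmt_ST1 := st1_proof s_RMC s_PCL s_POT s_STK
theorem s_SCT : Stmt_SCT := sct_proof s_RCS s_PCL
theorem s_PPP : Stmt_PPP := ppp_proof
theorem s_PFB : Stmt_PFB := pfb_proof
theorem s_LFW : Stmt_LFW := lfw_proof
theorem s_CNC : Stmt_CNC := cnc_proof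
theorem s_CNA : Stmt_CNA := cna_proof
theorem s_CNE : Stmt_CNE := cne_proof s_CNA
theorem s_CNW : Stmt_CNW := cnw_proof s_CNA
theorem s_ZDI : Stmt_ZDI := zdi_proof
theorem s_FLF : Stmt_FLF := flf_proof
theorem s_LV1 : Stmt_LV1 := lv1_proof efv crt s_PCL s_ST1 s_FLF s_CNC s_CNA s_CNE s_CNW
theorem s_SPA : Stmt_SPA := spa_proof s_RMC s_PCL s_FLF s_PFB
theorem s_CRE : Stmt_CRE := cre_proof efv crf ddf nfe s_PCL s_FLF s_CNC s_CNA s_CNE s_SPA
theorem s_EBD : Stmt_EBD := ebd_proof efv nfe s_PCL s_FLF s_CNC s_CNA s_CNE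
theorem s_FBC : Stmt_FBC := fbc_proof hua s_PCL s_ZDI s_CRE s_EBD
theorem s_SFD : Stmt_SFD := sfd_proof s_PCL s_FLF
theorem s_EXC : Stmt_EXC := exc_proof hua ddf s_PCL s_LAZ s_PPP s_CNC s_CRE s_EBD s_SFD
theorem s_UNQ : Stmt_UNQ := unq_proof ddf s_PCL s_SCT s_FLF s_CNC
theorem s_LV2 : Stmt_LV2 := lv2_proof efv crt toc toe tog toa s_PCL s_STC s_PPP s_PFB s_LFW s_LV1 s_CRE s_FBC s_EXC s_UNQ
theorem s_BGX : Stmt_BGX := bgx_proof
theorem s_ZPZ : Stmt_ZPZ := zpz_proof hua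
theorem s_ZIN : Stmt_ZIN := zin_proof
theorem s_FIB : Stmt_FIB := fib_proof hua bdd efv nfe ddf
theorem s_TWB : Stmt_TWB := twb_proof
theorem s_MLT : Stmt_MLT := mlt_proof
theorem s_CIN : Stmt_CIN := cin_proof s_POL
theorem s_LV0 : Stmt_LV0 := lv0_proof efv nfe tog zrh s_PCL s_CFM s_CFZ s_BGX s_ZPZ s_ZIN s_FIB s_TWB s_MLT s_CIN
theorem s_FIV : Stmt_FIV := fiv_proof hua tfa

theorem tha_aux (hEFV : Stmt_EFV) (hNFE : Stmt_NFE) (hTOA : Stmt_TOA) (hLV0 : Stmt_LV0)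
    (hLV2 : Stmt_LV2) (hFIV : Stmt_FIV) : Stmt_THA := by
  intro V X G hX hl hA hV ⟨R, lam, hsp, hpl⟩
  by_cases hedge : ∃ x y, X.Adj x y
  · have hsp' : Spanner X R.P (max lam 1) :=
      ⟨hsp.1, hsp.2.1, fun x y h => (hsp.2.2 x y h).trans (le_max_left _ _)⟩
    obtain ⟨k, hk⟩ := hLV0 V X G R (max lam 1) (le_max_right _ _) hX hedge hl hA hV hsp' hpl
    have hE := hEFV V X G hl hA hV
    have hN := hNFE V X G hX hA hE k
    refine hTOA V X G (EE X k) k hX hA hN (fun v hv => ?_)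
    by_cases hfin : (ZZ X v).Finite
    · exact hFIV V X G (EE X k) v k hX hN hv hfin
    · obtain ⟨F, a, c, hD⟩ := hk v hv hfin
      exact hLV2 V (TV v) X R (max lam 1) (tproj v) (torsoG G v) F a c hD
  · refine ⟨0, fun A _ => Gen.base A ?_⟩
    have : bd X A = ∅ := by
      ext e
      constructor
      · rintro ⟨x, y, h, -, -, -⟩
        exact absurd ⟨x, y, h⟩ hedge
      · intro h
        exact absurd h (Set.notMem_empty _)
    show (bd X A).Finite ∧ (bd X A).ncard ≤ 0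
    rw [this]
    exact ⟨Set.finite_empty, by simp⟩

end PartIII_

open PartIII_ in
/-- THEOREM A. -/
theorem tha : Stmt_THA := tha_aux efv nfe toa s_LV0 s_LV2 s_FIV

end Pool.Agent.ACC
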