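import Pool.Agent.ACC.StmtsB

/-!
# Squad ACB, module RMC
-/

set_option autoImplicit false

namespace Pool.Agent.ACC

theorem rmc_proof : Stmt_RMC := by
  intro V R m a b hM ha hb hconst hab
  obtain ⟨c, hc, hca, hcM⟩ := R.sep a {p : V × V | R.P.Adj p.1 p.2 ∧ m p.1 ≠ m p.2} hM
    (fun q hq hE => hq.2 (hconst q hq.1 hE))
  have hzero : ∀ x y, R.P.Adj x y → c x y * m x = c x y * m y := by
    intro x y hxy
    by_cases h : m x = m y
    · rw [h]
    · have := hcM (x, y) ⟨hxy, h⟩
      simp only at this
      rw [this, zero_mul, zero_mul]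
  have hcol : R.Col (fun x y => c x y * m x) := by
    refine ⟨?_, ?_⟩
    · intro x y hxy
      simp only
      rw [hc.1 x y hxy]
      exact (hzero x y hxy).symm
    · apply (hc.2.union hM).subset
      intro p hp
      by_contra hcon
      rw [Set.mem_union, not_or] at hcon
      have h1 : c p.1 p.2 = c p.2 p.1 := by
        by_contra h
        exact hcon.1 ⟨hp.1, h⟩
      have h2 : m p.1 = m p.2 := by
        by_contra h
        exact hcon.2 ⟨hp.1, h⟩
      apply hp.2
      simp only
      rw [h1, h2]
  have h1 := hab c hc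
  have h2 := hab _ hcol
  rw [← h1, hca, one_mul, one_mul] at h2
  exact h2

end Pool.Agent.ACC
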