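import Pool.Agent.ACC.Defs

/-!
# Squad ACC (MP_851278_al), planar rotation systems

Darts of a graph `P` on `V` are pairs `(x, y)` with `P.Adj x y`; colours are in `ZMod 2`.
-/

set_option autoImplicit false

namespace Pool.Agent.ACC

/-- rotation system on a graph `P` (`P` is automatically locally finite) -/
structure Rot (V : Type) where
  P : SimpleGraph V
  nx : V → V → V
  nx_adj : ∀ x y, P.Adj x y → P.Adj x (nx x y)
  cyc : ∀ x y y', P.Adj x y → P.Adj x y' → ∃ n : ℕ, (nx x)^[n] y = y'

/-- number of times a list of edges passes through the edge `xy`, mod 2 -/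
noncomputable def par {V : Type} (l : List (Sym2 V)) (x y : V) : ZMod 2 := by
  classical exact ((l.count s(x, y) : ℕ) : ZMod 2)

/-- sum of a function on darts along a walk -/
def wsum {V : Type} {P : SimpleGraph V} (D : V → V → ZMod 2) {x y : V} (w : P.Walk x y) : ZMod 2 :=
  (w.darts.map (fun d => D d.fst d.snd)).sum

namespace Rot

variable {V : Type}

/-- invariant colouring of the darts (constant on facial walks) -/
def Inv (R : Rot V) (c : V → V → ZMod 2) : Prop :=
  ∀ x y, R.P.Adj x y → c y (R.nx y x) = c x y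

/-- the edges (both orientations) whose two sides have different colours -/
def bset (R : Rot V) (c : V → V → ZMod 2) : Set (V × V) :=
  {p | R.P.Adj p.1 p.2 ∧ c p.1 p.2 ≠ c p.2 p.1}

/-- invariant colouring with finite boundary -/
def Col (R : Rot V) (c : V → V → ZMod 2) : Prop := R.Inv c ∧ (R.bset c).Finite

/-- two darts are in the same class (topological face) -/
def Eqv (R : Rot V) (a b : V × V) : Prop := ∀ c, R.Col c → c a.1 a.2 = c b.1 b.2

/-- planarity: every closed walk is the boundary of a colouring -/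
def Planar (R : Rot V) : Prop := ∀ (x : V) (w : R.P.Walk x x), ∃ c, R.Col c ∧
  ∀ y z, R.P.Adj y z → c y z + c z y = par w.edges y z

/-- transport by a permutation of the vertices -/
def map (R : Rot V) (e : V ≃ V) : Rot V where
  P := R.P.comap e.symm
  nx := fun x y => e (R.nx (e.symm x) (e.symm y))
  nx_adj := by
    intro x y h
    have := R.nx_adj (e.symm x) (e.symm y) h
    simpa using this
  cyc := by
    intro x y y' h h'
    obtain ⟨n, hn⟩ := R.cyc (e.symm x) (e.symm y) (e.symm y') h h'
    refine ⟨n, ?_⟩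
    have key : ∀ m : ℕ, (fun z => e (R.nx (e.symm x) (e.symm z)))^[m] y =
        e ((R.nx (e.symm x))^[m] (e.symm y)) := by
      intro m
      induction m with
      | zero => simp
      | succ m ih =>
        rw [Function.iterate_succ_apply', ih, Function.iterate_succ_apply']
        simp
    show (fun z => e (R.nx (e.symm x) (e.symm z)))^[n] y = y'
    rw [key n, hn]
    simp

theorem fin_nb (R : Rot V) (x : V) : {y | R.P.Adj x y}.Finite := by
  by_cases h : ∃ y y', R.P.Adj x y ∧ R.P.Adj x y' ∧ y ≠ y'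
  · obtain ⟨y, y', hy, hy', hne⟩ := h
    obtain ⟨n, hn⟩ := R.cyc x y y' hy hy'
    obtain ⟨m, hm⟩ := R.cyc x y' y hy' hy
    have hper : (R.nx x)^[m + n] y = y := by
      rw [Function.iterate_add_apply, hn, hm]
    have hpos : 0 < m + n := by
      rcases Nat.eq_zero_or_pos (m + n) with h0 | h0
      · have h1 : n = 0 := by omega
        rw [h1] at hn
        exact absurd hn hne
      · exact h0
    apply Set.Finite.subset (Set.finite_range (fun k : Fin (m + n) => (R.nx x)^[(k : ℕ)] y))
    intro z hz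
    obtain ⟨k, hk⟩ := R.cyc x y z hy hz
    refine ⟨⟨k % (m + n), Nat.mod_lt _ hpos⟩, ?_⟩
    simp only
    rw [← hk]
    have h2 : ∀ q : ℕ, (R.nx x)^[(m + n) * q] y = y := by
      intro q
      induction q with
      | zero => simp
      | succ q ih => rw [Nat.mul_succ, Function.iterate_add_apply, hper, ih]
    conv_rhs => rw [← Nat.mod_add_div k (m + n)]
    rw [Function.iterate_add_apply, h2]
  · push Not at h
    by_cases h1 : ∃ y, R.P.Adj x y
    · obtain ⟨y, hy⟩ := h1
      apply Set.Finite.subset (Set.finite_singleton y)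
      intro z hz
      exact (h y z hy hz).symm
    · push Not at h1
      convert Set.finite_empty
      ext z
      simp [h1 z]

theorem col_const (R : Rot V) (k : ZMod 2) : R.Col (fun _ _ => k) := by
  refine ⟨fun _ _ _ => rfl, ?_⟩
  convert Set.finite_empty
  ext p
  simp [bset]

theorem bset_add (R : Rot V) (c d : V → V → ZMod 2) :
    R.bset (fun x y => c x y + d x y) ⊆ R.bset c ∪ R.bset d := by
  intro p hp
  by_contra h
  simp only [bset, Set.mem_union, Set.mem_ofPred_eq, not_or, not_and, not_not] at h hp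
  exact hp.2 (by rw [h.1 hp.1, h.2 hp.1])

theorem bset_mul (R : Rot V) (c d : V → V → ZMod 2) :
    R.bset (fun x y => c x y * d x y) ⊆ R.bset c ∪ R.bset d := by
  intro p hp
  by_contra h
  simp only [bset, Set.mem_union, Set.mem_ofPred_eq, not_or, not_and, not_not] at h hp
  exact hp.2 (by rw [h.1 hp.1, h.2 hp.1])

theorem col_add (R : Rot V) {c d : V → V → ZMod 2} (hc : R.Col c) (hd : R.Col d) :
    R.Col (fun x y => c x y + d x y) := by
  refine ⟨fun x y h => ?_, (hc.2.union hd.2).subset (R.bset_add c d)⟩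
  simp only [hc.1 x y h, hd.1 x y h]

theorem col_mul (R : Rot V) {c d : V → V → ZMod 2} (hc : R.Col c) (hd : R.Col d) :
    R.Col (fun x y => c x y * d x y) := by
  refine ⟨fun x y h => ?_, (hc.2.union hd.2).subset (R.bset_mul c d)⟩
  simp only [hc.1 x y h, hd.1 x y h]

theorem eqv_refl (R : Rot V) (a : V × V) : R.Eqv a a := fun _ _ => rfl

theorem eqv_symm (R : Rot V) {a b : V × V} (h : R.Eqv a b) : R.Eqv b a :=
  fun c hc => (h c hc).symm

theorem eqv_trans (R : Rot V) {a b d : V × V} (h : R.Eqv a b) (h' : R.Eqv b d) : R.Eqv a d :=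
  fun c hc => (h c hc).trans (h' c hc)

/-- a colouring which is 1 on `a` and 0 on a finite set of darts not equivalent to `a` -/
theorem sep (R : Rot V) (a : V × V) (M : Set (V × V)) (hM : M.Finite)
    (h : ∀ b ∈ M, ¬ R.Eqv a b) :
    ∃ c, R.Col c ∧ c a.1 a.2 = 1 ∧ ∀ b ∈ M, c b.1 b.2 = 0 := by
  induction M, hM using Set.Finite.induction_on with
  | empty => exact ⟨fun _ _ => 1, R.col_const 1, rfl, by simp⟩
  | @insert b M _ _ ih =>
    obtain ⟨c, hc, hca, hcM⟩ := ih (fun b' hb' => h b' (Set.mem_insert_of_mem _ hb'))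
    have hb := h b (Set.mem_insert _ _)
    simp only [Eqv, not_forall] at hb
    obtain ⟨d, hd, hdab⟩ := hb
    refine ⟨fun x y => c x y * (d x y + d b.1 b.2), R.col_mul hc
      (R.col_add hd (R.col_const (d b.1 b.2))), ?_, ?_⟩
    · simp only [hca, one_mul]
      revert hdab
      generalize d a.1 a.2 = u
      generalize d b.1 b.2 = v
      revert u v
      decide
    · intro b' hb'
      rcases Set.mem_insert_iff.mp hb' with rfl | hb'
      · simp only
        have : d b'.1 b'.2 + d b'.1 b'.2 = 0 := CharTwo.add_self_eq_zero _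
        rw [this, mul_zero]
      · simp only [hcM b' hb', zero_mul]

end Rot

/-- nonempty connected vertex set -/
def Cn {V : Type} (P : SimpleGraph V) (S : Set V) : Prop :=
  S.Nonempty ∧ ∀ x ∈ S, ∀ y ∈ S, ∃ w : P.Walk x y, ∀ z ∈ w.support, z ∈ S

/-- bounded geometry: balls of radius `r` have at most `f r` points -/
def BG {V : Type} (X : SimpleGraph V) (f : ℕ → ℕ) : Prop :=
  ∀ x r, (ball X x r).Finite ∧ (ball X x r).ncard ≤ f r

/-- no cut with at most `k` edges separates `S` from `T` -/
def NoSep {V : Type} (X : SimpleGraph V) (k : ℕ) (S T : Set V) : Prop :=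
  ∀ D ∈ Small X k, ¬ (S ⊆ D ∧ T ⊆ Dᶜ)

/-- neighbourhood of a set -/
def nbd {V : Type} (X : SimpleGraph V) (S : Set V) (r : ℕ) : Set V :=
  {v | ∃ s ∈ S, X.dist s v ≤ r}

/-- the class of the dart `a` contains a dart at the vertex `x` -/
def Rot.Touch {V : Type} (R : Rot V) (a : V × V) (x : V) : Prop :=
  ∃ y, R.P.Adj x y ∧ R.Eqv a (x, y)

/-- a walk from `x0` to `y0` in `X`, then in `S`, then in `Y` -/
structure Link {V : Type} (P : SimpleGraph V) (X S Y : Set V) (x0 y0 : V) where
  a : V
  b : V
  b' : V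
  a' : V
  p1 : P.Walk x0 a
  h1 : P.Adj a b
  p2 : P.Walk b b'
  h2 : P.Adj b' a'
  p3 : P.Walk a' y0
  s1 : ∀ v ∈ p1.support, v ∈ X
  s2 : ∀ v ∈ p2.support, v ∈ S
  s3 : ∀ v ∈ p3.support, v ∈ Y

/-- the edges of a link -/
def Link.edges {V : Type} {P : SimpleGraph V} {X S Y : Set V} {x0 y0 : V}
    (L : Link P X S Y x0 y0) : List (Sym2 V) :=
  L.p1.edges ++ (s(L.a, L.b) :: (L.p2.edges ++ (s(L.b', L.a') :: L.p3.edges)))

end Pool.Agent.ACC
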