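import Pool.Agent.ACC.Rot
import Pool.Agent.ACC.StmtsA

/-!
MP_851278_al (frozen S02151), PART III (Theorem A), first half: statements of the modules.
R.. rotation systems, K.. the algebraic K_5 argument, O.. cyclic order of disjoint connections,
M.. Menger, P../Q.. overlap lemma, C.. canonical large faces, S.. Stokes.
Recipes: /team-store/MP_851278_ACB.md
-/

set_option autoImplicit false

namespace Pool.Agent.ACC

/-! ### R. Rotation systems -/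

/-- RBE: the boundary of a colouring meets every cut in an even number of edges. -/
def Stmt_RBE : Prop := ∀ (V : Type) (R : Rot V) (c : V → V → ZMod 2), R.Col c → ∀ A : Set V,
  Even {p : V × V | p ∈ R.bset c ∧ p.1 ∈ A ∧ p.2 ∉ A}.ncard

/-- RCS: a colouring without boundary edges along a walk is constant along it. -/
def Stmt_RCS : Prop := ∀ (V : Type) (R : Rot V) (c : V → V → ZMod 2), R.Inv c →
  ∀ (x y : V) (w : R.P.Walk x y),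
  (∀ z ∈ w.support, ∀ z', R.P.Adj z z' → c z z' = c z' z) →
  ∀ x' y', R.P.Adj x x' → R.P.Adj y y' → c x x' = c y y' ∧ c x' x = c y y'

/-- RPO: a function on edges whose sum along closed walks vanishes has a potential. -/
def Stmt_RPO : Prop := ∀ (V : Type) (P : SimpleGraph V) (D : V → V → ZMod 2), P.Connected →
  (∀ x y, D x y = D y x) → (∀ (x : V) (w : P.Walk x x), wsum D w = 0) →
  ∃ h : V → ZMod 2, ∀ x y, P.Adj x y → D x y = h x + h y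

/-- RDP: dual paths along a walk. -/
def Stmt_RDP : Prop := ∀ (V : Type) (R : Rot V) (x y : V) (w : R.P.Walk x y) (x' y' : V),
  R.P.Adj x x' → R.P.Adj y y' → ∃ l : List (V × V),
  (∀ p ∈ l, R.P.Adj p.1 p.2 ∧ p.1 ∈ w.support) ∧
  ∀ c, R.Inv c → c x x' + c y y' = (l.map (fun p => c p.1 p.2 + c p.2 p.1)).sum

/-- RCE: a finite cut meets every class evenly. Uses RBE -/
def Stmt_RCE : Prop := ∀ (V : Type) (R : Rot V) (h : V → ZMod 2) (a : V × V),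
  {p : V × V | R.P.Adj p.1 p.2 ∧ h p.1 ≠ h p.2}.Finite →
  Even {p : V × V | R.P.Adj p.1 p.2 ∧ h p.1 ≠ h p.2 ∧ R.Eqv a p}.ncard

/-- RST: Stokes. Uses RCE -/
def Stmt_RST : Prop := ∀ (V : Type) (R : Rot V) (c D : V → V → ZMod 2) (x : V)
  (w : R.P.Walk x x), R.Col c → (∀ y z, D y z = D z y) →
  {p : V × V | R.P.Adj p.1 p.2 ∧ D p.1 p.2 ≠ 0}.Finite →
  (∀ y z, R.P.Adj y z → c y z + c z y = par w.edges y z) →
  (∀ a : V × V, R.P.Adj a.1 a.2 → c a.1 a.2 = 1 → ∃ h : V → ZMod 2,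
    {p : V × V | R.P.Adj p.1 p.2 ∧ h p.1 ≠ h p.2}.Finite ∧
    ∀ b : V × V, R.P.Adj b.1 b.2 → R.Eqv a b → D b.1 b.2 = h b.1 + h b.2) →
  wsum D w = 0

/-- RMC: a function with finite coboundary which is constant along the darts of a class is
constant on the class. -/
def Stmt_RMC : Prop := ∀ (V : Type) (R : Rot V) (m : V → ZMod 2) (a b : V × V),
  {p : V × V | R.P.Adj p.1 p.2 ∧ m p.1 ≠ m p.2}.Finite → R.P.Adj a.1 a.2 → R.P.Adj b.1 b.2 →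
  (∀ q : V × V, R.P.Adj q.1 q.2 → R.Eqv a q → m q.1 = m q.2) → R.Eqv a b → m a.1 = m b.1

/-- RSP: separation of two finite sets which touch no common class. -/
def Stmt_RSP : Prop := ∀ (V : Type) (R : Rot V) (X Y : Set V), X.Finite → Y.Finite →
  (∀ a b : V × V, R.P.Adj a.1 a.2 → R.P.Adj b.1 b.2 → a.1 ∈ X → b.1 ∈ Y → ¬ R.Eqv a b) →
  ∃ c, R.Col c ∧ (∀ x ∈ X, ∀ y, R.P.Adj x y → c x y = 1 ∧ c y x = 1) ∧
    (∀ x ∈ Y, ∀ y, R.P.Adj x y → c x y = 0 ∧ c y x = 0)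

/-- RMP: transport of rotation systems. -/
def Stmt_RMP : Prop := ∀ (V : Type) (X : SimpleGraph V) (lam : ℕ) (R : Rot V)
  (e : Equiv.Perm V), (∀ x y, X.Adj (e x) (e y) ↔ X.Adj x y) →
  (Spanner X R.P lam → Spanner X (R.map e).P lam) ∧ (R.Planar → (R.map e).Planar) ∧
  (∀ a b : V × V, R.Eqv a b ↔ (R.map e).Eqv (e a.1, e a.2) (e b.1, e b.2)) ∧
  (∀ x y, (R.map e).P.Adj (e x) (e y) ↔ R.P.Adj x y)

/-- REV: planarity for finite even edge sets. -/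
def Stmt_REV : Prop := ∀ (V : Type) (R : Rot V), R.Planar → ∀ J : Set (Sym2 V), J.Finite →
  J ⊆ R.P.edgeSet → (∀ x, Even {e | e ∈ J ∧ x ∈ e}.ncard) →
  ∃ c, R.Col c ∧ ∀ y z, R.P.Adj y z → (c y z ≠ c z y ↔ s(y, z) ∈ J)

/-! ### K. The K_5 argument -/

/-- LKE: existence of links. -/
def Stmt_LKE : Prop := ∀ (V : Type) (P : SimpleGraph V) (X S Y : Set V) (x0 y0 : V),
  Cn P X → Cn P S → Cn P Y → x0 ∈ X → y0 ∈ Y → (∃ a ∈ X, ∃ b ∈ S, P.Adj a b) →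
  (∃ a ∈ Y, ∃ b ∈ S, P.Adj b a) → Nonempty (Link P X S Y x0 y0)

/-- LKP: for links through disjoint sets there is a colouring with boundary the sum of the two
links, with a prescribed value at one dart. -/
def Stmt_LKP : Prop := ∀ (V : Type) (R : Rot V) (X Y S T : Set V) (x0 y0 : V)
  (L : Link R.P X S Y x0 y0) (M : Link R.P X T Y x0 y0) (a : V × V) (k : ZMod 2), R.Planar →
  ∃ c, R.Col c ∧ (∀ y z, R.P.Adj y z → c y z + c z y = par (L.edges ++ M.edges) y z) ∧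
    c a.1 a.2 = k

/-- KTH: three links cut the plane into three sectors (the colouring `c i` belongs to the two
links different from `i` and vanishes at the link `i`). Uses RBE, RCS -/
def Stmt_KTH : Prop := ∀ (V : Type) (R : Rot V) (X Y : Set V) (S : Fin 3 → Set V) (x0 y0 : V)
  (L : ∀ i, Link R.P X (S i) Y x0 y0) (c : Fin 3 → V → V → ZMod 2),
  R.P.Connected → Disjoint X Y → (∀ i, Disjoint X (S i)) → (∀ i, Disjoint Y (S i)) →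
  (∀ i j, i ≠ j → Disjoint (S i) (S j)) → (∀ i, R.Col (c i)) →
  (∀ i y z, R.P.Adj y z →
    c i y z + c i z y = par ((L (i + 1)).edges ++ (L (i + 2)).edges) y z) →
  (∀ i, ∀ x ∈ S i, ∀ y, R.P.Adj x y → c i x y = 0) →
  ∀ x y, R.P.Adj x y → c 0 x y + c 1 x y + c 2 x y = 1

/-- KSA: arcs in a sector. Uses RBE -/
def Stmt_KSA : Prop := ∀ (V : Type) (R : Rot V) (X Y S T : Set V) (x0 y0 : V)
  (L : Link R.P X S Y x0 y0) (M : Link R.P X T Y x0 y0) (c j : V → V → ZMod 2),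
  Disjoint X Y → Disjoint X S → Disjoint X T → Disjoint Y S → Disjoint Y T → Disjoint S T →
  R.Col c → R.Col j →
  (∀ y z, R.P.Adj y z → c y z + c z y = par (L.edges ++ M.edges) y z) →
  (∀ x ∈ X, ∀ y, R.P.Adj x y → j x y = 1 ∧ j y x = 1) →
  (∀ x ∈ Y, ∀ y, R.P.Adj x y → j x y = 0 ∧ j y x = 0) →
  ∃ u ∈ S, ∃ v ∈ T, ∃ w : R.P.Walk u v, ∀ d ∈ w.darts,
    j d.fst d.snd ≠ j d.snd d.fst ∧ c d.fst d.snd = 1 ∧ c d.snd d.fst = 1

/-- KNC: K_5 minus an edge: no class touches both `X` and `Y`. Uses RCS, LKE, LKP, KTH -/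
def Stmt_KNC : Prop := ∀ (V : Type) (R : Rot V) (X Y : Set V) (S : Fin 3 → Set V),
  R.P.Connected → R.Planar → Disjoint X Y → (∀ i, Disjoint X (S i)) →
  (∀ i, Disjoint Y (S i)) → (∀ i j, i ≠ j → Disjoint (S i) (S j)) → Cn R.P X → Cn R.P Y →
  (∀ i, Cn R.P (S i)) → (∀ i, ∃ a ∈ X, ∃ b ∈ S i, R.P.Adj a b) →
  (∀ i, ∃ a ∈ Y, ∃ b ∈ S i, R.P.Adj b a) →
  (∀ i, ∃ u ∈ S (i + 1), ∃ v ∈ S (i + 2), ∃ w : R.P.Walk u v,
    ∀ z ∈ w.support, z ∉ X ∧ z ∉ Y ∧ z ∉ S i) →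
  ∀ a b : V × V, R.P.Adj a.1 a.2 → R.P.Adj b.1 b.2 → a.1 ∈ X → b.1 ∈ Y → ¬ R.Eqv a b

/-! ### O. Cyclic order -/

/-- A family of disjoint connections between `X` and `Y`. -/
structure Fam {V : Type} (R : Rot V) (X Y : Set V) (I : Type) where
  S : I → Set V
  x0 : V
  y0 : V
  L : ∀ i, Link R.P X (S i) Y x0 y0
  dXY : Disjoint X Y
  dX : ∀ i, Disjoint X (S i)
  dY : ∀ i, Disjoint Y (S i)
  dS : ∀ i j, i ≠ j → Disjoint (S i) (S j)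
  cS : ∀ i, Cn R.P (S i)
  cX : Cn R.P X
  cY : Cn R.P Y

/-- `k` comes before `j`, seen from `o`. -/
def Fam.Bef {V : Type} {R : Rot V} {X Y : Set V} {I : Type} (F : Fam R X Y I) (o k j : I) :
    Prop :=
  ∃ c, R.Col c ∧
    (∀ y z, R.P.Adj y z → c y z + c z y = par ((F.L o).edges ++ (F.L j).edges) y z) ∧
    c (F.L o).a (F.L o).b = 0 ∧ ∀ x ∈ F.S k, ∀ y, R.P.Adj x y → c x y = 1

/-- ORA: antisymmetry. Uses RCS, LKP, KTH -/
def Stmt_ORA : Prop := ∀ (V : Type) (R : Rot V) (X Y : Set V) (I : Type) (F : Fam R X Y I)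
  (o j k : I), R.P.Connected → R.Planar → o ≠ j → o ≠ k → j ≠ k →
  (F.Bef o k j ↔ ¬ F.Bef o j k)

/-- ORT: transitivity. Uses RBE, RCS, REV, LKP, ORA -/
def Stmt_ORT : Prop := ∀ (V : Type) (R : Rot V) (X Y : Set V) (I : Type) (F : Fam R X Y I)
  (o j k l : I), R.P.Connected → R.Planar → o ≠ j → o ≠ k → o ≠ l → j ≠ k → j ≠ l → k ≠ l →
  F.Bef o l k → F.Bef o k j → F.Bef o l j

/-- ORM: a walk from `S o` to `S j` meets what is before `j` or what is after `j`.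
Uses RCS, LKP, ORA -/
def Stmt_ORM : Prop := ∀ (V : Type) (R : Rot V) (X Y : Set V) (I : Type) (F : Fam R X Y I)
  (o j k l : I), R.P.Connected → R.Planar → o ≠ j → o ≠ k → o ≠ l → j ≠ k → j ≠ l → k ≠ l →
  F.Bef o k j → F.Bef o j l → ∀ u ∈ F.S o, ∀ v ∈ F.S j, ∀ w : R.P.Walk u v,
  ∃ z ∈ w.support, z ∈ X ∨ z ∈ Y ∨ z ∈ F.S k ∨ z ∈ F.S l

/-- ORN: a walk from `S j` to `S l` meets `S o` or what is between `j` and `l`.
Uses RCS, LKP, ORA -/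
def Stmt_ORN : Prop := ∀ (V : Type) (R : Rot V) (X Y : Set V) (I : Type) (F : Fam R X Y I)
  (o j k l : I), R.P.Connected → R.Planar → o ≠ j → o ≠ k → o ≠ l → j ≠ k → j ≠ l → k ≠ l →
  F.Bef o j k → F.Bef o k l → ∀ u ∈ F.S j, ∀ v ∈ F.S l, ∀ w : R.P.Walk u v,
  ∃ z ∈ w.support, z ∈ X ∨ z ∈ Y ∨ z ∈ F.S o ∨ z ∈ F.S k

/-- OR3: three connections far from each other. Uses ORA, ORT, ORM, ORN -/
def Stmt_OR3 : Prop := ∀ (V : Type) (R : Rot V) (X Y : Set V) (n g : ℕ)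
  (F : Fam R X Y (Fin n)), R.P.Connected → R.Planar → 1 ≤ g → 3 * g + 1 ≤ n →
  ∃ i : Fin 3 → Fin n, Function.Injective i ∧ ∀ p q, p ≠ q → ∀ u ∈ F.S (i p),
    ∀ v ∈ F.S (i q), ∀ w : R.P.Walk u v, (∀ z ∈ w.support, z ∉ X ∧ z ∉ Y) → g ≤ w.length

/-! ### M. Menger -/

/-- MES: Menger's theorem in the form we need (separating sets outside `X` and `Y`, connected
sets outside `X` and `Y`). Uses MEN (of StmtsA), SUB -/
def Stmt_MES : Prop := ∀ (V : Type) (P : SimpleGraph V) (X Y : Set V) (n : ℕ),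
  LocFin P → X.Finite → Y.Finite → Disjoint X Y → (∀ a ∈ X, ∀ b ∈ Y, ¬ P.Adj a b) →
  (∀ T : Finset V, T.card < n → (∀ t ∈ T, t ∉ X ∧ t ∉ Y) →
    ∃ u ∈ X, ∃ v ∈ Y, ∃ w : P.Walk u v, ∀ z ∈ w.support, z ∉ T) →
  ∃ S : Fin n → Set V, (∀ i, Cn P (S i) ∧ (S i).Finite ∧ Disjoint X (S i) ∧
      Disjoint Y (S i) ∧ (∃ a ∈ X, ∃ b ∈ S i, P.Adj a b) ∧ ∃ a ∈ Y, ∃ b ∈ S i, P.Adj b a) ∧
    ∀ i j, i ≠ j → Disjoint (S i) (S j)

/-- LNF: disjoint connections in a spanner between sets which are not separated by small cuts.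
Uses MES -/
def Stmt_LNF : Prop := ∀ (f : ℕ → ℕ) (lam n : ℕ), ∃ k : ℕ, ∀ (V : Type)
  (X P : SimpleGraph V) (S T : Set V), X.Connected → BG X f → Spanner X P lam → S.Finite →
  T.Finite → S.Nonempty → T.Nonempty → NoSep X k S T →
  (∀ u ∈ nbd P S lam, ∀ v ∈ nbd P T lam, u ≠ v ∧ ¬ P.Adj u v) →
  ∃ M : Fin n → Set V, (∀ i, Cn P (M i) ∧ (M i).Finite ∧ Disjoint (nbd P S lam) (M i) ∧
      Disjoint (nbd P T lam) (M i) ∧ (∃ a ∈ nbd P S lam, ∃ b ∈ M i, P.Adj a b) ∧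
      ∃ a ∈ nbd P T lam, ∃ b ∈ M i, P.Adj b a) ∧
    ∀ i j, i ≠ j → Disjoint (M i) (M j)

/-! ### P, Q. The overlap lemma -/

/-- HUL: neighbourhoods of coarsely connected sets are connected. -/
def Stmt_HUL : Prop := ∀ (V : Type) (X P : SimpleGraph V) (lam r : ℕ) (S : Set V),
  Spanner X P lam → lam ≤ r → Cn X S → Cn P (nbd P S r)

/-- SUB: sub-walk between two sets. -/
def Stmt_SUB : Prop := ∀ (V : Type) (P : SimpleGraph V) (A B : Set V) (u v : V)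
  (w : P.Walk u v), u ∈ A → v ∈ B → Disjoint A B → (∀ a ∈ A, ∀ b ∈ B, ¬ P.Adj a b) →
  ∃ (u' v' : V) (w' : P.Walk u' v'), (∀ z ∈ w'.support, z ∈ w.support ∧ z ∉ A ∧ z ∉ B) ∧
    (∃ a ∈ A, P.Adj a u') ∧ ∃ b ∈ B, P.Adj v' b

/-- TAI: final part of a walk after the last visit of `A`. -/
def Stmt_TAI : Prop := ∀ (V : Type) (P : SimpleGraph V) (A : Set V) (u v : V) (w : P.Walk u v),
  u ∈ A → v ∉ A → ∃ (u' : V) (w' : P.Walk u' v),
    (∀ z ∈ w'.support, z ∈ w.support ∧ z ∉ A) ∧ ∃ a ∈ A, P.Adj a u'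

/-- The configuration produced by the first half of the overlap lemma. -/
structure Frame {V : Type} (X P : SimpleGraph V) (lam G : ℕ) (S T : Set V) where
  Xp : Set V
  Yp : Set V
  M : Fin 3 → Set V
  hS : S ⊆ Xp
  hT : T ⊆ Yp
  cX : Cn P Xp
  cY : Cn P Yp
  cM : ∀ i, Cn P (M i)
  ha : ∀ i, ∀ m ∈ M i, ∀ v, v ∈ Xp ∨ v ∈ Yp → 2 * lam < X.dist m v
  hbX : ∀ i, ∃ m ∈ M i, ∃ v ∈ Xp, X.dist m v ≤ 2 * lam ^ 2 + 1
  hbY : ∀ i, ∃ m ∈ M i, ∃ v ∈ Yp, X.dist m v ≤ 2 * lam ^ 2 + 1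
  hc : ∀ i j, i ≠ j → ∀ m ∈ M i, ∀ m' ∈ M j, G < X.dist m m'
  hd : ∀ v ∈ Xp, ∀ v' ∈ Yp, G < X.dist v v'
  he : ∀ i, ∃ u ∈ M (i + 1), ∃ v ∈ M (i + 2), ∃ w : P.Walk u v, ∀ z ∈ w.support,
    (∀ y, y ∈ Xp ∨ y ∈ Yp → G < X.dist y z) ∧ ∀ m ∈ M i, G < X.dist z m

/-- PTR: truncation of the connections. Uses SUB -/
def Stmt_PTR : Prop := ∀ (V : Type) (P : SimpleGraph V) (S T M : Set V) (lam r : ℕ),
  P.Connected → lam ≤ r → Cn P M → (∃ a ∈ nbd P S lam, ∃ b ∈ M, P.Adj a b) →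
  (∃ a ∈ nbd P T lam, ∃ b ∈ M, P.Adj b a) →
  (∀ u ∈ nbd P S r, ∀ v ∈ nbd P T r, u ≠ v ∧ ¬ P.Adj u v) →
  ∃ M' : Set V, M' ⊆ M ∧ Cn P M' ∧ M'.Finite ∧ Disjoint (nbd P S r) M' ∧
    Disjoint (nbd P T r) M' ∧ (∃ a ∈ nbd P S r, ∃ b ∈ M', P.Adj a b) ∧
    ∃ a ∈ nbd P T r, ∃ b ∈ M', P.Adj b a

/-- PST: first half of the overlap lemma. Uses RCS, LKE, LKP, KSA, OR3, LNF, HUL, PTR -/
def Stmt_PST : Prop := ∀ (f : ℕ → ℕ) (lam G : ℕ), 1 ≤ lam → ∃ k c0 : ℕ, ∀ (V : Type)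
  (X : SimpleGraph V) (R : Rot V) (S T : Set V) (j : V → V → ZMod 2), X.Connected →
  (∃ x y, X.Adj x y) → BG X f →
  Spanner X R.P lam → R.Planar → S.Finite → T.Finite → Cn X S → Cn X T → NoSep X k S T →
  R.Col j → (∀ x ∈ S, ∀ y, R.P.Adj x y → j x y = 1) →
  (∀ x ∈ T, ∀ y, R.P.Adj x y → j x y = 0) →
  (∀ p ∈ R.bset j, ∀ s, s ∈ S ∨ s ∈ T → c0 < X.dist s p.1) →
  Nonempty (Frame X R.P lam G S T)

/-- QPU: pushing a walk to another spanner. -/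
def Stmt_QPU : Prop := ∀ (V : Type) (X Q : SimpleGraph V) (lam : ℕ) (u v : V)
  (w : X.Walk u v), Spanner X Q lam → ∃ w' : Q.Walk u v,
  w'.length ≤ lam * w.length ∧ ∀ z ∈ w'.support, ∃ y ∈ w.support, X.dist y z ≤ lam

/-- QST: second half of the overlap lemma. Uses KNC, HUL, TAI, QPU -/
def Stmt_QST : Prop := ∀ (V : Type) (X P : SimpleGraph V) (Q : Rot V) (lam G : ℕ)
  (S T : Set V), X.Connected → 1 ≤ lam → P ≤ X → Spanner X Q.P lam → Q.Planar →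
  6 * lam ^ 3 + 8 * lam < G → Frame X P lam G S T →
  ∀ a b : V × V, Q.P.Adj a.1 a.2 → Q.P.Adj b.1 b.2 → a.1 ∈ S → b.1 ∈ T → ¬ Q.Eqv a b

/-- COF: cofaciality is canonical up to bounded distance. Uses RSP, PST, QST -/
def Stmt_COF : Prop := ∀ (f : ℕ → ℕ) (lam : ℕ), 1 ≤ lam → ∃ k c0 : ℕ, ∀ (V : Type)
  (X : SimpleGraph V) (R Q : Rot V) (S T : Set V), X.Connected → BG X f →
  Spanner X R.P lam → R.Planar → Spanner X Q.P lam → Q.Planar → S.Finite → T.Finite →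
  Cn X S → Cn X T → NoSep X k S T →
  (∃ a b : V × V, Q.P.Adj a.1 a.2 ∧ Q.P.Adj b.1 b.2 ∧ a.1 ∈ S ∧ b.1 ∈ T ∧ Q.Eqv a b) →
  ∃ a b : V × V, R.P.Adj a.1 a.2 ∧ R.P.Adj b.1 b.2 ∧ a.1 ∈ nbd X S c0 ∧
    b.1 ∈ nbd X T c0 ∧ R.Eqv a b

/-! ### C. Canonical large faces -/

/-- SPL: a finite cut which consists of pieces far from each other: each piece is a cut.
Uses BDD -/
def Stmt_SPL : Prop := ∀ (V : Type) (X : SimpleGraph V) (G : Subgroup (Equiv.Perm V)),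
  X.Connected → IsAut X G → EdgeFin X G → ∀ m : ℕ, ∃ C : ℕ, ∀ (n : ℕ) (A : Set V)
  (D : Fin n → Set (Sym2 V)), (bd X A).Finite → (bd X A).ncard ≤ m → (bd X A = ⋃ i, D i) →
  (∀ i j, i ≠ j → ∀ e ∈ D i, ∀ e' ∈ D j, ∀ x ∈ e, ∀ y ∈ e', C < X.dist x y) →
  ∀ i, ∃ B : Set V, bd X B = D i

/-- PDL: a finite list of edges of a spanner which is orthogonal to all boundaries of colourings
is (mod 2) the coboundary of a function which also has a small coboundary in `X`. Uses RPO -/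
def Stmt_PDL : Prop := ∀ (V : Type) (X : SimpleGraph V) (R : Rot V) (lam : ℕ)
  (l : List (V × V)), Spanner X R.P lam → R.Planar → (∀ p ∈ l, R.P.Adj p.1 p.2) →
  (∀ c, R.Col c → (l.map (fun p => c p.1 p.2 + c p.2 p.1)).sum = 0) →
  ∃ h : V → ZMod 2,
    (∀ x y, R.P.Adj x y → h x + h y = par (l.map (fun p => s(p.1, p.2))) x y) ∧
    ∀ x y, X.Adj x y → h x ≠ h y → ∃ p ∈ l, X.dist p.1 x ≤ lam ∧ X.dist p.1 y ≤ lam

/-- PCO: conversely, a list which is a coboundary mod 2 is orthogonal to all boundaries.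
Uses RBE -/
def Stmt_PCO : Prop := ∀ (V : Type) (R : Rot V) (l : List (V × V)) (h : V → ZMod 2)
  (c : V → V → ZMod 2), R.Col c → (∀ p ∈ l, R.P.Adj p.1 p.2) →
  (∀ x y, R.P.Adj x y → h x + h y = par (l.map (fun p => s(p.1, p.2))) x y) →
  (l.map (fun p => c p.1 p.2 + c p.2 p.1)).sum = 0

/-- POL: classes forming a polygon with far vertices are equal. Uses RDP, PDL, PCO, SPL, EFV -/
def Stmt_POL : Prop := ∀ (V : Type) (X : SimpleGraph V) (G : Subgroup (Equiv.Perm V))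
  (f : ℕ → ℕ) (lam : ℕ), 1 ≤ lam → X.Connected → LocFin X → IsAut X G → VertFin G → BG X f →
  ∀ (n : ℕ) [NeZero n] (ρ : ℕ), ∃ C : ℕ, ∀ (R : Rot V), Spanner X R.P lam → R.Planar →
  ∀ (x : Fin n → V) (a b : Fin n → V × V), (∀ i j, i ≠ j → C < X.dist (x i) (x j)) →
  (∀ i, R.P.Adj (a i).1 (a i).2 ∧ R.P.Adj (b i).1 (b i).2 ∧ X.dist (x i) (a i).1 ≤ ρ ∧
    X.dist (x (i + 1)) (b i).1 ≤ ρ ∧ R.Eqv (a i) (b i)) →
  ∀ i, R.Eqv (a i) (a (i + 1))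

/-- The class of `b` comes within `ρ` of `x`. -/
def Near {V : Type} (X : SimpleGraph V) (R : Rot V) (ρ : ℕ) (b : V × V) (x : V) : Prop :=
  ∃ y, X.dist x y ≤ ρ ∧ R.Touch b y

/-- The planar spanners. -/
def PSp {V : Type} (X : SimpleGraph V) (lam : ℕ) : Set (Rot V) :=
  {R | Spanner X R.P lam ∧ R.Planar}

/-- The triples defining large faces. -/
def Trip {V : Type} (X : SimpleGraph V) (lam : ℕ) (Z : Set V) (ρ C : ℕ) : Set (Fin 3 → V) :=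
  {t | (∀ i, t i ∈ Z) ∧ (∀ i j, i ≠ j → C < X.dist (t i) (t j)) ∧
    ∀ i j, i ≠ j → ∃ Q ∈ PSp X lam, ∃ b : V × V, Q.P.Adj b.1 b.2 ∧ Near X Q ρ b (t i) ∧
      Near X Q ρ b (t j)}

/-- CFT: every planar spanner has a class near a triple, unique at the larger radius; common
classes in one spanner are common classes in every other spanner. Uses COF, POL -/
def Stmt_CFT : Prop := ∀ (V : Type) (X : SimpleGraph V) (G : Subgroup (Equiv.Perm V))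
  (f : ℕ → ℕ) (lam : ℕ), 1 ≤ lam → X.Connected → LocFin X → IsAut X G → VertFin G → BG X f →
  ∃ k : ℕ, ∀ ρ2 : ℕ, ∃ ρ3 ρ4 : ℕ, ρ2 ≤ ρ3 ∧ ρ3 ≤ ρ4 ∧ ∀ C0 : ℕ, ∃ C : ℕ, C0 ≤ C ∧
  ∀ (Z : Set V), (∀ x ∈ Z, ∀ y ∈ Z, NoSep X k (ball X x ρ2) (ball X y ρ2)) →
  (∀ t ∈ Trip X lam Z ρ2 C, ∀ R ∈ PSp X lam,
    (∃ b : V × V, R.P.Adj b.1 b.2 ∧ ∀ i, Near X R ρ3 b (t i)) ∧
    (∀ b b' : V × V, R.P.Adj b.1 b.2 → R.P.Adj b'.1 b'.2 →
      (∃ i j, i ≠ j ∧ Near X R ρ4 b (t i) ∧ Near X R ρ4 b (t j)) →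
      (∃ i j, i ≠ j ∧ Near X R ρ4 b' (t i) ∧ Near X R ρ4 b' (t j)) → R.Eqv b b') ∧
    (∀ Q ∈ PSp X lam, ∀ b b' : V × V, R.P.Adj b.1 b.2 → Q.P.Adj b'.1 b'.2 →
      (∀ i, Near X R ρ3 b (t i)) → (∀ i, Near X Q ρ3 b' (t i)) → ∀ x ∈ Z,
      Near X R ρ3 b x → Near X Q ρ4 b' x))

/-- CFM: the canonical family of large faces. Uses RMP, CFT -/
def Stmt_CFM : Prop := ∀ (V : Type) (X : SimpleGraph V) (G : Subgroup (Equiv.Perm V))
  (f : ℕ → ℕ) (lam : ℕ), 1 ≤ lam → X.Connected → LocFin X → IsAut X G → VertFin G → BG X f →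
  ∃ k : ℕ, ∀ ρ2 : ℕ, ∃ ρ : ℕ, ∀ C0 : ℕ, ∃ C : ℕ, ∀ (Z : Set V)
  (H : Subgroup (Equiv.Perm V)) (R : Rot V), IsAut X H → (∀ g ∈ H, ∀ x ∈ Z, g x ∈ Z) →
  (∀ x ∈ Z, ∀ y ∈ Z, NoSep X k (ball X x ρ2) (ball X y ρ2)) → R ∈ PSp X lam →
  ∃ (F : Set (Set V)) (a : Set V → V × V),
    (∀ S ∈ F, S ⊆ Z) ∧ (∀ g ∈ H, ∀ S ∈ F, g '' S ∈ F) ∧
    (∀ S ∈ F, R.P.Adj (a S).1 (a S).2) ∧
    (∀ S ∈ F, ∀ S' ∈ F, R.Eqv (a S) (a S') → S = S') ∧
    (∀ S ∈ F, ∀ x ∈ S, Near X R ρ (a S) x) ∧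
    (∀ S ∈ F, ∃ x ∈ S, ∃ y ∈ S, C0 < X.dist x y) ∧
    (∀ S ∈ F, ∀ x ∈ Z, R.Touch (a S) x → x ∈ S) ∧
    ∀ b : V × V, R.P.Adj b.1 b.2 → (∃ S ∈ F, R.Eqv (a S) b) ∨
      ∀ x ∈ Z, ∀ y ∈ Z, ∀ z ∈ Z, R.Touch b x → R.Touch b y → R.Touch b z →
        X.dist x y ≤ C ∨ X.dist y z ≤ C ∨ X.dist x z ≤ C

/-! ### S. Stokes on quotients -/

/-- The vertices with a neighbour in another fibre. -/
def Zp {V U : Type} (X : SimpleGraph V) (p : V → U) : Set V := {x | ∃ y, X.Adj x y ∧ p x ≠ p y}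

/-- CFZ: a class which comes near a boundary point of a fibre and is not contained in the fibre
touches a boundary point nearby. Uses RMC -/
def Stmt_CFZ : Prop := ∀ (V U : Type) (X : SimpleGraph V) (R : Rot V) (lam : ℕ) (p : V → U)
  (c ρ : ℕ), X.Connected → Spanner X R.P lam → (∀ u, (bd X (p ⁻¹' {u})).Finite) →
  (∀ x ∈ Zp X p, ∀ y ∈ Zp X p, p x = p y → X.dist x y ≤ c) →
  ∀ (a : V × V) (x y y1 : V), R.P.Adj a.1 a.2 → x ∈ Zp X p → X.dist x y ≤ ρ → R.Touch a y →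
  R.Touch a y1 → p y1 ≠ p y → ∃ z ∈ Zp X p, R.Touch a z ∧ X.dist x z ≤ ρ + c

/-- PCL: the quotient graph is connected and locally finite. -/
def Stmt_PCL : Prop := ∀ (V U : Type) (X : SimpleGraph V) (p : V → U), X.Connected →
  Function.Surjective p → (∀ u, (bd X (p ⁻¹' {u})).Finite) →
  (push X p).Connected ∧ LocFin (push X p) ∧ ∀ x y, (push X p).dist (p x) (p y) ≤ X.dist x y

/-- LAZ: projection of walks. -/
def Stmt_LAZ : Prop := ∀ (V U : Type) (X : SimpleGraph V) (p : V → U) (d : U → U → ZMod 2)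
  (x y : V) (w : X.Walk x y), (∀ u, d u u = 0) → ∃ w' : (push X p).Walk (p x) (p y),
  w'.length ≤ w.length ∧ wsum d w' = wsum (fun s t => d (p s) (p t)) w

/-- POT: potentials on two balls. -/
def Stmt_POT : Prop := ∀ (U : Type) (Y : SimpleGraph U) (d : U → U → ZMod 2) (c : ℕ)
  (y1 y2 : U), Y.Connected → LocFin Y → (∀ u v, d u v = d v u) →
  (∀ (u : U) (w : Y.Walk u u), w.length ≤ 6 * c + 5 → wsum d w = 0) →
  ∃ k : U → ZMod 2, {u | k u ≠ 0}.Finite ∧ ∀ u v, Y.Adj u v →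
    (Y.dist y1 u ≤ c ∨ Y.dist y2 u ≤ c) → (Y.dist y1 v ≤ c ∨ Y.dist y2 v ≤ c) →
    d u v = k u + k v

/-- STK: Stokes for a quotient with potentials on all classes but one. Uses RPO, RST, LAZ -/
def Stmt_STK : Prop := ∀ (V U : Type) (X : SimpleGraph V) (R : Rot V) (lam r : ℕ) (p : V → U)
  (d : U → U → ZMod 2) (E0 : Set (V × V)), X.Connected → LocFin X → Spanner X R.P lam →
  R.Planar → Function.Surjective p → lam + 1 ≤ r → (∀ u v, d u v = d v u) →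
  (∀ u, d u u = 0) → {q : U × U | d q.1 q.2 ≠ 0}.Finite →
  (∀ u, (bd X (p ⁻¹' {u})).Finite) →
  (∀ (u : U) (w : (push X p).Walk u u), w.length ≤ r → wsum d w = 0) →
  (∀ x y, p x = p y → Relation.ReflTransGen (fun a b => p a = p b ∧ X.dist a b ≤ r) x y) →
  (∀ a ∈ E0, ∀ b ∈ E0, R.Eqv a b) →
  (∀ a : V × V, R.P.Adj a.1 a.2 → (∀ b ∈ E0, ¬ R.Eqv a b) → ∃ k : U → ZMod 2,
    {u | k u ≠ 0}.Finite ∧ ∀ b : V × V, R.P.Adj b.1 b.2 → R.Eqv a b → p b.1 ≠ p b.2 →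
      d (p b.1) (p b.2) = k (p b.1) + k (p b.2)) →
  ∃ h : U → ZMod 2, ∀ u v, (push X p).Adj u v → d u v = h u + h v

/-- The closed walks of length at most `r`, as lists of edges. -/
def CWr {U : Type} (Y : SimpleGraph U) (r : ℕ) : Set (List (Sym2 U)) :=
  {l | ∃ (u : U) (w : Y.Walk u u), w.length ≤ r ∧ l = w.edges}

/-- The class of `b` is contained in two balls, as seen in the quotient. -/
def Bd2 {V U : Type} (X : SimpleGraph V) (R : Rot V) (p : V → U) (c : ℕ) (a : V × V) : Prop :=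
  ∃ y1 y2 : U, ∀ b : V × V, R.P.Adj b.1 b.2 → R.Eqv a b → p b.1 ≠ p b.2 →
    ((push X p).dist y1 (p b.1) ≤ c ∨ (push X p).dist y2 (p b.1) ≤ c) ∧
    ((push X p).dist y1 (p b.2) ≤ c ∨ (push X p).dist y2 (p b.2) ≤ c)

/-- STC: all finite cocycles of bounded cycles of the quotient are cuts if all classes but one
are bounded. Uses PCL, POT, STK -/
def Stmt_STC : Prop := ∀ (V U : Type) (X : SimpleGraph V) (R : Rot V) (lam r c : ℕ)
  (p : V → U) (E0 : Set (V × V)), X.Connected → LocFin X → Spanner X R.P lam → R.Planar →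
  Function.Surjective p → lam + 1 ≤ r → 6 * c + 5 ≤ r → (∀ u, (bd X (p ⁻¹' {u})).Finite) →
  (∀ x y, p x = p y → Relation.ReflTransGen (fun a b => p a = p b ∧ X.dist a b ≤ r) x y) →
  (∀ a ∈ E0, ∀ b ∈ E0, R.Eqv a b) →
  (∀ a : V × V, R.P.Adj a.1 a.2 → (∀ b ∈ E0, ¬ R.Eqv a b) → Bd2 X R p c a) →
  CoCut (push X p) (CWr (push X p) r)

/-- Add a vertex joined to every member of `F`. -/
def cone {U : Type} (Y : SimpleGraph U) (F : Set (Set U)) : SimpleGraph (U ⊕ F) where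
  Adj a b := (∃ u v, a = Sum.inl u ∧ b = Sum.inl v ∧ Y.Adj u v) ∨
    (∃ (u : U) (S : F), a = Sum.inl u ∧ b = Sum.inr S ∧ u ∈ (S : Set U)) ∨
    (∃ (u : U) (S : F), a = Sum.inr S ∧ b = Sum.inl u ∧ u ∈ (S : Set U))
  symm := by
    constructor
    rintro a b (⟨u, v, rfl, rfl, h⟩ | ⟨u, S, rfl, rfl, h⟩ | ⟨u, S, rfl, rfl, h⟩)
    · exact Or.inl ⟨v, u, rfl, rfl, h.symm⟩
    · exact Or.inr (Or.inr ⟨u, S, rfl, rfl, h⟩)
    · exact Or.inr (Or.inl ⟨u, S, rfl, rfl, h⟩)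
  loopless := by
    constructor
    rintro a (⟨u, v, rfl, h, h'⟩ | ⟨u, S, rfl, h, -⟩ | ⟨u, S, rfl, h, -⟩)
    · exact h'.ne (Sum.inl_injective h)
    · cases h
    · cases h

/-- The short closed walks of the cone graph. -/
def coneW {U : Type} (Y : SimpleGraph U) (F : Set (Set U)) (r : ℕ) :
    Set (List (Sym2 (U ⊕ F))) :=
  {l | ∃ (u : U) (w : Y.Walk u u), w.length ≤ r ∧ l = w.edges.map (Sym2.map Sum.inl)} ∪
  {l | ∃ (S : F) (u v : U) (w : Y.Walk u v), u ∈ (S : Set U) ∧ v ∈ (S : Set U) ∧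
    w.length ≤ r ∧ l = s(Sum.inr S, Sum.inl u) :: (w.edges.map (Sym2.map Sum.inl) ++
      [s(Sum.inl v, Sum.inr S)])}

/-- ST1: Stage 1, all finite cocycles of the coned quotient are cuts.
Uses RMC, PCL, POT, STK -/
def Stmt_ST1 : Prop := ∀ (V U : Type) (X : SimpleGraph V) (R : Rot V) (lam r c : ℕ)
  (p : V → U) (F : Set (Set U)) (a : Set U → V × V), X.Connected → LocFin X →
  Spanner X R.P lam → R.Planar → Function.Surjective p → lam + 1 ≤ r → 6 * c + 5 ≤ r →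
  (∀ u, (bd X (p ⁻¹' {u})).Finite) →
  (∀ x y, p x = p y → Relation.ReflTransGen (fun a b => p a = p b ∧ X.dist a b ≤ r) x y) →
  (∀ S ∈ F, R.P.Adj (a S).1 (a S).2) →
  (∀ S ∈ F, ∀ u ∈ S, ∃ z, R.Touch (a S) z ∧ p z ∈ S ∧
    ∃ w : (push X p).Walk u (p z), w.length ≤ r) →
  (∀ S ∈ F, ∀ x ∈ Zp X p, R.Touch (a S) x → p x ∈ S) →
  (∀ b : V × V, R.P.Adj b.1 b.2 → (∃ S ∈ F, R.Eqv (a S) b) ∨ Bd2 X R p c b) →
  CoCut (cone (push X p) F) (coneW (push X p) F r)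

/-- SCT: two coned faces are separated by a finite cut of the coned quotient. -/
def Stmt_SCT : Prop := ∀ (V U : Type) (X : SimpleGraph V) (R : Rot V) (lam r c : ℕ)
  (p : V → U) (F : Set (Set U)) (a : Set U → V × V), X.Connected → LocFin X →
  Spanner X R.P lam → R.Planar → Function.Surjective p → (∀ u, (bd X (p ⁻¹' {u})).Finite) →
  (∀ x ∈ Zp X p, ∀ y ∈ Zp X p, p x = p y → X.dist x y ≤ c) →
  (∀ u, {S | S ∈ F ∧ u ∈ S}.Finite) → (∀ S ∈ F, R.P.Adj (a S).1 (a S).2) →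
  (∀ S ∈ F, ∀ u ∈ S, ∃ z ∈ Zp X p, R.Touch (a S) z ∧ ∃ x ∈ Zp X p, p x = u ∧ X.dist x z ≤ r) →
  ∀ S T : F, ¬ R.Eqv (a S) (a T) → ∃ A : Set (U ⊕ F),
    (bd (cone (push X p) F) A).Finite ∧ Sum.inr S ∈ A ∧ Sum.inr T ∉ A

end Pool.Agent.ACC
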