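import Pool.Agent.ACC.StmtsB

/-!
MP_851278_al (frozen S02151), PART III (Theorem A), second half: statements of the modules.
Two-stage decomposition: `Dat` collects the data of a torso `push X p` with its canonical large
faces `F`; LV0 produces it, LV1 applies the criterion to the cone graph, LV2 shows that
`push X p` is accessible, THA is Theorem A.
Recipes: /team-store/MP_851278_ACD.md
-/

set_option autoImplicit false

namespace Pool.Agent.ACC

/-- The action on the cone graph. -/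
def coneG {U : Type} (K : Subgroup (Equiv.Perm U)) (F : Set (Set U)) :
    Subgroup (Equiv.Perm (U ⊕ F)) where
  carrier := {s | ∃ g ∈ K, (∀ u, s (Sum.inl u) = Sum.inl (g u)) ∧
    ∀ S : F, ∃ T : F, s (Sum.inr S) = Sum.inr T ∧ (T : Set U) = g '' (S : Set U)}
  mul_mem' := by
    rintro s t ⟨g, hg, h1, h2⟩ ⟨g', hg', h1', h2'⟩
    refine ⟨g * g', K.mul_mem hg hg', fun u => ?_, fun S => ?_⟩
    · rw [Equiv.Perm.mul_apply, h1', h1, Equiv.Perm.mul_apply]
    · obtain ⟨T, hT, hT'⟩ := h2' S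
      obtain ⟨T2, hT2, hT2'⟩ := h2 T
      refine ⟨T2, ?_, ?_⟩
      · rw [Equiv.Perm.mul_apply, hT, hT2]
      · rw [hT2', hT', ← Set.image_comp]
        rfl
  one_mem' := ⟨1, K.one_mem, fun u => rfl, fun S => ⟨S, rfl, by simp⟩⟩
  inv_mem' := by
    rintro s ⟨g, hg, h1, h2⟩
    refine ⟨g⁻¹, K.inv_mem hg, fun u => ?_, fun T => ?_⟩
    · rw [Equiv.Perm.inv_eq_iff_eq, h1]
      simp
    · obtain ⟨x, hx⟩ := s.surjective (Sum.inr T)
      rcases x with u | S
      · rw [h1] at hx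
        cases hx
      · obtain ⟨T', hT', hT2⟩ := h2 S
        rw [hx] at hT'
        have h3 : T = T' := Sum.inr_injective hT'
        refine ⟨S, ?_, ?_⟩
        · rw [Equiv.Perm.inv_eq_iff_eq, hx]
        · rw [h3, hT2, ← Set.image_comp]
          have : ((g⁻¹ : Equiv.Perm U) : U → U) ∘ (g : U → U) = id := by
            ext x; simp
          rw [this, Set.image_id]

/-- The traces on `U` of the members of a family of sets of the cone graph. -/
def pb {U : Type} {F : Set (Set U)} (E : Set (Set (U ⊕ F))) : Set (Set U) :=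
  {A | ∃ B ∈ E, A = Sum.inl ⁻¹' B ∧ A.Nonempty ∧ Aᶜ.Nonempty}

/-- The data of the second stage. -/
structure Dat {V U : Type} (X : SimpleGraph V) (R : Rot V) (lam : ℕ) (p : V → U)
    (K : Subgroup (Equiv.Perm U)) (F : Set (Set U)) (a : Set U → V × V) (c : ℕ) : Prop where
  con : X.Connected
  lf : LocFin X
  sp : Spanner X R.P lam
  pl : R.Planar
  sur : Function.Surjective p
  fb : ∀ u, (bd X (p ⁻¹' {u})).Finite
  fc : ∀ x y, p x = p y → ∃ w : X.Walk x y, ∀ z ∈ w.support, p z = p x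
  zd : ∀ x ∈ Zp X p, ∀ y ∈ Zp X p, p x = p y → X.dist x y ≤ c
  aut : IsAut (push X p) K
  vf : VertFin K
  inv : ∀ g ∈ K, ∀ S ∈ F, g '' S ∈ F
  ne : ∀ S ∈ F, S.Nonempty
  adj : ∀ S ∈ F, R.P.Adj (a S).1 (a S).2
  inj : ∀ S ∈ F, ∀ T ∈ F, R.Eqv (a S) (a T) → S = T
  near : ∀ S ∈ F, ∀ u ∈ S, ∃ z ∈ Zp X p, R.Touch (a S) z ∧
    ∃ x ∈ Zp X p, p x = u ∧ X.dist x z ≤ c
  touch : ∀ S ∈ F, ∀ x ∈ Zp X p, R.Touch (a S) x → p x ∈ S
  bdd : ∀ b : V × V, R.P.Adj b.1 b.2 → (∃ S ∈ F, R.Eqv (a S) b) ∨ Bd2 X R p c b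

/-! ### General facts on cone graphs and quotients -/

/-- PPP: push of a push. -/
def Stmt_PPP : Prop := ∀ (V U W : Type) (X : SimpleGraph V) (p : V → U) (q : U → W),
  push (push X p) q = push X (q ∘ p)

/-- PFB: preimages of finite cuts of the quotient are finite cuts. -/
def Stmt_PFB : Prop := ∀ (V U : Type) (X : SimpleGraph V) (p : V → U),
  (∀ u, (bd X (p ⁻¹' {u})).Finite) → ∀ A : Set U, (bd (push X p) A).Finite →
  (bd X (p ⁻¹' A)).Finite

/-- LFW: short closed walks are finite in number modulo the group. -/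
def Stmt_LFW : Prop := ∀ (U : Type) (Y : SimpleGraph U) (K : Subgroup (Equiv.Perm U)) (r : ℕ),
  LocFin Y → IsAut Y K → VertFin K → (∀ l ∈ CWr Y r, IsCW Y l) ∧ ListFin K (CWr Y r)

/-- CNC: the cone graph is connected. -/
def Stmt_CNC : Prop := ∀ (U : Type) (Y : SimpleGraph U) (F : Set (Set U)), Y.Connected →
  (∀ S ∈ F, S.Nonempty) → (cone Y F).Connected

/-- CNA: the group acts on the cone graph. -/
def Stmt_CNA : Prop := ∀ (U : Type) (Y : SimpleGraph U) (K : Subgroup (Equiv.Perm U))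
  (F : Set (Set U)), IsAut Y K → (∀ g ∈ K, ∀ S ∈ F, g '' S ∈ F) →
  IsAut (cone Y F) (coneG K F) ∧ ∀ g ∈ K, ∃ s ∈ coneG K F,
    (∀ u, s (Sum.inl u) = Sum.inl (g u)) ∧
    ∀ S : F, ∃ T : F, s (Sum.inr S) = Sum.inr T ∧ (T : Set U) = g '' (S : Set U)

/-- CNE: finitely many orbits of edges of the cone graph. Uses CNA -/
def Stmt_CNE : Prop := ∀ (U : Type) (Y : SimpleGraph U) (K : Subgroup (Equiv.Perm U))
  (F : Set (Set U)), IsAut Y K → EdgeFin Y K → VertFin K →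
  (∀ g ∈ K, ∀ S ∈ F, g '' S ∈ F) → (∀ u, {S | S ∈ F ∧ u ∈ S}.Finite) →
  EdgeFin (cone Y F) (coneG K F)

/-- CNW: the short closed walks of the cone graph. Uses CNA -/
def Stmt_CNW : Prop := ∀ (U : Type) (Y : SimpleGraph U) (K : Subgroup (Equiv.Perm U))
  (F : Set (Set U)) (r : ℕ), IsAut Y K → LocFin Y → VertFin K →
  (∀ g ∈ K, ∀ S ∈ F, g '' S ∈ F) → (∀ u, {S | S ∈ F ∧ u ∈ S}.Finite) →
  (∀ l ∈ coneW Y F r, IsCW (cone Y F) l) ∧ ListFin (coneG K F) (coneW Y F r)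

/-! ### Consequences of the data -/

/-- ZDI: distances of boundary points of fibres. -/
def Stmt_ZDI : Prop := ∀ (V U : Type) (X : SimpleGraph V) (p : V → U) (c : ℕ), X.Connected →
  (push X p).Connected → (∀ x ∈ Zp X p, ∀ y ∈ Zp X p, p x = p y → X.dist x y ≤ c) →
  ∀ x ∈ Zp X p, ∀ y ∈ Zp X p, X.dist x y ≤ (c + 1) * (push X p).dist (p x) (p y) + c

/-- FLF: every vertex of the quotient is in finitely many large faces. -/
def Stmt_FLF : Prop := ∀ (V U : Type) (X : SimpleGraph V) (R : Rot V) (lam : ℕ) (p : V → U)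
  (K : Subgroup (Equiv.Perm U)) (F : Set (Set U)) (a : Set U → V × V) (c : ℕ),
  Dat X R lam p K F a c → ∀ u, {S | S ∈ F ∧ u ∈ S}.Finite

/-- LV1: the cone graph is accessible: its finite cuts are generated by a canonical nested
family. Uses EFV, CRT (StmtsA), PCL, ST1, FLF, CNC, CNA, CNE, CNW -/
def Stmt_LV1 : Prop := ∀ (V U : Type) (X : SimpleGraph V) (R : Rot V) (lam : ℕ) (p : V → U)
  (K : Subgroup (Equiv.Perm U)) (F : Set (Set U)) (a : Set U → V × V) (c : ℕ),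
  Dat X R lam p K F a c → ∃ N : ℕ, ∀ A : Set (U ⊕ F), (bd (cone (push X p) F) A).Finite →
  Gen (EE (cone (push X p) F) N) A

/-- SPA: a finite cut of the quotient splits only finitely many large faces.
Uses RMC, PCL, FLF, PFB -/
def Stmt_SPA : Prop := ∀ (V U : Type) (X : SimpleGraph V) (R : Rot V) (lam : ℕ) (p : V → U)
  (K : Subgroup (Equiv.Perm U)) (F : Set (Set U)) (a : Set U → V × V) (c : ℕ),
  Dat X R lam p K F a c → ∀ A : Set U, (bd (push X p) A).Finite →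
  {S | S ∈ F ∧ (S ∩ A).Nonempty ∧ (S ∩ Aᶜ).Nonempty}.Finite

/-- CRE: the traces of the members of the canonical family of the cone graph form a nested
family of the quotient. Uses EFV, CRF, DDF, NFE (StmtsA), PCL, FLF, CNC, CNA, CNE, SPA -/
def Stmt_CRE : Prop := ∀ (V U : Type) (X : SimpleGraph V) (R : Rot V) (lam : ℕ) (p : V → U)
  (K : Subgroup (Equiv.Perm U)) (F : Set (Set U)) (a : Set U → V × V) (c : ℕ),
  Dat X R lam p K F a c → ∀ N : ℕ,
  NestFam (push X p) K (pb (EE (cone (push X p) F) N)) N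

/-- EBD: boundaries of the members of the canonical family have bounded diameter, seen in the
quotient. Uses EFV, NFE (StmtsA), PCL, FLF, CNC, CNA, CNE -/
def Stmt_EBD : Prop := ∀ (V U : Type) (X : SimpleGraph V) (R : Rot V) (lam : ℕ) (p : V → U)
  (K : Subgroup (Equiv.Perm U)) (F : Set (Set U)) (a : Set U → V × V) (c : ℕ),
  Dat X R lam p K F a c → ∀ N : ℕ, ∃ e : ℕ, ∀ B ∈ EE (cone (push X p) F) N, ∀ u u' : U,
  (∃ s ∈ bd (cone (push X p) F) B, Sum.inl u ∈ s) →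
  (∃ s ∈ bd (cone (push X p) F) B, Sum.inl u' ∈ s) → (push X p).dist u u' ≤ e

/-- FBC: the fibres of the second quotient are coarsely connected.
Uses HUA (StmtsA), PCL, ZDI, CRE, EBD -/
def Stmt_FBC : Prop := ∀ (V U : Type) (X : SimpleGraph V) (R : Rot V) (lam : ℕ) (p : V → U)
  (K : Subgroup (Equiv.Perm U)) (F : Set (Set U)) (a : Set U → V × V) (c : ℕ),
  Dat X R lam p K F a c → ∀ N : ℕ, ∃ r : ℕ, ∀ v : Set (Set U),
  IsVtx (pb (EE (cone (push X p) F) N)) v → ∀ x y : V, tproj v (p x) = tproj v (p y) →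
  Relation.ReflTransGen (fun s t => tproj v (p s) = tproj v (p t) ∧ X.dist s t ≤ r) x y

/-- SFD: finite large faces have bounded diameter. Uses PCL, FLF -/
def Stmt_SFD : Prop := ∀ (V U : Type) (X : SimpleGraph V) (R : Rot V) (lam : ℕ) (p : V → U)
  (K : Subgroup (Equiv.Perm U)) (F : Set (Set U)) (a : Set U → V × V) (c : ℕ),
  Dat X R lam p K F a c → ∃ e : ℕ, ∀ S ∈ F, S.Finite → ∀ u ∈ S, ∀ u' ∈ S,
  (push X p).dist u u' ≤ e

/-- EXC: in the second quotient all classes except the exceptional large face are bounded.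
Uses HUA, DDF (StmtsA), PCL, LAZ, PPP, CNC, CRE, EBD, SFD -/
def Stmt_EXC : Prop := ∀ (V U : Type) (X : SimpleGraph V) (R : Rot V) (lam : ℕ) (p : V → U)
  (K : Subgroup (Equiv.Perm U)) (F : Set (Set U)) (a : Set U → V × V) (c : ℕ),
  Dat X R lam p K F a c → ∀ N : ℕ, ∃ c' : ℕ, ∀ v : Set (Set U),
  IsVtx (pb (EE (cone (push X p) F) N)) v → ∀ b : V × V, R.P.Adj b.1 b.2 →
  (∀ S ∈ F, R.Eqv (a S) b → ¬ (S.Infinite ∧ ∀ A ∈ v, (S \ A).Finite)) →
  Bd2 X R (tproj v ∘ p) c' b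

/-- UNQ: there is at most one exceptional large face. Uses DDF (StmtsA), PCL, SCT, FLF, CNC -/
def Stmt_UNQ : Prop := ∀ (V U : Type) (X : SimpleGraph V) (R : Rot V) (lam : ℕ) (p : V → U)
  (K : Subgroup (Equiv.Perm U)) (F : Set (Set U)) (a : Set U → V × V) (c : ℕ),
  Dat X R lam p K F a c → ∀ N : ℕ, (∀ A : Set (U ⊕ F), (bd (cone (push X p) F) A).Finite →
    Gen (EE (cone (push X p) F) N) A) → ∀ v : Set (Set U),
  IsVtx (pb (EE (cone (push X p) F) N)) v → ∀ S ∈ F, ∀ T ∈ F, S.Infinite → T.Infinite →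
  (∀ A ∈ v, (S \ A).Finite) → (∀ A ∈ v, (T \ A).Finite) → S = T

/-- LV2: the quotient is accessible. Uses EFV, CRT, TOC, TOE, TOG, TOA (StmtsA), PCL, STC, PPP,
PFB, LFW, LV1, CRE, FBC, EXC, UNQ -/
def Stmt_LV2 : Prop := ∀ (V U : Type) (X : SimpleGraph V) (R : Rot V) (lam : ℕ) (p : V → U)
  (K : Subgroup (Equiv.Perm U)) (F : Set (Set U)) (a : Set U → V × V) (c : ℕ),
  Dat X R lam p K F a c → Acc (push X p)

/-! ### The first stage: torsos and canonical large faces -/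

/-- BGX: bounded geometry. -/
def Stmt_BGX : Prop := ∀ (V : Type) (X : SimpleGraph V) (G : Subgroup (Equiv.Perm V)),
  X.Connected → LocFin X → IsAut X G → VertFin G → ∃ f : ℕ → ℕ, BG X f

/-- ZPZ: the trace is the set of boundary points of the fibres. Uses HUA (StmtsA) -/
def Stmt_ZPZ : Prop := ∀ (V : Type) (X : SimpleGraph V) (E v : Set (Set V)), X.Connected →
  (∃ x y, X.Adj x y) → NestSet E → IsVtx E v → Zp X (tproj v) = ZZ X v

/-- ZIN: the trace is invariant under the stabiliser. -/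
def Stmt_ZIN : Prop := ∀ (V : Type) (X : SimpleGraph V) (G : Subgroup (Equiv.Perm V))
  (v : Set (Set V)), IsAut X G → ∀ g ∈ stabV G v, ∀ x ∈ ZZ X v, g x ∈ ZZ X v

/-- FIB: the fibres of the projection to a torso. Uses HUA, BDD, EFV, NFE, DDF (StmtsA) -/
def Stmt_FIB : Prop := ∀ (V : Type) (X : SimpleGraph V) (G : Subgroup (Equiv.Perm V)),
  X.Connected → LocFin X → IsAut X G → VertFin G → ∀ k : ℕ, ∃ c : ℕ, ∀ v,
  IsVtx (EE X k) v → (∀ u : TV v, (bd X (tproj v ⁻¹' {u})).Finite) ∧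
  (∀ x y, tproj v x = tproj v y → ∃ w : X.Walk x y, ∀ z ∈ w.support, tproj v z = tproj v x) ∧
  (∀ x ∈ Zp X (tproj v), ∀ y ∈ Zp X (tproj v), tproj v x = tproj v y → X.dist x y ≤ c)

/-- TWB: a set without three pairwise far points is contained in two balls. -/
def Stmt_TWB : Prop := ∀ (V : Type) (X : SimpleGraph V) (T : Set V) (C : ℕ), Nonempty V →
  (∀ x ∈ T, ∀ y ∈ T, ∀ z ∈ T, X.dist x y ≤ C ∨ X.dist y z ≤ C ∨ X.dist x z ≤ C) →
  ∃ y1 y2 : V, ∀ x ∈ T, X.dist y1 x ≤ C ∨ X.dist y2 x ≤ C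

/-- MLT: a class near two far boundary points is not contained in a fibre. -/
def Stmt_MLT : Prop := ∀ (V U : Type) (X : SimpleGraph V) (R : Rot V) (p : V → U) (c ρ : ℕ),
  X.Connected → (∀ x ∈ Zp X p, ∀ y ∈ Zp X p, p x = p y → X.dist x y ≤ c) →
  ∀ (a : V × V) (x1 x2 : V), x1 ∈ Zp X p → x2 ∈ Zp X p → 2 * ρ + c < X.dist x1 x2 →
  Near X R ρ a x1 → Near X R ρ a x2 → ∀ y, ∃ y1, R.Touch a y1 ∧ p y1 ≠ p y

/-- CIN: large faces are determined by their image in the quotient. Uses POL -/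
def Stmt_CIN : Prop := ∀ (V : Type) (X : SimpleGraph V) (G : Subgroup (Equiv.Perm V))
  (f : ℕ → ℕ) (lam : ℕ), 1 ≤ lam → X.Connected → LocFin X → IsAut X G → VertFin G → BG X f →
  ∀ ρ c : ℕ, ∃ C0 : ℕ, ∀ (U : Type) (p : V → U) (R : Rot V) (S T : Set V) (a b : V × V),
  Spanner X R.P lam → R.Planar → R.P.Adj a.1 a.2 → R.P.Adj b.1 b.2 →
  (∀ x ∈ Zp X p, ∀ y ∈ Zp X p, p x = p y → X.dist x y ≤ c) → S ⊆ Zp X p → T ⊆ Zp X p →
  (∀ x ∈ S, Near X R ρ a x) → (∀ x ∈ T, Near X R ρ b x) →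
  (∃ x ∈ S, ∃ y ∈ S, C0 < X.dist x y) → p '' S = p '' T → R.Eqv a b

/-- LV0: the data for the torsos of `X`.
Uses EFV, NFE, TOG, ZRH (StmtsA), PCL, CFM, CFZ, BGX, ZPZ, ZIN, FIB, TWB, MLT, CIN -/
def Stmt_LV0 : Prop := ∀ (V : Type) (X : SimpleGraph V) (G : Subgroup (Equiv.Perm V))
  (R : Rot V) (lam : ℕ), 1 ≤ lam → X.Connected → (∃ x y, X.Adj x y) → LocFin X → IsAut X G →
  VertFin G → Spanner X R.P lam → R.Planar → ∃ k : ℕ, ∀ v, IsVtx (EE X k) v →
  (ZZ X v).Infinite → ∃ (F : Set (Set (TV v))) (a : Set (TV v) → V × V) (c : ℕ),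
    Dat X R lam (tproj v) (torsoG G v) F a c

/-- FIV: torsos with finite trace are finite, hence accessible. Uses HUA, TFA (StmtsA) -/
def Stmt_FIV : Prop := ∀ (V : Type) (X : SimpleGraph V) (G : Subgroup (Equiv.Perm V))
  (E v : Set (Set V)) (N : ℕ), X.Connected → NestFam X G E N → IsVtx E v →
  (ZZ X v).Finite → Acc (torso X v)

/-- THEOREM A: quasi-transitive locally finite graphs with a planar spanner are accessible.
Uses EFV, NFE, TOA (StmtsA), LV0, LV2, FIV -/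
def Stmt_THA : Prop := ∀ (V : Type) (X : SimpleGraph V) (G : Subgroup (Equiv.Perm V)),
  X.Connected → LocFin X → IsAut X G → VertFin G →
  (∃ (R : Rot V) (lam : ℕ), Spanner X R.P lam ∧ R.Planar) → Acc X

end Pool.Agent.ACC
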