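import Pool.Agent.ACC.Lib

set_option autoImplicit false

namespace Pool.Agent.ACC

namespace TFC_

lemma hub_image {V : Type} (v : Set (Set V)) (C A : Set V) (hC : C ∈ Hub v) (hA : A ⊆ C) :
    (tproj v '' A).Finite := by
  apply Set.Subsingleton.finite
  rintro a ⟨x, hx, rfl⟩ b ⟨y, hy, rfl⟩
  exact Quot.sound (Or.inr ⟨C, hC, hA hx, hA hy⟩)

end TFC_

theorem tfc_proof (h1 : Stmt_HUA) : Stmt_TFC := by
  intro V E v hE hv A hA
  have h3 := (h1 V E v hE hv).2.2.1
  induction hA with
  | base A hA =>
    obtain ⟨C, hC, h | h⟩ := h3 A hA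
    · exact Or.inl (TFC_.hub_image v C A hC h)
    · exact Or.inr (TFC_.hub_image v C Aᶜ hC h)
  | empty => exact Or.inl (by simp)
  | compl A _ ih =>
    rw [compl_compl]
    exact ih.symm
  | inter A B _ _ ihA ihB =>
    rcases ihA with hA | hA
    · exact Or.inl (hA.subset (Set.image_mono Set.inter_subset_left))
    · rcases ihB with hB | hB
      · exact Or.inl (hB.subset (Set.image_mono Set.inter_subset_right))
      · refine Or.inr ?_
        rw [Set.compl_inter, Set.image_union]
        exact hA.union hB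

end Pool.Agent.ACC
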