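import Pool.Agent.ACC.StmtsC

set_option autoImplicit false

namespace Pool.Agent.ACC

theorem zpz_proof (h1 : Stmt_HUA) : Stmt_ZPZ := by
  intro V X E v hconn hedge hN hv
  obtain ⟨_, hdisj, _, hrel⟩ := h1 V E v hN hv
  ext x
  constructor
  · rintro ⟨y, hxy, hne⟩
    by_cases hx : ∃ C ∈ Hub v, x ∈ C
    · obtain ⟨C, hC, hxC⟩ := hx
      have hyC : y ∉ C := fun hyC => hne ((hrel x y).2 (Or.inr ⟨C, hC, hxC, hyC⟩))
      exact Or.inr ⟨C, hC, y, x, y, hxy, hxC, hyC, rfl⟩
    · left
      intro C hC hxC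
      exact hx ⟨C, hC, hxC⟩
  · rintro (hx | ⟨C, hC, y, a, b, hab, haC, hbC, he⟩)
    · have hnb : ∃ y, X.Adj x y := by
        obtain ⟨a, b, hab⟩ := hedge
        have : ∃ z, z ≠ x := by
          by_cases ha : a = x
          · refine ⟨b, fun hb => ?_⟩
            rw [ha, hb] at hab
            exact X.loopless.irrefl x hab
          · exact ⟨a, ha⟩
        obtain ⟨z, hz⟩ := this
        obtain ⟨w⟩ := hconn.preconnected x z
        cases w with
        | nil => exact absurd rfl hz
        | cons h _ => exact ⟨_, h⟩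
      obtain ⟨y, hy⟩ := hnb
      refine ⟨y, hy, fun hEq => ?_⟩
      rcases (hrel x y).1 hEq with h | ⟨C, hC, hxC, _⟩
      · exact hy.ne h
      · exact hx C hC hxC
    · rcases Sym2.eq_iff.1 he with ⟨h1, h2⟩ | ⟨h1, h2⟩
      · subst h1
        subst h2
        refine ⟨y, hab, fun hEq => ?_⟩
        rcases (hrel x y).1 hEq with h | ⟨C', hC', hxC', hyC'⟩
        · exact hab.ne h
        · have hne : C ≠ C' := fun h => hbC (h ▸ hyC')
          exact Set.disjoint_left.1 (hdisj C hC C' hC' hne) haC hxC'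
      · subst h1
        subst h2
        refine ⟨y, hab.symm, fun hEq => ?_⟩
        rcases (hrel x y).1 hEq with h | ⟨C', hC', hxC', hyC'⟩
        · exact hab.ne h.symm
        · have hne : C ≠ C' := fun h => hbC (h ▸ hxC')
          exact Set.disjoint_left.1 (hdisj C hC C' hC' hne) haC hyC'

end Pool.Agent.ACC
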